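import Pool.Agent.VRC.SDefs
import Pool.Agent.VCI.Move
import Pool.Agent.VCI.Trd2
import Pool.Agent.VCI.Basic

/-!
# Generic points of an irreducible variety
-/

set_option autoImplicit false

open MvPolynomial

namespace Pool.Agent.VRC

open Pool.Agent.VGS (Fl adj clo Coef Kills)
open Pool.Agent.VCI (dFc)

variable {n s : ℕ}

namespace IrrA

/-! ### homogenisation -/

/-- The homogenisation with respect to the variable `i`. -/
noncomputable def hmz (i : Fin n) (Q : MvPolynomial (Fin n) ℂ) : MvPolynomial (Fin n) ℂ :=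
  ∑ k ∈ Finset.range (Q.totalDegree + 1),
    X i ^ (Q.totalDegree - k) * homogeneousComponent k Q

theorem hmz_hom (i : Fin n) (Q : MvPolynomial (Fin n) ℂ) :
    (hmz i Q).IsHomogeneous Q.totalDegree := by
  refine IsHomogeneous.sum _ _ _ fun k hk => ?_
  have h := ((isHomogeneous_X ℂ i).pow (Q.totalDegree - k)).mul
    (homogeneousComponent_isHomogeneous k Q)
  have h2 : 1 * (Q.totalDegree - k) + k = Q.totalDegree := by
    have := Finset.mem_range.1 hk
    omega
  rwa [h2] at h

theorem aeval_hmz {i : Fin n} (Q : MvPolynomial (Fin n) ℂ) {w y : Fin n → ℂ} (hw : w i ≠ 0)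
    (hy : ∀ j, y j = (w i)⁻¹ * w j) :
    aeval w (hmz i Q) = w i ^ Q.totalDegree * aeval y Q := by
  have h1 : aeval y Q = ∑ k ∈ Finset.range (Q.totalDegree + 1),
      aeval y (homogeneousComponent k Q) := by
    conv_lhs => rw [← sum_homogeneousComponent Q]
    rw [map_sum]
  rw [h1, Finset.mul_sum, hmz, map_sum]
  refine Finset.sum_congr rfl fun k hk => ?_
  rw [map_mul, map_pow, aeval_X, VCI.aeval_scale (homogeneousComponent_isHomogeneous k Q) hy]
  have h3 : Q.totalDegree = (Q.totalDegree - k) + k := by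
    have := Finset.mem_range.1 hk
    omega
  have h4 : w i ^ Q.totalDegree = w i ^ (Q.totalDegree - k) * w i ^ k := by
    rw [← pow_add, ← h3]
  have h5 : w i ^ k * ((w i)⁻¹) ^ k = 1 := by
    rw [← mul_pow, mul_inv_cancel₀ hw, one_pow]
  rw [h4]
  linear_combination (-(w i ^ (Q.totalDegree - k) * aeval w (homogeneousComponent k Q))) * h5

theorem cone_scale {h : Fin s → MvPolynomial (Fin n) ℂ} (homh : ∀ j, ∃ e, (h j).IsHomogeneous e)
    {w y : Fin n → ℂ} {a : ℂ} (ha : a ≠ 0) (hw : w ∈ cone h) (hy : ∀ j, y j = a * w j) :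
    y ∈ cone h := by
  refine ⟨fun h0 => hw.1 ?_, fun j => ?_⟩
  · funext l
    have h1 := congrFun h0 l
    rw [hy l] at h1
    simpa [ha] using h1
  · obtain ⟨e, he⟩ := homh j
    rw [VCI.aeval_scale he hy, hw.2 j, mul_zero]

/-! ### the ideal of relations and the generic point -/

/-- The relations over `k` which hold on the part `x i = 1` of the cone. -/
noncomputable def idl (h : Fin s → MvPolynomial (Fin n) ℂ) (i : Fin n) (k : Fl) :
    Ideal (MvPolynomial (Fin n) k) where
  carrier := {Q | ∀ y ∈ cone h, y i = 1 → aeval y Q = 0}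
  zero_mem' := fun y _ _ => map_zero _
  add_mem' := fun {a b} ha hb y hy hyi => by rw [map_add, ha y hy hyi, hb y hy hyi, add_zero]
  smul_mem' := fun c a ha y hy hyi => by
    rw [smul_eq_mul, map_mul, ha y hy hyi, mul_zero]

theorem mem_idl {h : Fin s → MvPolynomial (Fin n) ℂ} {i : Fin n} {k : Fl}
    {Q : MvPolynomial (Fin n) k} :
    Q ∈ idl h i k ↔ ∀ y ∈ cone h, y i = 1 → aeval y Q = 0 := Iff.rfl

theorem idl_prime {h : Fin s → MvPolynomial (Fin n) ℂ} (hirr : IsIrr h)
    (homh : ∀ j, ∃ e, (h j).IsHomogeneous e) {z : Fin n → ℂ} (hz : z ∈ cone h) {i : Fin n}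
    (hzi : z i = 1) (k : Fl) : (idl h i k).IsPrime := by
  refine ⟨fun h0 => ?_, fun {a b} hab => ?_⟩
  · have h1 : (1 : MvPolynomial (Fin n) k) ∈ idl h i k := by rw [h0]; trivial
    have h2 := h1 z hz hzi
    rw [map_one] at h2
    exact one_ne_zero h2
  · set a' : MvPolynomial (Fin n) ℂ := map (algebraMap k ℂ) a with ha'
    set b' : MvPolynomial (Fin n) ℂ := map (algebraMap k ℂ) b with hb'
    have hea : ∀ y : Fin n → ℂ, aeval y a' = aeval y a := fun y => aeval_map_algebraMap ℂ y a
    have heb : ∀ y : Fin n → ℂ, aeval y b' = aeval y b := fun y => aeval_map_algebraMap ℂ y b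
    have key : ∀ w ∈ cone h, aeval w (X i * hmz i a') * aeval w (hmz i b') = 0 := by
      intro w hw
      by_cases hwi : w i = 0
      · rw [map_mul, aeval_X, hwi, zero_mul, zero_mul]
      · have hy : ∀ j, (fun j => (w i)⁻¹ * w j) j = (w i)⁻¹ * w j := fun j => rfl
        have h1 := cone_scale homh (inv_ne_zero hwi) hw hy
        have h2 : (fun j => (w i)⁻¹ * w j) i = 1 := inv_mul_cancel₀ hwi
        have h3 := hab _ h1 h2
        rw [map_mul, ← hea, ← heb] at h3
        rw [map_mul, aeval_hmz a' hwi hy, aeval_hmz b' hwi hy]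
        linear_combination (aeval w (X i : MvPolynomial (Fin n) ℂ) * w i ^ a'.totalDegree *
          w i ^ b'.totalDegree) * h3
    have hhom := (isHomogeneous_X ℂ i).mul (hmz_hom i a')
    rcases hirr.2 _ _ _ _ hhom (hmz_hom i b') key with h1 | h1
    · left
      intro y hy hyi
      have h2 := h1 y hy
      have h3 : ∀ j, y j = (y i)⁻¹ * y j := fun j => by rw [hyi, inv_one, one_mul]
      rw [map_mul, aeval_X, aeval_hmz a' (by rw [hyi]; exact one_ne_zero) h3, hyi, one_pow,
        one_mul, one_mul, hea] at h2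
      exact h2
    · right
      intro y hy hyi
      have h2 := h1 y hy
      have h3 : ∀ j, y j = (y i)⁻¹ * y j := fun j => by rw [hyi, inv_one, one_mul]
      rw [aeval_hmz b' (by rw [hyi]; exact one_ne_zero) h3, hyi, one_pow, one_mul, heb] at h2
      exact h2

/-- A generic point of the part `x i = 1` of the cone. -/
theorem exists_eta {h : Fin s → MvPolynomial (Fin n) ℂ} (hirr : IsIrr h)
    (homh : ∀ j, ∃ e, (h j).IsHomogeneous e) {z : Fin n → ℂ} (hz : z ∈ cone h) {i : Fin n}
    (hzi : z i = 1) (k : Fl) [Countable k] :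
    ∃ η : Fin n → ℂ, η i = 1 ∧ ∀ P : MvPolynomial (Fin n) ℂ, Coef k P →
      (aeval η P = 0 ↔ ∀ y ∈ cone h, y i = 1 → aeval y P = 0) := by
  have hp := idl_prime hirr homh hz hzi k
  obtain ⟨ψ, h1, h2⟩ := VCI.exists_hom (idl h i k)
  set η : Fin n → ℂ := fun j => ψ (X j) with hη
  have h3 : ∀ f : MvPolynomial (Fin n) k, ψ f = aeval η f := by
    intro f
    have h4 : ψ = ((aeval η : MvPolynomial (Fin n) k →ₐ[k] ℂ) : MvPolynomial (Fin n) k →+* ℂ) := by
      apply MvPolynomial.ringHom_ext
      · intro c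
        rw [h1 c]
        simp
      · intro j
        simp [hη]
    rw [h4]
    rfl
  refine ⟨η, ?_, fun P hP => ?_⟩
  · have h4 : (X i - 1 : MvPolynomial (Fin n) k) ∈ idl h i k := by
      intro y _ hyi
      rw [map_sub, aeval_X, map_one, hyi, sub_self]
    have h5 := (h2 _).2 h4
    rw [map_sub, map_one, sub_eq_zero] at h5
    exact h5
  · obtain ⟨P₀, rfl⟩ := VGS.coef_iff.1 hP
    rw [aeval_map_algebraMap, ← h3, h2, mem_idl]
    refine forall_congr' fun y => ?_
    rw [aeval_map_algebraMap]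

end IrrA

namespace IrrA

/-! ### minors -/

theorem exists_rows {m l : ℕ} (A : Matrix (Fin m) (Fin l) ℂ) :
    ∃ I : Fin A.rank → Fin m, LinearIndependent ℂ fun a => A.row (I a) := by
  obtain ⟨κ, a, ha, hsp, hli⟩ := exists_linearIndependent' ℂ A.row
  have hfin : Finite κ := Finite.of_injective a ha
  have hft : Fintype κ := Fintype.ofFinite κ
  have h1 : Fintype.card κ = A.rank := by
    rw [Matrix.rank_eq_finrank_span_row, ← hsp]
    exact (finrank_span_eq_card hli).symm
  let e : Fin A.rank ≃ κ := (Fintype.equivFinOfCardEq h1).symm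
  exact ⟨fun b => a (e b), hli.comp e e.injective⟩

theorem exists_minor {m l : ℕ} (A : Matrix (Fin m) (Fin l) ℂ) :
    ∃ (I : Fin A.rank → Fin m) (J : Fin A.rank → Fin l), (A.submatrix I J).det ≠ 0 := by
  obtain ⟨I, hI⟩ := exists_rows A
  set B : Matrix (Fin A.rank) (Fin l) ℂ := A.submatrix I id with hB
  have hBr : B.rank = A.rank := by
    have h1 : LinearIndependent ℂ B.row := hI
    rw [h1.rank_matrix, Fintype.card_fin]
  obtain ⟨J, hJ⟩ := exists_rows B.transpose
  have hr : B.transpose.rank = A.rank := by rw [Matrix.rank_transpose, hBr]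
  let c : Fin A.rank ≃ Fin B.transpose.rank := finCongr hr.symm
  refine ⟨I, fun b => J (c b), ?_⟩
  have h2 : LinearIndependent ℂ ((A.submatrix I fun b => J (c b)).transpose).row :=
    hJ.comp c c.injective
  have h3 : IsUnit ((A.submatrix I fun b => J (c b)).transpose) :=
    Matrix.linearIndependent_rows_iff_isUnit.1 h2
  have h4 := (Matrix.isUnit_iff_isUnit_det _).1 h3
  rw [Matrix.det_transpose] at h4
  exact h4.ne_zero

theorem rank_le_of_minor {m l : ℕ} (A B : Matrix (Fin m) (Fin l) ℂ)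
    (h : ∀ (ρ : ℕ) (I : Fin ρ → Fin m) (J : Fin ρ → Fin l), (A.submatrix I J).det ≠ 0 →
      (B.submatrix I J).det ≠ 0) : A.rank ≤ B.rank := by
  obtain ⟨I, J, hIJ⟩ := exists_minor A
  have h1 := h _ I J hIJ
  have h2 : (B.submatrix I J).rank = A.rank := by
    rw [Matrix.rank_of_isUnit _ ((Matrix.isUnit_iff_isUnit_det _).2 (Ne.isUnit h1)),
      Fintype.card_fin]
  rw [← h2]
  exact Matrix.rank_submatrix_le B I J

theorem no_indep_of_rank {m l q : ℕ} {A B : Matrix (Fin m) (Fin l) ℂ} (hr : A.rank ≤ B.rank)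
    (hA : ∀ v : Fin q → Fin l → ℂ, (∀ a, A.mulVec (v a) = 0) → ¬ LinearIndependent ℂ v)
    (v : Fin q → Fin l → ℂ) (hv : ∀ a, B.mulVec (v a) = 0) : ¬ LinearIndependent ℂ v := by
  intro hli
  have hkA := A.mulVecLin.finrank_range_add_finrank_ker
  have hkB := B.mulVecLin.finrank_range_add_finrank_ker
  rw [Module.finrank_fintype_fun_eq_card, Fintype.card_fin] at hkA hkB
  have h1 : A.rank = Module.finrank ℂ (LinearMap.range A.mulVecLin) := rfl
  have h2 : B.rank = Module.finrank ℂ (LinearMap.range B.mulVecLin) := rfl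
  -- `q` independent vectors in the kernel of `B`
  have h3 : q ≤ Module.finrank ℂ (LinearMap.ker B.mulVecLin) := by
    have hmem : ∀ a, v a ∈ LinearMap.ker B.mulVecLin := fun a => by
      rw [LinearMap.mem_ker, Matrix.mulVecLin_apply]
      exact hv a
    have h4 : LinearIndependent ℂ fun a => (⟨v a, hmem a⟩ : LinearMap.ker B.mulVecLin) :=
      LinearIndependent.of_comp (LinearMap.ker B.mulVecLin).subtype hli
    have h5 := h4.fintype_card_le_finrank
    rwa [Fintype.card_fin] at h5
  have h6 : q ≤ Module.finrank ℂ (LinearMap.ker A.mulVecLin) := by omega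
  obtain ⟨u, hu⟩ := exists_linearIndependent_of_le_finrank h6
  refine hA (fun a => (u a : Fin l → ℂ)) (fun a => ?_) ?_
  · have h7 := (u a).2
    rw [LinearMap.mem_ker, Matrix.mulVecLin_apply] at h7
    exact h7
  · exact hu.map' (LinearMap.ker A.mulVecLin).subtype (Submodule.ker_subtype _)

/-- The Jacobian matrix. -/
noncomputable def jac (h : Fin s → MvPolynomial (Fin n) ℂ) (z : Fin n → ℂ) :
    Matrix (Fin s) (Fin n) ℂ := Matrix.of fun j l => aeval z (pderiv l (h j))

theorem jac_mulVec (h : Fin s → MvPolynomial (Fin n) ℂ) (z v : Fin n → ℂ) (j : Fin s) :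
    (jac h z).mulVec v j = dFc (h j) z v := by
  rw [dFc, Matrix.mulVec, dotProduct]
  refine Finset.sum_congr rfl fun l _ => ?_
  rw [jac, Matrix.of_apply, mul_comm]

/-- The tangent space at the generic point is not bigger than at `z`. -/
theorem ker_gen {h : Fin s → MvPolynomial (Fin n) ℂ} {k : Fl} (hk : ∀ j, Coef k (h j))
    {z η : Fin n → ℂ} (hspec : ∀ P : MvPolynomial (Fin n) ℂ, Coef k P → aeval η P = 0 →
      aeval z P = 0) {q : ℕ}
    (htan : ∀ v : Fin q → Fin n → ℂ, (∀ a j, dFc (h j) z (v a) = 0) → ¬ LinearIndependent ℂ v)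
    (v : Fin q → Fin n → ℂ) (hv : ∀ a j, dFc (h j) η (v a) = 0) : ¬ LinearIndependent ℂ v := by
  have hr : (jac h z).rank ≤ (jac h η).rank := by
    refine rank_le_of_minor _ _ fun ρ I J hIJ h0 => hIJ ?_
    -- the minor as a polynomial over `k`
    choose h₀ hh₀ using fun j => VGS.coef_iff.1 (hk j)
    set D : MvPolynomial (Fin n) k :=
      (Matrix.of fun a b : Fin ρ => pderiv (J b) (h₀ (I a))).det with hD
    have hval : ∀ x : Fin n → ℂ, ((jac h x).submatrix I J).det =
        aeval x (map (algebraMap k ℂ) D) := by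
      intro x
      rw [aeval_map_algebraMap, hD, AlgHom.map_det]
      congr 1
      ext a b
      rw [Matrix.submatrix_apply, jac, Matrix.of_apply, AlgHom.mapMatrix_apply, Matrix.map_apply,
        Matrix.of_apply, ← hh₀ (I a), pderiv_map, aeval_map_algebraMap]
    rw [hval] at h0 ⊢
    exact hspec _ (VGS.coef_iff.2 ⟨D, rfl⟩) h0
  refine no_indep_of_rank hr (fun u hu => htan u fun a j => ?_) v fun a => ?_
  · rw [← jac_mulVec, hu a, Pi.zero_apply]
  · funext j
    rw [jac_mulVec, hv a j, Pi.zero_apply]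

/-! ### the dimension of the generic point -/

theorem eta_dep {h : Fin s → MvPolynomial (Fin n) ℂ} (homh : ∀ j, ∃ e, (h j).IsHomogeneous e)
    {k : Fl} (hk : ∀ j, Coef k (h j)) {η : Fin n → ℂ} {i : Fin n} (hηi : η i = 1)
    (hη : ∀ j, aeval η (h j) = 0) {e : ℕ}
    (hker : ∀ v : Fin (e + 2) → Fin n → ℂ, (∀ a j, dFc (h j) η (v a) = 0) →
      ¬ LinearIndependent ℂ v) (f : Fin (e + 1) → Fin n) :
    ¬ AlgebraicIndependent k fun b => η (f b) := by
  classical
  intro hai
  choose D hD hDf using fun a : Fin (e + 1) =>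
    VCI.exists_kills_fam k hai (fun b => if b = a then 1 else 0)
  set v : Fin (e + 2) → Fin n → ℂ := Fin.cons η fun a l => D a (η l) with hv
  refine hker v (fun a j => ?_) ?_
  · refine Fin.cases ?_ (fun a => ?_) a
    · rw [hv, Fin.cons_zero, dFc]
      obtain ⟨d, hd⟩ := homh j
      have h1 := congrArg (aeval η) hd.sum_X_mul_pderiv
      rw [map_sum] at h1
      simp only [map_mul, aeval_X] at h1
      rw [h1, map_nsmul, hη j, smul_zero]
    · rw [hv, Fin.cons_succ, dFc]
      have h1 := VCI.der_aeval' (hk j) (hD a) η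
      rw [hη j, map_zero] at h1
      rw [h1]
      exact Finset.sum_congr rfl fun l _ => mul_comm _ _
  · rw [Fintype.linearIndependent_iff]
    intro g hg
    have hco : ∀ l, g 0 * η l + ∑ a : Fin (e + 1), g a.succ * D a (η l) = 0 := by
      intro l
      have h1 := congrFun hg l
      rw [Fin.sum_univ_succ, hv] at h1
      simp only [Fin.cons_zero, Fin.cons_succ, Pi.add_apply, Pi.smul_apply, smul_eq_mul,
        Finset.sum_apply, Pi.zero_apply] at h1
      exact h1
    have h0 : g 0 = 0 := by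
      have h1 := hco i
      simp only [hηi, mul_one] at h1
      have h3 : ∀ a : Fin (e + 1), D a 1 = 0 := fun a => (D a).map_one_eq_zero
      simpa [h3] using h1
    intro a
    refine Fin.cases h0 (fun a => ?_) a
    have h1 := hco (f a)
    simp only [h0, zero_mul, zero_add, hDf] at h1
    simpa using h1

/-! ### a relation with constant term -/

theorem alg_rel {k : Fl} {e : ℕ} {x : Fin e → ℂ} {t : ℂ} (ht0 : t ≠ 0)
    (ht : t ∈ clo (adj k (Set.range x))) :
    ∃ (N : ℕ) (R : ℕ → MvPolynomial (Fin e) k), R 0 ≠ 0 ∧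
      ∑ m ∈ Finset.range (N + 1), aeval x (R m) * t ^ m = 0 := by
  obtain ⟨p, hp, h0⟩ := VGS.mem_clo_adj.1 ht
  obtain ⟨q, hq, hq'⟩ := Polynomial.exists_eq_pow_rootMultiplicity_mul_and_not_dvd p hp 0
  rw [map_zero, sub_zero] at hq hq'
  have hq0 : q.coeff 0 ≠ 0 := fun h => hq' (Polynomial.X_dvd_iff.2 h)
  have hqt : Polynomial.aeval t q = 0 := by
    rw [hq, map_mul, map_pow, Polynomial.aeval_X] at h0
    exact (mul_eq_zero.1 h0).resolve_left (pow_ne_zero _ ht0)
  have hc : ∀ m, ∃ r : MvPolynomial (Fin e) k, aeval x r = (q.coeff m : ℂ) := by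
    intro m
    obtain ⟨r, hr⟩ := (Algebra.adjoin_range_eq_range_aeval k x).le (q.coeff m).2
    exact ⟨r, hr⟩
  choose R hR using hc
  refine ⟨q.natDegree, R, fun h => hq0 ?_, ?_⟩
  · have h1 := hR 0
    rw [h, map_zero] at h1
    exact Subtype.ext h1.symm
  · rw [Polynomial.aeval_eq_sum_range] at hqt
    rw [← hqt]
    refine Finset.sum_congr rfl fun m _ => ?_
    rw [hR m, Algebra.smul_def]
    rfl

end IrrA

open IrrA

/-- **Generic points of an irreducible variety**: if `e` coordinates of `z` are independent over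
`L` and the tangent space of the cone at `z` has dimension at most `e + 1`, then all homogeneous
relations of `z` over the closure of `L` hold on the variety. -/
theorem gen_rel {s n : ℕ} {h : Fin s → MvPolynomial (Fin n) ℂ} (hirr : IsIrr h)
    (homh : ∀ j, ∃ e, (h j).IsHomogeneous e) (L : Fl) [Countable L] (hL : ∀ j, Coef L (h j))
    {e : ℕ} {z : Fin n → ℂ} (hz : z ∈ cone h) {i : Fin n} (hzi : z i = 1) (f : Fin e → Fin n)
    (hf : AlgebraicIndependent L fun b => z (f b))
    (htan : ∀ v : Fin (e + 2) → Fin n → ℂ, (∀ a j, dFc (h j) z (v a) = 0) →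
      ¬ LinearIndependent ℂ v) {P : MvPolynomial (Fin n) ℂ} {e' : ℕ} (hP : P.IsHomogeneous e')
    (hPL : Coef (clo L) P) (hPz : aeval z P = 0) : ∀ y ∈ cone h, aeval y P = 0 := by
  classical
  have hck : Countable (clo L) := VGS.countable_clo L
  have hk : ∀ j, Coef (clo L) (h j) := fun j => (hL j).mono (VGS.le_clo L)
  obtain ⟨η, hηi, hη⟩ := exists_eta hirr homh hz hzi (clo L)
  have hspec : ∀ Q : MvPolynomial (Fin n) ℂ, Coef (clo L) Q → aeval η Q = 0 → aeval z Q = 0 :=
    fun Q hQ h0 => (hη Q hQ).1 h0 z hz hzi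
  have hηh : ∀ j, aeval η (h j) = 0 := fun j => (hη _ (hk j)).2 fun y hy _ => hy.2 j
  have hdep := fun g : Fin (e + 1) → Fin n =>
    eta_dep homh hk hηi hηh (ker_gen hk hspec htan) g
  have hfz : AlgebraicIndependent (clo L) fun b => z (f b) := VGS.ai_clo.2 hf
  -- the coordinates of `η` are independent
  have hfη : AlgebraicIndependent (clo L) fun b => η (f b) := by
    rw [VGS.ai_iff] at hfz ⊢
    intro Q hQ h0
    refine hfz Q hQ ?_
    obtain ⟨Q₀, rfl⟩ := VGS.coef_iff.1 hQ
    have h1 : Coef (clo L) (rename f (map (algebraMap (clo L) ℂ) Q₀)) :=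
      VGS.coef_iff.2 ⟨rename f Q₀, map_rename _ _ _⟩
    have h2 := hspec _ h1 (by rw [aeval_rename]; exact h0)
    rw [aeval_rename] at h2
    exact h2
  -- all coordinates of `η` are algebraic over them
  have halg : ∀ l, η l ∈ clo (adj (clo L) (Set.range fun b => η (f b))) := by
    intro l
    by_contra hl
    have h1 : AlgebraicIndependent (clo L)
        (Sum.elim (fun b => η (f b)) fun _ : Fin 1 => η l) :=
      VGS.ai_sum.2 ⟨hfη, algebraicIndependent_unique_type_iff.2 fun h => hl (VGS.mem_clo.2 h)⟩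
    refine hdep (fun a => Sum.elim f (fun _ : Fin 1 => l) (finSumFinEquiv.symm a)) ?_
    have h2 := h1.comp (finSumFinEquiv (m := e) (n := 1)).symm
      (finSumFinEquiv (m := e) (n := 1)).symm.injective
    have h3 : (Sum.elim (fun b => η (f b)) fun _ : Fin 1 => η l) ∘
        (finSumFinEquiv (m := e) (n := 1)).symm =
        fun a => η (Sum.elim f (fun _ : Fin 1 => l) (finSumFinEquiv.symm a)) := by
      funext a
      rcases h : (finSumFinEquiv (m := e) (n := 1)).symm a with b | b <;>
        simp [Function.comp, h]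
    rwa [h3] at h2
  have hPalg : aeval η P ∈ clo (adj (clo L) (Set.range fun b => η (f b))) := by
    refine VGS.aeval_mem (hPL.mono ?_) halg
    exact (VGS.le_adj _ _).trans (VGS.le_clo _)
  have hPη : aeval η P = 0 := by
    by_contra hne
    obtain ⟨N, R, hR0, hR⟩ := alg_rel hne hPalg
    obtain ⟨P₀, rfl⟩ := VGS.coef_iff.1 hPL
    set S : MvPolynomial (Fin n) (clo L) := ∑ m ∈ Finset.range (N + 1), rename f (R m) * P₀ ^ m
      with hS
    have hval : ∀ x : Fin n → ℂ, aeval x (map (algebraMap (clo L) ℂ) S) =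
        ∑ m ∈ Finset.range (N + 1), aeval (fun b => x (f b)) (R m) * aeval x P₀ ^ m := by
      intro x
      rw [aeval_map_algebraMap, hS, map_sum]
      refine Finset.sum_congr rfl fun m _ => ?_
      rw [map_mul, map_pow, aeval_rename]
      rfl
    have h1 : aeval η (map (algebraMap (clo L) ℂ) S) = 0 := by
      rw [hval, ← hR]
      refine Finset.sum_congr rfl fun m _ => ?_
      rw [aeval_map_algebraMap]
    have h2 := hspec _ (VGS.coef_iff.2 ⟨S, rfl⟩) h1
    rw [aeval_map_algebraMap] at hPz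
    rw [hval, Finset.sum_range_succ'] at h2
    simp only [hPz, pow_zero, mul_one] at h2
    have h3 : ∀ m : ℕ, (0 : ℂ) ^ (m + 1) = 0 := fun m => zero_pow (Nat.succ_ne_zero m)
    simp only [h3, mul_zero, Finset.sum_const_zero, zero_add] at h2
    exact hR0 ((algebraicIndependent_iff.1 hfz) _ h2)
  -- conclusion
  have hcone := (hη P hPL).1 hPη
  have key : ∀ w ∈ cone h, aeval w (X i : MvPolynomial (Fin n) ℂ) * aeval w P = 0 := by
    intro w hw
    rw [aeval_X]
    by_cases hwi : w i = 0
    · rw [hwi, zero_mul]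
    · have hy : ∀ j, (fun j => (w i)⁻¹ * w j) j = (w i)⁻¹ * w j := fun j => rfl
      have h1 := hcone _ (cone_scale homh (inv_ne_zero hwi) hw hy) (inv_mul_cancel₀ hwi)
      rw [VCI.aeval_scale hP hy] at h1
      rw [(mul_eq_zero.1 h1).resolve_left (pow_ne_zero _ (inv_ne_zero hwi)), mul_zero]
  rcases hirr.2 _ _ _ _ (isHomogeneous_X ℂ i) hP key with h1 | h1
  · exfalso
    have h2 := h1 z hz
    rw [aeval_X, hzi] at h2
    exact one_ne_zero h2
  · exact h1

end Pool.Agent.VRC
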