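import Pool.Agent.VRC.LinB
import Pool.Agent.VRC.Irr
import Pool.Agent.VCI.Tau

/-! Surfaces in rationally connected varieties: bihomogeneous relations of two independent generic
points. -/

set_option autoImplicit false

open scoped LinearAlgebra.Projectivization
open MvPolynomial

namespace Pool.Agent.VRC

open Pool.Agent.VGS (Fl adj clo Coef Kills IsPl Sp le_adj le_clo subset_adj adj_le clo_mono ai_mono
  ai_iff ai_sum mem_clo mem_clo_adj adj_adj ai_clo clo_clo aeval_mem exists_algInd clo_adj_le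
  aeval_fix coef_iff)
open Pool.Agent.VCI

variable {m n r : ℕ}

/-! ### coefficients -/

theorem coef_C {ι : Type} {L : Fl} {x : ℂ} (hx : x ∈ L) : Coef L (C x : MvPolynomial ι ℂ) := by
  classical
  intro m
  rw [coeff_C]
  split_ifs
  · exact hx
  · exact L.zero_mem

theorem coef_X {ι : Type} {L : Fl} (i : ι) : Coef L (X i : MvPolynomial ι ℂ) := by
  classical
  intro m
  rw [coeff_X]
  split_ifs
  · exact L.one_mem
  · exact L.zero_mem

theorem coef_aeval {ι κ : Type} {L : Fl} {P : MvPolynomial ι ℂ} (hP : Coef L P)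
    {x : ι → MvPolynomial κ ℂ} (hx : ∀ i, Coef L (x i)) : Coef L (aeval x P) := by
  have hS : ∀ Q : MvPolynomial κ ℂ, Coef L Q ↔
      Q ∈ (MvPolynomial.map (σ := κ) (algebraMap L ℂ)).range := by
    intro Q
    rw [coef_iff]
    rfl
  rw [hS, aeval_def, eval₂_eq]
  refine sum_mem fun m _ => mul_mem ?_ (prod_mem fun i _ => pow_mem ((hS _).1 (hx i)) _)
  exact (hS _).1 (coef_C (hP m))

/-! ### bihomogeneous polynomials -/

theorem IsBiHom.scale {P : MvPolynomial (Fin n ⊕ Fin n) ℂ} {e e' : ℕ} (hP : IsBiHom P e e')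
    (z z' : Fin n → ℂ) (a b : ℂ) :
    aeval (Sum.elim (fun i => a * z i) (fun i => b * z' i)) P =
      a ^ e * b ^ e' * aeval (Sum.elim z z') P := by
  rw [aeval_def, aeval_def, eval₂_eq', eval₂_eq', Finset.mul_sum]
  refine Finset.sum_congr rfl fun u hu => ?_
  obtain ⟨h1, h2⟩ := hP u hu
  rw [Fintype.prod_sum_type, Fintype.prod_sum_type]
  simp only [Sum.elim_inl, Sum.elim_inr, mul_pow, Finset.prod_mul_distrib,
    Finset.prod_pow_eq_pow_sum, h1, h2]
  ring

/-- substitution in the first group -/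
noncomputable def subL (z : Fin n → ℂ) (P : MvPolynomial (Fin n ⊕ Fin n) ℂ) :
    MvPolynomial (Fin n) ℂ := aeval (Sum.elim (fun i => C (z i)) X) P

/-- substitution in the second group -/
noncomputable def subR (z : Fin n → ℂ) (P : MvPolynomial (Fin n ⊕ Fin n) ℂ) :
    MvPolynomial (Fin n) ℂ := aeval (Sum.elim X (fun i => C (z i))) P

theorem aeval_subL (z y : Fin n → ℂ) (P : MvPolynomial (Fin n ⊕ Fin n) ℂ) :
    aeval y (subL z P) = aeval (Sum.elim z y) P := by
  unfold subL
  rw [MvPolynomial.comp_aeval_apply]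
  congr 2
  funext o
  rcases o with i | i
  · simp
  · simp

theorem aeval_subR (z y : Fin n → ℂ) (P : MvPolynomial (Fin n ⊕ Fin n) ℂ) :
    aeval y (subR z P) = aeval (Sum.elim y z) P := by
  unfold subR
  rw [MvPolynomial.comp_aeval_apply]
  congr 2
  funext o
  rcases o with i | i
  · simp
  · simp

theorem coef_subL {L : Fl} {z : Fin n → ℂ} (hz : ∀ i, z i ∈ L)
    {P : MvPolynomial (Fin n ⊕ Fin n) ℂ} (hP : Coef L P) : Coef L (subL z P) := by
  refine coef_aeval hP ?_
  rintro (i | i)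
  · exact coef_C (hz i)
  · exact coef_X i

theorem coef_subR {L : Fl} {z : Fin n → ℂ} (hz : ∀ i, z i ∈ L)
    {P : MvPolynomial (Fin n ⊕ Fin n) ℂ} (hP : Coef L P) : Coef L (subR z P) := by
  refine coef_aeval hP ?_
  rintro (i | i)
  · exact coef_X i
  · exact coef_C (hz i)

theorem IsBiHom.subL {P : MvPolynomial (Fin n ⊕ Fin n) ℂ} {e e' : ℕ} (hP : IsBiHom P e e')
    (z : Fin n → ℂ) : (subL z P).IsHomogeneous e' := by
  unfold VRC.subL
  rw [aeval_def, eval₂_eq']
  refine IsHomogeneous.sum _ _ _ fun u hu => ?_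
  obtain ⟨h1, h2⟩ := hP u hu
  rw [Fintype.prod_sum_type]
  simp only [Sum.elim_inl, Sum.elim_inr]
  have h3 : (∏ i : Fin n, (C (z i) : MvPolynomial (Fin n) ℂ) ^ u (Sum.inl i)).IsHomogeneous 0 := by
    have h4 := IsHomogeneous.prod (Finset.univ : Finset (Fin n))
      (fun i => (C (z i) : MvPolynomial (Fin n) ℂ) ^ u (Sum.inl i)) (fun _ => 0) (fun i _ => by
        have h5 := (isHomogeneous_C (Fin n) (z i)).pow (u (Sum.inl i))
        rwa [zero_mul] at h5)
    rwa [Finset.sum_const_zero] at h4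
  have h6 : (∏ i : Fin n, (X i : MvPolynomial (Fin n) ℂ) ^ u (Sum.inr i)).IsHomogeneous e' := by
    have h4 := IsHomogeneous.prod (Finset.univ : Finset (Fin n))
      (fun i => (X i : MvPolynomial (Fin n) ℂ) ^ u (Sum.inr i)) (fun i => u (Sum.inr i))
      (fun i _ => by
        have h5 := (isHomogeneous_X ℂ i).pow (u (Sum.inr i))
        rwa [one_mul] at h5)
    rwa [h2] at h4
  have h7 := (isHomogeneous_C (Fin n) (coeff u P)).mul (h3.mul h6)
  rw [zero_add, zero_add] at h7
  exact h7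

theorem IsBiHom.subR {P : MvPolynomial (Fin n ⊕ Fin n) ℂ} {e e' : ℕ} (hP : IsBiHom P e e')
    (z : Fin n → ℂ) : (subR z P).IsHomogeneous e := by
  unfold VRC.subR
  rw [aeval_def, eval₂_eq']
  refine IsHomogeneous.sum _ _ _ fun u hu => ?_
  obtain ⟨h1, h2⟩ := hP u hu
  rw [Fintype.prod_sum_type]
  simp only [Sum.elim_inl, Sum.elim_inr]
  have h3 : (∏ i : Fin n, (C (z i) : MvPolynomial (Fin n) ℂ) ^ u (Sum.inr i)).IsHomogeneous 0 := by
    have h4 := IsHomogeneous.prod (Finset.univ : Finset (Fin n))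
      (fun i => (C (z i) : MvPolynomial (Fin n) ℂ) ^ u (Sum.inr i)) (fun _ => 0) (fun i _ => by
        have h5 := (isHomogeneous_C (Fin n) (z i)).pow (u (Sum.inr i))
        rwa [zero_mul] at h5)
    rwa [Finset.sum_const_zero] at h4
  have h6 : (∏ i : Fin n, (X i : MvPolynomial (Fin n) ℂ) ^ u (Sum.inl i)).IsHomogeneous e := by
    have h4 := IsHomogeneous.prod (Finset.univ : Finset (Fin n))
      (fun i => (X i : MvPolynomial (Fin n) ℂ) ^ u (Sum.inl i)) (fun i => u (Sum.inl i))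
      (fun i _ => by
        have h5 := (isHomogeneous_X ℂ i).pow (u (Sum.inl i))
        rwa [one_mul] at h5)
    rwa [h1] at h4
  have h7 := (isHomogeneous_C (Fin n) (coeff u P)).mul (h6.mul h3)
  rw [zero_add, add_zero] at h7
  exact h7

/-- the weights of the two groups of variables -/
def bw : Fin n ⊕ Fin n → ℕ × ℕ := Sum.elim (fun _ => (1, 0)) (fun _ => (0, 1))

theorem weight_bw (u : Fin n ⊕ Fin n →₀ ℕ) :
    Finsupp.weight bw u = (∑ i, u (Sum.inl i), ∑ i, u (Sum.inr i)) := by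
  rw [Finsupp.weight_apply, Finsupp.sum_fintype u (fun i c => c • bw i)
    (fun i => zero_smul ℕ (bw i)), Fintype.sum_sum_type]
  ext <;> simp [bw, Prod.fst_sum, Prod.snd_sum]

theorem isBiHom_comp (B : MvPolynomial (Fin n ⊕ Fin n) ℂ) (e : ℕ × ℕ) :
    IsBiHom (weightedHomogeneousComponent bw e B) e.1 e.2 := by
  classical
  intro u hu
  rw [mem_support_iff, coeff_weightedHomogeneousComponent] at hu
  have h1 : Finsupp.weight bw u = e := by
    by_contra h2
    rw [if_neg h2] at hu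
    exact hu rfl
  rw [weight_bw] at h1
  exact ⟨congrArg Prod.fst h1, congrArg Prod.snd h1⟩

theorem coef_comp {L : Fl} {B : MvPolynomial (Fin n ⊕ Fin n) ℂ} (hB : Coef L B) (e : ℕ × ℕ) :
    Coef L (weightedHomogeneousComponent bw e B) := by
  classical
  intro u
  rw [coeff_weightedHomogeneousComponent]
  split_ifs
  · exact hB u
  · exact L.zero_mem

/-- a polynomial in two variables with many zeros -/
theorem coeff_zero_of {S : Finset (ℕ × ℕ)} {w : ℕ × ℕ → ℂ}
    (h : ∀ a b : ℂ, a ≠ 0 → b ≠ 0 → ∑ e ∈ S, a ^ e.1 * b ^ e.2 * w e = 0) : ∀ e ∈ S, w e = 0 := by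
  classical
  intro e₀ he₀
  let ex : ℕ × ℕ → (Fin 2 →₀ ℕ) := fun e => Finsupp.single 0 e.1 + Finsupp.single 1 e.2
  have hex : Function.Injective ex := by
    intro e e' hee
    have h0 := DFunLike.congr_fun hee 0
    have h1 := DFunLike.congr_fun hee 1
    simp [ex] at h0 h1
    exact Prod.ext h0 h1
  let Q : MvPolynomial (Fin 2) ℂ := ∑ e ∈ S, monomial (ex e) (w e)
  have hQ : X 0 * X 1 * Q = 0 := by
    refine MvPolynomial.funext fun x => ?_
    rw [map_mul, map_mul, eval_X, eval_X, map_zero]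
    by_cases h0 : x 0 = 0
    · rw [h0, zero_mul, zero_mul]
    by_cases h1 : x 1 = 0
    · rw [h1, mul_zero, zero_mul]
    rw [mul_eq_zero]
    right
    rw [← h (x 0) (x 1) h0 h1, map_sum]
    refine Finset.sum_congr rfl fun e _ => ?_
    rw [eval_monomial, Finsupp.prod_fintype _ _ (fun i => pow_zero _)]
    simp [ex, Fin.prod_univ_two]
    ring
  have hQ0 : Q = 0 := by
    rcases mul_eq_zero.1 hQ with h1 | h1
    · rcases mul_eq_zero.1 h1 with h2 | h2
      · exact absurd h2 (X_ne_zero 0)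
      · exact absurd h2 (X_ne_zero 1)
    · exact h1
  have h2 : coeff (ex e₀) Q = w e₀ := by
    simp only [Q, coeff_sum, coeff_monomial]
    rw [Finset.sum_eq_single e₀]
    · rw [if_pos rfl]
    · intro e _ he
      rw [if_neg fun h3 => he (hex h3)]
    · intro h3
      exact absurd he₀ h3
  rw [← h2, hQ0, coeff_zero]

/-- a polynomial which is not zero at a specialisation is not zero at a multiple of the point -/
theorem exists_scale {B : MvPolynomial (Fin n ⊕ Fin n) ℂ} {L : Fl} (hB : Coef L B)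
    {y y' : Fin n → ℂ} (hy : aeval (Sum.elim y y') B ≠ 0) {z z' : Fin n → ℂ}
    (hrel : ∀ (P : MvPolynomial (Fin n ⊕ Fin n) ℂ) (e e' : ℕ), IsBiHom P e e' → Coef L P →
      aeval (Sum.elim z z') P = 0 → aeval (Sum.elim y y') P = 0) :
    ∃ a b : ℂ, a ≠ 0 ∧ b ≠ 0 ∧ aeval (Sum.elim (fun i => a * z i) (fun i => b * z' i)) B ≠ 0 := by
  classical
  by_contra hcon
  push Not at hcon
  have hfin := weightedHomogeneousComponent_finsupp (w := (bw : Fin n ⊕ Fin n → ℕ × ℕ)) B
  have hsum : B = ∑ e ∈ hfin.toFinset, weightedHomogeneousComponent bw e B := by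
    have h1 := sum_weightedHomogeneousComponent (w := (bw : Fin n ⊕ Fin n → ℕ × ℕ)) B
    rw [finsum_eq_sum _ hfin] at h1
    exact h1.symm
  have h1 : ∀ e ∈ hfin.toFinset,
      aeval (Sum.elim z z') (weightedHomogeneousComponent bw e B) = 0 := by
    refine coeff_zero_of (S := hfin.toFinset)
      (w := fun e => aeval (Sum.elim z z') (weightedHomogeneousComponent bw e B))
      fun a b ha hb => ?_
    have h2 := hcon a b ha hb
    rw [hsum, map_sum] at h2
    rw [← h2]
    refine Finset.sum_congr rfl fun e _ => ?_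
    rw [(isBiHom_comp B e).scale]
  apply hy
  rw [hsum, map_sum]
  refine Finset.sum_eq_zero fun e he => ?_
  exact hrel _ _ _ (isBiHom_comp B e) (coef_comp hB e) (h1 e he)

/-! ### transport of tangent spaces -/

theorem dFc_act {k : Fl} {P : MvPolynomial (Fin n) ℂ} (hP : Coef k P) {τ : ℂ ≃+* ℂ}
    (hτ : τ ∈ VGS.Fix k) (z v : Fin n → ℂ) :
    dFc P (fun i => τ (z i)) (fun i => τ (v i)) = τ (dFc P z v) := by
  unfold dFc
  rw [map_sum]
  refine Finset.sum_congr rfl fun l _ => ?_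
  rw [aeval_fix (coef_pderiv hP l) hτ, map_mul]

theorem tan_act {s N : ℕ} {h : Fin s → MvPolynomial (Fin n) ℂ} {k : Fl} (hk : ∀ j, Coef k (h j))
    {τ : ℂ ≃+* ℂ} (hτ : τ ∈ VGS.Fix k) {z : Fin n → ℂ}
    (H : ∀ v : Fin N → Fin n → ℂ, (∀ a j, dFc (h j) z (v a) = 0) → ¬ LinearIndependent ℂ v) :
    ∀ v : Fin N → Fin n → ℂ, (∀ a j, dFc (h j) (fun i => τ (z i)) (v a) = 0) →
      ¬ LinearIndependent ℂ v := by
  intro v hv hli
  refine H (fun a l => τ.symm (v a l)) (fun a j => ?_) ?_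
  · apply τ.injective
    rw [map_zero, ← dFc_act (hk j) hτ, ← hv a j]
    congr 1
    funext l
    exact τ.apply_symm_apply _
  · rw [Fintype.linearIndependent_iff] at hli ⊢
    intro c hc a
    have h1 : ∑ a, τ (c a) • v a = 0 := by
      funext l
      have h2 := congrArg τ (congrFun hc l)
      rw [Finset.sum_apply, map_sum] at h2
      rw [Finset.sum_apply]
      rw [Pi.zero_apply, map_zero] at h2
      rw [Pi.zero_apply, ← h2]
      refine Finset.sum_congr rfl fun a _ => ?_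
      rw [Pi.smul_apply, Pi.smul_apply, smul_eq_mul, smul_eq_mul, map_mul]
      congr 1
      exact (τ.apply_symm_apply _).symm
    exact (map_eq_zero_iff τ τ.injective).1 (hli _ h1 a)

theorem cone_act {s : ℕ} {h : Fin s → MvPolynomial (Fin n) ℂ} {k : Fl} (hk : ∀ j, Coef k (h j))
    {τ : ℂ ≃+* ℂ} (hτ : τ ∈ VGS.Fix k) {z : Fin n → ℂ} (hz : z ∈ cone h) :
    (fun i => τ (z i)) ∈ cone h :=
  ⟨map_ne_zero' τ hz.1, fun j => by rw [aeval_fix (hk j) hτ, hz.2 j, map_zero]⟩

/-- the bihomogeneous relations of two independent generic points hold for all pairs of points -/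
theorem bihom_zero {s : ℕ} {h : Fin s → MvPolynomial (Fin n) ℂ} (hirr : IsIrr h)
    (homh : ∀ j, ∃ e, (h j).IsHomogeneous e) (L : Fl) [Countable L] (hL : ∀ j, Coef L (h j))
    {e : ℕ} {z z' : Fin n → ℂ} (hz : z ∈ cone h) (hz' : z' ∈ cone h) {i i' : Fin n}
    (hzi : z i = 1) (hzi' : z' i' = 1) (f f' : Fin e → Fin n)
    (hf : AlgebraicIndependent L fun b => z (f b))
    (hf' : AlgebraicIndependent (adj L (Set.range z)) fun b => z' (f' b))
    (htan : ∀ v : Fin (e + 2) → Fin n → ℂ, (∀ a j, dFc (h j) z (v a) = 0) →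
      ¬ LinearIndependent ℂ v)
    (htan' : ∀ v : Fin (e + 2) → Fin n → ℂ, (∀ a j, dFc (h j) z' (v a) = 0) →
      ¬ LinearIndependent ℂ v)
    {P : MvPolynomial (Fin n ⊕ Fin n) ℂ} {e₁ e₂ : ℕ} (hP : IsBiHom P e₁ e₂) (hPL : Coef L P)
    (h0 : aeval (Sum.elim z z') P = 0) :
    ∀ y ∈ cone h, ∀ y' ∈ cone h, aeval (Sum.elim y y') P = 0 := by
  have step1 : ∀ y' ∈ cone h, aeval (Sum.elim z y') P = 0 := by
    intro y' hy'
    rw [← aeval_subL]
    refine gen_rel hirr homh (adj L (Set.range z)) (fun j => (hL j).mono (le_adj _ _)) hz' hzi' f'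
      hf' htan' (hP.subL z) ?_ ?_ y' hy'
    · exact (coef_subL (L := adj L (Set.range z)) (fun i => subset_adj _ _ ⟨i, rfl⟩)
        (hPL.mono (le_adj _ _))).mono (le_clo _)
    · rw [aeval_subL]
      exact h0
  intro y hy y' hy'
  obtain ⟨τ, hτ, hτf⟩ := exists_move_fam L hf (clo (adj L (Set.range y')))
    (clo_mono (le_adj _ _))
  have hτL : τ ∈ VGS.Fix L := VGS.Fix_mono (le_clo _) hτ
  have h1 : aeval (Sum.elim (fun i => τ (z i)) y') P = 0 := by
    have h2 := step1 (fun i => τ⁻¹ (y' i)) (cone_act hL (inv_mem hτL) hy')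
    have h3 := aeval_fix hPL hτL (Sum.elim z (fun i => τ⁻¹ (y' i)))
    rw [h2, map_zero] at h3
    rw [← h3]
    congr 2
    funext o
    rcases o with i | i
    · rfl
    · exact (τ.apply_symm_apply _).symm
  rw [← aeval_subR]
  refine gen_rel hirr homh (adj L (Set.range y')) (fun j => (hL j).mono (le_adj _ _))
    (cone_act hL hτL hz) (i := i) (by rw [hzi, map_one]) f (ai_mono (le_clo _) hτf)
    (tan_act hL hτL htan) (hP.subR y') ?_ ?_ y hy
  · exact (coef_subR (L := adj L (Set.range y')) (fun i => subset_adj _ _ ⟨i, rfl⟩)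
      (hPL.mono (le_adj _ _))).mono (le_clo _)
  · rw [aeval_subR]
    exact h1

end Pool.Agent.VRC
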