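import Pool.Agent.VRC.LinB

/-! Surfaces in rationally connected varieties: the letters at a generic point. -/

set_option autoImplicit false

open scoped LinearAlgebra.Projectivization
open MvPolynomial

namespace Pool.Agent.VRC

open Pool.Agent.VGS (Fl adj clo Coef Kills IsPl Sp le_adj le_clo subset_adj adj_le clo_mono ai_mono
  ai_iff ai_sum mem_clo mem_clo_adj adj_adj ai_clo clo_clo aeval_mem exists_algInd clo_adj_le
  ai_mono_clo ai_card)
open Pool.Agent.VCI

variable {n : ℕ}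

/-- the number with `∑ a p = 0` and `p l₀ ≠ 0` -/
private theorem solve_one {ι : Type} [Fintype ι] [DecidableEq ι] {a p : ι → ℂ}
    (h1 : ∑ l, a l * p l = 0) {l₀ : ι} (hd : p l₀ ≠ 0) :
    a l₀ = -(∑ l ∈ Finset.univ.erase l₀, a l * p l) / p l₀ := by
  rw [← Finset.add_sum_erase Finset.univ _ (Finset.mem_univ l₀)] at h1
  rw [eq_div_iff hd]
  linear_combination h1

private theorem card_one {c : ℕ} {M : Fin c → ℕ} (l₀ : (i : Fin c) → Fin (M i)) :
    Nat.card {l : (i : Fin c) × Fin (M i) // l.2 ≠ l₀ l.1} + c =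
      Nat.card ((i : Fin c) × Fin (M i)) := by
  classical
  have h1 : Nat.card {l : (i : Fin c) × Fin (M i) // ¬ (l.2 ≠ l₀ l.1)} = c := by
    let e : Fin c → {l : (i : Fin c) × Fin (M i) // ¬ (l.2 ≠ l₀ l.1)} :=
      fun i => ⟨⟨i, l₀ i⟩, fun h => h rfl⟩
    have he : Function.Bijective e := by
      constructor
      · intro i j hij
        exact congrArg (fun l => l.1.1) hij
      · rintro ⟨⟨i, l⟩, hl⟩
        have h2 : l = l₀ i := by
          by_contra h3
          exact hl h3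
        subst h2
        exact ⟨i, rfl⟩
    rw [← Nat.card_congr (Equiv.ofBijective e he)]
    simp
  have h2 := Nat.card_congr (Equiv.sumCompl
    (fun l : (i : Fin c) × Fin (M i) => l.2 ≠ l₀ l.1))
  rw [Nat.card_sum, h1] at h2
  exact h2

/-- a sum over the letters of one system -/
private theorem sum_letters {c : ℕ} {M : Fin c → ℕ} (l₀ : (i : Fin c) → Fin (M i)) {R : Type}
    [AddCommMonoid R] (F : (i : Fin c) × Fin (M i) → R) (i : Fin c) :
    ∑ l : {l : (i : Fin c) × Fin (M i) // l.2 ≠ l₀ l.1}, (if l.1.1 = i then F l.1 else 0) =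
      ∑ l ∈ Finset.univ.erase (l₀ i), F ⟨i, l⟩ := by
  classical
  rw [← Finset.sum_filter]
  symm
  refine Finset.sum_bij (fun l hl => (⟨⟨i, l⟩, (Finset.mem_erase.1 hl).1⟩ :
    {l : (i : Fin c) × Fin (M i) // l.2 ≠ l₀ l.1})) ?_ ?_ ?_ ?_
  · intro l hl
    rw [Finset.mem_filter]
    exact ⟨Finset.mem_univ _, rfl⟩
  · intro l _ l' _ hll
    have h1 := congrArg (fun l => l.1) hll
    simp only at h1
    exact eq_of_heq (Sigma.mk.inj h1).2
  · rintro ⟨⟨i', l⟩, hl⟩ hmem
    rw [Finset.mem_filter] at hmem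
    obtain ⟨-, h1⟩ := hmem
    simp only at h1
    subst h1
    exact ⟨l, Finset.mem_erase.2 ⟨hl, Finset.mem_univ _⟩, rfl⟩
  · intro l _
    rfl

variable [NeZero n] {s c : ℕ} {M : Fin c → ℕ} {k K : Fl} {h : Fin s → MvPolynomial (Fin n) ℂ}
  {g : (i : Fin c) → Fin (M i) → MvPolynomial (Fin n) ℂ} {a : (i : Fin c) → Fin (M i) → ℂ}
  {d : Fin (s + c) → ℕ}

/-- the letters at a generic point -/
theorem lt_of (H : LinRC k h g a K d) {z : Fin n → ℂ} (hz : z ≠ 0) {i₀ : Fin n}
    (hzi : z i₀ = 1) (hp : Projectivization.mk ℂ z hz ∈ Gen K (eqs h g a))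
    (l₀ : (i : Fin c) → Fin (M i)) (hl₀ : ∀ i, aeval z (g i (l₀ i)) ≠ 0) :
    Lt (Λ := {l : (i : Fin c) × Fin (M i) // l.2 ≠ l₀ l.1}) (adj k (Set.range z))
      (fun l => a l.1.1 l.1.2) (fun l => l.1.1)
      (fun l => g l.1.1 l.1.2 - C (aeval z (g l.1.1 l.1.2) / aeval z (g l.1.1 (l₀ l.1.1))) *
        g l.1.1 (l₀ l.1.1)) d (eqs h g a) ∧
    adj (adj k (Set.range z)) (Set.range fun l : {l : (i : Fin c) × Fin (M i) // l.2 ≠ l₀ l.1} =>
      a l.1.1 l.1.2) = adj K (Set.range z) := by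
  classical
  have hck := H.ck
  have hzX : z ∈ cone (eqs h g a) := ⟨hz, (mem_surf_mk H.hom hz).1 hp.1⟩
  obtain ⟨-, hz1⟩ := cone_eqs hzX
  have hzκ : ∀ j, z j ∈ adj k (Set.range z) := fun j => subset_adj _ _ ⟨j, rfl⟩
  have hgκ : ∀ i l, aeval z (g i l) ∈ adj k (Set.range z) := fun i l =>
    aeval_mem ((H.coefg i l).mono (le_adj _ _)) hzκ
  -- the missing letter
  have hmiss : ∀ (Y : Fl), adj k (Set.range z) ≤ Y →
      (∀ l : {l : (i : Fin c) × Fin (M i) // l.2 ≠ l₀ l.1}, a l.1.1 l.1.2 ∈ Y) →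
      ∀ i l, a i l ∈ Y := by
    intro Y hY hA i l
    by_cases hl : l = l₀ i
    · subst hl
      rw [solve_one (hz1 i) (hl₀ i)]
      refine div_mem (neg_mem (sum_mem fun l hl => mul_mem ?_ (hY (hgκ i l)))) (hY (hgκ i _))
      exact hA ⟨⟨i, l⟩, (Finset.mem_erase.1 hl).1⟩
    · exact hA ⟨⟨i, l⟩, hl⟩
  have hfield : adj (adj k (Set.range z)) (Set.range fun l : {l : (i : Fin c) × Fin (M i) //
      l.2 ≠ l₀ l.1} => a l.1.1 l.1.2) = adj K (Set.range z) := by
    apply le_antisymm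
    · refine adj_le (adj_le ?_ (subset_adj _ _)) ?_
      · rw [H.hK]
        exact (le_adj _ _).trans (le_adj _ _)
      · rintro _ ⟨l, rfl⟩
        refine le_adj _ _ ?_
        rw [H.hK]
        exact subset_adj _ _ ⟨l.1, rfl⟩
    · refine adj_le ?_ ((subset_adj _ _).trans (le_adj _ _))
      conv_lhs => rw [H.hK]
      refine adj_le ((le_adj _ _).trans (le_adj _ _)) ?_
      rintro _ ⟨il, rfl⟩
      exact hmiss (adj (adj k (Set.range z)) (Set.range fun l : {l : (i : Fin c) × Fin (M i) //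
        l.2 ≠ l₀ l.1} => a l.1.1 l.1.2)) (le_adj _ _) (fun l => subset_adj _ _ ⟨l, rfl⟩) il.1 il.2
  refine ⟨?_, hfield⟩
  -- independence
  have hai : AlgebraicIndependent (adj k (Set.range z))
      (fun l : {l : (i : Fin c) × Fin (M i) // l.2 ≠ l₀ l.1} => a l.1.1 l.1.2) := by
    obtain ⟨j, l, hjl⟩ := gen_coord H.hom hz hzi hp
    obtain ⟨e, f, hf, hfz⟩ := lin_basis k z
    have he := TrLe.le_of_ai (H.trd z hzX i₀ hzi) hf
    have hx : AlgebraicIndependent k (Sum.elim
        (fun il : (i : Fin c) × Fin (M i) => a il.1 il.2) ![z j, z l]) := by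
      rw [ai_sum, ← H.hK]
      exact ⟨H.ai, hjl⟩
    let y : Fin e ⊕ {l : (i : Fin c) × Fin (M i) // l.2 ≠ l₀ l.1} → ℂ :=
      Sum.elim (fun b => z (f b)) (fun l => a l.1.1 l.1.2)
    have hzY : ∀ j, z j ∈ clo (adj k (Set.range y)) := by
      intro j
      refine clo_mono (adj_le (le_adj _ _) ?_) (hfz j)
      rintro _ ⟨b, rfl⟩
      exact subset_adj _ _ ⟨Sum.inl b, rfl⟩
    have hzY' : adj k (Set.range z) ≤ clo (adj k (Set.range y)) := by
      refine adj_le ((le_adj _ _).trans (le_clo _)) ?_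
      rintro _ ⟨j, rfl⟩
      exact hzY j
    have haY := hmiss _ hzY' (fun l => le_clo _ (subset_adj _ _ ⟨Sum.inr l, rfl⟩))
    have hy : AlgebraicIndependent k y := by
      refine ai_card hx ?_ ?_
      · rw [Nat.card_sum, Nat.card_sum, ← card_one l₀]
        simp only [Nat.card_eq_fintype_card, Fintype.card_fin]
        omega
      · rintro (il | b)
        · exact haY il.1 il.2
        · fin_cases b
          · exact hzY j
          · exact hzY l
    obtain ⟨-, h1⟩ := ai_sum.1 hy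
    refine ai_mono_clo ?_ h1
    refine adj_le ((le_adj _ _).trans (le_clo _)) ?_
    rintro _ ⟨j, rfl⟩
    exact hfz j
  have hSκ : ∀ l : (i : Fin c) × Fin (M i),
      aeval z (g l.1 l.2) / aeval z (g l.1 (l₀ l.1)) ∈ adj k (Set.range z) := fun l =>
    div_mem (hgκ _ _) (hgκ _ _)
  refine
    { cκ := inferInstance
      ai := hai
      coefS := fun l m => ?_
      homS := fun l => ?_
      hom := H.hom
      coefh := fun j => ?_
      eq := fun i => ?_ }
  · rw [coeff_sub, coeff_C_mul]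
    exact sub_mem (le_adj _ _ (H.coefg _ _ m)) (mul_mem (hSκ l.1) (le_adj _ _ (H.coefg _ _ m)))
  · refine (H.homg _ _).sub ?_
    have h1 := (isHomogeneous_C (Fin n) (aeval z (g l.1.1 l.1.2) /
      aeval z (g l.1.1 (l₀ l.1.1)))).mul (H.homg l.1.1 (l₀ l.1.1))
    rwa [zero_add] at h1
  · rw [eqs_cast]
    exact (H.coefh j).mono (le_adj _ _)
  · rw [eqs_nat, sum_letters l₀ (fun l => C (a l.1 l.2) * (g l.1 l.2 -
      C (aeval z (g l.1 l.2) / aeval z (g l.1 (l₀ l.1))) * g l.1 (l₀ l.1))) i,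
      ← Finset.add_sum_erase Finset.univ _ (Finset.mem_univ (l₀ i))]
    simp only [mul_sub, Finset.sum_sub_distrib]
    have h1 : C (a i (l₀ i)) * g i (l₀ i) = -∑ l ∈ Finset.univ.erase (l₀ i), C (a i l) *
        (C (aeval z (g i l) / aeval z (g i (l₀ i))) * g i (l₀ i)) := by
      conv_lhs => rw [solve_one (hz1 i) (hl₀ i)]
      have h2 : ∑ l ∈ Finset.univ.erase (l₀ i), C (a i l) *
          (C (aeval z (g i l) / aeval z (g i (l₀ i))) * g i (l₀ i)) =
          C (∑ l ∈ Finset.univ.erase (l₀ i), a i l * (aeval z (g i l) /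
            aeval z (g i (l₀ i)))) * g i (l₀ i) := by
        rw [map_sum, Finset.sum_mul]
        refine Finset.sum_congr rfl fun l _ => ?_
        rw [map_mul, mul_assoc]
      rw [h2, ← neg_mul, ← map_neg]
      congr 2
      rw [neg_div, Finset.sum_div]
      congr 1
      refine Finset.sum_congr rfl fun l _ => ?_
      rw [mul_div_assoc]
    rw [h1]
    ring

end Pool.Agent.VRC
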