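import Pool.Agent.VRC.Base
import Pool.Agent.VCI.FrameS
import Pool.Agent.VCI.Exists
import Pool.Agent.VCI.Dom
import Pool.Agent.VCI.Trd2
import Pool.Agent.VCI.Pres

/-! Points of the intersection with few independent coordinates: derivations, count, conjugacy. -/

set_option autoImplicit false

open scoped LinearAlgebra.Projectivization
open MvPolynomial

namespace Pool.Agent.VRC

open Pool.Agent.VGS (Fl adj clo Coef Kills IsPl Sp le_adj le_clo subset_adj adj_le clo_mono ai_mono
  ai_iff ai_sum mem_clo mem_clo_adj adj_adj ai_clo ai_card coef_iff clo_adj_le mem_Fix_adj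
  ai_mono_clo)
open Pool.Agent.VCI

variable {n : ℕ}

/-! ### bases -/

theorem adj_mono' {L : Fl} {S T : Set ℂ} (h : S ⊆ T) : adj L S ≤ adj L T :=
  adj_le (le_adj _ _) fun _ hx => subset_adj _ _ (h hx)

/-- a spanning family is at least as large as an independent one -/
theorem ai_le_card {L : Fl} {ι κ : Type} [Finite ι] [Finite κ] {x : ι → ℂ}
    (hx : AlgebraicIndependent L x) {y : κ → ℂ}
    (h : ∀ i, x i ∈ clo (adj L (Set.range y))) : Nat.card ι ≤ Nat.card κ := by
  by_contra hlt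
  push Not at hlt
  have h1 : AlgebraicIndependent L (fun o : Option κ => o.elim 0 y) := by
    refine ai_card hx ?_ fun i => ?_
    · rw [Finite.card_option]
      omega
    · refine clo_mono (adj_mono' ?_) (h i)
      rintro _ ⟨k, rfl⟩
      exact ⟨some k, rfl⟩
  exact h1.ne_zero none rfl

/-- a subfamily which is a transcendence basis -/
theorem exists_basis (L : Fl) {ι : Type} [Finite ι] (z : ι → ℂ) :
    ∃ (e : ℕ) (f : Fin e → ι), (AlgebraicIndependent L fun b => z (f b)) ∧
      ∀ j, z j ∈ clo (adj L (Set.range fun b => z (f b))) := by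
  classical
  let M := AlgebraicIndependent.matroid L ℂ
  obtain ⟨J, hJ⟩ := M.exists_isBasis (Set.range z) (by
    rw [AlgebraicIndependent.matroid_e]
    exact Set.subset_univ _)
  have hfin : J.Finite := (Set.finite_range z).subset hJ.subset
  have e := hfin.toFinset.equivFin.symm
  have hsub : ∀ b, ∃ l, z l = (e b : ℂ) := fun b => hJ.subset (hfin.mem_toFinset.1 (e b).2)
  choose g hg using hsub
  have hr : (Set.range fun b => z (g b)) = J := by
    ext x
    constructor
    · rintro ⟨b, rfl⟩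
      have h1 := hfin.mem_toFinset.1 (e b).2
      beta_reduce
      rw [hg b]
      exact h1
    · intro hx
      refine ⟨e.symm ⟨x, hfin.mem_toFinset.2 hx⟩, ?_⟩
      beta_reduce
      rw [hg, Equiv.apply_symm_apply]
  refine ⟨_, g, ?_, fun j => ?_⟩
  · have h6 : AlgebraicIndependent L (fun x : J => (x : ℂ)) := hJ.indep
    have h7 : (fun b => z (g b)) = (fun x : J => (x : ℂ)) ∘ fun b =>
        (⟨(e b : ℂ), hfin.mem_toFinset.1 (e b).2⟩ : J) := funext fun b => hg b
    rw [h7]
    refine h6.comp _ fun a b hab => ?_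
    have h8 : (e a : ℂ) = e b := congrArg (fun x : J => (x : ℂ)) hab
    exact e.injective (Subtype.ext h8)
  · rw [hr, mem_clo_adj]
    have h2 : z j ∈ M.closure J := by
      rw [hJ.closure_eq_closure]
      exact M.subset_closure (Set.range z) (by
        rw [AlgebraicIndependent.matroid_e]
        exact Set.subset_univ _) ⟨j, rfl⟩
    rw [AlgebraicIndependent.matroid_closure_eq] at h2
    exact h2

theorem TrLe.basis {L : Fl} {e : ℕ} {z : Fin n → ℂ} (h : TrLe L e z) :
    ∃ (e' : ℕ) (f : Fin e' → Fin n), e' ≤ e ∧ (AlgebraicIndependent L fun b => z (f b)) ∧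
      ∀ j, z j ∈ clo (adj L (Set.range fun b => z (f b))) := by
  obtain ⟨e', f, hf, hsp⟩ := exists_basis L z
  refine ⟨e', f, ?_, hf, hsp⟩
  by_contra hlt
  push Not at hlt
  exact h (fun b => f (Fin.castLE hlt b)) (hf.comp (Fin.castLE hlt) (Fin.castLE_injective hlt))

/-- no `e + 1` elements algebraic over the coordinates are independent -/
theorem TrLe.not_ai' {L : Fl} {e : ℕ} {z : Fin n → ℂ} (h : TrLe L e z) {t : Fin (e + 1) → ℂ}
    (ht : ∀ a, t a ∈ clo (adj L (Set.range z))) : ¬ AlgebraicIndependent L t := by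
  intro hai
  obtain ⟨e', f, he, hf, hsp⟩ := h.basis
  have h1 := ai_le_card hai (y := fun b => z (f b)) fun i => by
    refine clo_adj_le ((le_adj _ _).trans (le_clo _)) ?_ (ht i)
    rintro _ ⟨j, rfl⟩
    exact hsp j
  rw [Nat.card_fin, Nat.card_fin] at h1
  omega

/-! ### homogenisation -/

theorem exists_hmg {L : Fl} (i : Fin n) {P : MvPolynomial (Fin n) ℂ} (hP : Coef L P) :
    ∃ (Q : MvPolynomial (Fin n) ℂ) (e : ℕ), Q.IsHomogeneous e ∧ Coef L Q ∧
      ∀ z : Fin n → ℂ, z i = 1 → aeval z Q = aeval z P := by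
  classical
  refine ⟨∑ j ∈ Finset.range (P.totalDegree + 1),
    homogeneousComponent j P * X i ^ (P.totalDegree - j), P.totalDegree, ?_, ?_, ?_⟩
  · refine IsHomogeneous.sum _ _ _ fun j hj => ?_
    have h1 := (homogeneousComponent_isHomogeneous j P).mul
      (isHomogeneous_X_pow (R := ℂ) i (P.totalDegree - j))
    have h2 : j + (P.totalDegree - j) = P.totalDegree := by
      have := Finset.mem_range.1 hj
      omega
    rwa [h2] at h1
  · intro m
    rw [coeff_sum]
    refine sum_mem fun j _ => ?_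
    rw [X_pow_eq_monomial, coeff_mul_monomial']
    split_ifs
    · rw [mul_one, coeff_homogeneousComponent]
      split_ifs
      · exact hP _
      · exact zero_mem L
    · exact zero_mem L
  · intro z hz
    rw [map_sum]
    have h1 : ∀ j ∈ Finset.range (P.totalDegree + 1),
        aeval z (homogeneousComponent j P * X i ^ (P.totalDegree - j)) =
          aeval z (homogeneousComponent j P) := by
      intro j _
      rw [map_mul, map_pow, aeval_X, hz, one_pow, mul_one]
    rw [Finset.sum_congr rfl h1, ← map_sum, sum_homogeneousComponent]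

/-! ### relations -/

/-- a specialisation which keeps a transcendence basis keeps all relations -/
theorem inR_symm {κ : Fl} {e : ℕ} {w w₁ : Fin n → ℂ} (h : InR κ w w₁) {f : Fin e → Fin n}
    (hf : AlgebraicIndependent κ fun b => w₁ (f b))
    (hsp : ∀ j, w j ∈ clo (adj κ (Set.range fun b => w (f b)))) : InR κ w₁ w := by
  classical
  intro P hP h0
  by_contra hne
  obtain ⟨P', rfl⟩ := coef_iff.1 hP
  rw [aeval_map_algebraMap] at h0 hne
  have hu : aeval w P' ∈ clo (adj κ (Set.range fun b => w (f b))) := by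
    have h1 := VGS.aeval_mem (L := clo (adj κ (Set.range fun b => w (f b))))
      (hP.mono ((le_adj _ _).trans (le_clo _))) hsp
    rwa [aeval_map_algebraMap] at h1
  rw [mem_clo_adj] at hu
  obtain ⟨p, hp, hp0⟩ := hu
  have hsurj : ∀ a : Algebra.adjoin κ (Set.range fun b => w (f b)),
      ∃ r : MvPolynomial (Fin e) κ, aeval (fun b => w (f b)) r = (a : ℂ) := by
    rintro ⟨x, hx⟩
    change ∃ r : MvPolynomial (Fin e) κ, aeval (fun b => w (f b)) r = x
    rw [Algebra.adjoin_range_eq_range_aeval] at hx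
    exact hx
  choose r hr using hsurj
  set m := p.natTrailingDegree with hm
  have hpm : p.coeff m ≠ 0 := by
    have h1 := Polynomial.trailingCoeff_nonzero_iff_nonzero.2 hp
    exact h1
  set Q : MvPolynomial (Fin n) κ := ∑ k ∈ Finset.Icc m p.natDegree,
    rename f (r (p.coeff k)) * P' ^ (k - m) with hQ
  have hval : ∀ z : Fin n → ℂ, aeval z Q = ∑ k ∈ Finset.Icc m p.natDegree,
      aeval (fun b => z (f b)) (r (p.coeff k)) * aeval z P' ^ (k - m) := by
    intro z
    rw [hQ, map_sum]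
    refine Finset.sum_congr rfl fun k _ => ?_
    rw [map_mul, map_pow, aeval_rename]
    rfl
  have hmle : m ≤ p.natDegree := Polynomial.natTrailingDegree_le_natDegree p
  -- zero at `w`
  have hw : aeval w Q = 0 := by
    have h1 : aeval w P' ^ m * aeval w Q = 0 := by
      rw [hval, Finset.mul_sum]
      rw [Polynomial.aeval_eq_sum_range] at hp0
      rw [← hp0]
      have h2 : Finset.Icc m p.natDegree ⊆ Finset.range (p.natDegree + 1) := by
        intro k hk
        have := Finset.mem_Icc.1 hk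
        exact Finset.mem_range.2 (by omega)
      rw [← Finset.sum_subset h2]
      · refine Finset.sum_congr rfl fun k hk => ?_
        have h3 := Finset.mem_Icc.1 hk
        rw [hr, Algebra.smul_def, mul_left_comm, ← pow_add]
        have h4 : m + (k - m) = k := by omega
        rw [h4]
        rfl
      · intro k hk hk'
        have h3 : k < m := by
          by_contra h4
          exact hk' (Finset.mem_Icc.2 ⟨by omega, by
            have := Finset.mem_range.1 hk
            omega⟩)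
        rw [Polynomial.coeff_eq_zero_of_lt_natTrailingDegree h3, zero_smul]
    exact (mul_eq_zero.1 h1).resolve_left (pow_ne_zero _ hne)
  have hw₁ : aeval w₁ Q = 0 := by
    have h1 := h (map (algebraMap κ ℂ) Q) (coef_iff.2 ⟨Q, rfl⟩) (by
      rw [aeval_map_algebraMap]
      exact hw)
    rwa [aeval_map_algebraMap] at h1
  rw [hval, Finset.sum_eq_single m] at hw₁
  · rw [Nat.sub_self, pow_zero, mul_one] at hw₁
    have h1 : r (p.coeff m) = 0 := (algebraicIndependent_iff.1 hf) _ hw₁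
    have h2 := hr (p.coeff m)
    rw [h1, map_zero] at h2
    exact hpm (Subtype.ext h2.symm)
  · intro k hk hkm
    have h3 := Finset.mem_Icc.1 hk
    rw [h0, zero_pow (by omega), mul_zero]
  · intro h1
    exact absurd (Finset.mem_Icc.2 ⟨le_rfl, hmle⟩) h1

/-- points with the same normalised coordinate: all relations are specialised -/
theorem inR_of_rel {κ : Fl} {w w₁ : Fin n → ℂ} {i₁ : Fin n} (hw₁i : w₁ i₁ = 1)
    (hrel : Rel κ w w₁) : w i₁ ≠ 0 ∧ InR κ (fun j => (w i₁)⁻¹ * w j) w₁ := by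
  classical
  have hw0 : w i₁ ≠ 0 := by
    intro h0
    have h1 := hrel (X i₁) 1 (isHomogeneous_X _ _) (fun m => by
      rw [coeff_X']
      split_ifs
      · exact one_mem κ
      · exact zero_mem κ) (by rw [aeval_X, h0])
    rw [aeval_X, hw₁i] at h1
    exact one_ne_zero h1
  refine ⟨hw0, fun P hP h0 => ?_⟩
  obtain ⟨Q, e, hQ, hQκ, hQv⟩ := exists_hmg i₁ hP
  rw [← hQv w₁ hw₁i]
  refine hrel Q e hQ hQκ ?_
  have h1 : aeval (fun j => (w i₁)⁻¹ * w j) Q = 0 := by
    rw [hQv _ (inv_mul_cancel₀ hw0), h0]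
  rw [aeval_scale hQ (a := (w i₁)⁻¹) (w := w) (fun j => rfl)] at h1
  exact (mul_eq_zero.1 h1).resolve_left (pow_ne_zero _ (inv_ne_zero hw0))

theorem ai_of_inR {κ : Fl} {w w₁ : Fin n → ℂ} (hin : InR κ w w₁) {ι : Type} {f : ι → Fin n}
    (hf : AlgebraicIndependent κ fun b => w₁ (f b)) :
    AlgebraicIndependent κ fun b => w (f b) := by
  rw [ai_iff] at hf ⊢
  intro P hP h0
  refine hf P hP ?_
  have h1 := hin (rename f P) (by
    obtain ⟨P', rfl⟩ := coef_iff.1 hP
    exact coef_iff.2 ⟨rename f P', by rw [map_rename]⟩) (by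
    rw [aeval_rename]
    exact h0)
  rw [aeval_rename] at h1
  exact h1

theorem TrLe.scale {κ : Fl} {c : ℕ} {w : Fin n → ℂ} (htr : TrLe κ c w) (i₁ : Fin n) :
    TrLe κ c (fun j => (w i₁)⁻¹ * w j) := by
  intro f hf
  refine htr.not_ai' (fun a => ?_) hf
  exact le_clo _ (mul_mem (inv_mem (subset_adj _ _ ⟨i₁, rfl⟩)) (subset_adj _ _ ⟨f a, rfl⟩))

/-- specialisation does not increase the number of independent coordinates -/
theorem trLe_of_rel {κ : Fl} {c : ℕ} {w w₁ : Fin n → ℂ} {i₁ : Fin n} (hw₁i : w₁ i₁ = 1)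
    (htr : TrLe κ c w) (hrel : Rel κ w w₁) : TrLe κ c w₁ := fun f hf =>
  htr.scale i₁ f (ai_of_inR (inR_of_rel hw₁i hrel).2 hf)

theorem kills_adj_set' {L : Fl} {D : Derivation ℤ ℂ ℂ} (h : Kills L D) {S : Set ℂ}
    (hS : ∀ x ∈ S, D x = 0) : Kills (adj L S) D := by
  intro x hx
  rw [VGS.mem_adj_iff] at hx
  induction hx using IntermediateField.adjoin_induction with
  | mem x hx => exact hS x hx
  | algebraMap a => exact h a a.2
  | add x y _ _ hx hy => rw [map_add, hx, hy, add_zero]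
  | inv x _ hx => rw [Derivation.leibniz_inv, hx, smul_zero]
  | mul x y _ _ hx hy => rw [D.leibniz, hx, hy, smul_zero, smul_zero, add_zero]

/-- an automorphism maps the field generated by `z` to the field generated by its values -/
theorem symm_mem_adj {κ : Fl} {σ : ℂ ≃+* ℂ} (hσ : σ ∈ VGS.Fix κ) {z y : Fin n → ℂ}
    (h : ∀ j, σ (z j) = y j) : ∀ x ∈ adj κ (Set.range y), σ.symm x ∈ adj κ (Set.range z) := by
  intro x hx
  have h1 : adj κ (Set.range y) ≤ (adj κ (Set.range z)).comap (AlgHom.mk (σ.symm : ℂ →+* ℂ) (by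
      intro r
      exact map_ratCast _ r) : ℂ →ₐ[ℚ] ℂ) := by
    refine adj_le ?_ ?_
    · intro y hy
      change σ.symm y ∈ adj κ (Set.range z)
      have h2 : σ.symm y = y := by
        rw [RingEquiv.symm_apply_eq]
        exact (hσ y hy).symm
      rw [h2]
      exact le_adj _ _ hy
    · rintro _ ⟨j, rfl⟩
      change σ.symm (y j) ∈ adj κ (Set.range z)
      rw [← h j, RingEquiv.symm_apply_apply]
      exact subset_adj _ _ ⟨j, rfl⟩
  exact h1 hx

section Lt

variable {s c : ℕ} {Λ : Type} [Fintype Λ] {κ : Fl} {A : Λ → ℂ} {t : Λ → Fin c}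
  {S : Λ → MvPolynomial (Fin n) ℂ} {d : Fin (s + c) → ℕ}
  {G : Fin (s + c) → MvPolynomial (Fin n) ℂ}

/-- the equation with letters at a point -/
theorem lt_sum (H : Lt κ A t S d G) {w : Fin n → ℂ} (hw : w ∈ cone G) (i : Fin c) :
    ∑ l, (if t l = i then A l * aeval w (S l) else 0) = 0 := by
  have h0 := hw.2 (Fin.natAdd s i)
  rw [H.eq i, map_sum] at h0
  refine Eq.trans (Finset.sum_congr rfl fun l _ => ?_) h0
  split_ifs
  · rw [map_mul, algHom_C]
    rfl
  · rw [map_zero]

/-- the equation solved for one letter -/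
theorem lt_letter [DecidableEq Λ] (H : Lt κ A t S d G) {w : Fin n → ℂ} (hw : w ∈ cone G)
    {l₁ : Fin c → Λ} (hl : ∀ i, t (l₁ i) = i) (hS : ∀ i, aeval w (S (l₁ i)) ≠ 0) (i : Fin c) :
    A (l₁ i) = -(∑ l ∈ Finset.univ.erase (l₁ i), if t l = i then A l * aeval w (S l) else 0) /
      aeval w (S (l₁ i)) := by
  have h0 := lt_sum H hw i
  rw [← Finset.add_sum_erase _ _ (Finset.mem_univ (l₁ i)), if_pos (hl i)] at h0
  rw [eq_div_iff (hS i)]
  linear_combination h0

theorem lt_not_mem {l₁ : Fin c → Λ} (hl : ∀ i, t (l₁ i) = i) {i : Fin c} {l : Λ} (h : l ≠ l₁ i)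
    (hi : t l = i) : l ∉ Set.range l₁ := by
  rintro ⟨i', rfl⟩
  rw [hl] at hi
  exact h (by rw [hi])

/-- The count: exactly `c` coordinates are independent, and the other letters are independent over
them. -/
theorem lt_core (H : Lt κ A t S d G) {w : Fin n → ℂ} (hw : w ∈ cone G) (htr : TrLe κ c w)
    {l₁ : Fin c → Λ} (hl : ∀ i, t (l₁ i) = i) (hS : ∀ i, aeval w (S (l₁ i)) ≠ 0) :
    ∃ f : Fin c → Fin n, (AlgebraicIndependent κ fun b => w (f b)) ∧
      (∀ j, w j ∈ clo (adj κ (Set.range fun b => w (f b)))) ∧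
      AlgebraicIndependent (adj κ (Set.range fun b => w (f b)))
        (fun l : {l : Λ // l ∉ Set.range l₁} => A l) ∧
      ∀ j, w j ∈ clo (adj κ (Set.range A)) := by
  classical
  obtain ⟨e, f, he, hf, hsp⟩ := htr.basis
  have hinj : Function.Injective l₁ := fun a b hab => by
    rw [← hl a, ← hl b, hab]
  -- cardinalities
  have hcard : Nat.card Λ = c + Nat.card {l : Λ // l ∉ Set.range l₁} := by
    rw [← Nat.card_congr (Equiv.sumCompl fun l => l ∈ Set.range l₁), Nat.card_sum,
      ← Nat.card_congr (Equiv.ofInjective l₁ hinj), Nat.card_fin]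
  -- the letters are algebraic over the coordinates and the other letters
  set y : Fin e ⊕ {l : Λ // l ∉ Set.range l₁} → ℂ :=
    Sum.elim (fun b => w (f b)) (fun l => A l) with hy
  have hspan : ∀ l, A l ∈ clo (adj κ (Set.range y)) := by
    intro l
    by_cases hlr : l ∈ Set.range l₁
    · obtain ⟨i, rfl⟩ := hlr
      rw [lt_letter H hw hl hS i]
      have hS' : ∀ l, aeval w (S l) ∈ clo (adj κ (Set.range y)) := by
        intro l
        have h1 : aeval w (S l) ∈ clo (adj κ (Set.range fun b => w (f b))) :=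
          VGS.aeval_mem ((H.coefS l).mono ((le_adj _ _).trans (le_clo _))) hsp
        refine clo_mono (adj_mono' ?_) h1
        rintro _ ⟨b, rfl⟩
        exact ⟨Sum.inl b, rfl⟩
      refine div_mem (neg_mem (sum_mem fun l hl' => ?_)) (hS' _)
      split_ifs with hti
      · exact mul_mem (le_clo _ (subset_adj _ _
          ⟨Sum.inr ⟨l, lt_not_mem hl (Finset.ne_of_mem_erase hl') hti⟩, rfl⟩)) (hS' _)
      · exact zero_mem _
    · exact le_clo _ (subset_adj _ _ ⟨Sum.inr ⟨l, hlr⟩, rfl⟩)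
  have hce : c ≤ e := by
    have h1 := ai_le_card H.ai hspan
    rw [hcard, Nat.card_sum, Nat.card_fin] at h1
    omega
  obtain rfl : e = c := le_antisymm he hce
  have hai : AlgebraicIndependent κ y := by
    refine ai_card H.ai ?_ hspan
    rw [hcard, Nat.card_sum, Nat.card_fin]
  refine ⟨f, hf, hsp, (ai_sum.1 hai).2, fun j => ?_⟩
  have h1 := ai_span H.ai (y := y) (by rw [hcard, Nat.card_sum, Nat.card_fin]) hspan
  refine clo_adj_le ((le_adj _ _).trans (le_clo _)) ?_ (hsp j)
  rintro _ ⟨b, rfl⟩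
  exact h1 (Sum.inl b)

/-- For a point `w` of `X` over `clo κ(A)` with at most `c` independent coordinates and
`S l₁(w) ≠ 0` for some `l₁` in each system: a derivation over `κ` which is tangent to the
hypersurfaces at `w` is zero on `w`. -/
theorem lt_der (H : Lt κ A t S d G) {w : Fin n → ℂ} {i₁ : Fin n} (hwi : w i₁ = 1)
    (hw : w ∈ cone G) (hwE : ∀ j, w j ∈ clo (adj κ (Set.range A))) (htr : TrLe κ c w)
    (hS : ∀ i, ∃ l, t l = i ∧ aeval w (S l) ≠ 0) {D : Derivation ℤ ℂ ℂ} (hD : Kills κ D)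
    (hdF : ∀ i : Fin c, dFc (G (Fin.natAdd s i)) w (fun j => D (w j)) = 0) :
    ∀ j, D (w j) = 0 := by
  classical
  choose l₁ hl hS' using hS
  obtain ⟨f, hf, hsp, hM, -⟩ := lt_core H hw htr hl hS'
  obtain ⟨D₁, hD₁, hD₁A⟩ := exists_kills_fam (clo (adj κ (Set.range fun b => w (f b))))
    (ai_clo.2 hM) (fun l => - D (A l))
  set D₀ : Derivation ℤ ℂ ℂ := D + D₁ with hD₀
  have h0 : ∀ x, D₀ x = D x + D₁ x := fun x => rfl
  have hκ : Kills κ D₀ := by
    intro x hx
    rw [h0, hD x hx, hD₁ x (le_clo _ (le_adj _ _ hx)), add_zero]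
  have hw0 : ∀ j, D₀ (w j) = D (w j) := by
    intro j
    rw [h0, hD₁ _ (hsp j), add_zero]
  have hM0 : ∀ l, l ∉ Set.range l₁ → D₀ (A l) = 0 := by
    intro l hl'
    rw [h0, hD₁A ⟨l, hl'⟩, add_neg_cancel]
  have hl0 : ∀ i, D₀ (A (l₁ i)) = 0 := by
    intro i
    have h1 := congrArg D₀ (lt_sum H hw i)
    rw [map_zero, map_sum] at h1
    have h2 := hdF i
    rw [H.eq i, dFc_sum] at h2
    have h3 : ∀ l, D₀ (if t l = i then A l * aeval w (S l) else 0) =
        dFc (if t l = i then C (A l) * S l else 0) w (fun j => D (w j)) +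
          if t l = i then D₀ (A l) * aeval w (S l) else 0 := by
      intro l
      split_ifs
      · rw [D₀.leibniz, smul_eq_mul, smul_eq_mul, mu_der_aeval (H.coefS l) hκ w, dFc_mul]
        have h4 : dFc (C (A l)) w (fun j => D (w j)) = 0 := by
          unfold dFc
          refine Finset.sum_eq_zero fun j _ => ?_
          rw [pderiv_C, map_zero, mul_zero]
        have h5 : ∑ j, aeval w (pderiv j (S l)) * D₀ (w j) = dFc (S l) w fun j => D (w j) := by
          unfold dFc
          refine Finset.sum_congr rfl fun j _ => ?_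
          rw [hw0, mul_comm]
        rw [h4, h5, algHom_C]
        simp only [Algebra.algebraMap_self, RingHom.id_apply]
        ring
      · rw [map_zero]
        unfold dFc
        simp
    rw [Finset.sum_congr rfl fun l _ => h3 l, Finset.sum_add_distrib, h2, zero_add,
      Finset.sum_eq_single (l₁ i)] at h1
    · rw [if_pos (hl i)] at h1
      exact (mul_eq_zero.1 h1).resolve_right (hS' i)
    · intro l _ h4
      split_ifs with h5
      · rw [hM0 l, zero_mul]
        rintro ⟨i', rfl⟩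
        rw [hl] at h5
        exact h4 (by rw [h5])
      · rfl
    · intro h4
      exact absurd (Finset.mem_univ _) h4
  have hA : Kills (clo (adj κ (Set.range A))) D₀ := by
    refine DomAux.kills_clo (kills_adj_set' hκ ?_)
    rintro _ ⟨l, rfl⟩
    by_cases h1 : l ∈ Set.range l₁
    · obtain ⟨i, rfl⟩ := h1
      exact hl0 i
    · exact hM0 l h1
  intro j
  rw [← hw0, hA _ (hwE j)]

/-- such a point is defined over `clo κ(A)` -/
theorem lt_over (H : Lt κ A t S d G) {w : Fin n → ℂ} {i₁ : Fin n} (hwi : w i₁ = 1)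
    (hw : w ∈ cone G) (htr : TrLe κ c w) (hS : ∀ i, ∃ l, t l = i ∧ aeval w (S l) ≠ 0) :
    ∀ j, w j ∈ clo (adj κ (Set.range A)) := by
  choose l₁ hl hS' using hS
  obtain ⟨f, hf, hsp, -, h⟩ := lt_core H hw htr hl hS'
  exact h

/-- exactly `c` coordinates of such a point are independent over `κ` -/
theorem lt_trd (H : Lt κ A t S d G) {w : Fin n → ℂ} {i₁ : Fin n} (hwi : w i₁ = 1)
    (hw : w ∈ cone G) (hwE : ∀ j, w j ∈ clo (adj κ (Set.range A))) (htr : TrLe κ c w)
    (hS : ∀ i, ∃ l, t l = i ∧ aeval w (S l) ≠ 0) :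
    ∃ f : Fin c → Fin n, (AlgebraicIndependent κ fun b => w (f b)) ∧
      ∀ j, w j ∈ clo (adj κ (Set.range fun b => w (f b))) := by
  choose l₁ hl hS' using hS
  obtain ⟨f, hf, hsp, -, -⟩ := lt_core H hw htr hl hS'
  exact ⟨f, hf, hsp⟩

/-- such points with the same relations over `κ` are conjugate over `κ(A)` -/
theorem lt_conj (H : Lt κ A t S d G) [NeZero n] {w w₁ : Fin n → ℂ} {i i₁ : Fin n} (hwi : w i = 1)
    (hw₁i : w₁ i₁ = 1) (hw : w ∈ cone G) (hw₁ : w₁ ∈ cone G)
    (hwE : ∀ j, w j ∈ clo (adj κ (Set.range A))) (hw₁E : ∀ j, w₁ j ∈ clo (adj κ (Set.range A)))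
    (htr : TrLe κ c w) (hrel : Rel κ w w₁) (hS : ∀ i, ∃ l, t l = i ∧ aeval w₁ (S l) ≠ 0) :
    ∃ σ ∈ VGS.Fix (adj κ (Set.range A)), act σ (mkP w) = mkP w₁ := by
  classical
  have := H.cκ
  obtain ⟨hw0, hin⟩ := inR_of_rel hw₁i hrel
  set v : Fin n → ℂ := fun j => (w i₁)⁻¹ * w j with hv
  have hvw : mkP v = (mkP w : PN n) := pr_mkP_mul (inv_ne_zero hw0) w
  have hvi : v i₁ = 1 := by
    rw [hv]
    exact inv_mul_cancel₀ hw0
  have hscale' : ∀ (P : MvPolynomial (Fin n) ℂ) (e : ℕ), P.IsHomogeneous e → aeval w P = 0 →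
      aeval v P = 0 := by
    intro P e hP h0
    rw [aeval_scale hP (a := (w i₁)⁻¹) (w := w) (fun j => rfl), h0, mul_zero]
  have hvG : v ∈ cone G := by
    refine ⟨fun h => ?_, fun a => hscale' _ _ (H.hom a) (hw.2 a)⟩
    have h1 := congrFun h i₁
    rw [hvi] at h1
    exact one_ne_zero h1
  have hvtr : TrLe κ c v := htr.scale i₁
  have hw₁tr : TrLe κ c w₁ := trLe_of_rel hw₁i htr hrel
  choose l₁ hl hS₁ using hS
  have hSv : ∀ i, aeval v (S (l₁ i)) ≠ 0 := fun i h0 => hS₁ i (hin _ (H.coefS _) h0)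
  obtain ⟨f₁, hf₁, hsp₁, hM₁, -⟩ := lt_core H hw₁ hw₁tr hl hS₁
  obtain ⟨f, hf, hsp, hM, -⟩ := lt_core H hvG hvtr hl hSv
  have hvf₁ : AlgebraicIndependent κ fun b => v (f₁ b) := ai_of_inR hin hf₁
  have hspv : ∀ j, v j ∈ clo (adj κ (Set.range fun b => v (f₁ b))) := by
    have h1 := ai_span hvf₁ (y := fun b => v (f b)) le_rfl fun b => hsp _
    intro j
    refine clo_adj_le ((le_adj _ _).trans (le_clo _)) ?_ (hsp j)
    rintro _ ⟨b, rfl⟩
    exact h1 b
  have hin' : InR κ w₁ v := inR_symm hin hf₁ hspv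
  obtain ⟨σ₁, hσ₁, hσv⟩ := VGS.exists_fix κ v w₁ fun P hP => ⟨hin P hP, hin' P hP⟩
  have hcy : Countable (adj κ (Set.range w₁)) := VGS.countable_adj _ _
  -- the other letters
  have hA₁ : AlgebraicIndependent (adj κ (Set.range w₁))
      (fun l : {l : Λ // l ∉ Set.range l₁} => A l) := by
    refine ai_mono_clo (adj_le ((le_adj _ _).trans (le_clo _)) ?_) hM₁
    rintro _ ⟨j, rfl⟩
    exact hsp₁ j
  have hA₀ : AlgebraicIndependent (adj κ (Set.range v))
      (fun l : {l : Λ // l ∉ Set.range l₁} => A l) := by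
    refine ai_mono_clo (adj_le ((le_adj _ _).trans (le_clo _)) ?_) hM
    rintro _ ⟨j, rfl⟩
    exact hsp j
  have hA₂ := ai_map (symm_mem_adj hσ₁ hσv) hA₀
  obtain ⟨σ₂, hσ₂, hσA⟩ := fs_exists_fix_ai (adj κ (Set.range w₁)) hA₂ hA₁
  have hσ₂' := mem_Fix_adj.1 hσ₂
  have hσκ : σ₂ * σ₁ ∈ VGS.Fix κ := (VGS.Fix κ).mul_mem hσ₂'.1 hσ₁
  have hσw : ∀ j, (σ₂ * σ₁) (v j) = w₁ j := by
    intro j
    change σ₂ (σ₁ (v j)) = w₁ j
    rw [hσv, hσ₂'.2 _ ⟨j, rfl⟩]
  have hSS : ∀ l, (σ₂ * σ₁) (aeval v (S l)) = aeval w₁ (S l) := by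
    intro l
    rw [← VGS.aeval_fix (H.coefS l) hσκ v]
    congr 1
    congr 1
    funext j
    exact hσw j
  refine ⟨σ₂ * σ₁, mem_Fix_adj.2 ⟨hσκ, ?_⟩, ?_⟩
  · rintro _ ⟨l, rfl⟩
    by_cases hlr : l ∈ Set.range l₁
    · obtain ⟨i, rfl⟩ := hlr
      have h1 := congrArg (σ₂ * σ₁) (lt_letter H hvG hl hSv i)
      rw [h1, map_div₀, map_neg, map_sum, hSS, lt_letter H hw₁ hl hS₁ i]
      congr 2
      refine Finset.sum_congr rfl fun l hl' => ?_
      split_ifs with hti
      · rw [map_mul, hSS]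
        congr 1
        exact hσA ⟨l, lt_not_mem hl (Finset.ne_of_mem_erase hl') hti⟩
      · rw [map_zero]
    · exact hσA ⟨l, hlr⟩
  · rw [← hvw, act_mkP]
    congr 1
    funext j
    exact hσw j

end Lt

end Pool.Agent.VRC
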