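import Pool.Agent.VCI.Move

/-!
# Moving an algebraic point: equations over a bigger field

As in `VCI/Move`, but the equations have coefficients in a countable algebraically closed field
`C` which contains `k(a)`. The moved point is algebraic over `C(u)`, because the Jacobian of the
system is injective at the limit.
-/

set_option autoImplicit false

open MvPolynomial

namespace Pool.Agent.VRC

open Pool.Agent.VGS Pool.Agent.VCI

/-- An element killed by all derivations over `L` is algebraic over `L`. -/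
theorem mk_mem_clo_of_der {L : Fl} {x : ℂ} (h : ∀ D : Derivation ℤ ℂ ℂ, Kills L D → D x = 0) :
    x ∈ clo L := by
  by_contra hx
  have h1 : AlgebraicIndependent L (fun _ : Unit => x) := by
    rw [algebraicIndependent_unique_type_iff]
    intro h2
    exact hx (mem_clo.2 h2)
  obtain ⟨D, hD, hDx⟩ := exists_kills_fam L h1 (fun _ => 1)
  have h2 := h D hD
  rw [hDx ()] at h2
  exact one_ne_zero h2

theorem mk_coef_pderiv {L : Fl} {ι : Type} {f : MvPolynomial ι ℂ} (hf : Coef L f) (i : ι) :
    Coef L (pderiv i f) := by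
  obtain ⟨g, hg⟩ := coef_iff.1 hf
  refine coef_iff.2 ⟨pderiv i g, ?_⟩
  rw [← pderiv_map, hg]

/-- The solution of a system with injective Jacobian at the limit is algebraic. -/
theorem mk_alg {C : Fl} {V : ValuationSubring ℂ} (hV : IsPl V C) {ι : Type} [Fintype ι]
    [DecidableEq ι] (q : ι → ℂ) (Q : ι → MvPolynomial (Option ι) ℂ) (hQ : ∀ j, Coef C (Q j))
    (hJ : ∀ w : ι → ℂ, (∀ j, ∑ i,
      aeval (fun o : Option ι => o.elim 0 q) (pderiv (some i) (Q j)) * w i = 0) → w = 0)
    {u : ℂ} (hu : Sp V C u 0) {z : ι → ℂ} (hz : ∀ i, Sp V C (z i) (q i))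
    (hzQ : ∀ j, aeval (fun o : Option ι => o.elim u z) (Q j) = 0) (i : ι) :
    z i ∈ clo (adj C {u}) := by
  classical
  set M : Matrix ι ι (MvPolynomial (Option ι) ℂ) := Matrix.of fun j i => pderiv (some i) (Q j)
    with hM
  have hdet0 : aeval (fun o : Option ι => o.elim 0 q) M.det ≠ 0 := by
    intro h
    have h1 : (M.map (aeval (fun o : Option ι => o.elim 0 q))).det = 0 := by
      refine Eq.trans ?_ h
      rw [AlgHom.map_det]
      rfl
    obtain ⟨w, hw, hw0⟩ := Matrix.exists_mulVec_eq_zero_iff.2 h1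
    exact hw (hJ w fun j => congrFun hw0 j)
  have hcoef : Coef C M.det := by
    choose q' hq' using fun j => coef_iff.1 (hQ j)
    refine coef_iff.2 ⟨(Matrix.of fun j i => pderiv (some i) (q' j)).det, ?_⟩
    rw [RingHom.map_det]
    congr 1
    ext1 j i
    rw [RingHom.mapMatrix_apply, Matrix.map_apply, Matrix.of_apply, ← pderiv_map, hq' j, hM,
      Matrix.of_apply]
  have hsp : Sp V C (aeval (fun o : Option ι => o.elim u z) M.det)
      (aeval (fun o : Option ι => o.elim 0 q) M.det) := by
    refine Sp.aeval hV hcoef fun o => ?_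
    rcases o with _ | v
    · exact hu
    · exact hz v
  have hdet1 : aeval (fun o : Option ι => o.elim u z) M.det ≠ 0 := hsp.ne_zero hV hdet0
  refine mk_mem_clo_of_der fun D hD => ?_
  have hDu : D u = 0 := hD u (subset_adj _ _ rfl)
  have h1 : ∀ j, ∑ i, aeval (fun o : Option ι => o.elim u z) (pderiv (some i) (Q j)) * D (z i) =
      0 := by
    intro j
    have h2 := der_aeval' ((hQ j).mono (le_adj C {u})) hD (fun o : Option ι => o.elim u z)
    rw [hzQ j, map_zero, Fintype.sum_option] at h2
    simp only [Option.elim_none, Option.elim_some, hDu, mul_zero, zero_add] at h2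
    exact h2.symm
  have h2 : (M.map (aeval (fun o : Option ι => o.elim u z))).mulVec (fun i => D (z i)) = 0 := by
    funext j
    exact h1 j
  have h3 : (M.map (aeval (fun o : Option ι => o.elim u z))).det ≠ 0 := by
    intro h4
    apply hdet1
    refine Eq.trans ?_ h4
    rw [AlgHom.map_det]
    rfl
  have h5 := Matrix.eq_zero_of_mulVec_eq_zero h3 h2
  exact congrFun h5 i

/-- **The moved point.** -/
theorem moveK (k C : Fl) [Countable C] (hC : clo C = C) (hkC : k ≤ C) {ι κ : Type} [Fintype ι]
    [Fintype κ] (a : κ → ℂ) (ha : AlgebraicIndependent k a) (haC : ∀ l, a l ∈ C) (q : ι → ℂ)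
    (hq : ∀ i, q i ∈ clo (adj k (Set.range a)))
    (Φ : κ → MvPolynomial (Option ι) ℂ) (hΦ : ∀ l, Coef C (Φ l))
    (hΦ0 : ∀ l, aeval (fun o : Option ι => o.elim 0 q) (Φ l) = 0)
    (hJ : ∀ D : Derivation ℤ ℂ ℂ, Kills k D →
      (∀ l, ∑ i, aeval (fun o : Option ι => o.elim 0 q) (pderiv (some i) (Φ l)) * D (q i) = 0) →
      ∀ l, D (a l) = 0) :
    ∃ (V : ValuationSubring ℂ) (y : ι → ℂ) (u : ℂ), IsPl V C ∧ Sp V C u 0 ∧ u ≠ 0 ∧ u ∉ C ∧
      (∀ i, Sp V C (y i) (q i)) ∧ (∀ i, y i ∈ clo (adj C {u})) ∧
      (∀ l, aeval (fun o : Option ι => o.elim u y) (Φ l) = 0) ∧ InR k q y := by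
  classical
  have hqC : ∀ i, q i ∈ C := by
    intro i
    have h1 : clo (adj k (Set.range a)) ≤ clo C := by
      refine clo_mono (adj_le hkC ?_)
      rintro x ⟨l, rfl⟩
      exact haC l
    rw [hC] at h1
    exact h1 (hq i)
  have hcC : Countable C := inferInstance
  choose R hRk hR0 hR1 using fun i => exists_rel (hq i)
  set g : ι → Option κ → Option (ι ⊕ κ) := fun i o => o.elim (some (Sum.inl i)) (fun l => some (Sum.inr l)) with hg
  set h : Option ι → Option (ι ⊕ κ) := fun o => o.elim none (fun i => some (Sum.inl i)) with hh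
  set Q : ι ⊕ κ → MvPolynomial (Option (ι ⊕ κ)) ℂ :=
    Sum.elim (fun i => rename (g i) (R i)) (fun l => rename h (Φ l)) with hQ
  have hcg : ∀ (u : ℂ) (y : ι ⊕ κ → ℂ) (i : ι), (fun o : Option (ι ⊕ κ) => o.elim u y) ∘ g i =
      fun o : Option κ => o.elim (y (Sum.inl i)) (fun l => y (Sum.inr l)) := by
    intro u y i
    funext o
    rcases o with _ | l <;> rfl
  have hch : ∀ (u : ℂ) (y : ι ⊕ κ → ℂ), (fun o : Option (ι ⊕ κ) => o.elim u y) ∘ h =
      fun o : Option ι => o.elim u (fun i => y (Sum.inl i)) := by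
    intro u y
    funext o
    rcases o with _ | l <;> rfl
  have hQC : ∀ e, Coef C (Q e) := by
    rintro (i | l)
    · obtain ⟨R', hR'⟩ := coef_iff.1 ((hRk i).mono hkC)
      refine coef_iff.2 ⟨rename (g i) R', ?_⟩
      rw [map_rename, hR']; rfl
    · obtain ⟨R', hR'⟩ := coef_iff.1 (hΦ l)
      refine coef_iff.2 ⟨rename h R', ?_⟩
      rw [map_rename, hR']; rfl
  have hQ0 : ∀ e, aeval (fun o : Option (ι ⊕ κ) => o.elim 0 (Sum.elim q a)) (Q e) = 0 := by
    rintro (i | l)
    · change aeval _ (rename (g i) (R i)) = 0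
      rw [aeval_rename, hcg]
      exact hR0 i
    · change aeval _ (rename h (Φ l)) = 0
      rw [aeval_rename, hch]
      exact hΦ0 l
  have hker : ∀ w : ι ⊕ κ → ℂ, (∀ e, ∑ v,
      aeval (fun o : Option (ι ⊕ κ) => o.elim 0 (Sum.elim q a)) (pderiv (some v) (Q e)) * w v = 0) →
      w = 0 := by
    intro w hw
    obtain ⟨D, hDk, hDa⟩ := exists_kills_fam k ha (fun l => w (Sum.inr l))
    -- the differentials with the value 0 on the parameter
    have hW : ∀ e, ∑ o, aeval (fun o : Option (ι ⊕ κ) => o.elim 0 (Sum.elim q a))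
        (pderiv o (Q e)) * (fun o : Option (ι ⊕ κ) => o.elim 0 w) o = 0 := by
      intro e
      rw [Fintype.sum_option]
      have := hw e
      simpa using this
    have hrel : ∀ i, aeval (fun o : Option κ => o.elim (q i) a) (pderiv none (R i)) *
        w (Sum.inl i) + ∑ l, aeval (fun o : Option κ => o.elim (q i) a) (pderiv (some l) (R i)) *
        w (Sum.inr l) = 0 := by
      intro i
      have h1 := hW (Sum.inl i)
      change ∑ o, aeval _ (pderiv o (rename (g i) (R i))) * _ = 0 at h1
      rw [sum_pderiv_rename, hcg, Fintype.sum_option] at h1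
      exact h1
    have hrel' : ∀ i, aeval (fun o : Option κ => o.elim (q i) a) (pderiv none (R i)) *
        D (q i) + ∑ l, aeval (fun o : Option κ => o.elim (q i) a) (pderiv (some l) (R i)) *
        D (a l) = 0 := by
      intro i
      have h1 := der_aeval' (hRk i) hDk (fun o : Option κ => o.elim (q i) a)
      rw [hR0 i, map_zero, Fintype.sum_option] at h1
      exact h1.symm
    have hDq : ∀ i, D (q i) = w (Sum.inl i) := by
      intro i
      have h1 := hrel i
      have h2 := hrel' i
      simp only [hDa] at h2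
      have h3 : aeval (fun o : Option κ => o.elim (q i) a) (pderiv none (R i)) *
          (D (q i) - w (Sum.inl i)) = 0 := by linear_combination h2 - h1
      exact sub_eq_zero.1 ((mul_eq_zero.1 h3).resolve_left (hR1 i))
    have hDa0 : ∀ l, D (a l) = 0 := by
      refine hJ D hDk fun l => ?_
      have h1 := hW (Sum.inr l)
      change ∑ o, aeval _ (pderiv o (rename h (Φ l))) * _ = 0 at h1
      rw [sum_pderiv_rename, hch, Fintype.sum_option] at h1
      have h2 : (h none).elim 0 w = 0 := rfl
      rw [h2, mul_zero, zero_add] at h1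
      refine Eq.trans (Finset.sum_congr rfl fun i _ => ?_) h1
      rw [hDq i]
      rfl
    funext v
    rcases v with i | l
    · have h2 := hrel' i
      simp only [hDa0, mul_zero, Finset.sum_const_zero, add_zero] at h2
      rw [← hDq i]
      exact (mul_eq_zero.1 h2).resolve_left (hR1 i)
    · rw [← hDa l]
      exact hDa0 l
  obtain ⟨V, z, u, hV, hu, hu0, huC, hz, hzQ⟩ := branch' (Set.countable_coe_iff.1 hcC)
    (Sum.elim q a) (by
      rintro (i | l)
      · exact hqC i
      · exact haC l) Q hQC hQ0 hker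
  refine ⟨V, fun i => z (Sum.inl i), u, hV, hu, hu0, huC, fun i => hz (Sum.inl i),
    fun i => mk_alg hV (Sum.elim q a) Q hQC hker hu hz hzQ (Sum.inl i), fun l => ?_, ?_⟩
  · have h1 := hzQ (Sum.inr l)
    change aeval _ (rename h (Φ l)) = 0 at h1
    rw [aeval_rename, hch] at h1
    exact h1
  · refine inD_of_sp hkC hV ha (A := fun l => z (Sum.inr l)) (fun l => hz (Sum.inr l))
      (fun i => hz (Sum.inl i)) fun i => ?_
    -- the moved point is algebraic over the moved parameters
    have h1 := hzQ (Sum.inl i)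
    change aeval _ (rename (g i) (R i)) = 0 at h1
    rw [aeval_rename, hcg] at h1
    have h2 : aeval (fun o : Option κ => o.elim (z (Sum.inl i)) (fun l => z (Sum.inr l)))
        (pderiv none (R i)) ≠ 0 := by
      refine Sp.ne_zero hV (c := aeval (fun o : Option κ => o.elim (q i) a) (pderiv none (R i))) ?_ (hR1 i)
      refine Sp.aeval hV ?_ ?_
      · obtain ⟨R', hR'⟩ := coef_iff.1 ((hRk i).mono hkC)
        refine coef_iff.2 ⟨pderiv none R', ?_⟩
        rw [← pderiv_map, hR']
      · intro o
        rcases o with _ | l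
        · exact hz (Sum.inl i)
        · exact hz (Sum.inr l)
    exact alg_of_rel (hRk i) h1 h2

end Pool.Agent.VRC
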