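import Pool.Agent.VRC.SDefs
import Pool.Agent.VCI.MuC
import Pool.Agent.VGS.Smooth
import Pool.Agent.VCI.Move

/-!
# Surfaces in rationally connected varieties: bihomogeneous relations
-/

set_option autoImplicit false

open scoped LinearAlgebra.Projectivization
open MvPolynomial

namespace Pool.Agent.VRC

open Pool.Agent.Chow0 (IsChowForm IsLink)
open Pool.Agent.VGS (Fl adj clo Coef Kills IsPl Sp conjD)
open Pool.Agent.VCI

variable {m n r : ℕ}

/-! ### bihomogeneous polynomials -/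

theorem isBiHom_zero (e e' : ℕ) : IsBiHom (0 : MvPolynomial (Fin n ⊕ Fin n) ℂ) e e' := by
  intro u hu
  simp at hu

theorem IsBiHom.add {P Q : MvPolynomial (Fin n ⊕ Fin n) ℂ} {e e' : ℕ} (hP : IsBiHom P e e')
    (hQ : IsBiHom Q e e') : IsBiHom (P + Q) e e' := by
  classical
  intro u hu
  rcases Finset.mem_union.1 (support_add hu) with h | h
  · exact hP u h
  · exact hQ u h

theorem IsBiHom.sum {ι : Type*} (s : Finset ι) {P : ι → MvPolynomial (Fin n ⊕ Fin n) ℂ}
    {e e' : ℕ} (hP : ∀ i ∈ s, IsBiHom (P i) e e') : IsBiHom (∑ i ∈ s, P i) e e' := by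
  classical
  induction s using Finset.induction_on with
  | empty =>
    rw [Finset.sum_empty]
    exact isBiHom_zero e e'
  | insert a s ha ih =>
    rw [Finset.sum_insert ha]
    exact (hP a (Finset.mem_insert_self a s)).add
      (ih fun i hi => hP i (Finset.mem_insert_of_mem hi))

theorem IsBiHom.mul {P Q : MvPolynomial (Fin n ⊕ Fin n) ℂ} {a b c d : ℕ} (hP : IsBiHom P a b)
    (hQ : IsBiHom Q c d) : IsBiHom (P * Q) (a + c) (b + d) := by
  classical
  intro u hu
  obtain ⟨v, hv, w, hw, rfl⟩ := Finset.mem_add.1 (support_mul P Q hu)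
  obtain ⟨h1, h2⟩ := hP v hv
  obtain ⟨h3, h4⟩ := hQ w hw
  constructor
  · simp only [Finsupp.add_apply, Finset.sum_add_distrib, h1, h3]
  · simp only [Finsupp.add_apply, Finset.sum_add_distrib, h2, h4]

theorem isBiHom_inl {N : MvPolynomial (Fin n) ℂ} {e : ℕ} (hN : N.IsHomogeneous e) :
    IsBiHom (rename Sum.inl N : MvPolynomial (Fin n ⊕ Fin n) ℂ) e 0 := by
  classical
  intro u hu
  obtain ⟨v, hv, rfl⟩ := Finset.mem_image.1 (by
    rw [support_rename_of_injective Sum.inl_injective] at hu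
    exact hu)
  have h1 : v.degree = e := by
    by_contra h
    exact (mem_support_iff.mp hv) (hN.coeff_eq_zero h)
  constructor
  · simp only [Finsupp.mapDomain_apply Sum.inl_injective]
    rw [← h1, Finsupp.degree_eq_sum]
  · refine Finset.sum_eq_zero fun i _ => ?_
    exact Finsupp.mapDomain_notin_range _ _ (by simp)

theorem isBiHom_inr {N : MvPolynomial (Fin n) ℂ} {e : ℕ} (hN : N.IsHomogeneous e) :
    IsBiHom (rename Sum.inr N : MvPolynomial (Fin n ⊕ Fin n) ℂ) 0 e := by
  classical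
  intro u hu
  obtain ⟨v, hv, rfl⟩ := Finset.mem_image.1 (by
    rw [support_rename_of_injective Sum.inr_injective] at hu
    exact hu)
  have h1 : v.degree = e := by
    by_contra h
    exact (mem_support_iff.mp hv) (hN.coeff_eq_zero h)
  constructor
  · refine Finset.sum_eq_zero fun i _ => ?_
    exact Finsupp.mapDomain_notin_range _ _ (by simp)
  · simp only [Finsupp.mapDomain_apply Sum.inr_injective]
    rw [← h1, Finsupp.degree_eq_sum]

theorem aeval_biHom {P : MvPolynomial (Fin n ⊕ Fin n) ℂ} {e e' : ℕ} (hP : IsBiHom P e e')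
    (x y : Fin n → ℂ) (a b : ℂ) :
    aeval (Sum.elim (fun j => a * x j) (fun j => b * y j)) P =
      a ^ e * b ^ e' * aeval (Sum.elim x y) P := by
  rw [aeval_def, aeval_def, eval₂_eq', eval₂_eq', Finset.mul_sum]
  refine Finset.sum_congr rfl fun t ht => ?_
  obtain ⟨h1, h2⟩ := hP t ht
  rw [Fintype.prod_sum_type, Fintype.prod_sum_type]
  simp only [Sum.elim_inl, Sum.elim_inr, mul_pow, Finset.prod_mul_distrib,
    Finset.prod_pow_eq_pow_sum, h1, h2]
  ring

/-! ### coefficients -/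

theorem coef_rename {L : Fl} {ι κ : Type} (f : ι → κ) {G : MvPolynomial ι ℂ} (hG : Coef L G) :
    Coef L (rename f G) := by
  obtain ⟨G', rfl⟩ := VGS.coef_iff.1 hG
  exact VGS.coef_iff.2 ⟨rename f G', map_rename _ _ _⟩

theorem coef_mul {L : Fl} {ι : Type} {G H : MvPolynomial ι ℂ} (hG : Coef L G) (hH : Coef L H) :
    Coef L (G * H) := by
  obtain ⟨G', rfl⟩ := VGS.coef_iff.1 hG
  obtain ⟨H', rfl⟩ := VGS.coef_iff.1 hH
  exact VGS.coef_iff.2 ⟨G' * H', map_mul _ _ _⟩

theorem coef_sum {L : Fl} {ι κ : Type} (s : Finset κ) {G : κ → MvPolynomial ι ℂ}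
    (hG : ∀ i ∈ s, Coef L (G i)) : Coef L (∑ i ∈ s, G i) := by
  intro u
  rw [coeff_sum]
  exact sum_mem fun i hi => hG i hi u

theorem coef_prod {L : Fl} {ι κ : Type} (s : Finset κ) {G : κ → MvPolynomial ι ℂ}
    (hG : ∀ i ∈ s, Coef L (G i)) : Coef L (∏ i ∈ s, G i) := by
  classical
  induction s using Finset.induction_on with
  | empty =>
    rw [Finset.prod_empty]
    exact VGS.coef_iff.2 ⟨1, map_one _⟩
  | insert a s ha ih =>
    rw [Finset.prod_insert ha]
    exact coef_mul (hG a (Finset.mem_insert_self a s))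
      (ih fun i hi => hG i (Finset.mem_insert_of_mem hi))

theorem coef_monomial_one (L : Fl) {ι : Type} (u : ι →₀ ℕ) :
    Coef L (monomial u (1 : ℂ)) :=
  VGS.coef_iff.2 ⟨monomial u 1, by rw [map_monomial, map_one]⟩

/-- the homogenisation of degree `M` -/
noncomputable def hmg (i₀ : Fin n) (M : ℕ) (N : MvPolynomial (Fin n) ℂ) :
    MvPolynomial (Fin n) ℂ :=
  ∑ j ∈ Finset.range (M + 1), homogeneousComponent j N * X i₀ ^ (M - j)

theorem hmg_hom (i₀ : Fin n) (M : ℕ) (N : MvPolynomial (Fin n) ℂ) :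
    (hmg i₀ M N).IsHomogeneous M := by
  unfold hmg
  refine IsHomogeneous.sum _ _ _ fun j hj => ?_
  have h1 := (homogeneousComponent_isHomogeneous j N).mul (isHomogeneous_X_pow (R := ℂ) i₀ (M - j))
  rwa [Nat.add_sub_cancel' (Nat.lt_succ_iff.1 (Finset.mem_range.1 hj))] at h1

theorem coef_homogeneousComponent {L : Fl} {ι : Type} {G : MvPolynomial ι ℂ} (hG : Coef L G)
    (j : ℕ) : Coef L (homogeneousComponent j G) := by
  intro u
  rw [coeff_homogeneousComponent]
  split
  · exact hG u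
  · exact L.zero_mem

theorem hmg_coef {L : Fl} (i₀ : Fin n) (M : ℕ) {N : MvPolynomial (Fin n) ℂ} (hN : Coef L N) :
    Coef L (hmg i₀ M N) := by
  unfold hmg
  refine coef_sum _ fun j _ => coef_mul (coef_homogeneousComponent hN j) ?_
  exact VGS.coef_iff.2 ⟨X i₀ ^ (M - j), by rw [map_pow, map_X]⟩

theorem hmg_aeval {i₀ : Fin n} {M : ℕ} {N : MvPolynomial (Fin n) ℂ} (hM : N.totalDegree ≤ M)
    {z : Fin n → ℂ} (hz : z i₀ = 1) : aeval z (hmg i₀ M N) = aeval z N := by
  unfold hmg
  have h1 : ∀ j, aeval z (homogeneousComponent j N * X i₀ ^ (M - j)) =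
      aeval z (homogeneousComponent j N) := by
    intro j
    rw [map_mul, map_pow, aeval_X, hz, one_pow, mul_one]
  rw [map_sum]
  simp only [h1]
  rw [← map_sum]
  congr 1
  conv_rhs => rw [← sum_homogeneousComponent N]
  refine (Finset.sum_subset ?_ ?_).symm
  · intro j hj
    rw [Finset.mem_range] at hj ⊢
    omega
  · intro j _ hj
    rw [Finset.mem_range, not_lt] at hj
    exact homogeneousComponent_eq_zero _ _ (by omega)

/-! ### relations -/

theorem rel_of_rel2 {k : Fl} {z w w₀ : Fin n → ℂ} {i₀ : Fin n} (hzi : z i₀ = 1)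
    (h : Rel2 k z w z w₀) : Rel (adj k (Set.range z)) w w₀ := by
  classical
  intro P e hP hc h0
  have h1 : ∀ u : Fin n →₀ ℕ, ∃ N D : MvPolynomial (Fin n) ℂ, Coef k N ∧ Coef k D ∧
      aeval z D ≠ 0 ∧ coeff u P = aeval z N / aeval z D := fun u => mem_adj_range (hc u)
  choose N D hN hD hD0 hND using h1
  set DD : MvPolynomial (Fin n) ℂ := ∏ v ∈ P.support, D v with hDD
  set N' : (Fin n →₀ ℕ) → MvPolynomial (Fin n) ℂ := fun u =>
    N u * ∏ v ∈ P.support.erase u, D v with hN'
  have hDD0 : aeval z DD ≠ 0 := by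
    rw [hDD, map_prod]
    exact Finset.prod_ne_zero_iff.2 fun v _ => hD0 v
  have h2 : ∀ u ∈ P.support, aeval z (N' u) = aeval z DD * coeff u P := by
    intro u hu
    have h3 : DD = D u * ∏ v ∈ P.support.erase u, D v := (Finset.mul_prod_erase _ _ hu).symm
    change aeval z (N u * ∏ v ∈ P.support.erase u, D v) = _
    rw [h3, hND u, map_mul, map_mul, mul_right_comm, mul_div_cancel₀ _ (hD0 u)]
  set M : ℕ := P.support.sup fun u => (N' u).totalDegree with hM
  set Q : MvPolynomial (Fin n ⊕ Fin n) ℂ := ∑ u ∈ P.support,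
    rename Sum.inl (hmg i₀ M (N' u)) * rename Sum.inr (monomial u (1 : ℂ)) with hQ
  have hQc : Coef k Q := by
    refine coef_sum _ fun u _ => coef_mul (coef_rename _ (hmg_coef _ _ ?_))
      (coef_rename _ (coef_monomial_one k u))
    exact coef_mul (hN u) (coef_prod _ fun v _ => hD v)
  have hQh : IsBiHom Q M e := by
    refine IsBiHom.sum _ fun u hu => ?_
    have h3 : (monomial u (1 : ℂ)).IsHomogeneous e := by
      refine isHomogeneous_monomial _ ?_
      by_contra h
      exact (mem_support_iff.mp hu) (hP.coeff_eq_zero h)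
    have h4 := (isBiHom_inl (hmg_hom i₀ M (N' u))).mul (isBiHom_inr h3)
    rwa [add_zero, zero_add] at h4
  have hQe : ∀ y : Fin n → ℂ, aeval (Sum.elim z y) Q = aeval z DD * aeval y P := by
    intro y
    rw [hQ, map_sum]
    have h5 : aeval y P = ∑ u ∈ P.support, coeff u P * aeval y (monomial u (1 : ℂ)) := by
      conv_lhs => rw [P.as_sum]
      rw [map_sum]
      refine Finset.sum_congr rfl fun u _ => ?_
      rw [aeval_monomial, aeval_monomial, map_one, one_mul]
      rfl
    rw [h5, Finset.mul_sum]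
    refine Finset.sum_congr rfl fun u hu => ?_
    have h6 : (N' u).totalDegree ≤ M := Finset.le_sup (f := fun u => (N' u).totalDegree) hu
    rw [map_mul, aeval_rename, aeval_rename, Sum.elim_comp_inl, Sum.elim_comp_inr,
      hmg_aeval h6 hzi, h2 u hu, mul_assoc]
  have h7 := h Q M e hQh hQc (by rw [hQe, h0, mul_zero])
  rw [hQe] at h7
  exact (mul_eq_zero.1 h7).resolve_left hDD0

theorem rel2_smul {k : Fl} {z w x y : Fin n → ℂ} (h : Rel2 k z w x y) (a b : ℂ) :
    Rel2 k z w (fun j => a * x j) (fun j => b * y j) := by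
  intro P e e' hP hc h0
  rw [aeval_biHom hP, h P e e' hP hc h0, mul_zero]

theorem rel2_lim {k C : Fl} (hkC : k ≤ C) {V : ValuationSubring ℂ} (hV : IsPl V C)
    {z w x y x₀ y₀ : Fin n → ℂ} (h : Rel2 k z w x y) (hx : ∀ l, Sp V C (x l) (x₀ l))
    (hy : ∀ l, Sp V C (y l) (y₀ l)) : Rel2 k z w x₀ y₀ := by
  intro P e e' hP hc h0
  have h1 : ∀ i, Sp V C (Sum.elim x y i) (Sum.elim x₀ y₀ i) := by
    rintro (i | i)
    · exact hx i
    · exact hy i
  have h2 := VGS.Sp.aeval hV (hc.mono hkC) h1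
  rw [h P e e' hP hc h0] at h2
  exact (h2.unique hV (VGS.Sp.const hV C.zero_mem))

theorem rel2_act {k : Fl} {z w x y : Fin n → ℂ} (h : Rel2 k z w x y) {σ : ℂ ≃+* ℂ}
    (hσ : σ ∈ VGS.Fix k) : Rel2 k z w (fun j => σ (x j)) (fun j => σ (y j)) := by
  intro P e e' hP hc h0
  have h1 := VGS.aeval_fix hc hσ (Sum.elim x y)
  rw [h P e e' hP hc h0, map_zero] at h1
  rw [← h1]
  congr 1
  congr 1
  funext i
  rcases i with i | i <;> rfl

/-- the relations of `(σ z, σ w)` are those of `(z, w)` -/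
theorem rel2_conj {k : Fl} {z w x y : Fin n → ℂ} {σ : ℂ ≃+* ℂ} (hσ : σ ∈ VGS.Fix k)
    (h : Rel2 k z w x y) : Rel2 k (fun j => σ (z j)) (fun j => σ (w j)) x y := by
  intro P e e' hP hc h0
  refine h P e e' hP hc ?_
  have h1 := VGS.aeval_fix hc hσ (Sum.elim z w)
  have h2 : (fun i => σ (Sum.elim z w i)) =
      Sum.elim (fun j => σ (z j)) (fun j => σ (w j)) := by
    funext i
    rcases i with i | i <;> rfl
  rw [h2, h0] at h1
  exact (map_eq_zero_iff σ σ.injective).1 h1.symm

end Pool.Agent.VRC
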