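import Pool.Agent.VRC.SDefs
import Pool.Agent.VRC.MoveK
import Pool.Agent.VRC.RelA
import Pool.Agent.VRC.LtA
import Pool.Agent.VRC.Letters
import Pool.Agent.VCI.Move

/-!
# The moved point on the rational curve
-/

set_option autoImplicit false

open scoped LinearAlgebra.Projectivization
open MvPolynomial

namespace Pool.Agent.VRC

open Pool.Agent.VGS (Fl adj clo Coef Kills IsPl Sp coef_iff le_clo subset_adj le_adj adj_le
  clo_mono clo_clo ai_sum ai_mono)
open Pool.Agent.VCI

variable {n : ℕ}

namespace RCM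

/-! ### coefficients -/

theorem coef_C {L : Fl} {ι : Type} {x : ℂ} (hx : x ∈ L) : Coef L (C x : MvPolynomial ι ℂ) := by
  rw [coef_iff]
  exact ⟨C ⟨x, hx⟩, by rw [map_C]; rfl⟩

theorem coef_X {L : Fl} {ι : Type} (i : ι) : Coef L (X i : MvPolynomial ι ℂ) := by
  rw [coef_iff]
  exact ⟨X i, by rw [map_X]⟩

theorem coef_add {L : Fl} {ι : Type} {P Q : MvPolynomial ι ℂ} (hP : Coef L P) (hQ : Coef L Q) :
    Coef L (P + Q) := by
  obtain ⟨P', rfl⟩ := coef_iff.1 hP
  obtain ⟨Q', rfl⟩ := coef_iff.1 hQ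
  exact coef_iff.2 ⟨P' + Q', by rw [map_add]⟩

theorem coef_sub {L : Fl} {ι : Type} {P Q : MvPolynomial ι ℂ} (hP : Coef L P) (hQ : Coef L Q) :
    Coef L (P - Q) := by
  obtain ⟨P', rfl⟩ := coef_iff.1 hP
  obtain ⟨Q', rfl⟩ := coef_iff.1 hQ
  exact coef_iff.2 ⟨P' - Q', by rw [map_sub]⟩

theorem coef_mul {L : Fl} {ι : Type} {P Q : MvPolynomial ι ℂ} (hP : Coef L P) (hQ : Coef L Q) :
    Coef L (P * Q) := by
  obtain ⟨P', rfl⟩ := coef_iff.1 hP
  obtain ⟨Q', rfl⟩ := coef_iff.1 hQ
  exact coef_iff.2 ⟨P' * Q', by rw [map_mul]⟩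

theorem coef_pow {L : Fl} {ι : Type} {P : MvPolynomial ι ℂ} (hP : Coef L P) (e : ℕ) :
    Coef L (P ^ e) := by
  obtain ⟨P', rfl⟩ := coef_iff.1 hP
  exact coef_iff.2 ⟨P' ^ e, by rw [map_pow]⟩

theorem coef_sum {L : Fl} {ι α : Type} (s : Finset α) {P : α → MvPolynomial ι ℂ}
    (hP : ∀ i ∈ s, Coef L (P i)) : Coef L (∑ i ∈ s, P i) := by
  classical
  induction s using Finset.induction_on with
  | empty =>
    rw [Finset.sum_empty, coef_iff]
    exact ⟨0, by rw [map_zero]⟩
  | insert i s hi ih =>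
    rw [Finset.sum_insert hi]
    exact coef_add (hP i (Finset.mem_insert_self i s))
      (ih fun j hj => hP j (Finset.mem_insert_of_mem hj))

theorem coef_rename {L : Fl} {ι κ : Type} (f : ι → κ) {P : MvPolynomial ι ℂ} (hP : Coef L P) :
    Coef L (rename f P) := by
  obtain ⟨P', rfl⟩ := coef_iff.1 hP
  exact coef_iff.2 ⟨rename f P', by rw [map_rename]⟩

theorem coef_comp {L : Fl} {P : MvPolynomial (Fin n) ℂ} (hP : Coef L P) (e : ℕ) :
    Coef L (homogeneousComponent e P) := by
  classical
  intro m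
  rw [coeff_homogeneousComponent]
  split_ifs
  · exact hP m
  · exact L.zero_mem

/-! ### homogenisation -/

theorem exists_homog {k : Fl} (i₀ : Fin n) (f : MvPolynomial (Fin n) ℂ) (hf : Coef k f) :
    ∃ P : MvPolynomial (Fin n) ℂ, P.IsHomogeneous f.totalDegree ∧ Coef k P ∧
      ∀ v : Fin n → ℂ, v i₀ ≠ 0 →
        aeval v P = v i₀ ^ f.totalDegree * aeval (fun j => v j / v i₀) f := by
  refine ⟨∑ e ∈ Finset.range (f.totalDegree + 1), homogeneousComponent e f *
    X i₀ ^ (f.totalDegree - e), ?_, ?_, ?_⟩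
  · refine IsHomogeneous.sum _ _ _ fun e he => ?_
    have h1 := (homogeneousComponent_isHomogeneous e f).mul
      ((isHomogeneous_X ℂ i₀).pow (f.totalDegree - e))
    have h2 : e + 1 * (f.totalDegree - e) = f.totalDegree := by
      have := Finset.mem_range.1 he
      omega
    rwa [h2] at h1
  · exact coef_sum _ fun e _ => coef_mul (coef_comp hf e) (coef_pow (coef_X i₀) _)
  · intro v hv
    have h1 : aeval (fun j => v j / v i₀) f = ∑ e ∈ Finset.range (f.totalDegree + 1),
        aeval (fun j => v j / v i₀) (homogeneousComponent e f) := by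
      conv_lhs => rw [← sum_homogeneousComponent f]
      rw [map_sum]
    rw [h1, map_sum, Finset.mul_sum]
    refine Finset.sum_congr rfl fun e he => ?_
    have h2 : aeval v (homogeneousComponent e f) =
        v i₀ ^ e * aeval (fun j => v j / v i₀) (homogeneousComponent e f) :=
      aeval_scale (homogeneousComponent_isHomogeneous e f) fun j => by
        field_simp
    have h3 : v i₀ ^ f.totalDegree = v i₀ ^ e * v i₀ ^ (f.totalDegree - e) := by
      rw [← pow_add]
      congr 1
      have := Finset.mem_range.1 he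
      omega
    rw [map_mul, map_pow, aeval_X, h2, h3]
    ring

/-- The point of the curve satisfies all relations of `z`. -/
theorem inR_curve {k : Fl} {z : Fin n → ℂ} {i₀ : Fin n} (hzi : z i₀ = 1)
    (φ : Fin n → Polynomial ℂ)
    (hφ : ∀ (P : MvPolynomial (Fin n) ℂ) (e : ℕ), P.IsHomogeneous e → Coef k P →
      aeval z P = 0 → aeval φ P = 0) (u : ℂ) (hu : (φ i₀).eval u ≠ 0) :
    InR k z (fun j => (φ j).eval u / (φ i₀).eval u) := by
  intro f hf h0
  obtain ⟨P, hP1, hP2, hP3⟩ := exists_homog i₀ f hf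
  have h1 : aeval z P = 0 := by
    rw [hP3 z (by rw [hzi]; exact one_ne_zero), hzi]
    simp only [div_one, one_pow, one_mul]
    exact h0
  have h2 := congrArg (Polynomial.eval u) (hφ P _ hP1 hP2 h1)
  have h3 : Polynomial.eval u (aeval φ P) = aeval (fun j => (φ j).eval u) P := by
    have h4 : ((Polynomial.aeval u : Polynomial ℂ →ₐ[ℂ] ℂ).comp (aeval φ)) =
        aeval (fun j => (φ j).eval u) := by
      refine MvPolynomial.algHom_ext fun j => ?_
      simp
    have h5 := congrArg (fun f => f P) h4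
    simpa using h5
  rw [h3, Polynomial.eval_zero, hP3 _ hu] at h2
  exact (mul_eq_zero.1 h2).resolve_left (pow_ne_zero _ hu)

/-! ### a transcendence basis -/

theorem exists_basis (k : Fl) (z : Fin n → ℂ) : ∃ B : Finset (Fin n),
    (AlgebraicIndependent k fun i : B => z i) ∧
      ∀ j, z j ∈ clo (adj k (Set.range fun i : B => z i)) := by
  classical
  have h0 : ∃ B : Finset (Fin n), AlgebraicIndependent k fun i : B => z i :=
    ⟨∅, algebraicIndependent_empty_type_iff.2 (algebraMap k ℂ).injective⟩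
  obtain ⟨B, hB, hmax⟩ := Finset.exists_max_image
    (Finset.univ.filter fun B : Finset (Fin n) => AlgebraicIndependent k fun i : B => z i)
    Finset.card (by
      obtain ⟨B, hB⟩ := h0
      exact ⟨B, by simp [hB]⟩)
  rw [Finset.mem_filter] at hB
  refine ⟨B, hB.2, fun j => ?_⟩
  by_contra hj
  have h1 := ai_add hB.2 hj
  have hjB : j ∉ B := fun h => hj (le_clo _ (subset_adj _ _ ⟨⟨j, h⟩, rfl⟩))
  set e : {x // x ∈ insert j B} → {x // x ∈ B} ⊕ Unit := fun i =>
    if h : i.1 ∈ B then Sum.inl ⟨i.1, h⟩ else Sum.inr () with he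
  have hein : Function.Injective e := by
    intro i i' hii
    rw [he] at hii
    by_cases hi : i.1 ∈ B
    · by_cases hi' : i'.1 ∈ B
      · simp only [hi, hi', dif_pos, Sum.inl.injEq, Subtype.mk.injEq] at hii
        exact Subtype.ext hii
      · simp only [hi, hi', dif_pos, dif_neg, not_false_eq_true, reduceCtorEq] at hii
    · by_cases hi' : i'.1 ∈ B
      · simp only [hi, hi', dif_pos, dif_neg, not_false_eq_true, reduceCtorEq] at hii
      · have e1 := (Finset.mem_insert.1 i.2).resolve_right hi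
        have e2 := (Finset.mem_insert.1 i'.2).resolve_right hi'
        exact Subtype.ext (e1.trans e2.symm)
  have hez : (Sum.elim (fun i : B => z i) fun _ : Unit => z j) ∘ e =
      fun i : {x // x ∈ insert j B} => z i := by
    refine _root_.funext fun i => ?_
    rw [he, Function.comp_apply]
    by_cases hi : i.1 ∈ B
    · simp only [hi, dif_pos, Sum.elim_inl]
    · have e1 := (Finset.mem_insert.1 i.2).resolve_right hi
      simp only [hi, dif_neg, not_false_eq_true, Sum.elim_inr]
      rw [e1]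
  have h2 : AlgebraicIndependent k fun i : (insert j B : Finset (Fin n)) => z i := by
    rw [← hez]
    exact h1.comp e hein
  have h3 := hmax (insert j B) (by simp [h2])
  rw [Finset.card_insert_of_notMem hjB] at h3
  omega

/-- A derivation which is zero on `k` and on the parameters is zero on an algebraic element. -/
theorem der_alg {k : Fl} {κ : Type} [Fintype κ] {b : κ → ℂ} {x : ℂ}
    (hx : x ∈ clo (adj k (Set.range b))) {D : Derivation ℤ ℂ ℂ} (hD : Kills k D)
    (hb : ∀ l, D (b l) = 0) : D x = 0 := by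
  classical
  obtain ⟨R, hR, hR0, hR1⟩ := exists_rel hx
  have h1 := der_aeval' hR hD (fun o : Option κ => o.elim x b)
  rw [hR0, map_zero, Fintype.sum_option] at h1
  simp only [Option.elim_none, Option.elim_some, hb, mul_zero, Finset.sum_const_zero,
    add_zero] at h1
  exact (mul_eq_zero.1 h1.symm).resolve_left hR1

theorem kills_range {k : Fl} {z : Fin n → ℂ} {D : Derivation ℤ ℂ ℂ} (hD : Kills k D)
    (hz : ∀ j, D (z j) = 0) : Kills (adj k (Set.range z)) D := fun _ hx =>
  der_alg (le_clo _ hx) hD hz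

/-! ### the equations of the curve -/

/-- The polynomial `p` in the parameter. -/
noncomputable def par (n : ℕ) (p : Polynomial ℂ) : MvPolynomial (Option (Fin n ⊕ Fin n)) ℂ :=
  Polynomial.aeval (X none) p

theorem coef_par {L : Fl} {p : Polynomial ℂ} (hp : ∀ l, p.coeff l ∈ L) : Coef L (par n p) := by
  unfold par
  rw [Polynomial.aeval_eq_sum_range]
  refine coef_sum _ fun l _ => ?_
  rw [MvPolynomial.smul_eq_C_mul]
  exact coef_mul (coef_C (hp l)) (coef_pow (coef_X _) _)

theorem aeval_par (u : ℂ) (y : Fin n ⊕ Fin n → ℂ) (p : Polynomial ℂ) :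
    aeval (fun o : Option (Fin n ⊕ Fin n) => o.elim u y) (par n p) = p.eval u := by
  unfold par
  rw [← Polynomial.aeval_algHom_apply, aeval_X]
  simp

theorem pderiv_par (i : Fin n ⊕ Fin n) (p : Polynomial ℂ) : pderiv (some i) (par n p) = 0 := by
  unfold par
  rw [Derivation.map_aeval, pderiv_X_of_ne (by simp), smul_zero]

end RCM

section Lin

variable [NeZero n] {s c : ℕ} {M : Fin c → ℕ} {k K : Fl} {h : Fin s → MvPolynomial (Fin n) ℂ}
  {g : (i : Fin c) → Fin (M i) → MvPolynomial (Fin n) ℂ} {a : (i : Fin c) → Fin (M i) → ℂ}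
  {d : Fin (s + c) → ℕ}

/-- **The moved point on the rational curve.** -/
theorem rc_move (H : LinRC k h g a K d) {z : Fin n → ℂ} (hz : z ≠ 0) {i₀ : Fin n}
    (hzi : z i₀ = 1) (hp : Projectivization.mk ℂ z hz ∈ Gen K (eqs h g a))
    {w : Fin n → ℂ} {i₁ : Fin n} (hwi : w i₁ = 1) (hw : w ∈ cone (eqs h g a))
    (hwE : ∀ j, w j ∈ clo (adj K (Set.range z))) (htr : TrLe (adj k (Set.range z)) c w)
    (hS : ∀ i, ∃ l l', aeval w (g i l) * aeval z (g i l') ≠ aeval w (g i l') * aeval z (g i l))
    (C : Fl) [Countable C] (hC : clo C = C) (hKC : adj K (Set.range z) ≤ C)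
    (φ : Fin n → Polynomial ℂ) (hφC : ∀ j l, (φ j).coeff l ∈ C)
    (hφ0 : ∀ j, (φ j).eval 0 = z j)
    (hφ : ∀ (P : MvPolynomial (Fin n) ℂ) (e : ℕ), P.IsHomogeneous e → Coef k P →
      aeval z P = 0 → aeval φ P = 0) :
    ∃ (V : ValuationSubring ℂ) (y : Fin n → ℂ) (u : ℂ), IsPl V C ∧ Sp V C u 0 ∧ u ∉ C ∧
      (∀ j, Sp V C (y j) (w j)) ∧ (∀ j, y j ∈ clo (adj C {u})) ∧ y i₁ = 1 ∧
      y ∈ cone (eqs h g a) ∧ Rel2 k z w (fun j => (φ j).eval u) y := by
  classical
  -- the fields
  have hkK : k ≤ K := by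
    rw [H.hK]
    exact le_adj _ _
  have hkC : k ≤ C := hkK.trans ((le_adj _ _).trans hKC)
  have hzC : ∀ j, z j ∈ C := fun j => hKC (subset_adj _ _ ⟨j, rfl⟩)
  have hcloC : clo (adj K (Set.range z)) ≤ C := by
    rw [← hC]
    exact clo_mono hKC
  have hwC : ∀ j, w j ∈ C := fun j => hcloC (hwE j)
  have hzcone : z ∈ cone (eqs h g a) := ⟨hz, (mem_surf_mk H.hom hz).1 hp.1⟩
  -- the letters
  choose l₀ hl₀ using H.bpf z hzcone
  obtain ⟨hLt, hadj⟩ := lt_of H hz hzi hp l₀ hl₀
  have hwE' : ∀ j, w j ∈ clo (adj (adj k (Set.range z))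
      (Set.range fun l : {l : (i : Fin c) × Fin (M i) // l.2 ≠ l₀ l.1} => a l.1.1 l.1.2)) := by
    intro j
    rw [hadj]
    exact hwE j
  have hS' : ∀ i, ∃ l : {l : (i : Fin c) × Fin (M i) // l.2 ≠ l₀ l.1}, l.1.1 = i ∧
      aeval w (g l.1.1 l.1.2 - MvPolynomial.C (aeval z (g l.1.1 l.1.2) /
        aeval z (g l.1.1 (l₀ l.1.1))) * g l.1.1 (l₀ l.1.1)) ≠ 0 := by
    intro i
    by_contra hcon
    have hall : ∀ l : Fin (M i), aeval w (g i l) =
        aeval z (g i l) / aeval z (g i (l₀ i)) * aeval w (g i (l₀ i)) := by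
      intro l
      by_cases hl : l = l₀ i
      · rw [hl, div_self (hl₀ i), one_mul]
      · have h1 : aeval w (g i l - MvPolynomial.C (aeval z (g i l) /
            aeval z (g i (l₀ i))) * g i (l₀ i)) = 0 := by
          by_contra h2
          exact hcon ⟨⟨⟨i, l⟩, hl⟩, rfl, h2⟩
        rw [map_sub, map_mul, aeval_C] at h1
        exact sub_eq_zero.1 h1
    obtain ⟨l, l', hll⟩ := hS i
    refine hll ?_
    rw [hall l, hall l']
    ring
  obtain ⟨f, hfai, hfalg⟩ := lt_trd hLt hwi hw hwE' htr hS'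
  -- the parameters
  obtain ⟨B, hBai, hBalg⟩ := RCM.exists_basis k z
  set b : B ⊕ Fin c → ℂ := Sum.elim (fun i : B => z i) (fun i => w (f i)) with hb
  have hadjB : adj k (Set.range z) ≤ clo (adj k (Set.range fun i : B => z i)) := by
    refine adj_le ((le_adj _ _).trans (le_clo _)) ?_
    rintro _ ⟨j, rfl⟩
    exact hBalg j
  have hbai : AlgebraicIndependent k b := by
    rw [hb, ai_sum]
    refine ⟨hBai, ?_⟩
    have h1 : adj k (Set.range fun i : B => z i) ≤ adj k (Set.range z) := by
      refine adj_le (le_adj _ _) ?_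
      rintro _ ⟨i, rfl⟩
      exact subset_adj _ _ ⟨_, rfl⟩
    exact ai_mono h1 hfai
  have hbz : ∀ i : B, z i ∈ Set.range b := fun i => ⟨Sum.inl i, rfl⟩
  have hbw : ∀ i : Fin c, w (f i) ∈ Set.range b := fun i => ⟨Sum.inr i, rfl⟩
  have hzb : ∀ j, z j ∈ clo (adj k (Set.range b)) := by
    intro j
    refine clo_mono (adj_le (le_adj _ _) ?_) (hBalg j)
    rintro _ ⟨i, rfl⟩
    exact subset_adj _ _ (hbz i)
  have hwb : ∀ j, w j ∈ clo (adj k (Set.range b)) := by
    intro j
    have h1 : adj (adj k (Set.range z)) (Set.range fun i => w (f i)) ≤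
        clo (adj k (Set.range b)) := by
      refine adj_le (adj_le ((le_adj _ _).trans (le_clo _)) ?_) ?_
      · rintro _ ⟨i, rfl⟩
        exact hzb i
      · rintro _ ⟨i, rfl⟩
        exact le_clo _ (subset_adj _ _ (hbw i))
    have h2 := clo_mono h1 (hfalg j)
    rwa [clo_clo] at h2
  set q : Fin n ⊕ Fin n → ℂ := Sum.elim z w with hq
  -- the equations
  set Φ : B ⊕ Fin c → MvPolynomial (Option (Fin n ⊕ Fin n)) ℂ :=
    Sum.elim (fun i => X (some (Sum.inl (i : Fin n))) * RCM.par n (φ i₀) - RCM.par n (φ i))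
      (fun i => rename (fun j => some (Sum.inr j)) (eqs h g a (Fin.natAdd s i))) with hΦd
  have hcoefX : ∀ i, Coef C (eqs h g a i) := by
    intro i
    refine Fin.addCases (fun j => ?_) (fun j => ?_) i
    · have h1 : eqs h g a (Fin.castAdd c j) = h j := by
        unfold eqs
        rw [Fin.append_left]
      rw [h1]
      exact (H.coefh j).mono hkC
    · have h1 : eqs h g a (Fin.natAdd s j) = ∑ l, MvPolynomial.C (a j l) * g j l := by
        unfold eqs
        rw [Fin.append_right]
      rw [h1]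
      refine RCM.coef_sum _ fun l _ => RCM.coef_mul (RCM.coef_C ?_) ((H.coefg j l).mono hkC)
      refine hKC (le_adj _ _ ?_)
      rw [H.hK]
      exact subset_adj _ _ ⟨⟨j, l⟩, rfl⟩
  have hΦC : ∀ l, Coef C (Φ l) := by
    rintro (i | i)
    · exact RCM.coef_sub (RCM.coef_mul (RCM.coef_X _) (RCM.coef_par (hφC i₀)))
        (RCM.coef_par (hφC i))
    · exact RCM.coef_rename _ (hcoefX _)
  have hev1 : ∀ (u : ℂ) (y : Fin n ⊕ Fin n → ℂ) (i : B),
      aeval (fun o : Option (Fin n ⊕ Fin n) => o.elim u y) (Φ (Sum.inl i)) =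
        y (Sum.inl i) * (φ i₀).eval u - (φ i).eval u := by
    intro u y i
    change aeval _ (X (some (Sum.inl (i : Fin n))) * RCM.par n (φ i₀) - RCM.par n (φ i)) = _
    rw [map_sub, map_mul, aeval_X, RCM.aeval_par, RCM.aeval_par]
    rfl
  have hev2 : ∀ (u : ℂ) (y : Fin n ⊕ Fin n → ℂ) (i : Fin c),
      aeval (fun o : Option (Fin n ⊕ Fin n) => o.elim u y) (Φ (Sum.inr i)) =
        aeval (fun j => y (Sum.inr j)) (eqs h g a (Fin.natAdd s i)) := by
    intro u y i
    change aeval _ (rename (fun j => some (Sum.inr j)) (eqs h g a (Fin.natAdd s i))) = _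
    rw [aeval_rename]
    rfl
  have hΦ0 : ∀ l, aeval (fun o : Option (Fin n ⊕ Fin n) => o.elim 0 q) (Φ l) = 0 := by
    rintro (i | i)
    · rw [hev1, hφ0, hφ0, hzi, mul_one]
      exact sub_self _
    · rw [hev2]
      exact hw.2 _
  have hJ : ∀ D : Derivation ℤ ℂ ℂ, Kills k D →
      (∀ l, ∑ i, aeval (fun o : Option (Fin n ⊕ Fin n) => o.elim 0 q)
        (pderiv (some i) (Φ l)) * D (q i) = 0) → ∀ l, D (b l) = 0 := by
    intro D hD hl
    have hz1 : ∀ i : B, D (z i) = 0 := by
      intro i
      have h1 := hl (Sum.inl i)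
      have h2 : ∀ j : Fin n ⊕ Fin n, aeval (fun o : Option (Fin n ⊕ Fin n) => o.elim 0 q)
          (pderiv (some j) (Φ (Sum.inl i))) * D (q j) =
          if j = Sum.inl (i : Fin n) then D (z i) else 0 := by
        intro j
        change aeval _ (pderiv (some j) (X (some (Sum.inl (i : Fin n))) * RCM.par n (φ i₀) -
          RCM.par n (φ i))) * D (q j) = _
        rw [map_sub, RCM.pderiv_par, sub_zero, Derivation.leibniz, RCM.pderiv_par, smul_zero,
          zero_add, smul_eq_mul, map_mul, RCM.aeval_par, hφ0, hzi, one_mul]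
        split_ifs with hj
        · rw [hj, pderiv_X_self, map_one, one_mul]
          rfl
        · rw [pderiv_X_of_ne (fun e => hj (Option.some_injective _ e).symm), map_zero, zero_mul]
      rw [Finset.sum_congr rfl fun j _ => h2 j, Finset.sum_ite_eq' Finset.univ,
        if_pos (Finset.mem_univ _)] at h1
      exact h1
    have hz2 : ∀ j, D (z j) = 0 := fun j => RCM.der_alg (hBalg j) hD hz1
    have hw2 := lt_der hLt hwi hw hwE' htr hS' (RCM.kills_range hD hz2) (fun i => by
      have h1 := hl (Sum.inr i)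
      change ∑ j, aeval _ (pderiv (some j) (rename (fun j => some (Sum.inr j))
        (eqs h g a (Fin.natAdd s i)))) * D (q j) = 0 at h1
      have h2 := sum_pderiv_rename (fun j : Fin n => (some (Sum.inr j) : Option (Fin n ⊕ Fin n)))
        (eqs h g a (Fin.natAdd s i)) (fun o : Option (Fin n ⊕ Fin n) => o.elim 0 q)
        (fun o : Option (Fin n ⊕ Fin n) => o.elim 0 fun j => D (q j))
      rw [Fintype.sum_option] at h2
      simp only [Option.elim_none, Option.elim_some, mul_zero, zero_add] at h2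
      rw [h1] at h2
      unfold dFc
      rw [h2]
      refine Finset.sum_congr rfl fun j _ => ?_
      rw [mul_comm]
      rfl)
    rintro (i | i)
    · exact hz1 i
    · exact hw2 (f i)
  obtain ⟨V, y, u, hV, hu0, -, huC, hyq, hyalg, hyΦ, hyR⟩ := moveK k C hC hkC b hbai (by
    rintro (i | i)
    · exact hzC i
    · exact hwC (f i)) q (by
    rintro (j | j)
    · exact hzb j
    · exact hwb j) Φ hΦC hΦ0 hJ
  -- the value of the curve
  have hφu : ∀ j, Sp V C ((φ j).eval u) (z j) := by
    intro j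
    have h1 := Sp.aeval hV (RCM.coef_par (n := n) (hφC j)) (x := fun o : Option (Fin n ⊕ Fin n) =>
      o.elim u y) (c := fun o : Option (Fin n ⊕ Fin n) => o.elim 0 q) (by
      intro o
      rcases o with _ | i
      · exact hu0
      · exact hyq i)
    rwa [RCM.aeval_par, RCM.aeval_par, hφ0] at h1
  have hu1 : (φ i₀).eval u ≠ 0 := by
    refine (hφu i₀).ne_zero hV ?_
    rw [hzi]
    exact one_ne_zero
  set x : Fin n → ℂ := fun j => (φ j).eval u / (φ i₀).eval u with hx
  have hxR : InR k z x := RCM.inR_curve hzi φ hφ u hu1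
  have hxz : ∀ j, Sp V C (x j) (z j) := by
    intro j
    have h1 := (hφu j).div hV (hφu i₀) (by rw [hzi]; exact one_ne_zero)
    rwa [hzi, div_one] at h1
  -- the first coordinates of the moved point
  set ζ : Fin n → ℂ := fun j => y (Sum.inl j) with hζ
  have hζR : InR k z ζ := by
    intro P hP h0
    have h1 := hyR (rename Sum.inl P) (RCM.coef_rename _ hP) (by
      rw [aeval_rename]
      exact h0)
    rw [aeval_rename] at h1
    exact h1
  have hζx : ∀ i : B, ζ i = x i := by
    intro i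
    have h1 := hyΦ (Sum.inl i)
    rw [hev1] at h1
    rw [hx]
    field_simp
    exact sub_eq_zero.1 h1
  have halg : ∀ v : Fin n → ℂ, InR k z v → (∀ j, Sp V C (v j) (z j)) → (∀ i : B, v i = ζ i) →
      ∀ j, v j ∈ clo (adj k (Set.range fun i : B => ζ i)) := by
    intro v hv hvz hvB j
    obtain ⟨R, hR, hR0, hR1⟩ := exists_rel (hBalg j)
    set e : Option B → Fin n := fun o => o.elim j (fun i => i) with he
    have hcomp : ∀ v' : Fin n → ℂ, v' ∘ e = fun o : Option B => o.elim (v' j) (fun i => v' i) := by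
      intro v'
      refine _root_.funext fun o => ?_
      rcases o with _ | i <;> rfl
    have h1 : aeval (fun o : Option B => o.elim (v j) (fun i => v i)) R = 0 := by
      have h2 := hv (rename e R) (RCM.coef_rename _ hR) (by
        rw [aeval_rename, hcomp]
        exact hR0)
      rwa [aeval_rename, hcomp] at h2
    have h3 : aeval (fun o : Option B => o.elim (v j) (fun i => v i)) (pderiv none R) ≠ 0 := by
      refine Sp.ne_zero hV (c := aeval (fun o : Option B => o.elim (z j) fun i => z i)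
        (pderiv none R)) ?_ hR1
      refine Sp.aeval hV ?_ ?_
      · obtain ⟨R', hR'⟩ := coef_iff.1 (hR.mono hkC)
        refine coef_iff.2 ⟨pderiv none R', ?_⟩
        rw [← pderiv_map, hR']
      · intro o
        rcases o with _ | i
        · exact hvz j
        · exact hvz i
    have h4 := alg_of_rel hR h1 h3
    have h5 : (fun i : B => v i) = fun i : B => ζ i := _root_.funext fun i => hvB i
    rwa [h5] at h4
  have hζz : ∀ j, Sp V C (ζ j) (z j) := fun j => hyq (Sum.inl j)
  have hpair : InR k (Sum.elim z z) (Sum.elim ζ x) := by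
    refine inD_of_sp hkC hV hBai (A := fun i : B => ζ i) (fun i => hζz i) ?_ ?_
    · rintro (j | j)
      · exact hζz j
      · exact hxz j
    · rintro (j | j)
      · exact halg ζ hζR hζz (fun i => rfl) j
      · exact halg x hxR hxz (fun i => (hζx i).symm) j
  have hζx' : ∀ j, ζ j = x j := by
    intro j
    have h1 := hpair (X (Sum.inl j) - X (Sum.inr j)) (RCM.coef_sub (RCM.coef_X _) (RCM.coef_X _))
      (by rw [map_sub, aeval_X, aeval_X]; exact sub_self _)
    rw [map_sub, aeval_X, aeval_X] at h1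
    exact sub_eq_zero.1 h1
  have hφζ : (fun j => (φ j).eval u) = fun j => (φ i₀).eval u * ζ j := by
    refine _root_.funext fun j => ?_
    rw [hζx' j, hx]
    field_simp
  -- the second coordinates
  have hy1 : y (Sum.inr i₁) = 1 := by
    have h1 := hyR (X (Sum.inr i₁) - MvPolynomial.C 1)
      (RCM.coef_sub (RCM.coef_X _) (RCM.coef_C k.one_mem)) (by
        rw [map_sub, aeval_X, aeval_C, map_one]
        change w i₁ - 1 = 0
        rw [hwi, sub_self])
    rw [map_sub, aeval_X, aeval_C, map_one] at h1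
    exact sub_eq_zero.1 h1
  refine ⟨V, fun j => y (Sum.inr j), u, hV, hu0, huC, fun j => hyq (Sum.inr j),
    fun j => hyalg (Sum.inr j), hy1, ⟨?_, ?_⟩, ?_⟩
  · intro h0
    have h1 := congrFun h0 i₁
    rw [Pi.zero_apply] at h1
    rw [hy1] at h1
    exact one_ne_zero h1
  · intro i
    refine Fin.addCases (fun j => ?_) (fun j => ?_) i
    · have h1 : eqs h g a (Fin.castAdd c j) = h j := by
        unfold eqs
        rw [Fin.append_left]
      have h2 := hw.2 (Fin.castAdd c j)
      rw [h1] at h2 ⊢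
      have h3 := hyR (rename Sum.inr (h j)) (RCM.coef_rename _ (H.coefh j)) (by
        rw [aeval_rename]
        exact h2)
      rw [aeval_rename] at h3
      exact h3
    · have h1 := hyΦ (Sum.inr j)
      rwa [hev2] at h1
  · rw [hφζ]
    have h1 : Rel2 k z w ζ (fun j => y (Sum.inr j)) := by
      intro P e e' _ hP h0
      have h2 := hyR P hP h0
      have h3 : y = Sum.elim ζ (fun j => y (Sum.inr j)) := by
        refine _root_.funext fun o => ?_
        rcases o with j | j <;> rfl
      rwa [h3] at h2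
    have h4 := rel2_smul h1 ((φ i₀).eval u) 1
    simpa only [one_mul] using h4

end Lin

end Pool.Agent.VRC
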