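import Pool.Agent.VCI.Gen

/-!
# Exchange of independent generic points

`F = 0` is defined over the countable field `K`, and for each countable field `L` containing `K`
the automorphisms over `clo L` are transitive on the generic points over `L`. Then two independent
generic points can be exchanged by an automorphism over `K`.
-/

set_option autoImplicit false

open scoped LinearAlgebra.Projectivization
open MvPolynomial

namespace Pool.Agent.VRC

open Pool.Agent.VGS (Fl adj clo Coef Fix_mono le_adj le_clo subset_adj adj_le clo_mono adj_adj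
  ai_mono ai_sum ai_pair ai_mono_clo ai_clo)
open Pool.Agent.VCI

variable {m n : ℕ}

theorem sw_countable_adjP {K : Fl} (hK : Countable K) (p : PN n) : Countable (adjP K p) := by
  obtain ⟨z, hz, i, hzi, rfl⟩ := exists_nrm p
  rw [adjP_mk hz hzi]
  have : Countable (Set.range z) := (Set.finite_range z).countable.to_subtype
  infer_instance

/-- normalised coordinates of the same point -/
theorem sw_eq {z w : Fin n → ℂ} (hz : z ≠ 0) (hw : w ≠ 0) {i : Fin n} (hzi : z i = 1)
    (hwi : w i = 1)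
    (h : (Projectivization.mk ℂ z hz : PN n) = Projectivization.mk ℂ w hw) : z = w := by
  obtain ⟨a, -, ha⟩ := (mk_eq_mk_iff_exists hz hw).1 h
  have h1 : a = 1 := by
    have h2 := ha i
    rw [hzi, hwi, mul_one] at h2
    exact h2.symm
  funext j
  rw [ha j, h1, one_mul]

/-- exchange of two independent generic points -/
theorem exists_swap {F : Fin m → MvPolynomial (Fin n) ℂ} {dF : Fin m → ℕ}
    (hF : ∀ i, (F i).IsHomogeneous (dF i)) {K : Fl} (hK : Countable K) (hFK : ∀ i, Coef K (F i))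
    (hconj : ∀ L : Fl, Countable L → K ≤ L → ∀ p ∈ Gen L F, ∀ q ∈ Gen L F,
      ∃ σ ∈ VGS.Fix (clo L), act σ p = q) {p q : PN n} (hp : p ∈ Gen K F)
    (hq : q ∈ Gen (clo (adjP K p)) F) : ∃ σ ∈ VGS.Fix K, act σ p = q ∧ act σ q = p := by
  have hKp : K ≤ clo (adjP K p) := (le_adjP K p).trans (le_clo _)
  obtain ⟨σ₁, hσ₁, hpq⟩ := hconj K hK le_rfl p hp q (Gen_anti hKp F hq)
  replace hσ₁ : σ₁ ∈ VGS.Fix K := Fix_mono (le_clo K) hσ₁
  have hσi : ∀ x ∈ K, σ₁ x ∈ K := fun x hx => by rw [hσ₁ x hx]; exact hx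
  -- coordinates
  obtain ⟨z, hz, i, j, l, hzi, hqz, hzF, hai⟩ := gen_nrm hF hq
  set w : Fin n → ℂ := fun a => σ₁.symm (z a) with hwd
  have hσw : ∀ a, σ₁ (w a) = z a := fun a => σ₁.apply_symm_apply _
  have hw : w ≠ 0 := map_ne_zero' σ₁.symm hz
  have hwi : w i = 1 := by
    change σ₁.symm (z i) = 1
    rw [hzi, map_one]
  have hpw : p = Projectivization.mk ℂ w hw := by
    rw [act_eq_inv hpq, hqz]
    exact act_mk σ₁.symm z hz hw
  have hwF : ∀ a, aeval w (F a) = 0 := (mem_surf_mk hF hw).1 (hpw ▸ hp.1)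
  have hEp : adjP K p = adj K (Set.range w) := by rw [hpw, adjP_mk hw hwi]
  have hEq : adjP K q = adj K (Set.range z) := by rw [hqz, adjP_mk hz hzi]
  have hmap : ∀ {S S' : Set ℂ}, (∀ x ∈ S, σ₁ x ∈ S') → ∀ x ∈ clo (adj K S),
      σ₁ x ∈ clo (adj K S') := fun hS => clo_map (adj_map hσi fun x hx => subset_adj _ _ (hS x hx))
  -- the coordinates of `q` are algebraic over two of them
  have hA : ∀ a, z a ∈ clo (adj K {z j, z l}) := by
    intro a
    by_contra ha
    have h1 : w l ∉ clo (adj K {w j}) := by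
      intro h
      have h2 := hmap (S' := {z j}) (by rintro x rfl; exact hσw j) _ h
      rw [hσw] at h2
      exact (ai_pair.1 (ai_mono hKp hai)).2 h2
    have h2 : w a ∉ clo (adj (adj K {w j}) {w l}) := by
      intro h
      rw [adj_adj] at h
      have h3 := hmap (S' := {z j, z l}) (by
        rintro x (rfl | rfl)
        · exact Or.inl (hσw j)
        · exact Or.inr (hσw l)) _ h
      rw [hσw] at h3
      exact ha h3
    have h3 : p ∈ Gen (adj K {w j}) F := by
      rw [hpw]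
      exact gen_mk hF hw hwi hwF (ai_pair.2 ⟨h1, h2⟩)
    have h4 : adj K {w j} ≤ clo (adjP K p) := by
      refine le_trans ?_ (le_clo _)
      rw [hEp]
      refine adj_le (le_adj _ _) ?_
      rintro x rfl
      exact subset_adj _ _ ⟨j, rfl⟩
    obtain ⟨τ, hτ, hτp⟩ := hconj (adj K {w j}) inferInstance (le_adj _ _) p h3 q
      (Gen_anti h4 F hq)
    have h5 : τ (w j) = w j := hτ _ (le_clo _ (subset_adj _ _ rfl))
    have h6 : (fun a => τ (w a)) = z := by
      refine sw_eq (map_ne_zero' τ hw) hz (i := i) (by rw [hwi, map_one]) hzi ?_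
      rw [← act_mk τ w hw (map_ne_zero' τ hw), ← hpw, hτp, hqz]
    have h7 : z j = w j := by rw [← h5, ← h6]
    apply (ai_pair.1 hai).1
    rw [h7]
    exact le_clo _ (h4 (subset_adj _ _ rfl))
  -- `p` is generic over `K(q)`
  have hpq' : p ∈ Gen (adjP K q) F := by
    obtain ⟨j', l', hai'⟩ := gen_coord hF hw hwi (hpw ▸ hp)
    have h1 : AlgebraicIndependent (adj K (Set.range ![w j', w l'])) ![z j, z l] := by
      refine ai_mono ?_ hai
      refine adj_le hKp ?_
      rintro _ ⟨a, rfl⟩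
      refine le_clo _ ?_
      rw [hEp]
      fin_cases a
      · exact subset_adj _ _ ⟨j', rfl⟩
      · exact subset_adj _ _ ⟨l', rfl⟩
    have h2 := ai_sum.2 ⟨hai', h1⟩
    rw [← algebraicIndependent_equiv' (Equiv.sumComm (Fin 2) (Fin 2))
      (f := Sum.elim ![w j', w l'] ![z j, z l]) (g := Sum.elim ![z j, z l] ![w j', w l'])
      (by ext (x | x) <;> rfl)] at h2
    have h3 := (ai_sum.1 h2).2
    rw [hpw]
    refine gen_mk hF hw hwi hwF (ai_mono_clo ?_ h3)
    rw [hEq]
    refine adj_le ((le_adj _ _).trans (le_clo _)) ?_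
    rintro _ ⟨a, rfl⟩
    refine clo_mono (adj_le (le_adj _ _) ?_) (hA a)
    rintro x (rfl | rfl)
    · exact subset_adj _ _ ⟨0, rfl⟩
    · exact subset_adj _ _ ⟨1, rfl⟩
  have h1 := gen_transport hF hFK hσ₁ hq
  rw [hpq, gen_clo] at h1
  obtain ⟨τ, hτ, hτp⟩ := hconj (adjP K q) (sw_countable_adjP hK q) (le_adjP K q) _ h1 p hpq'
  replace hτ := Fix_mono (le_clo _) hτ
  refine ⟨τ * σ₁, (VGS.Fix K).mul_mem (Fix_mono (le_adjP K q) hτ) hσ₁, ?_, ?_⟩
  · rw [act_mul, hpq]
    exact (over_adjP K q).act_eq hτ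
  · rw [act_mul, hτp]

/-- the automorphisms over `K(p)(q)` move a point over `clo K(p)` to all its conjugates -/
theorem orb_trans {F : Fin m → MvPolynomial (Fin n) ℂ} {dF : Fin m → ℕ}
    (hF : ∀ i, (F i).IsHomogeneous (dF i)) {E : Fl} (hE : Countable E) (hFE : ∀ i, Coef E (F i))
    (hconj : ∀ L : Fl, Countable L → E ≤ L → ∀ p ∈ Gen L F, ∀ q ∈ Gen L F,
      ∃ σ ∈ VGS.Fix (clo L), act σ p = q) {q : PN n} (hq : q ∈ Gen (clo E) F) {x : PN n}
    (hx : Over (clo E) x) {σ : ℂ ≃+* ℂ} (hσ : σ ∈ VGS.Fix E) :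
    ∃ τ ∈ VGS.Fix (adjP E q), act τ x = act σ x := by
  rw [gen_clo] at hq
  obtain ⟨τ, hτ, hτq⟩ := hconj E hE le_rfl (act σ q) ((act_mem_Gen hF hFE hσ).2 hq) q hq
  refine ⟨τ * σ, mem_Fix_adjP.2 ⟨(VGS.Fix E).mul_mem (Fix_mono (le_clo E) hτ) hσ, ?_⟩, ?_⟩
  · rw [act_mul, hτq]
  · rw [act_mul]
    exact ((over_clo_act hσ).2 hx).act_eq hτ

end Pool.Agent.VRC
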