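import Pool.Agent.VRC.RelA
import Pool.Agent.VRC.LtA
import Pool.Agent.VRC.Swap
import Pool.Agent.VRC.Letters
import Pool.Agent.VRC.RCMove
import Pool.Agent.VCI.Link
import Pool.Agent.VCI.AutP
import Pool.Agent.VCI.Gen
import Pool.Agent.VCI.S1

/-!
# The links along the rational curves
-/

set_option autoImplicit false

open scoped LinearAlgebra.Projectivization
open MvPolynomial

namespace Pool.Agent.VRC

open Pool.Agent.VGS (Fl adj clo Coef IsPl Sp le_adj subset_adj adj_le le_clo clo_mono clo_clo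
  fix_mem_clo Fix_mono mem_Fix_adj)
open Pool.Agent.VCI

variable {m n r : ℕ}

/-! ### polynomials with coefficients in a field -/

theorem lk_coef_iff {L : Fl} {ι : Type} {P : MvPolynomial ι ℂ} :
    Coef L P ↔ P ∈ (MvPolynomial.map (σ := ι) (algebraMap L ℂ)).range := by
  rw [VGS.coef_iff]
  rfl

theorem lk_coef_C {L : Fl} {ι : Type} {c : ℂ} (hc : c ∈ L) : Coef L (C c : MvPolynomial ι ℂ) := by
  classical
  intro m
  rw [coeff_C]
  split_ifs
  · exact hc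
  · exact zero_mem _

/-! ### cycles with two kinds of points -/

theorem lk_cycle {E M₀ : Fl} {s : Multiset (PN n)} {x p : PN n} (hx : Over (clo E) x)
    (hs : ∀ q ∈ s, q = p ∨ ∃ σ ∈ VGS.Fix E, act σ x = q)
    (hst : ∀ σ ∈ VGS.Fix M₀, s.map (act σ) = s)
    (hE : ∀ σ ∈ VGS.Fix E, ∃ τ ∈ VGS.Fix M₀, act τ x = act σ x)
    (hp : ∀ σ ∈ VGS.Fix E, act σ p = p) [DecidableEq (PN n)] :
    ∃ b : ℕ, cycQ s = (s.count x : ℚ) • Orb E x + (b : ℚ) • Finsupp.single p 1 := by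
  classical
  by_cases hxp : x = p
  · subst hxp
    refine ⟨0, ?_⟩
    ext q
    rw [cycQ_apply, Finsupp.add_apply, Finsupp.smul_apply, Finsupp.smul_apply, Orb_apply hx,
      smul_eq_mul, smul_eq_mul, Nat.cast_zero, zero_mul, add_zero]
    by_cases h1 : ∃ σ ∈ VGS.Fix E, act σ x = q
    · obtain ⟨σ, hσ, h2⟩ := h1
      rw [if_pos ⟨σ, hσ, h2⟩, mul_one, ← h2, hp σ hσ]
    · rw [if_neg h1, mul_zero]
      norm_cast
      refine Multiset.count_eq_zero_of_notMem fun hq => ?_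
      rcases hs q hq with h3 | h3
      · exact h1 ⟨1, (VGS.Fix E).one_mem, by rw [act_one, h3]⟩
      · exact h1 h3
  have hpx : ∀ σ ∈ VGS.Fix E, act σ x ≠ p := by
    intro σ hσ h1
    apply hxp
    rw [← act_inv_act σ x, h1, hp _ ((VGS.Fix E).inv_mem hσ)]
  refine ⟨s.count p, ?_⟩
  ext q
  rw [cycQ_apply, Finsupp.add_apply, Finsupp.smul_apply, Finsupp.smul_apply, Orb_apply hx,
    Finsupp.single_apply, smul_eq_mul, smul_eq_mul]
  by_cases h1 : ∃ σ ∈ VGS.Fix E, act σ x = q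
  · obtain ⟨σ, hσ, rfl⟩ := h1
    obtain ⟨τ, hτ, h2⟩ := hE σ hσ
    rw [if_pos ⟨σ, hσ, rfl⟩, if_neg (fun h => hpx σ hσ h.symm), mul_one, mul_zero, add_zero, ← h2]
    congr 1
    conv_lhs => rw [← hst τ hτ]
    exact Multiset.count_map_eq_count' _ _ (act_injective τ) _
  · rw [if_neg h1, mul_zero, zero_add]
    by_cases h2 : p = q
    · rw [if_pos h2, mul_one, h2]
    · rw [if_neg h2, mul_zero]
      norm_cast
      refine Multiset.count_eq_zero_of_notMem fun hq => ?_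
      rcases hs q hq with h3 | h3
      · exact h2 h3.symm
      · exact h1 h3

/-- the image of the sum of the conjugates -/
theorem lk_orb_sw {K : Fl} {σ : ℂ ≃+* ℂ} (hσ : σ ∈ VGS.Fix K) {p x : PN n}
    (hx : Over (clo (adjP K p)) x) (hx' : Over (clo (adjP K (act σ p))) (act σ x)) :
    actC σ (Orb (adjP K p) x) = Orb (adjP K (act σ p)) (act σ x) := by
  classical
  ext q
  rw [actC_apply, Orb_apply hx, Orb_apply hx']
  have h1 : (∃ τ ∈ VGS.Fix (adjP K p), act τ x = act σ⁻¹ q) ↔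
      ∃ τ ∈ VGS.Fix (adjP K (act σ p)), act τ (act σ x) = q := by
    constructor
    · rintro ⟨τ, hτ, h2⟩
      rw [mem_Fix_adjP] at hτ
      refine ⟨σ * τ * σ⁻¹, mem_Fix_adjP.2 ⟨?_, ?_⟩, ?_⟩
      · exact (VGS.Fix K).mul_mem ((VGS.Fix K).mul_mem hσ hτ.1) ((VGS.Fix K).inv_mem hσ)
      · rw [act_mul, act_mul, act_inv_act, hτ.2]
      · rw [act_mul, act_mul, act_inv_act, h2, act_act_inv]
    · rintro ⟨τ, hτ, h2⟩
      rw [mem_Fix_adjP] at hτ
      refine ⟨σ⁻¹ * τ * σ, mem_Fix_adjP.2 ⟨?_, ?_⟩, ?_⟩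
      · exact (VGS.Fix K).mul_mem ((VGS.Fix K).mul_mem ((VGS.Fix K).inv_mem hσ) hτ.1) hσ
      · rw [act_mul, act_mul, hτ.2, act_inv_act]
      · rw [act_mul, act_mul, h2]
  by_cases h2 : ∃ τ ∈ VGS.Fix (adjP K p), act τ x = act σ⁻¹ q
  · rw [if_pos h2, if_pos (h1.1 h2)]
  · rw [if_neg h2, if_neg (fun h3 => h2 (h1.2 h3))]

/-! ### the equations -/

section Lin

variable [NeZero n] {s c : ℕ} {M : Fin c → ℕ} {k K : Fl} {h : Fin s → MvPolynomial (Fin n) ℂ}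
  {g : (i : Fin c) → Fin (M i) → MvPolynomial (Fin n) ℂ} {a : (i : Fin c) → Fin (M i) → ℂ}
  {d : Fin (s + c) → ℕ}

omit [NeZero n] in
theorem lk_kK (H : LinRC k h g a K d) : k ≤ K := by
  rw [H.hK]
  exact le_adj _ _

omit [NeZero n] in
theorem lk_cK (H : LinRC k h g a K d) : Countable K := by
  have := H.ck
  rw [H.hK]
  have : Countable (Set.range fun il : (i : Fin c) × Fin (M i) => a il.1 il.2) :=
    (Set.countable_range _).to_subtype
  infer_instance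

omit [NeZero n] in
theorem lk_coef (H : LinRC k h g a K d) (i : Fin (s + c)) : Coef K (eqs h g a i) := by
  classical
  refine Fin.addCases (fun j => ?_) (fun j => ?_) i
  · have h1 : eqs h g a (Fin.castAdd c j) = h j := Fin.append_left _ _ _
    rw [h1]
    exact (H.coefh j).mono (lk_kK H)
  · have h1 : eqs h g a (Fin.natAdd s j) = ∑ l, C (a j l) * g j l := Fin.append_right _ _ _
    rw [h1, lk_coef_iff]
    refine sum_mem fun l _ => mul_mem (lk_coef_iff.1 (lk_coef_C ?_))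
      (lk_coef_iff.1 ((H.coefg j l).mono (lk_kK H)))
    rw [H.hK]
    exact subset_adj _ _ ⟨⟨j, l⟩, rfl⟩

/-- the limits of the moved points -/
theorem lk_class (H : LinRC k h g a K d) {z : Fin n → ℂ} (hz : z ≠ 0) {i₀ : Fin n}
    (hzi : z i₀ = 1) (hp : Projectivization.mk ℂ z hz ∈ Gen K (eqs h g a))
    {w : Fin n → ℂ} {i₁ : Fin n} (hwi : w i₁ = 1) (hw : w ∈ cone (eqs h g a))
    (hwE : ∀ j, w j ∈ clo (adj K (Set.range z))) (htr : TrLe (adj k (Set.range z)) c w)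
    {w₀ : Fin n → ℂ} {i : Fin n} (hw₀i : w₀ i = 1) (hw₀ : w₀ ∈ cone (eqs h g a))
    (hrel : Rel (adj k (Set.range z)) w w₀) :
    mkP w₀ = Projectivization.mk ℂ z hz ∨
      ∃ σ ∈ VGS.Fix (adj K (Set.range z)), act σ (mkP w) = mkP w₀ := by
  classical
  have hzX : z ∈ cone (eqs h g a) := ⟨hz, (mem_surf_mk H.hom hz).1 hp.1⟩
  by_cases hpar : ∀ i, ∃ l l', aeval w₀ (g i l) * aeval z (g i l') ≠
      aeval w₀ (g i l') * aeval z (g i l)
  · right
    choose l₀ hl₀ using H.bpf z hzX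
    obtain ⟨HL, hadj⟩ := lt_of H hz hzi hp l₀ hl₀
    have hS : ∀ i, ∃ l : {l : (i : Fin c) × Fin (M i) // l.2 ≠ l₀ l.1}, l.1.1 = i ∧
        aeval w₀ (g l.1.1 l.1.2 - C (aeval z (g l.1.1 l.1.2) / aeval z (g l.1.1 (l₀ l.1.1))) *
          g l.1.1 (l₀ l.1.1)) ≠ 0 := by
      intro i
      by_contra hcon
      push Not at hcon
      have h1 : ∀ l, aeval w₀ (g i l) =
          aeval w₀ (g i (l₀ i)) / aeval z (g i (l₀ i)) * aeval z (g i l) := by
        intro l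
        by_cases hl : l = l₀ i
        · rw [hl, div_mul_cancel₀ _ (hl₀ i)]
        · have h2 := hcon ⟨⟨i, l⟩, hl⟩ rfl
          rw [map_sub, map_mul, algHom_C, Algebra.algebraMap_self, RingHom.id_apply,
            sub_eq_zero] at h2
          rw [h2]
          ring
      obtain ⟨l, l', hl⟩ := hpar i
      apply hl
      rw [h1 l, h1 l']
      ring
    have htr₀ := trLe_of_rel hw₀i htr hrel
    have hover := lt_over HL hw₀i hw₀ htr₀ hS
    rw [← hadj]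
    exact lt_conj HL hwi hw₀i hw hw₀ (fun j => by rw [hadj]; exact hwE j) hover htr hrel hS
  · left
    push Not at hpar
    obtain ⟨i', hi'⟩ := hpar
    obtain ⟨α, hα⟩ := Projectivization.exists_smul_eq_mk_rep ℂ z hz
    have hrep : ∀ j, (Projectivization.mk ℂ z hz : PN n).rep j = (α : ℂ) * z j := by
      intro j
      rw [← hα]
      rfl
    have h1 := H.sep _ hp i' w₀ hw₀ (fun l l' => by
      rw [aeval_scale (H.homg i' l') hrep, aeval_scale (H.homg i' l) hrep]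
      have h2 := hi' l l'
      linear_combination (α : ℂ) ^ d (Fin.natAdd s i') * h2)
    rw [mkP_eq hw₀.1]
    refine pp_eq_of_cross hw₀.1 hz fun j j' => ?_
    have h2 := h1 j j'
    rw [hrep, hrep] at h2
    have h3 : (α : ℂ) ≠ 0 := α.ne_zero
    have h4 : (α : ℂ) * (w₀ j * z j') = (α : ℂ) * (w₀ j' * z j) := by linear_combination h2
    exact mul_left_cancel₀ h3 h4

end Lin

/-- the relations of the limits -/
theorem lk_limit [NeZero n] {k M₀ : Fl} (hk : k ≤ M₀) {V : ValuationSubring ℂ} (hV : IsPl V (clo M₀))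
    {u t : ℂ} (hu : Sp V (clo M₀) u t) (ht : t ∈ M₀) {z w y : Fin n → ℂ} (hy : y ≠ 0)
    {φ : Fin n → Polynomial ℂ} (hφC : ∀ j l, (φ j).coeff l ∈ clo M₀)
    (hrel : Rel2 k z w (fun j => (φ j).eval u) y) {σ : ℂ ≃+* ℂ} (hσ : σ ∈ VGS.Fix (adj M₀ {u}))
    {q : PN n} (hq : SpP V (clo M₀) (act σ (mkP y)) q) :
    ∃ (w₁ : Fin n → ℂ) (i : Fin n), w₁ i = 1 ∧ w₁ ≠ 0 ∧ q = mkP w₁ ∧
      Rel2 k z w (fun j => σ ((φ j).eval t)) w₁ := by
  classical
  obtain ⟨hσM, hσu⟩ := mem_Fix_adj.1 hσ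
  have hσu' : σ u = u := hσu u rfl
  have hσk : σ ∈ VGS.Fix k := Fix_mono hk hσM
  obtain ⟨z', w', hz', hw', h1, h2, h3⟩ := hq
  have hσy : (fun i => σ (y i)) ≠ 0 := map_ne_zero' σ hy
  rw [act_mkP, mkP_eq hσy] at h1
  obtain ⟨b, hb0, hb⟩ := pp_cross_of_eq h1.symm
  have h4 := rel2_smul (rel2_act hrel hσk) 1 b
  have h5 : (fun j => b * σ (y j)) = z' := by
    funext j
    exact (hb j).symm
  rw [h5] at h4
  have h6 : ∀ l, Sp V (clo M₀) (1 * σ ((φ l).eval u)) (σ ((φ l).eval t)) := by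
    intro l
    have h7 : ∀ x : ℂ, σ ((φ l).eval x) = ((φ l).map (σ : ℂ →+* ℂ)).eval (σ x) := by
      intro x
      rw [Polynomial.eval_map]
      exact (Polynomial.eval₂_at_apply (σ : ℂ →+* ℂ) x).symm
    rw [one_mul, h7, h7, hσu', hσM t ht, Polynomial.eval_eq_sum_range, Polynomial.eval_eq_sum_range]
    refine Sp.sum hV _ fun i _ => ?_
    refine (Sp.const hV ?_).mul hV (hu.pow hV i)
    rw [Polynomial.coeff_map]
    exact (fix_mem_clo hσM).2 (hφC l i)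
  have h8 := rel2_lim (hk.trans (le_clo _)) hV h4 h6 h3
  obtain ⟨i, hi⟩ := Function.ne_iff.1 hw'
  have hi' : w' i ≠ 0 := hi
  have h9 := rel2_smul h8 1 (w' i)⁻¹
  have hne : (fun j => (w' i)⁻¹ * w' j) ≠ 0 := by
    intro h0
    have := congrFun h0 i
    simp only [Pi.zero_apply, inv_mul_cancel₀ hi'] at this
    exact one_ne_zero this
  refine ⟨fun j => (w' i)⁻¹ * w' j, i, inv_mul_cancel₀ hi', hne, ?_, ?_⟩
  · rw [h2, mkP_eq hne]
    refine pp_eq_of_cross hw' hne fun j j' => ?_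
    ring
  · have h10 : (fun j => 1 * σ ((φ j).eval t)) = fun j => σ ((φ j).eval t) := by
      funext j
      rw [one_mul]
    rw [h10] at h9
    exact h9

section Lin

variable [NeZero n] {s c : ℕ} {M : Fin c → ℕ} {k K : Fl} {h : Fin s → MvPolynomial (Fin n) ℂ}
  {g : (i : Fin c) → Fin (M i) → MvPolynomial (Fin n) ℂ} {a : (i : Fin c) → Fin (M i) → ℂ}
  {d : Fin (s + c) → ℕ}

theorem rc_link (H : LinRC k h g a K d) {p q : PN n} (hp : p ∈ Gen K (eqs h g a))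
    (hq : q ∈ Gen (clo (adjP K p)) (eqs h g a)) {sw : ℂ ≃+* ℂ} (hsw : sw ∈ VGS.Fix K)
    (h1 : act sw p = q) (h2 : act sw q = p)
    {w : Fin n → ℂ} {i₁ : Fin n} (hwi : w i₁ = 1) (hw : w ∈ cone (eqs h g a))
    (hwE : ∀ j, w j ∈ clo (adjP K p)) (htr : TrLe (adjP k p) c w)
    (hS : ∀ i, ∃ l l', aeval w (g i l) * aeval p.rep (g i l') ≠
      aeval w (g i l') * aeval p.rep (g i l)) :
    ∃ e e' b b' : ℕ, 0 < e ∧ (e : ℚ) • Orb (adjP K p) (mkP w) + (b : ℚ) • Finsupp.single p 1 -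
      (e' : ℚ) • actC sw (Orb (adjP K p) (mkP w)) - (b' : ℚ) • Finsupp.single q 1 ∈
        ratQ (eqs h g a) := by
  classical
  have hcK := lk_cK H
  have hkK := lk_kK H
  have hck := H.ck
  have hcoef := lk_coef H
  -- normalised coordinates
  obtain ⟨z, hz, i₀, hzi, rfl⟩ := exists_nrm p
  obtain ⟨z', hz'def⟩ : ∃ z' : Fin n → ℂ, z' = fun j => sw (z j) := ⟨_, rfl⟩
  have hz' : z' ≠ 0 := by
    rw [hz'def]
    exact map_ne_zero' sw hz
  have hz'i : z' i₀ = 1 := by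
    rw [hz'def]
    change sw (z i₀) = 1
    rw [hzi, map_one]
  have hqz : q = Projectivization.mk ℂ z' hz' := by
    rw [← h1, act_mk sw z hz (map_ne_zero' sw hz)]
    simp only [hz'def]
  subst hqz
  have hadjz : ∀ L : Fl, adjP L (Projectivization.mk ℂ z hz) = adj L (Set.range z) :=
    fun L => adjP_mk hz hzi
  have hadjz' : ∀ L : Fl, adjP L (Projectivization.mk ℂ z' hz') = adj L (Set.range z') :=
    fun L => adjP_mk hz' hz'i
  have hzX : z ∈ cone (eqs h g a) := ⟨hz, (mem_surf_mk H.hom hz).1 hp.1⟩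
  have hqK : Projectivization.mk ℂ z' hz' ∈ Gen K (eqs h g a) :=
    Gen_anti ((le_adjP K _).trans (le_clo _)) _ hq
  have hpq : Projectivization.mk ℂ z hz ∈
      Gen (clo (adjP K (Projectivization.mk ℂ z' hz'))) (eqs h g a) := by
    have := gen_transport H.hom hcoef hsw hq
    rwa [h1, h2] at this
  obtain ⟨α, hα⟩ := Projectivization.exists_smul_eq_mk_rep ℂ z hz
  have hα0 : (α : ℂ) ≠ 0 := α.ne_zero
  have hrep : ∀ j, (Projectivization.mk ℂ z hz : PN n).rep j = (α : ℂ) * z j := by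
    intro j
    rw [← hα]
    rfl
  have hSz : ∀ i, ∃ l l', aeval w (g i l) * aeval z (g i l') ≠
      aeval w (g i l') * aeval z (g i l) := by
    intro i
    obtain ⟨l, l', hl⟩ := hS i
    refine ⟨l, l', fun h3 => hl ?_⟩
    rw [aeval_scale (H.homg i l') hrep, aeval_scale (H.homg i l) hrep]
    linear_combination (α : ℂ) ^ d (Fin.natAdd s i) * h3
  -- the field of both points
  obtain ⟨M₀, hM₀⟩ : ∃ M₀ : Fl, M₀ = adjP (adjP K (Projectivization.mk ℂ z hz))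
    (Projectivization.mk ℂ z' hz') := ⟨_, rfl⟩
  have hcM : Countable M₀ := by
    rw [hM₀]
    infer_instance
  have hEM : adjP K (Projectivization.mk ℂ z hz) ≤ M₀ := by
    rw [hM₀]
    exact le_adjP _ _
  have hKM : K ≤ M₀ := (le_adjP _ _).trans hEM
  have hkM : k ≤ M₀ := hkK.trans hKM
  have hFixM : ∀ σ : ℂ ≃+* ℂ, σ ∈ VGS.Fix M₀ ↔ σ ∈ VGS.Fix K ∧
      act σ (Projectivization.mk ℂ z hz : PN n) = Projectivization.mk ℂ z hz ∧
      act σ (Projectivization.mk ℂ z' hz' : PN n) = Projectivization.mk ℂ z' hz' := by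
    intro σ
    rw [hM₀, mem_Fix_adjP, mem_Fix_adjP, and_assoc]
  have hzM : ∀ j, z j ∈ M₀ := fun j => hEM (by
    rw [hadjz]
    exact subset_adj _ _ ⟨j, rfl⟩)
  have hz'M : ∀ j, z' j ∈ M₀ := fun j => by
    rw [hM₀, hadjz']
    exact subset_adj _ _ ⟨j, rfl⟩
  -- the curve
  obtain ⟨φ, hφC, hφ0, hφ1, hφ⟩ := H.rc z z' hz hz' i₀ i₀ hzi hz'i hp (by rwa [hadjz] at hq)
  have hφM : ∀ j l, (φ j).coeff l ∈ clo M₀ := fun j l =>
    clo_mono (adj_le hkM (Set.union_subset (by rintro _ ⟨j, rfl⟩; exact hzM j)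
      (by rintro _ ⟨j, rfl⟩; exact hz'M j))) (hφC j l)
  obtain ⟨V₀, y, u, hV₀, hu₀, hu, hyw, hyC, hyi, hyX, hyrel⟩ := rc_move H hz hzi hp hwi hw
    (by rw [← hadjz]; exact hwE) (by rw [← hadjz]; exact htr) hSz (clo M₀) (clo_clo M₀)
    (by rw [← hadjz]; exact hEM.trans (le_clo _)) φ hφM hφ0 hφ
  -- the family
  have hyOver : Over (clo (adj M₀ {u})) (mkP y) := by
    rw [mkP_eq hyX.1, over_mk hyX.1 hyi]
    intro j
    exact VGS.clo_adj_le (clo_mono (le_adj _ _)) (by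
      rw [Set.singleton_subset_iff]
      exact le_clo _ (subset_adj _ _ rfl)) (hyC j)
  have hfin := finite_orbit_pt (adj M₀ {u}) hyOver
  obtain ⟨T, hTnd, hTmem⟩ : ∃ T : Multiset (PN n), T.Nodup ∧
      ∀ q, q ∈ T ↔ ∃ σ ∈ VGS.Fix (adj M₀ {u}), act σ (mkP y) = q := by
    refine ⟨hfin.toFinset.val, hfin.toFinset.nodup, fun q => ?_⟩
    rw [Finset.mem_val, Set.Finite.mem_toFinset]
    rfl
  have hT : IsFam M₀ u T := by
    refine ⟨fun q hq => ?_, fun σ hσ => ?_⟩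
    · obtain ⟨σ, hσ, rfl⟩ := (hTmem q).1 hq
      exact (over_clo_act hσ).2 hyOver
    · refine (Multiset.Nodup.ext (hTnd.map (act_injective σ)) hTnd).2 fun q => ?_
      rw [Multiset.mem_map]
      constructor
      · rintro ⟨q', hq', rfl⟩
        obtain ⟨τ, hτ, rfl⟩ := (hTmem q').1 hq'
        exact (hTmem _).2 ⟨σ * τ, (VGS.Fix _).mul_mem hσ hτ, by rw [act_mul]⟩
      · intro hq
        obtain ⟨τ, hτ, rfl⟩ := (hTmem q).1 hq
        refine ⟨act (σ⁻¹ * τ) (mkP y), (hTmem _).2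
          ⟨_, (VGS.Fix _).mul_mem ((VGS.Fix _).inv_mem hσ) hτ, rfl⟩, ?_⟩
        rw [← act_mul, mul_inv_cancel_left]
  have hyT : mkP y ∈ T := (hTmem _).2 ⟨1, (VGS.Fix _).one_mem, act_one _⟩
  have hyF : mkP y ∈ ciS (eqs h g a) := by
    rw [mkP_eq hyX.1, mem_surf_mk H.hom]
    exact hyX.2
  have hTF : ∀ q ∈ T, q ∈ ciS (eqs h g a) := by
    intro q hq
    obtain ⟨σ, hσ, rfl⟩ := (hTmem q).1 hq
    exact (act_mem_surf H.hom hcoef (Fix_mono (hKM.trans (le_adj _ _)) hσ)).2 hyF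
  have hcoefM : ∀ i, Coef M₀ (eqs h g a i) := fun i => (hcoef i).mono hKM
  have hcoefC : ∀ i, Coef (clo M₀) (eqs h g a i) := fun i => (hcoefM i).mono (le_clo _)
  -- limits
  have hEu : adj M₀ {u} ≤ adj (clo M₀) {u} :=
    adj_le ((le_clo M₀).trans (le_adj _ _)) (subset_adj _ _)
  have hTOver : ∀ q ∈ T, Over (clo (adj (clo M₀) {u})) q := fun q hq =>
    (hT.isOver q hq).mono (clo_mono hEu)
  obtain ⟨V₁, hV₁, hu₁⟩ := VGS.exists_place (clo_clo M₀) hu (one_mem (clo M₀))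
  have hex₀ : ∀ q ∈ T, ∃ q', SpP V₀ (clo M₀) q q' := fun q hq =>
    exists_spP (clo_clo M₀) hV₀ hu hu₀ (hTOver q hq)
  have hex₁ : ∀ q ∈ T, ∃ q', SpP V₁ (clo M₀) q q' := fun q hq =>
    exists_spP (clo_clo M₀) hV₁ hu hu₁ (hTOver q hq)
  choose! f₀ hf₀ using hex₀
  choose! f₁ hf₁ using hex₁
  -- the point w and its image
  have hw0 : w ≠ 0 := hw.1
  obtain ⟨w', hw'def⟩ : ∃ w' : Fin n → ℂ, w' = fun j => sw (w j) := ⟨_, rfl⟩
  have hw'0 : w' ≠ 0 := by
    rw [hw'def]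
    exact map_ne_zero' sw hw0
  have hw'i : w' i₁ = 1 := by
    rw [hw'def]
    change sw (w i₁) = 1
    rw [hwi, map_one]
  have hw'P : mkP w' = act sw (mkP w) := by
    rw [act_mkP, hw'def]
  have hw'X : w' ∈ cone (eqs h g a) := by
    refine ⟨hw'0, fun i => ?_⟩
    rw [hw'def]
    rw [VGS.aeval_fix (hcoef i) hsw w, hw.2 i, map_zero]
  have hadj : ∀ L : Fl, L ≤ K → ∀ x ∈ adj L (Set.range z), sw x ∈ adj L (Set.range z') := by
    intro L hL
    refine adj_map (fun x hx => by rw [hsw x (hL hx)]; exact hx) ?_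
    rintro _ ⟨j, rfl⟩
    exact subset_adj _ _ ⟨j, by rw [hz'def]⟩
  have hw'E : ∀ j, w' j ∈ clo (adj K (Set.range z')) := by
    intro j
    rw [hw'def]
    refine clo_map (hadj K le_rfl) _ ?_
    rw [← hadjz]
    exact hwE j
  have hw'tr : TrLe (adj k (Set.range z')) c w' := by
    intro f hf
    apply htr f
    rw [hadjz]
    have h3 := ai_transport (L' := adj k (Set.range z)) (σ := sw.symm) (fun x hx => by
      rw [RingEquiv.symm_symm]
      exact hadj k hkK x hx) hf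
    have h4 : (fun i => sw.symm (w' (f i))) = fun b => w (f b) := by
      funext b
      rw [hw'def]
      exact sw.symm_apply_apply _
    rwa [h4] at h3
  -- limits at 0
  have hwOver : Over (clo (adjP K (Projectivization.mk ℂ z hz))) (mkP w) := by
    rw [mkP_eq hw0, over_mk hw0 hwi]
    exact hwE
  have hw'Over : Over (clo (adjP K (Projectivization.mk ℂ z' hz'))) (mkP w') := by
    rw [mkP_eq hw'0, over_mk hw'0 hw'i, hadjz']
    exact hw'E
  have hlim₀ : ∀ q ∈ T.map f₀, q = Projectivization.mk ℂ z hz ∨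
      ∃ σ ∈ VGS.Fix (adjP K (Projectivization.mk ℂ z hz)), act σ (mkP w) = q := by
    intro q hq
    obtain ⟨q', hq', rfl⟩ := Multiset.mem_map.1 hq
    have h3 := hf₀ q' hq'
    have h4 := SpP.mem_ciS hV₀ H.hom hcoefC h3 (hTF q' hq')
    obtain ⟨σ, hσ, rfl⟩ := (hTmem q').1 hq'
    obtain ⟨w₁, i, hi, hw₁, h5, h6⟩ := lk_limit hkM hV₀ hu₀ (zero_mem M₀) hyX.1 hφM hyrel hσ h3
    have h7 : (fun j => σ ((φ j).eval 0)) = z := by
      funext j
      rw [hφ0]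
      exact (mem_Fix_adj.1 hσ).1 _ (hzM j)
    rw [h7] at h6
    rw [h5] at h4 ⊢
    rw [mkP_eq hw₁, mem_surf_mk H.hom] at h4
    have h8 := lk_class H hz hzi hp hwi hw (by rw [← hadjz]; exact hwE)
      (by rw [← hadjz]; exact htr) hi ⟨hw₁, h4⟩ (rel_of_rel2 hzi h6)
    rwa [← hadjz] at h8
  have hlim₁ : ∀ q ∈ T.map f₁, q = Projectivization.mk ℂ z' hz' ∨
      ∃ σ ∈ VGS.Fix (adjP K (Projectivization.mk ℂ z' hz')), act σ (mkP w') = q := by
    intro q hq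
    obtain ⟨q', hq', rfl⟩ := Multiset.mem_map.1 hq
    have h3 := hf₁ q' hq'
    have h4 := SpP.mem_ciS hV₁ H.hom hcoefC h3 (hTF q' hq')
    obtain ⟨σ, hσ, rfl⟩ := (hTmem q').1 hq'
    obtain ⟨w₁, i, hi, hw₁, h5, h6⟩ := lk_limit hkM hV₁ hu₁ (one_mem M₀) hyX.1 hφM hyrel hσ h3
    have h7 : (fun j => σ ((φ j).eval 1)) = z' := by
      funext j
      rw [hφ1]
      exact (mem_Fix_adj.1 hσ).1 _ (hz'M j)
    rw [h7] at h6
    rw [h5] at h4 ⊢
    rw [mkP_eq hw₁, mem_surf_mk H.hom] at h4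
    have h9 := rel2_conj (Fix_mono hkK hsw) h6
    rw [← hz'def, ← hw'def] at h9
    have h8 := lk_class H hz' hz'i hqK hw'i hw'X hw'E hw'tr hi ⟨hw₁, h4⟩ (rel_of_rel2 hz'i h9)
    rwa [← hadjz'] at h8
  -- the cycles
  have hcyc₀ := lk_cycle hwOver hlim₀
    (fun σ hσ => stable_ms hu hT (zero_mem M₀) hV₀ hu₀ hf₀ hσ) (fun σ hσ => by
      obtain ⟨τ, hτ, h3⟩ := orb_trans H.hom (E := adjP K (Projectivization.mk ℂ z hz)) inferInstance
        (fun i => (hcoef i).mono (le_adjP _ _))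
        (fun L hL hEL p hp q hq => H.conj L hL ((le_adjP _ _).trans hEL) p hp q hq) hq hwOver hσ
      rw [← hM₀] at hτ
      exact ⟨τ, hτ, h3⟩)
    (fun σ hσ => (mem_Fix_adjP.1 hσ).2)
  have hcyc₁ := lk_cycle hw'Over hlim₁
    (fun σ hσ => stable_ms hu hT (one_mem M₀) hV₁ hu₁ hf₁ hσ) (fun σ hσ => by
      obtain ⟨τ, hτ, h3⟩ := orb_trans H.hom (E := adjP K (Projectivization.mk ℂ z' hz'))
        inferInstance (fun i => (hcoef i).mono (le_adjP _ _))
        (fun L hL hEL p hp q hq => H.conj L hL ((le_adjP _ _).trans hEL) p hp q hq) hpq hw'Over hσ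
      rw [mem_Fix_adjP, mem_Fix_adjP, and_assoc] at hτ
      exact ⟨τ, (hFixM τ).2 ⟨hτ.1, hτ.2.2, hτ.2.1⟩, h3⟩)
    (fun σ hσ => (mem_Fix_adjP.1 hσ).2)
  obtain ⟨b, hb⟩ := hcyc₀
  obtain ⟨b', hb'⟩ := hcyc₁
  have hspP : SpP V₀ (clo M₀) (mkP y) (mkP w) := by
    rw [mkP_eq hyX.1, mkP_eq hw0]
    exact (spP_mk hV₀ hyX.1 hw0 hyi hwi).2 hyw
  refine ⟨(T.map f₀).count (mkP w), (T.map f₁).count (mkP w'), b, b', ?_, ?_⟩
  · rw [Multiset.count_pos, Multiset.mem_map]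
    exact ⟨_, hyT, SpP.unique hV₀ (hf₀ _ hyT) hspP⟩
  · have h3 := link_ms hu hT H.hom hcoefM hTF hV₀ hV₁ hu₀ hu₁ hf₀ hf₁
    rw [hb, hb'] at h3
    have h4 : actC sw (Orb (adjP K (Projectivization.mk ℂ z hz)) (mkP w)) =
        Orb (adjP K (Projectivization.mk ℂ z' hz')) (mkP w') := by
      rw [lk_orb_sw hsw hwOver (by rw [h1, ← hw'P]; exact hw'Over), h1, ← hw'P]
    rw [h4]
    have h5 : ∀ x y z t : Cy n, x + y - z - t = x + y - (z + t) := fun x y z t => by abel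
    rw [h5]
    exact h3

end Lin

end Pool.Agent.VRC
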