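import Pool.Agent.VRC.SDefs
import Pool.Agent.VCI.MuC
import Pool.Agent.VGS.Smooth
import Pool.Agent.VCI.Move
import Pool.Agent.VCI.Gen

/-! Surfaces in rationally connected varieties: the surface at a point. -/

set_option autoImplicit false

open scoped LinearAlgebra.Projectivization
open MvPolynomial

namespace Pool.Agent.VRC

open Pool.Agent.VGS (Fl adj clo Coef Kills IsPl Sp le_adj le_clo subset_adj adj_le clo_mono ai_mono
  ai_iff ai_sum ai_pair mem_clo mem_clo_adj adj_adj ai_clo)
open Pool.Agent.VCI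

variable {m n r : ℕ} {F : Fin m → MvPolynomial (Fin (r + 3)) ℂ} {d : Fin m → ℕ} {K : Fl}

/-! ### the differential -/

theorem dFc_add (P Q : MvPolynomial (Fin n) ℂ) (z v : Fin n → ℂ) :
    dFc (P + Q) z v = dFc P z v + dFc Q z v := by
  unfold dFc
  rw [← Finset.sum_add_distrib]
  refine Finset.sum_congr rfl fun l _ => ?_
  rw [map_add, map_add, mul_add]

theorem dFc_sum {ι : Type} (s : Finset ι) (P : ι → MvPolynomial (Fin n) ℂ) (z v : Fin n → ℂ) :
    dFc (∑ i ∈ s, P i) z v = ∑ i ∈ s, dFc (P i) z v := by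
  classical
  induction s using Finset.induction_on with
  | empty =>
    rw [Finset.sum_empty, Finset.sum_empty]
    unfold dFc
    refine Finset.sum_eq_zero fun l _ => ?_
    rw [map_zero, map_zero, mul_zero]
  | insert a s ha ih => rw [Finset.sum_insert ha, Finset.sum_insert ha, dFc_add, ih]

theorem dFc_mul (P Q : MvPolynomial (Fin n) ℂ) (z v : Fin n → ℂ) :
    dFc (P * Q) z v = aeval z P * dFc Q z v + aeval z Q * dFc P z v := by
  unfold dFc
  rw [Finset.mul_sum, Finset.mul_sum, ← Finset.sum_add_distrib]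
  refine Finset.sum_congr rfl fun l _ => ?_
  rw [Derivation.leibniz, smul_eq_mul, smul_eq_mul, map_add, map_mul, map_mul]
  ring

theorem dFc_vadd (P : MvPolynomial (Fin n) ℂ) (z v w : Fin n → ℂ) :
    dFc P z (v + w) = dFc P z v + dFc P z w := by
  unfold dFc
  rw [← Finset.sum_add_distrib]
  refine Finset.sum_congr rfl fun l _ => ?_
  rw [Pi.add_apply, add_mul]

theorem dFc_vsmul (P : MvPolynomial (Fin n) ℂ) (z : Fin n → ℂ) (c : ℂ) (v : Fin n → ℂ) :
    dFc P z (c • v) = c * dFc P z v := by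
  unfold dFc
  rw [Finset.mul_sum]
  refine Finset.sum_congr rfl fun l _ => ?_
  rw [Pi.smul_apply, smul_eq_mul, mul_assoc]

/-! ### a surface which is not a cone is not the plane -/

theorem Sfc.pos (hX : Sfc F d K) : 0 < r := by
  by_contra h0
  obtain rfl : r = 0 := by omega
  have hcK := hX.cK
  set E : Fl := clo K with hE
  have hcE : Countable E := inferInstance
  obtain ⟨p, hp⟩ := hX.gen E hcE
  obtain ⟨w, hw, i, j, l, hi, -, hwF, hai⟩ := gen_nrm hX.hom hp
  have hwc : w ∈ cone F := ⟨hw, hwF⟩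
  obtain ⟨I, B, -, hB, hspan, -⟩ := hX.loc w hwc
  have hF0 : ∀ s, F s = 0 := by
    intro s
    have h1 := hspan s
    have h2 : (Set.range fun j : Fin 0 => F (I j)) = ∅ := Set.range_eq_empty _
    rw [h2, Ideal.span_empty, Ideal.mem_bot] at h1
    rcases mul_eq_zero.1 h1 with h3 | h3
    · rw [h3, map_zero] at hB
      exact absurd rfl hB
    · exact h3
  have hx : (fun _ => 1 : Fin (0 + 3) → ℂ) ∈ cone F := by
    refine ⟨fun h => ?_, fun s => by rw [hF0 s, map_zero]⟩
    exact one_ne_zero (congrFun h 0)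
  obtain ⟨s, hs⟩ := hX.ncone E hcE (by rw [hE, VGS.clo_clo]) (le_clo K) (fun _ => 1) hx
    (fun _ => E.one_mem) w hwc i j l hi hai
  apply hs
  rw [hF0 s]
  unfold dFc
  refine Finset.sum_eq_zero fun l _ => ?_
  rw [map_zero, map_zero, mul_zero]

/-! ### local equations -/

/-- the local equations at a point -/
theorem Sfc0.exists_loc (hX : Sfc0 F d K) {z : Fin (r + 3) → ℂ} (hz : z ∈ cone F) :
    ∃ I : Fin r → Fin m, (LinearIndependent ℂ fun j v => aeval z (pderiv v (F (I j)))) ∧
      (∀ v, (∀ j, dFc (F (I j)) z v = 0) → ∀ i, dFc (F i) z v = 0) ∧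
      ∀ (C : Fl) (V : ValuationSubring ℂ), clo K ≤ C → IsPl V C → ∀ y : Fin (r + 3) → ℂ,
        (∀ l, Sp V C (y l) (z l)) → (∀ j, aeval y (F (I j)) = 0) → ∀ i, aeval y (F i) = 0 := by
  obtain ⟨I, B, hBK, hB, hspan, hli⟩ := hX.loc z hz
  refine ⟨I, hli, ?_, ?_⟩
  · intro v hv i
    obtain ⟨c, hc⟩ := (Ideal.mem_span_range_iff_exists_fun).1 (hspan i)
    have h1 := congrArg (fun P => dFc P z v) hc
    beta_reduce at h1
    rw [dFc_sum, dFc_mul, hz.2 i, zero_mul, add_zero, Finset.sum_eq_zero] at h1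
    · exact (mul_eq_zero.1 h1.symm).resolve_left hB
    · intro j _
      rw [dFc_mul, hv j, hz.2, mul_zero, zero_mul, add_zero]
  · intro C V hC hV y hy hy0 i
    obtain ⟨c, hc⟩ := (Ideal.mem_span_range_iff_exists_fun).1 (hspan i)
    have h1 := congrArg (aeval y) hc
    rw [map_sum, map_mul, Finset.sum_eq_zero] at h1
    · have h2 := Sp.aeval hV (hBK.mono hC) hy
      exact (mul_eq_zero.1 h1.symm).resolve_left (h2.ne_zero hV hB)
    · intro j _
      rw [map_mul, hy0 j, mul_zero]

theorem Sfc0.dFc_self (hX : Sfc0 F d K) {z : Fin (r + 3) → ℂ} (hz : z ∈ cone F) (i : Fin m) :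
    dFc (F i) z z = 0 := by
  have h1 := (hX.hom i).sum_X_mul_pderiv
  have h2 := congrArg (aeval z) h1
  rw [map_sum, map_nsmul, hz.2 i, nsmul_zero] at h2
  rw [dFc, ← h2]
  refine Finset.sum_congr rfl fun j _ => ?_
  rw [map_mul, aeval_X]

/-- the tangent space has dimension `3` -/
theorem Sfc0.tan_dep (hX : Sfc0 F d K) {z : Fin (r + 3) → ℂ} (hz : z ∈ cone F)
    {v : Fin 4 → Fin (r + 3) → ℂ} (hv : ∀ a i, dFc (F i) z (v a) = 0) :
    ¬ LinearIndependent ℂ v := by
  obtain ⟨I, hli, -, -⟩ := hX.exists_loc hz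
  intro hiv
  set A : Matrix (Fin r) (Fin (r + 3)) ℂ := Matrix.of fun j l => aeval z (pderiv l (F (I j)))
    with hA
  have hrk : A.rank = r := by
    have h1 : LinearIndependent ℂ A.row := hli
    rw [h1.rank_matrix, Fintype.card_fin]
  have h2 := LinearMap.finrank_range_add_finrank_ker A.mulVecLin
  rw [Module.finrank_fintype_fun_eq_card, Fintype.card_fin] at h2
  have h3 : Module.finrank ℂ (LinearMap.range A.mulVecLin) = r := hrk
  have h4 : Module.finrank ℂ (LinearMap.ker A.mulVecLin) = 3 := by omega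
  have hmem : ∀ a, v a ∈ LinearMap.ker A.mulVecLin := by
    intro a
    rw [LinearMap.mem_ker, Matrix.mulVecLin_apply]
    funext j
    have h5 := hv a (I j)
    rw [Pi.zero_apply, ← h5, Matrix.mulVec, dotProduct, dFc]
    exact Finset.sum_congr rfl fun l _ => mul_comm _ _
  have h5 : LinearIndependent ℂ (fun a => (⟨v a, hmem a⟩ : LinearMap.ker A.mulVecLin)) := by
    refine LinearIndependent.of_comp (LinearMap.ker A.mulVecLin).subtype ?_
    exact hiv
  have h6 := h5.fintype_card_le_finrank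
  rw [h4, Fintype.card_fin] at h6
  omega

/-! ### the transcendence degree of a point -/

theorem Sfc0.trLe (hX : Sfc0 F d K) {L : Fl} (hL : K ≤ L) {z : Fin (r + 3) → ℂ} (hz : z ∈ cone F)
    {i : Fin (r + 3)} (hzi : z i = 1) : TrLe L 2 z := by
  intro f hf
  have hcK := hX.cK
  have hfK : AlgebraicIndependent K fun b => z (f b) := ai_mono hL hf
  -- derivations dual to the three coordinates
  have key : ∀ a : Fin 3, ∃ D : Derivation ℤ ℂ ℂ, Kills K D ∧ D (z (f a)) = 1 ∧
      ∀ b, b ≠ a → D (z (f b)) = 0 := by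
    intro a
    have h1 : AlgebraicIndependent K (Sum.elim (fun b : {b : Fin 3 // b ≠ a} => z (f b.1))
        fun _ : Unit => z (f a)) := by
      have h2 := hfK.comp (fun s : {b : Fin 3 // b ≠ a} ⊕ Unit =>
        Sum.elim (fun b => b.1) (fun _ => a) s) (by
          rintro (⟨b, hb⟩ | ⟨⟩) (⟨c, hc⟩ | ⟨⟩) h
          · have h' : b = c := h
            subst h'
            rfl
          · exact absurd h hb
          · exact absurd h.symm hc
          · rfl)
      have h3 : (Sum.elim (fun b : {b : Fin 3 // b ≠ a} => z (f b.1)) fun _ : Unit => z (f a)) =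
          (fun b => z (f b)) ∘ (fun s : {b : Fin 3 // b ≠ a} ⊕ Unit =>
            Sum.elim (fun b => b.1) (fun _ => a) s) := by
        funext s
        rcases s with s | s <;> rfl
      rw [h3]
      exact h2
    obtain ⟨-, h2⟩ := ai_sum.1 h1
    rw [algebraicIndependent_unique_type_iff] at h2
    set M : Fl := adj K (Set.range fun b : {b : Fin 3 // b ≠ a} => z (f b.1)) with hM
    have hcM : Countable M := by
      have h3 : Countable (Set.range fun b : {b : Fin 3 // b ≠ a} => z (f b.1)) :=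
        (Set.countable_range _).to_subtype
      exact VGS.countable_adj _ _
    have h3 : z (f a) ∉ clo M := fun h => h2 (mem_clo.1 h)
    obtain ⟨y, hy⟩ := VGS.gp_exists_far (adj M {z (f a)}) (fun _ : Fin 4 => 0)
    have hy' : y ∉ clo (adj M {z (f a)}) := fun h => hy (clo_mono (le_adj _ _) h)
    obtain ⟨D, hD, hD1, -⟩ := VGS.exists_kills M (ai_pair.2 ⟨h3, hy'⟩) 1 0
    refine ⟨D, fun x hx => hD x (le_adj _ _ hx), hD1, fun b hb => hD _ ?_⟩
    exact subset_adj _ _ ⟨⟨b, hb⟩, rfl⟩
  choose D hDK hD1 hD0 using key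
  refine hX.tan_dep hz (v := Fin.cons z fun a l => D a (z l)) ?_ ?_
  · intro a s
    refine Fin.cases ?_ (fun a => ?_) a
    · rw [Fin.cons_zero]
      exact hX.dFc_self hz s
    · rw [Fin.cons_succ]
      have h1 := mu_der_aeval (hX.coef s) (hDK a) z
      rw [hz.2 s, map_zero] at h1
      rw [h1, dFc]
      exact Finset.sum_congr rfl fun l _ => mul_comm _ _
  · rw [Fintype.linearIndependent_iff]
    intro g hg
    have h0 : ∀ l, g 0 * z l + ∑ a : Fin 3, g a.succ * D a (z l) = 0 := by
      intro l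
      have h1 := congrFun hg l
      rw [Finset.sum_apply, Fin.sum_univ_succ] at h1
      exact h1
    have h1 : g 0 = 0 := by
      have h2 := h0 i
      rw [hzi, mul_one, Finset.sum_eq_zero, add_zero] at h2
      · exact h2
      · intro a _
        rw [Derivation.map_one_eq_zero, mul_zero]
    intro a
    refine Fin.cases h1 (fun a => ?_) a
    have h2 := h0 (f a)
    rw [h1, zero_mul, zero_add, Finset.sum_eq_single a] at h2
    · rwa [hD1, mul_one] at h2
    · intro b _ hb
      rw [hD0 b a (Ne.symm hb), mul_zero]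
    · intro h
      exact absurd (Finset.mem_univ a) h

/-- three independent elements of the closure of the field of the coordinates -/
theorem TrLe.not_ai {L : Fl} {z : Fin n → ℂ} (h : TrLe L 2 z) {t : Fin 3 → ℂ}
    (ht : ∀ a, t a ∈ clo (adj L (Set.range z))) : ¬ AlgebraicIndependent L t := by
  classical
  intro hai
  let M := AlgebraicIndependent.matroid L ℂ
  obtain ⟨J, hJ⟩ := M.exists_isBasis (Set.range z) (by
    rw [AlgebraicIndependent.matroid_e]
    exact Set.subset_univ _)
  have hI : M.Indep (Set.range t) := hai.to_subtype_range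
  have hcl : Set.range t ⊆ M.closure (Set.range z) := by
    rintro _ ⟨i, rfl⟩
    rw [AlgebraicIndependent.matroid_closure_eq]
    exact mem_clo_adj.1 (ht i)
  have h1 : (Set.range t).encard = 3 := by
    rw [← Set.image_univ, Set.InjOn.encard_image hai.injective.injOn, Set.encard_univ,
      ENat.card_eq_coe_natCard, Nat.card_fin]
    rfl
  have h3 : (3 : ℕ∞) ≤ M.eRk (Set.range z) := by
    rw [← h1, ← hI.eRk_eq_encard, ← M.eRk_closure_eq (Set.range z)]
    exact M.eRk_mono hcl
  rw [← hJ.encard_eq_eRk] at h3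
  obtain ⟨J', hJ', hc⟩ := Set.exists_subset_encard_eq h3
  have hfin : J'.Finite := Set.finite_of_encard_eq_coe (k := 3) hc
  have hcard : hfin.toFinset.card = 3 := by
    have h4 := hfin.encard_eq_coe_toFinset_card
    rw [hc] at h4
    exact_mod_cast h4.symm
  have e := (hfin.toFinset.equivFinOfCardEq hcard).symm
  have hsub : ∀ b : Fin 3, ∃ l, z l = (e b : ℂ) := fun b =>
    hJ.subset (hJ' (hfin.mem_toFinset.1 (e b).2))
  choose g hg using hsub
  refine h g ?_
  have h5 : M.Indep J' := hJ.indep.subset hJ'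
  have h6 : AlgebraicIndependent L (fun x : J' => (x : ℂ)) := h5
  have h7 : (fun b => z (g b)) = (fun x : J' => (x : ℂ)) ∘ fun b =>
      (⟨(e b : ℂ), hfin.mem_toFinset.1 (e b).2⟩ : J') := funext fun b => hg b
  rw [h7]
  refine h6.comp _ fun a b hab => ?_
  have h8 : (e a : ℂ) = e b := congrArg (fun x : J' => (x : ℂ)) hab
  exact e.injective (Subtype.ext h8)

theorem TrLe.alg_pair {L : Fl} {z : Fin n → ℂ} (hT : TrLe L 2 z) {x y : ℂ}
    (hx : x ∈ clo (adj L (Set.range z))) (hy : y ∈ clo (adj L (Set.range z)))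
    (h : AlgebraicIndependent L ![x, y]) {w : ℂ} (hw : w ∈ clo (adj L (Set.range z))) :
    w ∈ clo (adj L {x, y}) := by
  by_contra hcon
  have h0 : Set.range ![x, y] = {x, y} := by
    rw [Matrix.range_cons, Matrix.range_cons, Matrix.range_empty, Set.union_empty]
    rfl
  have h1 := ai_add h (u := w) (by rwa [h0])
  have h2 : AlgebraicIndependent L ![x, y, w] := by
    rw [← algebraicIndependent_equiv' (finSumFinEquiv (m := 2) (n := 1)) (f := ![x, y, w])
      (g := Sum.elim ![x, y] fun _ : Fin 1 => w)]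
    · have h3 := h1.comp (Sum.map id fun _ : Fin 1 => ()) (by
        rintro (a | a) (b | b) hab
        · simpa using hab
        · simp at hab
        · simp at hab
        · exact congrArg Sum.inr (Subsingleton.elim a b))
      have h4 : (Sum.elim ![x, y] fun _ : Fin 1 => w) =
          (Sum.elim ![x, y] fun _ : Unit => w) ∘ (Sum.map id fun _ : Fin 1 => ()) := by
        funext s
        rcases s with s | s <;> rfl
      rw [h4]
      exact h3
    · ext (i | i) <;> fin_cases i <;> rfl
  refine hT.not_ai (fun a => ?_) h2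
  fin_cases a
  · exact hx
  · exact hy
  · exact hw

theorem Sfc0.alg_pair (hX : Sfc0 F d K) {L : Fl} (hL : K ≤ L) {z : Fin (r + 3) → ℂ}
    (hz : z ∈ cone F) {i : Fin (r + 3)} (hzi : z i = 1) {x y : ℂ}
    (hx : x ∈ clo (adj L (Set.range z))) (hy : y ∈ clo (adj L (Set.range z)))
    (h : AlgebraicIndependent L ![x, y]) {w : ℂ} (hw : w ∈ clo (adj L (Set.range z))) :
    w ∈ clo (adj L {x, y}) := (hX.trLe hL hz hzi).alg_pair hx hy h hw

theorem Sfc0.gen_algInd (hX : Sfc0 F d K) {L : Fl} (hL : K ≤ L) {z : Fin (r + 3) → ℂ} (hz : z ≠ 0)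
    {i : Fin (r + 3)} (hzi : z i = 1) (h : (Projectivization.mk ℂ z hz : PN (r + 3)) ∈ Gen L F) :
    ∃ j l, AlgebraicIndependent L ![z j, z l] ∧ ∀ m, z m ∈ clo (adj L {z j, z l}) := by
  have hzF : z ∈ cone F := ⟨hz, (mem_surf_mk hX.hom hz).1 h.1⟩
  obtain ⟨j, l, hai⟩ := gen_coord hX.hom hz hzi h
  refine ⟨j, l, hai, fun m => ?_⟩
  have hm : ∀ a, z a ∈ clo (adj L (Set.range z)) := fun a => le_clo _ (subset_adj _ _ ⟨a, rfl⟩)
  exact hX.alg_pair hL hzF hzi (hm j) (hm l) hai (hm m)

end Pool.Agent.VRC
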