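import Pool.Agent.VRC.FVal
import Pool.Agent.VCI.Dom

/-! Two-forms over a field and their values on derivations of `ℂ`. -/

set_option autoImplicit false

open scoped LinearAlgebra.Projectivization
open MvPolynomial

namespace Pool.Agent.VRC

open Pool.Agent.VGS (Fl adj clo Coef Kills conjD conjD_apply conjD_kills fix_mem_clo Fix_mono)
open Pool.Agent.VCI (PN Cy ciS Gen Over act actC act_mk map_ne_zero' exists_nrm)

variable {n m : ℕ} {κ K : Fl} {F : Fin m → MvPolynomial (Fin n) ℂ} {d : Fin m → ℕ}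

theorem HForm.cf (ω : HForm F κ) (t : Fin (ω.T + 1)) : (ω.loc t).Cf κ :=
  fun j s => ⟨ω.coefA t j s, ω.coefB t j s⟩

theorem tauC_single (ω : HForm F κ) (D₁ D₂ : Derivation ℤ ℂ ℂ) (p : PN n) (c : ℚ) :
    tauC ω D₁ D₂ (Finsupp.single p c) = c • tau ω D₁ D₂ p := by
  unfold tauC
  rw [Finsupp.linearCombination_single]

/-- computation with any representative -/
theorem tau_mk (ω : HForm F κ) (D₁ D₂ : Derivation ℤ ℂ ℂ) {z : Fin n → ℂ} (hz : z ≠ 0) :
    tau ω D₁ D₂ (Projectivization.mk ℂ z hz) = (ω.loc 0).val D₁ D₂ z := by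
  obtain ⟨a, ha⟩ := Projectivization.exists_smul_eq_mk_rep ℂ z hz
  have hrep : (Projectivization.mk ℂ z hz : PN n).rep = (a : ℂ) • z := ha.symm
  unfold tau
  rw [hrep, val_smul _ a.ne_zero]

theorem val_rep (ω : RForm n) (D₁ D₂ : Derivation ℤ ℂ ℂ) {z : Fin n → ℂ} (hz : z ≠ 0) :
    ω.val D₁ D₂ (Projectivization.mk ℂ z hz : PN n).rep = ω.val D₁ D₂ z := by
  obtain ⟨a, ha⟩ := Projectivization.exists_smul_eq_mk_rep ℂ z hz
  have hrep : (Projectivization.mk ℂ z hz : PN n).rep = (a : ℂ) • z := ha.symm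
  rw [hrep, val_smul _ a.ne_zero]

theorem tau_swap (ω : HForm F κ) (D₁ D₂ : Derivation ℤ ℂ ℂ) (p : PN n) :
    tau ω D₂ D₁ p = - tau ω D₁ D₂ p := val_swap _ _ _ _

theorem tau_self (ω : HForm F κ) (D : Derivation ℤ ℂ ℂ) (p : PN n) : tau ω D D p = 0 := by
  have h1 := tau_swap ω D D p
  have h2 : (2 : ℂ) * tau ω D D p = 0 := by linear_combination h1
  exact (mul_eq_zero.1 h2).resolve_left two_ne_zero

theorem tau_add (ω : HForm F κ) (D₁ D₂ D₃ : Derivation ℤ ℂ ℂ) (c : ℂ) (p : PN n) :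
    tau ω D₁ (D₂ + c • D₃) p = tau ω D₁ D₂ p + c * tau ω D₁ D₃ p :=
  val_add _ (fun x => by rw [Derivation.add_apply, Derivation.smul_apply, smul_eq_mul]) _

theorem tau_add' (ω : HForm F κ) (D₁ D₂ D₃ : Derivation ℤ ℂ ℂ) (c : ℂ) (p : PN n) :
    tau ω (D₂ + c • D₃) D₁ p = tau ω D₂ D₁ p + c * tau ω D₃ D₁ p := by
  rw [tau_swap, tau_add, tau_swap ω D₂, tau_swap ω D₃]
  ring

/-- The value depends only on the restrictions of the derivations to a field of definition of the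
point. -/
theorem tau_congr (ω : HForm F κ) {p : PN n} {M : Fl} (hM : κ ≤ M) (hpM : Over M p)
    {D₁ D₂ D₁' D₂' : Derivation ℤ ℂ ℂ} (e₁ : ∀ x ∈ M, D₁ x = D₁' x)
    (e₂ : ∀ x ∈ M, D₂ x = D₂' x) : tau ω D₁ D₂ p = tau ω D₁' D₂' p := by
  obtain ⟨z, hz, hzM, rfl⟩ := hpM
  rw [tau_mk, tau_mk]
  have h : ∀ j s, (ω.loc 0).fn j s z ∈ M := fun j s => fn_memC ((ω.cf 0).mono hM) j s hzM
  exact val_congr _ (fun _ _ => rfl) (fun j s => e₁ _ (h j s)) fun j s => e₂ _ (h j s)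

/-- the field of the elements killed by a derivation -/
def kerD {D : Derivation ℤ ℂ ℂ} (hD : Kills κ D) : Fl where
  carrier := {x | D x = 0}
  mul_mem' := fun {a b} ha hb => by
    change D (a * b) = 0
    rw [D.leibniz, show D a = 0 from ha, show D b = 0 from hb, smul_zero, smul_zero, add_zero]
  one_mem' := D.map_one_eq_zero
  add_mem' := fun {a b} ha hb => by
    change D (a + b) = 0
    rw [map_add, show D a = 0 from ha, show D b = 0 from hb, add_zero]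
  zero_mem' := map_zero D
  algebraMap_mem' := fun r => by
    change D (algebraMap ℚ ℂ r) = 0
    exact hD _ (κ.algebraMap_mem r)
  inv_mem' := fun a ha => by
    change D a⁻¹ = 0
    rw [Derivation.leibniz_inv, show D a = 0 from ha, smul_zero]

/-- points over a field killed by the derivations -/
theorem val_over {ω : RForm n} (hω : ω.Cf κ) {D₁ D₂ : Derivation ℤ ℂ ℂ} (h₁ : Kills κ D₁)
    {z : Fin n → ℂ} (hz : ∀ i, D₁ (z i) = 0) : ω.val D₁ D₂ z = 0 := by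
  have h : ∀ j s, D₁ (ω.fn j s z) = 0 := fun j s =>
    fn_memC (L := kerD h₁) (hω.mono fun x hx => h₁ x hx) j s hz
  exact val_zero _ fun j s s' => by rw [h, h, zero_mul, mul_zero]

theorem tau_over (ω : HForm F κ) {L : Fl} {D₁ D₂ : Derivation ℤ ℂ ℂ} (h₁ : Kills κ D₁)
    (hL : Kills L D₁) {p : PN n} (hpL : Over L p) : tau ω D₁ D₂ p = 0 := by
  obtain ⟨z, hz, hzL, rfl⟩ := hpL
  rw [tau_mk]
  exact val_over (ω.cf 0) h₁ fun i => hL _ (hzL i)

theorem not_pair {q : PN n} (hq : q ∈ ciS F) (hq' : q ∉ Gen K F) : ∃ (z : Fin n → ℂ) (hz : z ≠ 0),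
    q = Projectivization.mk ℂ z hz ∧ ∀ j l, ¬ AlgebraicIndependent K ![z j, z l] := by
  obtain ⟨z, hz, i, hi, rfl⟩ := exists_nrm q
  refine ⟨z, hz, rfl, fun j l h => hq' ⟨hq, i, j, l, ?_, ?_⟩⟩
  · rw [Ne, VCI.rep_mk_eq_zero hz i, hi]
    exact one_ne_zero
  · rw [VCI.rep_mk_div, VCI.rep_mk_div, hi, div_one, div_one]
    exact h

/-- the value is zero if no two coordinates are independent -/
theorem val_of_not_gen {ω : RForm n} (hω : ω.Cf κ) (hK : κ ≤ clo K) {D₁ D₂ : Derivation ℤ ℂ ℂ}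
    (h₁ : Kills K D₁) (h₂ : Kills K D₂) {z : Fin n → ℂ}
    (hpair : ∀ j l, ¬ AlgebraicIndependent K ![z j, z l]) : ω.val D₁ D₂ z = 0 := by
  have k₁ : Kills κ D₁ := fun x hx => VCI.DomAux.kills_clo h₁ x (hK hx)
  have k₂ : Kills κ D₂ := fun x hx => VCI.DomAux.kills_clo h₂ x (hK hx)
  by_cases hw : ∃ j, z j ∉ clo K
  · obtain ⟨j, hj⟩ := hw
    have hzL : ∀ l, z l ∈ clo (adj K {z j}) := by
      intro l
      by_contra h
      exact hpair l j (VGS.algInd_pair_iff.2 ⟨hj, h⟩)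
    obtain ⟨w, hw⟩ : ∃ w, w = z j := ⟨_, rfl⟩
    rw [← hw] at hzL
    have hcomb : ∀ x ∈ clo (adj K {w}), D₂ w * D₁ x = D₁ w * D₂ x := by
      intro x hx
      have hD : Kills K (D₂ w • D₁ - D₁ w • D₂) := by
        intro x hx
        simp [h₁ x hx, h₂ x hx]
      have h3 := VCI.DomAux.kills_clo (VCI.DomAux.kills_adj hD (w := w) (by simp [mul_comm])) _ hx
      have h4 : D₂ w * D₁ x - D₁ w * D₂ x = 0 := by simpa using h3
      exact sub_eq_zero.1 h4
    have hq0 : ∀ j s, ω.fn j s z ∈ clo (adj K {w}) := fun j s =>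
      fn_memC (hω.mono (hK.trans (VGS.clo_mono (VGS.le_adj _ _)))) j s hzL
    by_cases ha : D₁ w = 0
    · have h : ∀ j s, D₁ (ω.fn j s z) = 0 := by
        intro j s
        by_cases hb : D₂ w = 0
        · exact VCI.DomAux.kills_clo (VCI.DomAux.kills_adj h₁ ha) _ (hq0 j s)
        · have h6 := hcomb _ (hq0 j s)
          rw [ha, zero_mul] at h6
          exact (mul_eq_zero.1 h6).resolve_left hb
      exact val_zero _ fun j s s' => by rw [h, h, zero_mul, mul_zero]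
    · refine val_zero _ fun j s s' => ?_
      have ea := hcomb _ (hq0 j s)
      have eb := hcomb _ (hq0 j s')
      apply mul_left_cancel₀ ha
      linear_combination D₁ (ω.fn j s' z) * ea - D₁ (ω.fn j s z) * eb
  · push Not at hw
    exact val_over hω k₁ fun i => VCI.DomAux.kills_clo h₁ _ (hw i)

/-- Points which are not generic are not seen by two-forms. -/
theorem tau_of_not_gen (ω : HForm F κ) (hK : κ ≤ clo K) {D₁ D₂ : Derivation ℤ ℂ ℂ}
    (h₁ : Kills K D₁) (h₂ : Kills K D₂) {q : PN n} (hq : q ∈ ciS F) (hq' : q ∉ Gen K F) :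
    tau ω D₁ D₂ q = 0 := by
  obtain ⟨z, hz, rfl, h⟩ := not_pair hq hq'
  rw [tau_mk]
  exact val_of_not_gen (ω.cf 0) hK h₁ h₂ h

/-- All local expressions have the same values. -/
theorem val_loc (ω : HForm F κ) (hF : ∀ i, (F i).IsHomogeneous (d i)) {D₁ D₂ : Derivation ℤ ℂ ℂ}
    (h₁ : Kills κ D₁) (h₂ : Kills κ D₂) {z : Fin n → ℂ} (hz : z ∈ cone F) (t : Fin (ω.T + 1)) :
    (ω.loc t).val D₁ D₂ z = (ω.loc 0).val D₁ D₂ z := by
  have hzF : (Projectivization.mk ℂ z hz.1 : PN n) ∈ ciS F := (VCI.mem_surf_mk hF hz.1).2 hz.2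
  rw [← val_rep _ _ _ hz.1, ← val_rep _ _ _ hz.1]
  by_cases h : (Projectivization.mk ℂ z hz.1 : PN n) ∈ Gen κ F
  · exact ω.eq _ h t D₁ D₂ h₁ h₂
  · obtain ⟨z', hz', h3, h4⟩ := not_pair hzF h
    rw [h3, val_rep _ _ _ hz', val_rep _ _ _ hz', val_of_not_gen (ω.cf t) (VGS.le_clo _) h₁ h₂ h4,
      val_of_not_gen (ω.cf 0) (VGS.le_clo _) h₁ h₂ h4]

/-! ### transport by automorphisms -/

theorem conjD_kills' {σ : ℂ ≃+* ℂ} (hσ : ∀ x ∈ κ, σ.symm x ∈ κ) {D : Derivation ℤ ℂ ℂ}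
    (hD : Kills κ D) : Kills κ (conjD σ D) := by
  intro x hx
  rw [conjD_apply, hD _ (hσ x hx), map_zero]

theorem conjD_symm_conjD (σ : ℂ ≃+* ℂ) (D : Derivation ℤ ℂ ℂ) :
    conjD σ (conjD σ.symm D) = D := VCI.tz_conjD_conjD σ D

theorem fix_clo {σ : ℂ ≃+* ℂ} (hσ : σ ∈ VGS.Fix K) : ∀ x ∈ clo K, σ x ∈ clo K :=
  fun _ hx => (fix_mem_clo hσ).2 hx

theorem fix_clo_symm {σ : ℂ ≃+* ℂ} (hσ : σ ∈ VGS.Fix K) : ∀ x ∈ clo K, σ.symm x ∈ clo K :=
  fun _ hx => (fix_mem_clo ((VGS.Fix K).inv_mem hσ)).2 hx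

/-- the conjugate two-form -/
noncomputable def HForm.cj (ω : HForm F (clo K)) (hF : ∀ i, (F i).IsHomogeneous (d i))
    (hFK : ∀ i, Coef K (F i)) {σ : ℂ ≃+* ℂ} (hσ : σ ∈ VGS.Fix K) : HForm F (clo K) where
  T := ω.T
  loc := fun t => (ω.loc t).cj σ
  coefA := fun t j s => coef_cj (fix_clo hσ) (ω.coefA t j s)
  coefB := fun t j s => coef_cj (fix_clo hσ) (ω.coefB t j s)
  cov := fun z hz => by
    have h1 : z = fun i => σ (σ.symm (z i)) := funext fun i => (σ.apply_symm_apply _).symm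
    have h2 : (fun i => σ.symm (z i)) ≠ 0 := map_ne_zero' σ.symm hz.1
    obtain ⟨t, ht⟩ := ω.cov (fun i => σ.symm (z i)) ⟨h2, fun i => by
      have h3 := VGS.aeval_fix (hFK i) ((VGS.Fix K).inv_mem hσ) z
      change aeval (fun i => σ.symm (z i)) (F i) = σ.symm (aeval z (F i)) at h3
      rw [h3, hz.2 i, map_zero]⟩
    refine ⟨t, fun j s => ?_⟩
    rw [h1]
    exact (den_cj σ (ω.loc t) j s _).2 (ht j s)
  eq := fun p hp t D₁ D₂ h₁ h₂ => by
    obtain ⟨z, hz, i, hi, rfl⟩ := exists_nrm p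
    have h1 : z = fun i => σ (σ.symm (z i)) := funext fun i => (σ.apply_symm_apply _).symm
    have h2 : (fun i => σ.symm (z i)) ≠ 0 := map_ne_zero' σ.symm hz
    have h3 : (fun i => σ.symm (z i)) ∈ cone F := ⟨h2, fun i => by
      have h3 := VGS.aeval_fix (hFK i) ((VGS.Fix K).inv_mem hσ) z
      change aeval (fun i => σ.symm (z i)) (F i) = σ.symm (aeval z (F i)) at h3
      rw [h3, (VCI.mem_surf_mk hF hz).1 hp.1 i, map_zero]⟩
    have k₁ : Kills (clo K) (conjD σ.symm D₁) := conjD_kills' (σ := σ.symm) (fix_clo hσ) h₁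
    have k₂ : Kills (clo K) (conjD σ.symm D₂) := conjD_kills' (σ := σ.symm) (fix_clo hσ) h₂
    have h4 := congrArg σ (val_loc ω hF k₁ k₂ h3 t)
    rw [← val_cj, ← val_cj, conjD_symm_conjD, conjD_symm_conjD, ← h1] at h4
    rw [val_rep _ _ _ hz, val_rep _ _ _ hz]
    exact h4

/-- transport by an automorphism over the field of definition of `F` -/
theorem tau_cj_act (ω : HForm F (clo K)) (hF : ∀ i, (F i).IsHomogeneous (d i))
    (hFK : ∀ i, Coef K (F i)) {σ : ℂ ≃+* ℂ} (hσ : σ ∈ VGS.Fix K) (D₁ D₂ : Derivation ℤ ℂ ℂ)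
    (p : PN n) : tau (ω.cj hF hFK hσ) (conjD σ D₁) (conjD σ D₂) (act σ p) = σ (tau ω D₁ D₂ p) := by
  obtain ⟨z, hz, i, hi, rfl⟩ := exists_nrm p
  rw [act_mk σ z hz (map_ne_zero' σ hz), tau_mk, tau_mk, ← val_cj]
  rfl

end Pool.Agent.VRC
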