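import Pool.Agent.VRC.Base
import Pool.Agent.VCI.Conj

/-! Surfaces in rationally connected varieties: coordinates of two generic points. -/

set_option autoImplicit false

open scoped LinearAlgebra.Projectivization
open MvPolynomial

namespace Pool.Agent.VRC

open Pool.Agent.VGS (Fl adj clo Coef Kills IsPl Sp le_adj le_clo subset_adj adj_le clo_mono ai_mono
  ai_iff ai_sum mem_clo mem_clo_adj adj_adj ai_clo clo_clo aeval_mem exists_algInd)
open Pool.Agent.VCI

variable {m n r : ℕ}

/-- a maximal independent family of coordinates -/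
theorem lin_basis (L : Fl) (z : Fin n → ℂ) : ∃ (e : ℕ) (f : Fin e → Fin n),
    (AlgebraicIndependent L fun b => z (f b)) ∧
      ∀ j, z j ∈ clo (adj L (Set.range fun b => z (f b))) := by
  classical
  let P : ℕ → Prop := fun e => ∃ f : Fin e → Fin n, AlgebraicIndependent L fun b => z (f b)
  have h0 : P 0 := ⟨Fin.elim0, by
    rw [algebraicIndependent_empty_type_iff]
    exact (algebraMap L ℂ).injective⟩
  have hb : ∀ e, P e → e ≤ n := by
    rintro e ⟨f, hf⟩
    have h1 : Function.Injective f := fun a b hab =>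
      hf.injective (by rw [hab])
    simpa using Fintype.card_le_of_injective f h1
  obtain ⟨e, he⟩ : ∃ e, e = Nat.findGreatest P n := ⟨_, rfl⟩
  obtain ⟨f, hf⟩ : P e := he ▸ Nat.findGreatest_spec (m := 0) (Nat.zero_le _) h0
  refine ⟨e, f, hf, fun j => ?_⟩
  by_contra hj
  have h1 := ai_add hf hj
  let g : Fin (e + 1) → Fin e ⊕ Unit := fun b => if h : (b : ℕ) < e then Sum.inl ⟨b, h⟩ else
    Sum.inr ()
  have hg : Function.Injective g := by
    intro a b hab
    have ha := a.2
    have hb := b.2
    simp only [g] at hab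
    split_ifs at hab with h2 h3 h3
    · exact Fin.ext (by simpa using hab)
    · exact Fin.ext (by omega)
  have h2 : P (e + 1) := by
    refine ⟨fun b => Sum.elim f (fun _ => j) (g b), ?_⟩
    have h3 := h1.comp g hg
    have h4 : (Sum.elim (fun b => z (f b)) (fun _ : Unit => z j)) ∘ g =
        fun b => z (Sum.elim f (fun _ => j) (g b)) := by
      funext b
      rw [Function.comp_apply]
      rcases g b with x | x <;> rfl
    rw [← h4]
    exact h3
  have h5 := Nat.le_findGreatest (hb _ h2) h2
  omega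

theorem TrLe.le_of_ai {L : Fl} {e : ℕ} {z : Fin n → ℂ} (h : TrLe L e z) {e' : ℕ}
    {f : Fin e' → Fin n} (hf : AlgebraicIndependent L fun b => z (f b)) : e' ≤ e := by
  by_contra hlt
  have hlt' : e + 1 ≤ e' := by omega
  exact h (fun b => f (Fin.castLE hlt' b)) (hf.comp _ (Fin.castLE_injective _))

/-- an independent family can be moved to a family which is independent over a bigger field -/
theorem exists_move_fam (L : Fl) [Countable L] {ι : Type} [Finite ι] {x : ι → ℂ}
    (hx : AlgebraicIndependent L x) (D : Fl) [Countable D] (hD : clo L ≤ D) :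
    ∃ τ ∈ VGS.Fix (clo L), AlgebraicIndependent D fun b => τ (x b) := by
  let ε := Finite.equivFin ι
  obtain ⟨y, hy⟩ := exists_algInd D (Nat.card ι)
  obtain ⟨τ, hτ, h⟩ := cj_fix_ai (clo L) (x := fun b => x (ε.symm b))
    (ai_clo.2 (hx.comp _ ε.symm.injective)) (ai_mono hD hy)
  refine ⟨τ, hτ, ?_⟩
  have h1 : (fun b => τ (x b)) = y ∘ ε := by
    funext b
    rw [Function.comp_apply, ← h, Equiv.symm_apply_apply]
  rw [h1]
  exact hy.comp _ ε.injective

/-- A system of equations over an algebraically closed field with a solution has a solution over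
the field. -/
theorem exists_zero_clo {C : Fl} (hC : clo C = C) {ι κ : Type} [Finite ι]
    (P : κ → MvPolynomial ι ℂ) (hP : ∀ a, Coef C (P a)) {x : ι → ℂ} (hx : ∀ a, aeval x (P a) = 0) :
    ∃ y : ι → ℂ, (∀ i, y i ∈ C) ∧ ∀ a, aeval y (P a) = 0 := by
  classical
  have hCl : IsAlgClosed C := hC ▸ VGS.isAlgClosed_clo C
  choose Q hQ using fun a => VGS.coef_iff.1 (hP a)
  by_contra hcon
  push Not at hcon
  have hz : zeroLocus C (Ideal.span (Set.range Q)) = ∅ := by
    rw [Set.eq_empty_iff_forall_notMem]
    intro y hy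
    rw [zeroLocus_span] at hy
    obtain ⟨a, ha⟩ := hcon (fun i => (y i : ℂ)) fun i => (y i).2
    apply ha
    have h1 : aeval y (Q a) = 0 := hy (Q a) ⟨a, rfl⟩
    rw [← hQ a, aeval_map_algebraMap]
    have h2 : (aeval (fun i => ((y i : C) : ℂ)) (Q a) : ℂ) = ((aeval y (Q a) : C) : ℂ) := by
      have h3 := MvPolynomial.aeval_algebraMap_apply ℂ y (Q a)
      exact h3
    rw [h2, h1]
    rfl
  have h1 := vanishingIdeal_zeroLocus_eq_radical (K := C) (Ideal.span (Set.range Q))
  have h2 : (1 : MvPolynomial ι C) ∈ Ideal.span (Set.range Q) := by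
    rw [hz, vanishingIdeal_empty] at h1
    rw [← Ideal.eq_top_iff_one, ← Ideal.radical_eq_top, ← h1]
  have h3 : Ideal.span (Set.range Q) ≤ RingHom.ker (aeval x : MvPolynomial ι C →ₐ[C] ℂ) := by
    rw [Ideal.span_le]
    rintro _ ⟨a, rfl⟩
    rw [SetLike.mem_coe, RingHom.mem_ker]
    have h4 := hx a
    rw [← hQ a, aeval_map_algebraMap] at h4
    exact h4
  have h4 := h3 h2
  rw [RingHom.mem_ker, map_one] at h4
  exact one_ne_zero h4

end Pool.Agent.VRC
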