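import Pool.Agent.VRC.LinInd
import Pool.Agent.VRC.Irr

/-! Surfaces in rationally connected varieties: the maps `g i` separate a generic point from the
other points. -/

set_option autoImplicit false

open scoped LinearAlgebra.Projectivization
open MvPolynomial

namespace Pool.Agent.VRC

open Pool.Agent.VGS (Fl adj clo Coef Kills IsPl Sp le_adj le_clo subset_adj adj_le clo_mono ai_mono
  ai_iff ai_sum ai_pair mem_clo mem_clo_adj adj_adj ai_clo aeval_fix Fix_mono)
open Pool.Agent.VCI

variable {s c r : ℕ} {M : Fin c → ℕ} {k K : Fl} {h : Fin s → MvPolynomial (Fin (r + 3)) ℂ}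
  {g : (i : Fin c) → Fin (M i) → MvPolynomial (Fin (r + 3)) ℂ} {a : (i : Fin c) → Fin (M i) → ℂ}
  {d : Fin (s + c) → ℕ}

theorem lin_eqs_left (j : Fin s) : eqs h g a (Fin.castAdd c j) = h j := Fin.append_left _ _ _

theorem lin_eqs_right (i : Fin c) : eqs h g a (Fin.natAdd s i) = ∑ l, C (a i l) * g i l :=
  Fin.append_right _ _ _

theorem lin_coefh (hbase : base h g ≤ k) (j : Fin s) : Coef k (h j) := fun m =>
  hbase (subset_adj _ _ (Or.inl ⟨(j, m), rfl⟩))

theorem lin_coefg (hbase : base h g ≤ k) (i : Fin c) (l : Fin (M i)) : Coef k (g i l) := fun m =>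
  hbase (subset_adj _ _ (Or.inr ⟨(⟨i, l⟩, m), rfl⟩))

/-- the tangent space of the cone `h = 0` at a point of `X` has dimension at most `c + 3` -/
private theorem ls_tan (hX : Sfc0 (eqs h g a) d K) {z : Fin (r + 3) → ℂ}
    (hz : z ∈ cone (eqs h g a)) (v : Fin (c + 4) → Fin (r + 3) → ℂ)
    (hv : ∀ b j, dFc (h j) z (v b) = 0) : ¬ LinearIndependent ℂ v := by
  classical
  intro hli
  let T : (Fin (c + 4) → ℂ) →ₗ[ℂ] (Fin c → ℂ) :=
    { toFun := fun γ i => ∑ b, γ b * dFc (eqs h g a (Fin.natAdd s i)) z (v b)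
      map_add' := fun x y => by
        funext i
        change ∑ b, (x b + y b) * _ = ∑ b, x b * _ + ∑ b, y b * _
        rw [← Finset.sum_add_distrib]
        exact Finset.sum_congr rfl fun b _ => add_mul _ _ _
      map_smul' := fun t x => by
        funext i
        change ∑ b, (t * x b) * _ = t * ∑ b, x b * _
        rw [Finset.mul_sum]
        exact Finset.sum_congr rfl fun b _ => mul_assoc _ _ _ }
  have hk : 4 ≤ Module.finrank ℂ (LinearMap.ker T) := by
    have h1 := LinearMap.finrank_range_add_finrank_ker T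
    have h2 : Module.finrank ℂ (LinearMap.range T) ≤ c := by
      refine (Submodule.finrank_le _).trans ?_
      rw [Module.finrank_fintype_fun_eq_card, Fintype.card_fin]
    rw [Module.finrank_fintype_fun_eq_card, Fintype.card_fin] at h1
    omega
  obtain ⟨γ, hγ⟩ := exists_linearIndependent_of_le_finrank (R := ℂ) hk
  have hinj : Function.Injective (Fintype.linearCombination ℂ v) :=
    linearIndependent_iff_injective_fintypeLinearCombination.1 hli
  have hu : LinearIndependent ℂ fun b : Fin 4 =>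
      Fintype.linearCombination ℂ v (γ b : Fin (c + 4) → ℂ) := by
    have h1 : LinearIndependent ℂ fun b : Fin 4 => (γ b : Fin (c + 4) → ℂ) :=
      hγ.map' (LinearMap.ker T).subtype (Submodule.ker_subtype _)
    exact h1.map' _ (LinearMap.ker_eq_bot.2 hinj)
  refine hX.tan_dep hz (v := fun b : Fin 4 =>
      Fintype.linearCombination ℂ v (γ b : Fin (c + 4) → ℂ)) ?_ hu
  intro b i
  have hsum : dFc (eqs h g a i) z (Fintype.linearCombination ℂ v (γ b : Fin (c + 4) → ℂ)) =
      ∑ b', (γ b : Fin (c + 4) → ℂ) b' * dFc (eqs h g a i) z (v b') := by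
    rw [Fintype.linearCombination_apply]
    have h1 : ∀ S : Finset (Fin (c + 4)),
        dFc (eqs h g a i) z (∑ b' ∈ S, (γ b : Fin (c + 4) → ℂ) b' • v b') =
          ∑ b' ∈ S, (γ b : Fin (c + 4) → ℂ) b' * dFc (eqs h g a i) z (v b') := by
      intro S
      induction S using Finset.induction_on with
      | empty =>
        rw [Finset.sum_empty, Finset.sum_empty]
        unfold dFc
        exact Finset.sum_eq_zero fun l _ => by rw [Pi.zero_apply, zero_mul]
      | insert x S hx ih =>
        rw [Finset.sum_insert hx, Finset.sum_insert hx, dFc_vadd, dFc_vsmul, ih]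
    exact h1 Finset.univ
  rw [hsum]
  induction i using Fin.addCases with
  | left j =>
    refine Finset.sum_eq_zero fun b' _ => ?_
    rw [lin_eqs_left, hv, mul_zero]
  | right j =>
    have h3 : T (γ b : Fin (c + 4) → ℂ) = 0 := (γ b).2
    exact congrFun h3 j

/-- points of the cone of a variety over `k` are moved to such points by automorphisms
over `k` -/
theorem cone_fix {m n : ℕ} {F : Fin m → MvPolynomial (Fin n) ℂ} (hF : ∀ j, Coef k (F j))
    {σ : ℂ ≃+* ℂ} (hσ : σ ∈ VGS.Fix k) {z : Fin n → ℂ} (hz : z ∈ cone F) :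
    (fun j => σ (z j)) ∈ cone F := by
  refine ⟨fun h0 => hz.1 ?_, fun i => ?_⟩
  · funext j
    have h1 : σ (z j) = 0 := congrFun h0 j
    exact (map_eq_zero_iff σ σ.injective).1 h1
  · rw [aeval_fix (hF i) hσ, hz.2 i, map_zero]

/-- **Relations of the generic points**: if `c + 2` coordinates of `σ z` are independent over
`L ≥ k`, all forms over `clo L` which are zero at `σ z` are zero on the variety `h = 0`. -/
theorem lin_gen (hirr : IsIrr h) (hX : Sfc0 (eqs h g a) d K) (hbase : base h g ≤ k)
    {z : Fin (r + 3) → ℂ} (hz : z ∈ cone (eqs h g a)) {i₀ : Fin (r + 3)} (hzi : z i₀ = 1)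
    {σ : ℂ ≃+* ℂ} (hσ : σ ∈ VGS.Fix k) (L : Fl) [Countable L] (hkL : k ≤ L)
    {f : Fin (c + 2) → Fin (r + 3)} (hf : AlgebraicIndependent L fun b => σ (z (f b)))
    {P : MvPolynomial (Fin (r + 3)) ℂ} {e : ℕ} (hP : P.IsHomogeneous e) (hPL : Coef (clo L) P)
    (hPz : aeval (fun j => σ (z j)) P = 0) : ∀ y ∈ cone h, aeval y P = 0 := by
  have hk := lin_coefh (k := k) hbase
  have hzh : z ∈ cone h := ⟨hz.1, fun j => by
    have h1 := hz.2 (Fin.castAdd c j)
    rwa [lin_eqs_left] at h1⟩
  refine gen_rel hirr (fun j => ⟨d (Fin.castAdd c j), ?_⟩) L (fun j => (hk j).mono hkL)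
    (cone_fix hk hσ hzh) (i := i₀) (by rw [hzi, map_one]) f hf ?_ hP hPL hPz
  · have h1 := hX.hom (Fin.castAdd c j)
    rwa [lin_eqs_left] at h1
  · intro v hv hli
    have hσ' : σ.symm ∈ VGS.Fix k := (VGS.Fix k).inv_mem hσ
    refine ls_tan hX hz (fun b j => σ.symm (v b j)) ?_ ?_
    · intro b j
      have h1 := hv b j
      unfold dFc at h1 ⊢
      have h2 := congrArg σ.symm h1
      rw [map_zero, map_sum] at h2
      rw [← h2]
      refine Finset.sum_congr rfl fun l _ => ?_
      have hd : Coef k (pderiv l (h j)) := mu_coef_pderiv (hk j) l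
      rw [map_mul, aeval_fix hd hσ, σ.symm_apply_apply]
    · rw [Fintype.linearIndependent_iff] at hli ⊢
      intro γ hγ b
      have h1 : ∑ b, σ (γ b) • v b = 0 := by
        funext j
        have h2 := congrArg σ (congrFun hγ j)
        rw [Finset.sum_apply, map_sum, Pi.zero_apply, map_zero] at h2
        rw [Finset.sum_apply, Pi.zero_apply, ← h2]
        refine Finset.sum_congr rfl fun b _ => ?_
        rw [Pi.smul_apply, Pi.smul_apply, smul_eq_mul, smul_eq_mul, map_mul, σ.apply_symm_apply]
      exact (map_eq_zero_iff σ σ.injective).1 (hli _ h1 b)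

/-- a generic point of `X` can be moved to a point which is generic on `h = 0` over a bigger
field -/
theorem exists_move_k [Countable k] {z : Fin (r + 3) → ℂ} {f : Fin (c + 2) → Fin (r + 3)}
    (hf : AlgebraicIndependent k fun b => z (f b)) (L : Fl) [Countable L] (hkL : k ≤ L) :
    ∃ σ ∈ VGS.Fix (clo k), AlgebraicIndependent L fun b => σ (z (f b)) := by
  obtain ⟨x, hx⟩ := VGS.exists_algInd (clo L) (c + 2)
  have hc : Countable (clo k) := inferInstance
  obtain ⟨τ, hτ, h1⟩ := cj_fix_ai (clo k) (ai_clo.2 hf) (ai_mono (clo_mono hkL) hx)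
  refine ⟨τ, hτ, ?_⟩
  have h2 : (fun b => τ (z (f b))) = x := funext h1
  rw [h2]
  exact ai_mono (le_clo L) hx

theorem lin_aeval_smul {n : ℕ} {G : MvPolynomial (Fin n) ℂ} {e : ℕ} (hG : G.IsHomogeneous e) (t : ℂ)
    (z : Fin n → ℂ) : aeval (fun j => t * z j) G = t ^ e * aeval z G := by
  rw [aeval_def, aeval_def, eval₂_eq', eval₂_eq', Finset.mul_sum]
  refine Finset.sum_congr rfl fun m hm => ?_
  have hn : e = ∑ i, m i := by
    rw [hG.degree_eq_sum_deg_support hm]
    refine Finset.sum_subset (Finset.subset_univ _) fun i _ hi => ?_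
    simpa using hi
  simp only [mul_pow, Finset.prod_mul_distrib]
  rw [Finset.prod_pow_eq_pow_sum, ← hn]
  ring

/-- the polynomial `t ↦ P (t z)` is not zero if a homogeneous component of `P` is not zero
at `z` -/
theorem exists_smul_ne {n : ℕ} {P : MvPolynomial (Fin n) ℂ} {z : Fin n → ℂ} {e : ℕ}
    (h0 : aeval z (homogeneousComponent e P) ≠ 0) :
    ∃ t : ℂ, t ≠ 0 ∧ aeval (fun j => t * z j) P ≠ 0 := by
  classical
  set p : Polynomial ℂ := ∑ e' ∈ Finset.range (P.totalDegree + 1),
    Polynomial.C (aeval z (homogeneousComponent e' P)) * Polynomial.X ^ e' with hp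
  have hpe : ∀ t : ℂ, p.eval t = aeval (fun j => t * z j) P := by
    intro t
    conv_rhs => rw [← sum_homogeneousComponent P, map_sum]
    rw [hp, Polynomial.eval_finsetSum]
    refine Finset.sum_congr rfl fun e' _ => ?_
    rw [Polynomial.eval_mul, Polynomial.eval_C, Polynomial.eval_pow, Polynomial.eval_X]
    rw [lin_aeval_smul (homogeneousComponent_isHomogeneous e' P)]
    ring
  have hp0 : p ≠ 0 := by
    intro h1
    have h2 : p.coeff e = aeval z (homogeneousComponent e P) := by
      rw [hp, Polynomial.finsetSum_coeff]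
      by_cases he : e ∈ Finset.range (P.totalDegree + 1)
      · rw [Finset.sum_eq_single e]
        · rw [Polynomial.coeff_C_mul, Polynomial.coeff_X_pow, if_pos rfl, mul_one]
        · intro b _ hb
          rw [Polynomial.coeff_C_mul, Polynomial.coeff_X_pow, if_neg (Ne.symm hb), mul_zero]
        · intro hne
          exact absurd he hne
      · exfalso
        apply h0
        rw [Finset.mem_range, not_lt] at he
        rw [homogeneousComponent_eq_zero _ _ (by omega), map_zero]
    rw [h1, Polynomial.coeff_zero] at h2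
    exact h0 h2.symm
  have hfin : (p * Polynomial.X) ≠ 0 := mul_ne_zero hp0 Polynomial.X_ne_zero
  obtain ⟨t, ht⟩ : ∃ t : ℂ, (p * Polynomial.X).eval t ≠ 0 := by
    by_contra hcon
    push Not at hcon
    exact hfin (Polynomial.funext fun t => by rw [hcon t, Polynomial.eval_zero])
  rw [Polynomial.eval_mul, Polynomial.eval_X] at ht
  exact ⟨t, right_ne_zero_of_mul ht, by rw [← hpe]; exact left_ne_zero_of_mul ht⟩

/-- **Separation**: the map `g i` separates a generic point of `X` from the other points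
of `X`. -/
theorem lin_sep (hirr : IsIrr h) (hsep : ∀ i, Separates h (g i))
    (homg : ∀ i l, (g i l).IsHomogeneous (d (Fin.natAdd s i)))
    (hbpf : ∀ z ∈ cone (eqs h g a), ∀ i, ∃ l, aeval z (g i l) ≠ 0) (ck : Countable k)
    (hbase : base h g ≤ k)
    (hai : AlgebraicIndependent k fun il : (i : Fin c) × Fin (M i) => a il.1 il.2)
    (hK : K = adj k (Set.range fun il : (i : Fin c) × Fin (M i) => a il.1 il.2))
    (hX : Sfc0 (eqs h g a) d K) :
    ∀ p ∈ Gen K (eqs h g a), ∀ i, ∀ y ∈ cone (eqs h g a),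
      (∀ l l', aeval y (g i l) * aeval p.rep (g i l') = aeval y (g i l') * aeval p.rep (g i l)) →
        ∀ j j', y j * p.rep j' = y j' * p.rep j := by
  classical
  intro p hp i y hy hyp j j'
  obtain ⟨z, hz, i₀, -, -, hzi, rfl, hzF, -⟩ := gen_nrm hX.hom hp
  have hk := lin_coefh (k := k) hbase
  have hg := lin_coefg (k := k) hbase
  have hzX : z ∈ cone (eqs h g a) := ⟨hz, hzF⟩
  obtain ⟨f, hf⟩ := lin_ind hX hbase hbpf hai hK hz hzi hp
  obtain ⟨B, ⟨z₀, hz₀, hB0⟩, hB⟩ := hsep i
  -- a homogeneous component of `B` which is not zero on the variety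
  obtain ⟨e, he⟩ : ∃ e, aeval z₀ (homogeneousComponent e B) ≠ 0 := by
    by_contra hcon
    push Not at hcon
    apply hB0
    rw [← sum_homogeneousComponent B, map_sum]
    exact Finset.sum_eq_zero fun e _ => hcon e
  set L : Fl := adj k (Set.range fun m => coeff m B) with hL
  have hcr : Countable (Set.range fun m : Fin (r + 3) →₀ ℕ => coeff m B) :=
    (Set.countable_range _).to_subtype
  have hcL : Countable L := VGS.countable_adj k _
  have hkL : k ≤ L := le_adj _ _
  obtain ⟨σ, hσ, hai'⟩ := exists_move_k hf L hkL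
  have hσk : σ ∈ VGS.Fix k := Fix_mono (le_clo k) hσ
  have hBz : aeval (fun j => σ (z j)) (homogeneousComponent e B) ≠ 0 := by
    intro h0
    apply he
    refine lin_gen hirr hX hbase hzX hzi hσk L hkL hai' (homogeneousComponent_isHomogeneous e B)
      (fun m => ?_) h0 z₀ hz₀
    rw [coeff_homogeneousComponent]
    split_ifs
    · exact le_clo _ (subset_adj _ _ ⟨m, rfl⟩)
    · exact zero_mem _
  obtain ⟨t, ht, hBt⟩ := exists_smul_ne hBz
  have hzh : z ∈ cone h := ⟨hz, fun j => by
    have h1 := hzX.2 (Fin.castAdd c j)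
    rwa [lin_eqs_left] at h1⟩
  have hyh : y ∈ cone h := ⟨hy.1, fun j => by
    have h1 := hy.2 (Fin.castAdd c j)
    rwa [lin_eqs_left] at h1⟩
  have hσz := cone_fix hk hσk hzh
  have hσy := cone_fix hk hσk hyh
  obtain ⟨u, hu⟩ := Projectivization.exists_smul_eq_mk_rep ℂ z hz
  have hrep : ∀ j, (Projectivization.mk ℂ z hz : PN (r + 3)).rep j = (u : ℂ) * z j := by
    intro j
    rw [← hu]
    rfl
  have hu0 : (u : ℂ) ≠ 0 := u.ne_zero
  have hrg : ∀ l, aeval (Projectivization.mk ℂ z hz : PN (r + 3)).rep (g i l) =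
      (u : ℂ) ^ d (Fin.natAdd s i) * aeval z (g i l) := by
    intro l
    rw [← lin_aeval_smul (homg i l)]
    congr 1
    exact congrArg aeval (funext hrep)
  have hyz : ∀ l l', aeval y (g i l) * aeval z (g i l') = aeval y (g i l') * aeval z (g i l) := by
    intro l l'
    have h1 := hyp l l'
    rw [hrg, hrg] at h1
    apply mul_left_cancel₀ (pow_ne_zero (d (Fin.natAdd s i)) hu0)
    linear_combination h1
  have hmain := hB (fun j => t * σ (z j)) ⟨fun h0 => hσz.1 ?_, fun j => ?_⟩ hBt
    (fun j => σ (y j)) hσy ?_ ?_ j j'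
  · have h1 : t * σ (y j * z j') = t * σ (y j' * z j) := by
      rw [map_mul, map_mul]
      linear_combination hmain
    have h2 := σ.injective (mul_left_cancel₀ ht h1)
    rw [hrep, hrep]
    linear_combination (u : ℂ) * h2
  · funext j
    have h1 : t * σ (z j) = 0 := congrFun h0 j
    exact (mul_eq_zero.1 h1).resolve_left ht
  · have h1 := hX.hom (Fin.castAdd c j)
    rw [lin_eqs_left] at h1
    rw [lin_aeval_smul h1, hσz.2 j, mul_zero]
  · obtain ⟨l, hl⟩ := hbpf y hy i
    refine ⟨l, ?_⟩
    rw [aeval_fix (hg i l) hσk]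
    exact (map_ne_zero_iff σ σ.injective).2 hl
  · intro l l'
    rw [lin_aeval_smul (homg i l), lin_aeval_smul (homg i l'), aeval_fix (hg i l) hσk,
      aeval_fix (hg i l') hσk, aeval_fix (hg i l) hσk, aeval_fix (hg i l') hσk]
    have h1 := congrArg σ (hyz l l')
    rw [map_mul, map_mul] at h1
    linear_combination t ^ d (Fin.natAdd s i) * h1

end Pool.Agent.VRC
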