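import Pool.Agent.VRC.FTZ

/-! Two-forms on a smooth surface: their values on derivations of `ℂ`. -/

set_option autoImplicit false

open scoped LinearAlgebra.Projectivization
open MvPolynomial

namespace Pool.Agent.VRC

open Pool.Agent.VGS (Fl adj clo Coef Kills conjD)
open Pool.Agent.VCI (PN Cy ciS Gen act actC)

variable {m n : ℕ} {F : Fin m → MvPolynomial (Fin n) ℂ} {d : Fin m → ℕ} {κ : Fl}

/-- the value does not depend on the representative -/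
theorem RForm.val_smul {Ω : Type} [Field Ω] [Algebra ℂ Ω] {R : Type} [CommRing R] [Algebra R Ω]
    (ω : RForm n) (D₁ D₂ : Derivation R Ω Ω) (x : Fin n → Ω) {c : Ω} (hc : c ≠ 0) :
    ω.val D₁ D₂ (fun i => c * x i) = ω.val D₁ D₂ x :=
  VRC.val_smul ω hc D₁ D₂ x

/-- a form over `κ` is zero at the points which are not generic over `L ≥ κ`, for derivations
over `L` -/
theorem RForm.val_not_gen (_hF : ∀ i, (F i).IsHomogeneous (d i)) {L : Fl} (ω : RForm n)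
    (hA : ∀ j s, Coef L (ω.A j s)) (hB : ∀ j s, Coef L (ω.B j s))
    {D₁ D₂ : Derivation ℤ ℂ ℂ} (h₁ : Kills L D₁) (h₂ : Kills L D₂) {q : PN n} (hq : q ∈ ciS F)
    (hq' : q ∉ Gen L F) : ω.val D₁ D₂ q.rep = 0 := by
  obtain ⟨z, hz, rfl, h⟩ := not_pair hq hq'
  rw [val_rep _ _ _ hz]
  exact val_of_not_gen (κ := L) (fun j s => ⟨hA j s, hB j s⟩) (VGS.le_clo _) h₁ h₂ h

theorem tau_not_gen (_hF : ∀ i, (F i).IsHomogeneous (d i)) {L : Fl} (hL : κ ≤ clo L)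
    (ω : HForm F κ) {D₁ D₂ : Derivation ℤ ℂ ℂ} (h₁ : Kills L D₁) (h₂ : Kills L D₂) {q : PN n}
    (hq : q ∈ ciS F) (hq' : q ∉ Gen L F) : tau ω D₁ D₂ q = 0 :=
  tau_of_not_gen ω hL h₁ h₂ hq hq'

/-- all local expressions have the same value, at all points of the surface -/
theorem tau_loc (hF : ∀ i, (F i).IsHomogeneous (d i)) (ω : HForm F κ)
    {D₁ D₂ : Derivation ℤ ℂ ℂ} (h₁ : Kills κ D₁) (h₂ : Kills κ D₂) (t : Fin (ω.T + 1))
    {z : Fin n → ℂ} (hz : z ∈ cone F) :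
    (ω.loc t).val D₁ D₂ z = tau ω D₁ D₂ (Projectivization.mk ℂ z hz.1) := by
  rw [tau_mk, val_loc ω hF h₁ h₂ hz t]

/-- transport by an automorphism over the field of definition of the surface -/
theorem exists_tau_act (hF : ∀ i, (F i).IsHomogeneous (d i)) {K : Fl} (hFK : ∀ i, Coef K (F i))
    {σ : ℂ ≃+* ℂ} (hσ : σ ∈ VGS.Fix K) (ω : HForm F (clo K)) :
    ∃ ω' : HForm F (clo K), ∀ (D₁ D₂ : Derivation ℤ ℂ ℂ) (p : PN n),
      tau ω' (conjD σ D₁) (conjD σ D₂) (act σ p) = σ (tau ω D₁ D₂ p) :=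
  ⟨ω.cj hF hFK hσ, tau_cj_act ω hF hFK hσ⟩

/-- the same for an automorphism over the field of definition of the form -/
theorem tau_act (_hF : ∀ i, (F i).IsHomogeneous (d i)) (ω : HForm F κ) {σ : ℂ ≃+* ℂ}
    (hσ : σ ∈ VGS.Fix κ) (D₁ D₂ : Derivation ℤ ℂ ℂ) (p : PN n) :
    tau ω (conjD σ D₁) (conjD σ D₂) (act σ p) = σ (tau ω D₁ D₂ p) := by
  obtain ⟨z, hz, i, hi, rfl⟩ := VCI.exists_nrm p
  rw [VCI.act_mk σ z hz (VCI.map_ne_zero' σ hz), tau_mk, tau_mk, ← val_cj]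
  have h : ∀ P : MvPolynomial (Fin n) ℂ, Coef κ P → map (σ : ℂ →+* ℂ) P = P := by
    intro P hP
    ext u
    rw [coeff_map]
    exact hσ _ (hP u)
  have h1 : ∀ j s (z : Fin n → ℂ), (ω.loc 0).fn j s z = ((ω.loc 0).cj σ).fn j s z := by
    intro j s z
    unfold RForm.fn RForm.cj
    simp only
    rw [h _ (ω.coefA 0 j s), h _ (ω.coefB 0 j s)]
  unfold RForm.val
  refine Finset.sum_congr rfl fun j _ => ?_
  rw [h1, h1, h1]

end Pool.Agent.VRC
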