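import Pool.Agent.VRC.Eff
import Pool.Agent.VRC.Tau
import Pool.Agent.VCI.EffTau

/-! The action of correspondences on two-forms. -/

set_option autoImplicit false

open scoped LinearAlgebra.Projectivization
open MvPolynomial

namespace Pool.Agent.VRC

open Pool.Agent.Chow0 (IsChowForm)
open Pool.Agent.VGS (Fl adj clo Coef Kills le_clo clo_clo ai_clo subset_adj)
open Pool.Agent.VGS.EffTauAux (flS cjD cjD_apply der_comb alg_mem_flS mem_flS isAlg_mono isAlg_clo)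
open Pool.Agent.VCI (PN Cy ciS Gen act actC mkP mkP_eq cloΩ symm_aeval symm_ai rho_aeval)
open Pool.Agent.VCI.EffTauAux (pull pull_apply pull_kills alg_xi alg_cloΩ cycQ_univ)

section

variable {n : ℕ} {Ω : Type} [Field Ω] [Algebra ℂ Ω] {κ : Fl} {ρ : ℂ ≃+* Ω}

/-- transport of the functions -/
theorem rho_fn (hρ : ∀ c ∈ κ, ρ c = algebraMap ℂ Ω c) {ω : RForm n} (hω : ω.Cf κ) (j : Fin ω.N)
    (s : Fin 3) (z : Fin n → ℂ) : ρ (ω.fn j s z) = ω.fn j s (fun i => ρ (z i)) := by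
  unfold RForm.fn
  rw [map_div₀, rho_aeval hρ (hω j s).1, rho_aeval hρ (hω j s).2]

/-- transport of the values -/
theorem rho_val (hρ : ∀ c ∈ κ, ρ c = algebraMap ℂ Ω c) {ω : RForm n} (hω : ω.Cf κ)
    {D₁ D₂ : Derivation ℤ ℂ ℂ} {E₁ E₂ : Derivation ℂ Ω Ω} {z : Fin n → ℂ}
    (h₁ : ∀ j s, ρ (D₁ (ω.fn j s z)) = E₁ (ω.fn j s (fun i => ρ (z i))))
    (h₂ : ∀ j s, ρ (D₂ (ω.fn j s z)) = E₂ (ω.fn j s (fun i => ρ (z i)))) :
    ρ (ω.val D₁ D₂ z) = ω.val E₁ E₂ (fun i => ρ (z i)) := by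
  unfold RForm.val
  rw [map_sum]
  refine Finset.sum_congr rfl fun j _ => ?_
  rw [map_mul, map_sub, map_mul, map_mul, h₁, h₂, h₁, h₂, rho_fn hρ hω]

theorem rho_val_pull (hρ : ∀ c ∈ κ, ρ c = algebraMap ℂ Ω c) {ω : RForm n} (hω : ω.Cf κ)
    (E₁ E₂ : Derivation ℂ Ω Ω) (z : Fin n → ℂ) :
    ρ (ω.val (pull ρ E₁) (pull ρ E₂) z) = ω.val E₁ E₂ (fun i => ρ (z i)) :=
  rho_val hρ hω (fun j s => by rw [pull_apply, ρ.apply_symm_apply, rho_fn hρ hω])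
    fun j s => by rw [pull_apply, ρ.apply_symm_apply, rho_fn hρ hω]

/-- combinations of two derivations -/
theorem val_comb (ω : RForm n) {δ₁ δ₂ E₁ E₂ : Derivation ℂ Ω Ω} {a b c e : Ω}
    (h₁ : ∀ x, E₁ x = a * δ₁ x + b * δ₂ x) (h₂ : ∀ x, E₂ x = c * δ₁ x + e * δ₂ x)
    (x : Fin n → Ω) : ω.val E₁ E₂ x = (a * e - b * c) * ω.val δ₁ δ₂ x := by
  unfold RForm.val
  rw [Finset.mul_sum]
  refine Finset.sum_congr rfl fun j _ => ?_
  rw [h₁, h₁, h₂, h₂]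
  ring

end

variable {m r : ℕ} {F : Fin m → MvPolynomial (Fin (r + 3)) ℂ} {d : Fin m → ℕ} {K : Fl}
  {Ω : Type} [Field Ω] [Algebra ℂ Ω] {ξ : Fin (r + 3) → Ω}

/-- two independent coordinates are a transcendence basis -/
theorem basis_xi (hξ : IsGenericPoint F ξ) {κ : Fl} {j k : Fin (r + 3)}
    (hjk : AlgebraicIndependent ℂ ![ξ j, ξ k])
    (hxi : ∀ m, IsAlgebraic (flS κ {ξ j, ξ k}) (ξ m)) : IsTranscendenceBasis ℂ ![ξ j, ξ k] := by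
  have h1 : ∀ m, IsAlgebraic (IntermediateField.adjoin ℂ (Set.range ![ξ j, ξ k])) (ξ m) := by
    intro m
    have h7 : flS κ {ξ j, ξ k} ≤ (IntermediateField.adjoin ℂ (Set.range ![ξ j, ξ k])).toSubfield := by
      unfold flS
      rw [Subfield.closure_le]
      rintro z (⟨c, hc, rfl⟩ | hz)
      · exact (IntermediateField.adjoin ℂ (Set.range ![ξ j, ξ k])).algebraMap_mem c
      · refine IntermediateField.subset_adjoin ℂ _ ?_
        rcases hz with rfl | hz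
        · exact ⟨0, rfl⟩
        · rw [Set.mem_singleton_iff] at hz
          exact ⟨1, hz.symm⟩
    exact isAlg_mono h7 (hxi m)
  have halg2 : Algebra.IsAlgebraic (IntermediateField.adjoin ℂ (Set.range ![ξ j, ξ k])) Ω := by
    refine ⟨fun x => ?_⟩
    have h3 : IsAlgebraic (IntermediateField.adjoin ℂ (Set.range ξ)).toSubfield x :=
      hξ.alg.isAlgebraic x
    have h4 : IsAlgebraic (IntermediateField.adjoin ℂ (Set.range ![ξ j, ξ k])).toSubfield x := by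
      refine isAlg_clo (fun y hy => ?_) h3
      have h5 : IntermediateField.adjoin ℂ (Set.range ξ) ≤
          (algebraicClosure (IntermediateField.adjoin ℂ (Set.range ![ξ j, ξ k])) Ω).restrictScalars
            ℂ := by
        rw [IntermediateField.adjoin_le_iff]
        rintro _ ⟨m, rfl⟩
        exact mem_algebraicClosure_iff.2 (h1 m)
      exact mem_algebraicClosure_iff.1 (h5 hy)
    exact h4
  exact hjk.isTranscendenceBasis_iff_isAlgebraic.mpr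
    (IntermediateField.isAlgebraic_adjoin_iff_top.mp halg2)

/-- the first expression of a form over the closure of `K` is holomorphic -/
theorem HForm.isHol {κ : Fl} {ρ : ℂ ≃+* Ω} (hρ : ∀ c ∈ κ, ρ c = algebraMap ℂ Ω c)
    (ω : HForm F κ) {z : Fin (r + 3) → ℂ} (hz : z ≠ 0)
    (hg : (Projectivization.mk ℂ z hz : PN (r + 3)) ∈ Gen κ F) (hρξ : ∀ i, ρ (z i) = ξ i) :
    IsHol F ξ (ω.loc 0) := by
  intro x hx
  obtain ⟨t, ht⟩ := ω.cov x hx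
  refine ⟨ω.loc t, ht, fun D₁ D₂ => ?_⟩
  have h1 : ξ = fun i => ρ (z i) := funext fun i => (hρξ i).symm
  have h2 := ω.eq _ hg t _ _ (pull_kills hρ D₁) (pull_kills hρ D₂)
  rw [val_rep _ _ _ hz, val_rep _ _ _ hz] at h2
  rw [h1, ← rho_val_pull hρ (ω.cf t), ← rho_val_pull hρ (ω.cf 0), h2]

theorem effT_tau [IsAlgClosed Ω] (hX : Sfc0 F d K) (hξ : IsGenericPoint F ξ) {w w' : ℕ}
    (Γ : EffCorr F ξ w) (Γ' : EffCorr F ξ w') (hΓ : CoefE (clo K) Γ) (hΓ' : CoefE (clo K) Γ')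
    {μ : ℂ} (hμ : ActsByScalar F Γ Γ' μ) :
    ∀ y ∈ Gen K F, ∀ D₁ D₂ : Derivation ℤ ℂ ℂ, Kills K D₁ → Kills K D₂ →
      ∀ ω : HForm F (clo K), tauC ω D₁ D₂ (effT Γ y - effT Γ' y) = μ * tau ω D₁ D₂ y := by
  intro y hy D₁ D₂ h₁ h₂
  obtain ⟨κ, hκdef⟩ : ∃ κ, κ = clo K := ⟨_, rfl⟩
  have hcK := hX.cK
  have hκc : Countable κ := by rw [hκdef]; infer_instance
  have hκ : clo κ = κ := by rw [hκdef, clo_clo]
  have hKκ : K ≤ κ := by rw [hκdef]; exact le_clo K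
  have hFκ : ∀ i, Coef κ (F i) := fun i => (hX.coef i).mono hKκ
  have k₁ : Kills κ D₁ := by rw [hκdef]; exact VCI.DomAux.kills_clo h₁
  have k₂ : Kills κ D₂ := by rw [hκdef]; exact VCI.DomAux.kills_clo h₂
  rw [← hκdef] at hΓ hΓ' ⊢
  intro ω
  have hc : ∀ p ∈ Gen κ F, ∀ q ∈ Gen κ F, ∃ σ ∈ VGS.Fix κ, act σ p = q := by
    rw [hκdef, VCI.gen_clo]
    exact hX.conj K hX.cK le_rfl
  have hyκ : y ∈ Gen κ F := by
    rw [hκdef, VCI.gen_clo]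
    exact hy
  obtain ⟨z, hz, ⟨i₀, hi₀⟩, rfl, ρ, hρ, hρξ⟩ := exists_rho' hX.hom hξ κ hFκ hc hyκ
  let ι : cloΩ κ ξ →+* ℂ := (ρ.symm : Ω →+* ℂ).comp (cloΩ κ ξ).subtype
  have hι : ∀ c ∈ κ, ∀ h, ι ⟨algebraMap ℂ Ω c, h⟩ = c := fun c hc h => by
    change ρ.symm (algebraMap ℂ Ω c) = c
    rw [← hρ c hc, ρ.symm_apply_apply]
  have hιξ : ∀ j h, ι ⟨ξ j, h⟩ = z j := fun j h => by
    change ρ.symm (ξ j) = z j
    rw [← hρξ j, ρ.symm_apply_apply]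
  obtain ⟨t, x, ht, hx, hx1, hxF, hxs⟩ := eff_pts hX.hom κ hκ hFκ Γ hΓ hz ι hι hιξ
  obtain ⟨t', x', ht', hx', hx1', hxF', hxs'⟩ := eff_pts hX.hom κ hκ hFκ Γ' hΓ' hz ι hι hιξ
  have hzF : z ∈ cone F := ⟨hz, (VCI.mem_surf_mk hX.hom hz).1 hy.1⟩
  -- the coordinates
  have hzξ : (fun i => ρ (z i)) = ξ := funext fun i => hρξ i
  obtain ⟨j, k, hind⟩ := hξ.gen
  have hindz : AlgebraicIndependent κ ![z j, z k] := by
    have h3 := symm_ai hρ hind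
    convert h3 using 1
    funext i
    fin_cases i
    · change z j = ρ.symm (ξ j)
      rw [← hρξ j, ρ.symm_apply_apply]
    · change z k = ρ.symm (ξ k)
      rw [← hρξ k, ρ.symm_apply_apply]
  have hmem : ∀ l, z l ∈ clo (adj κ (Set.range z)) := fun l => le_clo _ (subset_adj _ _ ⟨l, rfl⟩)
  have hxi : ∀ l, IsAlgebraic (flS κ {ξ j, ξ k}) (ξ l) := fun l =>
    alg_xi hρ hρξ (hX.alg_pair hKκ hzF hi₀ (hmem j) (hmem k) hindz (hmem l))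
  have halg : ∀ u ∈ cloΩ κ ξ, IsAlgebraic (flS κ {ξ j, ξ k}) u := fun u hu => alg_cloΩ hxi hu
  have hb : IsTranscendenceBasis ℂ ![ξ j, ξ k] := basis_xi hξ hind hxi
  -- the derivations
  obtain ⟨δ₁, h1⟩ := Pool.Agent.LowDeg.DerKAux.exists_der hb ![1, 0]
  obtain ⟨δ₂, h2⟩ := Pool.Agent.LowDeg.DerKAux.exists_der hb ![0, 1]
  have h11 : δ₁ (ξ j) = 1 := h1 0
  have h12 : δ₁ (ξ k) = 0 := h1 1
  have h21 : δ₂ (ξ j) = 0 := h2 0
  have h22 : δ₂ (ξ k) = 1 := h2 1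
  have hker : ∀ D : Derivation ℤ ℂ ℂ, Kills κ D → ∀ c ∈ κ,
      cjD ρ D (algebraMap ℂ Ω c) = 0 := by
    intro D hD c hc
    rw [cjD_apply, ← hρ c hc, ρ.symm_apply_apply, hD c hc, map_zero]
  have hcomb : ∀ D : Derivation ℤ ℂ ℂ, Kills κ D → ∀ u ∈ cloΩ κ ξ,
      cjD ρ D u = (cjD ρ D (ξ j) • δ₁ + cjD ρ D (ξ k) • δ₂) u := fun D hD u hu =>
    der_comb (cjD ρ D) (hker D hD) h11 h12 h21 h22 (halg u hu)
  obtain ⟨a, b, E₁, hE₁, hE₁'⟩ : ∃ (a b : Ω) (E : Derivation ℂ Ω Ω), (∀ u ∈ cloΩ κ ξ,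
      cjD ρ D₁ u = E u) ∧ ∀ u, E u = a * δ₁ u + b * δ₂ u :=
    ⟨_, _, _, hcomb D₁ k₁, fun u => rfl⟩
  obtain ⟨c, e, E₂, hE₂, hE₂'⟩ : ∃ (a b : Ω) (E : Derivation ℂ Ω Ω), (∀ u ∈ cloΩ κ ξ,
      cjD ρ D₂ u = E u) ∧ ∀ u, E u = a * δ₁ u + b * δ₂ u :=
    ⟨_, _, _, hcomb D₂ k₂, fun u => rfl⟩
  have hκB : ∀ c ∈ κ, algebraMap ℂ Ω c ∈ cloΩ κ ξ := fun c hc => VCI.const_mem_cloΩ hc
  have hξB : ∀ l, ξ l ∈ cloΩ κ ξ := fun l => VCI.ξ_mem_cloΩ l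
  -- the values
  have hval : ∀ u : Fin (r + 3) → Ω, (∀ l, u l ∈ cloΩ κ ξ) →
      ρ ((ω.loc 0).val D₁ D₂ fun l => ρ.symm (u l)) = (ω.loc 0).val E₁ E₂ u := by
    intro u hu
    have h3 : (fun l => ρ (ρ.symm (u l))) = u := funext fun l => ρ.apply_symm_apply _
    have h4 : ∀ j s, (ω.loc 0).fn j s (fun l => ρ.symm (u l)) =
        ρ.symm ((ω.loc 0).fn j s u) := by
      intro j s
      apply ρ.injective
      rw [rho_fn hρ (ω.cf 0), h3, ρ.apply_symm_apply]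
    have h5 := rho_val hρ (ω.cf 0) (D₁ := D₁) (D₂ := D₂) (E₁ := E₁) (E₂ := E₂)
      (z := fun l => ρ.symm (u l)) (fun j s => by
        rw [h3, h4, ← hE₁ _ (fn_mem hκB (ω.cf 0) j s hu)]
        rfl) (fun j s => by
        rw [h3, h4, ← hE₂ _ (fn_mem hκB (ω.cf 0) j s hu)]
        rfl)
    rw [h3] at h5
    exact h5
  have hhol : IsHol F ξ (ω.loc 0) := ω.isHol hρ hz hyκ hρξ
  have hpts : ∀ (D D' : Derivation ℂ Ω Ω) (i : Fin w), (ω.loc 0).val D D' (Γ.pts i) =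
      (ω.loc 0).val D D' (fun l => ((x i l : cloΩ κ ξ) : Ω)) := by
    intro D D' i
    have h3 : (fun l => ((x i l : cloΩ κ ξ) : Ω)) = t i • Γ.pts i := funext fun l => hx i l
    rw [h3, val_smul _ (ht i)]
  have hpts' : ∀ (D D' : Derivation ℂ Ω Ω) (i : Fin w'), (ω.loc 0).val D D' (Γ'.pts i) =
      (ω.loc 0).val D D' (fun l => ((x' i l : cloΩ κ ξ) : Ω)) := by
    intro D D' i
    have h3 : (fun l => ((x' i l : cloΩ κ ξ) : Ω)) = t' i • Γ'.pts i := funext fun l => hx' i l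
    rw [h3, val_smul _ (ht' i)]
  -- the cycles
  have hne : ∀ i, (fun l => ρ.symm ((x i l : cloΩ κ ξ) : Ω)) ≠ 0 := by
    intro i h
    obtain ⟨l, hl⟩ := hx1 i
    have h3 := congrFun h l
    rw [hl] at h3
    simp at h3
  have hne' : ∀ i, (fun l => ρ.symm ((x' i l : cloΩ κ ξ) : Ω)) ≠ 0 := by
    intro i h
    obtain ⟨l, hl⟩ := hx1' i
    have h3 := congrFun h l
    rw [hl] at h3
    simp at h3
  have hT : effT Γ (Projectivization.mk ℂ z hz) =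
      ∑ i, Finsupp.single (mkP (fun l => ρ.symm ((x i l : cloΩ κ ξ) : Ω))) (1 : ℚ) := by
    rw [effT_eq Γ hxs]
    exact cycQ_univ _ _ hxF
  have hT' : effT Γ' (Projectivization.mk ℂ z hz) =
      ∑ i, Finsupp.single (mkP (fun l => ρ.symm ((x' i l : cloΩ κ ξ) : Ω))) (1 : ℚ) := by
    rw [effT_eq Γ' hxs']
    exact cycQ_univ _ _ hxF'
  have hC : ρ (tauC ω D₁ D₂ (effT Γ (Projectivization.mk ℂ z hz))) =
      ∑ i, (ω.loc 0).val E₁ E₂ (Γ.pts i) := by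
    rw [hT, map_sum, map_sum]
    refine Finset.sum_congr rfl fun i _ => ?_
    rw [tauC_single, one_smul, mkP_eq (hne i), tau_mk, hval _ fun l => (x i l).2, hpts]
  have hC' : ρ (tauC ω D₁ D₂ (effT Γ' (Projectivization.mk ℂ z hz))) =
      ∑ i, (ω.loc 0).val E₁ E₂ (Γ'.pts i) := by
    rw [hT', map_sum, map_sum]
    refine Finset.sum_congr rfl fun i _ => ?_
    rw [tauC_single, one_smul, mkP_eq (hne' i), tau_mk, hval _ fun l => (x' i l).2, hpts']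
  have h0 : ρ (tau ω D₁ D₂ (Projectivization.mk ℂ z hz)) = (ω.loc 0).val E₁ E₂ ξ := by
    rw [tau_mk, ← hval ξ hξB]
    congr 2
    funext l
    rw [← hρξ l, ρ.symm_apply_apply]
  apply ρ.injective
  rw [map_sub, map_sub, hC, hC', hμ _ hhol, map_mul, h0]
  by_cases hv : (ω.loc 0).val E₁ E₂ ξ = 0
  · rw [hv, mul_zero, mul_zero]
  -- the scalar is in `κ`
  have hv' : (ω.loc 0).val δ₁ δ₂ ξ ≠ 0 := by
    intro h3
    rw [val_comb _ hE₁' hE₂', h3, mul_zero] at hv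
    exact hv rfl
  have hsub : ((algebraMap ℂ Ω) '' (κ : Set ℂ) ∪ {ξ j, ξ k} : Set Ω) ⊆ cloΩ κ ξ := by
    rintro z (⟨c, hc, rfl⟩ | rfl | rfl)
    · exact hκB c hc
    · exact hξB j
    · exact hξB k
  have hc : CharZero Ω := charZero_of_injective_algebraMap (algebraMap ℂ Ω).injective
  have hδ : ∀ δ : Derivation ℂ Ω Ω, δ (ξ j) ∈ cloΩ κ ξ → δ (ξ k) ∈ cloΩ κ ξ →
      ∀ u ∈ cloΩ κ ξ, δ u ∈ cloΩ κ ξ := by
    intro δ h3 h4 u hu
    refine VGS.EffTauAux.der_mem_alg (δ.restrictScalars ℤ) (flS κ {ξ j, ξ k}) (cloΩ κ ξ)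
      (Subfield.closure_le.2 hsub) (VGS.EffTauAux.der_mem_closure _ _ _ hsub ?_) hu
      (halg u hu)
    rintro z (⟨c, hc, rfl⟩ | rfl | rfl)
    · change δ (algebraMap ℂ Ω c) ∈ _
      rw [δ.map_algebraMap]
      exact zero_mem _
    · exact h3
    · exact h4
  have hδ₁ := hδ δ₁ (by rw [h11]; exact one_mem _) (by rw [h12]; exact zero_mem _)
  have hδ₂ := hδ δ₂ (by rw [h21]; exact zero_mem _) (by rw [h22]; exact one_mem _)
  have h3 := hμ _ hhol δ₁ δ₂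
  have h4 : ∑ i, (ω.loc 0).val δ₁ δ₂ (Γ.pts i) - ∑ i, (ω.loc 0).val δ₁ δ₂ (Γ'.pts i) ∈
      cloΩ κ ξ := by
    refine sub_mem (sum_mem fun i _ => ?_) (sum_mem fun i _ => ?_)
    · rw [hpts]
      exact val_mem hκB (ω.cf 0) (fun l => (x i l).2) hδ₁ hδ₂
    · rw [hpts']
      exact val_mem hκB (ω.cf 0) (fun l => (x' i l).2) hδ₁ hδ₂
  have h5 : (ω.loc 0).val δ₁ δ₂ ξ ∈ cloΩ κ ξ := val_mem hκB (ω.cf 0) hξB hδ₁ hδ₂
  have h6 : algebraMap ℂ Ω μ ∈ cloΩ κ ξ := by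
    rw [h3] at h4
    have h7 := div_mem h4 h5
    rwa [mul_div_assoc, div_self hv', mul_one] at h7
  have h7 : μ ∈ κ := VGS.EffTauAux.mem_of_alg hκ hind (halg _ h6)
  rw [hρ μ h7]

end Pool.Agent.VRC
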