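import Pool.Agent.VRC.Base
import Pool.Agent.VRC.Frm
import Pool.Agent.VCI.EffTauA

/-! A holomorphic two-form of the function field over a countable field. -/

set_option autoImplicit false

open scoped LinearAlgebra.Projectivization
open MvPolynomial

namespace Pool.Agent.VRC

open Pool.Agent.VGS (Fl adj clo Coef Kills le_adj le_clo subset_adj)
open Pool.Agent.VGS.EffTauAux (flS cjD cjD_apply der_comb alg_mem_flS mem_flS isAlg_mono isAlg_clo)
open Pool.Agent.VCI (PN ciS Gen act)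

namespace HolFAux

section

variable {m n : ℕ} {Ω : Type} [Field Ω] [Algebra ℂ Ω]

/-! ### the isomorphism with `ℂ` -/

theorem card_generic {F : Fin m → MvPolynomial (Fin n) ℂ} {ξ : Fin n → Ω}
    (hξ : IsGenericPoint F ξ) : Cardinal.mk Ω = Cardinal.mk ℂ := by
  have h0 : Cardinal.aleph0 ≤ Cardinal.mk ℂ := VGS.aleph0_lt_complex.le
  apply le_antisymm
  · have := hξ.alg
    have h1 := Algebra.IsAlgebraic.cardinalMk_le_max
      (IntermediateField.adjoin ℂ (Set.range ξ)) Ω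
    have h2 := IntermediateField.cardinalMk_adjoin_le ℂ (Set.range ξ)
    have h3 : Cardinal.mk (Set.range ξ) ≤ Cardinal.aleph0 := Cardinal.mk_le_aleph0
    refine h1.trans (max_le (h2.trans (max_le (max_le le_rfl (h3.trans h0)) h0)) h0)
  · exact Cardinal.mk_le_of_injective (algebraMap ℂ Ω).injective

theorem rho_fn {κ : Fl} {ρ : ℂ ≃+* Ω} (hρ : ∀ c ∈ κ, ρ c = algebraMap ℂ Ω c) {ω : RForm n}
    (hω : ω.Cf κ) (j : Fin ω.N) (s : Fin 3) (z : Fin n → ℂ) :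
    ρ (ω.fn j s z) = ω.fn j s (fun i => ρ (z i)) := by
  unfold RForm.fn
  rw [map_div₀, VCI.rho_aeval hρ (hω j s).1, VCI.rho_aeval hρ (hω j s).2]

/-- transport of the values -/
theorem rho_val {κ : Fl} {ρ : ℂ ≃+* Ω} (hρ : ∀ c ∈ κ, ρ c = algebraMap ℂ Ω c) {ω : RForm n}
    (hω : ω.Cf κ) {z : Fin n → ℂ} {D₁ D₂ : Derivation ℤ ℂ ℂ} {E₁ E₂ : Derivation ℂ Ω Ω}
    (h₁ : ∀ j s, ρ (D₁ (ω.fn j s z)) = E₁ (ρ (ω.fn j s z)))
    (h₂ : ∀ j s, ρ (D₂ (ω.fn j s z)) = E₂ (ρ (ω.fn j s z))) :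
    ρ (ω.val D₁ D₂ z) = ω.val E₁ E₂ (fun i => ρ (z i)) := by
  unfold RForm.val
  rw [map_sum]
  refine Finset.sum_congr rfl fun j _ => ?_
  rw [map_mul, map_sub, map_mul, map_mul, h₁, h₂, h₁, h₂, rho_fn hρ hω, rho_fn hρ hω,
    rho_fn hρ hω]

/-! ### the coefficients -/

theorem exists_cf (ω : RForm n) : ∃ S : Finset ℂ, ∀ κ : Fl, (∀ x ∈ S, x ∈ κ) → ω.Cf κ := by
  classical
  refine ⟨(Finset.univ : Finset (Fin ω.N × Fin 3)).biUnion fun js =>
    (ω.A js.1 js.2).coeffs ∪ (ω.B js.1 js.2).coeffs, fun κ h j s => ⟨fun u => ?_, fun u => ?_⟩⟩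
  · by_cases h0 : coeff u (ω.A j s) = 0
    · rw [h0]
      exact zero_mem _
    · refine h _ (Finset.mem_biUnion.2 ⟨(j, s), Finset.mem_univ _, Finset.mem_union_left _ ?_⟩)
      exact coeff_mem_coeffs u h0
  · by_cases h0 : coeff u (ω.B j s) = 0
    · rw [h0]
      exact zero_mem _
    · refine h _ (Finset.mem_biUnion.2 ⟨(j, s), Finset.mem_univ _, Finset.mem_union_right _ ?_⟩)
      exact coeff_mem_coeffs u h0

/-! ### finitely many local expressions -/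

/-- the product of the denominators -/
noncomputable def den (ω : RForm n) : MvPolynomial (Fin n) ℂ := ∏ j, ∏ s, ω.B j s

theorem den_ne {ω : RForm n} {z : Fin n → ℂ} :
    aeval z (den ω) ≠ 0 ↔ ∀ j s, aeval z (ω.B j s) ≠ 0 := by
  unfold den
  rw [map_prod, Finset.prod_ne_zero_iff]
  refine ⟨fun h j s => ?_, fun h j _ => ?_⟩
  · have h1 := h j (Finset.mem_univ j)
    rw [map_prod, Finset.prod_ne_zero_iff] at h1
    exact h1 s (Finset.mem_univ s)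
  · rw [map_prod, Finset.prod_ne_zero_iff]
    exact fun s _ => h j s

theorem exists_cov {F : Fin m → MvPolynomial (Fin n) ℂ} (hne : (cone F).Nonempty)
    (f : cone F → RForm n) (hf : ∀ z : cone F, ∀ j s, aeval z.1 ((f z).B j s) ≠ 0) :
    ∃ (T : ℕ) (q : Fin (T + 1) → cone F),
      ∀ z ∈ cone F, ∃ t, ∀ j s, aeval z ((f (q t)).B j s) ≠ 0 := by
  classical
  have hfg : (Submodule.span (MvPolynomial (Fin n) ℂ) (Set.range fun z => den (f z))).FG :=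
    IsNoetherian.noetherian _
  rw [Submodule.fg_span_iff_fg_span_finset_subset] at hfg
  obtain ⟨t, ht, hspan⟩ := hfg
  have key : ∀ z ∈ cone F, ∃ Q ∈ t, aeval z Q ≠ 0 := by
    intro z hz
    by_contra hcon
    push Not at hcon
    have h1 : den (f ⟨z, hz⟩) ∈ Submodule.span (MvPolynomial (Fin n) ℂ) (t : Set _) := by
      rw [← hspan]
      exact Submodule.subset_span ⟨_, rfl⟩
    have h2 : aeval z (den (f ⟨z, hz⟩)) = 0 := by
      refine Submodule.span_induction (p := fun Q _ => aeval z Q = 0) ?_ ?_ ?_ ?_ h1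
      · exact fun Q hQ => hcon Q hQ
      · exact map_zero _
      · intro P Q _ _ hP hQ
        rw [map_add, hP, hQ, add_zero]
      · intro a P _ hP
        rw [smul_eq_mul, map_mul, hP, mul_zero]
    exact den_ne.2 (hf ⟨z, hz⟩) h2
  have hQ : ∀ Q : t, ∃ w : cone F, den (f w) = Q.1 := fun Q => ht Q.2
  choose g hg using hQ
  obtain ⟨z0, hz0⟩ := hne
  obtain ⟨Q0, hQ0, -⟩ := key z0 hz0
  have hcard : t.card = (t.card - 1) + 1 := by
    have h1 : 0 < t.card := Finset.card_pos.2 ⟨Q0, hQ0⟩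
    omega
  refine ⟨t.card - 1, fun i => g (t.equivFinOfCardEq hcard |>.symm i), fun z hz => ?_⟩
  obtain ⟨Q, hQt, hQz⟩ := key z hz
  refine ⟨t.equivFinOfCardEq hcard ⟨Q, hQt⟩, ?_⟩
  rw [← den_ne]
  change aeval z (den (f (g ((t.equivFinOfCardEq hcard).symm
    (t.equivFinOfCardEq hcard ⟨Q, hQt⟩))))) ≠ 0
  rw [Equiv.symm_apply_apply, hg]
  exact hQz

end

/-! ### the generic point -/

variable {m r : ℕ} {F : Fin m → MvPolynomial (Fin (r + 3)) ℂ} {d : Fin m → ℕ} {K : Fl}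
  {Ω : Type} [Field Ω] [Algebra ℂ Ω] {ξ : Fin (r + 3) → Ω}

/-- the normalised coordinates of a generic point, with the isomorphism -/
theorem exists_rho [IsAlgClosed Ω] (hX : Sfc0 F d K) (hξ : IsGenericPoint F ξ) {y : PN (r + 3)}
    (hy : y ∈ Gen K F) :
    ∃ (z : Fin (r + 3) → ℂ) (hz : z ≠ 0) (i : Fin (r + 3)), z i = 1 ∧
      y = Projectivization.mk ℂ z hz ∧ (∀ a, aeval z (F a) = 0) ∧
      ∃ ρ : ℂ ≃+* Ω, (∀ c ∈ clo K, ρ c = algebraMap ℂ Ω c) ∧ ∀ i, ρ (z i) = ξ i := by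
  have hcK := hX.cK
  obtain ⟨ρ, hρ⟩ := @VGS.ext_gen (clo K) ℂ Ω _ _ _ _
    ((algebraMap ℂ Ω).comp (algebraMap (clo K) ℂ)).toAlgebra _ _ _
    (algebraMap (clo K) ℂ).injective
    ((algebraMap ℂ Ω).comp (algebraMap (clo K) ℂ)).injective VGS.aleph0_lt_complex
    (card_generic hξ).symm
  have hρ' : ∀ c ∈ clo K, ρ c = algebraMap ℂ Ω c := fun c hc => hρ ⟨c, hc⟩
  have hFκ : ∀ a, Coef (clo K) (F a) := fun a => (hX.coef a).mono (le_clo K)
  obtain ⟨i, hi⟩ := hξ.one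
  have h1 : ρ.symm (ξ i) = 1 := by rw [hi, map_one]
  have hne : (fun i => ρ.symm (ξ i)) ≠ 0 := by
    intro h
    have := congrFun h i
    rw [h1] at this
    exact one_ne_zero this
  obtain ⟨j, l, hjl⟩ := hξ.gen
  have h2 : AlgebraicIndependent (clo K) ![ρ.symm (ξ j), ρ.symm (ξ l)] := by
    have h3 := VCI.symm_ai hρ' hjl
    have h4 : (![ρ.symm (ξ j), ρ.symm (ξ l)] : Fin 2 → ℂ) = fun i => ρ.symm (![ξ j, ξ l] i) := by
      funext i
      fin_cases i <;> rfl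
    rw [h4]
    exact h3
  have h4 : (Projectivization.mk ℂ (fun i => ρ.symm (ξ i)) hne : PN (r + 3)) ∈ Gen (clo K) F :=
    VCI.gen_mk hX.hom hne h1 (fun a => by rw [VCI.symm_aeval hρ' (hFκ a), hξ.zero, map_zero]) h2
  rw [VCI.gen_clo] at h4
  obtain ⟨σ, hσ, hσp⟩ := hX.conj K hcK le_rfl _ h4 _ hy
  have hne' : (fun i => σ (ρ.symm (ξ i))) ≠ 0 := VCI.map_ne_zero' σ hne
  have hinv : ∀ c ∈ clo K, σ.symm c = c := (VGS.Fix (clo K)).inv_mem hσ
  have hall : ∀ c ∈ clo K, (σ⁻¹.trans ρ) c = algebraMap ℂ Ω c := by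
    intro c hc'
    change ρ (σ.symm c) = _
    rw [hinv c hc', hρ' c hc']
  have hxi : ∀ i, (σ⁻¹.trans ρ) (σ (ρ.symm (ξ i))) = ξ i := by
    intro i
    change ρ (σ.symm (σ (ρ.symm (ξ i)))) = ξ i
    rw [σ.symm_apply_apply, ρ.apply_symm_apply]
  refine ⟨fun i => σ (ρ.symm (ξ i)), hne', i, ?_, ?_, fun a => ?_, σ⁻¹.trans ρ, hall, hxi⟩
  · change σ (ρ.symm (ξ i)) = 1
    rw [h1, map_one]
  · rw [← hσp, VCI.act_mk σ _ hne hne']
  · apply (σ⁻¹.trans ρ).injective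
    rw [VCI.rho_aeval hall (hFκ a), map_zero]
    simp only [hxi]
    exact hξ.zero a

/-- two independent coordinates are a transcendence basis -/
theorem basis_xi (hξ : IsGenericPoint F ξ) {κ : Fl} {j k : Fin (r + 3)}
    (hjk : AlgebraicIndependent ℂ ![ξ j, ξ k])
    (hxi : ∀ m, IsAlgebraic (flS κ {ξ j, ξ k}) (ξ m)) : IsTranscendenceBasis ℂ ![ξ j, ξ k] := by
  have h1 : ∀ m, IsAlgebraic (IntermediateField.adjoin ℂ (Set.range ![ξ j, ξ k])) (ξ m) := by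
    intro m
    have h7 : flS κ {ξ j, ξ k} ≤
        (IntermediateField.adjoin ℂ (Set.range ![ξ j, ξ k])).toSubfield := by
      unfold flS
      rw [Subfield.closure_le]
      rintro z (⟨c, hc, rfl⟩ | hz)
      · exact (IntermediateField.adjoin ℂ (Set.range ![ξ j, ξ k])).algebraMap_mem c
      · refine IntermediateField.subset_adjoin ℂ _ ?_
        rcases hz with rfl | hz
        · exact ⟨0, rfl⟩
        · rw [Set.mem_singleton_iff] at hz
          exact ⟨1, hz.symm⟩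
    exact isAlg_mono h7 (hxi m)
  have halg2 : Algebra.IsAlgebraic (IntermediateField.adjoin ℂ (Set.range ![ξ j, ξ k])) Ω := by
    refine ⟨fun x => ?_⟩
    have h3 : IsAlgebraic (IntermediateField.adjoin ℂ (Set.range ξ)).toSubfield x :=
      hξ.alg.isAlgebraic x
    have h4 : IsAlgebraic (IntermediateField.adjoin ℂ (Set.range ![ξ j, ξ k])).toSubfield x := by
      refine isAlg_clo (fun y hy => ?_) h3
      have h5 : IntermediateField.adjoin ℂ (Set.range ξ) ≤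
          (algebraicClosure (IntermediateField.adjoin ℂ (Set.range ![ξ j, ξ k])) Ω).restrictScalars
            ℂ := by
        rw [IntermediateField.adjoin_le_iff]
        rintro _ ⟨m, rfl⟩
        exact mem_algebraicClosure_iff.2 (h1 m)
      exact mem_algebraicClosure_iff.1 (h5 hy)
    exact h4
  exact hjk.isTranscendenceBasis_iff_isAlgebraic.mpr
    (IntermediateField.isAlgebraic_adjoin_iff_top.mp halg2)

/-- the derivations of `Ω` which correspond to the derivations of `ℂ` over `clo K` -/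
theorem exists_ext (hX : Sfc0 F d K) (hξ : IsGenericPoint F ξ) {z : Fin (r + 3) → ℂ}
    (hz : z ∈ cone F) {i : Fin (r + 3)} (hzi : z i = 1) {ρ : ℂ ≃+* Ω}
    (hρ : ∀ c ∈ clo K, ρ c = algebraMap ℂ Ω c) (hρξ : ∀ i, ρ (z i) = ξ i) :
    ∀ D : Derivation ℤ ℂ ℂ, Kills (clo K) D → ∃ E : Derivation ℂ Ω Ω,
      ∀ ω : RForm (r + 3), ω.Cf (clo K) → ∀ j s, ρ (D (ω.fn j s z)) = E (ρ (ω.fn j s z)) := by
  obtain ⟨j, k, hind⟩ := hξ.gen
  have hzξ : (fun i => ρ.symm (ξ i)) = z := funext fun i => by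
    rw [← hρξ i, ρ.symm_apply_apply]
  have hindz : AlgebraicIndependent (clo K) ![z j, z k] := by
    have h3 := VCI.symm_ai hρ hind
    have h4 : (![z j, z k] : Fin 2 → ℂ) = fun i => ρ.symm (![ξ j, ξ k] i) := by
      funext i
      fin_cases i
      · exact (congrFun hzξ j).symm
      · exact (congrFun hzξ k).symm
    rw [h4]
    exact h3
  have hm : ∀ a, z a ∈ clo (adj (clo K) (Set.range z)) := fun a =>
    le_clo _ (subset_adj _ _ ⟨a, rfl⟩)
  have hxi : ∀ m, IsAlgebraic (flS (clo K) {ξ j, ξ k}) (ξ m) := fun m =>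
    VCI.EffTauAux.alg_xi hρ hρξ (hX.alg_pair (le_clo K) hz hzi (hm j) (hm k) hindz (hm m))
  have halg : ∀ u ∈ VCI.cloΩ (clo K) ξ, IsAlgebraic (flS (clo K) {ξ j, ξ k}) u := fun u hu =>
    VCI.EffTauAux.alg_cloΩ hxi hu
  have hb : IsTranscendenceBasis ℂ ![ξ j, ξ k] := basis_xi hξ hind hxi
  obtain ⟨δ₁, h1⟩ := Pool.Agent.LowDeg.DerKAux.exists_der hb ![1, 0]
  obtain ⟨δ₂, h2⟩ := Pool.Agent.LowDeg.DerKAux.exists_der hb ![0, 1]
  have h11 : δ₁ (ξ j) = 1 := h1 0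
  have h12 : δ₁ (ξ k) = 0 := h1 1
  have h21 : δ₂ (ξ j) = 0 := h2 0
  have h22 : δ₂ (ξ k) = 1 := h2 1
  have hκB : ∀ c ∈ clo K, algebraMap ℂ Ω c ∈ VCI.cloΩ (clo K) ξ := fun c hc =>
    mem_algebraicClosure_iff.2 (isAlgebraic_algebraMap (⟨_, Subfield.subset_closure
      (Or.inl ⟨c, hc, rfl⟩)⟩ :
      Subfield.closure ((algebraMap ℂ Ω) '' (clo K : Set ℂ) ∪ Set.range ξ)))
  have hξmem : ∀ i, ξ i ∈ VCI.cloΩ (clo K) ξ := fun i =>
    mem_algebraicClosure_iff.2 (isAlgebraic_algebraMap (⟨_, Subfield.subset_closure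
      (Or.inr ⟨i, rfl⟩)⟩ :
      Subfield.closure ((algebraMap ℂ Ω) '' (clo K : Set ℂ) ∪ Set.range ξ)))
  intro D hD
  have hker : ∀ c ∈ clo K, cjD ρ D (algebraMap ℂ Ω c) = 0 := by
    intro c hc
    rw [cjD_apply, ← hρ c hc, ρ.symm_apply_apply, hD c hc, map_zero]
  refine ⟨cjD ρ D (ξ j) • δ₁ + cjD ρ D (ξ k) • δ₂, fun ω hω a s => ?_⟩
  have hu : ρ (ω.fn a s z) ∈ VCI.cloΩ (clo K) ξ := by
    rw [rho_fn hρ hω]
    simp only [hρξ]
    exact fn_mem hκB hω a s hξmem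
  have h3 := der_comb (cjD ρ D) hker h11 h12 h21 h22 (halg _ hu)
  rw [← h3, cjD_apply, ρ.symm_apply_apply]

/-- equality of the values at the generic point of `Ω` gives equality at the generic points of
`ℂ` -/
theorem val_eq [IsAlgClosed Ω] (hX : Sfc0 F d K) (hξ : IsGenericPoint F ξ)
    {ω ω' : RForm (r + 3)} (hω : ω.Cf (clo K)) (hω' : ω'.Cf (clo K))
    (h : ∀ E₁ E₂ : Derivation ℂ Ω Ω, ω'.val E₁ E₂ ξ = ω.val E₁ E₂ ξ) {p : PN (r + 3)}
    (hp : p ∈ Gen (clo K) F) {D₁ D₂ : Derivation ℤ ℂ ℂ} (h₁ : Kills (clo K) D₁)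
    (h₂ : Kills (clo K) D₂) : ω'.val D₁ D₂ p.rep = ω.val D₁ D₂ p.rep := by
  rw [VCI.gen_clo] at hp
  obtain ⟨z, hz, i, hzi, rfl, hzF, ρ, hρ, hρξ⟩ := exists_rho hX hξ hp
  obtain ⟨E₁, hE₁⟩ := exists_ext hX hξ ⟨hz, hzF⟩ hzi hρ hρξ D₁ h₁
  obtain ⟨E₂, hE₂⟩ := exists_ext hX hξ ⟨hz, hzF⟩ hzi hρ hρξ D₂ h₂
  rw [val_rep _ _ _ hz, val_rep _ _ _ hz]
  apply ρ.injective
  rw [rho_val hρ hω (hE₁ ω hω) (hE₂ ω hω), rho_val hρ hω' (hE₁ ω' hω') (hE₂ ω' hω')]
  simp only [hρξ]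
  exact h E₁ E₂

end HolFAux

open HolFAux

variable {m r : ℕ} {F : Fin m → MvPolynomial (Fin (r + 3)) ℂ} {Ω : Type} [Field Ω] [Algebra ℂ Ω]
  {ξ : Fin (r + 3) → Ω}

/-- A holomorphic two-form different from zero is given by forms over each field which contains
finitely many coefficients. -/
theorem exists_hform [IsAlgClosed Ω] (hξ : IsGenericPoint F ξ) (h : HasForm F ξ) :
    ∃ S : Finset ℂ, ∀ (K : Fl) (d : Fin m → ℕ), Sfc0 F d K → (∀ x ∈ S, x ∈ clo K) →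
      ∃ ω : HForm F (clo K), ∃ p ∈ Gen K F, ∃ D₁ D₂ : Derivation ℤ ℂ ℂ, Kills K D₁ ∧
        Kills K D₂ ∧ tau ω D₁ D₂ p ≠ 0 := by
  classical
  by_cases hne : (cone F).Nonempty
  swap
  · refine ⟨∅, fun K d hX _ => ?_⟩
    exfalso
    obtain ⟨p, hp⟩ := hX.gen K hX.cK
    obtain ⟨w, hw, i, j, l, hi, -, hwF, hai⟩ := VCI.gen_nrm hX.hom hp
    exact hne ⟨w, hw, hwF⟩
  obtain ⟨ω₀, hol, E₁, E₂, hE⟩ := h
  choose f hf using fun z : cone F => hol z.1 z.2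
  obtain ⟨T, q, hq⟩ := exists_cov hne f fun z => (hf z).1
  choose S hS using fun t : Fin (T + 1) => exists_cf (f (q t))
  refine ⟨Finset.univ.biUnion S, fun K d hX hSK => ?_⟩
  have hcK := hX.cK
  have hcf : ∀ t, (f (q t)).Cf (clo K) := fun t => hS t _ fun x hx =>
    hSK x (Finset.mem_biUnion.2 ⟨t, Finset.mem_univ t, hx⟩)
  have hval : ∀ t (D₁ D₂ : Derivation ℂ Ω Ω), (f (q t)).val D₁ D₂ ξ = ω₀.val D₁ D₂ ξ :=
    fun t => (hf (q t)).2
  let ω : HForm F (clo K) :=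
    { T := T
      loc := fun t => f (q t)
      coefA := fun t j s => (hcf t j s).1
      coefB := fun t j s => (hcf t j s).2
      cov := hq
      eq := fun p hp t D₁ D₂ h₁ h₂ => val_eq hX hξ (hcf 0) (hcf t)
        (fun E₁ E₂ => (hval t E₁ E₂).trans (hval 0 E₁ E₂).symm) hp h₁ h₂ }
  obtain ⟨p, hp⟩ := hX.gen K hcK
  obtain ⟨z, hz, i, hzi, rfl, hzF, ρ, hρ, hρξ⟩ := exists_rho hX hξ hp
  refine ⟨ω, _, hp, VCI.EffTauAux.pull ρ E₁, VCI.EffTauAux.pull ρ E₂, ?_, ?_, ?_⟩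
  · exact fun x hx => VCI.EffTauAux.pull_kills hρ E₁ x (le_clo K hx)
  · exact fun x hx => VCI.EffTauAux.pull_kills hρ E₂ x (le_clo K hx)
  · rw [tau_mk]
    intro h0
    apply hE
    rw [← hval 0]
    have h1 := congrArg ρ h0
    have h2 : ρ ((f (q 0)).val (VCI.EffTauAux.pull ρ E₁) (VCI.EffTauAux.pull ρ E₂) z) =
        (f (q 0)).val E₁ E₂ (fun i => ρ (z i)) :=
      rho_val hρ (hcf 0) (fun j s => by rw [VCI.EffTauAux.pull_apply, ρ.apply_symm_apply])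
        (fun j s => by rw [VCI.EffTauAux.pull_apply, ρ.apply_symm_apply])
    have h3 : ρ ((ω.loc 0).val (VCI.EffTauAux.pull ρ E₁) (VCI.EffTauAux.pull ρ E₂) z) =
        (f (q 0)).val E₁ E₂ (fun i => ρ (z i)) := h2
    rw [h3, map_zero] at h1
    simp only [hρξ] at h1
    exact h1

end Pool.Agent.VRC
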