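import Pool.Agent.VRC.Tau
import Pool.Agent.VCI.Mum

/-! Mumford's theorem. -/

set_option autoImplicit false

open scoped LinearAlgebra.Projectivization
open MvPolynomial

namespace Pool.Agent.VRC

open Pool.Agent.VGS (Fl adj clo Coef Kills le_adj subset_adj isAlgClosed_clo exists_notMem
  exists_stable_field' resD mum_exists_sm mum_const mum_int_of_ge mum_ge_der mum_exists_E
  mum_exists_dt mum_der_mem conjD conjD_apply conjD_kills mum_der_eq VE exists_map_eq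
  mem_of_fixed)
open Pool.Agent.LowDeg (Place)
open Pool.Agent.LowDeg.LocalDerAux (Ge)
open Pool.Agent.Chow0 (IsLink IsChowForm chowForm)
open Pool.Agent.VCI (PN Cy ciS Gen Over act OvE SpE exists_spE cycQ ratQ exists_stable_field
  mum_good mum_ms_sum_add mum_limit IsCh over_clo_of_finite over_clo_act)

variable {m n : ℕ} {F : Fin m → MvPolynomial (Fin n) ℂ} {d : Fin m → ℕ} {κ : Fl}

theorem resD_val {C₀ : Fl} {E : IntermediateField C₀ ℂ} {D : Derivation ℤ ℂ ℂ}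
    (hD : ∀ x ∈ E, D x ∈ E) (x : E) : ((resD E D hD x : E) : ℂ) = D x := rfl

/-- the values of a two-form at a place -/
theorem mum_loc (hF : ∀ i, (F i).IsHomogeneous (d i)) (hFL : ∀ i, Coef κ (F i))
    (ω : HForm F κ) {C₀ : Fl} (hL : κ ≤ C₀) {E : IntermediateField C₀ ℂ} (P : Place C₀ E)
    {D₁ D₂ : Derivation ℤ ℂ ℂ} (hD₁ : ∀ x ∈ E, D₁ x ∈ E) (hD₂ : ∀ x ∈ E, D₂ x ∈ E)
    (h₁ : Kills κ D₁) (h₂ : Kills κ D₂) {p q : PN n} (hp : p ∈ ciS F)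
    (h : SpE P p q) :
    ∃ x : E, (x : ℂ) = tau ω D₁ D₂ p ∧
      (∀ ρ : ℤ, (∀ y : E, P.Int y → P.Int (resD E D₁ hD₁ y)) →
        (∀ y : E, P.Int y → Ge P ρ (resD E D₂ hD₂ y)) → Ge P ρ x) ∧
      (∀ δ₁ δ₂ : Derivation ℤ ℂ ℂ, Kills κ δ₁ → Kills κ δ₂ →
        (∀ (y : E) (c : C₀), P.IsVal y c → ∃ c' : C₀, (c' : ℂ) = δ₁ c ∧
          P.IsVal (resD E D₁ hD₁ y) c') →
        (∀ (y : E) (c : C₀), P.IsVal y c → ∃ c' : C₀, (c' : ℂ) = δ₂ c ∧
          P.IsVal (resD E D₂ hD₂ y) c') →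
        ∃ c : C₀, (c : ℂ) = tau ω δ₁ δ₂ q ∧ P.IsVal x c) := by
  have hq : q ∈ ciS F := h.mem_surf hF (fun i => (hFL i).mono hL) hp
  obtain ⟨z, w, hz, hw, rfl, rfl, hval⟩ := h
  have hzF : (fun i => (z i : ℂ)) ∈ cone F := ⟨hz, (VCI.mem_surf_mk hF hz).1 hp⟩
  have hwF : (fun i => (w i : ℂ)) ∈ cone F := ⟨hw, (VCI.mem_surf_mk hF hw).1 hq⟩
  obtain ⟨t, ht⟩ := ω.cov _ hwF
  have hfn : ∀ j s, VE P ((ω.loc t).fn j s fun i => (z i : ℂ))
      ((ω.loc t).fn j s fun i => (w i : ℂ)) := fun j s =>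
    (VE.aeval ((ω.coefA t j s).mono hL) fun i => ⟨z i, w i, rfl, rfl, hval i⟩).div
      (VE.aeval ((ω.coefB t j s).mono hL) fun i => ⟨z i, w i, rfl, rfl, hval i⟩) (ht j s)
  choose x c hx hc hxc using hfn
  refine ⟨∑ j, x j 0 * (resD E D₁ hD₁ (x j 1) * resD E D₂ hD₂ (x j 2) -
    resD E D₂ hD₂ (x j 1) * resD E D₁ hD₁ (x j 2)), ?_, ?_, ?_⟩
  · rw [← tau_loc hF ω h₁ h₂ t hzF]
    unfold RForm.val
    have h3 := map_sum (algebraMap E ℂ) (fun j => x j 0 * (resD E D₁ hD₁ (x j 1) *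
      resD E D₂ hD₂ (x j 2) - resD E D₂ hD₂ (x j 1) * resD E D₁ hD₁ (x j 2))) Finset.univ
    refine Eq.trans h3 ?_
    refine Finset.sum_congr rfl fun j _ => ?_
    rw [map_mul, map_sub, map_mul, map_mul]
    change ((x j 0 : E) : ℂ) * (D₁ ((x j 1 : E) : ℂ) * D₂ ((x j 2 : E) : ℂ) -
      D₂ ((x j 1 : E) : ℂ) * D₁ ((x j 2 : E) : ℂ)) = _
    rw [hx, hx, hx]
  · intro ρ k₁ k₂
    refine Ge.sum _ fun j _ => Ge.int_mul (hxc j 0).int (Ge.sub ?_ ?_)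
    · exact Ge.int_mul (k₁ _ (hxc j 1).int) (k₂ _ (hxc j 2).int)
    · exact Ge.mul_int (k₂ _ (hxc j 1).int) (k₁ _ (hxc j 2).int)
  · intro δ₁ δ₂ e₁ e₂ k₁ k₂
    choose x₁ hx₁ hx₁' using fun j s => k₁ (x j s) (c j s) (hxc j s)
    choose x₂ hx₂ hx₂' using fun j s => k₂ (x j s) (c j s) (hxc j s)
    refine ⟨∑ j, c j 0 * (x₁ j 1 * x₂ j 2 - x₂ j 1 * x₁ j 2), ?_, ?_⟩
    · rw [← tau_loc hF ω e₁ e₂ t hwF]
      unfold RForm.val
      have h3 := map_sum (algebraMap C₀ ℂ) (fun j => c j 0 * (x₁ j 1 * x₂ j 2 -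
        x₂ j 1 * x₁ j 2)) Finset.univ
      refine Eq.trans h3 ?_
      refine Finset.sum_congr rfl fun j _ => ?_
      rw [map_mul, map_sub, map_mul, map_mul]
      change ((c j 0 : C₀) : ℂ) * (((x₁ j 1 : C₀) : ℂ) * ((x₂ j 2 : C₀) : ℂ) -
        ((x₂ j 1 : C₀) : ℂ) * ((x₁ j 2 : C₀) : ℂ)) = _
      rw [hx₁, hx₂, hx₁, hx₂, hc, hc, hc]
    · exact Place.IsVal.sum _ fun j _ => (hxc j 0).mul (((hx₁' j 1).mul (hx₂' j 2)).sub
        ((hx₂' j 1).mul (hx₁' j 2)))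

/-- Galois invariance -/
theorem mum_gal (hF : ∀ i, (F i).IsHomogeneous (d i)) (ω : HForm F κ) {C₀ : Fl} [Countable C₀]
    (hL : κ ≤ C₀) {t : ℂ} {D₁ D₂ : Derivation ℤ ℂ ℂ}
    (c₁ : ∀ c ∈ C₀, D₁ c ∈ C₀) (c₂ : ∀ c ∈ C₀, D₂ c ∈ C₀) (t₁ : D₁ t ∈ C₀) (t₂ : D₂ t ∈ C₀)
    {S : Multiset (PN n)} (hS : ∀ p ∈ S, Over (clo (adj C₀ {t})) p)
    (hSs : ∀ σ ∈ VGS.Fix (adj C₀ {t}), S.map (act σ) = S) :
    (S.map fun p => tau ω D₁ D₂ p).sum ∈ adj C₀ {t} := by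
  apply mem_of_fixed
  intro σ hσ
  have hσC : ∀ c ∈ C₀, σ c = c := fun c hc => hσ c (le_adj _ _ hc)
  have hσC' : ∀ c ∈ C₀, σ.symm c = c := fun c hc => by
    rw [RingEquiv.symm_apply_eq, hσC c hc]
  have hσL : σ ∈ VGS.Fix κ := fun c hc => hσC c (hL hc)
  have hσt : σ t = t := hσ t (subset_adj _ _ rfl)
  have hσt' : σ.symm t = t := by rw [RingEquiv.symm_apply_eq, hσt]
  have key : ∀ D : Derivation ℤ ℂ ℂ, (∀ c ∈ C₀, D c ∈ C₀) → D t ∈ C₀ →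
      ∀ x ∈ clo (adj C₀ {t}), conjD σ D x = D x := by
    intro D hD hDt
    refine mum_der_eq (M := adj C₀ {t}) ?_ le_rfl
    let M : Fl :=
      { carrier := {x | conjD σ D x = D x}
        mul_mem' := fun {a b} ha hb => by
          change conjD σ D (a * b) = D (a * b)
          rw [Derivation.leibniz, Derivation.leibniz, ha, hb]
        one_mem' := by
          change conjD σ D 1 = D 1
          rw [Derivation.map_one_eq_zero, Derivation.map_one_eq_zero]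
        add_mem' := fun {a b} ha hb => by
          change conjD σ D (a + b) = D (a + b)
          rw [map_add, map_add, ha, hb]
        zero_mem' := by
          change conjD σ D 0 = D 0
          rw [map_zero, map_zero]
        algebraMap_mem' := fun r => by
          have h1 : algebraMap ℚ ℂ r ∈ C₀ := C₀.algebraMap_mem r
          change conjD σ D (algebraMap ℚ ℂ r) = D (algebraMap ℚ ℂ r)
          rw [conjD_apply, hσC' _ h1, hσC _ (hD _ h1)]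
        inv_mem' := fun a ha => by
          change conjD σ D a⁻¹ = D a⁻¹
          rw [Derivation.leibniz_inv, Derivation.leibniz_inv, ha] }
    have h1 : adj C₀ {t} ≤ M := by
      refine VGS.adj_le ?_ ?_
      · intro c hc
        change conjD σ D c = D c
        rw [conjD_apply, hσC' _ hc, hσC _ (hD _ hc)]
      · rintro x rfl
        change conjD σ D x = D x
        rw [conjD_apply, hσt', hσC _ hDt]
    exact fun x hx => h1 hx
  have h3 : ∀ p ∈ S, σ (tau ω D₁ D₂ p) = tau ω D₁ D₂ (act σ p) := by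
    intro p hp
    rw [← tau_act hF ω hσL]
    exact tau_congr ω (hL.trans ((le_adj _ _).trans (VGS.le_clo _)))
      ((over_clo_act hσ).2 (hS p hp)) (key D₁ c₁ t₁) (key D₂ c₂ t₂)
  rw [map_multiset_sum, Multiset.map_map]
  have h4 : S.map ((fun x => σ x) ∘ fun p => tau ω D₁ D₂ p) =
      S.map ((fun p => tau ω D₁ D₂ p) ∘ act σ) := Multiset.map_congr rfl fun p hp => h3 p hp
  have h5 : S.map ((fun p => tau ω D₁ D₂ p) ∘ act σ) = S.map fun p => tau ω D₁ D₂ p := by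
    rw [← Multiset.map_map, hSs σ hσ]
  exact congrArg Multiset.sum (h4.trans h5)

section local_

variable {C₀ : Fl} {E : IntermediateField C₀ ℂ}

theorem mum_sum_ge (hF : ∀ i, (F i).IsHomogeneous (d i)) (hL : κ ≤ C₀)
    (hFL : ∀ i, Coef κ (F i)) (ω : HForm F κ)
    (P : Place C₀ E) {D₁ D₂ : Derivation ℤ ℂ ℂ}
    (hD₁ : ∀ x ∈ E, D₁ x ∈ E) (hD₂ : ∀ x ∈ E, D₂ x ∈ E) (h₁ : Kills κ D₁) (h₂ : Kills κ D₂)
    {S : Multiset (PN n)} (hS : ∀ p ∈ S, OvE E p) (hSF : ∀ p ∈ S, p ∈ ciS F) {ρ : ℤ}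
    (k₁ : ∀ y : E, P.Int y → P.Int (resD E D₁ hD₁ y))
    (k₂ : ∀ y : E, P.Int y → Ge P ρ (resD E D₂ hD₂ y)) :
    ∃ x : E, (x : ℂ) = (S.map fun p => tau ω D₁ D₂ p).sum ∧ Ge P ρ x := by
  induction S using Multiset.induction_on with
  | empty => exact ⟨0, by simp, Or.inl rfl⟩
  | cons p S ih =>
    obtain ⟨x, hx, hx'⟩ := ih (fun q hq => hS q (Multiset.mem_cons_of_mem hq))
      (fun q hq => hSF q (Multiset.mem_cons_of_mem hq))
    obtain ⟨q, hq⟩ := exists_spE P (hS p (Multiset.mem_cons_self _ _))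
    obtain ⟨y, hy, hy', -⟩ := mum_loc hF hFL ω hL P hD₁ hD₂ h₁ h₂
      (hSF p (Multiset.mem_cons_self _ _)) hq
    refine ⟨y + x, ?_, (hy' ρ k₁ k₂).add hx'⟩
    rw [Multiset.map_cons, Multiset.sum_cons, ← hy, ← hx]
    rfl

theorem mum_sum_val (hF : ∀ i, (F i).IsHomogeneous (d i)) (hL : κ ≤ C₀)
    (hFL : ∀ i, Coef κ (F i)) (ω : HForm F κ)
    (P : Place C₀ E) {D₁ D₂ δ₁ δ₂ : Derivation ℤ ℂ ℂ}
    (hD₁ : ∀ x ∈ E, D₁ x ∈ E) (hD₂ : ∀ x ∈ E, D₂ x ∈ E) (h₁ : Kills κ D₁) (h₂ : Kills κ D₂)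
    (e₁ : Kills κ δ₁) (e₂ : Kills κ δ₂)
    {S : Multiset (PN n)} (hSF : ∀ p ∈ S, p ∈ ciS F) {g : PN n → PN n}
    (hg : ∀ p ∈ S, SpE P p (g p))
    (k₁ : ∀ (y : E) (c : C₀), P.IsVal y c → ∃ c' : C₀, (c' : ℂ) = δ₁ c ∧
      P.IsVal (resD E D₁ hD₁ y) c')
    (k₂ : ∀ (y : E) (c : C₀), P.IsVal y c → ∃ c' : C₀, (c' : ℂ) = δ₂ c ∧
      P.IsVal (resD E D₂ hD₂ y) c') :
    ∃ (x : E) (c : C₀), (x : ℂ) = (S.map fun p => tau ω D₁ D₂ p).sum ∧
      (c : ℂ) = ((S.map g).map fun p => tau ω δ₁ δ₂ p).sum ∧ P.IsVal x c := by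
  induction S using Multiset.induction_on with
  | empty => exact ⟨0, 0, by simp, by simp, by
      have := P.isVal_const (0 : C₀)
      rwa [map_zero] at this⟩
  | cons p S ih =>
    obtain ⟨x, c, hx, hc, hx'⟩ := ih (fun q hq => hSF q (Multiset.mem_cons_of_mem hq))
      (fun q hq => hg q (Multiset.mem_cons_of_mem hq))
    obtain ⟨y, hy, -, hy'⟩ := mum_loc hF hFL ω hL P hD₁ hD₂ h₁ h₂
      (hSF p (Multiset.mem_cons_self _ _)) (hg p (Multiset.mem_cons_self _ _))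
    obtain ⟨b, hb, hb'⟩ := hy' δ₁ δ₂ e₁ e₂ k₁ k₂
    refine ⟨y + x, b + c, ?_, ?_, hb'.add hx'⟩
    · rw [Multiset.map_cons, Multiset.sum_cons, ← hy, ← hx]
      rfl
    · rw [Multiset.map_cons, Multiset.map_cons, Multiset.sum_cons, ← hb, ← hc]
      rfl

end local_

/-- The sum of the values of the two-form over the points of a family is integral at all
places. -/
theorem mum_int (hF : ∀ i, (F i).IsHomogeneous (d i)) (ω : HForm F κ) {C₀ : Fl} [Countable C₀]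
    (hC : clo C₀ = C₀)
    (hL : κ ≤ C₀) (hFL : ∀ i, Coef κ (F i)) {t : ℂ} (ht : t ∉ C₀) {E : IntermediateField C₀ ℂ}
    (htE : t ∈ E) (hEc : ∀ x ∈ E, x ∈ clo (adj C₀ {t}))
    (htr : Transcendental C₀ (⟨t, htE⟩ : E))
    [FiniteDimensional (IntermediateField.adjoin C₀ {(⟨t, htE⟩ : E)}) E]
    (hmem : ∀ x : E, x ∈ IntermediateField.adjoin C₀ {(⟨t, htE⟩ : E)} ↔ (x : ℂ) ∈ adj C₀ {t})
    {D₁ D₂ : Derivation ℤ ℂ ℂ} (h₁ : Kills κ D₁) (h₂ : Kills κ D₂)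
    (c₁ : ∀ c ∈ C₀, D₁ c ∈ C₀) (c₂ : ∀ c ∈ C₀, D₂ c ∈ C₀) (t₁ : D₁ t = 0) (t₂ : D₂ t = 0)
    {S : Multiset (PN n)} (hS : ∀ p ∈ S, OvE E p) (hSc : ∀ p ∈ S, Over (clo (adj C₀ {t})) p)
    (hSF : ∀ p ∈ S, p ∈ ciS F)
    (hSs : ∀ σ ∈ VGS.Fix (adj C₀ {t}), S.map (act σ) = S) (P : Place C₀ E) :
    ∃ x : E, (x : ℂ) = (S.map fun p => tau ω D₁ D₂ p).sum ∧ P.Int x := by
  have hac : IsAlgClosed C₀ := by
    have h3 := isAlgClosed_clo C₀
    rw [hC] at h3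
    exact h3
  have halg : ∀ x : E, Transcendental C₀ x →
      Algebra.IsAlgebraic (IntermediateField.adjoin C₀ {x}) E := fun x hx =>
    Pool.Agent.LowDeg.TraceValAux.alg_of_trans (⟨t, htE⟩ : E) x hx
  have hCE : ∀ c ∈ C₀, c ∈ E := fun c hc => E.algebraMap_mem ⟨c, hc⟩
  have hmemE : ∀ D : Derivation ℤ ℂ ℂ, (∀ c ∈ C₀, D c ∈ C₀) → D t ∈ C₀ → ∀ x ∈ E, D x ∈ E :=
    fun D hD hDt => mum_der_mem htE hEc D (fun c hc => hCE _ (hD c hc)) (hCE _ hDt)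
  have hD₁ := hmemE D₁ c₁ (by rw [t₁]; exact C₀.zero_mem)
  have hD₂ := hmemE D₂ c₂ (by rw [t₂]; exact C₀.zero_mem)
  by_cases hPt : P.Int (⟨t, htE⟩ : E)
  · -- a finite place
    obtain ⟨t₀, ht₀⟩ := hPt.exists_isVal
    obtain ⟨a, ha⟩ : ∃ a : E, a = (⟨t, htE⟩ : E) - algebraMap C₀ E t₀ := ⟨_, rfl⟩
    have haS : P.Sm a := by
      rw [ha]
      exact ht₀
    have haC : (a : ℂ) = t - t₀ := by
      rw [ha]
      rfl
    have ha0 : a ≠ 0 := by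
      intro h0
      apply ht
      have h3 : (a : ℂ) = 0 := by rw [h0]; rfl
      rw [haC, sub_eq_zero] at h3
      rw [h3]
      exact t₀.2
    obtain ⟨Dt, hdc, hdt⟩ := mum_exists_dt C₀ hC ht
    have hdL : Kills κ Dt := fun x hx => hdc x (hL hx)
    have hdcC : ∀ c ∈ C₀, Dt c ∈ C₀ := fun c hc => by rw [hdc c hc]; exact C₀.zero_mem
    have hdtC : Dt t ∈ C₀ := by rw [hdt]; exact C₀.one_mem
    have hdE := hmemE Dt hdcC hdtC
    have hmk : ∀ D : Derivation ℤ ℂ ℂ, Kills κ D → (∀ c ∈ C₀, D c ∈ C₀) → D t = 0 →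
        ∃ D' : Derivation ℤ ℂ ℂ, D = D' + (-D t₀) • Dt ∧ Kills κ D' ∧ (∀ c ∈ C₀, D' c ∈ C₀) ∧
          D' t ∈ C₀ ∧ D' a = 0 := by
      intro D hDL hDc hDt
      refine ⟨D + (D t₀) • Dt, ?_, ?_, ?_, ?_, ?_⟩
      · ext x
        simp only [Derivation.add_apply, Derivation.smul_apply, smul_eq_mul]
        ring
      · intro x hx
        rw [Derivation.add_apply, Derivation.smul_apply, hDL x hx, hdL x hx, smul_zero, add_zero]
      · intro c hc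
        rw [Derivation.add_apply, Derivation.smul_apply, hdc c hc, smul_zero, add_zero]
        exact hDc c hc
      · rw [Derivation.add_apply, Derivation.smul_apply, hDt, hdt, smul_eq_mul, mul_one, zero_add]
        exact hDc _ t₀.2
      · rw [haC, map_sub, Derivation.add_apply, Derivation.smul_apply, Derivation.add_apply,
          Derivation.smul_apply, hDt, hdt, hdc _ t₀.2]
        simp
    obtain ⟨D₁', g₁, l₁, m₁, n₁, o₁⟩ := hmk D₁ h₁ c₁ t₁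
    obtain ⟨D₂', g₂, l₂, m₂, n₂, o₂⟩ := hmk D₂ h₂ c₂ t₂
    have hD₁' := hmemE D₁' m₁ n₁
    have hD₂' := hmemE D₂' m₂ n₂
    obtain ⟨G₁, -⟩ := mum_good P hD₁' m₁ a ha0 haS o₁ halg
    obtain ⟨G₂, -⟩ := mum_good P hD₂' m₂ a ha0 haS o₂ halg
    have G₃ : ∀ y : E, P.Int y → Ge P (1 - P.ord a) (resD E Dt hdE y) := by
      intro y hy
      have h3 := mum_ge_der (⟨t, htE⟩ : E) htr P t₀ ht₀ (resD E Dt hdE)
        (fun c => ⟨0, by
          rw [map_zero]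
          exact Subtype.ext (hdc c c.2)⟩)
        (by
          have h4 : resD E Dt hdE (⟨t, htE⟩ : E) = 1 := Subtype.ext hdt
          rw [h4]
          exact P.int_one) y hy
      rw [ha]
      exact h3
    obtain ⟨x₀, hx₀, hx₀'⟩ := mum_sum_ge (ρ := 0) hF hL hFL ω P hD₁' hD₂' l₁ l₂ hS hSF G₁
      (fun y hy => G₂ y hy)
    obtain ⟨x₁, hx₁, hx₁'⟩ := mum_sum_ge (ρ := 1 - P.ord a) hF hL hFL ω P hD₂' hdE l₂ hdL
      hS hSF G₂ G₃
    obtain ⟨x₂, hx₂, hx₂'⟩ := mum_sum_ge (ρ := 1 - P.ord a) hF hL hFL ω P hD₁' hdE l₁ hdL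
      hS hSF G₁ G₃
    have i₁ : P.Int x₁ := by
      refine mum_int_of_ge (⟨t, htE⟩ : E) htr P t₀ ht₀ x₁ ?_ (by rw [← ha]; exact hx₁')
      rw [hmem, hx₁]
      exact mum_gal hF ω hL m₂ hdcC n₂ hdtC hSc hSs
    have i₂ : P.Int x₂ := by
      refine mum_int_of_ge (⟨t, htE⟩ : E) htr P t₀ ht₀ x₂ ?_ (by rw [← ha]; exact hx₂')
      rw [hmem, hx₂]
      exact mum_gal hF ω hL m₁ hdcC n₁ hdtC hSc hSs
    obtain ⟨a₁, ha₁⟩ : ∃ a₁ : C₀, (a₁ : ℂ) = D₁ t₀ := ⟨⟨D₁ t₀, c₁ _ t₀.2⟩, rfl⟩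
    obtain ⟨a₂, ha₂⟩ : ∃ a₂ : C₀, (a₂ : ℂ) = D₂ t₀ := ⟨⟨D₂ t₀, c₂ _ t₀.2⟩, rfl⟩
    refine ⟨x₀ + algebraMap C₀ E a₁ * x₁ + algebraMap C₀ E (-a₂) * x₂, ?_, ?_⟩
    · have h3 := mum_ms_sum_add S (fun p => tau ω D₁ D₂ p) (fun p => tau ω D₁' D₂' p)
        (fun p => tau ω D₂' Dt p) (fun p => tau ω D₁' Dt p) (D₁ t₀) (-D₂ t₀) (by
          intro p hp
          have hp' := hSF p hp
          have q₁ : Kills κ (D₁' + (-D₁ t₀) • Dt) := by rw [← g₁]; exact h₁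
          have e1 : tau ω D₁ D₂ p = tau ω (D₁' + (-D₁ t₀) • Dt) (D₂' + (-D₂ t₀) • Dt) p := by
            rw [← g₁, ← g₂]
          change tau ω D₁ D₂ p = tau ω D₁' D₂' p + _ * tau ω D₂' Dt p + _ * tau ω D₁' Dt p
          rw [e1, tau_add, tau_add', tau_add', tau_self, tau_swap ω D₂' Dt]
          ring)
      rw [h3, ← hx₀, ← hx₁, ← hx₂, ← ha₁, ← ha₂]
      rfl
    · exact ((show P.Int x₀ from hx₀').add ((P.int_const a₁).mul i₁)).add
        ((P.int_const (-a₂)).mul i₂)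
  · -- an infinite place
    have hS' : P.Sm (⟨t, htE⟩ : E)⁻¹ := Place.sm_inv_of_not_int hPt
    have ha0 : (⟨t, htE⟩ : E)⁻¹ ≠ 0 := by
      intro h0
      rw [inv_eq_zero] at h0
      apply ht
      have h3 : t = 0 := congrArg Subtype.val h0
      rw [h3]
      exact C₀.zero_mem
    have hz : ∀ D : Derivation ℤ ℂ ℂ, D t = 0 → D (((⟨t, htE⟩ : E)⁻¹ : E) : ℂ) = 0 := by
      intro D hD
      have h3 : (((⟨t, htE⟩ : E)⁻¹ : E) : ℂ) = t⁻¹ := rfl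
      rw [h3, Derivation.leibniz_inv, hD, smul_zero]
    obtain ⟨G₁, -⟩ := mum_good P hD₁ c₁ _ ha0 hS' (hz _ t₁) halg
    obtain ⟨G₂, -⟩ := mum_good P hD₂ c₂ _ ha0 hS' (hz _ t₂) halg
    exact mum_sum_ge (ρ := 0) hF hL hFL ω P hD₁ hD₂ h₁ h₂ hS hSF G₁ (fun y hy => G₂ y hy)

theorem mum_isCh_act {G : MvPolynomial (Fin n) ℂ} {s : Multiset (PN n)}
    (h : IsCh G s) (σ : ℂ ≃+* ℂ) : IsCh (map (σ : ℂ →+* ℂ) G) (s.map (act σ)) := h.map σ

theorem mum_coef_eval {L : Fl} {Φ : Polynomial (MvPolynomial (Fin n) ℂ)}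
    (hΦ : ∀ i, Coef L (Φ.coeff i)) {t : ℂ} (ht : t ∈ L) : Coef L (Φ.eval (C t)) := by
  intro m
  rw [Polynomial.eval_eq_sum_range, coeff_sum]
  refine L.sum_mem fun i _ => ?_
  rw [← C_pow, mul_comm, coeff_C_mul]
  exact L.mul_mem (L.pow_mem ht i) (hΦ i m)

/-- invariance of the sum of the values of a two-form in a family -/
theorem mum_link (hF : ∀ i, (F i).IsHomogeneous (d i)) [Countable κ]
    (hFL : ∀ i, Coef κ (F i)) (ω : HForm F κ)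
    {D₁ D₂ : Derivation ℤ ℂ ℂ} (h₁ : Kills κ D₁) (h₂ : Kills κ D₂)
    {s₀ s₁ : Multiset (ciS F)}
    (hlink : IsLink (ciS F) s₀ s₁) :
    ((s₀.map Subtype.val).map fun p => tau ω D₁ D₂ p).sum =
      ((s₁.map Subtype.val).map fun p => tau ω D₁ D₂ p).sum := by
  classical
  obtain ⟨Φ, hΦev, hΦ0, hΦ1⟩ := hlink
  -- the field `C₀`
  rw [Filter.eventually_cofinite] at hΦev
  obtain ⟨T, hT⟩ : ∃ T : Set ℂ, T = {t : ℂ | ¬ ∃ s : Multiset (ciS F),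
      IsChowForm (ciS F) (Φ.eval (C t)) s} ∪
      (Set.range fun im : ℕ × (Fin n →₀ ℕ) => coeff im.2 (Φ.coeff im.1)) := ⟨_, rfl⟩
  have hTc : Countable T := by
    rw [hT]
    exact (hΦev.countable.union (Set.countable_range _))
  obtain ⟨C₀, hC₀c, hLC', hC, hst⟩ := exists_stable_field (adj κ T) D₁ D₂
  have hL : κ ≤ C₀ := (le_adj _ _).trans hLC'
  have hTC : ∀ x ∈ T, x ∈ C₀ := fun x hx => hLC' (subset_adj _ _ hx)
  have hΦC : ∀ i, Coef C₀ (Φ.coeff i) := fun i m => hTC _ (by rw [hT]; exact Or.inr ⟨(i, m), rfl⟩)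
  have hac : IsAlgClosed C₀ := by
    have h3 := isAlgClosed_clo C₀
    rw [hC] at h3
    exact h3
  obtain ⟨t, ht⟩ := exists_notMem C₀
  obtain ⟨s, hs⟩ : ∃ s : Multiset (ciS F), IsChowForm (ciS F) (Φ.eval (C t)) s := by
    by_contra hcon
    exact ht (hTC t (by rw [hT]; exact Or.inl hcon))
  obtain ⟨S, hSdef⟩ : ∃ S : Multiset (PN n), S = s.map Subtype.val := ⟨_, rfl⟩
  have hSch : IsCh (Φ.eval (C t)) S := by
    rw [hSdef]
    exact hs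
  have hSF : ∀ p ∈ S, p ∈ ciS F := by
    intro p hp
    rw [hSdef, Multiset.mem_map] at hp
    obtain ⟨q, -, rfl⟩ := hp
    exact q.2
  -- stability
  have hSs : ∀ σ ∈ VGS.Fix (adj C₀ {t}), S.map (act σ) = S := by
    intro σ hσ
    have h3 := mum_isCh_act hSch σ
    have h4 : map (σ : ℂ →+* ℂ) (Φ.eval (C t)) = Φ.eval (C t) := by
      ext m
      rw [coeff_map]
      exact hσ _ (mum_coef_eval (L := adj C₀ {t}) (fun i => (hΦC i).mono (le_adj _ _))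
        (subset_adj _ _ rfl) m)
    rw [h4] at h3
    exact h3.unique hSch
  have hSc : ∀ p ∈ S, Over (clo (adj C₀ {t})) p := by
    intro p hp
    apply over_clo_of_finite
    refine Set.Finite.subset (S.toFinset.finite_toSet) ?_
    rintro q ⟨σ, hσ, rfl⟩
    rw [Finset.mem_coe, Multiset.mem_toFinset, ← hSs σ hσ]
    exact Multiset.mem_map_of_mem _ hp
  -- the field `E`
  have hcoord : ∀ p : PN n, ∃ z : Fin n → ℂ, p ∈ S → (∀ i, z i ∈ clo (adj C₀ {t})) ∧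
      ∃ hz : z ≠ 0, p = Projectivization.mk ℂ z hz := by
    intro p
    by_cases hp : p ∈ S
    · obtain ⟨z, hz, h3, h4⟩ := hSc p hp
      exact ⟨z, fun _ => ⟨h3, hz, h4⟩⟩
    · exact ⟨0, fun h => absurd h hp⟩
  choose zc hzc using hcoord
  obtain ⟨E, htE, hTE, hEc, htr, hfin, hmem⟩ := mum_exists_E C₀ hC ht
    (S.toFinset.biUnion fun p => Finset.univ.image (zc p)) (by
      intro x hx
      rw [Finset.mem_biUnion] at hx
      obtain ⟨p, hp, hx⟩ := hx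
      rw [Multiset.mem_toFinset] at hp
      rw [Finset.mem_image] at hx
      obtain ⟨i, -, rfl⟩ := hx
      exact (hzc p hp).1 i)
  have hS : ∀ p ∈ S, OvE E p := by
    intro p hp
    obtain ⟨-, hz, h3⟩ := hzc p hp
    refine ⟨fun i => ⟨zc p i, hTE _ ?_⟩, hz, h3⟩
    rw [Finset.mem_biUnion]
    exact ⟨p, Multiset.mem_toFinset.2 hp, Finset.mem_image_of_mem _ (Finset.mem_univ i)⟩
  -- the derivations
  obtain ⟨Dt, hdc, hdt⟩ := mum_exists_dt C₀ hC ht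
  have hmk : ∀ D : Derivation ℤ ℂ ℂ, Kills κ D → (∀ c ∈ C₀, D c ∈ C₀) →
      ∃ D' : Derivation ℤ ℂ ℂ, Kills κ D' ∧ (∀ c ∈ C₀, D' c = D c) ∧ D' t = 0 := by
    intro D hDL hDc
    refine ⟨D + (-D t) • Dt, ?_, ?_, ?_⟩
    · intro x hx
      rw [Derivation.add_apply, Derivation.smul_apply, hDL x hx, hdc x (hL hx), smul_zero,
        add_zero]
    · intro c hc
      rw [Derivation.add_apply, Derivation.smul_apply, hdc c hc, smul_zero, add_zero]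
    · rw [Derivation.add_apply, Derivation.smul_apply, hdt]
      simp
  obtain ⟨D₁', l₁, m₁, n₁⟩ := hmk D₁ h₁ fun c hc => (hst c hc).1
  obtain ⟨D₂', l₂, m₂, n₂⟩ := hmk D₂ h₂ fun c hc => (hst c hc).2
  have q₁ : ∀ c ∈ C₀, D₁' c ∈ C₀ := fun c hc => by rw [m₁ c hc]; exact (hst c hc).1
  have q₂ : ∀ c ∈ C₀, D₂' c ∈ C₀ := fun c hc => by rw [m₂ c hc]; exact (hst c hc).2
  have hCE : ∀ c ∈ C₀, c ∈ E := fun c hc => E.algebraMap_mem ⟨c, hc⟩
  have hD₁ := mum_der_mem htE hEc D₁' (fun c hc => hCE _ (q₁ c hc))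
    (by rw [n₁]; exact E.zero_mem)
  have hD₂ := mum_der_mem htE hEc D₂' (fun c hc => hCE _ (q₂ c hc))
    (by rw [n₂]; exact E.zero_mem)
  have halg : ∀ x : E, Transcendental C₀ x →
      Algebra.IsAlgebraic (IntermediateField.adjoin C₀ {x}) E := fun x hx =>
    Pool.Agent.LowDeg.TraceValAux.alg_of_trans (⟨t, htE⟩ : E) x hx
  -- the sum is constant
  have hint : ∀ P : Place C₀ E, ∃ x : E, (x : ℂ) = (S.map fun p => tau ω D₁' D₂' p).sum ∧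
      P.Int x := fun P =>
    mum_int hF ω hC hL hFL ht htE hEc htr hmem l₁ l₂ q₁ q₂ n₁ n₂ hS hSc hSF hSs P
  -- the value at a place over `t₀`
  have hval : ∀ (t₀ : C₀) (s' : Multiset (ciS F)), D₁ t₀ = 0 → D₂ t₀ = 0 →
      IsChowForm (ciS F) (Φ.eval (C (t₀ : ℂ))) s' → ∃ (P : Place C₀ E) (x : E) (c : C₀),
      (x : ℂ) = (S.map fun p => tau ω D₁' D₂' p).sum ∧
      (c : ℂ) = ((s'.map Subtype.val).map fun p => tau ω D₁ D₂ p).sum ∧ P.IsVal x c := by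
    intro t₀ s' z₁ z₂ hs'
    obtain ⟨a, ha⟩ : ∃ a : E, a = (⟨t, htE⟩ : E) - algebraMap C₀ E t₀ := ⟨_, rfl⟩
    have haC : (a : ℂ) = t - t₀ := by
      rw [ha]
      rfl
    have hatr : Transcendental C₀ a := by
      intro h3
      apply htr
      have h4 := h3.add (isAlgebraic_algebraMap (R := C₀) (A := E) t₀)
      rw [ha, sub_add_cancel] at h4
      exact h4
    have ha0 : a ≠ 0 := by
      rintro rfl
      exact hatr isAlgebraic_zero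
    have hfa : FiniteDimensional (IntermediateField.adjoin C₀ {a}) E :=
      Pool.Agent.LowDeg.TraceValAux.findim_of_trans (⟨t, htE⟩ : E) a hatr
    obtain ⟨P, hP⟩ := mum_exists_sm a hatr
    have hDa : ∀ D D' : Derivation ℤ ℂ ℂ, (∀ c ∈ C₀, D' c = D c) → D' t = 0 → D t₀ = 0 →
        D' a = 0 := by
      intro D D' e1 e2 e3
      rw [haC, map_sub, e2, e1 _ t₀.2, e3, sub_zero]
    obtain ⟨-, G₁⟩ := mum_good P hD₁ q₁ a ha0 hP (hDa _ _ m₁ n₁ z₁) halg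
    obtain ⟨-, G₂⟩ := mum_good P hD₂ q₂ a ha0 hP (hDa _ _ m₂ n₂ z₂) halg
    have hg : ∀ p : PN n, ∃ q : PN n, p ∈ S → SpE P p q := by
      intro p
      by_cases hp : p ∈ S
      · obtain ⟨q, hq⟩ := exists_spE P (hS p hp)
        exact ⟨q, fun _ => hq⟩
      · exact ⟨p, fun h => absurd h hp⟩
    choose g hg using hg
    obtain ⟨x, c, hx, hc, hxc⟩ := mum_sum_val hF hL hFL ω P hD₁ hD₂ l₁ l₂ h₁ h₂ hSF hg
      (δ₁ := D₁) (δ₂ := D₂)
      (fun y c h => by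
        obtain ⟨c', h3, h4⟩ := G₁ y c h
        exact ⟨c', by rw [h3, m₁ _ c.2], h4⟩)
      (fun y c h => by
        obtain ⟨c', h3, h4⟩ := G₂ y c h
        exact ⟨c', by rw [h3, m₂ _ c.2], h4⟩)
    refine ⟨P, x, c, hx, ?_, hxc⟩
    have hne : Φ.eval (C (t₀ : ℂ)) ≠ 0 := by
      obtain ⟨b, hb, hb'⟩ := hs'
      rw [hb']
      exact mul_ne_zero (by simpa using hb) (VCI.chowForm_ne_zero' _)
    have h3 := mum_limit P htE t₀.2 (by rw [ha] at hP; exact hP) Φ hΦC S hS hSch hne g hg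
    have h4 : IsCh (Φ.eval (C (t₀ : ℂ))) (s'.map Subtype.val) := hs'
    rw [hc, h3.unique h4]
  have hder0 : ∀ D : Derivation ℤ ℂ ℂ, D ((0 : C₀) : ℂ) = 0 := fun D => by
    change D 0 = 0
    rw [map_zero]
  have hder1 : ∀ D : Derivation ℤ ℂ ℂ, D ((1 : C₀) : ℂ) = 0 := fun D => by
    change D 1 = 0
    rw [Derivation.map_one_eq_zero]
  obtain ⟨P₀, x₀, c₀, hx₀, hc₀, v₀⟩ := hval 0 s₀ (hder0 _) (hder0 _) hΦ0
  obtain ⟨P₁, x₁, c₁, hx₁, hc₁, v₁⟩ := hval 1 s₁ (hder1 _) (hder1 _) hΦ1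
  have hxx : x₀ = x₁ := Subtype.ext (hx₀.trans hx₁.symm)
  obtain ⟨c, hc⟩ := mum_const (⟨t, htE⟩ : E) htr x₀ (fun P => by
    obtain ⟨x, hx, hx'⟩ := hint P
    have h3 : x = x₀ := Subtype.ext (hx.trans hx₀.symm)
    rwa [h3] at hx')
  have e₀ : c₀ = c := v₀.unique (by rw [hc]; exact P₀.isVal_const c)
  have e₁ : c₁ = c := v₁.unique (by rw [← hxx, hc]; exact P₁.isVal_const c)
  rw [← hc₀, ← hc₁, e₀, e₁]

theorem tauC_cycQ (ω : HForm F κ) (D₁ D₂ : Derivation ℤ ℂ ℂ) (s : Multiset (PN n)) :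
    tauC ω D₁ D₂ (cycQ s) = (s.map fun p => tau ω D₁ D₂ p).sum := by
  unfold cycQ
  rw [map_multiset_sum, Multiset.map_map]
  congr 1
  refine Multiset.map_congr rfl fun p _ => ?_
  change tauC ω D₁ D₂ (Finsupp.single p 1) = _
  rw [tauC_single, one_smul]

/-- **Mumford's lemma.** -/
theorem mumford {F : Fin m → MvPolynomial (Fin n) ℂ} {d : Fin m → ℕ}
    (hF : ∀ i, (F i).IsHomogeneous (d i)) {κ : Fl} [Countable κ] (hFκ : ∀ i, Coef κ (F i))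
    (ω : HForm F κ) {D₁ D₂ : Derivation ℤ ℂ ℂ} (h₁ : Kills κ D₁) (h₂ : Kills κ D₂) {z : Cy n}
    (hz : z ∈ ratQ F) : tauC ω D₁ D₂ z = 0 := by
  unfold ratQ at hz
  induction hz using Submodule.span_induction with
  | mem z hz =>
    obtain ⟨s₀, s₁, hlink, rfl⟩ := hz
    rw [map_sub, tauC_cycQ, tauC_cycQ, mum_link hF hFκ ω h₁ h₂ hlink, sub_self]
  | zero => rw [map_zero]
  | add x y _ _ hx hy => rw [map_add, hx, hy, add_zero]
  | smul c x _ hx => rw [map_smul, hx, smul_zero]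

end Pool.Agent.VRC
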