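import Pool.Agent.VRC.Base
import Pool.Agent.VRC.Tau

/-! Two-forms on a smooth surface: a form which is not zero is not zero at generic points. -/

set_option autoImplicit false

open scoped LinearAlgebra.Projectivization
open MvPolynomial

namespace Pool.Agent.VRC

open Pool.Agent.VGS (Fl adj clo Coef Kills conjD conjD_kills exists_kills le_adj le_clo subset_adj
  adj_le clo_mono ai_mono)
open Pool.Agent.VCI (PN Gen Over act gen_nrm)

variable {m r : ℕ} {F : Fin m → MvPolynomial (Fin (r + 3)) ℂ} {d : Fin m → ℕ} {K : Fl}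

/-- derivations over `K` with the same values at two elements are equal on the closure of the field
which they generate -/
theorem der_eq_of_pair {D D' : Derivation ℤ ℂ ℂ} (hD : Kills K D) (hD' : Kills K D') {x y : ℂ}
    (hx : D x = D' x) (hy : D y = D' y) : ∀ w ∈ clo (adj K {x, y}), D w = D' w := by
  have h1 : Kills (adj K {x, y}) (D - D') := by
    have h2 : adj K {x, y} ≤ kerD (κ := K) (D := D - D') (fun w hw => by
        rw [Derivation.sub_apply, hD w hw, hD' w hw, sub_self]) := by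
      apply adj_le
      · intro w hw
        change (D - D') w = 0
        rw [Derivation.sub_apply, hD w hw, hD' w hw, sub_self]
      · rintro w (rfl | rfl)
        · change (D - D') w = 0
          rw [Derivation.sub_apply, hx, sub_self]
        · change (D - D') w = 0
          rw [Derivation.sub_apply, hy, sub_self]
    exact fun w hw => h2 hw
  intro w hw
  have h2 := VCI.DomAux.kills_clo h1 w hw
  rw [Derivation.sub_apply] at h2
  exact sub_eq_zero.1 h2

/-- A form which is not zero is not zero at the generic points over any bigger field. -/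
theorem exists_tau_ne (hX : Sfc0 F d K) (ω : HForm F (clo K))
    (hne : ∃ p ∈ Gen K F, ∃ D₁ D₂ : Derivation ℤ ℂ ℂ, Kills K D₁ ∧ Kills K D₂ ∧
      tau ω D₁ D₂ p ≠ 0) (L : Fl) [Countable L] (hL : K ≤ L) {p : PN (r + 3)}
    (hp : p ∈ Gen L F) : ∃ D₁ D₂ : Derivation ℤ ℂ ℂ, Kills L D₁ ∧ Kills L D₂ ∧
      tau ω D₁ D₂ p ≠ 0 := by
  obtain ⟨q, hq, E₁, E₂, hE₁, hE₂, hne⟩ := hne
  have hpK : p ∈ Gen K F := by
    obtain ⟨h0, i, j, l, hi, h⟩ := hp
    exact ⟨h0, i, j, l, hi, ai_mono hL h⟩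
  obtain ⟨σ, hσ, hσq⟩ := hX.conj K hX.cK le_rfl q hq p hpK
  have hσK : σ ∈ VGS.Fix K := fun x hx => hσ x (le_clo K hx)
  have hval : tau ω (conjD σ E₁) (conjD σ E₂) p ≠ 0 := by
    rw [← hσq, tau_act hX.hom ω hσ]
    exact fun h => hne ((map_eq_zero_iff σ σ.injective).1 h)
  have hG₁ := conjD_kills hσK hE₁
  have hG₂ := conjD_kills hσK hE₂
  obtain ⟨z, hz, i, j, l, hi, hpz, hzF, hai⟩ := gen_nrm hX.hom hp
  have haiK : AlgebraicIndependent K ![z j, z l] := ai_mono hL hai
  have hm : ∀ s, z s ∈ clo (adj K (Set.range z)) := fun s => le_clo _ (subset_adj _ _ ⟨s, rfl⟩)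
  have hzM : ∀ s, z s ∈ clo (adj K {z j, z l}) := fun s =>
    hX.alg_pair le_rfl ⟨hz, hzF⟩ hi (hm j) (hm l) haiK (hm s)
  obtain ⟨D₁, hD₁, hj₁, hl₁⟩ := exists_kills L hai (conjD σ E₁ (z j)) (conjD σ E₁ (z l))
  obtain ⟨D₂, hD₂, hj₂, hl₂⟩ := exists_kills L hai (conjD σ E₂ (z j)) (conjD σ E₂ (z l))
  refine ⟨D₁, D₂, hD₁, hD₂, ?_⟩
  rw [tau_congr ω (clo_mono (le_adj K {z j, z l})) ⟨z, hz, hzM, hpz⟩
    (der_eq_of_pair (fun x hx => hD₁ x (hL hx)) hG₁ hj₁ hl₁)
    (der_eq_of_pair (fun x hx => hD₂ x (hL hx)) hG₂ hj₂ hl₂)]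
  exact hval

end Pool.Agent.VRC
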