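import Pool.Agent.VRC.LinA

/-! Surfaces in rationally connected varieties: two independent generic points of the surface are
independent generic points of the variety. -/

set_option autoImplicit false

open scoped LinearAlgebra.Projectivization
open MvPolynomial

namespace Pool.Agent.VRC

open Pool.Agent.VGS (Fl adj clo Coef Kills IsPl Sp le_adj le_clo subset_adj adj_le clo_mono ai_mono
  ai_iff ai_sum mem_clo mem_clo_adj adj_adj ai_clo clo_clo aeval_mem exists_algInd clo_adj_le)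
open Pool.Agent.VCI

variable {m n r : ℕ}

theorem eqs_nat {s c : ℕ} {M : Fin c → ℕ} (h : Fin s → MvPolynomial (Fin n) ℂ)
    (g : (i : Fin c) → Fin (M i) → MvPolynomial (Fin n) ℂ) (a : (i : Fin c) → Fin (M i) → ℂ)
    (i : Fin c) : eqs h g a (Fin.natAdd s i) = ∑ l, C (a i l) * g i l := by
  unfold eqs
  rw [Fin.append_right]

theorem eqs_cast {s c : ℕ} {M : Fin c → ℕ} (h : Fin s → MvPolynomial (Fin n) ℂ)
    (g : (i : Fin c) → Fin (M i) → MvPolynomial (Fin n) ℂ) (a : (i : Fin c) → Fin (M i) → ℂ)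
    (j : Fin s) : eqs h g a (Fin.castAdd c j) = h j := by
  unfold eqs
  rw [Fin.append_left]

theorem cone_eqs {s c : ℕ} {M : Fin c → ℕ} {h : Fin s → MvPolynomial (Fin n) ℂ}
    {g : (i : Fin c) → Fin (M i) → MvPolynomial (Fin n) ℂ} {a : (i : Fin c) → Fin (M i) → ℂ}
    {z : Fin n → ℂ} (hz : z ∈ cone (eqs h g a)) :
    z ∈ cone h ∧ ∀ i, ∑ l, a i l * aeval z (g i l) = 0 := by
  refine ⟨⟨hz.1, fun j => ?_⟩, fun i => ?_⟩
  · have h1 := hz.2 (Fin.castAdd c j)
    rw [eqs_cast] at h1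
    exact h1
  · have h1 := hz.2 (Fin.natAdd s i)
    rw [eqs_nat, map_sum] at h1
    rw [← h1]
    refine Finset.sum_congr rfl fun l _ => ?_
    rw [map_mul, aeval_C]
    rfl

/-- two of the numbers with `∑ a p = ∑ a q = 0` are in the field generated by the others -/
theorem solve_two {ι : Type} [Fintype ι] [DecidableEq ι] {Y : Fl} {a p q : ι → ℂ}
    (h1 : ∑ l, a l * p l = 0) (h2 : ∑ l, a l * q l = 0) (hp : ∀ l, p l ∈ Y) (hq : ∀ l, q l ∈ Y)
    {l₁ l₂ : ι} (hd : p l₁ * q l₂ ≠ p l₂ * q l₁) (ha : ∀ l, l ≠ l₁ → l ≠ l₂ → a l ∈ Y) (l : ι) :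
    a l ∈ Y := by
  have hne : l₂ ≠ l₁ := by
    rintro rfl
    exact hd rfl
  have hsplit : ∀ f : ι → ℂ, ∑ l, f l = f l₁ + f l₂ + ∑ l ∈ (Finset.univ.erase l₁).erase l₂, f l := by
    intro f
    rw [← Finset.add_sum_erase Finset.univ f (Finset.mem_univ l₁),
      ← Finset.add_sum_erase (Finset.univ.erase l₁) f
        (Finset.mem_erase.2 ⟨hne, Finset.mem_univ _⟩)]
    ring
  rw [hsplit] at h1 h2
  have hS : ∑ l ∈ (Finset.univ.erase l₁).erase l₂, a l * p l ∈ Y :=
    sum_mem fun l hl => by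
      rw [Finset.mem_erase, Finset.mem_erase] at hl
      exact mul_mem (ha l hl.2.1 hl.1) (hp l)
  have hT : ∑ l ∈ (Finset.univ.erase l₁).erase l₂, a l * q l ∈ Y :=
    sum_mem fun l hl => by
      rw [Finset.mem_erase, Finset.mem_erase] at hl
      exact mul_mem (ha l hl.2.1 hl.1) (hq l)
  set S := ∑ l ∈ (Finset.univ.erase l₁).erase l₂, a l * p l
  set T := ∑ l ∈ (Finset.univ.erase l₁).erase l₂, a l * q l
  have hΔ : p l₁ * q l₂ - p l₂ * q l₁ ≠ 0 := sub_ne_zero.2 hd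
  have e1 : a l₁ = (T * p l₂ - S * q l₂) / (p l₁ * q l₂ - p l₂ * q l₁) := by
    rw [eq_div_iff hΔ]
    linear_combination q l₂ * h1 - p l₂ * h2
  have e2 : a l₂ = (S * q l₁ - T * p l₁) / (p l₁ * q l₂ - p l₂ * q l₁) := by
    rw [eq_div_iff hΔ]
    linear_combination p l₁ * h2 - q l₁ * h1
  have hΔY : p l₁ * q l₂ - p l₂ * q l₁ ∈ Y :=
    sub_mem (mul_mem (hp _) (hq _)) (mul_mem (hp _) (hq _))
  by_cases h3 : l = l₁
  · rw [h3, e1]
    exact div_mem (sub_mem (mul_mem hT (hp _)) (mul_mem hS (hq _))) hΔY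
  by_cases h4 : l = l₂
  · rw [h4, e2]
    exact div_mem (sub_mem (mul_mem hS (hq _)) (mul_mem hT (hp _))) hΔY
  exact ha l h3 h4

theorem card_two {c : ℕ} {M : Fin c → ℕ} {l₁ l₂ : (i : Fin c) → Fin (M i)}
    (hne : ∀ i, l₁ i ≠ l₂ i) :
    Nat.card {l : (i : Fin c) × Fin (M i) // l.2 ≠ l₁ l.1 ∧ l.2 ≠ l₂ l.1} + 2 * c =
      Nat.card ((i : Fin c) × Fin (M i)) := by
  classical
  have h1 : Nat.card {l : (i : Fin c) × Fin (M i) // ¬ (l.2 ≠ l₁ l.1 ∧ l.2 ≠ l₂ l.1)} =
      2 * c := by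
    let e : Fin c ⊕ Fin c → {l : (i : Fin c) × Fin (M i) // ¬ (l.2 ≠ l₁ l.1 ∧ l.2 ≠ l₂ l.1)} :=
      Sum.elim (fun i => ⟨⟨i, l₁ i⟩, fun h => h.1 rfl⟩) (fun i => ⟨⟨i, l₂ i⟩, fun h => h.2 rfl⟩)
    have he : Function.Bijective e := by
      constructor
      · rintro (i | i) (j | j) hij
        · have h2 := congrArg (fun l => l.1.1) hij
          exact congrArg Sum.inl h2
        · have h2 := congrArg (fun l => l.1) hij
          simp only [e, Sum.elim_inl, Sum.elim_inr] at h2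
          obtain ⟨rfl, h3⟩ := Sigma.mk.inj h2
          exact absurd (eq_of_heq h3) (hne _)
        · have h2 := congrArg (fun l => l.1) hij
          simp only [e, Sum.elim_inl, Sum.elim_inr] at h2
          obtain ⟨rfl, h3⟩ := Sigma.mk.inj h2
          exact absurd (eq_of_heq h3).symm (hne _)
        · have h2 := congrArg (fun l => l.1.1) hij
          exact congrArg Sum.inr h2
      · rintro ⟨⟨i, l⟩, hl⟩
        by_cases h2 : l = l₁ i
        · subst h2
          exact ⟨Sum.inl i, rfl⟩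
        · have h3 : l = l₂ i := by
            by_contra h4
            exact hl ⟨h2, h4⟩
          subst h3
          exact ⟨Sum.inr i, rfl⟩
    rw [← Nat.card_congr (Equiv.ofBijective e he), Nat.card_sum]
    simp
    omega
  have h2 := Nat.card_congr (Equiv.sumCompl
    (fun l : (i : Fin c) × Fin (M i) => l.2 ≠ l₁ l.1 ∧ l.2 ≠ l₂ l.1))
  rw [Nat.card_sum, h1] at h2
  exact h2

/-- Two independent generic points of the surface have `2 c + 4` independent coordinates over the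
ground field. -/
theorem count_two {s c : ℕ} {M : Fin c → ℕ} {k K : Fl} {h : Fin s → MvPolynomial (Fin n) ℂ}
    {g : (i : Fin c) → Fin (M i) → MvPolynomial (Fin n) ℂ} {a : (i : Fin c) → Fin (M i) → ℂ}
    (hg : ∀ i l, Coef k (g i l))
    (hai : AlgebraicIndependent k fun il : (i : Fin c) × Fin (M i) => a il.1 il.2)
    (hK : K = adj k (Set.range fun il : (i : Fin c) × Fin (M i) => a il.1 il.2))
    {z z' : Fin n → ℂ} (hz : z ∈ cone (eqs h g a)) (hz' : z' ∈ cone (eqs h g a))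
    {j l j' l' : Fin n} (hjl : AlgebraicIndependent K ![z j, z l])
    (hjl' : AlgebraicIndependent (adj K (Set.range z)) ![z' j', z' l'])
    (hpar : ∀ i, ∃ l₁ l₂, aeval z (g i l₁) * aeval z' (g i l₂) ≠
      aeval z (g i l₂) * aeval z' (g i l₁))
    (htr : TrLe k (c + 2) z) (htr' : TrLe k (c + 2) z') :
    (∃ f : Fin (c + 2) → Fin n, (AlgebraicIndependent k fun b => z (f b)) ∧
        ∀ j, z j ∈ clo (adj k (Set.range fun b => z (f b)))) ∧
      ∃ f : Fin (c + 2) → Fin n, AlgebraicIndependent (adj k (Set.range z)) fun b => z' (f b) := by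
  classical
  obtain ⟨e, f, hf, hfz⟩ := lin_basis k z
  obtain ⟨e', f', hf', hfz'⟩ := lin_basis (adj k (Set.range z)) z'
  have he := htr.le_of_ai hf
  have he' := htr'.le_of_ai (ai_mono (le_adj _ _) hf')
  choose l₁ l₂ hd using hpar
  have hne : ∀ i, l₁ i ≠ l₂ i := by
    intro i hi
    apply hd i
    rw [hi]
  obtain ⟨-, hz1⟩ := cone_eqs hz
  obtain ⟨-, hz1'⟩ := cone_eqs hz'
  -- the independent family
  have hx : AlgebraicIndependent k (Sum.elim
      (fun il : (i : Fin c) × Fin (M i) => a il.1 il.2)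
      (Sum.elim ![z j, z l] ![z' j', z' l'])) := by
    rw [ai_sum, ← hK, ai_sum]
    refine ⟨hai, hjl, ai_mono ?_ hjl'⟩
    refine adj_le (le_adj _ _) ?_
    rintro _ ⟨b, rfl⟩
    refine subset_adj _ _ ?_
    fin_cases b
    · exact ⟨j, rfl⟩
    · exact ⟨l, rfl⟩
  -- the spanning family
  let A := {l : (i : Fin c) × Fin (M i) // l.2 ≠ l₁ l.1 ∧ l.2 ≠ l₂ l.1}
  let y : A ⊕ (Fin e ⊕ Fin e') → ℂ := Sum.elim (fun l => a l.1.1 l.1.2)
    (Sum.elim (fun b => z (f b)) (fun b => z' (f' b)))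
  obtain ⟨Y, hY⟩ : ∃ Y, Y = clo (adj k (Set.range y)) := ⟨_, rfl⟩
  have hkY : k ≤ Y := by
    rw [hY]
    exact (le_adj _ _).trans (le_clo _)
  have hyY : ∀ o, y o ∈ Y := by
    intro o
    rw [hY]
    exact le_clo _ (subset_adj _ _ ⟨o, rfl⟩)
  have hYc : clo Y = Y := by rw [hY, clo_clo]
  have hzY : ∀ j, z j ∈ Y := by
    intro j
    rw [← hYc]
    refine clo_mono (adj_le hkY ?_) (hfz j)
    rintro _ ⟨b, rfl⟩
    exact hyY (Sum.inr (Sum.inl b))
  have hzY' : ∀ j, z' j ∈ Y := by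
    intro j
    rw [← hYc]
    refine clo_mono (adj_le (adj_le hkY ?_) ?_) (hfz' j)
    · rintro _ ⟨b, rfl⟩
      exact hzY b
    · rintro _ ⟨b, rfl⟩
      exact hyY (Sum.inr (Sum.inr b))
  have haY : ∀ il : (i : Fin c) × Fin (M i), a il.1 il.2 ∈ Y := by
    rintro ⟨i, l⟩
    refine solve_two (hz1 i) (hz1' i) (fun l => aeval_mem ((hg i l).mono hkY) hzY)
      (fun l => aeval_mem ((hg i l).mono hkY) hzY') (hd i) (fun l h1 h2 => ?_) l
    exact hyY (Sum.inl ⟨⟨i, l⟩, h1, h2⟩)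
  have hcard := ai_le_card hx (y := y) (by
    rw [← hY]
    rintro (il | b | b)
    · exact haY il
    · fin_cases b
      · exact hzY j
      · exact hzY l
    · fin_cases b
      · exact hzY' j'
      · exact hzY' l')
  have hcA : Nat.card A + 2 * c = Nat.card ((i : Fin c) × Fin (M i)) := card_two hne
  rw [Nat.card_sum, Nat.card_sum, Nat.card_sum, Nat.card_sum, ← hcA] at hcard
  generalize Nat.card A = N at hcard
  simp only [Nat.card_eq_fintype_card, Fintype.card_fin] at hcard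
  have h1 : e = c + 2 := by omega
  have h2 : e' = c + 2 := by omega
  subst h1
  subst h2
  exact ⟨⟨f, hf, hfz⟩, ⟨f', hf'⟩⟩

end Pool.Agent.VRC
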