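import Pool.Agent.VRC.LinC
import Pool.Agent.VRC.LinD

/-! Surfaces in rationally connected varieties: a rational curve through two independent generic
points of the surface. -/

set_option autoImplicit false

open scoped LinearAlgebra.Projectivization
open MvPolynomial

namespace Pool.Agent.VRC

open Pool.Agent.VGS (Fl adj clo Coef Kills IsPl Sp le_adj le_clo subset_adj adj_le clo_mono ai_mono
  ai_iff ai_sum mem_clo mem_clo_adj adj_adj ai_clo clo_clo aeval_mem exists_algInd clo_adj_le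
  aeval_fix coef_iff ai_mono_clo)
open Pool.Agent.VCI

variable {m n r : ℕ}

/-- multiplying a curve by a polynomial -/
theorem aeval_mul_curve {P : MvPolynomial (Fin n) ℂ} {e : ℕ} (hP : P.IsHomogeneous e)
    (φ : Fin n → Polynomial ℂ) (μ : Polynomial ℂ) :
    aeval (fun j => μ * φ j) P = μ ^ e * aeval φ P := by
  rw [aeval_def, aeval_def, eval₂_eq', eval₂_eq', Finset.mul_sum]
  refine Finset.sum_congr rfl fun t ht => ?_
  have h3 : t.degree = e := by
    by_contra h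
    exact (mem_support_iff.mp ht) (hP.coeff_eq_zero h)
  have h2 : ∏ i, (μ * φ i) ^ t i = μ ^ e * ∏ i, φ i ^ t i := by
    simp only [mul_pow, Finset.prod_mul_distrib, Finset.prod_pow_eq_pow_sum]
    congr 2
    rw [← h3, Finsupp.degree_eq_sum]
  rw [h2]
  ring

/-- the value of a polynomial at a curve -/
theorem eval_curve (P : MvPolynomial (Fin n) ℂ) (φ : Fin n → Polynomial ℂ) (t : ℂ) :
    (aeval φ P).eval t = aeval (fun j => (φ j).eval t) P := by
  have h1 := MvPolynomial.comp_aeval_apply (φ := (Polynomial.aeval t : Polynomial ℂ →ₐ[ℂ] ℂ)) φ P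
  rw [Polynomial.coe_aeval_eq_eval] at h1
  exact h1

/-- an automorphism acts on curves -/
theorem map_curve {k : Fl} {P : MvPolynomial (Fin n) ℂ} (hP : Coef k P) {σ : ℂ ≃+* ℂ}
    (hσ : σ ∈ VGS.Fix k) (φ : Fin n → Polynomial ℂ) :
    aeval (fun j => (φ j).map (σ : ℂ →+* ℂ)) P = (aeval φ P).map (σ : ℂ →+* ℂ) := by
  rw [aeval_def, aeval_def, eval₂_eq, eval₂_eq, Polynomial.map_sum]
  refine Finset.sum_congr rfl fun m _ => ?_
  rw [Polynomial.map_mul, Polynomial.map_prod]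
  congr 1
  · change Polynomial.C (coeff m P) = (Polynomial.C (coeff m P)).map (σ : ℂ →+* ℂ)
    rw [Polynomial.map_C]
    congr 1
    exact (hσ _ (hP m)).symm
  · refine Finset.prod_congr rfl fun i _ => ?_
    rw [Polynomial.map_pow]

/-- a homogeneous relation which holds on the variety holds on every curve in it -/
theorem rel_curve {s : ℕ} {h : Fin s → MvPolynomial (Fin n) ℂ} {ψ : Fin n → Polynomial ℂ}
    (hψ : ∀ j, aeval ψ (h j) = 0) {i : Fin n} (hi : ψ i ≠ 0) {P : MvPolynomial (Fin n) ℂ}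
    (hP : ∀ y ∈ cone h, aeval y P = 0) : aeval ψ P = 0 := by
  have h1 : aeval ψ P * ψ i = 0 := by
    refine Polynomial.funext fun t => ?_
    rw [Polynomial.eval_mul, Polynomial.eval_zero, mul_eq_zero]
    by_cases ht : (ψ i).eval t = 0
    · exact Or.inr ht
    · left
      rw [eval_curve]
      refine hP _ ⟨fun h0 => ht (congrFun h0 i), fun j => ?_⟩
      rw [← eval_curve, hψ, Polynomial.eval_zero]
  exact (mul_eq_zero.1 h1).resolve_right hi

/-- the images of two independent points are different -/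
theorem not_par {s c : ℕ} {M : Fin c → ℕ} {K : Fl} {h : Fin s → MvPolynomial (Fin n) ℂ}
    {g : (i : Fin c) → Fin (M i) → MvPolynomial (Fin n) ℂ} {a : (i : Fin c) → Fin (M i) → ℂ}
    {d : Fin (s + c) → ℕ} (homg : ∀ i l, (g i l).IsHomogeneous (d (Fin.natAdd s i)))
    (hsep : ∀ p ∈ Gen K (eqs h g a), ∀ i, ∀ y ∈ cone (eqs h g a),
      (∀ l l', aeval y (g i l) * aeval p.rep (g i l') = aeval y (g i l') * aeval p.rep (g i l)) →
        ∀ j j', y j * p.rep j' = y j' * p.rep j)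
    {z z' : Fin n → ℂ} (hz : z ≠ 0) {i₀ i₀' : Fin n} (hzi : z i₀ = 1) (hzi' : z' i₀' = 1)
    (hp : (Projectivization.mk ℂ z hz : PN n) ∈ Gen K (eqs h g a))
    (hz' : z' ∈ cone (eqs h g a)) {j l : Fin n}
    (hjl : AlgebraicIndependent (adj K (Set.range z)) ![z' j, z' l]) (i : Fin c) :
    ∃ l₁ l₂, aeval z (g i l₁) * aeval z' (g i l₂) ≠ aeval z (g i l₂) * aeval z' (g i l₁) := by
  by_contra hcon
  push Not at hcon
  obtain ⟨μ, hμ⟩ := Projectivization.exists_smul_eq_mk_rep ℂ z hz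
  have h1 : ∀ j, (Projectivization.mk ℂ z hz : PN n).rep j = (μ : ℂ) * z j := by
    intro j
    rw [← hμ]
    rfl
  have h2 := hsep _ hp i z' hz' (fun l l' => by
    rw [aeval_scale (homg i l) h1, aeval_scale (homg i l') h1]
    have h3 := hcon l l'
    linear_combination (-(μ : ℂ) ^ d (Fin.natAdd s i)) * h3)
  have h3 : ∀ j, z' j = z' i₀ * z j := by
    intro j
    have h4 := h2 j i₀
    rw [h1, h1, hzi, mul_one] at h4
    have h5 : (μ : ℂ) ≠ 0 := μ.ne_zero
    refine mul_right_cancel₀ h5 ?_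
    rw [h4]
    ring
  have hzK : ∀ j, z j ∈ adj K (Set.range z) := fun j => subset_adj _ _ ⟨j, rfl⟩
  have h4 : z' i₀ ∈ adj K (Set.range z) := by
    have h5 := h3 i₀'
    rw [hzi'] at h5
    have h6 : z i₀' ≠ 0 := by
      intro h7
      rw [h7, mul_zero] at h5
      exact one_ne_zero h5
    have h8 : z' i₀ = 1 / z i₀' := by
      rw [eq_div_iff h6]
      exact h5.symm
    rw [h8]
    exact div_mem (one_mem _) (hzK _)
  have h5 : z' j ∈ adj K (Set.range z) := by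
    rw [h3]
    exact mul_mem h4 (hzK j)
  have h6 := hjl.transcendental 0
  apply h6
  exact isAlgebraic_algebraMap (⟨z' j, h5⟩ : adj K (Set.range z))

/-- **The rational curve.** -/
theorem lin_rc {s c : ℕ} {M : Fin c → ℕ} {h : Fin s → MvPolynomial (Fin n) ℂ}
    {g : (i : Fin c) → Fin (M i) → MvPolynomial (Fin n) ℂ} {a : (i : Fin c) → Fin (M i) → ℂ}
    {d : Fin (s + c) → ℕ} (hirr : IsIrr h) (hrc : IsRC h)
    (hom : ∀ i, (eqs h g a i).IsHomogeneous (d i))
    (homg : ∀ i l, (g i l).IsHomogeneous (d (Fin.natAdd s i))) {k K : Fl} (ck : Countable k)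
    (hh : ∀ j, Coef k (h j)) (hg : ∀ i l, Coef k (g i l))
    (hai : AlgebraicIndependent k fun il : (i : Fin c) × Fin (M i) => a il.1 il.2)
    (hK : K = adj k (Set.range fun il : (i : Fin c) × Fin (M i) => a il.1 il.2))
    (htrd : ∀ z ∈ cone (eqs h g a), ∀ i, z i = 1 → TrLe k (c + 2) z)
    (htan : ∀ z ∈ cone (eqs h g a), ∀ v : Fin (c + 2 + 2) → Fin n → ℂ,
      (∀ b j, dFc (h j) z (v b) = 0) → ¬ LinearIndependent ℂ v)
    (hsep : ∀ p ∈ Gen K (eqs h g a), ∀ i, ∀ y ∈ cone (eqs h g a),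
      (∀ l l', aeval y (g i l) * aeval p.rep (g i l') = aeval y (g i l') * aeval p.rep (g i l)) →
        ∀ j j', y j * p.rep j' = y j' * p.rep j)
    (z z' : Fin n → ℂ) (hz : z ≠ 0) (hz' : z' ≠ 0) (i i' : Fin n) (hzi : z i = 1)
    (hzi' : z' i' = 1) (hp : (Projectivization.mk ℂ z hz : PN n) ∈ Gen K (eqs h g a))
    (hp' : (Projectivization.mk ℂ z' hz' : PN n) ∈
      Gen (clo (adj K (Set.range z))) (eqs h g a)) :
    ∃ φ : Fin n → Polynomial ℂ,
      (∀ j l, (φ j).coeff l ∈ clo (adj k (Set.range z ∪ Set.range z'))) ∧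
      (∀ j, (φ j).eval 0 = z j) ∧ (∀ j, (φ j).eval 1 = z' j) ∧
      ∀ (P : MvPolynomial (Fin n) ℂ) (e : ℕ), P.IsHomogeneous e → Coef k P → aeval z P = 0 →
        aeval φ P = 0 := by
  classical
  have homh : ∀ j, ∃ e, (h j).IsHomogeneous e := fun j => ⟨_, by
    have h1 := hom (Fin.castAdd c j)
    rw [eqs_cast] at h1
    exact h1⟩
  have hzX : z ∈ cone (eqs h g a) := ⟨hz, (mem_surf_mk hom hz).1 hp.1⟩
  have hzX' : z' ∈ cone (eqs h g a) := ⟨hz', (mem_surf_mk hom hz').1 hp'.1⟩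
  have hzh := (cone_eqs hzX).1
  have hzh' := (cone_eqs hzX').1
  obtain ⟨j, l, hjl⟩ := gen_coord hom hz hzi hp
  obtain ⟨j', l', hjl'⟩ := gen_coord hom hz' hzi' hp'
  replace hjl' := ai_clo.1 hjl'
  obtain ⟨⟨f, hf, hfz⟩, ⟨f', hf'⟩⟩ := count_two hg hai hK hzX hzX' hjl hjl'
    (not_par homg hsep hz hzi hzi' hp hzX' hjl') (htrd z hzX i hzi) (htrd z' hzX' i' hzi')
  -- move the pair
  obtain ⟨B, ⟨y, hy, y', hy', hB⟩, hcurve⟩ := hrc
  obtain ⟨k₁, hk₁⟩ : ∃ k₁ : Fl, k₁ = clo (adj k (Set.range fun m => coeff m B)) := ⟨_, rfl⟩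
  have hc₁ : Countable k₁ := by
    have h1 : Countable (Set.range fun m => coeff m B) := (Set.countable_range _).to_subtype
    rw [hk₁]
    infer_instance
  have hkk₁ : clo k ≤ k₁ := by
    rw [hk₁]
    exact clo_mono (le_adj _ _)
  have hkk : k ≤ k₁ := (le_clo k).trans hkk₁
  have hB₁ : Coef k₁ B := fun m => by
    rw [hk₁]
    exact le_clo _ (subset_adj _ _ ⟨m, rfl⟩)
  have hpair : AlgebraicIndependent k (Sum.elim (fun b => z (f b)) (fun b => z' (f' b))) := by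
    rw [ai_sum]
    refine ⟨hf, ai_mono (adj_le (le_adj _ _) ?_) hf'⟩
    rintro _ ⟨b, rfl⟩
    exact subset_adj _ _ ⟨f b, rfl⟩
  obtain ⟨τ, hτ, hτf⟩ := exists_move_fam k hpair k₁ hkk₁
  have hτk : τ ∈ VGS.Fix k := VGS.Fix_mono (le_clo _) hτ
  have hτf2 : AlgebraicIndependent k₁ (Sum.elim (fun b => τ (z (f b))) (fun b => τ (z' (f' b)))) := by
    have h1 : (fun b => τ (Sum.elim (fun b => z (f b)) (fun b => z' (f' b)) b)) =
        Sum.elim (fun b => τ (z (f b))) (fun b => τ (z' (f' b))) := by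
      funext o
      rcases o with o | o <;> rfl
    rw [← h1]
    exact hτf
  rw [ai_sum] at hτf2
  have hle : adj k₁ (Set.range fun i => τ (z i)) ≤
      clo (adj k₁ (Set.range fun b => τ (z (f b)))) := by
    refine adj_le ((le_adj _ _).trans (le_clo _)) ?_
    rintro _ ⟨i, rfl⟩
    refine clo_map (L := adj k (Set.range fun b => z (f b))) ?_ _ (hfz i)
    refine adj_map (fun x hx => ?_) ?_
    · rw [hτk x hx]
      exact hkk hx
    · rintro _ ⟨b, rfl⟩
      exact subset_adj _ _ ⟨b, rfl⟩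
  have hrel : ∀ (P : MvPolynomial (Fin n ⊕ Fin n) ℂ) (e e' : ℕ), IsBiHom P e e' → Coef k₁ P →
      aeval (Sum.elim (fun i => τ (z i)) (fun i => τ (z' i))) P = 0 →
        aeval (Sum.elim y y') P = 0 := by
    intro P e e' hP hPk h0
    exact bihom_zero hirr homh k₁ (fun j => (hh j).mono hkk) (cone_act hh hτk hzh)
      (cone_act hh hτk hzh') (i := i) (i' := i') (by rw [hzi, map_one]) (by rw [hzi', map_one])
      f f' hτf2.1 (ai_mono_clo hle hτf2.2) (tan_act hh hτk (htan z hzX))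
      (tan_act hh hτk (htan z' hzX')) hP hPk h0 y hy y' hy'
  obtain ⟨α, β, hα, hβ, hαβ⟩ := exists_scale hB₁ hB hrel
  have hcs : ∀ {x : Fin n → ℂ} {c : ℂ}, c ≠ 0 → x ∈ cone h → (fun i => c * x i) ∈ cone h := by
    intro x c hc hx
    refine ⟨fun h0 => hx.1 ?_, fun j => ?_⟩
    · funext i
      have h1 := congrFun h0 i
      exact (mul_eq_zero.1 h1).resolve_left hc
    · obtain ⟨e, he⟩ := homh j
      rw [aeval_scale he (w := x) (a := c) (fun _ => rfl), hx.2 j, mul_zero]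
  obtain ⟨φ, hφh, hφ0, hφ1⟩ := hcurve _ (hcs hα (cone_act hh hτk hzh)) _
    (hcs hβ (cone_act hh hτk hzh')) hαβ
  -- normalise and move back
  let μ : Polynomial ℂ := Polynomial.C α⁻¹ * (1 - Polynomial.X) + Polynomial.C β⁻¹ * Polynomial.X
  let φ₁ : Fin n → Polynomial ℂ := fun j => (μ * φ j).map ((τ⁻¹ : ℂ ≃+* ℂ) : ℂ →+* ℂ)
  have hφ₁h : ∀ j, aeval φ₁ (h j) = 0 := by
    intro j
    obtain ⟨e, he⟩ := homh j
    have h1 := map_curve (hh j) (inv_mem hτk) (fun j => μ * φ j)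
    rw [aeval_mul_curve he, hφh j, mul_zero, Polynomial.map_zero] at h1
    exact h1
  have hev : ∀ (q : Polynomial ℂ) (t : ℂ), τ⁻¹ t = t →
      (q.map ((τ⁻¹ : ℂ ≃+* ℂ) : ℂ →+* ℂ)).eval t = τ⁻¹ (q.eval t) := by
    intro q t ht
    have h1 := Polynomial.eval_map_apply (p := q) (f := ((τ⁻¹ : ℂ ≃+* ℂ) : ℂ →+* ℂ)) t
    have h2 : ((τ⁻¹ : ℂ ≃+* ℂ) : ℂ →+* ℂ) t = t := ht
    rw [h2] at h1
    exact h1
  have hφ₁0 : ∀ j, (φ₁ j).eval 0 = z j := by
    intro j
    change ((μ * φ j).map ((τ⁻¹ : ℂ ≃+* ℂ) : ℂ →+* ℂ)).eval 0 = z j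
    rw [hev _ _ (map_zero _), Polynomial.eval_mul, hφ0]
    have h1 : μ.eval 0 = α⁻¹ := by simp [μ]
    rw [h1, inv_mul_cancel_left₀ hα]
    exact τ.symm_apply_apply _
  have hφ₁1 : ∀ j, (φ₁ j).eval 1 = z' j := by
    intro j
    change ((μ * φ j).map ((τ⁻¹ : ℂ ≃+* ℂ) : ℂ →+* ℂ)).eval 1 = z' j
    rw [hev _ _ (map_one _), Polynomial.eval_mul, hφ1]
    have h1 : μ.eval 1 = β⁻¹ := by simp [μ]
    rw [h1, inv_mul_cancel_left₀ hβ]
    exact τ.symm_apply_apply _
  have hkL : k ≤ clo (adj k (Set.range z ∪ Set.range z')) := (le_adj _ _).trans (le_clo _)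
  obtain ⟨ψ, hψc, hψh, hψ0, hψ1⟩ := curve_descent
    (L := clo (adj k (Set.range z ∪ Set.range z'))) (clo_clo _) (fun j => (hh j).mono hkL)
    (z := z) (z' := z') (fun j => le_clo _ (subset_adj _ _ (Or.inl ⟨j, rfl⟩)))
    (fun j => le_clo _ (subset_adj _ _ (Or.inr ⟨j, rfl⟩))) φ₁ hφ₁h hφ₁0 hφ₁1
  refine ⟨ψ, hψc, hψ0, hψ1, fun P e hP hPk h0 => ?_⟩
  refine rel_curve hψh (i := i) (fun h1 => ?_) ?_
  · have h2 := hψ0 i
    rw [h1, Polynomial.eval_zero, hzi] at h2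
    exact zero_ne_one h2
  · exact gen_rel hirr homh k hh hzh hzi f hf (htan z hzX) hP (hPk.mono (le_clo _)) h0

end Pool.Agent.VRC
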