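import Pool.Agent.VRC.Defs
import Pool.Agent.VCI.PrDefs

/-!
# Surfaces in rationally connected varieties: definitions for the proof
-/

set_option autoImplicit false

open scoped LinearAlgebra.Projectivization
open MvPolynomial

namespace Pool.Agent.VRC

open Pool.Agent.Chow0 (IsChowForm)
open Pool.Agent.VGS (Fl adj clo Coef Kills)
open Pool.Agent.VCI (PN ciS CHQ clS cycS linF Cy cycQ ratQ act actC Gen adjP dFc vec mkP)

variable {m n r : ℕ}

/-! ### The surface -/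

/-- What the proof uses about the smooth irreducible surface `F = 0`, defined over `K`. -/
structure Sfc0 (F : Fin m → MvPolynomial (Fin (r + 3)) ℂ) (d : Fin m → ℕ) (K : Fl) : Prop where
  hom : ∀ i, (F i).IsHomogeneous (d i)
  coef : ∀ i, Coef K (F i)
  cK : Countable K
  loc : ∀ z ∈ cone F, ∃ (I : Fin r → Fin m) (B : MvPolynomial (Fin (r + 3)) ℂ),
    Coef (clo K) B ∧ aeval z B ≠ 0 ∧ (∀ i, B * F i ∈ Ideal.span (Set.range fun j => F (I j))) ∧
    LinearIndependent ℂ fun j v => aeval z (pderiv v (F (I j)))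
  conj : ∀ L : Fl, Countable L → K ≤ L → ∀ p ∈ Gen L F, ∀ q ∈ Gen L F,
    ∃ σ ∈ VGS.Fix (clo L), act σ p = q
  gen : ∀ L : Fl, Countable L → ∃ p, p ∈ Gen L F

/-- The surface is, moreover, not a cone (not a plane). -/
structure Sfc (F : Fin m → MvPolynomial (Fin (r + 3)) ℂ) (d : Fin m → ℕ) (K : Fl) : Prop
    extends Sfc0 F d K where
  ncone : ∀ E : Fl, Countable E → clo E = E → K ≤ E → ∀ x ∈ cone F, (∀ l, x l ∈ E) →
    ∀ w ∈ cone F, ∀ i j l, w i = 1 → AlgebraicIndependent E ![w j, w l] →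
      ∃ s, dFc (F s) w x ≠ 0

/-- The points of `X` in the span of `w, b_1, …, b_r` (with coordinate of `w` equal to `1`). -/
def SecC (F : Fin m → MvPolynomial (Fin n) ℂ) (w : Fin n → ℂ) (b : Fin r → Fin n → ℂ) :
    Set (Fin r → ℂ) := {c | ∀ i, aeval (vec w b c) (F i) = 0}

/-- No tangent vector at `z` is in the span of `b_1, …, b_r`. -/
def Tr (F : Fin m → MvPolynomial (Fin n) ℂ) (z : Fin n → ℂ) (b : Fin r → Fin n → ℂ) : Prop :=
  ∀ γ : Fin r → ℂ, (∀ i, dFc (F i) z (fun l => ∑ j, γ j * b j l) = 0) → γ = 0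

/-- The cycle of these points. -/
noncomputable def secCy [NeZero n] (F : Fin m → MvPolynomial (Fin n) ℂ) (w : Fin n → ℂ)
    (b : Fin r → Fin n → ℂ) : Cy n :=
  ∑ᶠ c ∈ SecC F w b, Finsupp.single (mkP (vec w b c)) (1 : ℚ)

/-- The cycle `μ(x) = X ∩ ⟨b₀, …, b_r⟩ - (X ∩ ⟨x, b_1, …, b_r⟩ - x)`. -/
noncomputable def muV [NeZero n] (F : Fin m → MvPolynomial (Fin n) ℂ) (b₀ : Fin n → ℂ)
    (b : Fin r → Fin n → ℂ) (x : PN n) : Cy n :=
  secCy F b₀ b - (secCy F x.rep b - Finsupp.single x 1)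

/-! ### Two-forms -/

/-- A holomorphic two-form over `κ` with its local expressions. -/
structure HForm (F : Fin m → MvPolynomial (Fin n) ℂ) (κ : Fl) where
  /-- the number of local expressions, minus one -/
  T : ℕ
  /-- the local expressions -/
  loc : Fin (T + 1) → RForm n
  coefA : ∀ t j s, Coef κ ((loc t).A j s)
  coefB : ∀ t j s, Coef κ ((loc t).B j s)
  cov : ∀ z ∈ cone F, ∃ t, ∀ j s, aeval z ((loc t).B j s) ≠ 0
  eq : ∀ p ∈ Gen κ F, ∀ t, ∀ D₁ D₂ : Derivation ℤ ℂ ℂ, Kills κ D₁ → Kills κ D₂ →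
    (loc t).val D₁ D₂ p.rep = (loc 0).val D₁ D₂ p.rep

/-- The value of the two-form at the point `p` on the pair of derivations. -/
noncomputable def tau {F : Fin m → MvPolynomial (Fin n) ℂ} {κ : Fl} (ω : HForm F κ)
    (D₁ D₂ : Derivation ℤ ℂ ℂ) (p : PN n) : ℂ := (ω.loc 0).val D₁ D₂ p.rep

/-- Its linear extension to cycles. -/
noncomputable def tauC {F : Fin m → MvPolynomial (Fin n) ℂ} {κ : Fl} (ω : HForm F κ)
    (D₁ D₂ : Derivation ℤ ℂ ℂ) : Cy n →ₗ[ℚ] ℂ := Finsupp.linearCombination ℚ (tau ω D₁ D₂)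

/-- The cycles of the surface on which the two-forms over `κ` are zero (for the derivations over
`L`). -/
noncomputable def TZ (L : Fl) (F : Fin m → MvPolynomial (Fin n) ℂ) (κ : Fl) :
    Submodule ℚ (Cy n) where
  carrier := {z | (∀ q ∈ z.support, q ∈ ciS F) ∧ ∀ ω : HForm F κ, ∀ D₁ D₂ : Derivation ℤ ℂ ℂ,
    Kills L D₁ → Kills L D₂ → tauC ω D₁ D₂ z = 0}
  zero_mem' := ⟨fun q hq => by simp at hq, fun ω D₁ D₂ _ _ => map_zero _⟩
  add_mem' := by
    classical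
    rintro x y ⟨hx, hx'⟩ ⟨hy, hy'⟩
    refine ⟨fun q hq => ?_, fun ω D₁ D₂ h₁ h₂ => ?_⟩
    · rcases Finset.mem_union.1 (Finsupp.support_add hq) with h | h
      · exact hx q h
      · exact hy q h
    · rw [map_add, hx' ω D₁ D₂ h₁ h₂, hy' ω D₁ D₂ h₁ h₂, add_zero]
  smul_mem' := by
    rintro c x ⟨hx, hx'⟩
    refine ⟨fun q hq => hx q (Finsupp.support_smul hq), fun ω D₁ D₂ h₁ h₂ => ?_⟩
    rw [map_smul, hx' ω D₁ D₂ h₁ h₂, smul_zero]

/-! ### Correspondences -/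

section

variable {Ω : Type} [Field Ω] [Algebra ℂ Ω]

open Classical in
/-- The cycle of the correspondence over the point `p`. -/
noncomputable def effT {F : Fin m → MvPolynomial (Fin n) ℂ} {ξ : Fin n → Ω} {w : ℕ}
    (Γ : EffCorr F ξ w) (p : PN n) : Cy n :=
  if h : ∃ s : Multiset (ciS F), IsChowForm (ciS F) (Γ.at p.rep) s then
    cycQ (h.choose.map Subtype.val) else 0

/-- The correspondence has coefficients in `L`. -/
def CoefE (L : Fl) {F : Fin m → MvPolynomial (Fin n) ℂ} {ξ : Fin n → Ω} {w : ℕ}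
    (Γ : EffCorr F ξ w) : Prop := ∀ l, Coef L (coeff l Γ.Φ)

end

/-! ### Relations -/

/-- The homogeneous relations of `w` over `κ` are relations of `y`. -/
def Rel (κ : Fl) (w y : Fin n → ℂ) : Prop :=
  ∀ (P : MvPolynomial (Fin n) ℂ) (e : ℕ), P.IsHomogeneous e → Coef κ P → aeval w P = 0 →
    aeval y P = 0

/-- `P` is homogeneous of degree `e` in the first group of variables and of degree `e'` in the
second one. -/
def IsBiHom (P : MvPolynomial (Fin n ⊕ Fin n) ℂ) (e e' : ℕ) : Prop :=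
  ∀ u ∈ P.support, ∑ i, u (Sum.inl i) = e ∧ ∑ i, u (Sum.inr i) = e'

/-- The bihomogeneous relations of `(z, w)` over `k` are relations of `(x, y)`. -/
def Rel2 (k : Fl) (z w x y : Fin n → ℂ) : Prop :=
  ∀ (P : MvPolynomial (Fin n ⊕ Fin n) ℂ) (e e' : ℕ), IsBiHom P e e' → Coef k P →
    aeval (Sum.elim z w) P = 0 → aeval (Sum.elim x y) P = 0

/-- At most `e` of the coordinates of `w` are independent over `κ`. -/
def TrLe (κ : Fl) (e : ℕ) (w : Fin n → ℂ) : Prop :=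
  ∀ f : Fin (e + 1) → Fin n, ¬ AlgebraicIndependent κ fun b => w (f b)

/-! ### Letters -/

/-- The equations `F i = ∑_{t l = i} A l * S l` of `X` with letters `A l` which are independent over
`κ`. -/
structure Lt {s c : ℕ} {Λ : Type} [Fintype Λ] (κ : Fl) (A : Λ → ℂ) (t : Λ → Fin c)
    (S : Λ → MvPolynomial (Fin n) ℂ) (d : Fin (s + c) → ℕ)
    (G : Fin (s + c) → MvPolynomial (Fin n) ℂ) : Prop where
  cκ : Countable κ
  ai : AlgebraicIndependent κ A
  coefS : ∀ l, Coef κ (S l)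
  homS : ∀ l, (S l).IsHomogeneous (d (Fin.natAdd s (t l)))
  hom : ∀ i, (G i).IsHomogeneous (d i)
  coefh : ∀ j : Fin s, Coef κ (G (Fin.castAdd c j))
  eq : ∀ i : Fin c, G (Fin.natAdd s i) = ∑ l, if t l = i then C (A l) * S l else 0

/-- The data of the theorem over the ground field `k`: `X` is the intersection of `h = 0` with
`∑ l, a i l * g i l = 0`. -/
structure LinRC {s c : ℕ} {M : Fin c → ℕ} (k : Fl) (h : Fin s → MvPolynomial (Fin n) ℂ)
    (g : (i : Fin c) → Fin (M i) → MvPolynomial (Fin n) ℂ) (a : (i : Fin c) → Fin (M i) → ℂ)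
    (K : Fl) (d : Fin (s + c) → ℕ) : Prop where
  ck : Countable k
  hK : K = adj k (Set.range fun il : (i : Fin c) × Fin (M i) => a il.1 il.2)
  hom : ∀ i, (eqs h g a i).IsHomogeneous (d i)
  homg : ∀ i l, (g i l).IsHomogeneous (d (Fin.natAdd s i))
  coefh : ∀ j, Coef k (h j)
  coefg : ∀ i l, Coef k (g i l)
  ai : AlgebraicIndependent k fun il : (i : Fin c) × Fin (M i) => a il.1 il.2
  bpf : ∀ z ∈ cone (eqs h g a), ∀ i, ∃ l, aeval z (g i l) ≠ 0
  trd : ∀ z ∈ cone (eqs h g a), ∀ i, z i = 1 → TrLe k (c + 2) z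
  trdX : ∀ L : Fl, K ≤ L → ∀ z ∈ cone (eqs h g a), ∀ i, z i = 1 → TrLe L 2 z
  sep : ∀ p ∈ Gen K (eqs h g a), ∀ i, ∀ y ∈ cone (eqs h g a),
    (∀ l l', aeval y (g i l) * aeval p.rep (g i l') = aeval y (g i l') * aeval p.rep (g i l)) →
      ∀ j j', y j * p.rep j' = y j' * p.rep j
  rc : ∀ (z z' : Fin n → ℂ) (hz : z ≠ 0) (hz' : z' ≠ 0) (i i' : Fin n), z i = 1 → z' i' = 1 →
    Projectivization.mk ℂ z hz ∈ Gen K (eqs h g a) →
    Projectivization.mk ℂ z' hz' ∈ Gen (clo (adj K (Set.range z))) (eqs h g a) →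
    ∃ φ : Fin n → Polynomial ℂ,
      (∀ j l, (φ j).coeff l ∈ clo (adj k (Set.range z ∪ Set.range z'))) ∧
      (∀ j, (φ j).eval 0 = z j) ∧ (∀ j, (φ j).eval 1 = z' j) ∧
      ∀ (P : MvPolynomial (Fin n) ℂ) (e : ℕ), P.IsHomogeneous e → Coef k P → aeval z P = 0 →
        aeval φ P = 0
  conj : ∀ L : Fl, Countable L → K ≤ L → ∀ p ∈ Gen L (eqs h g a), ∀ q ∈ Gen L (eqs h g a),
    ∃ σ ∈ VGS.Fix (clo L), act σ p = q

end Pool.Agent.VRC
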