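import Pool.Agent.VRC.SDefs
import Pool.Agent.VRC.Base
import Pool.Agent.VCI.Rho
import Pool.Agent.VCI.EffB
import Pool.Agent.VCI.Eff

/-! The points of an effective correspondence over a generic point. -/

set_option autoImplicit false

open scoped LinearAlgebra.Projectivization
open MvPolynomial

namespace Pool.Agent.VRC

open Pool.Agent.VGS
open Pool.Agent.Chow0 (IsChowForm cyc Z0 linForm chowForm)
open Pool.Agent.VCI (PN Cy ciS Gen act actC mkP mkP_eq cycQ linF cloΩ mk_eq_mk_iff_exists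
  act_mk map_ne_zero' gen_mk mem_surf_mk IsCh act_mem_Gen rho_aeval symm_aeval symm_ai
  effb_lift_mv effb_ratio effb_lift_coef effb_value effbIncl effbXi aeval_scale linForm_mk
  eff_mem_support_cycQ)

variable {m n r : ℕ} {Ω : Type} [Field Ω] [Algebra ℂ Ω]

theorem card_generic [IsAlgClosed Ω] {F : Fin m → MvPolynomial (Fin n) ℂ}
    {ξ : Fin n → Ω} (hξ : IsGenericPoint F ξ) : Cardinal.mk Ω = Cardinal.mk ℂ := by
  have h0 : Cardinal.aleph0 ≤ Cardinal.mk ℂ := aleph0_lt_complex.le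
  apply le_antisymm
  · have := hξ.alg
    have h1 := Algebra.IsAlgebraic.cardinalMk_le_max
      (IntermediateField.adjoin ℂ (Set.range ξ)) Ω
    have h2 := IntermediateField.cardinalMk_adjoin_le ℂ (Set.range ξ)
    have h3 : Cardinal.mk (Set.range ξ) ≤ Cardinal.aleph0 := Cardinal.mk_le_aleph0
    refine h1.trans (max_le (h2.trans (max_le (max_le le_rfl (h3.trans h0)) h0)) h0)
  · exact Cardinal.mk_le_of_injective (algebraMap ℂ Ω).injective

/-- the normalised coordinates of a generic point, with the isomorphism -/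
theorem exists_rho' [IsAlgClosed Ω] {F : Fin m → MvPolynomial (Fin n) ℂ} {d : Fin m → ℕ}
    (hF : ∀ i, (F i).IsHomogeneous (d i)) {ξ : Fin n → Ω} (hξ : IsGenericPoint F ξ) (κ : Fl)
    [Countable κ] (hFκ : ∀ i, Coef κ (F i))
    (hc : ∀ p ∈ Gen κ F, ∀ q ∈ Gen κ F, ∃ σ ∈ VGS.Fix κ, act σ p = q) {y : PN n}
    (hy : y ∈ Gen κ F) :
    ∃ (z : Fin n → ℂ) (hz : z ≠ 0), (∃ i, z i = 1) ∧ y = Projectivization.mk ℂ z hz ∧
      ∃ ρ : ℂ ≃+* Ω, (∀ c ∈ κ, ρ c = algebraMap ℂ Ω c) ∧ ∀ i, ρ (z i) = ξ i := by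
  obtain ⟨ρ, hρ⟩ := @ext_gen κ ℂ Ω _ _ _ _
    ((algebraMap ℂ Ω).comp (algebraMap κ ℂ)).toAlgebra _ _ _ (algebraMap κ ℂ).injective
    ((algebraMap ℂ Ω).comp (algebraMap κ ℂ)).injective aleph0_lt_complex (card_generic hξ).symm
  have hρ' : ∀ c ∈ κ, ρ c = algebraMap ℂ Ω c := fun c hc => hρ ⟨c, hc⟩
  obtain ⟨i₀, hi₀⟩ := hξ.one
  have h1 : ρ.symm (ξ i₀) = 1 := by rw [hi₀, map_one]
  have hne : (fun i => ρ.symm (ξ i)) ≠ 0 := by
    intro h
    have := congrFun h i₀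
    rw [h1] at this
    exact one_ne_zero this
  obtain ⟨j, l, hjl⟩ := hξ.gen
  have h2 : AlgebraicIndependent κ ![ρ.symm (ξ j), ρ.symm (ξ l)] := by
    have h3 := symm_ai hρ' hjl
    convert h3 using 1
    funext i
    fin_cases i <;> rfl
  have h4 : (Projectivization.mk ℂ (fun i => ρ.symm (ξ i)) hne : PN n) ∈ Gen κ F :=
    gen_mk hF hne h1 (fun a => by rw [symm_aeval hρ' (hFκ a), hξ.zero, map_zero]) h2
  obtain ⟨σ, hσ, hσp⟩ := hc _ h4 _ hy
  have hne' : (fun i => σ (ρ.symm (ξ i))) ≠ 0 := map_ne_zero' σ hne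
  refine ⟨fun i => σ (ρ.symm (ξ i)), hne', ⟨i₀, ?_⟩, ?_, (σ⁻¹).trans ρ, ?_, ?_⟩
  · change σ (ρ.symm (ξ i₀)) = 1
    rw [h1, map_one]
  · rw [← hσp, act_mk σ _ hne hne']
  · intro c hc'
    have h5 : σ⁻¹ c = c := (VGS.Fix κ).inv_mem hσ c hc'
    change ρ (σ⁻¹ c) = _
    rw [h5, hρ' c hc']
  · intro i
    change ρ (σ.symm (σ (ρ.symm (ξ i)))) = ξ i
    rw [σ.symm_apply_apply, ρ.apply_symm_apply]

section

variable {F : Fin m → MvPolynomial (Fin n) ℂ} {d : Fin m → ℕ}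

/-- the cycle of the correspondence is determined by the Chow form -/
theorem effT_eq {ξ : Fin n → Ω} {w : ℕ} (Γ : EffCorr F ξ w) {p : PN n}
    {s : Multiset (ciS F)} (hs : IsChowForm (ciS F) (Γ.at p.rep) s) :
    effT Γ p = cycQ (s.map Subtype.val) := by
  have h : ∃ s : Multiset (ciS F), IsChowForm (ciS F) (Γ.at p.rep) s := ⟨s, hs⟩
  unfold effT
  rw [dif_pos h]
  congr 1
  have h1 : IsCh (Γ.at p.rep) (h.choose.map Subtype.val) := h.choose_spec
  have h2 : IsCh (Γ.at p.rep) (s.map Subtype.val) := hs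
  exact h1.unique h2

/-- the Chow form over a multiple of a vector -/
theorem at_smul {ξ : Fin n → Ω} {w : ℕ} (Γ : EffCorr F ξ w) {a : ℂ}
    {x y : Fin n → ℂ} (h : ∀ i, y i = a * x i) : Γ.at y = C (a ^ Γ.e) * Γ.at x := by
  apply MvPolynomial.ext
  intro m
  rw [coeff_C_mul]
  unfold EffCorr.at
  rw [coeff_map, coeff_map]
  have h1 := aeval_scale (Γ.hom m) h
  rw [aeval_eq_eval, aeval_eq_eval] at h1
  exact h1

/-- the Chow form over the conjugate vector -/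
theorem at_fix {L : Fl} {ξ : Fin n → Ω} {w : ℕ} (Γ : EffCorr F ξ w) (hΓ : CoefE L Γ)
    {σ : ℂ ≃+* ℂ} (hσ : σ ∈ VGS.Fix L) (x : Fin n → ℂ) :
    Γ.at (fun i => σ (x i)) = map (σ : ℂ →+* ℂ) (Γ.at x) := by
  apply MvPolynomial.ext
  intro m
  unfold EffCorr.at
  rw [coeff_map, coeff_map, coeff_map]
  have h1 := aeval_fix (hΓ m) hσ x
  rw [aeval_eq_eval, aeval_eq_eval] at h1
  exact h1

/-- the Chow form over the conjugate point -/
theorem at_act {L : Fl} {ξ : Fin n → Ω} {w : ℕ} (Γ : EffCorr F ξ w) (hΓ : CoefE L Γ)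
    {σ : ℂ ≃+* ℂ} (hσ : σ ∈ VGS.Fix L) (p : PN n) : ∃ a : ℂ, a ≠ 0 ∧
    Γ.at (act σ p).rep = C a * map (σ : ℂ →+* ℂ) (Γ.at p.rep) := by
  obtain ⟨a, ha⟩ := Projectivization.exists_smul_eq_mk_rep ℂ (fun i => σ (p.rep i))
    (map_ne_zero' σ p.rep_nonzero)
  refine ⟨(a : ℂ) ^ Γ.e, pow_ne_zero _ a.ne_zero, ?_⟩
  rw [← at_fix Γ hΓ hσ]
  apply at_smul
  intro i
  change (Projectivization.mk ℂ (fun i => σ (p.rep i)) (map_ne_zero' σ p.rep_nonzero)).rep i = _
  rw [← ha]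
  rfl

/-- if the Chow form splits at the generic points, the cycles are on the surface and the map is
equivariant -/
theorem effT_of_chow (hF : ∀ i, (F i).IsHomogeneous (d i)) {ξ : Fin n → Ω} {K K' : Fl}
    (hFK : ∀ i, Coef K (F i)) (hKK' : K ≤ K') {w : ℕ} (Γ : EffCorr F ξ w) (hΓ : CoefE K' Γ)
    (key : ∀ p ∈ Gen K F, ∃ s : Multiset (ciS F), IsChowForm (ciS F) (Γ.at p.rep) s) :
    (∀ p ∈ Gen K F, ∀ q ∈ (effT Γ p).support, q ∈ ciS F) ∧
      ∀ σ ∈ VGS.Fix K', ∀ p ∈ Gen K F, effT Γ (act σ p) = actC σ (effT Γ p) := by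
  refine ⟨?_, ?_⟩
  · intro p hp q hq
    obtain ⟨s, hs⟩ := key p hp
    rw [effT_eq Γ hs] at hq
    obtain ⟨q', -, rfl⟩ := Multiset.mem_map.1 (eff_mem_support_cycQ hq)
    exact q'.2
  · intro σ hσ p hp
    obtain ⟨s, hs⟩ := key p hp
    obtain ⟨s', hs'⟩ := key (act σ p) ((act_mem_Gen hF hFK (Fix_mono hKK' hσ)).2 hp)
    rw [effT_eq Γ hs, effT_eq Γ hs', VCI.actC_cycQ]
    congr 1
    obtain ⟨a, ha, h1⟩ := at_act Γ hΓ hσ p
    have h2 : IsCh (Γ.at p.rep) (s.map Subtype.val) := hs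
    have h3 : IsCh (Γ.at (act σ p).rep) (s'.map Subtype.val) := hs'
    have h4 := (h2.map σ).C_mul ha
    rw [← h1] at h4
    exact h3.unique h4

end

/-- The normalised points of the correspondence are in this field, and the embedding maps them to
the points of the cycle over `z`. -/
theorem eff_pts [NeZero n]
    {F : Fin m → MvPolynomial (Fin n) ℂ} {d : Fin m → ℕ}
    (hF : ∀ i, (F i).IsHomogeneous (d i)) {ξ : Fin n → Ω}
    (κ : Fl) [Countable κ] (hκ : clo κ = κ)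
    (hFκ : ∀ i, Coef κ (F i)) {w : ℕ} (Γ : EffCorr F ξ w) (hΓ : CoefE κ Γ)
    {z : Fin n → ℂ} (hz : z ≠ 0)
    (ι : cloΩ κ ξ →+* ℂ) (hι : ∀ c ∈ κ, ∀ h, ι ⟨algebraMap ℂ Ω c, h⟩ = c)
    (hιξ : ∀ j h, ι ⟨ξ j, h⟩ = z j) :
    ∃ (t : Fin w → Ω) (x : Fin w → Fin n → cloΩ κ ξ), (∀ i, t i ≠ 0) ∧
      (∀ i j, ((x i j : cloΩ κ ξ) : Ω) = t i * Γ.pts i j) ∧ (∀ i, ∃ j, x i j = 1) ∧
      ∃ h : ∀ i, mkP (fun j => ι (x i j)) ∈ ciS F,
        IsChowForm (ciS F) (Γ.at (Projectivization.mk ℂ z hz : PN n).rep)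
          (Multiset.map (fun i => (⟨mkP (fun j => ι (x i j)), h i⟩ : ciS F)) Finset.univ.val) := by
  have hch : CharZero Ω := charZero_of_injective_algebraMap (algebraMap ℂ Ω).injective
  -- the Chow form over `κ`
  obtain ⟨Φ, hΦ⟩ := effb_lift_mv (map (algebraMap κ ℂ) : MvPolynomial (Fin n) κ →+* _) Γ.Φ
    (fun m => effb_lift_coef (hΓ m))
  -- its value over `cloΩ`
  let P : MvPolynomial (Fin n) (cloΩ κ ξ) := map (eval₂Hom (effbIncl κ ξ) (effbXi κ ξ)) Φ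
  have hP1 : map (cloΩ κ ξ).subtype P =
      map (aeval ξ : MvPolynomial (Fin n) ℂ →ₐ[ℂ] Ω).toRingHom Γ.Φ := by
    have h1 : (cloΩ κ ξ).subtype.comp (eval₂Hom (effbIncl κ ξ) (effbXi κ ξ)) =
        ((aeval ξ : MvPolynomial (Fin n) ℂ →ₐ[ℂ] Ω).toRingHom).comp (map (algebraMap κ ℂ)) := by
      apply MvPolynomial.ringHom_ext
      · intro a
        simp
        rfl
      · intro i
        simp
        rfl
    rw [← hΦ, map_map, map_map, h1]
  have hP2 : map ι P = map (eval z) Γ.Φ := by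
    have h1 : ι.comp (eval₂Hom (effbIncl κ ξ) (effbXi κ ξ)) =
        (eval z).comp (map (algebraMap κ ℂ)) := by
      apply MvPolynomial.ringHom_ext
      · intro a
        simp
        exact hι a.1 a.2 _
      · intro i
        simp
        exact hιξ i _
    rw [← hΦ, map_map, map_map, h1]
  clear_value P
  have hΩ := Γ.fac
  rw [← hP1] at hΩ
  -- the coefficients of `map subtype P` are in `κ(ξ)`
  have hk : ∀ m, coeff m (map (cloΩ κ ξ).subtype P) ∈
      Subfield.closure ((algebraMap ℂ Ω) '' (κ : Set ℂ) ∪ Set.range ξ) := by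
    intro m
    rw [hP1, coeff_map]
    change aeval ξ (coeff m Γ.Φ) ∈ _
    rw [aeval_def, eval₂_eq]
    refine Subfield.sum_mem _ fun n' _ => Subfield.mul_mem _ ?_ (Subfield.prod_mem _ fun j _ =>
      Subfield.pow_mem _ ?_ _)
    · exact Subfield.subset_closure (Or.inl ⟨_, hΓ m n', rfl⟩)
    · exact Subfield.subset_closure (Or.inr ⟨j, rfl⟩)
  -- normalisation
  have hj : ∀ i, ∃ j, Γ.pts i j ≠ 0 := fun i => Function.ne_iff.1 (Γ.pts_ne i)
  choose j₀ hj₀ using hj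
  have hx : ∀ i j, Γ.pts i j / Γ.pts i (j₀ i) ∈ cloΩ κ ξ := fun i j =>
    effb_ratio _ _ hk Γ.pts Γ.c Γ.c_ne hΩ Γ.pts_ne i (j₀ i) (hj₀ i) j
  let x : Fin w → Fin n → cloΩ κ ξ := fun i j => ⟨_, hx i j⟩
  let t : Fin w → Ω := fun i => (Γ.pts i (j₀ i))⁻¹
  have ht : ∀ i, t i ≠ 0 := fun i => inv_ne_zero (hj₀ i)
  have hxt : ∀ i j, ((x i j : cloΩ κ ξ) : Ω) = t i * Γ.pts i j := fun i j => by
    change Γ.pts i j / Γ.pts i (j₀ i) = (Γ.pts i (j₀ i))⁻¹ * Γ.pts i j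
    rw [div_eq_mul_inv, mul_comm]
  have hx1 : ∀ i, x i (j₀ i) = 1 := fun i => Subtype.ext (div_self (hj₀ i))
  -- the points over `z`
  have hι1 : ∀ i, (fun j => ι (x i j)) ≠ 0 := by
    intro i h
    have := congrFun h (j₀ i)
    simp only [hx1, map_one, Pi.zero_apply] at this
    exact one_ne_zero this
  have hsurf : ∀ i, mkP (fun j => ι (x i j)) ∈ ciS F := by
    intro i
    rw [mkP_eq (hι1 i), mem_surf_mk hF]
    intro l
    obtain ⟨v, hv1, hv2⟩ := effb_value (hFκ l) (x i) ι hι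
    rw [← hv2]
    have h1 : (v : Ω) = 0 := by
      rw [hv1]
      have h2 : (fun j => (x i j : Ω)) = fun j => t i * Γ.pts i j := funext (hxt i)
      rw [h2, aeval_def, eval₂_eq']
      have h3 : aeval (Γ.pts i) (F l) = 0 := Γ.pts_mem i l
      rw [aeval_def, eval₂_eq'] at h3
      rw [← mul_zero ((t i) ^ d l), ← h3, Finset.mul_sum]
      refine Finset.sum_congr rfl fun m hm => ?_
      have h4 : m.degree = d l := by
        by_contra h
        exact (mem_support_iff.mp hm) ((hF l).coeff_eq_zero h)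
      have h5 : ∏ j, (t i * Γ.pts i j) ^ m j = (t i) ^ d l * ∏ j, Γ.pts i j ^ m j := by
        simp only [mul_pow, Finset.prod_mul_distrib, Finset.prod_pow_eq_pow_sum]
        congr 2
        rw [← h4, Finsupp.degree_eq_sum]
      rw [h5]
      ring
    have h2 : v = 0 := Subtype.ext h1
    rw [h2, map_zero]
  -- the factorisation over `cloΩ`
  have hlin : ∀ i, map (cloΩ κ ξ).subtype (linF (x i)) = C (t i) * linF (Γ.pts i) := by
    intro i
    unfold linF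
    rw [map_sum, Finset.mul_sum]
    refine Finset.sum_congr rfl fun j _ => ?_
    rw [map_mul, map_C, map_X, ← mul_assoc, ← C_mul]
    congr 2
    exact hxt i j
  have hlin0 : ∀ i, linF (x i) ≠ 0 := by
    intro i h
    have h1 : coeff (Finsupp.single (j₀ i) 1) (linF (x i)) = 1 := by
      unfold linF
      rw [coeff_sum, Finset.sum_eq_single (j₀ i)]
      · rw [coeff_C_mul, coeff_X, if_pos rfl, mul_one, hx1]
      · intro b _ hb
        rw [coeff_C_mul, coeff_X, if_neg, mul_zero]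
        intro h2
        exact hb ((Finsupp.single_left_inj one_ne_zero).1 h2)
      · intro h2
        exact absurd (Finset.mem_univ _) h2
    rw [h, coeff_zero] at h1
    exact zero_ne_one h1
  obtain ⟨m, hm⟩ := ne_zero_iff.1 (Finset.prod_ne_zero_iff.2 fun i (_ : i ∈ Finset.univ) => hlin0 i)
  have hP3 : map (cloΩ κ ξ).subtype P =
      C (Γ.c * (∏ i, t i)⁻¹) * map (cloΩ κ ξ).subtype (∏ i, linF (x i)) := by
    rw [map_prod, Finset.prod_congr rfl fun i _ => hlin i, Finset.prod_mul_distrib, ← map_prod,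
      hΩ, ← mul_assoc, ← C_mul, mul_assoc, inv_mul_cancel₀ (Finset.prod_ne_zero_iff.2
        fun i _ => ht i), mul_one]
  have hc' : Γ.c * (∏ i, t i)⁻¹ ≠ 0 :=
    mul_ne_zero Γ.c_ne (inv_ne_zero (Finset.prod_ne_zero_iff.2 fun i _ => ht i))
  have hcm : ((coeff m P / coeff m (∏ i, linF (x i)) : cloΩ κ ξ) : Ω) =
      Γ.c * (∏ i, t i)⁻¹ := by
    have h1 := congrArg (coeff m) hP3
    rw [coeff_C_mul, coeff_map, coeff_map] at h1
    have h2 : (cloΩ κ ξ).subtype (coeff m (∏ i, linF (x i))) ≠ 0 := by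
      rw [Ne, map_eq_zero]
      exact hm
    change (cloΩ κ ξ).subtype (coeff m P / coeff m (∏ i, linF (x i))) = _
    rw [map_div₀, h1, mul_div_assoc, div_self h2, mul_one]
  obtain ⟨c', hc1⟩ : ∃ c' : cloΩ κ ξ, (c' : Ω) = Γ.c * (∏ i, t i)⁻¹ := ⟨_, hcm⟩
  have hc2 : c' ≠ 0 := by
    intro h
    rw [h] at hc1
    exact hc' hc1.symm
  have hP4 : P = C c' * ∏ i, linF (x i) := by
    apply map_injective (cloΩ κ ξ).subtype (cloΩ κ ξ).subtype.injective
    rw [hP3, map_mul (map (cloΩ κ ξ).subtype) (C c') _, map_C]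
    congr 2
    exact hc1.symm
  have hlinι : ∀ i, map ι (linF (x i)) = linForm (fun j => ι (x i j)) := by
    intro i
    unfold linF linForm
    rw [map_sum]
    refine Finset.sum_congr rfl fun j _ => ?_
    rw [map_mul, map_C, map_X]
  have hP5 : map (eval z) Γ.Φ = C (ι c') * ∏ i, linForm (fun j => ι (x i j)) := by
    rw [← hP2, hP4, map_mul, map_C, map_prod, Finset.prod_congr rfl fun i _ => hlinι i]
  -- the Chow form at the representative
  obtain ⟨a, ha⟩ := Projectivization.exists_smul_eq_mk_rep ℂ z hz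
  have hat : Γ.at (Projectivization.mk ℂ z hz : PN n).rep = C ((a : ℂ) ^ Γ.e) * map (eval z) Γ.Φ := by
    unfold EffCorr.at
    ext n'
    rw [coeff_map, coeff_C_mul, coeff_map]
    have h1 : ∀ i, (Projectivization.mk ℂ z hz : PN n).rep i = (a : ℂ) * z i := by
      intro i
      rw [← ha]
      rfl
    exact aeval_scale (Γ.hom n') h1
  have hb : ∀ i, ∃ b : ℂ, b ≠ 0 ∧ linForm (fun j => ι (x i j)) =
      C b * linForm (mkP (fun j => ι (x i j))).rep := by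
    intro i
    obtain ⟨b, hb0, hb⟩ := linForm_mk (hι1 i)
    refine ⟨b, hb0, ?_⟩
    rw [mkP_eq (hι1 i)]
    exact hb
  choose b hb0 hb using hb
  refine ⟨t, x, ht, hxt, fun i => ⟨j₀ i, hx1 i⟩, hsurf, (a : ℂ) ^ Γ.e * (ι c' * ∏ i, b i), ?_, ?_⟩
  · refine mul_ne_zero (pow_ne_zero _ a.ne_zero) (mul_ne_zero ?_
      (Finset.prod_ne_zero_iff.2 fun i _ => hb0 i))
    rw [Ne, map_eq_zero]
    exact hc2
  · rw [hat, hP5, Finset.prod_congr rfl fun i _ => hb i, Finset.prod_mul_distrib, ← map_prod,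
      Multiset.map_map]
    unfold chowForm
    rw [Multiset.map_map, C_mul, C_mul, mul_assoc, mul_assoc]
    rfl

section

variable {F : Fin m → MvPolynomial (Fin n) ℂ} {d : Fin m → ℕ}

/-- over a generic point the Chow form of an effective correspondence splits into points -/
theorem effT_chow [IsAlgClosed Ω] (hF : ∀ i, (F i).IsHomogeneous (d i)) {ξ : Fin n → Ω}
    (hξ : IsGenericPoint F ξ) (K K' : Fl) [Countable K] (hFK : ∀ i, Coef K (F i))
    (hK' : K' ≤ clo K)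
    (hc : ∀ p ∈ Gen (clo K) F, ∀ q ∈ Gen (clo K) F, ∃ σ ∈ VGS.Fix (clo K), act σ p = q)
    {w : ℕ} (Γ : EffCorr F ξ w) (hΓ : CoefE K' Γ) :
    ∀ p ∈ Gen K F, ∃ s : Multiset (ciS F), IsChowForm (ciS F) (Γ.at p.rep) s := by
  have hFκ : ∀ i, Coef (clo K) (F i) := fun i => (hFK i).mono (le_clo K)
  have hΓκ : CoefE (clo K) Γ := fun m => (hΓ m).mono hK'
  intro p hp
  have hp1 : p ∈ Gen (clo K) F := by
    rw [VCI.gen_clo]
    exact hp
  obtain ⟨z, hz, -, hpz, ρ, h1, h2⟩ := exists_rho' hF hξ (clo K) hFκ hc hp1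
  have hn : NeZero n := by
    obtain ⟨i, -⟩ := hξ.one
    exact ⟨fun h => by subst h; exact i.elim0⟩
  obtain ⟨t, x, ht, hx, hx1, hs, hch⟩ :=
    eff_pts hF (clo K) (clo_clo K) hFκ Γ hΓκ hz ((ρ.symm : Ω →+* ℂ).comp (cloΩ (clo K) ξ).subtype)
      (fun c hc h => by
        change ρ.symm (algebraMap ℂ Ω c) = c
        rw [← h1 c hc, RingEquiv.symm_apply_apply])
      (fun j h => by
        change ρ.symm (ξ j) = z j
        rw [← h2 j, RingEquiv.symm_apply_apply])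
  rw [← hpz] at hch
  exact ⟨_, hch⟩

end

theorem effT_isT2 {F : Fin m → MvPolynomial (Fin (r + 3)) ℂ} {d : Fin m → ℕ} {K : Fl}
    {ξ : Fin (r + 3) → Ω} [IsAlgClosed Ω] (hX : Sfc0 F d K) (hξ : IsGenericPoint F ξ) {K' : Fl}
    (hKK' : K ≤ K') (hK' : K' ≤ clo K) {w : ℕ} (Γ : EffCorr F ξ w) (hΓ : CoefE K' Γ) :
    (∀ p ∈ Gen K F, ∃ s : Multiset (ciS F), IsChowForm (ciS F) (Γ.at p.rep) s) ∧
      (∀ p ∈ Gen K F, ∀ q ∈ (effT Γ p).support, q ∈ ciS F) ∧
      ∀ σ ∈ VGS.Fix K', ∀ p ∈ Gen K F, effT Γ (act σ p) = actC σ (effT Γ p) := by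
  have := hX.cK
  have hc : ∀ p ∈ Gen (clo K) F, ∀ q ∈ Gen (clo K) F, ∃ σ ∈ VGS.Fix (clo K), act σ p = q := by
    rw [VCI.gen_clo]
    exact hX.conj K hX.cK le_rfl
  have key := effT_chow hX.hom hξ K K' hX.coef hK' hc Γ hΓ
  obtain ⟨h1, h2⟩ := effT_of_chow hX.hom hX.coef hKK' Γ hΓ key
  exact ⟨key, h1, h2⟩

end Pool.Agent.VRC
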