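import Pool.Agent.VRC.SDefs

/-! The ground field of a surface can be enlarged. -/

set_option autoImplicit false

open MvPolynomial

namespace Pool.Agent.VRC

open Pool.Agent.VGS (Fl clo Coef clo_mono)
open Pool.Agent.VCI

variable {m r : ℕ} {F : Fin m → MvPolynomial (Fin (r + 3)) ℂ} {d : Fin m → ℕ} {K : Fl}

theorem Sfc0.mono (hX : Sfc0 F d K) {L : Fl} (hL : Countable L) (hKL : K ≤ L) : Sfc0 F d L where
  hom := hX.hom
  coef := fun i => (hX.coef i).mono hKL
  cK := hL
  loc := fun z hz => by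
    obtain ⟨I, B, hB, h1, h2, h3⟩ := hX.loc z hz
    exact ⟨I, B, hB.mono (clo_mono hKL), h1, h2, h3⟩
  conj := fun M hM hLM => hX.conj M hM (hKL.trans hLM)
  gen := hX.gen

end Pool.Agent.VRC
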