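import Pool.Agent.VRC.Base
import Pool.Agent.VCI.Mu

/-! Surfaces in rationally connected varieties: the moving lemma and the equivariant choice of
generic cycles (after VCI/MuC, VCI/Mu). -/

set_option autoImplicit false

open scoped LinearAlgebra.Projectivization
open MvPolynomial

namespace Pool.Agent.VRC

open Pool.Agent.Chow0 (IsLink)
open Pool.Agent.VGS (Fl adj clo Coef Kills IsPl Sp le_adj le_clo subset_adj adj_le clo_mono ai_mono
  ai_mono_clo ai_iff ai_sum ai_pair mem_clo clo_clo exists_place exists_algInd)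
open Pool.Agent.VCI hiding gen_of_comb exists_z MuI exists_mupar mupar_split exists_ismu mu_ind
  inst_move inst_mu

variable {m r : ℕ} {F : Fin m → MvPolynomial (Fin (r + 3)) ℂ} {d : Fin m → ℕ} {K K₀ : Fl}

theorem gen_of_comb {K L : Fl} (hKL : K ≤ L) {w : Fin (r + 3) → ℂ} (hw : ∀ l, w l ∈ L)
    {b : Fin r → Fin (r + 3) → ℂ}
    (hb : AlgebraicIndependent L fun jl : Fin r × Fin (r + 3) => b jl.1 jl.2)
    {x : Fin (r + 3) → ℂ} (hx0 : x ≠ 0)
    (hxF : (Projectivization.mk ℂ x hx0 : PN (r + 3)) ∈ ciS F) {α : ℂ}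
    {γ : Fin r → ℂ} (hx : ∀ l, x l = α * w l + ∑ j, γ j * b j l) (hγ : ∃ j, γ j ≠ 0) :
    (Projectivization.mk ℂ x hx0 : PN (r + 3)) ∈ Gen K F :=
  ⟨hxF, (VCI.gen_of_comb (F := fun _ : Fin r => 0) (by omega) hKL hw hb hx0
    (fun i => by rw [map_zero]) hx hγ).2⟩

theorem exists_z (hX : Sfc0 F d K₀) {K E₀ L : Fl} [Countable E₀] (hK₀ : K₀ ≤ K) (hKL : K ≤ L)
    (hKE : K ≤ E₀) {b₀ : Fin (r + 3) → ℂ} {b : Fin r → Fin (r + 3) → ℂ} (hb₀E : ∀ l, b₀ l ∈ E₀)
    (hbE : ∀ j l, b j l ∈ E₀) (hb₀ : AlgebraicIndependent L b₀)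
    (hb : AlgebraicIndependent (adj L (Set.range b₀))
      fun jl : Fin r × Fin (r + 3) => b jl.1 jl.2)
    {q : PN (r + 3)} (hq : q ∈ ciS F) (hqL : Over L q) :
    ∃ s t : Multiset (ciS F), IsMu E₀ K F ⟨q, hq⟩ s t := by
  classical
  have hn : r + 2 < r + 3 := by omega
  have hF := hX.hom
  have hFK : ∀ i, Coef K (F i) := fun i => (hX.coef i).mono hK₀
  have hb₀M : ∀ l, b₀ l ∈ adj L (Set.range b₀) := fun l => subset_adj _ _ ⟨l, rfl⟩
  have hbL : AlgebraicIndependent L fun jl : Fin r × Fin (r + 3) => b jl.1 jl.2 :=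
    ai_mono (le_adj _ _) hb
  obtain ⟨z, hz, i₀, hzi, rfl⟩ := exists_nrm q
  have hzL : ∀ l, z l ∈ L := (over_mk hz hzi).1 hqL
  have hzF : ∀ i, aeval z (F i) = 0 := (mem_surf_mk hF hz).1 hq
  obtain ⟨I, hli, -, hloc⟩ := hX.exists_loc ⟨hz, hzF⟩
  obtain ⟨E, hE⟩ : ∃ E : Fl, E = adjP E₀ (Projectivization.mk ℂ z hz) := ⟨_, rfl⟩
  have hE₀E : E₀ ≤ E := by rw [hE]; exact le_adjP _ _
  have hEc : Countable E := by rw [hE]; infer_instance
  have hKE' : K ≤ E := hKE.trans hE₀E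
  have hzE : ∀ l, z l ∈ E := by
    rw [hE, adjP_mk hz hzi]
    exact fun l => subset_adj _ _ ⟨l, rfl⟩
  have hbE' : ∀ j l, b j l ∈ E := fun j l => hE₀E (hbE j l)
  have hb₀E' : ∀ l, b₀ l ∈ E := fun l => hE₀E (hb₀E l)
  have hFE : ∀ i, Coef E (F i) := fun i => (hFK i).mono hKE'
  have hEC : E ≤ clo E := le_clo E
  have hFC : ∀ i, Coef (clo E) (F i) := fun i => (hFE i).mono hEC
  have hJ : (jacM (fun j => F (I j)) z b).det ≠ 0 :=
    jac_ne (fun i => (hFK (I i)).mono hKL) hzL hli hbL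
  obtain ⟨V, u, c, x, hV, hu0, huC, hxz, hxI, hx, hc⟩ := exists_branch (C := clo E) (clo_clo E)
    (fun j => hFC (I j)) (q := z) (b₀ := b₀) (b := b) (fun l => hEC (hzE l))
    (fun l => hEC (hb₀E' l)) (fun j l => hEC (hbE' j l)) (fun j => hzF (I j)) hJ
  have hxF : ∀ i, aeval x (F i) = 0 := hloc (clo E) V (clo_mono (hK₀.trans hKE')) hV x hxz hxI
  have hx0 : x ≠ 0 := by
    intro h0
    have h1 := (hxz i₀).ne_zero hV (by rw [hzi]; exact one_ne_zero)
    rw [h0] at h1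
    exact h1 rfl
  -- the family
  have hadj : adj (clo E) {u} ≤ clo (adj E {u}) :=
    adj_le (clo_mono (le_adj _ _)) ((subset_adj E {u}).trans (le_clo _))
  have hcE : ∀ j, c j ∈ clo (adj E {u}) := fun j => by
    have h1 := clo_mono hadj (hc j)
    rwa [clo_clo] at h1
  have huE : u ∈ clo (adj E {u}) := le_clo _ (subset_adj _ _ rfl)
  have hEu : E ≤ clo (adj E {u}) := (le_adj _ _).trans (le_clo _)
  have hxE : ∀ l, x l ∈ clo (adj E {u}) := fun l => by
    rw [hx l]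
    exact add_mem (add_mem (hEu (hzE l)) (mul_mem huE (hEu (sub_mem (hb₀E' l) (hzE l)))))
      (sum_mem fun j _ => mul_mem (hcE j) (hEu (hbE' j l)))
  obtain ⟨S, hSn, hS, hSσ⟩ := exists_orbit (M := adj E {u}) (p := Projectivization.mk ℂ x hx0)
    ⟨x, hx0, hxE, rfl⟩
  have hxS : Projectivization.mk ℂ x hx0 ∈ S := (hS _).2 ⟨1, one_mem _, act_one _⟩
  have hform : ∀ p ∈ S, ∃ (y : Fin (r + 3) → ℂ) (hy : y ≠ 0) (c' : Fin r → ℂ),
      p = Projectivization.mk ℂ y hy ∧ ∀ l, y l = z l + u * (b₀ l - z l) + ∑ j, c' j * b j l := by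
    intro p hp
    obtain ⟨σ, hσ, rfl⟩ := (hS p).1 hp
    have hσE : ∀ y ∈ E, σ y = y := fun y hy => hσ y (le_adj _ _ hy)
    have hσu : σ u = u := hσ u (subset_adj _ _ rfl)
    refine ⟨fun l => σ (x l), map_ne_zero' σ hx0, fun j => σ (c j), act_mk σ x hx0 _,
      fun l => ?_⟩
    beta_reduce
    rw [hx l, map_add, map_add, map_mul, map_sub, map_sum, hσE _ (hzE l), hσE _ (hb₀E' l), hσu]
    congr 1
    refine Finset.sum_congr rfl fun j _ => ?_
    rw [map_mul, hσE _ (hbE' j l)]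
  have hSF : ∀ p ∈ S, p ∈ ciS F := by
    intro p hp
    obtain ⟨σ, hσ, rfl⟩ := (hS p).1 hp
    exact (act_mem_surf hF (fun i => (hFE i).mono (le_adj _ _)) hσ).2 ((mem_surf_mk hF hx0).2 hxF)
  have hSo : ∀ p ∈ S, Over (clo (adj E {u})) p := by
    intro p hp
    obtain ⟨σ, hσ, rfl⟩ := (hS p).1 hp
    exact (over_clo_act hσ).2 ⟨x, hx0, hxE, rfl⟩
  have hfam : IsFam E u S := ⟨hSo, hSσ⟩
  -- the limits
  have hlim : ∀ (V' : ValuationSubring ℂ) (e : ℂ), IsPl V' (clo E) → Sp V' (clo E) u e →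
      ∃ f : PN (r + 3) → PN (r + 3), ∀ p ∈ S, SpP V' (clo E) p (f p) := by
    intro V' e hV' he
    have h1 : ∀ p, ∃ p', p ∈ S → SpP V' (clo E) p p' := by
      intro p
      by_cases hp : p ∈ S
      · obtain ⟨p', hp'⟩ := exists_spP (clo_clo E) hV' huC he ((hSo p hp).mono
          (clo_mono (adj_le ((le_clo E).trans (le_adj _ _)) (subset_adj _ _))))
        exact ⟨p', fun _ => hp'⟩
      · exact ⟨p, fun h => absurd h hp⟩
    choose f hf using h1
    exact ⟨f, hf⟩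
  obtain ⟨V₁, hV₁, hu1⟩ := exists_place (clo_clo E) huC (clo E).one_mem
  obtain ⟨f, hf⟩ := hlim V 0 hV hu0
  obtain ⟨g, hg⟩ := hlim V₁ 1 hV₁ hu1
  have hfσ : ∀ σ ∈ VGS.Fix E, (S.map f).map (act σ) = S.map f := fun σ hσ =>
    stable_ms huC hfam E.zero_mem hV hu0 hf hσ
  have hgσ : ∀ σ ∈ VGS.Fix E, (S.map g).map (act σ) = S.map g := fun σ hσ =>
    stable_ms huC hfam E.one_mem hV₁ hu1 hg hσ
  have hfx : f (Projectivization.mk ℂ x hx0) = Projectivization.mk ℂ z hz :=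
    (hf _ hxS).unique hV ⟨x, z, hx0, hz, rfl, rfl, hxz⟩
  -- only the given point of the family specialises to `q`
  have huniq : ∀ p ∈ S, f p = Projectivization.mk ℂ z hz → p = Projectivization.mk ℂ x hx0 := by
    intro p hp hpf
    obtain ⟨y, hy, c', hpy, hyl⟩ := hform p hp
    have h1 := hf p hp
    rw [hpf, hpy] at h1
    have h2 := lim_norm hV (w := z) (v := fun l => b₀ l - z l) (b := b)
      (fun l => hEC (hzE l)) (fun l => hEC (sub_mem (hb₀E' l) (hzE l)))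
      (fun j l => hEC (hbE' j l)) (li_cons (by omega) hzL hz hbL) hu0 hy hyl hz h1
    have h3 : ∀ i, aeval y (F i) = 0 := by
      have h4 := hSF p hp
      rw [hpy] at h4
      exact (mem_surf_mk hF hy).1 h4
    have h4 := branch_unique hV (fun j => hFC (I j)) (b := b) (fun j l => hEC (hbE' j l))
      (w := fun l => z l + u * (b₀ l - z l)) hx hyl hxz h2 hxI (fun j => h3 (I j)) hJ
    rw [hpy]
    congr 1
  -- the limits are generic
  have hfgen : ∀ p ∈ S, f p ≠ Projectivization.mk ℂ z hz → f p ∈ Gen K F := by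
    intro p hp hne
    obtain ⟨y, hy, c', hpy, hyl⟩ := hform p hp
    have h1 := hf p hp
    rw [hpy] at h1
    obtain ⟨y', hy', α, γ, h2, h3⟩ := lim_span hV (w := z) (v := fun l => b₀ l - z l) (b := b)
      (fun l => hEC (hzE l)) (fun l => hEC (sub_mem (hb₀E' l) (hzE l)))
      (fun j l => hEC (hbE' j l)) (li_cons (by omega) hzL hz hbL) hu0 hy hyl h1
    have h4 : f p ∈ ciS F := SpP.mem_surf hV hF hFC (hf p hp) (hSF p hp)
    have h5 : ∃ j, γ j ≠ 0 := by
      by_contra h6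
      push Not at h6
      have h7 : ∀ l, y' l = α * z l := by
        intro l
        rw [h3 l, Finset.sum_eq_zero, add_zero]
        intro j _
        rw [h6 j, zero_mul]
      apply hne
      rw [hpy, h2]
      exact mk_eq_mk_of_mul hy' hz h7
    rw [hpy] at h4 ⊢
    rw [h2] at h4 ⊢
    exact gen_of_comb hKL hzL hbL hy' h4 h3 h5
  have hggen : ∀ p ∈ S, g p ∈ Gen K F := by
    intro p hp
    obtain ⟨y, hy, c', hpy, hyl⟩ := hform p hp
    have h1 := hg p hp
    rw [hpy] at h1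
    have hb₀0 : b₀ ≠ 0 := by
      intro h0
      have h9 := hb₀.ne_zero ⟨0, by omega⟩
      exact h9 (congrFun h0 _)
    have hu' : Sp V₁ (clo E) (u - 1) 0 := by
      have h9 := Sp.sub hV₁ hu1 (Sp.const hV₁ (clo E).one_mem)
      rwa [sub_self] at h9
    obtain ⟨y', hy', α, γ, h2, h3⟩ := lim_span hV₁ (w := b₀) (v := fun l => b₀ l - z l) (b := b)
      (fun l => hEC (hb₀E' l)) (fun l => hEC (sub_mem (hb₀E' l) (hzE l)))
      (fun j l => hEC (hbE' j l)) (li_cons (by omega) hb₀M hb₀0 hb) hu' hy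
      (fun l => by rw [hyl l]; ring) h1
    have h4 : g p ∈ ciS F := SpP.mem_surf hV₁ hF hFC (hg p hp) (hSF p hp)
    rw [hpy] at h4 ⊢
    rw [h2] at h4 ⊢
    by_cases h5 : ∃ j, γ j ≠ 0
    · exact gen_of_comb (hKL.trans (le_adj _ _)) hb₀M hb hy' h4 h3 h5
    · push Not at h5
      have h7 : ∀ l, y' l = α * b₀ l := by
        intro l
        rw [h3 l, Finset.sum_eq_zero, add_zero]
        intro j _
        rw [h5 j, zero_mul]
      exact gen_of_mul (by omega) hKL hb₀ hy' h4 h7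
  -- the multisets
  have hqfix : ∀ σ ∈ VGS.Fix E, act σ (Projectivization.mk ℂ z hz) = Projectivization.mk ℂ z hz :=
    fun σ hσ => by
      rw [hE] at hσ
      exact (mem_Fix_adjP.1 hσ).2
  obtain ⟨R, hR⟩ := Multiset.exists_cons_of_mem hxS
  have hRS : ∀ p ∈ R, p ∈ S := fun p hp => by
    rw [hR]
    exact Multiset.mem_cons_of_mem hp
  have hRx : ∀ p ∈ R, p ≠ Projectivization.mk ℂ x hx0 := by
    intro p hp h
    rw [hR, Multiset.nodup_cons, ← h] at hSn
    exact hSn.1 hp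
  have hRgen : ∀ p ∈ R.map f, p ∈ Gen K F := by
    intro p hp
    obtain ⟨p', hp', rfl⟩ := Multiset.mem_map.1 hp
    exact hfgen p' (hRS p' hp') fun h => hRx p' hp' (huniq p' (hRS p' hp') h)
  have hSgen : ∀ p ∈ S.map g, p ∈ Gen K F := by
    intro p hp
    obtain ⟨p', hp', rfl⟩ := Multiset.mem_map.1 hp
    exact hggen p' hp'
  have hSf : S.map f = Projectivization.mk ℂ z hz ::ₘ R.map f := by
    rw [hR, Multiset.map_cons, hfx]
  obtain ⟨s, hs⟩ : ∃ s : Multiset (ciS F), s.map Subtype.val = R.map f := by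
    have h1 : ∀ p ∈ R.map f, p ∈ ciS F := fun p hp => (hRgen p hp).1
    lift R.map f to Multiset (ciS F) using h1 with s
    exact ⟨s, rfl⟩
  obtain ⟨t, ht⟩ : ∃ t : Multiset (ciS F), t.map Subtype.val = S.map g := by
    have h1 : ∀ p ∈ S.map g, p ∈ ciS F := fun p hp => (hSgen p hp).1
    lift S.map g to Multiset (ciS F) using h1 with t
    exact ⟨t, rfl⟩
  refine ⟨s, t, fun σ hσ => ?_, fun p hp => ?_, fun p hp => ?_, ?_⟩
  · have hσ' : σ ∈ VGS.Fix E := by
      rw [hE]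
      exact hσ
    refine ⟨?_, by rw [ht, hgσ σ hσ']⟩
    rw [hs]
    have h1 := hfσ σ hσ'
    rw [hSf, Multiset.map_cons, hqfix σ hσ'] at h1
    exact (Multiset.cons_inj_right _).1 h1
  · apply hRgen
    rw [← hs]
    exact Multiset.mem_map_of_mem _ hp
  · apply hSgen
    rw [← ht]
    exact Multiset.mem_map_of_mem _ hp
  · exact link_msZ huC hfam hF hFE hSF hV hV₁ hu0 hu1 hf hg
      (by rw [Multiset.map_cons, hs, hSf]) ht

/-! ### the parameters -/

/-- the index set of the parameters -/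
abbrev MuI (r : ℕ) : Type := Fin (r + 3) ⊕ (Fin r × Fin (r + 3))

theorem mupar_split {L : Fl} {s : Fin (Fintype.card (MuI r)) → ℂ}
    (hs : AlgebraicIndependent L s) :
    AlgebraicIndependent L (fun l : Fin (r + 3) => s (Fintype.equivFin (MuI r) (Sum.inl l))) ∧
      AlgebraicIndependent
        (adj L (Set.range fun l : Fin (r + 3) => s (Fintype.equivFin (MuI r) (Sum.inl l))))
        fun jl : Fin r × Fin (r + 3) => s (Fintype.equivFin (MuI r) (Sum.inr (jl.1, jl.2))) := by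
  apply ai_sum.1
  have h1 : Sum.elim (fun l : Fin (r + 3) => s (Fintype.equivFin (MuI r) (Sum.inl l)))
      (fun jl : Fin r × Fin (r + 3) => s (Fintype.equivFin (MuI r) (Sum.inr (jl.1, jl.2)))) =
      s ∘ Fintype.equivFin (MuI r) := by
    funext x
    rcases x with x | x
    · rfl
    · rfl
  rw [h1]
  exact hs.comp _ (Fintype.equivFin (MuI r)).injective

/-! ### the moving lemma -/

theorem exists_ismu (hX : Sfc0 F d K₀) {K E₀ L : Fl} [Countable E₀] (hK₀ : K₀ ≤ K) (hKL : K ≤ L)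
    (hKE : K ≤ E₀) {s : Fin (Fintype.card (MuI r)) → ℂ} (hsE : ∀ i, s i ∈ E₀)
    (hs : AlgebraicIndependent L s) (q : ciS F) (hqL : Over L q.1) :
    ∃ s t : Multiset (ciS F), IsMu E₀ K F q s t := by
  obtain ⟨h1, h2⟩ := mupar_split hs
  exact exists_z hX hK₀ hKL hKE
    (b₀ := fun l => s (Fintype.equivFin (MuI r) (Sum.inl l)))
    (b := fun j l => s (Fintype.equivFin (MuI r) (Sum.inr (j, l))))
    (fun l => hsE _) (fun j l => hsE _) h1 h2 q.2 hqL

theorem inst_move (hX : Sfc F d K) (L : Fl) [Countable L] (hL : K ≤ L) {x : PN (r + 3)}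
    (hx : x ∈ ciS F) :
    ∃ z : Cy (r + 3), (∀ p ∈ z.support, p ∈ Gen L F) ∧ Finsupp.single x 1 - z ∈ ratQ F := by
  obtain ⟨s, hs⟩ := exists_algInd (adjP L x) (Fintype.card (MuI r))
  have hc : Countable (adj L (Set.range s)) := by
    have : Countable (Set.range s) := (Set.countable_range s).to_subtype
    infer_instance
  obtain ⟨s', t, h⟩ := exists_ismu hX.toSfc0 (K := L) (E₀ := adj L (Set.range s))
    (L := adjP L x) hL (le_adjP L x) (le_adj _ _) (fun i => subset_adj _ _ ⟨i, rfl⟩) hs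
    ⟨x, hx⟩ (over_adjP L x)
  exact ⟨_, h.toQ.gen, h.toQ.rat⟩

/-- parameters which are independent over `L` remain independent over `L(p)`, if `p` is generic
over the field of the parameters -/
theorem mu_ind (hX : Sfc0 F d K) {L : Fl} (hL : K ≤ L) {ι : Type} {s : ι → ℂ}
    (hs : AlgebraicIndependent L s) {p : PN (r + 3)} (hp : p ∈ Gen (adj L (Set.range s)) F) :
    AlgebraicIndependent (clo (adjP (clo L) p)) s := by
  obtain ⟨z, hz, i, hzi, rfl⟩ := exists_nrm p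
  obtain ⟨j, l, h1, h2⟩ := hX.gen_algInd (hL.trans (le_adj L (Set.range s))) hz hzi hp
  have h1' : AlgebraicIndependent L ![z j, z l] := ai_mono (le_adj _ _) h1
  have hall : ∀ m, z m ∈ clo (adj L {z j, z l}) := fun m =>
    hX.alg_pair hL ⟨hz, (mem_surf_mk hX.hom hz).1 hp.1⟩ hzi
      (le_clo _ (subset_adj _ _ ⟨j, rfl⟩)) (le_clo _ (subset_adj _ _ ⟨l, rfl⟩)) h1'
      (le_clo _ (subset_adj _ _ ⟨m, rfl⟩))
  have h3 : AlgebraicIndependent L (Sum.elim s ![z j, z l]) := ai_sum.2 ⟨hs, h1⟩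
  have h4 : AlgebraicIndependent L (Sum.elim ![z j, z l] s) := by
    have h5 : Sum.elim ![z j, z l] s = (Sum.elim s ![z j, z l]) ∘ Sum.swap := by
      funext x
      rcases x with x | x
      · rfl
      · rfl
    rw [h5]
    exact h3.comp _ (Equiv.sumComm (Fin 2) ι).injective
  have h5 := (ai_sum.1 h4).2
  have hr : Set.range ![z j, z l] = {z j, z l} := by
    ext a
    simp [or_comm]
  rw [hr] at h5
  refine ai_mono_clo ?_ h5
  have h6 : adjP (clo L) (Projectivization.mk ℂ z hz : PN (r + 3)) ≤ clo (adj L {z j, z l}) := by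
    rw [adjP_mk hz hzi]
    refine adj_le (clo_mono (le_adj _ _)) ?_
    rintro _ ⟨m, rfl⟩
    exact hall m
  exact (clo_mono h6).trans (clo_clo _).le

theorem inst_mu (hX : Sfc F d K) (L : Fl) [Countable L] (hL : K ≤ L) :
    ∃ (N : ℕ) (s : Fin N → ℂ) (μ : PN (r + 3) → Cy (r + 3)), AlgebraicIndependent L s ∧
      (∀ σ ∈ VGS.Fix (adj K (Set.range s)), ∀ q ∈ ciS F, μ (act σ q) = actC σ (μ q)) ∧
      ∀ p ∈ Gen (adj L (Set.range s)) F, ∀ q ∈ ciS F,
        {y | ∃ σ ∈ VGS.Fix (clo L), act σ p = p ∧ act σ q = y}.Finite →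
        (∀ x ∈ (μ q).support, x ∈ Gen K F) ∧ Finsupp.single q 1 - μ q ∈ ratQ F := by
  obtain ⟨s, hs⟩ := exists_algInd L (Fintype.card (MuI r))
  have hKc : Countable K := hX.cK
  have hc : Countable (adj K (Set.range s)) := by
    have : Countable (Set.range s) := (Set.countable_range s).to_subtype
    infer_instance
  obtain ⟨μ, hμ, hμ'⟩ := exists_equivariant (E₀ := adj K (Set.range s)) (K := K)
    hX.hom hX.coef (le_adj _ _)
  refine ⟨_, s, μ, hs, fun σ hσ q _ => hμ σ hσ q, fun p hp q hq hfin => ?_⟩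
  have h1 := mu_ind hX.toSfc0 hL hs hp
  have h2 : Over (clo (adjP (clo L) p)) q := by
    apply over_clo_of_finite
    refine hfin.subset ?_
    rintro y ⟨σ, hσ, rfl⟩
    obtain ⟨h3, h4⟩ := mem_Fix_adjP.1 hσ
    exact ⟨σ, h3, h4, rfl⟩
  have hKL2 : K ≤ clo (adjP (clo L) p) :=
    hL.trans ((le_clo L).trans ((le_adjP _ _).trans (le_clo _)))
  obtain ⟨s', t, h⟩ := exists_ismu hX.toSfc0 (K := K) (E₀ := adj K (Set.range s))
    (L := clo (adjP (clo L) p)) le_rfl hKL2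
    (le_adj _ _) (fun i => subset_adj _ _ ⟨i, rfl⟩) h1 ⟨q, hq⟩ h2
  have h3 := hμ' q ⟨_, h.toQ⟩
  exact ⟨h3.gen, h3.rat⟩

end Pool.Agent.VRC
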