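import Pool.Agent.VRC.Irr
import Pool.Agent.VCI.Conj

/-!
# Surfaces in rationally connected varieties: generic points of an irreducible surface are conjugate
-/

set_option autoImplicit false

open scoped LinearAlgebra.Projectivization
open MvPolynomial

namespace Pool.Agent.VRC

open Pool.Agent.VGS (Fl adj clo Coef le_clo)
open Pool.Agent.VCI

variable {m n r : ℕ}

/-- the homogenisation with the coordinate `X i` -/
noncomputable def ciHom (i : Fin n) (P : MvPolynomial (Fin n) ℂ) : MvPolynomial (Fin n) ℂ :=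
  ∑ e ∈ Finset.range (P.totalDegree + 1), X i ^ (P.totalDegree - e) * homogeneousComponent e P

theorem ciHom_aeval {i : Fin n} {x : Fin n → ℂ} (hx : x i = 1) (P : MvPolynomial (Fin n) ℂ) :
    aeval x (ciHom i P) = aeval x P := by
  unfold ciHom
  rw [map_sum]
  conv_rhs => rw [← sum_homogeneousComponent P, map_sum]
  refine Finset.sum_congr rfl fun e _ => ?_
  rw [map_mul, map_pow, aeval_X, hx, one_pow, one_mul]

theorem ciHom_hom (i : Fin n) (P : MvPolynomial (Fin n) ℂ) :
    (ciHom i P).IsHomogeneous P.totalDegree := by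
  refine IsHomogeneous.sum _ _ _ fun e he => ?_
  have h1 := ((isHomogeneous_X ℂ i).pow (P.totalDegree - e)).mul
    (homogeneousComponent_isHomogeneous e P)
  rw [Finset.mem_range] at he
  have h2 : 1 * (P.totalDegree - e) + e = P.totalDegree := by omega
  rwa [h2] at h1

theorem ciHom_coef {L : Fl} (i : Fin n) {P : MvPolynomial (Fin n) ℂ} (hP : Coef L P) :
    Coef L (ciHom i P) := by
  intro u
  unfold ciHom
  rw [coeff_sum]
  refine sum_mem fun e _ => ?_
  rw [mul_comm, X_pow_eq_monomial, coeff_mul_monomial']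
  split_ifs with h
  · rw [coeff_homogeneousComponent, mul_one]
    split_ifs
    · exact hP _
    · exact L.zero_mem
  · exact L.zero_mem

/-- generic points of an irreducible surface are conjugate -/
theorem conj_of_irr {F : Fin m → MvPolynomial (Fin (r + 3)) ℂ} {d : Fin m → ℕ} (hirr : IsIrr F)
    (hF : ∀ i, (F i).IsHomogeneous (d i))
    (htan : ∀ z ∈ cone F, ∀ v : Fin 4 → Fin (r + 3) → ℂ, (∀ a i, dFc (F i) z (v a) = 0) →
      ¬ LinearIndependent ℂ v) {L : Fl} (hLc : Countable L) (hFL : ∀ i, Coef L (F i)) :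
    ∀ p ∈ Gen L F, ∀ q ∈ Gen L F, ∃ σ ∈ VGS.Fix (clo L), act σ p = q := by
  intro p hp q hq
  obtain ⟨z, hz, i, j, l, hi, rfl, hzF, hzi⟩ := gen_nrm hF hp
  obtain ⟨y, hy, i', j', l', hi', rfl, hyF, hyi⟩ := gen_nrm hF hq
  -- relations of a generic point hold on the surface
  have key : ∀ (x : Fin (r + 3) → ℂ) (a b c : Fin (r + 3)), x ∈ cone F → x a = 1 →
      AlgebraicIndependent L ![x b, x c] → ∀ (P : MvPolynomial (Fin (r + 3)) ℂ) (e : ℕ),
      P.IsHomogeneous e → Coef (clo L) P → aeval x P = 0 → ∀ y ∈ cone F, aeval y P = 0 := by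
    intro x a b c hx hxa hai P e hP hPL h0
    refine gen_rel (e := 2) hirr (fun j => ⟨d j, hF j⟩) L hFL hx hxa ![b, c] ?_ (htan x hx) hP
      hPL h0
    have h1 : (fun s : Fin 2 => x (![b, c] s)) = ![x b, x c] := by
      funext s
      fin_cases s <;> rfl
    rw [h1]
    exact hai
  have hzc : z ∈ cone F := ⟨hz, hzF⟩
  have hyc : y ∈ cone F := ⟨hy, hyF⟩
  have hyi0 : y i ≠ 0 := by
    intro h0
    have h1 := key y i' j' l' hyc hi' hyi (X i) 1 (isHomogeneous_X ℂ i) (by
      intro u
      rw [coeff_X]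
      split_ifs
      · exact (clo L).one_mem
      · exact (clo L).zero_mem) (by rw [aeval_X]; exact h0) z hzc
    rw [aeval_X, hi] at h1
    exact one_ne_zero h1
  -- the same normalisation
  obtain ⟨w, hwdef⟩ : ∃ w : Fin (r + 3) → ℂ, w = fun a => (y i)⁻¹ * y a := ⟨_, rfl⟩
  have hwi : w i = 1 := by rw [hwdef]; exact inv_mul_cancel₀ hyi0
  have hw : w ≠ 0 := by
    intro h
    rw [h] at hwi
    exact zero_ne_one hwi
  have hyw : ∀ a, y a = y i * w a := by
    intro a
    rw [hwdef]
    exact (mul_inv_cancel_left₀ hyi0 _).symm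
  have hpt : Projectivization.mk ℂ y hy = Projectivization.mk ℂ w hw :=
    mk_eq_mk_of_mul _ _ (a := y i) hyw
  have hwc : w ∈ cone F := by
    refine ⟨hw, fun a => ?_⟩
    have h1 := aeval_scale (hF a) hyw
    rw [hyF a] at h1
    exact (mul_eq_zero.1 h1.symm).resolve_left (pow_ne_zero _ hyi0)
  obtain ⟨σ, hσ, h⟩ := VGS.exists_fix (clo L) z w (fun P hP => by
    constructor
    · intro h0
      rw [← ciHom_aeval hi] at h0
      have h1 := key z i j l hzc hi hzi _ _ (ciHom_hom i P) (ciHom_coef i hP) h0 w hwc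
      rwa [ciHom_aeval hwi] at h1
    · intro h0
      rw [← ciHom_aeval hwi] at h0
      have h2 : aeval y (ciHom i P) = 0 := by
        rw [aeval_scale (ciHom_hom i P) hyw, h0, mul_zero]
      have h1 := key y i' j' l' hyc hi' hyi _ _ (ciHom_hom i P) (ciHom_coef i hP) h2 z hzc
      rwa [ciHom_aeval hi] at h1)
  refine ⟨σ, hσ, ?_⟩
  rw [act_mk σ z hz (map_ne_zero' σ hz), hpt]
  congr 1
  exact funext h

end Pool.Agent.VRC
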