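import Pool.Agent.VRC.PenB
import Pool.Agent.VCI.PenC

/-! The number of points of a section, and the continuity of the sections. -/

set_option autoImplicit false

open MvPolynomial

namespace Pool.Agent.VRC

open Pool.Agent.VGS (Fl adj clo Coef IsPl Sp le_adj le_clo subset_adj adj_le clo_mono clo_clo
  ai_sum ai_mono aeval_fix fix_mem_clo exists_algInd)
open Pool.Agent.VCI

/-- a field automorphism which fixes the coefficients maps sections to sections -/
theorem sec_conj {m n r : ℕ} {F : Fin m → MvPolynomial (Fin n) ℂ} {K : Fl}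
    (hFK : ∀ i, Coef K (F i)) {σ : ℂ ≃+* ℂ} (hσ : σ ∈ VGS.Fix K) {w w' : Fin n → ℂ}
    {b b' : Fin r → Fin n → ℂ} (hw : ∀ l, σ (w l) = w' l) (hb : ∀ j l, σ (b j l) = b' j l)
    {c : Fin r → ℂ} (hc : c ∈ SecC F w b) : (fun j => σ (c j)) ∈ SecC F w' b' := by
  intro i
  have h1 : vec w' b' (fun j => σ (c j)) = fun l => σ (vec w b c l) := by
    funext l
    unfold vec
    rw [map_add, map_sum, hw]
    congr 1
    exact Finset.sum_congr rfl fun j _ => by rw [map_mul, hb]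
  rw [h1, aeval_fix (hFK i) hσ, hc i, map_zero]

variable {m r : ℕ} {F : Fin m → MvPolynomial (Fin (r + 3)) ℂ} {d : Fin m → ℕ} {K : Fl}

/-- the number of points of `X ∩ ⟨x, b_1, …, b_r⟩` does not depend on `x` and `b` -/
theorem sec_card (hX : Sfc F d K) : ∃ D : ℕ, ∀ (E : Fl) [Countable E], clo E = E → K ≤ E →
      ∀ x ∈ cone F, (∀ l, x l ∈ E) → ∀ (b : Fin r → Fin (r + 3) → ℂ),
      AlgebraicIndependent E (fun jl : Fin r × Fin (r + 3) => b jl.1 jl.2) →
        (SecC F x b).ncard = D := by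
  classical
  have hFK : ∀ i, Coef K (F i) := hX.coef
  have hcK : Countable K := hX.cK
  obtain ⟨y, hy⟩ : ∃ y : Fin (r + 3) ⊕ Fin r × Fin (r + 3) → ℂ,
      AlgebraicIndependent K y := by
    obtain ⟨x, hx⟩ := exists_algInd K
      (Fintype.card (Fin (r + 3) ⊕ Fin r × Fin (r + 3)))
    exact ⟨x ∘ Fintype.equivFin _, hx.comp _ (Equiv.injective _)⟩
  refine ⟨(SecC F (fun l => y (Sum.inl l)) (fun j l => y (Sum.inr (j, l)))).ncard, ?_⟩
  intro E _ hE hKE x hxF hx b hb
  have hcb : Countable (Set.range fun jl : Fin r × Fin (r + 3) => b jl.1 jl.2) :=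
    (Set.countable_range _).to_subtype
  obtain ⟨b₀, hb₀⟩ := exists_algInd
    (adj E (Set.range fun jl : Fin r × Fin (r + 3) => b jl.1 jl.2)) (r + 3)
  have h1 : AlgebraicIndependent E
      (Sum.elim (fun jl : Fin r × Fin (r + 3) => b jl.1 jl.2) b₀) := ai_sum.2 ⟨hb, hb₀⟩
  have h2 : AlgebraicIndependent E
      (Sum.elim b₀ fun jl : Fin r × Fin (r + 3) => b jl.1 jl.2) := by
    refine (algebraicIndependent_equiv' (Equiv.sumComm (Fin (r + 3)) (Fin r × Fin (r + 3)))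
      (f := Sum.elim (fun jl : Fin r × Fin (r + 3) => b jl.1 jl.2) b₀) ?_).2 h1
    ext (i | i) <;> rfl
  rw [pen_card hX E hE hKE hx hxF h2]
  obtain ⟨σ, hσ, hσy⟩ := fs_exists_fix_ai K (ai_mono hKE h2) hy
  have hw : ∀ l, σ (b₀ l) = y (Sum.inl l) := fun l => hσy (Sum.inl l)
  have hbb : ∀ j l, σ (b j l) = y (Sum.inr (j, l)) := fun j l => hσy (Sum.inr (j, l))
  have himg : SecC F (fun l => y (Sum.inl l)) (fun j l => y (Sum.inr (j, l))) =
      (fun (c : Fin r → ℂ) j => σ (c j)) '' SecC F b₀ b := by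
    ext c
    constructor
    · intro hc
      refine ⟨fun j => σ⁻¹ (c j), sec_conj hFK ((VGS.Fix _).inv_mem hσ) (fun l => ?_)
        (fun j l => ?_) hc, ?_⟩
      · rw [← hw l]
        exact σ.symm_apply_apply _
      · rw [← hbb j l]
        exact σ.symm_apply_apply _
      · funext j
        exact σ.apply_symm_apply _
    · rintro ⟨c', hc', rfl⟩
      exact sec_conj hFK hσ hw hbb hc'
  rw [himg, Set.ncard_image_of_injective]
  intro c c₁ h
  funext j
  exact σ.injective (congrFun h j)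

/-- `X ∩ ⟨x, b⟩` specialises to `X ∩ ⟨x₀, b⟩` -/
theorem sec_cont (hX : Sfc F d K) (E : Fl) [Countable E] (hE : clo E = E) (hKE : K ≤ E) {u u₀ : ℂ}
    (hu : u ∉ E) {b : Fin r → Fin (r + 3) → ℂ}
    (hb : AlgebraicIndependent (clo (adj E {u}))
      (fun jl : Fin r × Fin (r + 3) => b jl.1 jl.2))
    {C : Fl} [Countable C] (hC : clo C = C) (hEC : E ≤ C) (hbC : ∀ j l, b j l ∈ C) (huC : u ∉ C)
    {V : ValuationSubring ℂ} (hV : IsPl V C) (hu₀ : Sp V C u u₀)
    {x x₀ : Fin (r + 3) → ℂ} (hx : ∀ l, x l ∈ clo (adj E {u})) (hxF : ∀ i, aeval x (F i) = 0)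
    (hx₀ : ∀ l, x₀ l ∈ E) (hx₀0 : x₀ ≠ 0) (hxx : ∀ l, Sp V C (x l) (x₀ l)) :
    ∃ e : (Fin r → ℂ) → (Fin r → ℂ), Set.BijOn e (SecC F x b) (SecC F x₀ b) ∧ e 0 = 0 ∧
      ∀ c ∈ SecC F x b, ∀ j, Sp V C (c j) (e c j) := by
  classical
  set E' : Fl := clo (adj E {u}) with hE'
  have hcE' : Countable E' := by
    have : Countable (adj E {u}) := VGS.countable_adj _ _
    infer_instance
  have hEE' : E ≤ E' := (VGS.le_adj _ _).trans (VGS.le_clo _)
  have hKE' : K ≤ E' := hKE.trans hEE'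
  have hFK : ∀ i, Coef K (F i) := hX.coef
  have hFC : ∀ i, Coef C (F i) := fun i => (hFK i).mono (hKE.trans hEC)
  have hbE : AlgebraicIndependent E (fun jl : Fin r × Fin (r + 3) => b jl.1 jl.2) :=
    VGS.ai_mono hEE' hb
  have hx0 : x ≠ 0 := by
    intro h
    apply hx₀0
    funext l
    have h1 := hxx l
    rw [h] at h1
    exact Sp.unique hV h1 (Sp.const hV (zero_mem C))
  have hx₀F : ∀ i, aeval x₀ (F i) = 0 := by
    intro i
    have h1 := Sp.aeval hV (hFC i) hxx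
    rw [hxF i] at h1
    exact (Sp.unique hV (Sp.const hV (zero_mem C)) h1).symm
  -- transversality at both ends
  have htx : ∀ c ∈ SecC F x b, Tr F (vec x b c) b := fun c hc =>
    sec_tra hX E' (VGS.clo_clo _) hKE' hx ⟨hx0, hxF⟩ hb hc
  have ht₀ : ∀ c ∈ SecC F x₀ b, Tr F (vec x₀ b c) b := fun c hc =>
    sec_tra hX E hE hKE hx₀ ⟨hx₀0, hx₀F⟩ hbE hc
  have hf₀ := secC_finite ht₀
  have hfx := secC_finite htx
  obtain ⟨D, hD⟩ := sec_card hX
  have hcard : (SecC F x b).ncard = (SecC F x₀ b).ncard := by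
    rw [hD E' (VGS.clo_clo _) hKE' x ⟨hx0, hxF⟩ hx b hb, hD E hE hKE x₀ ⟨hx₀0, hx₀F⟩ hx₀ b hbE]
  -- the limits
  have hlim : ∀ c ∈ SecC F x b, ∃ c' ∈ SecC F x₀ b, ∀ j, Sp V C (c j) (c' j) := by
    intro c hc
    refine lim_ex hX E hKE hbE hC hEC hbC hV huC hu₀ hxx hc (fun j => ?_)
    have hcC : Countable (adj C {u}) := VGS.countable_adj _ _
    have hcM : Countable (clo (adj C {u})) := inferInstance
    have hCM : C ≤ clo (adj C {u}) := (VGS.le_adj _ _).trans (VGS.le_clo _)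
    have hEM : E' ≤ clo (adj C {u}) := by
      refine VGS.clo_mono (VGS.adj_le (hEC.trans (VGS.le_adj _ _)) ?_)
      rintro _ rfl
      exact VGS.subset_adj _ _ rfl
    have h1 := sec_alg hX.toSfc0 (M := clo (adj C {u})) ((hKE.trans hEC).trans hCM)
      (fun l => hEM (hx l)) (fun j l => hCM (hbC j l))
      (vec_ne (by omega) hx hx0 hb c) (htx c hc) hc j
    rwa [VGS.clo_clo] at h1
  choose! e he1 he2 using hlim
  have h0 : (0 : Fin r → ℂ) ∈ SecC F x b := by
    intro i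
    have h1 : vec x b 0 = x := by
      funext l
      simp [vec]
    rw [h1]
    exact hxF i
  have he0 : e 0 = 0 := by
    funext j
    exact Sp.unique hV (he2 0 h0 j) (Sp.const hV (zero_mem C))
  have hinj : Set.InjOn e (SecC F x b) := by
    intro c hc c₁ hc₁ h
    refine lim_inj hV hFC hxx hbC (he2 c hc) (fun j => ?_) hc hc₁ (ht₀ _ (he1 c hc))
    rw [h]
    exact he2 c₁ hc₁ j
  refine ⟨e, ⟨he1, hinj, ?_⟩, he0, he2⟩
  have h1 : e '' SecC F x b = SecC F x₀ b := by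
    refine Set.eq_of_subset_of_ncard_le (Set.image_subset_iff.2 he1) ?_ hf₀
    rw [hinj.ncard_image, hcard]
  rw [← h1]
  exact Set.surjOn_image e _

end Pool.Agent.VRC
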