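import Pool.Agent.VCI.StDefs

/-!
# Surfaces in rationally connected varieties: definitions for the statement
-/

set_option autoImplicit false

open scoped LinearAlgebra.Projectivization
open MvPolynomial

namespace Pool.Agent.VRC

open Pool.Agent.Chow0 (IsChowForm)
open Pool.Agent.VGS (Fl adj)
open Pool.Agent.VCI (PN ciS CHQ clS cycS linF)

variable {m n r : ℕ}

/-! ### The variety -/

/-- The nonzero vectors at which the forms `F i` are zero. -/
def cone (F : Fin m → MvPolynomial (Fin n) ℂ) : Set (Fin n → ℂ) :=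
  {z | z ≠ 0 ∧ ∀ i, aeval z (F i) = 0}

/-- The projective algebraic set `F = 0` is irreducible: if the product of two forms is zero on it,
one of them is. -/
def IsIrr (F : Fin m → MvPolynomial (Fin n) ℂ) : Prop :=
  (cone F).Nonempty ∧ ∀ (P Q : MvPolynomial (Fin n) ℂ) (e e' : ℕ), P.IsHomogeneous e →
    Q.IsHomogeneous e' → (∀ z ∈ cone F, aeval z P * aeval z Q = 0) →
      (∀ z ∈ cone F, aeval z P = 0) ∨ ∀ z ∈ cone F, aeval z Q = 0

/-- The forms `F i` define a smooth surface in the projective space of dimension `r + 2`: near each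
point it is defined by `r` of them, with independent differentials. -/
def IsSmooth (F : Fin m → MvPolynomial (Fin (r + 3)) ℂ) : Prop :=
  ∀ z ∈ cone F, ∃ (I : Fin r → Fin m) (B : MvPolynomial (Fin (r + 3)) ℂ), aeval z B ≠ 0 ∧
    (∀ i, B * F i ∈ Ideal.span (Set.range fun j => F (I j))) ∧
    LinearIndependent ℂ fun j v => aeval z (pderiv v (F (I j)))

/-- The projective algebraic set `h = 0` is rationally connected: two general points of it are on a
rational curve `φ`. -/
def IsRC (h : Fin m → MvPolynomial (Fin n) ℂ) : Prop :=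
  ∃ B : MvPolynomial (Fin n ⊕ Fin n) ℂ,
    (∃ z ∈ cone h, ∃ z' ∈ cone h, aeval (Sum.elim z z') B ≠ 0) ∧
    ∀ z ∈ cone h, ∀ z' ∈ cone h, aeval (Sum.elim z z') B ≠ 0 →
      ∃ φ : Fin n → Polynomial ℂ, (∀ j, aeval φ (h j) = 0) ∧ (∀ i, (φ i).eval 0 = z i) ∧
        ∀ i, (φ i).eval 1 = z' i

/-- The map defined by the forms `g l` separates the general points of `h = 0`: for a general point
`z` there is no other point with the same image. -/
def Separates (h : Fin m → MvPolynomial (Fin n) ℂ) {M : ℕ} (g : Fin M → MvPolynomial (Fin n) ℂ) :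
    Prop :=
  ∃ B : MvPolynomial (Fin n) ℂ, (∃ z ∈ cone h, aeval z B ≠ 0) ∧
    ∀ z ∈ cone h, aeval z B ≠ 0 → ∀ y ∈ cone h, (∃ l, aeval y (g l) ≠ 0) →
      (∀ l l', aeval y (g l) * aeval z (g l') = aeval y (g l') * aeval z (g l)) →
      ∀ i j, y i * z j = y j * z i

/-- The equations of the intersection `X` of `h = 0` with the hypersurfaces
`∑ l, a i l * g i l = 0`. -/
noncomputable def eqs {s c : ℕ} {M : Fin c → ℕ} (h : Fin s → MvPolynomial (Fin n) ℂ)
    (g : (i : Fin c) → Fin (M i) → MvPolynomial (Fin n) ℂ) (a : (i : Fin c) → Fin (M i) → ℂ) :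
    Fin (s + c) → MvPolynomial (Fin n) ℂ :=
  Fin.append h fun i => ∑ l, C (a i l) * g i l

/-- The field generated by the coefficients of the `h j` and the `g i l`. -/
noncomputable def base {s c : ℕ} {M : Fin c → ℕ} (h : Fin s → MvPolynomial (Fin n) ℂ)
    (g : (i : Fin c) → Fin (M i) → MvPolynomial (Fin n) ℂ) : Fl :=
  adj ⊥ ((Set.range fun jm : Fin s × (Fin n →₀ ℕ) => coeff jm.2 (h jm.1)) ∪
    Set.range fun il : ((i : Fin c) × Fin (M i)) × (Fin n →₀ ℕ) => coeff il.2 (g il.1.1 il.1.2))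

/-! ### Two-forms -/

variable {Ω : Type} [Field Ω] [Algebra ℂ Ω]

/-- A rational two-form `∑ f dg ∧ dh` on the projective space: the functions `f = A j 0 / B j 0`,
`g = A j 1 / B j 1`, `h = A j 2 / B j 2` are quotients of forms of the same degree. -/
structure RForm (n : ℕ) where
  /-- the number of summands -/
  N : ℕ
  /-- the numerators -/
  A : Fin N → Fin 3 → MvPolynomial (Fin n) ℂ
  /-- the denominators -/
  B : Fin N → Fin 3 → MvPolynomial (Fin n) ℂ
  /-- the degrees -/
  e : Fin N → Fin 3 → ℕ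
  homA : ∀ j s, (A j s).IsHomogeneous (e j s)
  homB : ∀ j s, (B j s).IsHomogeneous (e j s)

/-- The value of the function `A j s / B j s` at the point `x`. -/
noncomputable def RForm.fn (ω : RForm n) (j : Fin ω.N) (s : Fin 3) (x : Fin n → Ω) : Ω :=
  aeval x (ω.A j s) / aeval x (ω.B j s)

/-- The value of the form at the point `x` on the pair of derivations `D₁, D₂`. -/
noncomputable def RForm.val {R : Type} [CommRing R] [Algebra R Ω] (ω : RForm n)
    (D₁ D₂ : Derivation R Ω Ω) (x : Fin n → Ω) : Ω :=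
  ∑ j, ω.fn j 0 x * (D₁ (ω.fn j 1 x) * D₂ (ω.fn j 2 x) - D₂ (ω.fn j 1 x) * D₁ (ω.fn j 2 x))

/-- `ξ` is a generic point (over an algebraic closure `Ω` of the function field) of the surface
`F = 0`. -/
structure IsGenericPoint (F : Fin m → MvPolynomial (Fin n) ℂ) (ξ : Fin n → Ω) : Prop where
  one : ∃ i, ξ i = 1
  zero : ∀ i, aeval ξ (F i) = 0
  gen : ∃ i j, AlgebraicIndependent ℂ ![ξ i, ξ j]
  alg : Algebra.IsAlgebraic (IntermediateField.adjoin ℂ (Set.range ξ)) Ω

/-- `ω` defines a holomorphic two-form on the smooth surface `F = 0` with generic point `ξ`: each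
point `z` of the surface is in the domain of a form `ω'` which is equal to `ω` on the surface. -/
def IsHol (F : Fin m → MvPolynomial (Fin n) ℂ) (ξ : Fin n → Ω) (ω : RForm n) : Prop :=
  ∀ z ∈ cone F, ∃ ω' : RForm n, (∀ j s, aeval z (ω'.B j s) ≠ 0) ∧
    ∀ D₁ D₂ : Derivation ℂ Ω Ω, ω'.val D₁ D₂ ξ = ω.val D₁ D₂ ξ

/-- There is a holomorphic two-form different from zero. -/
def HasForm (F : Fin m → MvPolynomial (Fin n) ℂ) (ξ : Fin n → Ω) : Prop :=
  ∃ ω : RForm n, IsHol F ξ ω ∧ ∃ D₁ D₂ : Derivation ℂ Ω Ω, ω.val D₁ D₂ ξ ≠ 0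

/-! ### Correspondences -/

/-- An effective correspondence of degree `w` from the surface `F = 0` to itself: an effective
zero-cycle of degree `w` of the generic fibre of the first projection, given by its Chow form. -/
structure EffCorr (F : Fin m → MvPolynomial (Fin n) ℂ) (ξ : Fin n → Ω) (w : ℕ) where
  /-- the Chow form; the coefficients are forms in `x`, the variables are the `λ_j` -/
  Φ : MvPolynomial (Fin n) (MvPolynomial (Fin n) ℂ)
  /-- the degree in `x` -/
  e : ℕ
  hom : ∀ l, (coeff l Φ).IsHomogeneous e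
  /-- the points of the cycle over the generic point -/
  pts : Fin w → Fin n → Ω
  pts_ne : ∀ i, pts i ≠ 0
  pts_mem : ∀ i j, aeval (pts i) (F j) = 0
  /-- the constant factor -/
  c : Ω
  c_ne : c ≠ 0
  fac : map (aeval ξ : MvPolynomial (Fin n) ℂ →ₐ[ℂ] Ω).toRingHom Φ = C c * ∏ i, linF (pts i)

/-- The Chow form of the cycle of the correspondence over the point `x`. -/
noncomputable def EffCorr.at {F : Fin m → MvPolynomial (Fin n) ℂ} {ξ : Fin n → Ω}
    {w : ℕ} (Γ : EffCorr F ξ w) (x : Fin n → ℂ) : MvPolynomial (Fin n) ℂ :=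
  map (eval x) Γ.Φ

/-- The correspondence `Γ - Γ'` acts on the holomorphic two-forms by the scalar `μ`. -/
def ActsByScalar (F : Fin m → MvPolynomial (Fin n) ℂ) {ξ : Fin n → Ω} {w w' : ℕ}
    (Γ : EffCorr F ξ w) (Γ' : EffCorr F ξ w') (μ : ℂ) : Prop :=
  ∀ ω : RForm n, IsHol F ξ ω → ∀ D₁ D₂ : Derivation ℂ Ω Ω,
    ∑ i, ω.val D₁ D₂ (Γ.pts i) - ∑ i, ω.val D₁ D₂ (Γ'.pts i) =
      algebraMap ℂ Ω μ * ω.val D₁ D₂ ξ

/-- The points of the surface which are on none of the hypersurfaces `D j = 0`. -/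
def veryGen (F : Fin m → MvPolynomial (Fin n) ℂ) (D : ℕ → MvPolynomial (Fin n) ℂ) : Set (ciS F) :=
  {p | ∀ j, aeval p.1.rep (D j) ≠ 0}

/-- The endomorphism `Ψ` of the Chow group of `X` is the action of the correspondence `Γ - Γ'`: over
every point `p` of `V` the Chow forms of `Γ` and `Γ'` are those of cycles `s`, `s'` of `X`, and
`Ψ [p] = [s] - [s']`. -/
def IsAct {F : Fin m → MvPolynomial (Fin n) ℂ} {ξ : Fin n → Ω} {w w' : ℕ} (Γ : EffCorr F ξ w)
    (Γ' : EffCorr F ξ w') (V : Set (ciS F)) (Ψ : Module.End ℚ (CHQ (ciS F))) : Prop :=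
  ∀ p ∈ V, ∃ s s' : Multiset (ciS F), IsChowForm (ciS F) (Γ.at p.1.rep) s ∧
    IsChowForm (ciS F) (Γ'.at p.1.rep) s' ∧
      Ψ (clS (Finsupp.single p 1)) = clS (cycS s) - clS (cycS s')

end Pool.Agent.VRC
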