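import Pool.Agent.VRC.SDefs
import Pool.Agent.VCI.Exists

/-!
# Surfaces in rationally connected varieties: existence of generic points
-/

set_option autoImplicit false

open scoped LinearAlgebra.Projectivization
open MvPolynomial

namespace Pool.Agent.VRC

open Pool.Agent.VGS (Fl adj clo Coef Kills)
open Pool.Agent.VCI

variable {m r : ℕ} {F : Fin m → MvPolynomial (Fin (r + 3)) ℂ} {d : Fin m → ℕ} {K : Fl}

/-- **existence of generic points** -/
theorem exists_genericPoint (hX : Sfc0 F d K) :
    ∃ (Ω : Type) (_ : Field Ω) (_ : Algebra ℂ Ω) (_ : IsAlgClosed Ω) (ξ : Fin (r + 3) → Ω),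
      IsGenericPoint F ξ := by
  have hcK : Countable K := hX.cK
  obtain ⟨p, hp⟩ := hX.gen K hcK
  obtain ⟨z, hz, i, a, b, hi, -, hzF, hab⟩ := gen_nrm hX.hom hp
  obtain ⟨σ, hσ, hσx⟩ := exists_iso_omT K hab
  have h1 : σ (z a) = omX 0 := hσx 0
  have h2 : σ (z b) = omX 1 := hσx 1
  refine ⟨OmT, inferInstance, inferInstance, inferInstance, fun j => σ (z j), ?_⟩
  refine ⟨⟨i, ?_⟩, ?_, ⟨a, b, ?_⟩, ?_⟩
  · rw [hi, map_one]
  · intro s
    have h3 : ∀ G : MvPolynomial (Fin (r + 3)) ℂ, Coef K G →
        aeval (fun j => σ (z j)) G = σ (aeval z G) := by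
      intro G hG
      rw [aeval_def, aeval_def, eval₂_eq', eval₂_eq', map_sum]
      refine Finset.sum_congr rfl fun j _ => ?_
      rw [map_mul, map_prod]
      congr 1
      · rw [Algebra.algebraMap_self_apply, hσ _ (hG j)]
      · refine Finset.prod_congr rfl fun i _ => ?_
        rw [map_pow]
    rw [h3 _ (hX.coef s), hzF s, map_zero]
  · have h3 : ![σ (z a), σ (z b)] = omX := by
      funext j
      fin_cases j
      · exact h1
      · exact h2
    rw [h3]
    exact omX_ind
  · apply omT_alg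
    intro j
    fin_cases j
    · exact ⟨a, h1⟩
    · exact ⟨b, h2⟩

end Pool.Agent.VRC
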