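import Pool.Agent.VRC.Frm

/-! The cycles which are not seen by the two-forms. -/

set_option autoImplicit false

open scoped LinearAlgebra.Projectivization
open MvPolynomial

namespace Pool.Agent.VRC

open Pool.Agent.VGS (Fl adj clo Coef Kills conjD conjD_apply conjD_kills Fix_mono)
open Pool.Agent.VCI (PN Cy ciS Gen Over act actC actC_single tz_conjD_conjD support_actC
  act_mem_surf)

variable {n m : ℕ} {κ K : Fl} {F : Fin m → MvPolynomial (Fin n) ℂ} {d : Fin m → ℕ}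

theorem mem_TZ {L : Fl} {z : Cy n} : z ∈ TZ L F κ ↔ (∀ q ∈ z.support, q ∈ ciS F) ∧
    ∀ (ω : HForm F κ) (D₁ D₂ : Derivation ℤ ℂ ℂ), Kills L D₁ → Kills L D₂ →
      tauC ω D₁ D₂ z = 0 := Iff.rfl

theorem tz_mono {L L' : Fl} (h : L ≤ L') : TZ L F κ ≤ TZ L' F κ := fun _ hz =>
  ⟨hz.1, fun ω D₁ D₂ h₁ h₂ => hz.2 ω D₁ D₂ (fun x hx => h₁ x (h hx)) (fun x hx => h₂ x (h hx))⟩

theorem kills_clo' {L : Fl} (hKL : K ≤ L) {D : Derivation ℤ ℂ ℂ} (h : Kills L D) :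
    Kills (clo K) D := VCI.DomAux.kills_clo fun x hx => h x (hKL hx)

/-- transport of cycles -/
theorem tauC_act (ω : HForm F (clo K)) (hF : ∀ i, (F i).IsHomogeneous (d i))
    (hFK : ∀ i, Coef K (F i)) {σ : ℂ ≃+* ℂ} (hσ : σ ∈ VGS.Fix K) (D₁ D₂ : Derivation ℤ ℂ ℂ)
    (z : Cy n) :
    tauC (ω.cj hF hFK hσ) (conjD σ D₁) (conjD σ D₂) (actC σ z) = σ (tauC ω D₁ D₂ z) := by
  have h1 : z = ∑ q ∈ z.support, Finsupp.single q (z q) := (Finsupp.sum_single z).symm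
  rw [h1, map_sum, map_sum, map_sum, map_sum]
  refine Finset.sum_congr rfl fun q hq => ?_
  rw [actC_single, tauC_single, tauC_single, tau_cj_act ω hF hFK hσ, Rat.smul_def,
    Rat.smul_def, map_mul, map_ratCast]

theorem HForm.ext' {ω ω' : HForm F κ} (hk : ω.T = ω'.T)
    (hE : ∀ j, ω.loc j = ω'.loc (Fin.cast (by rw [hk]) j)) : ω = ω' := by
  obtain ⟨k, E, a, b, c, e⟩ := ω
  obtain ⟨k', E', a', b', c', e'⟩ := ω'
  change k = k' at hk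
  subst hk
  have h : E = E' := funext hE
  subst h
  rfl

theorem cj_symm_cj (ω : HForm F (clo K)) (hF : ∀ i, (F i).IsHomogeneous (d i))
    (hFK : ∀ i, Coef K (F i)) {σ : ℂ ≃+* ℂ} (hσ : σ ∈ VGS.Fix K) :
    (ω.cj hF hFK (inv_mem hσ)).cj hF hFK hσ = ω := by
  refine HForm.ext' rfl fun j => ?_
  exact cj_cj σ σ⁻¹ (fun x => σ.apply_symm_apply x) (ω.loc j)

/-- the transported form of a given form -/
theorem exists_cj (ω : HForm F (clo K)) (hF : ∀ i, (F i).IsHomogeneous (d i))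
    (hFK : ∀ i, Coef K (F i)) {L : Fl} (hKL : K ≤ L) {σ : ℂ ≃+* ℂ} (hσ : σ ∈ VGS.Fix L)
    {D₁ D₂ : Derivation ℤ ℂ ℂ} (h₁ : Kills L D₁) (h₂ : Kills L D₂) :
    ∃ (ω' : HForm F (clo K)) (D₁' D₂' : Derivation ℤ ℂ ℂ), Kills L D₁' ∧ Kills L D₂' ∧
      ∀ z : Cy n, tauC ω D₁ D₂ (actC σ z) = σ (tauC ω' D₁' D₂' z) := by
  have hσ' : σ⁻¹ ∈ VGS.Fix L := inv_mem hσ
  have hσK := Fix_mono hKL hσ
  refine ⟨ω.cj hF hFK (inv_mem hσK), conjD σ⁻¹ D₁, conjD σ⁻¹ D₂, conjD_kills hσ' h₁,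
    conjD_kills hσ' h₂, fun z => ?_⟩
  have h1 := tauC_act (ω.cj hF hFK (inv_mem hσK)) hF hFK hσK (conjD σ⁻¹ D₁) (conjD σ⁻¹ D₂) z
  rw [tz_conjD_conjD, tz_conjD_conjD, cj_symm_cj] at h1
  exact h1

theorem tz_act (hF : ∀ i, (F i).IsHomogeneous (d i)) (hFK : ∀ i, Coef K (F i)) {L : Fl}
    (hKL : K ≤ L) {σ : ℂ ≃+* ℂ} (hσ : σ ∈ VGS.Fix L) {z : Cy n} (hz : z ∈ TZ L F (clo K)) :
    actC σ z ∈ TZ L F (clo K) := by
  refine ⟨fun q hq => ?_, fun ω D₁ D₂ h₁ h₂ => ?_⟩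
  · have h1 := hz.1 _ (support_actC hq)
    exact (act_mem_surf hF (fun i => (hFK i).mono hKL) (inv_mem hσ)).1 h1
  · obtain ⟨ω', D₁', D₂', k₁, k₂, h⟩ := exists_cj ω hF hFK hKL hσ h₁ h₂
    rw [h z, hz.2 ω' D₁' D₂' k₁ k₂, map_zero]

/-- a point which is not generic over `L` is not seen -/
theorem single_mem_TZ {L : Fl} (hL : κ ≤ clo L) {q : PN n} (hq : q ∈ ciS F) (hq' : q ∉ Gen L F)
    (c : ℚ) : Finsupp.single q c ∈ TZ L F κ := by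
  classical
  refine ⟨fun x hx => ?_, fun ω D₁ D₂ h₁ h₂ => ?_⟩
  · have h := Finsupp.support_single_subset hx
    rw [Finset.mem_singleton] at h
    rw [h]
    exact hq
  · rw [tauC_single, tau_of_not_gen ω hL h₁ h₂ hq hq', smul_zero]

theorem tz_X {L : Fl} {z : Cy n} (hz : z ∈ TZ L F κ) : ∀ q ∈ z.support, q ∈ ciS F := hz.1

end Pool.Agent.VRC
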