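import Pool.Agent.VRC.SDefs
import Pool.Agent.VCI.EffTauA
import Pool.Agent.VCI.TZ

/-! The values of rational two-forms on derivations. -/

set_option autoImplicit false

open scoped LinearAlgebra.Projectivization
open MvPolynomial

namespace Pool.Agent.VRC

open Pool.Agent.VGS (Fl adj clo Coef Kills conjD conjD_apply conjD_kills)
open Pool.Agent.VCI (PN Cy)

variable {n : ℕ}

/-- All coefficients are in `L`. -/
def RForm.Cf (L : Fl) (ω : RForm n) : Prop := ∀ j s, Coef L (ω.A j s) ∧ Coef L (ω.B j s)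

theorem RForm.Cf.mono {L L' : Fl} {ω : RForm n} (h : ω.Cf L) (hL : L ≤ L') : ω.Cf L' :=
  fun j s => ⟨(h j s).1.mono hL, (h j s).2.mono hL⟩

/-! ### scaling -/

section

variable {Ω : Type} [Field Ω] [Algebra ℂ Ω]

theorem aeval_smulΩ {G : MvPolynomial (Fin n) ℂ} {a : ℕ} (hG : G.IsHomogeneous a)
    (c : Ω) (x : Fin n → Ω) : aeval (c • x) G = c ^ a * aeval x G := by
  rw [aeval_def, aeval_def, eval₂_eq', eval₂_eq', Finset.mul_sum]
  refine Finset.sum_congr rfl fun t ht => ?_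
  have h3 : t.degree = a := by
    by_contra h
    exact (mem_support_iff.mp ht) (hG.coeff_eq_zero h)
  have h2 : ∏ i, ((c • x) i) ^ t i = c ^ a * ∏ i, x i ^ t i := by
    simp only [Pi.smul_apply, smul_eq_mul, mul_pow, Finset.prod_mul_distrib,
      Finset.prod_pow_eq_pow_sum]
    congr 2
    rw [← h3, Finsupp.degree_eq_sum]
  rw [h2]
  ring

theorem fn_smul (ω : RForm n) (j : Fin ω.N) (s : Fin 3) {c : Ω} (hc : c ≠ 0) (z : Fin n → Ω) :
    ω.fn j s (c • z) = ω.fn j s z := by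
  unfold RForm.fn
  rw [aeval_smulΩ (ω.homA j s), aeval_smulΩ (ω.homB j s)]
  exact mul_div_mul_left _ _ (pow_ne_zero _ hc)

theorem den_smul (ω : RForm n) (j : Fin ω.N) (s : Fin 3) {c : Ω} (hc : c ≠ 0) (z : Fin n → Ω) :
    aeval (c • z) (ω.B j s) ≠ 0 ↔ aeval z (ω.B j s) ≠ 0 := by
  rw [aeval_smulΩ (ω.homB j s), mul_ne_zero_iff]
  exact and_iff_right (pow_ne_zero _ hc)

variable {R : Type} [CommRing R] [Algebra R Ω]

/-- the value depends only on the values of the functions and of the derivations -/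
theorem val_congr {R' : Type} [CommRing R'] [Algebra R' Ω] (ω : RForm n)
    {D₁ D₂ : Derivation R Ω Ω} {D₁' D₂' : Derivation R' Ω Ω} {z z' : Fin n → Ω}
    (hq : ∀ j s, ω.fn j s z = ω.fn j s z') (h₁ : ∀ j s, D₁ (ω.fn j s z) = D₁' (ω.fn j s z))
    (h₂ : ∀ j s, D₂ (ω.fn j s z) = D₂' (ω.fn j s z)) : ω.val D₁ D₂ z = ω.val D₁' D₂' z' := by
  unfold RForm.val
  refine Finset.sum_congr rfl fun j _ => ?_
  rw [h₁, h₂, h₁, h₂, hq, hq, hq]

theorem val_smul (ω : RForm n) {c : Ω} (hc : c ≠ 0) (D₁ D₂ : Derivation R Ω Ω) (z : Fin n → Ω) :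
    ω.val D₁ D₂ (c • z) = ω.val D₁ D₂ z :=
  val_congr ω (fun j s => fn_smul ω j s hc z) (fun _ _ => rfl) (fun _ _ => rfl)

theorem val_swap (ω : RForm n) (D₁ D₂ : Derivation R Ω Ω) (z : Fin n → Ω) :
    ω.val D₂ D₁ z = - ω.val D₁ D₂ z := by
  unfold RForm.val
  rw [← Finset.sum_neg_distrib]
  exact Finset.sum_congr rfl fun j _ => by ring

theorem val_add (ω : RForm n) {D₁ D₂ D₃ D : Derivation R Ω Ω} {c : Ω}
    (h : ∀ x, D x = D₂ x + c * D₃ x) (z : Fin n → Ω) :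
    ω.val D₁ D z = ω.val D₁ D₂ z + c * ω.val D₁ D₃ z := by
  unfold RForm.val
  rw [Finset.mul_sum, ← Finset.sum_add_distrib]
  exact Finset.sum_congr rfl fun j _ => by rw [h, h]; ring

/-- all values are zero if the derivations are proportional on the functions -/
theorem val_zero (ω : RForm n) {D₁ D₂ : Derivation R Ω Ω} {z : Fin n → Ω}
    (h : ∀ j s s', D₁ (ω.fn j s z) * D₂ (ω.fn j s' z) = D₂ (ω.fn j s z) * D₁ (ω.fn j s' z)) :
    ω.val D₁ D₂ z = 0 := by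
  unfold RForm.val
  exact Finset.sum_eq_zero fun j _ => by rw [h, sub_self, mul_zero]

/-! ### fields -/

theorem aeval_memΩ {κ : Fl} {B : Subfield Ω} (hκB : ∀ c ∈ κ, algebraMap ℂ Ω c ∈ B)
    {G : MvPolynomial (Fin n) ℂ} (hG : Coef κ G) {x : Fin n → Ω} (hx : ∀ i, x i ∈ B) :
    aeval x G ∈ B := by
  rw [aeval_def, eval₂_eq]
  exact sum_mem fun m _ => mul_mem (hκB _ (hG m)) (prod_mem fun i _ => pow_mem (hx i) _)

theorem fn_mem {κ : Fl} {B : Subfield Ω} (hκB : ∀ c ∈ κ, algebraMap ℂ Ω c ∈ B) {ω : RForm n}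
    (hω : ω.Cf κ) (j : Fin ω.N) (s : Fin 3) {x : Fin n → Ω} (hx : ∀ i, x i ∈ B) :
    ω.fn j s x ∈ B :=
  div_mem (aeval_memΩ hκB (hω j s).1 hx) (aeval_memΩ hκB (hω j s).2 hx)

/-- the value is in a field stable under the derivations -/
theorem val_mem {κ : Fl} {B : Subfield Ω} (hκB : ∀ c ∈ κ, algebraMap ℂ Ω c ∈ B) {ω : RForm n}
    (hω : ω.Cf κ) {x : Fin n → Ω} (hx : ∀ i, x i ∈ B) {D₁ D₂ : Derivation R Ω Ω}
    (h₁ : ∀ y ∈ B, D₁ y ∈ B) (h₂ : ∀ y ∈ B, D₂ y ∈ B) : ω.val D₁ D₂ x ∈ B := by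
  unfold RForm.val
  exact sum_mem fun j _ => mul_mem (fn_mem hκB hω j 0 hx) (sub_mem
    (mul_mem (h₁ _ (fn_mem hκB hω j 1 hx)) (h₂ _ (fn_mem hκB hω j 2 hx)))
    (mul_mem (h₂ _ (fn_mem hκB hω j 1 hx)) (h₁ _ (fn_mem hκB hω j 2 hx))))

end

theorem fn_memC {L : Fl} {ω : RForm n} (hω : ω.Cf L) (j : Fin ω.N) (s : Fin 3) {z : Fin n → ℂ}
    (hz : ∀ i, z i ∈ L) : ω.fn j s z ∈ L :=
  fn_mem (B := L.toSubfield) (fun _ hc => hc) hω j s hz

/-! ### transport by automorphisms -/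

/-- the conjugate rational form -/
noncomputable def RForm.cj (σ : ℂ ≃+* ℂ) (ω : RForm n) : RForm n where
  N := ω.N
  A := fun j s => map (σ : ℂ →+* ℂ) (ω.A j s)
  B := fun j s => map (σ : ℂ →+* ℂ) (ω.B j s)
  e := ω.e
  homA := fun j s => (ω.homA j s).map _
  homB := fun j s => (ω.homB j s).map _

theorem fn_cj (σ : ℂ ≃+* ℂ) (ω : RForm n) (j : Fin ω.N) (s : Fin 3) (z : Fin n → ℂ) :
    (ω.cj σ).fn j s (fun i => σ (z i)) = σ (ω.fn j s z) := by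
  unfold RForm.fn RForm.cj
  simp only
  rw [VCI.aeval_map_fix, VCI.aeval_map_fix, map_div₀]

theorem val_cj (σ : ℂ ≃+* ℂ) (ω : RForm n) (D₁ D₂ : Derivation ℤ ℂ ℂ) (z : Fin n → ℂ) :
    (ω.cj σ).val (conjD σ D₁) (conjD σ D₂) (fun i => σ (z i)) = σ (ω.val D₁ D₂ z) := by
  unfold RForm.val
  rw [map_sum]
  refine Finset.sum_congr rfl fun j _ => ?_
  rw [map_mul, map_sub, map_mul, map_mul, ← fn_cj]
  congr 1
  rw [conjD_apply, conjD_apply, conjD_apply, conjD_apply]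
  have h : ∀ s, σ.symm ((ω.cj σ).fn j s fun i => σ (z i)) = ω.fn j s z := fun s => by
    rw [fn_cj, RingEquiv.symm_apply_apply]
  rw [h, h]

theorem den_cj (σ : ℂ ≃+* ℂ) (ω : RForm n) (j : Fin ω.N) (s : Fin 3) (z : Fin n → ℂ) :
    aeval (fun i => σ (z i)) ((ω.cj σ).B j s) ≠ 0 ↔ aeval z (ω.B j s) ≠ 0 := by
  unfold RForm.cj
  simp only [VCI.aeval_map_fix, Ne, map_eq_zero_iff σ σ.injective]

theorem coef_cj {κ : Fl} {σ : ℂ ≃+* ℂ} (hσ : ∀ x ∈ κ, σ x ∈ κ) {G : MvPolynomial (Fin n) ℂ}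
    (hG : Coef κ G) : Coef κ (map (σ : ℂ →+* ℂ) G) := fun m => by
  rw [coeff_map]
  exact hσ _ (hG m)

theorem cj_cj (σ τ : ℂ ≃+* ℂ) (h : ∀ x, σ (τ x) = x) (ω : RForm n) : (ω.cj τ).cj σ = ω := by
  obtain ⟨N, A, B, e, a, b⟩ := ω
  have h1 : ∀ P : MvPolynomial (Fin n) ℂ, map (σ : ℂ →+* ℂ) (map (τ : ℂ →+* ℂ) P) = P := by
    intro P
    rw [map_map]
    have : (σ : ℂ →+* ℂ).comp (τ : ℂ →+* ℂ) = RingHom.id ℂ := by
      ext x
      exact h x
    rw [this, map_id]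
  unfold RForm.cj
  simp only [h1]

end Pool.Agent.VRC
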