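import Pool.Agent.VRC.SDefs
import Pool.Agent.VCI.Move
import Pool.Agent.VCI.Conj
import Pool.Agent.VGS.GenP

/-!
# Surfaces in rationally connected varieties: existence of generic points
-/

set_option autoImplicit false

open scoped LinearAlgebra.Projectivization
open MvPolynomial

namespace Pool.Agent.VRC

open Pool.Agent.VGS (Fl adj clo Coef Kills IsPl Sp le_adj le_clo subset_adj adj_le clo_mono ai_mono
  ai_pair mem_clo clo_clo coef_iff clo_exch exists_algInd)
open Pool.Agent.VCI

variable {m n r : ℕ}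

namespace GenEx

/-- A linearly independent family of fewer than `n` vectors can be extended by a unit vector. -/
theorem exists_coord {n k : ℕ} (v : Fin k → Fin n → ℂ) (hv : LinearIndependent ℂ v) (hk : k < n) :
    ∃ j, LinearIndependent ℂ (Fin.snoc v (Pi.single j 1) : Fin (k + 1) → Fin n → ℂ) := by
  by_contra hc
  push Not at hc
  have h1 : ∀ j, (Pi.single j 1 : Fin n → ℂ) ∈ Submodule.span ℂ (Set.range v) := by
    intro j
    by_contra h2
    exact hc j (linearIndependent_finSnoc.2 ⟨hv, h2⟩)
  have h2 : Submodule.span ℂ (Set.range v) = ⊤ := by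
    rw [eq_top_iff, ← (Pi.basisFun ℂ (Fin n)).span_eq, Submodule.span_le]
    rintro _ ⟨j, rfl⟩
    rw [Pi.basisFun_apply]
    exact h1 j
  have h3 := finrank_span_eq_card hv
  rw [h2, finrank_top, Module.finrank_fin_fun, Fintype.card_fin] at h3
  omega

/-- Square systems with independent rows. -/
theorem eq_zero_of_rows {n : ℕ} (A : Fin n → Fin n → ℂ) (hA : LinearIndependent ℂ A)
    (w : Fin n → ℂ) (hw : ∀ e, ∑ v, A e v * w v = 0) : w = 0 := by
  have h1 : IsUnit (Matrix.of A) := Matrix.linearIndependent_rows_iff_isUnit.1 hA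
  have h2 : (Matrix.of A).mulVec w = 0 := funext fun e => hw e
  exact (Matrix.mulVec_injective_iff_isUnit.2 h1) (by rw [h2, Matrix.mulVec_zero])

/-- `z + u`, `z' + b u` are independent. -/
theorem ai_shift {E : Fl} (hE : clo E = E) {b u z z' : ℂ} (hz : z ∈ E) (hz' : z' ∈ E)
    (hb : b ∉ E) (hu : u ∉ clo (adj E {b})) :
    AlgebraicIndependent E ![z + u, z' + b * u] := by
  have huE : u ∉ E := fun h => hu (le_clo _ (le_adj _ _ h))
  rw [ai_pair, hE]
  refine ⟨fun h => huE ?_, fun h => ?_⟩
  · have := sub_mem h hz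
    rwa [add_sub_cancel_left] at this
  · have h1 : adj E {z + u} ≤ adj E {u} := by
      refine adj_le (le_adj _ _) ?_
      rintro x hx
      rw [Set.mem_singleton_iff] at hx
      subst hx
      exact add_mem (le_adj _ _ hz) (subset_adj _ _ rfl)
    have h2 := clo_mono h1 h
    have h3 : b * u ∈ clo (adj E {u}) := by
      have := sub_mem h2 (le_clo _ (le_adj E {u} hz'))
      rwa [add_sub_cancel_left] at this
    have hu0 : u ≠ 0 := by
      rintro rfl
      exact huE (zero_mem _)
    have h4 : b ∈ clo (adj E {u}) := by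
      have := div_mem h3 (le_clo _ (subset_adj E {u} rfl))
      rwa [mul_div_cancel_right₀ _ hu0] at this
    exact hu (clo_exch h4 (by rwa [hE]))

end GenEx

/-- there are generic points over every countable field -/
theorem exists_gen {F : Fin m → MvPolynomial (Fin (r + 3)) ℂ} {d : Fin m → ℕ}
    (hne : (cone F).Nonempty) (hF : ∀ i, (F i).IsHomogeneous (d i)) {K : Fl} [Countable K]
    (hFK : ∀ i, Coef K (F i))
    (hloc : ∀ z ∈ cone F, ∃ (I : Fin r → Fin m) (B : MvPolynomial (Fin (r + 3)) ℂ),
      Coef (clo K) B ∧ aeval z B ≠ 0 ∧ (∀ i, B * F i ∈ Ideal.span (Set.range fun j => F (I j))) ∧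
      LinearIndependent ℂ fun j v => aeval z (pderiv v (F (I j)))) (L : Fl) [Countable L] :
    ∃ p, p ∈ Gen L F := by
  classical
  -- a point with a coordinate equal to one
  obtain ⟨z, i, hi, hz⟩ : ∃ (z : Fin (r + 3) → ℂ) (i : Fin (r + 3)), z i = 1 ∧ z ∈ cone F := by
    obtain ⟨z, hz0, hz⟩ := hne
    obtain ⟨i, hi⟩ : ∃ i, z i ≠ 0 := by
      by_contra hc
      push Not at hc
      exact hz0 (funext hc)
    refine ⟨fun v => (z i)⁻¹ * z v, i, inv_mul_cancel₀ hi, ?_, fun s => ?_⟩
    · intro h
      have := congrFun h i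
      beta_reduce at this
      rw [inv_mul_cancel₀ hi] at this
      exact one_ne_zero this
    · rw [aeval_scale (hF s) (w := z) (a := (z i)⁻¹) (fun v => rfl), hz, mul_zero]
  obtain ⟨I, B, hB, hBz, hBF, hI⟩ := hloc z hz
  -- the rows
  have hRz : ∀ j, ∑ v, aeval z (pderiv v (F (I j))) * z v = 0 := by
    intro j
    have h1 := congrArg (aeval z) (hF (I j)).sum_X_mul_pderiv
    rw [map_sum, map_nsmul, hz.2 (I j), nsmul_zero] at h1
    rw [← h1]
    refine Finset.sum_congr rfl fun v _ => ?_
    rw [map_mul, aeval_X, mul_comm]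
  have hR1 : LinearIndependent ℂ (Fin.snoc (fun j v => aeval z (pderiv v (F (I j))))
      (Pi.single i 1) : Fin (r + 1) → Fin (r + 3) → ℂ) := by
    refine linearIndependent_finSnoc.2 ⟨hI, fun hmem => ?_⟩
    have h1 : ∀ w ∈ Submodule.span ℂ (Set.range fun j v => aeval z (pderiv v (F (I j)))),
        ∑ v, w v * z v = 0 := by
      intro w hw
      induction hw using Submodule.span_induction with
      | mem x hx => obtain ⟨j, rfl⟩ := hx; exact hRz j
      | zero => simp
      | add x y _ _ hx hy =>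
        simp only [Pi.add_apply, add_mul, Finset.sum_add_distrib, hx, hy, add_zero]
      | smul a x _ hx =>
        simp only [Pi.smul_apply, smul_eq_mul, mul_assoc, ← Finset.mul_sum, hx, mul_zero]
    have h2 := h1 _ hmem
    rw [Finset.sum_eq_single i, Pi.single_eq_same, hi, one_mul] at h2
    · exact one_ne_zero h2
    · intro v _ hv
      rw [Pi.single_eq_of_ne hv, zero_mul]
    · intro h
      exact absurd (Finset.mem_univ i) h
  obtain ⟨j, hR2⟩ := GenEx.exists_coord _ hR1 (by omega)
  obtain ⟨l, hR3⟩ := GenEx.exists_coord _ hR2 (by omega)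
  -- the fields
  have hcS : Countable ((K : Set ℂ) ∪ Set.range z : Set ℂ) := by
    refine (Set.Countable.union ?_ (Set.countable_range z)).to_subtype
    exact Set.countable_coe_iff.1 (inferInstance : Countable K)
  have hcE : Countable (clo (adj L ((K : Set ℂ) ∪ Set.range z))) := inferInstance
  have hEE := clo_clo (adj L ((K : Set ℂ) ∪ Set.range z))
  have hLE : L ≤ clo (adj L ((K : Set ℂ) ∪ Set.range z)) := (le_adj _ _).trans (le_clo _)
  have hKE : K ≤ clo (adj L ((K : Set ℂ) ∪ Set.range z)) := fun x hx =>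
    le_clo _ (subset_adj _ _ (Or.inl hx))
  have hzE : ∀ v, z v ∈ clo (adj L ((K : Set ℂ) ∪ Set.range z)) := fun v =>
    le_clo _ (subset_adj _ _ (Or.inr ⟨v, rfl⟩))
  generalize clo (adj L ((K : Set ℂ) ∪ Set.range z)) = E at hcE hEE hLE hKE hzE
  obtain ⟨b, hb⟩ : ∃ b : ℂ, b ∉ E := by
    obtain ⟨x, hx⟩ := exists_algInd E 2
    have h1 : AlgebraicIndependent E ![x 0, x 1] := by
      have h2 : ![x 0, x 1] = x := by
        funext a
        fin_cases a <;> rfl
      rw [h2]
      exact hx
    rw [ai_pair, hEE] at h1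
    exact ⟨x 0, h1.1⟩
  have hcE1 : Countable (clo (adj E {b})) := inferInstance
  have hEE1 : E ≤ clo (adj E {b}) := (le_adj _ _).trans (le_clo _)
  have hbE1 : b ∈ clo (adj E {b}) := le_clo _ (subset_adj _ _ rfl)
  -- the equations
  obtain ⟨Q, hQ⟩ : ∃ Q : Fin (r + 3) → MvPolynomial (Option (Fin (r + 3))) ℂ,
      Q = Fin.snoc (α := fun _ => MvPolynomial (Option (Fin (r + 3))) ℂ)
        (Fin.snoc (α := fun _ => MvPolynomial (Option (Fin (r + 3))) ℂ)
          (Fin.snoc (α := fun _ => MvPolynomial (Option (Fin (r + 3))) ℂ)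
            (fun s => rename some (F (I s))) (X (some i) - C 1))
          (X (some j) - C (z j) - X none)) (X (some l) - C (z l) - C b * X none) := ⟨_, rfl⟩
  have hQ0 : ∀ s : Fin r, Q s.castSucc.castSucc.castSucc = rename some (F (I s)) := by
    intro s
    rw [hQ, Fin.snoc_castSucc, Fin.snoc_castSucc, Fin.snoc_castSucc]
  have hQ1 : Q (Fin.last r).castSucc.castSucc = X (some i) - C 1 := by
    rw [hQ, Fin.snoc_castSucc, Fin.snoc_castSucc, Fin.snoc_last]
  have hQ2 : Q (Fin.last (r + 1)).castSucc = X (some j) - C (z j) - X none := by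
    rw [hQ, Fin.snoc_castSucc, Fin.snoc_last]
  have hQ3 : Q (Fin.last (r + 2)) = X (some l) - C (z l) - C b * X none := by
    rw [hQ, Fin.snoc_last]
  have hcases : ∀ {P : Fin (r + 3) → Prop}, (∀ s : Fin r, P s.castSucc.castSucc.castSucc) →
      P (Fin.last r).castSucc.castSucc → P (Fin.last (r + 1)).castSucc → P (Fin.last (r + 2)) →
      ∀ e, P e := by
    intro P h0 h1 h2 h3 e
    refine Fin.lastCases h3 (fun e => ?_) e
    refine Fin.lastCases h2 (fun e => ?_) e
    exact Fin.lastCases h1 (fun e => h0 e) e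
  have hA1 : ∀ e, Coef (clo (adj E {b})) (Q e) := by
    refine hcases (fun s => ?_) ?_ ?_ ?_
    · rw [hQ0]
      obtain ⟨P, hP⟩ := coef_iff.1 ((hFK (I s)).mono (hKE.trans hEE1))
      exact coef_iff.2 ⟨rename some P, by rw [map_rename, hP]⟩
    · rw [hQ1]
      exact coef_iff.2 ⟨X (some i) - C 1, by simp⟩
    · rw [hQ2]
      exact coef_iff.2 ⟨X (some j) - C ⟨z j, hEE1 (hzE j)⟩ - X none, by simp⟩
    · rw [hQ3]
      exact coef_iff.2 ⟨X (some l) - C ⟨z l, hEE1 (hzE l)⟩ - C ⟨b, hbE1⟩ * X none, by simp⟩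
  have hA2 : ∀ e, aeval (fun o : Option (Fin (r + 3)) => o.elim 0 z) (Q e) = 0 := by
    refine hcases (fun s => ?_) ?_ ?_ ?_
    · rw [hQ0, aeval_rename]
      exact hz.2 (I s)
    · rw [hQ1]
      simp [hi]
    · rw [hQ2]
      simp
    · rw [hQ3]
      simp
  have hA3 : ∀ w : Fin (r + 3) → ℂ, (∀ e, ∑ v,
      aeval (fun o : Option (Fin (r + 3)) => o.elim 0 z) (pderiv (some v) (Q e)) * w v = 0) →
      w = 0 := by
    intro w hw
    refine GenEx.eq_zero_of_rows _ hR3 w fun e => ?_
    refine Eq.trans (Finset.sum_congr rfl fun v _ => ?_) (hw e)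
    congr 1
    revert e
    refine hcases (fun s => ?_) ?_ ?_ ?_
    · rw [hQ0, pderiv_rename (Option.some_injective _), aeval_rename, Fin.snoc_castSucc,
        Fin.snoc_castSucc, Fin.snoc_castSucc]
      rfl
    · rw [hQ1, Fin.snoc_castSucc, Fin.snoc_castSucc, Fin.snoc_last]
      rcases eq_or_ne v i with rfl | h
      · simp
      · simp [h, h.symm]
    · rw [hQ2, Fin.snoc_castSucc, Fin.snoc_last]
      rcases eq_or_ne v j with rfl | h
      · simp
      · simp [h, h.symm]
    · rw [hQ3, Fin.snoc_last]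
      rcases eq_or_ne v l with rfl | h
      · simp
      · simp [h, h.symm]
  obtain ⟨V, y, u, hV, hu, hu0, huE, hyz, hyQ⟩ := branch' (Set.countable_coe_iff.1 hcE1) z
    (fun v => hEE1 (hzE v)) Q hA1 hA2 hA3
  -- the point
  have hyi : y i = 1 := by
    have := hyQ (Fin.last r).castSucc.castSucc
    rw [hQ1] at this
    simpa [sub_eq_zero] using this
  have hyj : y j = z j + u := by
    have := hyQ (Fin.last (r + 1)).castSucc
    rw [hQ2] at this
    simp only [map_sub, aeval_X, aeval_C, Option.elim_some, Option.elim_none] at this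
    have h2 : y j - z j - u = 0 := this
    linear_combination h2
  have hyl : y l = z l + b * u := by
    have := hyQ (Fin.last (r + 2))
    rw [hQ3] at this
    simp only [map_sub, map_mul, aeval_X, aeval_C, Option.elim_some, Option.elim_none] at this
    have h2 : y l - z l - b * u = 0 := this
    linear_combination h2
  have hyI : ∀ s, aeval y (F (I s)) = 0 := by
    intro s
    have := hyQ s.castSucc.castSucc.castSucc
    rw [hQ0, aeval_rename] at this
    exact this
  have hyB : aeval y B ≠ 0 := by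
    refine Sp.ne_zero hV (c := aeval z B) (Sp.aeval hV ?_ hyz) hBz
    refine hB.mono ?_
    have : clo K ≤ clo E := clo_mono hKE
    rw [hEE] at this
    exact this.trans hEE1
  have hyF : ∀ s, aeval y (F s) = 0 := by
    intro s
    have h1 : ∀ P ∈ Ideal.span (Set.range fun j => F (I j)), aeval y P = 0 := by
      intro P hP
      induction hP using Submodule.span_induction with
      | mem x hx => obtain ⟨j, rfl⟩ := hx; exact hyI j
      | zero => exact map_zero _
      | add x y _ _ hx hy => rw [map_add, hx, hy, add_zero]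
      | smul a x _ hx => rw [smul_eq_mul, map_mul, hx, mul_zero]
    have h2 := h1 _ (hBF s)
    rw [map_mul] at h2
    exact (mul_eq_zero.1 h2).resolve_left hyB
  have hy0 : y ≠ 0 := by
    rintro rfl
    exact one_ne_zero hyi.symm
  have hai : AlgebraicIndependent L ![y j, y l] := by
    rw [hyj, hyl]
    exact ai_mono hLE (GenEx.ai_shift hEE (hzE j) (hzE l) hb huE)
  exact ⟨_, gen_mk hF hy0 hyi hyF hai⟩

end Pool.Agent.VRC
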