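import Pool.Agent.VRC.Base
import Pool.Agent.VCI.GenSp

/-! Surfaces in rationally connected varieties: a correspondence at generic points (after
VCI/GenSp). -/

set_option autoImplicit false

open scoped LinearAlgebra.Projectivization
open MvPolynomial

namespace Pool.Agent.VRC

open Pool.Agent.VGS (Fl adj clo Coef IsPl Sp)
open Pool.Agent.VCI hiding gen_sp fam_T

variable {m r : ℕ} {F : Fin m → MvPolynomial (Fin (r + 3)) ℂ} {d : Fin m → ℕ} {K : Fl}

/-- `T(s)` specialises to `T(q)` if `s` specialises to the generic point `q` -/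
theorem gen_sp (hX : Sfc0 F d K) {K' C : Fl} [Countable C] (h1 : K ≤ K') (h2 : K' ≤ clo K) (hC : clo C = C)
    (hKC : K ≤ C) {T : PN (r + 3) → Cy (r + 3)}
    (hT : ∀ σ ∈ VGS.Fix K', ∀ p ∈ Gen K F, T (act σ p) = actC σ (T p))
    {V : ValuationSubring ℂ} (hV : IsPl V C) {s q : PN (r + 3)} (hs : s ∈ Gen K F)
    (hq : q ∈ Gen K F) (hsq : SpP V C s q) (f : PN (r + 3) → PN (r + 3))
    (hf : ∀ y ∈ (T s).support, ∀ y', SpP V C y y' → f y = y') :
    (∀ y ∈ (T s).support, SpP V C y (f y)) ∧ (T s).mapDomain f = T q := by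
  have hcK : Countable K := hX.cK
  have hcκ : Countable (clo K) := inferInstance
  have hcK' : Countable K' := by
    have h3 : ((clo K : Fl) : Set ℂ).Countable := Set.to_countable _
    exact h3.mono h2
  have hκC : clo K ≤ C := by
    rw [← hC]
    exact VGS.clo_mono hKC
  obtain ⟨σ, hσ, hσq⟩ := hX.conj K hcK le_rfl q hq s hs
  have h3 := gs_lim hV hκC hσ hσq hsq
  obtain ⟨τ, hτ⟩ := gs_aut hC hV (M := adjP (clo K) s) fun m hm => ⟨_, h3 m hm⟩
  have hτκ : τ ∈ VGS.Fix (clo K) := by
    intro x hx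
    have h4 : x ∈ clo (adjP (clo K) s) := VGS.le_clo _ (le_adjP _ _ hx)
    exact VGS.Sp.unique hV (hτ x h4) (VGS.Sp.const hV (hκC hx))
  -- points over `clo κ(s)` specialise to their images under `τ`
  have key : ∀ y : PN (r + 3), Over (clo (adjP (clo K) s)) y → SpP V C y (act τ y) := by
    rintro y ⟨v, hv, hvL, rfl⟩
    exact ⟨v, fun i => τ (v i), hv, map_ne_zero' τ hv, rfl, act_mk τ v hv _,
      fun i => hτ _ (hvL i)⟩
  have hτs : act τ s = q :=
    SpP.unique hV (key s ((over_adjP _ s).mono (VGS.le_clo _))) hsq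
  have hov : ∀ y ∈ (T s).support, SpP V C y (act τ y) := by
    intro y hy
    refine key y ((gs_over hT hs hy).mono (VGS.clo_mono ?_))
    exact adjP_le (h2.trans (le_adjP _ _)) (over_adjP _ s)
  have hfy : ∀ y ∈ (T s).support, f y = act τ y := fun y hy => hf y hy _ (hov y hy)
  refine ⟨fun y hy => ?_, ?_⟩
  · rw [hfy y hy]
    exact hov y hy
  · rw [← hτs, hT τ (VGS.Fix_mono h2 hτκ) s hs]
    exact Finsupp.mapDomain_congr hfy

/-- a correspondence preserves the rational equivalence given by one family with generic limits -/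
theorem fam_T (hX : Sfc0 F d K) {K' E : Fl} [Countable E] (h1 : K ≤ K') (h2 : K' ≤ clo K) (hK' : K' ≤ E)
    {T : PN (r + 3) → Cy (r + 3)} (hTX : ∀ p ∈ Gen K F, ∀ q ∈ (T p).support, q ∈ ciS F)
    (hT : ∀ σ ∈ VGS.Fix K', ∀ p ∈ Gen K F, T (act σ p) = actC σ (T p))
    {u : ℂ} (hu : u ∉ clo E) {z : Cy (r + 3)} (hz : IsFamC E u z)
    (hzG : ∀ p ∈ z.support, p ∈ Gen K F)
    {V₀ V₁ : ValuationSubring ℂ} (hV₀ : IsPl V₀ (clo E)) (hV₁ : IsPl V₁ (clo E))
    (hu₀ : Sp V₀ (clo E) u 0) (hu₁ : Sp V₁ (clo E) u 1) {f g : PN (r + 3) → PN (r + 3)}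
    (hf : ∀ p ∈ z.support, SpP V₀ (clo E) p (f p) ∧ f p ∈ Gen K F)
    (hg : ∀ p ∈ z.support, SpP V₁ (clo E) p (g p) ∧ g p ∈ Gen K F) :
    ext T (z.mapDomain f) - ext T (z.mapDomain g) ∈ ratQ F := by
  classical
  have hcK : Countable K := hX.cK
  have hcκ : Countable (clo K) := inferInstance
  have hcE : Countable (clo E) := inferInstance
  have hcK' : Countable K' := by
    have h3 : ((clo K : Fl) : Set ℂ).Countable := Set.to_countable _
    exact h3.mono h2
  have hKE : K ≤ clo E := (h1.trans hK').trans (VGS.le_clo E)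
  have hCC : clo (clo E) = clo E := VGS.clo_clo E
  -- the points of `T p`, for `p` in the support of `z`
  have hov : ∀ p ∈ z.support, ∀ x ∈ (T p).support, Over (clo (adj E {u})) x := by
    intro p hp x hx
    refine (gs_over hT (hzG p hp) hx).mono ?_
    rw [← VGS.clo_clo (adj E {u})]
    exact VGS.clo_mono (adjP_le ((hK'.trans (VGS.le_adj _ _)).trans (VGS.le_clo _))
      (hz.isOver p hp))
  have hle : clo (adj E {u}) ≤ clo (adj (clo E) {u}) :=
    VGS.clo_mono (VGS.adj_le ((VGS.le_clo E).trans (VGS.le_adj _ _)) (VGS.subset_adj _ _))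
  have hf' : ∀ x : PN (r + 3), Over (clo (adj E {u})) x → ∃ q, SpP V₀ (clo E) x q :=
    fun x hx => exists_spP hCC hV₀ hu hu₀ (hx.mono hle)
  have hg' : ∀ x : PN (r + 3), Over (clo (adj E {u})) x → ∃ q, SpP V₁ (clo E) x q :=
    fun x hx => exists_spP hCC hV₁ hu hu₁ (hx.mono hle)
  choose! a ha using hf'
  choose! b hb using hg'
  have hext : ∀ w : Cy (r + 3), ext T w = w.sum fun p c => c • T p := fun w => by
    unfold VCI.ext
    rw [Finsupp.linearCombination_apply]
  -- the support of the cycle `T z`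
  have hsup : ∀ x ∈ (ext T z).support, ∃ p ∈ z.support, x ∈ (T p).support := by
    intro x hx
    rw [hext] at hx
    have h3 := Finsupp.support_finsetSum (s := z.support) (f := fun p => z p • T p) hx
    rw [Finset.mem_biUnion] at h3
    obtain ⟨p, hp, h4⟩ := h3
    exact ⟨p, hp, Finsupp.support_smul h4⟩
  -- the family `T z`
  have hfam : IsFamC E u (ext T z) := by
    refine ⟨fun x hx => ?_, fun σ hσ => ?_⟩
    · obtain ⟨p, hp, h3⟩ := hsup x hx
      exact hov p hp x h3
    · have hσK : σ ∈ VGS.Fix K' := VGS.Fix_mono (hK'.trans (VGS.le_adj _ _)) hσ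
      have h3 : ∀ w : Cy (r + 3), (∀ p ∈ w.support, p ∈ Gen K F) →
          actC σ (ext T w) = ext T (actC σ w) := by
        intro w hw
        have h4 : w = ∑ p ∈ w.support, Finsupp.single p (w p) := (Finsupp.sum_single w).symm
        rw [h4, map_sum, map_sum, map_sum, map_sum]
        refine Finset.sum_congr rfl fun p hp => ?_
        rw [ext_single, map_smul, actC_single, ext_single, hT σ hσK p (hw p hp)]
      rw [h3 z hzG, hz.stable σ hσ]
  -- the limits of the family `T z`
  have hlim : ∀ {V : ValuationSubring ℂ}, IsPl V (clo E) → ∀ {l e : PN (r + 3) → PN (r + 3)},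
      (∀ p ∈ z.support, SpP V (clo E) p (l p) ∧ l p ∈ Gen K F) →
      (∀ x, Over (clo (adj E {u})) x → SpP V (clo E) x (e x)) →
      ext T (z.mapDomain l) = (ext T z).mapDomain e := by
    intro V hV l e hl he
    have h4 : z = ∑ p ∈ z.support, Finsupp.single p (z p) := (Finsupp.sum_single z).symm
    have h5 : ∀ p ∈ z.support, (T p).mapDomain e = T (l p) := fun p hp =>
      (gen_sp hX h1 h2 hCC hKE hT hV (hzG p hp) (hl p hp).2 (hl p hp).1 e
        fun y hy y' hy' => SpP.unique hV (he y (hov p hp y hy)) hy').2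
    have h6 : ∀ w : Cy (r + 3), (∀ p ∈ w.support, (T p).mapDomain e = T (l p)) →
        ext T (w.mapDomain l) = (ext T w).mapDomain e := by
      intro w hw
      have h7 : w.mapDomain l = ∑ p ∈ w.support, Finsupp.single (l p) (w p) := rfl
      rw [h7, map_sum, hext w]
      have h8 : (w.sum fun p c => c • T p).mapDomain e =
          ∑ p ∈ w.support, (w p • T p).mapDomain e :=
        map_sum (Finsupp.mapDomain.addMonoidHom e) _ _
      rw [h8]
      refine Finset.sum_congr rfl fun p hp => ?_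
      rw [ext_single, Finsupp.mapDomain_smul, hw p hp]
    exact h6 z h5
  rw [hlim hV₀ hf ha, hlim hV₁ hg hb]
  refine link_cy hu hfam hX.hom (fun i m => (h1.trans hK') (hX.coef i m)) (fun x hx => ?_) hV₀ hV₁ hu₀ hu₁
    (fun x hx => ha x (hfam.isOver x hx)) (fun x hx => hb x (hfam.isOver x hx))
  obtain ⟨p, hp, h3⟩ := hsup x hx
  exact hTX p (hzG p hp) x h3

end Pool.Agent.VRC
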