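import Pool.Agent.VRC.Base

/-! Surfaces in rationally connected varieties: the tangent space of the variety at a point of the
surface. -/

set_option autoImplicit false

open scoped LinearAlgebra.Projectivization
open MvPolynomial

namespace Pool.Agent.VRC

open Pool.Agent.VGS (Fl adj clo Coef Kills IsPl Sp le_adj le_clo subset_adj adj_le clo_mono ai_mono
  ai_iff ai_sum ai_pair mem_clo mem_clo_adj adj_adj ai_clo)
open Pool.Agent.VCI

variable {s c r : ℕ} {M : Fin c → ℕ} {k K : Fl} {h : Fin s → MvPolynomial (Fin (r + 3)) ℂ}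
  {g : (i : Fin c) → Fin (M i) → MvPolynomial (Fin (r + 3)) ℂ} {a : (i : Fin c) → Fin (M i) → ℂ}
  {d : Fin (s + c) → ℕ}

private theorem lt_eqs_left (j : Fin s) : eqs h g a (Fin.castAdd c j) = h j := Fin.append_left _ _ _

private theorem cone_lt {z : Fin (r + 3) → ℂ} (hz : z ∈ cone (eqs h g a)) (j : Fin s) :
    aeval z (h j) = 0 := by
  have h1 := hz.2 (Fin.castAdd c j)
  rwa [lt_eqs_left] at h1

/-- the tangent space of the cone `h = 0` at a point of `X` has dimension at most `c + 3` -/
theorem lin_tan (hX : Sfc0 (eqs h g a) d K) {z : Fin (r + 3) → ℂ}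
    (hz : z ∈ cone (eqs h g a)) (v : Fin (c + 4) → Fin (r + 3) → ℂ)
    (hv : ∀ b j, dFc (h j) z (v b) = 0) : ¬ LinearIndependent ℂ v := by
  classical
  intro hli
  let T : (Fin (c + 4) → ℂ) →ₗ[ℂ] (Fin c → ℂ) :=
    { toFun := fun γ i => ∑ b, γ b * dFc (eqs h g a (Fin.natAdd s i)) z (v b)
      map_add' := fun x y => by
        funext i
        change ∑ b, (x b + y b) * _ = ∑ b, x b * _ + ∑ b, y b * _
        rw [← Finset.sum_add_distrib]
        exact Finset.sum_congr rfl fun b _ => add_mul _ _ _
      map_smul' := fun t x => by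
        funext i
        change ∑ b, (t * x b) * _ = t * ∑ b, x b * _
        rw [Finset.mul_sum]
        exact Finset.sum_congr rfl fun b _ => mul_assoc _ _ _ }
  have hk : 4 ≤ Module.finrank ℂ (LinearMap.ker T) := by
    have h1 := LinearMap.finrank_range_add_finrank_ker T
    have h2 : Module.finrank ℂ (LinearMap.range T) ≤ c := by
      refine (Submodule.finrank_le _).trans ?_
      rw [Module.finrank_fintype_fun_eq_card, Fintype.card_fin]
    rw [Module.finrank_fintype_fun_eq_card, Fintype.card_fin] at h1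
    omega
  obtain ⟨γ, hγ⟩ := exists_linearIndependent_of_le_finrank (R := ℂ) hk
  have hinj : Function.Injective (Fintype.linearCombination ℂ v) :=
    linearIndependent_iff_injective_fintypeLinearCombination.1 hli
  have hu : LinearIndependent ℂ fun b : Fin 4 =>
      Fintype.linearCombination ℂ v (γ b : Fin (c + 4) → ℂ) := by
    have h1 : LinearIndependent ℂ fun b : Fin 4 => (γ b : Fin (c + 4) → ℂ) :=
      hγ.map' (LinearMap.ker T).subtype (Submodule.ker_subtype _)
    exact h1.map' _ (LinearMap.ker_eq_bot.2 hinj)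
  refine hX.tan_dep hz (v := fun b : Fin 4 =>
      Fintype.linearCombination ℂ v (γ b : Fin (c + 4) → ℂ)) ?_ hu
  intro b i
  have hsum : dFc (eqs h g a i) z (Fintype.linearCombination ℂ v (γ b : Fin (c + 4) → ℂ)) =
      ∑ b', (γ b : Fin (c + 4) → ℂ) b' * dFc (eqs h g a i) z (v b') := by
    rw [Fintype.linearCombination_apply]
    have h1 : ∀ S : Finset (Fin (c + 4)),
        dFc (eqs h g a i) z (∑ b' ∈ S, (γ b : Fin (c + 4) → ℂ) b' • v b') =
          ∑ b' ∈ S, (γ b : Fin (c + 4) → ℂ) b' * dFc (eqs h g a i) z (v b') := by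
      intro S
      induction S using Finset.induction_on with
      | empty =>
        rw [Finset.sum_empty, Finset.sum_empty]
        unfold dFc
        exact Finset.sum_eq_zero fun l _ => by rw [Pi.zero_apply, zero_mul]
      | insert x S hx ih =>
        rw [Finset.sum_insert hx, Finset.sum_insert hx, dFc_vadd, dFc_vsmul, ih]
    exact h1 Finset.univ
  rw [hsum]
  induction i using Fin.addCases with
  | left j =>
    refine Finset.sum_eq_zero fun b' _ => ?_
    rw [lt_eqs_left, hv, mul_zero]
  | right j =>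
    have h3 : T (γ b : Fin (c + 4) → ℂ) = 0 := (γ b).2
    exact congrFun h3 j


theorem lin_trd (hX : Sfc0 (eqs h g a) d K) (ck : Countable k) (hk : ∀ j, Coef k (h j))
    {z : Fin (r + 3) → ℂ} (hz : z ∈ cone (eqs h g a)) {i : Fin (r + 3)} (hzi : z i = 1) :
    TrLe k (c + 2) z := by
  intro f hf
  have key : ∀ a : Fin (c + 3), ∃ D : Derivation ℤ ℂ ℂ, Kills k D ∧ D (z (f a)) = 1 ∧
      ∀ b, b ≠ a → D (z (f b)) = 0 := by
    intro a
    have h1 : AlgebraicIndependent k (Sum.elim (fun b : {b : Fin (c + 3) // b ≠ a} => z (f b.1))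
        fun _ : Unit => z (f a)) := by
      have h2 := hf.comp (fun s : {b : Fin (c + 3) // b ≠ a} ⊕ Unit =>
        Sum.elim (fun b => b.1) (fun _ => a) s) (by
          rintro (⟨b, hb⟩ | ⟨⟩) (⟨c, hc⟩ | ⟨⟩) h
          · have h' : b = c := h
            subst h'
            rfl
          · exact absurd h hb
          · exact absurd h.symm hc
          · rfl)
      have h3 : (Sum.elim (fun b : {b : Fin (c + 3) // b ≠ a} => z (f b.1)) fun _ : Unit => z (f a)) =
          (fun b => z (f b)) ∘ (fun s : {b : Fin (c + 3) // b ≠ a} ⊕ Unit =>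
            Sum.elim (fun b => b.1) (fun _ => a) s) := by
        funext s
        rcases s with s | s <;> rfl
      rw [h3]
      exact h2
    obtain ⟨-, h2⟩ := ai_sum.1 h1
    rw [algebraicIndependent_unique_type_iff] at h2
    set M : Fl := adj k (Set.range fun b : {b : Fin (c + 3) // b ≠ a} => z (f b.1)) with hM
    have hcM : Countable M := by
      have h3 : Countable (Set.range fun b : {b : Fin (c + 3) // b ≠ a} => z (f b.1)) :=
        (Set.countable_range _).to_subtype
      exact VGS.countable_adj _ _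
    have h3 : z (f a) ∉ clo M := fun h => h2 (mem_clo.1 h)
    obtain ⟨y, hy⟩ := VGS.gp_exists_far (adj M {z (f a)}) (fun _ : Fin 4 => 0)
    have hy' : y ∉ clo (adj M {z (f a)}) := fun h => hy (clo_mono (le_adj _ _) h)
    obtain ⟨D, hD, hD1, -⟩ := VGS.exists_kills M (ai_pair.2 ⟨h3, hy'⟩) 1 0
    refine ⟨D, fun x hx => hD x (le_adj _ _ hx), hD1, fun b hb => hD _ ?_⟩
    exact subset_adj _ _ ⟨⟨b, hb⟩, rfl⟩
  choose D hDK hD1 hD0 using key
  refine lin_tan hX hz (v := Fin.cons z fun a l => D a (z l)) ?_ ?_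
  · intro a s
    refine Fin.cases ?_ (fun a => ?_) a
    · rw [Fin.cons_zero]
      have h1 := hX.dFc_self hz (Fin.castAdd c s)
      rwa [lt_eqs_left] at h1
    · rw [Fin.cons_succ]
      have h1 := mu_der_aeval (hk s) (hDK a) z
      rw [(cone_lt hz s), map_zero] at h1
      rw [h1, dFc]
      exact Finset.sum_congr rfl fun l _ => mul_comm _ _
  · rw [Fintype.linearIndependent_iff]
    intro g hg
    have h0 : ∀ l, g 0 * z l + ∑ a : Fin (c + 3), g a.succ * D a (z l) = 0 := by
      intro l
      have h1 := congrFun hg l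
      rw [Finset.sum_apply, Fin.sum_univ_succ] at h1
      exact h1
    have h1 : g 0 = 0 := by
      have h2 := h0 i
      rw [hzi, mul_one, Finset.sum_eq_zero, add_zero] at h2
      · exact h2
      · intro a _
        rw [Derivation.map_one_eq_zero, mul_zero]
    intro a
    refine Fin.cases h1 (fun a => ?_) a
    have h2 := h0 (f a)
    rw [h1, zero_mul, zero_add, Finset.sum_eq_single a] at h2
    · rwa [hD1, mul_one] at h2
    · intro b _ hb
      rw [hD0 b a (Ne.symm hb), mul_zero]
    · intro h
      exact absurd (Finset.mem_univ a) h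


theorem lin_trdX (hX : Sfc0 (eqs h g a) d K) {L : Fl} (hL : K ≤ L) {z : Fin (r + 3) → ℂ}
    (hz : z ∈ cone (eqs h g a)) {i : Fin (r + 3)} (hzi : z i = 1) : TrLe L 2 z :=
  hX.trLe hL hz hzi

end Pool.Agent.VRC
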