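import Pool.Agent.VRC.LinE
import Pool.Agent.VRC.LinSep
import Pool.Agent.VRC.LinTrd

/-! Surfaces in rationally connected varieties: the data over the ground field. -/

set_option autoImplicit false

open scoped LinearAlgebra.Projectivization
open MvPolynomial

namespace Pool.Agent.VRC

open Pool.Agent.VGS (Fl adj clo Coef)
open Pool.Agent.VCI

variable {r : ℕ}

/-- the data of the theorem over a ground field `k` -/
theorem linRC_of {s c : ℕ} {M : Fin c → ℕ} {h : Fin s → MvPolynomial (Fin (r + 3)) ℂ}
    {g : (i : Fin c) → Fin (M i) → MvPolynomial (Fin (r + 3)) ℂ} {a : (i : Fin c) → Fin (M i) → ℂ}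
    {d : Fin (s + c) → ℕ} (hirr : IsIrr h) (hrc : IsRC h) (hsep : ∀ i, Separates h (g i))
    (homg : ∀ i l, (g i l).IsHomogeneous (d (Fin.natAdd s i)))
    (hbpf : ∀ z ∈ cone (eqs h g a), ∀ i, ∃ l, aeval z (g i l) ≠ 0)
    {k K : Fl} (ck : Countable k) (hbase : base h g ≤ k)
    (hai : AlgebraicIndependent k fun il : (i : Fin c) × Fin (M i) => a il.1 il.2)
    (hK : K = adj k (Set.range fun il : (i : Fin c) × Fin (M i) => a il.1 il.2))
    (hX : Sfc0 (eqs h g a) d K) : LinRC k h g a K d := by
  have hS := lin_sep hirr hsep homg hbpf ck hbase hai hK hX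
  have htrd : ∀ z ∈ cone (eqs h g a), ∀ i, z i = 1 → TrLe k (c + 2) z := fun z hz i hzi =>
    lin_trd hX ck (lin_coefh hbase) hz hzi
  exact {
    ck := ck
    hK := hK
    hom := hX.hom
    homg := homg
    coefh := lin_coefh hbase
    coefg := lin_coefg hbase
    ai := hai
    bpf := hbpf
    trd := htrd
    trdX := fun L hL z hz i hzi => lin_trdX hX hL hz hzi
    sep := hS
    rc := lin_rc hirr hrc hX.hom homg ck (lin_coefh hbase) (lin_coefg hbase) hai hK htrd
      (fun z hz v hv => lin_tan hX hz v hv) hS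
    conj := hX.conj }

end Pool.Agent.VRC
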