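import Pool.Agent.VRC.SDefs

/-!
# Finitely many numbers define the local equations
-/

set_option autoImplicit false

open MvPolynomial

namespace Pool.Agent.VRC

open Pool.Agent.VGS (Fl adj clo Coef Kills)

variable {m n r : ℕ}

/-- The multipliers `B` for the choice `I` of local equations. -/
noncomputable def locIdl (F : Fin m → MvPolynomial (Fin n) ℂ) (I : Fin r → Fin m) :
    Ideal (MvPolynomial (Fin n) ℂ) where
  carrier := {B | ∀ i, B * F i ∈ Ideal.span (Set.range fun j => F (I j))}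
  zero_mem' := fun i => by rw [zero_mul]; exact Ideal.zero_mem _
  add_mem' := fun {a b} ha hb i => by rw [add_mul]; exact Ideal.add_mem _ (ha i) (hb i)
  smul_mem' := fun c a ha i => by
    rw [smul_eq_mul, mul_assoc]
    exact Ideal.mul_mem_left _ _ (ha i)

theorem mem_locIdl {F : Fin m → MvPolynomial (Fin n) ℂ} {I : Fin r → Fin m}
    {B : MvPolynomial (Fin n) ℂ} :
    B ∈ locIdl F I ↔ ∀ i, B * F i ∈ Ideal.span (Set.range fun j => F (I j)) := Iff.rfl

/-- finitely many numbers define the local equations -/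
theorem exists_loc_fin {F : Fin m → MvPolynomial (Fin (r + 3)) ℂ} (hF : IsSmooth F) :
    ∃ S : Finset ℂ, ∀ K : Fl, (∀ x ∈ S, x ∈ clo K) →
      ∀ z ∈ cone F, ∃ (I : Fin r → Fin m) (B : MvPolynomial (Fin (r + 3)) ℂ),
        Coef (clo K) B ∧ aeval z B ≠ 0 ∧
        (∀ i, B * F i ∈ Ideal.span (Set.range fun j => F (I j))) ∧
        LinearIndependent ℂ fun j v => aeval z (pderiv v (F (I j))) := by
  classical
  have hfg : ∀ I : Fin r → Fin m, ∃ T : Finset (MvPolynomial (Fin (r + 3)) ℂ),
      Ideal.span (T : Set (MvPolynomial (Fin (r + 3)) ℂ)) = locIdl F I := fun I =>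
    IsNoetherian.noetherian (locIdl F I)
  choose T hT using hfg
  refine ⟨Finset.univ.biUnion fun I : Fin r → Fin m =>
    (T I).biUnion fun G => G.support.image fun u => coeff u G, fun K hK z hz => ?_⟩
  obtain ⟨I, B, hB, hBF, hli⟩ := hF z hz
  have h1 : ∃ G ∈ T I, aeval z G ≠ 0 := by
    by_contra hcon
    push Not at hcon
    apply hB
    have h2 : Ideal.span (T I : Set (MvPolynomial (Fin (r + 3)) ℂ)) ≤
        RingHom.ker (aeval z : MvPolynomial (Fin (r + 3)) ℂ →ₐ[ℂ] ℂ) := by
      rw [Ideal.span_le]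
      intro G hG
      exact hcon G (Finset.mem_coe.1 hG)
    rw [hT] at h2
    exact h2 (mem_locIdl.2 hBF)
  obtain ⟨G, hG, hGz⟩ := h1
  refine ⟨I, G, fun u => ?_, hGz, ?_, hli⟩
  · by_cases hu : coeff u G = 0
    · rw [hu]
      exact (clo K).zero_mem
    · refine hK _ ?_
      rw [Finset.mem_biUnion]
      refine ⟨I, Finset.mem_univ _, ?_⟩
      rw [Finset.mem_biUnion]
      exact ⟨G, hG, Finset.mem_image.2 ⟨u, mem_support_iff.2 hu, rfl⟩⟩
  · have h3 : G ∈ locIdl F I := by
      rw [← hT]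
      exact Ideal.subset_span (Finset.mem_coe.2 hG)
    exact h3

end Pool.Agent.VRC
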