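import Pool.Agent.VCI.Tau
import Pool.Agent.VRC.Base
import Pool.Agent.VRC.Tau
import Pool.Agent.VRC.Mum
import Pool.Agent.VRC.TauNe

/-! Surfaces in rationally connected varieties: a surface with a two-form is not a cone. -/

set_option autoImplicit false

open scoped LinearAlgebra.Projectivization
open MvPolynomial

namespace Pool.Agent.VRC

open Pool.Agent.Chow0 (IsChowForm IsLink chowForm linForm)
open Pool.Agent.VGS (Fl adj clo Coef Kills IsPl Sp le_adj le_clo subset_adj clo_mono)
open Pool.Agent.VCI

variable {m n r : ℕ}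

namespace NCone

/-- a point is the cycle of its linear form -/
theorem isChowForm_mk {S : Set (PN n)} {v : Fin n → ℂ} (hv : v ≠ 0)
    (hS : (Projectivization.mk ℂ v hv : PN n) ∈ S) :
    IsChowForm S (linForm v) {⟨Projectivization.mk ℂ v hv, hS⟩} := by
  obtain ⟨a, ha, h⟩ := ch_linForm_mk hv
  refine ⟨a, ha, ?_⟩
  rw [h, Multiset.map_singleton, chowForm, Multiset.map_singleton, Multiset.prod_singleton]

end NCone

/-- points of a line on the surface are rationally equivalent -/
theorem rat_line {F : Fin m → MvPolynomial (Fin n) ℂ} {d : Fin m → ℕ}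
    (hF : ∀ i, (F i).IsHomogeneous (d i)) {x w : Fin n → ℂ} (hx : x ≠ 0) (hw : w ≠ 0)
    (hxw : ∀ a b : ℂ, ∀ i, aeval (fun l => a * x l + b * w l) (F i) = 0)
    (hne : ∀ a b : ℂ, (fun l => a * x l + b * w l) = 0 → a = 0 ∧ b = 0) :
    Finsupp.single (Projectivization.mk ℂ x hx) (1 : ℚ) -
      Finsupp.single (Projectivization.mk ℂ w hw) 1 ∈ ratQ F := by
  have hv : ∀ t : ℂ, (fun l => (1 - t) * x l + t * w l) ≠ 0 := by
    intro t h
    obtain ⟨h1, h2⟩ := hne _ _ h
    rw [h2, sub_zero] at h1
    exact one_ne_zero h1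
  have hmem : ∀ t : ℂ, (Projectivization.mk ℂ (fun l => (1 - t) * x l + t * w l) (hv t) : PN n) ∈
      ciS F := fun t => (mem_surf_mk hF (hv t)).2 (hxw _ _)
  have hxS : (Projectivization.mk ℂ x hx : PN n) ∈ ciS F := by
    rw [mem_surf_mk hF hx]
    intro i
    have h1 := hxw 1 0 i
    simpa using h1
  have hwS : (Projectivization.mk ℂ w hw : PN n) ∈ ciS F := by
    rw [mem_surf_mk hF hw]
    intro i
    have h1 := hxw 0 1 i
    simpa using h1
  set Φ : Polynomial (MvPolynomial (Fin n) ℂ) := ∑ l, ((1 - Polynomial.X) *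
    Polynomial.C (C (x l)) + Polynomial.X * Polynomial.C (C (w l))) * Polynomial.C (X l) with hΦ
  have hev : ∀ t : ℂ, Φ.eval (C t) = linForm (fun l => (1 - t) * x l + t * w l) := by
    intro t
    rw [hΦ, Polynomial.eval_finsetSum, linForm]
    refine Finset.sum_congr rfl fun l _ => ?_
    simp only [Polynomial.eval_mul, Polynomial.eval_add, Polynomial.eval_sub, Polynomial.eval_one,
      Polynomial.eval_X, Polynomial.eval_C, C_add, C_mul, C_sub, C_1]
  refine Submodule.subset_span ⟨{⟨_, hxS⟩}, {⟨_, hwS⟩}, ⟨Φ, ?_, ?_, ?_⟩, ?_⟩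
  · exact Filter.Eventually.of_forall fun t => ⟨_, by
      rw [hev t]
      exact NCone.isChowForm_mk (hv t) (hmem t)⟩
  · rw [hev 0]
    have h1 : (fun l => (1 - 0) * x l + 0 * w l) = x := by
      funext l
      ring
    rw [h1]
    exact NCone.isChowForm_mk hx hxS
  · rw [hev 1]
    have h1 : (fun l => (1 - 1) * x l + 1 * w l) = w := by
      funext l
      ring
    rw [h1]
    exact NCone.isChowForm_mk hw hwS
  · rw [Multiset.map_singleton, Multiset.map_singleton]
    unfold cycQ
    rw [Multiset.map_singleton, Multiset.map_singleton, Multiset.sum_singleton,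
      Multiset.sum_singleton]

namespace NCone

/-- the derivative in the direction `x` -/
noncomputable def dir (x : Fin n → ℂ) (P : MvPolynomial (Fin n) ℂ) : MvPolynomial (Fin n) ℂ :=
  ∑ l, C (x l) * pderiv l P

theorem aeval_dir (x : Fin n → ℂ) (P : MvPolynomial (Fin n) ℂ) (w : Fin n → ℂ) :
    aeval w (dir x P) = dFc P w x := by
  unfold dir dFc
  rw [map_sum]
  refine Finset.sum_congr rfl fun l _ => ?_
  rw [map_mul, aeval_C]
  rfl

theorem dir_hom {x : Fin n → ℂ} {P : MvPolynomial (Fin n) ℂ} {e : ℕ} (hP : P.IsHomogeneous (e + 1)) :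
    (dir x P).IsHomogeneous e := by
  unfold dir
  refine IsHomogeneous.sum _ _ _ fun l _ => ?_
  have h1 := (isHomogeneous_C (Fin n) (x l)).mul (hP.pderiv (i := l))
  rwa [zero_add, Nat.add_sub_cancel] at h1

theorem dir_coef {E : Fl} {x : Fin n → ℂ} (hx : ∀ l, x l ∈ E) {P : MvPolynomial (Fin n) ℂ}
    (hP : Coef E P) : Coef E (dir x P) := by
  intro a
  unfold dir
  rw [coeff_sum]
  refine sum_mem fun l _ => ?_
  rw [coeff_C_mul]
  exact mul_mem (hx l) (coef_pderiv hP l a)

/-- the restriction to the line `w + t x` -/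
noncomputable def lin (x w : Fin n → ℂ) (P : MvPolynomial (Fin n) ℂ) : Polynomial ℂ :=
  aeval (fun l => Polynomial.C (w l) + Polynomial.X * Polynomial.C (x l)) P

theorem lin_eval (x w : Fin n → ℂ) (P : MvPolynomial (Fin n) ℂ) (t : ℂ) :
    (lin x w P).eval t = aeval (fun l => w l + t * x l) P := by
  unfold lin
  induction P using MvPolynomial.induction_on with
  | C a => simp
  | add P Q hP hQ => rw [map_add, Polynomial.eval_add, hP, hQ, map_add]
  | mul_X P i hP =>
    rw [map_mul, Polynomial.eval_mul, hP, map_mul, aeval_X, aeval_X, Polynomial.eval_add,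
      Polynomial.eval_C, Polynomial.eval_mul, Polynomial.eval_X, Polynomial.eval_C]

theorem lin_der (x w : Fin n → ℂ) (P : MvPolynomial (Fin n) ℂ) :
    Polynomial.derivative (lin x w P) = lin x w (dir x P) := by
  unfold lin dir
  induction P using MvPolynomial.induction_on with
  | C a => simp
  | add P Q hP hQ =>
    rw [map_add, Polynomial.derivative_add, hP, hQ, ← map_add, ← Finset.sum_add_distrib]
    congr 1
    refine Finset.sum_congr rfl fun l _ => ?_
    rw [map_add, mul_add]
  | mul_X P i hP =>
    rw [map_mul, Polynomial.derivative_mul, hP, aeval_X, map_sum, map_sum, Finset.sum_mul]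
    have h1 : Polynomial.derivative (Polynomial.C (w i) + Polynomial.X * Polynomial.C (x i)) =
        Polynomial.C (x i) := by
      simp
    rw [h1]
    have h2 : ∀ l, aeval (fun l => Polynomial.C (w l) + Polynomial.X * Polynomial.C (x l))
        (C (x l) * pderiv l (P * X i)) =
        aeval (fun l => Polynomial.C (w l) + Polynomial.X * Polynomial.C (x l))
          (C (x l) * pderiv l P) * (Polynomial.C (w i) + Polynomial.X * Polynomial.C (x i)) +
        (if l = i then aeval (fun l => Polynomial.C (w l) + Polynomial.X * Polynomial.C (x l)) P *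
          Polynomial.C (x i) else 0) := by
      intro l
      rw [Derivation.leibniz, smul_eq_mul, smul_eq_mul, pderiv_X]
      rcases eq_or_ne l i with rfl | hl
      · rw [Pi.single_eq_same, if_pos rfl, mul_one, mul_add, map_add, map_mul, map_mul, map_mul,
          map_mul, aeval_X, aeval_C]
        have h3 : algebraMap ℂ (Polynomial ℂ) (x l) = Polynomial.C (x l) := rfl
        rw [h3]
        ring
      · rw [Pi.single_eq_of_ne (Ne.symm hl), if_neg hl, mul_zero, zero_add, add_zero, map_mul,
          map_mul, map_mul, aeval_X, aeval_C]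
        ring
    rw [Finset.sum_congr rfl fun l _ => h2 l, Finset.sum_add_distrib, Finset.sum_ite_eq' ,
      if_pos (Finset.mem_univ i)]

end NCone

open NCone

/-- **The surface is not a cone**, because of Mumford's lemma. -/
theorem ncone_of {F : Fin m → MvPolynomial (Fin (r + 3)) ℂ} {d : Fin m → ℕ} {K : Fl}
    (hX : Sfc0 F d K) (ω : HForm F (clo K))
    (hne : ∃ p ∈ Gen K F, ∃ D₁ D₂ : Derivation ℤ ℂ ℂ, Kills K D₁ ∧ Kills K D₂ ∧
      tau ω D₁ D₂ p ≠ 0) (E : Fl) (hEc : Countable E) (hE : clo E = E) (hKE : K ≤ E)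
    (x : Fin (r + 3) → ℂ) (hx : x ∈ cone F) (hxE : ∀ l, x l ∈ E) (w : Fin (r + 3) → ℂ)
    (hw : w ∈ cone F) (i j l : Fin (r + 3)) (hwi : w i = 1)
    (hjl : AlgebraicIndependent E ![w j, w l]) : ∃ s, dFc (F s) w x ≠ 0 := by
  by_contra hcon
  push Not at hcon
  have hcK := hX.cK
  have hwj : w j ∉ clo E := (VGS.ai_pair.1 hjl).1
  -- the derivation with `D w = x - x i w`
  obtain ⟨D₁, hD₁, h11, h12⟩ := VGS.exists_kills E hjl 1 0
  obtain ⟨D₂, hD₂, h21, h22⟩ := VGS.exists_kills E hjl 0 1
  obtain ⟨D, hD, hDj, hDl⟩ := VGS.exists_kills E hjl (x j - x i * w j) (x l - x i * w l)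
  have htanD : ∀ D : Derivation ℤ ℂ ℂ, Kills E D → ∀ s, dFc (F s) w (fun a => D (w a)) = 0 := by
    intro D hD s
    have h1 := der_aeval ((hX.coef s).mono hKE) hD w
    rw [hw.2 s, map_zero] at h1
    exact h1.symm
  have hD1 : ∀ D : Derivation ℤ ℂ ℂ, D (w i) = 0 := by
    intro D
    rw [hwi, Derivation.map_one_eq_zero]
  set u : Fin (r + 3) → ℂ := fun a => x a - x i * w a - D (w a) with hu
  have hu0 : u = 0 := by
    by_contra hu0
    refine hX.tan_dep hw (v := ![w, fun a => D₁ (w a), fun a => D₂ (w a), u]) ?_ ?_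
    · intro a s
      fin_cases a
      · exact hX.dFc_self hw s
      · exact htanD D₁ hD₁ s
      · exact htanD D₂ hD₂ s
      · change dFc (F s) w u = 0
        have h1 : u = x + (-(x i)) • w + (-1 : ℂ) • (fun a => D (w a)) := by
          funext a
          simp only [hu, Pi.add_apply, Pi.smul_apply, smul_eq_mul]
          ring
        rw [h1, dFc_vadd, dFc_vadd, dFc_vsmul, dFc_vsmul, hcon s, hX.dFc_self hw s, htanD D hD s]
        ring
    · rw [Fintype.linearIndependent_iff]
      intro g hg
      have h0 : ∀ a, g 0 * w a + g 1 * D₁ (w a) + g 2 * D₂ (w a) + g 3 * u a = 0 := by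
        intro a
        have h1 := congrFun hg a
        rw [Finset.sum_apply, Fin.sum_univ_four] at h1
        exact h1
      have hui : u i = 0 := by
        change x i - x i * w i - D (w i) = 0
        rw [hD1 D, hwi]
        ring
      have huj : u j = 0 := by
        simp only [hu, hDj]
        ring
      have hul : u l = 0 := by
        simp only [hu, hDl]
        ring
      have g0 : g 0 = 0 := by
        have h1 := h0 i
        rw [hD1 D₁, hD1 D₂, hui, hwi] at h1
        linear_combination h1
      have g1 : g 1 = 0 := by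
        have h1 := h0 j
        rw [g0, h11, h21, huj] at h1
        linear_combination h1
      have g2 : g 2 = 0 := by
        have h1 := h0 l
        rw [g0, h12, h22, hul] at h1
        linear_combination h1
      have g3 : g 3 = 0 := by
        obtain ⟨a, ha⟩ := Function.ne_iff.1 hu0
        have h1 := h0 a
        rw [g0, g1, g2] at h1
        have h2 : g 3 * u a = 0 := by linear_combination h1
        exact (mul_eq_zero.1 h2).resolve_right ha
      intro a
      fin_cases a
      · exact g0
      · exact g1
      · exact g2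
      · exact g3
  have hDw : ∀ a, D (w a) = x a - x i * w a := by
    intro a
    have h1 := congrFun hu0 a
    simp only [hu, Pi.zero_apply] at h1
    linear_combination -h1
  -- relations of `w` over `E` hold on the line
  have key : ∀ (e : ℕ) (P : MvPolynomial (Fin (r + 3)) ℂ), P.IsHomogeneous e → Coef E P →
      aeval w P = 0 → ∀ t : ℂ, aeval (fun a => w a + t * x a) P = 0 := by
    intro e
    induction e with
    | zero =>
      intro P hP _ h0 t
      have h1 : P = C (coeff 0 P) := by
        have h2 := totalDegree_eq_zero_iff_eq_C.1 (Nat.le_zero.1 hP.totalDegree_le)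
        exact h2
      rw [h1, aeval_C] at h0 ⊢
      exact h0
    | succ e ih =>
      intro P hP hPE h0 t
      have h1 : aeval w (dir x P) = 0 := by
        rw [aeval_dir]
        have h2 := der_aeval hPE hD w
        rw [h0, map_zero] at h2
        have h3 : (fun a => D (w a)) = x + (-(x i)) • w := by
          funext a
          rw [hDw a, Pi.add_apply, Pi.smul_apply, smul_eq_mul]
          ring
        have h4 : dFc P w w = 0 := by
          have h5 := hP.sum_X_mul_pderiv
          have h6 := congrArg (aeval w) h5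
          rw [map_sum, map_nsmul, h0, nsmul_zero] at h6
          rw [dFc, ← h6]
          refine Finset.sum_congr rfl fun a _ => ?_
          rw [map_mul, aeval_X]
        rw [h3, dFc_vadd, dFc_vsmul, h4, mul_zero, add_zero] at h2
        exact h2.symm
      have h2 := ih (dir x P) (dir_hom hP) (dir_coef hxE hPE) h1
      have h3 : lin x w (dir x P) = 0 := by
        refine Polynomial.funext fun t => ?_
        rw [lin_eval, h2 t, Polynomial.eval_zero]
      have h4 : Polynomial.derivative (lin x w P) = 0 := by rw [lin_der, h3]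
      have h5 := Polynomial.derivative_eq_zero.1 h4
      obtain ⟨c, hc⟩ := Polynomial.natDegree_eq_zero.1 h5
      have h6 : (lin x w P).eval 0 = 0 := by
        rw [lin_eval]
        have h7 : (fun a => w a + 0 * x a) = w := by
          funext a
          ring
        rw [h7, h0]
      rw [← lin_eval, ← hc, Polynomial.eval_C]
      rw [← hc, Polynomial.eval_C] at h6
      exact h6
  have hline : ∀ a b : ℂ, ∀ s, aeval (fun c => a * x c + b * w c) (F s) = 0 := by
    intro a b s
    rcases eq_or_ne b 0 with hb | hb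
    · have h1 := aeval_scale (hX.hom s) (z := fun c => a * x c + b * w c) (w := x) (a := a)
        (fun c => by rw [hb]; ring)
      rw [h1, hx.2 s, mul_zero]
    · have h1 := aeval_scale (hX.hom s) (z := fun c => a * x c + b * w c)
        (w := fun c => w c + (a / b) * x c) (a := b) (fun c => by field_simp; ring)
      rw [h1, key (d s) (F s) (hX.hom s) ((hX.coef s).mono hKE) (hw.2 s), mul_zero]
  have hind : ∀ a b : ℂ, (fun c => a * x c + b * w c) = 0 → a = 0 ∧ b = 0 := by
    intro a b h
    have h0 : ∀ c, a * x c + b * w c = 0 := fun c => congrFun h c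
    have ha : a = 0 := by
      by_contra ha
      have h1 : ∀ c, x c = -(b / a) * w c := by
        intro c
        have h2 := h0 c
        field_simp
        linear_combination h2
      have h2 : x i = -(b / a) := by rw [h1 i, hwi, mul_one]
      have h3 : x i ≠ 0 := by
        intro h3
        apply hx.1
        funext c
        rw [h1 c, ← h2, h3, zero_mul, Pi.zero_apply]
      apply hwj
      rw [hE]
      have h4 : w j = x j / x i := by
        rw [h1 j, ← h2]
        field_simp
      rw [h4]
      exact div_mem (hxE j) (hxE i)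
    refine ⟨ha, ?_⟩
    have h1 := h0 i
    rw [ha, hwi] at h1
    linear_combination h1
  have hrat := rat_line hX.hom hx.1 hw.1 hline hind
  have hgw : (Projectivization.mk ℂ w hw.1 : PN (r + 3)) ∈ Gen E F :=
    gen_of_algInd hX.hom hw.1 hw.2 hwi (le_clo _ (subset_adj _ _ ⟨j, rfl⟩))
      (le_clo _ (subset_adj _ _ ⟨l, rfl⟩)) hjl
  obtain ⟨D₁', D₂', hk1, hk2, hne'⟩ := exists_tau_ne hX ω hne E hKE hgw
  have hcE : clo K ≤ E := by
    rw [← hE]
    exact clo_mono hKE
  have hm := mumford hX.hom (fun s => (hX.coef s).mono (le_clo K)) ω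
    (fun a ha => hk1 a (hcE ha)) (fun a ha => hk2 a (hcE ha)) hrat
  rw [map_sub, tauC_single, tauC_single, one_smul, one_smul] at hm
  have hx0 : tau ω D₁' D₂' (Projectivization.mk ℂ x hx.1) = 0 := by
    refine tau_not_gen hX.hom (hcE.trans (le_clo E)) ω hk1 hk2 ((mem_surf_mk hX.hom hx.1).2 hx.2) ?_
    intro hg
    refine gen_not_over hg ?_
    rw [hE]
    exact ⟨x, hx.1, hxE, rfl⟩
  rw [hx0, zero_sub, neg_eq_zero] at hm
  exact hne' hm

end Pool.Agent.VRC
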