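import Pool.Agent.VRC.Cont
import Pool.Agent.VRC.GenSp
import Pool.Agent.VCI.Pres

/-! Surfaces in rationally connected varieties: a correspondence preserves rational equivalence
(after VCI/Pres). -/

set_option autoImplicit false

open MvPolynomial

namespace Pool.Agent.VRC

open Pool.Agent.VGS (Fl adj clo Coef IsPl Sp)
open Pool.Agent.Chow0 (IsLink IsChowForm)
open Pool.Agent.VCI

/-! ### cycles of sections -/

section sec

variable {m n r : ℕ} {d : Fin m → ℕ} {F : Fin m → MvPolynomial (Fin n) ℂ}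

theorem pr_mem_secC_mul (hF : ∀ i, (F i).IsHomogeneous (d i)) {a : ℂ} (ha : a ≠ 0)
    {w : Fin n → ℂ} {b : Fin r → Fin n → ℂ} {c : Fin r → ℂ} :
    (fun j => a * c j) ∈ SecC F (fun l => a * w l) b ↔ c ∈ SecC F w b := by
  simp only [SecC, Set.mem_ofPred_eq, pr_vec_mul]
  refine forall_congr' fun i => ?_
  rw [aeval_scale (hF i) (z := fun l => a * vec w b c l) (w := vec w b c) (a := a)
    (fun _ => rfl), mul_eq_zero, or_iff_right (pow_ne_zero _ ha)]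

theorem pr_secCy_mul [NeZero n] (hF : ∀ i, (F i).IsHomogeneous (d i)) {a : ℂ} (ha : a ≠ 0)
    (w : Fin n → ℂ) (b : Fin r → Fin n → ℂ) :
    secCy F (fun l => a * w l) b = secCy F w b := by
  unfold secCy
  symm
  refine finsum_mem_eq_of_bijOn (fun c j => a * c j) ⟨?_, ?_, ?_⟩ ?_
  · intro c hc
    exact (pr_mem_secC_mul hF ha).2 hc
  · intro c _ c' _ h
    funext j
    exact mul_left_cancel₀ ha (congrFun h j)
  · intro c hc
    have h1 : (fun j => a * (a⁻¹ * c j)) = c := by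
      funext j
      rw [mul_inv_cancel_left₀ ha]
    refine ⟨fun j => a⁻¹ * c j, ?_, h1⟩
    rw [← pr_mem_secC_mul hF ha, h1]
    exact hc
  · intro c _
    rw [pr_vec_mul, pr_mkP_mul ha]

theorem pr_secCy_rep [NeZero n] (hF : ∀ i, (F i).IsHomogeneous (d i)) {z : Fin n → ℂ} (hz : z ≠ 0)
    (b : Fin r → Fin n → ℂ) :
    secCy F (Projectivization.mk ℂ z hz : PN n).rep b = secCy F z b := by
  obtain ⟨a, ha⟩ := Projectivization.exists_smul_eq_mk_rep ℂ z hz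
  rw [← ha]
  exact pr_secCy_mul hF a.ne_zero z b

theorem pr_muV_mk [NeZero n] (hF : ∀ i, (F i).IsHomogeneous (d i)) {z : Fin n → ℂ} (hz : z ≠ 0)
    (b₀ : Fin n → ℂ) (b : Fin r → Fin n → ℂ) :
    muV F b₀ b (Projectivization.mk ℂ z hz) =
      secCy F b₀ b - (secCy F z b - Finsupp.single (Projectivization.mk ℂ z hz) 1) := by
  unfold muV
  rw [pr_secCy_rep hF hz]

theorem pr_mem_secC_act {L : Fl} (hFL : ∀ i, Coef L (F i)) {σ : ℂ ≃+* ℂ} (hσ : σ ∈ VGS.Fix L)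
    {b : Fin r → Fin n → ℂ} (hb : ∀ j l, σ (b j l) = b j l) {w : Fin n → ℂ} {c : Fin r → ℂ} :
    (fun j => σ (c j)) ∈ SecC F (fun l => σ (w l)) b ↔ c ∈ SecC F w b := by
  simp only [SecC, Set.mem_ofPred_eq, pr_vec_act hb]
  refine forall_congr' fun i => ?_
  rw [VGS.aeval_fix (hFL i) hσ, map_eq_zero_iff σ σ.injective]

theorem pr_secCy_act [NeZero n] {L : Fl} (hFL : ∀ i, Coef L (F i)) {σ : ℂ ≃+* ℂ}
    (hσ : σ ∈ VGS.Fix L) {b : Fin r → Fin n → ℂ} (hb : ∀ j l, σ (b j l) = b j l)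
    {w : Fin n → ℂ} (hfin : (SecC F w b).Finite) :
    actC σ (secCy F w b) = secCy F (fun l => σ (w l)) b := by
  unfold secCy
  have h1 := AddMonoidHom.map_finsum_mem
    (fun c => Finsupp.single (mkP (vec w b c)) (1 : ℚ)) (actC σ).toAddMonoidHom hfin
  refine Eq.trans h1 ?_
  refine finsum_mem_eq_of_bijOn (fun c j => σ (c j)) ⟨?_, ?_, ?_⟩ ?_
  · intro c hc
    exact (pr_mem_secC_act hFL hσ hb).2 hc
  · intro c _ c' _ h
    funext j
    exact σ.injective (congrFun h j)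
  · intro c hc
    have h2 : (fun j => σ (σ.symm (c j))) = c := by
      funext j
      rw [σ.apply_symm_apply]
    refine ⟨fun j => σ.symm (c j), ?_, h2⟩
    rw [← pr_mem_secC_act hFL hσ hb, h2]
    exact hc
  · intro c _
    change actC σ (Finsupp.single (mkP (vec w b c)) (1 : ℚ)) = _
    rw [actC_single, act_mkP, pr_vec_act hb]

theorem pr_secCy_support [NeZero n] {w : Fin n → ℂ} {b : Fin r → Fin n → ℂ}
    (hfin : (SecC F w b).Finite) {p : PN n} (hp : p ∈ (secCy F w b).support) :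
    ∃ c ∈ SecC F w b, p = mkP (vec w b c) := by
  classical
  by_contra hcon
  push Not at hcon
  apply Finsupp.mem_support_iff.1 hp
  unfold secCy
  rw [finsum_mem_eq_finite_toFinset_sum _ hfin, Finsupp.finsetSum_apply]
  refine Finset.sum_eq_zero fun c hc => ?_
  rw [Finsupp.single_apply, if_neg]
  exact fun h => hcon c (hfin.mem_toFinset.1 hc) h.symm

theorem pr_muV_support [NeZero n] (hF : ∀ i, (F i).IsHomogeneous (d i)) {b₀ : Fin n → ℂ}
    {b : Fin r → Fin n → ℂ} (hfin₀ : (SecC F b₀ b).Finite) {z : Fin n → ℂ}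
    (hfin : (SecC F z b).Finite) (hzF : ∀ i, aeval z (F i) = 0) (hz : z ≠ 0) {p : PN n}
    (hp : p ∈ (muV F b₀ b (Projectivization.mk ℂ z hz)).support) :
    (∃ c ∈ SecC F b₀ b, p = mkP (vec b₀ b c)) ∨
      ∃ c ∈ SecC F z b, c ≠ 0 ∧ p = mkP (vec z b c) := by
  classical
  by_contra hcon
  push Not at hcon
  obtain ⟨hcon1, hcon2⟩ := hcon
  apply Finsupp.mem_support_iff.1 hp
  have h1 : secCy F b₀ b p = 0 := by
    by_contra h
    obtain ⟨c, hc, h2⟩ := pr_secCy_support hfin₀ (Finsupp.mem_support_iff.2 h)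
    exact hcon1 c hc h2
  have h0 : (0 : Fin r → ℂ) ∈ hfin.toFinset := by
    rw [hfin.mem_toFinset]
    intro i
    rw [pr_vec_zero]
    exact hzF i
  have h2 : secCy F z b = Finsupp.single (Projectivization.mk ℂ z hz) 1 +
      ∑ c ∈ hfin.toFinset.erase 0, Finsupp.single (mkP (vec z b c)) (1 : ℚ) := by
    unfold secCy
    rw [finsum_mem_eq_finite_toFinset_sum _ hfin, ← Finset.add_sum_erase _ _ h0, pr_vec_zero,
      mkP_eq hz]
  rw [pr_muV_mk hF hz, h2, add_sub_cancel_left, Finsupp.sub_apply, h1, zero_sub, neg_eq_zero,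
    Finsupp.finsetSum_apply]
  refine Finset.sum_eq_zero fun c hc => ?_
  rw [Finset.mem_erase] at hc
  rw [Finsupp.single_apply, if_neg]
  exact fun h => hcon2 c (hfin.mem_toFinset.1 hc.2) hc.1 h.symm

theorem pr_secCy_mapDomain [NeZero n] {w w' : Fin n → ℂ} {b : Fin r → Fin n → ℂ}
    {e : (Fin r → ℂ) → (Fin r → ℂ)} (he : Set.BijOn e (SecC F w b) (SecC F w' b))
    (hfin : (SecC F w b).Finite) {f : PN n → PN n}
    (hf : ∀ c ∈ SecC F w b, f (mkP (vec w b c)) = mkP (vec w' b (e c))) :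
    (secCy F w b).mapDomain f = secCy F w' b := by
  unfold secCy
  have h1 := AddMonoidHom.map_finsum_mem
    (fun c => Finsupp.single (mkP (vec w b c)) (1 : ℚ)) (Finsupp.mapDomain.addMonoidHom f) hfin
  refine Eq.trans h1 ?_
  refine finsum_mem_eq_of_bijOn e he ?_
  intro c hc
  change Finsupp.mapDomain f (Finsupp.single (mkP (vec w b c)) (1 : ℚ)) = _
  rw [Finsupp.mapDomain_single, hf c hc]

end sec

/-! ### sections of the surface -/

section main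

variable {m r : ℕ} {F : Fin m → MvPolynomial (Fin (r + 3)) ℂ} {d : Fin m → ℕ} {K : Fl}

theorem pr_over {v : Fin (r + 3) → ℂ} (hX : Sfc0 F d K) {w : Fin (r + 3) → ℂ}
    {b : Fin r → Fin (r + 3) → ℂ} {c : Fin r → ℂ} (hv : v = vec w b c) (hv0 : v ≠ 0)
    (hvF : ∀ i, aeval v (F i) = 0) (hT : Tr F v b) (M : Fl) [Countable M] (hKM : K ≤ M)
    (hw : ∀ l, w l ∈ M) (hb : ∀ j l, b j l ∈ M) : Over (clo M) (mkP v) := by
  obtain ⟨I, -, h2, -⟩ := hX.exists_loc ⟨hv0, hvF⟩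
  have hJ : (jacM (fun j => F (I j)) v b).det ≠ 0 := by
    intro h0
    obtain ⟨γ, hγ, hγ0⟩ := Matrix.exists_mulVec_eq_zero_iff.2 h0
    refine hγ (hT γ (h2 _ fun j => ?_))
    have h3 := congrFun hγ0 j
    rw [Matrix.mulVec, dotProduct] at h3
    simp only [jacM, Matrix.of_apply, Pi.zero_apply] at h3
    rw [← h3, dFc]
    simp only [Finset.sum_mul]
    rw [Finset.sum_comm]
    exact Finset.sum_congr rfl fun l _ => Finset.sum_congr rfl fun k _ => by ring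
  have h1 := alg_of_jac (M := M) (fun j => (hX.coef (I j)).mono hKM) hw hb (c := c)
    (x := v) (fun l => by rw [hv]; rfl) (fun j => hvF (I j)) hJ
  refine pr_over_mkP hv0 ?_
  rw [hv]
  exact pr_vec_mem (fun l => VGS.le_clo _ (hw l)) (fun j l => VGS.le_clo _ (hb j l)) h1

theorem pr_vec_ne {E : Fl} {w : Fin (r + 3) → ℂ} (hw : ∀ l, w l ∈ E) (hw0 : w ≠ 0)
    {b : Fin r → Fin (r + 3) → ℂ}
    (hb : AlgebraicIndependent E fun jl : Fin r × Fin (r + 3) => b jl.1 jl.2) (c : Fin r → ℂ) :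
    vec w b c ≠ 0 := by
  intro h0
  have h1 := li_cons (by omega) hw hw0 hb
  rw [Fintype.linearIndependent_iff] at h1
  have h2 := h1 (Fin.cons 1 c) (by
    rw [Fin.sum_univ_succ]
    simp only [Fin.cons_zero, Fin.cons_succ, one_smul]
    rw [← h0]
    funext l
    rw [Pi.add_apply, Finset.sum_apply]
    rfl) 0
  rw [Fin.cons_zero] at h2
  exact one_ne_zero h2

theorem pr_sec0 (hX : Sfc F d K) (E : Fl) [Countable E] (hE : clo E = E) (hKE : K ≤ E)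
    {b₀ : Fin (r + 3) → ℂ} {b : Fin r → Fin (r + 3) → ℂ}
    (hb : AlgebraicIndependent E (Sum.elim b₀ fun jl : Fin r × Fin (r + 3) => b jl.1 jl.2)) :
    (SecC F b₀ b).Finite ∧ ∀ c ∈ SecC F b₀ b, vec b₀ b c ≠ 0 ∧
      mkP (vec b₀ b c) ∈ Gen K F ∧ ∀ (M : Fl) [Countable M], K ≤ M →
        (∀ l, b₀ l ∈ M) → (∀ j l, b j l ∈ M) → Over (clo M) (mkP (vec b₀ b c)) := by
  have ht : ∀ c ∈ SecC F b₀ b, Tr F (vec b₀ b c) b := fun c hc =>
    sec_tra0 hX E hE hKE hb hc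
  refine ⟨secC_finite ht, fun c hc => ?_⟩
  obtain ⟨hb1, hb2⟩ := VGS.ai_sum.1 hb
  have hb0 : b₀ ≠ 0 := fun h => hb1.ne_zero 0 (congrFun h 0)
  have hv := pr_vec_ne (E := adj E (Set.range b₀)) (fun l => VGS.subset_adj E _ ⟨l, rfl⟩) hb0 hb2 c
  refine ⟨hv, Gen_anti hKE F (sec_gen0 hX E hE hKE hb hc), ?_⟩
  intro M _ hKM hb₀ hbM
  exact pr_over hX.toSfc0 rfl hv hc (ht c hc) M hKM hb₀ hbM

theorem pr_sec1 (hX : Sfc F d K) (E : Fl) [Countable E] (hE : clo E = E) (hKE : K ≤ E)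
    {x : Fin (r + 3) → ℂ} (hx : ∀ l, x l ∈ E) (hxF : x ∈ cone F)
    {b : Fin r → Fin (r + 3) → ℂ}
    (hb : AlgebraicIndependent E fun jl : Fin r × Fin (r + 3) => b jl.1 jl.2) :
    (SecC F x b).Finite ∧ ∀ c ∈ SecC F x b, vec x b c ≠ 0 ∧
      (c ≠ 0 → mkP (vec x b c) ∈ Gen K F) ∧ ∀ (M : Fl) [Countable M], K ≤ M →
        (∀ l, x l ∈ M) → (∀ j l, b j l ∈ M) → Over (clo M) (mkP (vec x b c)) := by
  have ht : ∀ c ∈ SecC F x b, Tr F (vec x b c) b := fun c hc =>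
    sec_tra hX E hE hKE hx hxF hb hc
  refine ⟨secC_finite ht, fun c hc => ?_⟩
  have hv := pr_vec_ne hx hxF.1 hb c
  refine ⟨hv, fun hc0 => Gen_anti hKE F (sec_gen hX E hE hKE hx hb hc hc0), ?_⟩
  intro M _ hKM hxM hbM
  exact pr_over hX.toSfc0 rfl hv hc (ht c hc) M hKM hxM hbM

/-- the cycle `μ(S)` of a family is a family of generic points -/
theorem pr_mu_fam (hX : Sfc F d K) (E : Fl) [Countable E] (hKE : K ≤ E)
    {b₀ : Fin (r + 3) → ℂ} {b : Fin r → Fin (r + 3) → ℂ}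
    (hb : AlgebraicIndependent E (Sum.elim b₀ fun jl : Fin r × Fin (r + 3) => b jl.1 jl.2))
    {M : Fl} [Countable M] (hEM : E ≤ M) (hb₀M : ∀ l, b₀ l ∈ M) (hbM : ∀ j l, b j l ∈ M)
    (hM : adj E (Set.range (Sum.elim b₀ fun jl : Fin r × Fin (r + 3) => b jl.1 jl.2)) = M)
    {u : ℂ} (hu : u ∉ clo M) {S : Multiset (PN (r + 3))} (hS : IsFam E u S)
    (hSX : ∀ p ∈ S, p ∈ ciS F) :
    IsFamC M u (ext (muV F b₀ b) (cycQ S)) ∧
      ∀ p ∈ (ext (muV F b₀ b) (cycQ S)).support, p ∈ Gen K F := by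
  classical
  obtain ⟨E₁, hE₁d⟩ : ∃ E₁ : Fl, E₁ = clo (adj E {u}) := ⟨_, rfl⟩
  have hcE₀ : Countable (adj E {u}) := VGS.countable_adj _ _
  have hcE₁ : Countable E₁ := by rw [hE₁d]; infer_instance
  have hE₁ : clo E₁ = E₁ := by rw [hE₁d, VGS.clo_clo]
  have hEE₁ : E ≤ E₁ := by
    rw [hE₁d]
    exact (VGS.le_adj _ _).trans (VGS.le_clo _)
  have hKE₁ : K ≤ E₁ := hKE.trans hEE₁
  have hbE₁ : AlgebraicIndependent E₁
      (Sum.elim b₀ fun jl : Fin r × Fin (r + 3) => b jl.1 jl.2) := by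
    rw [hE₁d]
    exact pr_ai hb (by rw [hM]; exact hu)
  have hb1 : AlgebraicIndependent E₁ (fun jl : Fin r × Fin (r + 3) => b jl.1 jl.2) :=
    hbE₁.comp Sum.inr Sum.inr_injective
  have hcM₀ : Countable (adj M {u}) := VGS.countable_adj _ _
  obtain ⟨M₁, hM₁d⟩ : ∃ M₁ : Fl, M₁ = clo (adj M {u}) := ⟨_, rfl⟩
  have hcM₁ : Countable M₁ := by rw [hM₁d]; infer_instance
  have hM₁ : clo M₁ = M₁ := by rw [hM₁d, VGS.clo_clo]
  have hMM₁ : M ≤ M₁ := by
    rw [hM₁d]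
    exact (VGS.le_adj _ _).trans (VGS.le_clo _)
  have hE₁M₁ : E₁ ≤ M₁ := by
    rw [hE₁d, hM₁d]
    refine VGS.clo_mono (VGS.adj_le (hEM.trans (VGS.le_adj _ _)) ?_)
    exact VGS.subset_adj _ _
  have key : ∀ p ∈ S, ∃ (z : Fin (r + 3) → ℂ) (hz : z ≠ 0), p = Projectivization.mk ℂ z hz ∧
      (∀ l, z l ∈ E₁) ∧ ∀ i, aeval z (F i) = 0 := by
    intro p hp
    obtain ⟨z, hz, h1, h2⟩ := hS.isOver p hp
    refine ⟨z, hz, h2, fun l => by rw [hE₁d]; exact h1 l, ?_⟩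
    have h3 := hSX p hp
    rw [h2] at h3
    exact (mem_surf_mk hX.hom hz).1 h3
  obtain ⟨hf0, hs0⟩ := pr_sec0 hX E₁ hE₁ hKE₁ hbE₁
  -- the points
  have hpts : ∀ p ∈ (ext (muV F b₀ b) (cycQ S)).support,
      Over M₁ p ∧ p ∈ Gen K F := by
    intro p hp
    rw [pr_ext_cycQ] at hp
    obtain ⟨y, hy, hpy⟩ := pr_mem_support_msum hp
    obtain ⟨x, hx, rfl⟩ := Multiset.mem_map.1 hy
    obtain ⟨z, hz, rfl, hzE, hzF⟩ := key x hx
    obtain ⟨hf1, hs1⟩ := pr_sec1 hX E₁ hE₁ hKE₁ hzE ⟨hz, hzF⟩ hb1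
    rcases pr_muV_support hX.hom hf0 hf1 hzF hz hpy with ⟨c, hc, rfl⟩ | ⟨c, hc, hc0, rfl⟩
    · obtain ⟨-, h1, h2⟩ := hs0 c hc
      have h3 := h2 M₁ (hKE₁.trans hE₁M₁) (fun l => hMM₁ (hb₀M l)) (fun j l => hMM₁ (hbM j l))
      rw [hM₁] at h3
      exact ⟨h3, h1⟩
    · obtain ⟨-, h1, h2⟩ := hs1 c hc
      have h3 := h2 M₁ (hKE₁.trans hE₁M₁) (fun l => hE₁M₁ (hzE l)) (fun j l => hMM₁ (hbM j l))
      rw [hM₁] at h3
      exact ⟨h3, h1 hc0⟩
  refine ⟨⟨fun p hp => ?_, fun σ hσ => ?_⟩, fun p hp => (hpts p hp).2⟩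
  · rw [← hM₁d]
    exact (hpts p hp).1
  · have hσM : σ ∈ VGS.Fix M := VGS.Fix_mono (VGS.le_adj _ _) hσ
    have hσE : σ ∈ VGS.Fix (adj E {u}) :=
      VGS.Fix_mono (VGS.adj_le (hEM.trans (VGS.le_adj _ _)) (VGS.subset_adj _ _)) hσ
    have hσb : ∀ j l, σ (b j l) = b j l := fun j l => hσM _ (hbM j l)
    have hFM : ∀ i, Coef M (F i) := fun i => (hX.coef i).mono (hKE.trans hEM)
    have h1 : ∀ x ∈ S, actC σ (muV F b₀ b x) = muV F b₀ b (act σ x) := by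
      intro x hx
      obtain ⟨z, hz, rfl, hzE, hzF⟩ := key x hx
      obtain ⟨hf1, -⟩ := pr_sec1 hX E₁ hE₁ hKE₁ hzE ⟨hz, hzF⟩ hb1
      have hz' := map_ne_zero' σ hz
      have hb₀σ : (fun l => σ (b₀ l)) = b₀ := funext fun l => hσM _ (hb₀M l)
      rw [pr_muV_mk hX.hom hz, act_mk σ z hz hz', pr_muV_mk hX.hom hz', map_sub, map_sub,
        pr_secCy_act hFM hσM hσb hf0, pr_secCy_act hFM hσM hσb hf1, actC_single, act_mk σ z hz hz',
        hb₀σ]
    rw [pr_ext_cycQ, map_multiset_sum, Multiset.map_map]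
    conv_rhs => rw [← hS.stable σ hσE, Multiset.map_map]
    congr 1
    exact Multiset.map_congr rfl fun x hx => h1 x hx

/-- the limit of `μ(S)` is `μ` of the limit of `S` -/
theorem pr_mu_lim (hX : Sfc F d K) (E : Fl) [Countable E] (hE : clo E = E) (hKE : K ≤ E)
    {b₀ : Fin (r + 3) → ℂ} {b : Fin r → Fin (r + 3) → ℂ}
    (hb : AlgebraicIndependent E (Sum.elim b₀ fun jl : Fin r × Fin (r + 3) => b jl.1 jl.2))
    {M : Fl} [Countable M] (hEM : E ≤ M) (hb₀M : ∀ l, b₀ l ∈ M) (hbM : ∀ j l, b j l ∈ M)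
    (hM : adj E (Set.range (Sum.elim b₀ fun jl : Fin r × Fin (r + 3) => b jl.1 jl.2)) = M)
    {u t : ℂ} (hu : u ∉ clo M) {S : Multiset (PN (r + 3))} (hS : IsFam E u S)
    (hSX : ∀ p ∈ S, p ∈ ciS F) {V : ValuationSubring ℂ} (hV : IsPl V (clo M))
    (hut : Sp V (clo M) u t) {f₀ : PN (r + 3) → PN (r + 3)} (hf₀ : ∀ p ∈ S, SpP V E p (f₀ p)) :
    ∃ f : PN (r + 3) → PN (r + 3), (∀ p ∈ (ext (muV F b₀ b) (cycQ S)).support,
      SpP V (clo M) p (f p) ∧ f p ∈ Gen K F) ∧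
      (ext (muV F b₀ b) (cycQ S)).mapDomain f = ext (muV F b₀ b) (cycQ (S.map f₀)) := by
  classical
  obtain ⟨C, hCd⟩ : ∃ C : Fl, C = clo M := ⟨_, rfl⟩
  rw [← hCd] at hu hV hut ⊢
  have hcC : Countable C := by rw [hCd]; infer_instance
  have hC : clo C = C := by rw [hCd, VGS.clo_clo]
  have hMC : M ≤ C := by rw [hCd]; exact VGS.le_clo _
  have hEC : E ≤ C := hEM.trans hMC
  have huM : u ∉ clo M := by rwa [hCd] at hu
  have huE : u ∉ E := fun h => hu (hEC h)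
  obtain ⟨E₁, hE₁d⟩ : ∃ E₁ : Fl, E₁ = clo (adj E {u}) := ⟨_, rfl⟩
  have hcE₀ : Countable (adj E {u}) := VGS.countable_adj _ _
  have hcE₁ : Countable E₁ := by rw [hE₁d]; infer_instance
  have hE₁ : clo E₁ = E₁ := by rw [hE₁d, VGS.clo_clo]
  have hEE₁ : E ≤ E₁ := by
    rw [hE₁d]
    exact (VGS.le_adj _ _).trans (VGS.le_clo _)
  have hKE₁ : K ≤ E₁ := hKE.trans hEE₁
  have hbE₁ : AlgebraicIndependent E₁
      (Sum.elim b₀ fun jl : Fin r × Fin (r + 3) => b jl.1 jl.2) := by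
    rw [hE₁d]
    exact pr_ai hb (by rw [hM]; exact huM)
  have hb1 : AlgebraicIndependent E₁ (fun jl : Fin r × Fin (r + 3) => b jl.1 jl.2) :=
    hbE₁.comp Sum.inr Sum.inr_injective
  have hbE : AlgebraicIndependent E (fun jl : Fin r × Fin (r + 3) => b jl.1 jl.2) :=
    hb.comp Sum.inr Sum.inr_injective
  have hb1' : AlgebraicIndependent (clo (adj E {u}))
      (fun jl : Fin r × Fin (r + 3) => b jl.1 jl.2) := by rwa [hE₁d] at hb1
  have hbC : ∀ j l, b j l ∈ C := fun j l => hMC (hbM j l)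
  obtain ⟨f, hf⟩ := pr_exists_limfun (n := r + 3) hV
  obtain ⟨hf0, hs0⟩ := pr_sec0 hX E₁ hE₁ hKE₁ hbE₁
  -- the fixed points
  have hfix : ∀ c ∈ SecC F b₀ b, SpP V C (mkP (vec b₀ b c)) (mkP (vec b₀ b c)) := by
    intro c hc
    obtain ⟨-, -, h2⟩ := hs0 c hc
    have h3 := h2 M (hKE.trans hEM) hb₀M hbM
    rw [← hCd] at h3
    exact SpP.refl hV h3
  -- the moving points
  have hpt : ∀ x ∈ S, (∀ p ∈ (muV F b₀ b x).support, SpP V C p (f p) ∧
      f p ∈ Gen K F) ∧ (muV F b₀ b x).mapDomain f = muV F b₀ b (f₀ x) := by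
    intro x hx
    have hFE : ∀ i, Coef E (F i) := fun i => (hX.coef i).mono hKE
    have hVE : IsPl V E := fun y hy => hV y (hEC hy)
    obtain ⟨z, w, hz, hw, i, hzi, hwi, hxz, hxw, hzw⟩ := pr_spP_nrm hVE (hf₀ x hx)
    have hzE : ∀ l, z l ∈ E₁ := by
      have h1 := hS.isOver x hx
      rw [hxz, over_mk hz hzi] at h1
      rw [hE₁d]
      exact h1
    have hzE' : ∀ l, z l ∈ clo (adj E {u}) := by rwa [hE₁d] at hzE
    have hzF : ∀ i, aeval z (F i) = 0 := by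
      have h3 := hSX x hx
      rw [hxz] at h3
      exact (mem_surf_mk hX.hom hz).1 h3
    have hwE : ∀ l, w l ∈ E := fun l => (hzw l).1
    have hwF : ∀ i, aeval w (F i) = 0 := by
      intro i
      have h1 := VGS.Sp.aeval hVE (hFE i) hzw
      rw [hzF i] at h1
      exact (VGS.Sp.unique hVE (VGS.Sp.const hVE (zero_mem E)) h1).symm
    have hzwC : ∀ l, Sp V C (z l) (w l) := fun l => ⟨hEC (hzw l).1, (hzw l).2⟩
    obtain ⟨e, he, he0, hec⟩ := sec_cont hX E hE hKE huE hb1' hC hEC hbC hu hV hut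
      hzE' hzF hwE hw hzwC
    obtain ⟨hf1, hs1⟩ := pr_sec1 hX E₁ hE₁ hKE₁ hzE ⟨hz, hzF⟩ hb1
    obtain ⟨hf2, hs2⟩ := pr_sec1 hX E hE hKE hwE ⟨hw, hwF⟩ hbE
    have hsp : ∀ c ∈ SecC F z b, SpP V C (mkP (vec z b c)) (mkP (vec w b (e c))) := by
      intro c hc
      have h1 := (hs1 c hc).1
      have h2 := (hs2 (e c) (he.mapsTo hc)).1
      exact ⟨_, _, h1, h2, mkP_eq h1, mkP_eq h2, pr_vec_sp hV hzwC hbC (hec c hc)⟩
    have h0 : (0 : Fin r → ℂ) ∈ SecC F z b := by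
      intro i
      rw [pr_vec_zero]
      exact hzF i
    refine ⟨fun p hp => ?_, ?_⟩
    · rw [hxz] at hp
      rcases pr_muV_support hX.hom hf0 hf1 hzF hz hp with ⟨c, hc, rfl⟩ | ⟨c, hc, hc0, rfl⟩
      · rw [hf _ _ (hfix c hc)]
        exact ⟨hfix c hc, (hs0 c hc).2.1⟩
      · rw [hf _ _ (hsp c hc)]
        refine ⟨hsp c hc, (hs2 (e c) (he.mapsTo hc)).2.1 fun h => hc0 ?_⟩
        exact he.injOn hc h0 (h.trans he0.symm)
    · have h1 : (secCy F b₀ b).mapDomain f = secCy F b₀ b :=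
        pr_secCy_mapDomain (Set.bijOn_id _) hf0 fun c hc => hf _ _ (hfix c hc)
      have h2 : (secCy F z b).mapDomain f = secCy F w b :=
        pr_secCy_mapDomain he hf1 fun c hc => hf _ _ (hsp c hc)
      have h3 : f (Projectivization.mk ℂ z hz) = Projectivization.mk ℂ w hw :=
        hf _ _ ⟨z, w, hz, hw, rfl, rfl, hzwC⟩
      have h4 : ∀ y y' : Cy (r + 3), (y - y').mapDomain f = y.mapDomain f - y'.mapDomain f :=
        fun y y' => map_sub (Finsupp.mapDomain.addMonoidHom f) y y'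
      rw [hxw, hxz, pr_muV_mk hX.hom hz, pr_muV_mk hX.hom hw, h4, h4, h1, h2, Finsupp.mapDomain_single, h3]
  refine ⟨f, fun p hp => ?_, ?_⟩
  · rw [pr_ext_cycQ] at hp
    obtain ⟨y, hy, hpy⟩ := pr_mem_support_msum hp
    obtain ⟨x, hx, rfl⟩ := Multiset.mem_map.1 hy
    exact (hpt x hx).1 p hpy
  · rw [pr_ext_cycQ, pr_ext_cycQ]
    have h1 := map_multiset_sum (Finsupp.mapDomain.addMonoidHom (M := ℚ) f)
      (S.map (muV F b₀ b))
    refine Eq.trans h1 ?_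
    rw [Multiset.map_map, Multiset.map_map]
    congr 1
    exact Multiset.map_congr rfl fun x hx => (hpt x hx).2

/-- `T(q)` and `T(μ(q))` are rationally equivalent for a generic point `q` -/
theorem pr_pt (hX : Sfc F d K) {K' : Fl} (h1 : K ≤ K') (h2 : K' ≤ clo K)
    {T : PN (r + 3) → Cy (r + 3)} (hTX : ∀ p ∈ Gen K F, ∀ q ∈ (T p).support, q ∈ ciS F)
    (hT : ∀ σ ∈ VGS.Fix K', ∀ p ∈ Gen K F, T (act σ p) = actC σ (T p))
    (E : Fl) [Countable E] (hE : clo E = E) (hKE : K' ≤ E)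
    {b₀ : Fin (r + 3) → ℂ} {b : Fin r → Fin (r + 3) → ℂ}
    (hb : AlgebraicIndependent E (Sum.elim b₀ fun jl : Fin r × Fin (r + 3) => b jl.1 jl.2))
    {q : PN (r + 3)} (hq : q ∈ Gen K F) (hqE : Over E q) :
    T q - ext T (muV F b₀ b q) ∈ ratQ F := by
  classical
  obtain ⟨x, hx0, hx, hqx⟩ := hqE
  have hKE' : K ≤ E := h1.trans hKE
  have hxF : ∀ i, aeval x (F i) = 0 := by
    have h3 := hq.1
    rw [hqx] at h3
    exact (mem_surf_mk hX.hom hx0).1 h3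
  obtain ⟨M, hM⟩ : ∃ M : Fl, M = adj (adj E (Set.range b₀))
      (Set.range fun jl : Fin r × Fin (r + 3) => b jl.1 jl.2) := ⟨_, rfl⟩
  have hcM : Countable M := by
    rw [hM]
    infer_instance
  obtain ⟨u, S, V₀, V₁, f, g, hu, hS, hSG, hV₀, hV₁, hu₀, hu₁, hf, hg, hSf, hSg⟩ :=
    pen_fam hX E hE hKE' hx ⟨hx0, hxF⟩ hb M hM
  obtain ⟨hf0, hs0⟩ := pr_sec0 hX E hE hKE' hb
  have hbE : AlgebraicIndependent E (fun jl : Fin r × Fin (r + 3) => b jl.1 jl.2) :=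
    hb.comp Sum.inr Sum.inr_injective
  obtain ⟨hf1, hs1⟩ := pr_sec1 hX E hE hKE' hx ⟨hx0, hxF⟩ hbE
  have hmem : ∀ p, p ∈ (cycQ S).support ↔ p ∈ S := by
    intro p
    rw [Finsupp.mem_support_iff, cycQ_apply, Ne, Nat.cast_eq_zero, Multiset.count_eq_zero,
      not_not]
  have hmem' : ∀ (h : PN (r + 3) → PN (r + 3)) (p), p ∈ S → h p ∈ (cycQ (S.map h)).support := by
    intro h p hp
    rw [Finsupp.mem_support_iff, cycQ_apply, Ne, Nat.cast_eq_zero, Multiset.count_eq_zero,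
      not_not]
    exact Multiset.mem_map_of_mem _ hp
  have hfam : IsFamC M u (cycQ S) :=
    ⟨fun p hp => hS.isOver p ((hmem p).1 hp), fun σ hσ => by rw [actC_cycQ, hS.stable σ hσ]⟩
  have hEM : E ≤ M := by
    rw [hM]
    exact (VGS.le_adj _ _).trans (VGS.le_adj _ _)
  have hfG : ∀ p ∈ S, f p ∈ Gen K F := by
    intro p hp
    have h3 := hmem' f p hp
    rw [hSf] at h3
    obtain ⟨c, hc, h4⟩ := pr_secCy_support hf1 h3
    by_cases hc0 : c = 0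
    · rw [h4, hc0, pr_vec_zero, mkP_eq hx0, ← hqx]
      exact hq
    · rw [h4]
      exact (hs1 c hc).2.1 hc0
  have hgG : ∀ p ∈ S, g p ∈ Gen K F := by
    intro p hp
    have h3 := hmem' g p hp
    rw [hSg] at h3
    obtain ⟨c, hc, h4⟩ := pr_secCy_support hf0 h3
    rw [h4]
    exact (hs0 c hc).2.1
  have h3 := fam_T hX.toSfc0 h1 h2 (hKE.trans hEM) hTX hT hu hfam
    (fun p hp => Gen_anti hKE' F (hSG p ((hmem p).1 hp))) hV₀ hV₁ hu₀ hu₁
    (fun p hp => ⟨hf p ((hmem p).1 hp), hfG p ((hmem p).1 hp)⟩)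
    (fun p hp => ⟨hg p ((hmem p).1 hp), hgG p ((hmem p).1 hp)⟩)
  rw [← cycQ_map, ← cycQ_map, hSf, hSg] at h3
  have h4 : T q - ext T (muV F b₀ b q) =
      ext T (secCy F x b) - ext T (secCy F b₀ b) := by
    rw [hqx, pr_muV_mk hX.hom hx0, map_sub, map_sub, ext_single, one_smul]
    abel
  rw [h4]
  exact h3

/-- one link -/
theorem pr_link (hX : Sfc F d K) {K' : Fl} (h1 : K ≤ K') (h2 : K' ≤ clo K)
    {T : PN (r + 3) → Cy (r + 3)} (hTX : ∀ p ∈ Gen K F, ∀ q ∈ (T p).support, q ∈ ciS F)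
    (hT : ∀ σ ∈ VGS.Fix K', ∀ p ∈ Gen K F, T (act σ p) = actC σ (T p))
    {s₀ s₁ : Multiset (ciS F)} (hs : IsLink (ciS F) s₀ s₁) :
    ∃ L : Fl, Countable L ∧ ∀ (E : Fl) [Countable E], clo E = E → K' ≤ E → L ≤ E →
      ∀ (b₀ : Fin (r + 3) → ℂ) (b : Fin r → Fin (r + 3) → ℂ),
      AlgebraicIndependent E (Sum.elim b₀ fun jl : Fin r × Fin (r + 3) => b jl.1 jl.2) →
      ext T (ext (muV F b₀ b) (cycQ (s₀.map Subtype.val) - cycQ (s₁.map Subtype.val))) ∈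
        ratQ F := by
  classical
  obtain ⟨Φ, hΦ, hΦ0, hΦ1⟩ := hs
  obtain ⟨L, hL⟩ : ∃ L : Fl, L = adj K (Set.range fun im : ℕ × (Fin (r + 3) →₀ ℕ) =>
      coeff im.2 (Φ.coeff im.1)) := ⟨_, rfl⟩
  refine ⟨L, ?_, ?_⟩
  · rw [hL]
    have hcK : Countable K := hX.cK
    have : Countable (Set.range fun im : ℕ × (Fin (r + 3) →₀ ℕ) =>
      coeff im.2 (Φ.coeff im.1)) := (Set.countable_range _).to_subtype
    infer_instance
  intro E _ hE hKE hLE b₀ b hb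
  have hKE' : K ≤ E := h1.trans hKE
  have hΦE : ∀ i, Coef E (Φ.coeff i) := by
    intro i m
    apply hLE
    rw [hL]
    exact VGS.subset_adj _ _ ⟨(i, m), rfl⟩
  obtain ⟨M, hM⟩ : ∃ M : Fl, M = adj (adj E (Set.range b₀))
      (Set.range fun jl : Fin r × Fin (r + 3) => b jl.1 jl.2) := ⟨_, rfl⟩
  have hM' : adj E (Set.range (Sum.elim b₀ fun jl : Fin r × Fin (r + 3) => b jl.1 jl.2)) = M := by
    rw [hM, VGS.adj_adj, Set.Sum.elim_range]
  have hcM : Countable M := by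
    rw [hM]
    infer_instance
  have hEM : E ≤ M := by
    rw [hM]
    exact (VGS.le_adj _ _).trans (VGS.le_adj _ _)
  have hb₀M : ∀ l, b₀ l ∈ M := by
    intro l
    rw [hM]
    exact VGS.le_adj _ _ (VGS.subset_adj _ _ ⟨l, rfl⟩)
  have hbM : ∀ j l, b j l ∈ M := by
    intro j l
    rw [hM]
    exact VGS.subset_adj _ _ ⟨(j, l), rfl⟩
  -- the parameter
  obtain ⟨B, hB⟩ : ∃ B : Set ℂ, B = {t : ℂ | ¬ ∃ s : Multiset (ciS F),
      IsChowForm (ciS F) (Φ.eval (MvPolynomial.C t)) s} := ⟨_, rfl⟩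
  have hBf : B.Finite := by
    rw [hB]
    exact Filter.eventually_cofinite.1 hΦ
  have hcB : Countable B := hBf.countable.to_subtype
  obtain ⟨u, hu'⟩ := VGS.exists_notMem (clo (adj M B))
  have hu : u ∉ clo M := fun h => hu' (VGS.clo_mono (VGS.le_adj _ _) h)
  have huB : u ∉ B := fun h => hu' (VGS.le_clo _ (VGS.subset_adj _ _ h))
  obtain ⟨s, hsu⟩ : ∃ s : Multiset (ciS F),
      IsChowForm (ciS F) (Φ.eval (MvPolynomial.C u)) s := by
    by_contra h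
    apply huB
    rw [hB]
    exact h
  obtain ⟨S, hS⟩ : ∃ S : Multiset (PN (r + 3)), S = s.map Subtype.val := ⟨_, rfl⟩
  have hSu : IsCh (Φ.eval (MvPolynomial.C u)) S := by
    rw [hS]
    exact hsu
  have hSfam : IsFam E u S := pr_chow_fam hΦE hSu
  have hSX : ∀ p ∈ S, p ∈ ciS F := by
    intro p hp
    rw [hS] at hp
    obtain ⟨p', -, rfl⟩ := Multiset.mem_map.1 hp
    exact p'.2
  obtain ⟨hZ, hZG⟩ := pr_mu_fam hX E hKE' hb hEM hb₀M hbM hM' hu hSfam hSX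
  -- one end
  have hend : ∀ t : ℂ, t ∈ E → ∀ s' : Multiset (ciS F),
      IsChowForm (ciS F) (Φ.eval (MvPolynomial.C t)) s' →
      ∃ (V : ValuationSubring ℂ) (f : PN (r + 3) → PN (r + 3)), IsPl V (clo M) ∧
        Sp V (clo M) u t ∧ (∀ p ∈ (ext (muV F b₀ b) (cycQ S)).support,
          SpP V (clo M) p (f p) ∧ f p ∈ Gen K F) ∧
        (ext (muV F b₀ b) (cycQ S)).mapDomain f =
          ext (muV F b₀ b) (cycQ (s'.map Subtype.val)) := by
    intro t ht s' hs'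
    obtain ⟨V, hV, hut⟩ := VGS.exists_place (VGS.clo_clo M) hu (VGS.le_clo _ (hEM ht))
    have hVE : IsPl V E := fun y hy => hV y (VGS.le_clo _ (hEM hy))
    have hutE : Sp V E u t := ⟨ht, hut.2⟩
    have huE : u ∉ E := fun h => hu (VGS.le_clo _ (hEM h))
    have hex : ∀ p, ∃ q, p ∈ S → SpP V E p q := fun p => by
      by_cases hp : p ∈ S
      · obtain ⟨q, hq⟩ := exists_spP hE hVE huE hutE (hSfam.isOver p hp)
        exact ⟨q, fun _ => hq⟩
      · exact ⟨p, fun h => absurd h hp⟩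
    choose f₀ hf₀ using hex
    have hSf₀ : S.map f₀ = s'.map Subtype.val :=
      pr_chow_lim hVE hΦE hutE hSu hs' fun p hp => hf₀ p hp
    obtain ⟨f, hf, hf'⟩ := pr_mu_lim hX E hE hKE' hb hEM hb₀M hbM hM' hu hSfam hSX
      hV hut (f₀ := f₀) fun p hp => hf₀ p hp
    rw [hSf₀] at hf'
    exact ⟨V, f, hV, hut, hf, hf'⟩
  obtain ⟨V₀, f, hV₀, hu₀, hf, hf'⟩ := hend 0 (zero_mem E) s₀ hΦ0
  obtain ⟨V₁, g, hV₁, hu₁, hg, hg'⟩ := hend 1 (one_mem E) s₁ hΦ1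
  have h3 := fam_T hX.toSfc0 h1 h2 (hKE.trans hEM) hTX hT hu hZ hZG hV₀ hV₁ hu₀ hu₁ hf hg
  rw [hf', hg'] at h3
  rw [map_sub, map_sub]
  exact h3

theorem pr_rat (hX : Sfc F d K) {K' : Fl} (h1 : K ≤ K') (h2 : K' ≤ clo K)
    {T : PN (r + 3) → Cy (r + 3)} (hTX : ∀ p ∈ Gen K F, ∀ q ∈ (T p).support, q ∈ ciS F)
    (hT : ∀ σ ∈ VGS.Fix K', ∀ p ∈ Gen K F, T (act σ p) = actC σ (T p))
    {z : Cy (r + 3)} (hz : z ∈ ratQ F) :
    ∃ L : Fl, Countable L ∧ ∀ (E : Fl) [Countable E], clo E = E → K' ≤ E → L ≤ E →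
      ∀ (b₀ : Fin (r + 3) → ℂ) (b : Fin r → Fin (r + 3) → ℂ),
      AlgebraicIndependent E (Sum.elim b₀ fun jl : Fin r × Fin (r + 3) => b jl.1 jl.2) →
      ext T (ext (muV F b₀ b) z) ∈ ratQ F := by
  unfold ratQ at hz
  induction hz using Submodule.span_induction with
  | mem z hz =>
    obtain ⟨s₀, s₁, h, rfl⟩ := hz
    exact pr_link hX h1 h2 hTX hT h
  | zero =>
    refine ⟨K, hX.cK, ?_⟩
    intro E _ _ _ _ b₀ b _
    rw [map_zero, map_zero]
    exact Submodule.zero_mem _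
  | add x y _ _ hx hy =>
    obtain ⟨L₁, hL₁, h3⟩ := hx
    obtain ⟨L₂, hL₂, h4⟩ := hy
    refine ⟨adj L₁ L₂, ?_, ?_⟩
    · have : Countable (L₂ : Set ℂ) := hL₂
      exact VGS.countable_adj _ _
    · intro E _ hE hKE hLE b₀ b hb
      rw [map_add, map_add]
      exact Submodule.add_mem _ (h3 E hE hKE ((VGS.le_adj _ _).trans hLE) b₀ b hb)
        (h4 E hE hKE (fun y hy => hLE (VGS.subset_adj _ _ hy)) b₀ b hb)
  | smul a x _ hx =>
    obtain ⟨L, hL, h3⟩ := hx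
    refine ⟨L, hL, ?_⟩
    intro E _ hE hKE hLE b₀ b hb
    rw [map_smul, map_smul]
    exact Submodule.smul_mem _ _ (h3 E hE hKE hLE b₀ b hb)

theorem pres (hX : Sfc F d K) {K' : Fl} (h1 : K ≤ K') (h2 : K' ≤ clo K)
    {T : PN (r + 3) → Cy (r + 3)} (hTX : ∀ p ∈ Gen K F, ∀ q ∈ (T p).support, q ∈ ciS F)
    (hT : ∀ σ ∈ VGS.Fix K', ∀ p ∈ Gen K F, T (act σ p) = actC σ (T p))
    {z : Cy (r + 3)} (hz : z ∈ ratQ F) (hzG : ∀ p ∈ z.support, p ∈ Gen K F) :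
    ext T z ∈ ratQ F := by
  classical
  obtain ⟨L, hcL, hL⟩ := pr_rat hX h1 h2 hTX hT hz
  have hcF : Countable K := hX.cK
  have hcK : Countable K' := by
    have : Countable (clo K) := inferInstance
    exact Function.Injective.countable (f := fun x : K' => (⟨x.1, h2 x.2⟩ : clo K))
      fun x y h => Subtype.ext (congrArg (fun t : clo K => (t : ℂ)) h)
  -- the field
  obtain ⟨R, hR⟩ : ∃ R : Set ℂ, R = ⋃ p ∈ z.support, Set.range p.rep := ⟨_, rfl⟩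
  have hRc : Countable R := by
    rw [hR]
    exact (Set.Countable.biUnion (Finset.countable_toSet _) fun p _ =>
      Set.countable_range _).to_subtype
  obtain ⟨E, hEd⟩ : ∃ E : Fl, E = clo (adj (adj K' L) R) := ⟨_, rfl⟩
  have hcE : Countable E := by
    rw [hEd]
    have : Countable (L : Set ℂ) := hcL
    infer_instance
  have hE : clo E = E := by rw [hEd, VGS.clo_clo]
  have hKE : K' ≤ E := by
    rw [hEd]
    exact ((VGS.le_adj _ _).trans (VGS.le_adj _ _)).trans (VGS.le_clo _)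
  have hLE : L ≤ E := by
    rw [hEd]
    intro y hy
    exact VGS.le_clo _ (VGS.le_adj _ _ (VGS.subset_adj _ _ hy))
  have hzE : ∀ p ∈ z.support, Over E p := by
    intro p hp
    refine ⟨p.rep, p.rep_nonzero, fun i => ?_, p.mk_rep.symm⟩
    rw [hEd]
    refine VGS.le_clo _ (VGS.subset_adj _ _ ?_)
    rw [hR]
    exact Set.mem_biUnion hp ⟨i, rfl⟩
  obtain ⟨y, hy⟩ := exists_fam E (Fin (r + 3) ⊕ (Fin r × Fin (r + 3)))
  obtain ⟨b₀, hb₀⟩ : ∃ b₀ : Fin (r + 3) → ℂ, b₀ = fun l => y (Sum.inl l) := ⟨_, rfl⟩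
  obtain ⟨b, hb'⟩ : ∃ b : Fin r → Fin (r + 3) → ℂ, b = fun j l => y (Sum.inr (j, l)) :=
    ⟨_, rfl⟩
  have hb : AlgebraicIndependent E
      (Sum.elim b₀ fun jl : Fin r × Fin (r + 3) => b jl.1 jl.2) := by
    have h3 : (Sum.elim b₀ fun jl : Fin r × Fin (r + 3) => b jl.1 jl.2) = y := by
      rw [hb₀, hb']
      ext (i | i) <;> rfl
    rw [h3]
    exact hy
  have h3 := hL E hE hKE hLE b₀ b hb
  have h4 : ext T z - ext T (ext (muV F b₀ b) z) ∈ ratQ F := by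
    have h5 : ext T z - ext T (ext (muV F b₀ b) z) =
        z.sum fun p a => a • (T p - ext T (muV F b₀ b p)) := by
      have h6 : ext T z = z.sum fun p a => a • T p := rfl
      have h7 : ext (muV F b₀ b) z = z.sum fun p a => a • muV F b₀ b p := rfl
      rw [h7, h6, Finsupp.sum, Finsupp.sum, Finsupp.sum, map_sum, ← Finset.sum_sub_distrib]
      refine Finset.sum_congr rfl fun p _ => ?_
      rw [map_smul, smul_sub]
    rw [h5]
    refine Submodule.sum_mem _ fun p hp => Submodule.smul_mem _ _ ?_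
    exact pr_pt hX h1 h2 hTX hT E hE hKE hb (hzG p hp) (hzE p hp)
  have h5 := Submodule.add_mem _ h4 h3
  rwa [sub_add_cancel] at h5

end main

end Pool.Agent.VRC
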