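import Pool.Agent.VRC.Tau
import Pool.Agent.VCI.InstA

/-! The numbers by which correspondences act on two-forms are rational. -/

set_option autoImplicit false

open scoped LinearAlgebra.Projectivization
open MvPolynomial

namespace Pool.Agent.VRC

open Pool.Agent.VGS (Fl adj clo Coef Kills)
open Pool.Agent.VCI (PN Cy ciS Gen act actC)

variable {m r : ℕ} {F : Fin m → MvPolynomial (Fin (r + 3)) ℂ} {d : Fin m → ℕ} {K : Fl}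

/-- The two-forms of the surface `F = 0`. -/
noncomputable def forms (hX : Sfc0 F d K)
    (hs1 : ∀ (α : PN (r + 3) → Cy (r + 3)) (s : ℂ),
      (∀ p ∈ Gen K F, ∀ q ∈ (α p).support, q ∈ Gen K F) →
      (∀ σ ∈ VGS.Fix K, ∀ p ∈ Gen K F, α (act σ p) = actC σ (α p)) →
      (∀ y ∈ Gen K F, ∀ D₁ D₂ : Derivation ℤ ℂ ℂ, Kills K D₁ → Kills K D₂ →
        ∀ ω : HForm F (clo K), tauC ω D₁ D₂ (α y) = s * tau ω D₁ D₂ y) → ∃ q : ℚ, s = q) :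
    VGS.Forms where
  P := PN (r + 3)
  act := act
  act_one := VCI.act_one
  act_mul := VCI.act_mul
  X := ciS F
  G := Gen K F
  K := K
  cK := hX.cK
  G_X := fun _ hp => hp.1
  act_G := fun σ hσ p hp => VCI.inst_act_gen hX.hom hX.coef hσ hp
  Ix := {t : Derivation ℤ ℂ ℂ × Derivation ℤ ℂ ℂ × HForm F (clo K) // Kills K t.1 ∧ Kills K t.2.1}
  tC := fun t => tauC t.1.2.2 t.1.1 t.1.2.1
  conj := by
    rintro σ hσ ⟨⟨D₁, D₂, ω⟩, h₁, h₂⟩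
    obtain ⟨ω', D₁', D₂', k₁, k₂, h⟩ := exists_cj ω hX.hom hX.coef le_rfl hσ h₁ h₂
    exact ⟨⟨⟨D₁', D₂', ω'⟩, k₁, k₂⟩, fun z _ => h z⟩
  ng := by
    rintro ⟨⟨D₁, D₂, ω⟩, h₁, h₂⟩ q hq hq'
    change tauC ω D₁ D₂ (Finsupp.single q 1) = 0
    rw [tauC_single, tau_of_not_gen ω le_rfl h₁ h₂ hq hq', smul_zero]
  s1s := by
    intro α s h1 h2 h3
    refine hs1 α s h1 h2 fun y hy D₁ D₂ h₁ h₂ ω => ?_
    have h4 := h3 y hy ⟨⟨D₁, D₂, ω⟩, h₁, h₂⟩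
    change tauC ω D₁ D₂ (α y) = s * tauC ω D₁ D₂ (Finsupp.single y 1) at h4
    rwa [tauC_single, one_smul] at h4

theorem scalars_rat (hX : Sfc0 F d K) (_hK : clo (⊥ : Fl) ≤ K)
    (hs1 : ∀ (α : PN (r + 3) → Cy (r + 3)) (s : ℂ),
      (∀ p ∈ Gen K F, ∀ q ∈ (α p).support, q ∈ Gen K F) →
      (∀ σ ∈ VGS.Fix K, ∀ p ∈ Gen K F, α (act σ p) = actC σ (α p)) →
      (∀ y ∈ Gen K F, ∀ D₁ D₂ : Derivation ℤ ℂ ℂ, Kills K D₁ → Kills K D₂ →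
        ∀ ω : HForm F (clo K), tauC ω D₁ D₂ (α y) = s * tau ω D₁ D₂ y) → ∃ q : ℚ, s = q)
    (T : Finset ℂ) (hT : ∀ x ∈ T, x ∈ clo K) {N : ℕ} (γ : Fin N → PN (r + 3) → Cy (r + 3))
    (hγ : ∀ i, ∀ p ∈ Gen K F, ∀ q ∈ (γ i p).support, q ∈ ciS F)
    (hγ' : ∀ i, ∀ σ ∈ VGS.Fix (adj K (T : Set ℂ)), ∀ p ∈ Gen K F,
      γ i (act σ p) = actC σ (γ i p)) (μ : Fin N → ℂ)
    (hμ : ∀ i, ∀ y ∈ Gen K F, ∀ D₁ D₂ : Derivation ℤ ℂ ℂ, Kills K D₁ → Kills K D₂ →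
      ∀ ω : HForm F (clo K), tauC ω D₁ D₂ (γ i y) = μ i * tau ω D₁ D₂ y) :
    ∃ q : Fin N → ℚ, ∀ i, μ i = q i := by
  choose q hq using fun i => (forms hX hs1).rat _hK T hT (hγ i) (hγ' i) (m := μ i) (by
    rintro p hp ⟨⟨D₁, D₂, ω⟩, h₁, h₂⟩
    change tauC ω D₁ D₂ (γ i p) = μ i * tauC ω D₁ D₂ (Finsupp.single p 1)
    rw [tauC_single, one_smul]
    exact hμ i p hp D₁ D₂ h₁ h₂ ω)
  exact ⟨q, hq⟩

end Pool.Agent.VRC
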