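import Pool.Agent.VRC.SDefs

/-! Surfaces in rationally connected varieties: the tangent space of the cone has dimension `3`,
from the local equations alone. -/

set_option autoImplicit false

open MvPolynomial

namespace Pool.Agent.VRC

open Pool.Agent.VGS (Fl adj clo Coef Kills IsPl Sp)
open Pool.Agent.VCI

theorem tan_dep_of {m r : ℕ} {F : Fin m → MvPolynomial (Fin (r + 3)) ℂ} {K : Fl}
    (hloc : ∀ z ∈ cone F, ∃ (I : Fin r → Fin m) (B : MvPolynomial (Fin (r + 3)) ℂ),
        Coef (clo K) B ∧ aeval z B ≠ 0 ∧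
        (∀ i, B * F i ∈ Ideal.span (Set.range fun j => F (I j))) ∧
        LinearIndependent ℂ fun j v => aeval z (pderiv v (F (I j)))) :
    ∀ z ∈ cone F, ∀ v : Fin 4 → Fin (r + 3) → ℂ, (∀ a i, dFc (F i) z (v a) = 0) →
      ¬ LinearIndependent ℂ v := by
  intro z hz v hv hiv
  obtain ⟨I, -, -, -, -, hli⟩ := hloc z hz
  set A : Matrix (Fin r) (Fin (r + 3)) ℂ := Matrix.of fun j l => aeval z (pderiv l (F (I j)))
    with hA
  have hrk : A.rank = r := by
    have h1 : LinearIndependent ℂ A.row := hli
    rw [h1.rank_matrix, Fintype.card_fin]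
  have h2 := LinearMap.finrank_range_add_finrank_ker A.mulVecLin
  rw [Module.finrank_fintype_fun_eq_card, Fintype.card_fin] at h2
  have h3 : Module.finrank ℂ (LinearMap.range A.mulVecLin) = r := hrk
  have h4 : Module.finrank ℂ (LinearMap.ker A.mulVecLin) = 3 := by omega
  have hmem : ∀ a, v a ∈ LinearMap.ker A.mulVecLin := by
    intro a
    rw [LinearMap.mem_ker, Matrix.mulVecLin_apply]
    funext j
    have h5 := hv a (I j)
    rw [Pi.zero_apply, ← h5, Matrix.mulVec, dotProduct, dFc]
    exact Finset.sum_congr rfl fun l _ => mul_comm _ _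
  have h5 : LinearIndependent ℂ (fun a => (⟨v a, hmem a⟩ : LinearMap.ker A.mulVecLin)) := by
    refine LinearIndependent.of_comp (LinearMap.ker A.mulVecLin).subtype ?_
    exact hiv
  have h6 := h5.fintype_card_le_finrank
  rw [h4, Fintype.card_fin] at h6
  omega

end Pool.Agent.VRC
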