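import Pool.Agent.VRC.S1
import Pool.Agent.VRC.Mono
import Pool.Agent.VRC.HolF
import Pool.Agent.VRC.LinRC
import Pool.Agent.VRC.NCone
import Pool.Agent.VRC.Pres
import Pool.Agent.VRC.TanDep
import Pool.Agent.VRC.Mu
import Pool.Agent.VRC.Mum
import Pool.Agent.VRC.Scal
import Pool.Agent.VRC.EffTau
import Pool.Agent.VRC.ExPt
import Pool.Agent.VRC.ConjIrr
import Pool.Agent.VRC.GenEx
import Pool.Agent.VRC.LocFin
import Pool.Agent.VCI.InstA
import Pool.Agent.VCI.Fin2B
import Pool.Agent.VGS2.Sys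

/-! The system of points of a surface in a rationally connected variety. -/

set_option autoImplicit false

open scoped LinearAlgebra.Projectivization
open MvPolynomial

namespace Pool.Agent.VRC

open Pool.Agent.VGS (Fl adj clo Coef Kills le_adj le_clo clo_mono clo_clo ai_sum ai_clo subset_adj
  adj_adj adj_le Sys)
open Pool.Agent.VCI

variable {r s c : ℕ} {M : Fin c → ℕ} {h : Fin s → MvPolynomial (Fin (r + 3)) ℂ}
  {g : (i : Fin c) → Fin (M i) → MvPolynomial (Fin (r + 3)) ℂ} {a : (i : Fin c) → Fin (M i) → ℂ}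
  {d : Fin (s + c) → ℕ} {k K : Fl}

/-- The hypotheses of the theorem at the level of the proof. -/
structure Hyp (h : Fin s → MvPolynomial (Fin (r + 3)) ℂ)
    (g : (i : Fin c) → Fin (M i) → MvPolynomial (Fin (r + 3)) ℂ) (a : (i : Fin c) → Fin (M i) → ℂ)
    (d : Fin (s + c) → ℕ) (k K : Fl) : Prop where
  irr : IsIrr h
  rc : IsRC h
  sep : ∀ i, Separates h (g i)
  homg : ∀ i l, (g i l).IsHomogeneous (d (Fin.natAdd s i))
  bpf : ∀ z ∈ cone (eqs h g a), ∀ i, ∃ l, aeval z (g i l) ≠ 0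
  ck : Countable k
  clok : clo k = k
  base_le : base h g ≤ k
  ai : AlgebraicIndependent k fun il : (i : Fin c) × Fin (M i) => a il.1 il.2
  hK : K = adj k (Set.range fun il : (i : Fin c) × Fin (M i) => a il.1 il.2)
  sfc : Sfc (eqs h g a) d K

/-- the independence of the letters over `k(t)` -/
theorem Hyp.ind_adj (H : Hyp h g a d k K) {n : ℕ} {t : Fin n → ℂ}
    (ht : AlgebraicIndependent K t) :
    AlgebraicIndependent (adj k (Set.range t))
      fun il : (i : Fin c) × Fin (M i) => a il.1 il.2 := by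
  rw [H.hK] at ht
  have h1 := ai_sum.2 ⟨H.ai, ht⟩
  have h2 : AlgebraicIndependent k (Sum.elim t
      (fun il : (i : Fin c) × Fin (M i) => a il.1 il.2)) := by
    refine (algebraicIndependent_equiv' (Equiv.sumComm (Fin n) _) (f := Sum.elim
      (fun il : (i : Fin c) × Fin (M i) => a il.1 il.2) t) ?_).2 h1
    ext (i | i) <;> rfl
  exact (ai_sum.1 h2).2

theorem Hyp.lin_adj (H : Hyp h g a d k K) {n : ℕ} {t : Fin n → ℂ}
    (ht : AlgebraicIndependent K t) :
    LinRC (adj k (Set.range t)) h g a (adj K (Set.range t)) d ∧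
      Sfc0 (eqs h g a) d (adj K (Set.range t)) := by
  have := H.ck
  have := H.sfc.cK
  have hc : Countable (Set.range t) := (Set.countable_range t).to_subtype
  have hc1 : Countable (adj k (Set.range t)) := inferInstance
  have hc2 : Countable (adj K (Set.range t)) := inferInstance
  have hX : Sfc0 (eqs h g a) d (adj K (Set.range t)) := H.sfc.toSfc0.mono hc2 (le_adj _ _)
  refine ⟨linRC_of H.irr H.rc H.sep H.homg H.bpf hc1 (H.base_le.trans (le_adj _ _))
    (H.ind_adj ht) ?_ hX, hX⟩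
  rw [H.hK, adj_adj, adj_adj, Set.union_comm]

theorem Hyp.lin (H : Hyp h g a d k K) : LinRC k h g a K d :=
  linRC_of H.irr H.rc H.sep H.homg H.bpf H.ck H.base_le H.ai H.hK H.sfc.toSfc0

/-- **Theorem S** for an invariant correspondence over `K(t)` with values in `TZ`. -/
theorem Hyp.s1t (H : Hyp h g a d k K) (ω : HForm (eqs h g a) (clo K))
    (hne : ∃ p ∈ Gen K (eqs h g a), ∃ D₁ D₂ : Derivation ℤ ℂ ℂ, Kills K D₁ ∧ Kills K D₂ ∧
      tau ω D₁ D₂ p ≠ 0) {n : ℕ} (t : Fin n → ℂ) (ht : AlgebraicIndependent K t)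
    (α : PN (r + 3) → Cy (r + 3))
    (hα : ∀ p ∈ Gen (adj K (Set.range t)) (eqs h g a),
      α p ∈ TZ (adj K (Set.range t)) (eqs h g a) (clo K))
    (hα' : ∀ σ ∈ VGS.Fix (adj K (Set.range t)), ∀ p ∈ Gen (adj K (Set.range t)) (eqs h g a),
      α (act σ p) = actC σ (α p)) :
    ∀ p ∈ Gen (adj K (Set.range t)) (eqs h g a), ∀ q ∈ Gen (adj K (Set.range t)) (eqs h g a),
      α p - α q ∈ ratQ (eqs h g a) := by
  intro p hp q hq
  obtain ⟨HL, hX⟩ := H.lin_adj ht
  obtain ⟨μ, hμ, h1⟩ := s1_scalar HL hX (le_adj K _) H.sfc.toSfc0 ω hne (α := α) (σ₀ := 0)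
    (fun p hp => (hα p hp).1) hα' (fun y hy D₁ D₂ h₁ h₂ => by
      rw [(hα y hy).2 ω D₁ D₂ h₁ h₂, zero_mul])
  have hμ0 : μ = 0 := by exact_mod_cast hμ.symm
  have h2 := h1 p hp q hq
  rwa [hμ0, zero_smul, sub_zero] at h2

/-- The system of the surface. -/
noncomputable def sysRC (H : Hyp h g a d k K) (ω : HForm (eqs h g a) (clo K))
    (hne : ∃ p ∈ Gen K (eqs h g a), ∃ D₁ D₂ : Derivation ℤ ℂ ℂ, Kills K D₁ ∧ Kills K D₂ ∧
      tau ω D₁ D₂ p ≠ 0) : Sys where
  P := PN (r + 3)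
  act := act
  act_one := act_one
  act_mul := act_mul
  X := ciS (eqs h g a)
  K := K
  cK := H.sfc.cK
  Gen := fun L => Gen L (eqs h g a)
  rat := ratQ (eqs h g a)
  TZ := fun L => TZ L (eqs h g a) (clo K)
  act_X := fun σ hσ p hp => (act_mem_surf H.sfc.hom H.sfc.coef hσ).2 hp
  gen_X := fun L p hp => hp.1
  gen_anti := fun L L' h => inst_gen_anti h _
  act_gen := fun L hL σ hσ p hp => inst_act_gen H.sfc.hom (fun i => (H.sfc.coef i).mono hL) hσ hp
  conj := fun p hp q hq => H.sfc.conj K H.sfc.cK le_rfl p hp q hq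
  rat_act := fun σ hσ z hz => actC_ratQ H.sfc.hom H.sfc.coef hσ hz
  rat_deg := fun z hz => degQ_ratQ hz
  move := fun L _ hL x hx => inst_move H.sfc L hL hx
  tz_X := fun L z hz => hz.1
  tz_mono := fun L L' _ h => tz_mono h
  tz_act := fun L hL σ hσ z hz => tz_act H.sfc.hom H.sfc.coef hL hσ hz
  s1t := fun n t ht α hα hσ => H.s1t ω hne t ht α hα hσ
  mu := fun L _ hL => inst_mu H.sfc L hL

end Pool.Agent.VRC
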