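import Pool.Agent.VRC.LinA

/-! Surfaces in rationally connected varieties: rational curves through two points over an
algebraically closed field. -/

set_option autoImplicit false

open MvPolynomial

namespace Pool.Agent.VRC

open Pool.Agent.VGS (Fl adj clo Coef)
open Pool.Agent.VCI

section pol

variable {n N : ℕ} {R : Type} [CommRing R]

/-- The polynomial with coefficients `x (i, l)`, `l ≤ N`. -/
noncomputable def ldP (N : ℕ) (x : Fin n × Fin (N + 1) → R) (i : Fin n) : Polynomial R :=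
  ∑ l : Fin (N + 1), Polynomial.monomial (l : ℕ) (x (i, l))

theorem ldP_map {R' : Type} [CommRing R'] (f : R →+* R') (x : Fin n × Fin (N + 1) → R)
    (i : Fin n) : Polynomial.map f (ldP N x i) = ldP N (fun a => f (x a)) i := by
  unfold ldP
  rw [Polynomial.map_sum]
  exact Finset.sum_congr rfl fun l _ => Polynomial.map_monomial _

theorem ldP_coeff (x : Fin n × Fin (N + 1) → R) (i : Fin n) (m : ℕ) :
    (ldP N x i).coeff m = if h : m < N + 1 then x (i, ⟨m, h⟩) else 0 := by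
  unfold ldP
  rw [Polynomial.finsetSum_coeff]
  split_ifs with h
  · rw [Finset.sum_eq_single (⟨m, h⟩ : Fin (N + 1))]
    · rw [Polynomial.coeff_monomial, if_pos rfl]
    · intro l _ hl
      rw [Polynomial.coeff_monomial, if_neg]
      exact fun h1 => hl (Fin.ext h1)
    · intro h1
      exact absurd (Finset.mem_univ _) h1
  · refine Finset.sum_eq_zero fun l _ => ?_
    rw [Polynomial.coeff_monomial, if_neg]
    intro h1
    exact h (h1 ▸ l.2)

theorem ldP_eval (x : Fin n × Fin (N + 1) → R) (i : Fin n) (t : R) :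
    (ldP N x i).eval t = ∑ l : Fin (N + 1), x (i, l) * t ^ (l : ℕ) := by
  unfold ldP
  rw [Polynomial.eval_finsetSum]
  exact Finset.sum_congr rfl fun l _ => Polynomial.eval_monomial

end pol

variable {s n N : ℕ}

/-- the value of a polynomial over `L` has coefficients in `L` -/
theorem ld_coef {L : Fl} {h : MvPolynomial (Fin n) ℂ} (hh : Coef L h) (m : ℕ) :
    Coef L ((aeval (ldP N (X : Fin n × Fin (N + 1) → MvPolynomial (Fin n × Fin (N + 1)) ℂ))
      h).coeff m) := by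
  obtain ⟨h₀, rfl⟩ := VGS.coef_iff.1 hh
  have key : aeval (ldP N (X : Fin n × Fin (N + 1) → MvPolynomial (Fin n × Fin (N + 1)) ℂ))
      (map (algebraMap L ℂ) h₀) = Polynomial.map (map (algebraMap L ℂ))
        (aeval (ldP N (X : Fin n × Fin (N + 1) → MvPolynomial (Fin n × Fin (N + 1)) L)) h₀) := by
    clear hh
    induction h₀ using MvPolynomial.induction_on with
    | C a =>
      rw [map_C, aeval_C, aeval_C, Polynomial.algebraMap_apply, Polynomial.algebraMap_apply,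
        MvPolynomial.algebraMap_eq, MvPolynomial.algebraMap_eq, Polynomial.map_C, map_C]
    | add p q hp hq => rw [map_add, map_add, hp, hq, map_add, Polynomial.map_add]
    | mul_X p i hp =>
      rw [map_mul, map_X, map_mul, aeval_X, hp, map_mul, aeval_X, Polynomial.map_mul, ldP_map]
      simp only [map_X]
  rw [key, Polynomial.coeff_map]
  exact VGS.coef_iff.2 ⟨_, rfl⟩

theorem ld_aeval (x : Fin n × Fin (N + 1) → ℂ) (h : MvPolynomial (Fin n) ℂ) :
    Polynomial.map (aeval x : MvPolynomial (Fin n × Fin (N + 1)) ℂ →ₐ[ℂ] ℂ).toRingHom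
      (aeval (ldP N (X : Fin n × Fin (N + 1) → MvPolynomial (Fin n × Fin (N + 1)) ℂ)) h) =
      aeval (ldP N x) h := by
  induction h using MvPolynomial.induction_on with
  | C a =>
    rw [aeval_C, aeval_C, Polynomial.algebraMap_apply, Polynomial.algebraMap_apply,
      MvPolynomial.algebraMap_eq, Polynomial.map_C]
    congr 1
    exact aeval_C x a
  | add p q hp hq => rw [map_add, Polynomial.map_add, hp, hq, map_add]
  | mul_X p i hp =>
    rw [map_mul, aeval_X, Polynomial.map_mul, hp, map_mul, aeval_X, ldP_map]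
    congr 2
    funext a
    exact aeval_X x a

/-- The equations of the coefficients of the curves on `h = 0` through `z` and `z'`. -/
noncomputable def ldE (N : ℕ) (h : Fin s → MvPolynomial (Fin n) ℂ) (z z' : Fin n → ℂ) :
    (Fin s × ℕ) ⊕ (Fin n ⊕ Fin n) → MvPolynomial (Fin n × Fin (N + 1)) ℂ
  | Sum.inl a => (aeval (ldP N (X : Fin n × Fin (N + 1) →
      MvPolynomial (Fin n × Fin (N + 1)) ℂ)) (h a.1)).coeff a.2
  | Sum.inr (Sum.inl i) => X (i, 0) - C (z i)
  | Sum.inr (Sum.inr i) => ∑ l, X (i, l) - C (z' i)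

theorem ldE_inl (h : Fin s → MvPolynomial (Fin n) ℂ) (z z' : Fin n → ℂ)
    (y : Fin n × Fin (N + 1) → ℂ) (a : Fin s × ℕ) :
    aeval y (ldE N h z z' (Sum.inl a)) = (aeval (ldP N y) (h a.1)).coeff a.2 := by
  rw [ldE, ← ld_aeval y (h a.1), Polynomial.coeff_map]
  rfl

theorem ldE_z (h : Fin s → MvPolynomial (Fin n) ℂ) (z z' : Fin n → ℂ)
    (y : Fin n × Fin (N + 1) → ℂ) (i : Fin n) :
    aeval y (ldE N h z z' (Sum.inr (Sum.inl i))) = (ldP N y i).eval 0 - z i := by
  rw [ldE, map_sub, aeval_X, aeval_C, ← Polynomial.coeff_zero_eq_eval_zero, ldP_coeff,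
    dif_pos (Nat.succ_pos N)]
  rfl

theorem ldE_z' (h : Fin s → MvPolynomial (Fin n) ℂ) (z z' : Fin n → ℂ)
    (y : Fin n × Fin (N + 1) → ℂ) (i : Fin n) :
    aeval y (ldE N h z z' (Sum.inr (Sum.inr i))) = (ldP N y i).eval 1 - z' i := by
  rw [ldE, map_sub, map_sum, aeval_C, ldP_eval]
  simp only [one_pow, mul_one, aeval_X]
  rfl

theorem ldE_coef {L : Fl} {h : Fin s → MvPolynomial (Fin n) ℂ} (hh : ∀ j, Coef L (h j))
    {z z' : Fin n → ℂ} (hz : ∀ j, z j ∈ L) (hz' : ∀ j, z' j ∈ L)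
    (a : (Fin s × ℕ) ⊕ (Fin n ⊕ Fin n)) : Coef L (ldE N h z z' a) := by
  have hXC : ∀ (a : Fin n × Fin (N + 1)), Coef L (X a : MvPolynomial (Fin n × Fin (N + 1)) ℂ) :=
    fun a => VGS.coef_iff.2 ⟨X a, by rw [map_X]⟩
  have hCC : ∀ c ∈ L, Coef L (C c : MvPolynomial (Fin n × Fin (N + 1)) ℂ) :=
    fun c hc => VGS.coef_iff.2 ⟨C ⟨c, hc⟩, by rw [map_C]; rfl⟩
  rcases a with a | i | i
  · exact ld_coef (hh a.1) a.2
  · intro t
    rw [ldE, coeff_sub]
    exact sub_mem (hXC _ t) (hCC _ (hz i) t)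
  · intro t
    rw [ldE, coeff_sub, coeff_sum]
    exact sub_mem (sum_mem fun l _ => hXC _ t) (hCC _ (hz' i) t)

/-- **Descent of rational curves.** -/
theorem curve_descent {s n : ℕ} {h : Fin s → MvPolynomial (Fin n) ℂ} {L : Fl} (hL : clo L = L)
    (hh : ∀ j, Coef L (h j)) {z z' : Fin n → ℂ} (hz : ∀ j, z j ∈ L) (hz' : ∀ j, z' j ∈ L)
    (φ : Fin n → Polynomial ℂ) (hφ : ∀ j, aeval φ (h j) = 0) (h0 : ∀ i, (φ i).eval 0 = z i)
    (h1 : ∀ i, (φ i).eval 1 = z' i) :
    ∃ ψ : Fin n → Polynomial ℂ, (∀ j l, (ψ j).coeff l ∈ L) ∧ (∀ j, aeval ψ (h j) = 0) ∧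
      (∀ i, (ψ i).eval 0 = z i) ∧ ∀ i, (ψ i).eval 1 = z' i := by
  obtain ⟨N, hN⟩ : ∃ N : ℕ, ∀ i, (φ i).natDegree < N + 1 :=
    ⟨∑ i, (φ i).natDegree, fun i => Nat.lt_succ_of_le
      (Finset.single_le_sum (f := fun i => (φ i).natDegree) (fun _ _ => Nat.zero_le _)
        (Finset.mem_univ i))⟩
  obtain ⟨x, hx⟩ : ∃ x : Fin n × Fin (N + 1) → ℂ, ∀ i l, x (i, l) = (φ i).coeff l :=
    ⟨fun a => (φ a.1).coeff a.2, fun _ _ => rfl⟩
  have hxφ : ldP N x = φ := by
    funext i
    refine Polynomial.ext fun m => ?_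
    rw [ldP_coeff]
    split_ifs with hm
    · rw [hx]
    · exact (Polynomial.coeff_eq_zero_of_natDegree_lt ((hN i).trans_le (not_lt.1 hm))).symm
  have hx0 : ∀ a, aeval x (ldE N h z z' a) = 0 := by
    rintro (a | i | i)
    · rw [ldE_inl, hxφ, hφ, Polynomial.coeff_zero]
    · rw [ldE_z, hxφ, h0, sub_self]
    · rw [ldE_z', hxφ, h1, sub_self]
  obtain ⟨y, hy, hy0⟩ := exists_zero_clo hL (ldE N h z z') (ldE_coef hh hz hz') hx0
  refine ⟨ldP N y, fun j l => ?_, fun j => ?_, fun i => ?_, fun i => ?_⟩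
  · rw [ldP_coeff]
    split_ifs
    · exact hy _
    · exact L.zero_mem
  · refine Polynomial.ext fun m => ?_
    have h2 := hy0 (Sum.inl (j, m))
    rw [ldE_inl] at h2
    rw [h2, Polynomial.coeff_zero]
  · have h2 := hy0 (Sum.inr (Sum.inl i))
    rw [ldE_z] at h2
    exact sub_eq_zero.1 h2
  · have h2 := hy0 (Sum.inr (Sum.inr i))
    rw [ldE_z'] at h2
    exact sub_eq_zero.1 h2

end Pool.Agent.VRC
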