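import Pool.Agent.VRC.Base

/-! Surfaces in rationally connected varieties: the count of independent coordinates. -/

set_option autoImplicit false

open scoped LinearAlgebra.Projectivization
open MvPolynomial

namespace Pool.Agent.VRC

open Pool.Agent.VGS (Fl adj clo Coef Kills IsPl Sp le_adj le_clo subset_adj adj_le clo_mono ai_mono
  ai_iff ai_sum ai_pair mem_clo mem_clo_adj adj_adj ai_clo)
open Pool.Agent.VCI

/-- an independent family in `clo k(w, A')`: many coordinates of `w` are independent -/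
theorem count_ind {k : Fl} {ι Λ μ : Type} [Finite ι] [Finite Λ] [Finite μ] {w : ι → ℂ} {A : Λ → ℂ}
    (hA : AlgebraicIndependent k A) {b : μ → ℂ}
    (hb : AlgebraicIndependent (adj k (Set.range A)) b) (hbw : ∀ i, b i ∈ clo (adj k (Set.range w)))
    (Λ₀ : Set Λ) (h : ∀ l, A l ∈ clo (adj k (Set.range w ∪ A '' Λ₀))) {N : ℕ}
    (hN : N + Nat.card Λ₀ ≤ Nat.card Λ + Nat.card μ) :
    ∃ f : Fin N → ι, Function.Injective f ∧ AlgebraicIndependent k fun j => w (f j) := by
  classical
  have hx : AlgebraicIndependent k (Sum.elim A b) := ai_sum.2 ⟨hA, hb⟩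
  let M := AlgebraicIndependent.matroid k ℂ
  have hI : M.Indep (Set.range (Sum.elim A b)) := hx.to_subtype_range
  have hcl : Set.range (Sum.elim A b) ⊆ M.closure (Set.range w ∪ A '' Λ₀) := by
    rintro _ ⟨i, rfl⟩
    rw [AlgebraicIndependent.matroid_closure_eq]
    refine mem_clo_adj.1 ?_
    rcases i with l | i
    · exact h l
    · refine clo_mono (adj_le (le_adj _ _) ?_) (hbw i)
      exact Set.subset_union_left.trans (subset_adj _ _)
  have h1 : (Set.range (Sum.elim A b)).encard = ((Nat.card Λ + Nat.card μ : ℕ) : ℕ∞) := by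
    rw [← Set.image_univ, Set.InjOn.encard_image hx.injective.injOn, Set.encard_univ,
      ENat.card_eq_coe_natCard, Nat.card_sum]
  have h2 : (A '' Λ₀).encard ≤ (Nat.card Λ₀ : ℕ∞) := by
    refine (Set.encard_image_le A Λ₀).trans ?_
    rw [← ENat.card_coe_set_eq, ENat.card_eq_coe_natCard]
  have h3 : ((Nat.card Λ + Nat.card μ : ℕ) : ℕ∞) ≤ M.eRk (Set.range w) + (Nat.card Λ₀ : ℕ∞) := by
    rw [← h1, ← hI.eRk_eq_encard]
    calc M.eRk (Set.range (Sum.elim A b)) ≤ M.eRk (M.closure (Set.range w ∪ A '' Λ₀)) :=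
          M.eRk_mono hcl
      _ = M.eRk (Set.range w ∪ A '' Λ₀) := M.eRk_closure_eq _
      _ ≤ M.eRk (Set.range w) + M.eRk (A '' Λ₀) := M.eRk_union_le_eRk_add_eRk _ _
      _ ≤ M.eRk (Set.range w) + (Nat.card Λ₀ : ℕ∞) := by
          gcongr
          exact (M.eRk_le_encard _).trans h2
  have h4 : (N : ℕ∞) ≤ M.eRk (Set.range w) := by
    have h5 : ((N + Nat.card Λ₀ : ℕ) : ℕ∞) ≤ M.eRk (Set.range w) + (Nat.card Λ₀ : ℕ∞) :=
      le_trans (by exact_mod_cast hN) h3
    rw [Nat.cast_add] at h5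
    exact (ENat.add_le_add_iff_right (ENat.natCast_ne_top _)).1 h5
  obtain ⟨J, hJ⟩ := M.exists_isBasis (Set.range w) (by
    rw [AlgebraicIndependent.matroid_e]
    exact Set.subset_univ _)
  rw [← hJ.encard_eq_eRk] at h4
  obtain ⟨J', hJ', hc⟩ := Set.exists_subset_encard_eq h4
  have hfin : J'.Finite := Set.finite_of_encard_eq_coe (k := N) hc
  have hcard : hfin.toFinset.card = N := by
    have h4 := hfin.encard_eq_coe_toFinset_card
    rw [hc] at h4
    exact_mod_cast h4.symm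
  have e := (hfin.toFinset.equivFinOfCardEq hcard).symm
  have hsub : ∀ b : Fin N, ∃ l, w l = (e b : ℂ) := fun b =>
    hJ.subset (hJ' (hfin.mem_toFinset.1 (e b).2))
  choose g hg using hsub
  have h5 : M.Indep J' := hJ.indep.subset hJ'
  have h6 : AlgebraicIndependent k (fun x : J' => (x : ℂ)) := h5
  have h7 : (fun b => w (g b)) = (fun x : J' => (x : ℂ)) ∘ fun b =>
      (⟨(e b : ℂ), hfin.mem_toFinset.1 (e b).2⟩ : J') := funext fun b => hg b
  have h9 : AlgebraicIndependent k fun b => w (g b) := by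
    rw [h7]
    refine h6.comp _ fun a b hab => ?_
    have h8 : (e a : ℂ) = e b := congrArg (fun x : J' => (x : ℂ)) hab
    exact e.injective (Subtype.ext h8)
  exact ⟨g, fun a b hab => h9.injective (congrArg w hab), h9⟩

section

variable {s c r : ℕ} {M : Fin c → ℕ} {k K : Fl} {h : Fin s → MvPolynomial (Fin (r + 3)) ℂ}
  {g : (i : Fin c) → Fin (M i) → MvPolynomial (Fin (r + 3)) ℂ} {a : (i : Fin c) → Fin (M i) → ℂ}
  {d : Fin (s + c) → ℕ}

/-- a generic point of `X` over `K = k(a)` has `c + 2` coordinates which are independent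
over `k` -/
theorem lin_ind (hX : Sfc0 (eqs h g a) d K) (hbase : base h g ≤ k)
    (hbpf : ∀ z ∈ cone (eqs h g a), ∀ i, ∃ l, aeval z (g i l) ≠ 0)
    (hai : AlgebraicIndependent k fun il : (i : Fin c) × Fin (M i) => a il.1 il.2)
    (hK : K = adj k (Set.range fun il : (i : Fin c) × Fin (M i) => a il.1 il.2))
    {z : Fin (r + 3) → ℂ} (hz : z ≠ 0) {i₀ : Fin (r + 3)} (hzi : z i₀ = 1)
    (hp : (Projectivization.mk ℂ z hz : PN (r + 3)) ∈ Gen K (eqs h g a)) :
    ∃ f : Fin (c + 2) → Fin (r + 3), AlgebraicIndependent k fun b => z (f b) := by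
  classical
  have hzF : z ∈ cone (eqs h g a) := ⟨hz, (mem_surf_mk hX.hom hz).1 hp.1⟩
  obtain ⟨j, l, hjl⟩ := gen_coord hX.hom hz hzi hp
  choose l₀ hl₀ using hbpf z hzF
  have hgk : ∀ i l, Coef k (g i l) := fun i l m =>
    hbase (subset_adj _ _ (Or.inr ⟨(⟨i, l⟩, m), rfl⟩))
  set Λ₀ : Set ((i : Fin c) × Fin (M i)) := {x | x.2 ≠ l₀ x.1} with hΛ
  set A : (i : Fin c) × Fin (M i) → ℂ := fun il => a il.1 il.2 with hAdef
  set E : Fl := adj k (Set.range z ∪ A '' Λ₀) with hE
  have hzE : ∀ i, z i ∈ E := fun i => subset_adj _ _ (Or.inl ⟨i, rfl⟩)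
  have hgE : ∀ i l, aeval z (g i l) ∈ E := fun i l =>
    VGS.aeval_mem ((hgk i l).mono (le_adj _ _)) hzE
  have hmem : ∀ x, A x ∈ E := by
    rintro ⟨i, x⟩
    by_cases hx : x = l₀ i
    · subst hx
      have h1 : ∑ l, a i l * aeval z (g i l) = 0 := by
        have h2 := hzF.2 (Fin.natAdd s i)
        have h3 : eqs h g a (Fin.natAdd s i) = ∑ l, C (a i l) * g i l := Fin.append_right _ _ _
        rw [h3, map_sum] at h2
        rw [← h2]
        refine Finset.sum_congr rfl fun l _ => ?_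
        rw [map_mul, aeval_C]
        rfl
      rw [← Finset.add_sum_erase _ _ (Finset.mem_univ (l₀ i))] at h1
      have h4 : a i (l₀ i) = -(∑ l ∈ Finset.univ.erase (l₀ i), a i l * aeval z (g i l)) /
          aeval z (g i (l₀ i)) := by
        rw [eq_div_iff (hl₀ i)]
        linear_combination h1
      change a i (l₀ i) ∈ E
      rw [h4]
      refine div_mem (neg_mem (sum_mem fun l hl => mul_mem ?_ (hgE i l))) (hgE _ _)
      refine subset_adj _ _ (Or.inr ⟨⟨i, l⟩, ?_, rfl⟩)
      exact Finset.ne_of_mem_erase hl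
    · exact subset_adj _ _ (Or.inr ⟨⟨i, x⟩, hx, rfl⟩)
  have hcard : c + Nat.card Λ₀ ≤ Nat.card ((i : Fin c) × Fin (M i)) := by
    let e : Fin c ⊕ Λ₀ → (i : Fin c) × Fin (M i) := Sum.elim (fun i => ⟨i, l₀ i⟩) Subtype.val
    have he : Function.Injective e := by
      rintro (i | x) (i' | x') hxx
      · have h5 : (⟨i, l₀ i⟩ : (i : Fin c) × Fin (M i)) = ⟨i', l₀ i'⟩ := hxx
        exact congrArg Sum.inl (congrArg Sigma.fst h5)
      · exfalso
        have h5 : (⟨i, l₀ i⟩ : (i : Fin c) × Fin (M i)) = x' := hxx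
        apply x'.2
        rw [← h5]
      · exfalso
        have h5 : (x : (i : Fin c) × Fin (M i)) = ⟨i', l₀ i'⟩ := hxx
        apply x.2
        rw [h5]
      · exact congrArg Sum.inr (Subtype.ext hxx)
    have h6 := Nat.card_le_card_of_injective e he
    rwa [Nat.card_sum, Nat.card_fin] at h6
  obtain ⟨f, -, hf⟩ := count_ind (w := z) (A := A) hai (b := ![z j, z l]) (by rw [← hK]; exact hjl)
    (fun x => by
      apply le_clo
      fin_cases x
      · exact subset_adj _ _ ⟨j, rfl⟩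
      · exact subset_adj _ _ ⟨l, rfl⟩) Λ₀ (fun x => le_clo _ (hmem x)) (N := c + 2) (by
      rw [Nat.card_fin]
      omega)
  exact ⟨f, hf⟩

end

end Pool.Agent.VRC
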