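import Pool.Agent.VRC.TrA
import Pool.Agent.VCI.PenA

/-! Pencils of sections of a surface: limits of the points of a section (doc S/31564d_U). -/

set_option autoImplicit false

open scoped LinearAlgebra.Projectivization
open MvPolynomial

namespace Pool.Agent.VRC

open Pool.Agent.Chow0 (IsChowForm IsLink)
open Pool.Agent.VGS (Fl adj clo Coef Kills IsPl Sp)
open Pool.Agent.VCI

variable {m r : ℕ} {F : Fin m → MvPolynomial (Fin (r + 3)) ℂ} {d : Fin m → ℕ} {K : Fl}

/-- an injective matrix has a square submatrix with determinant different from zero -/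
theorem pen_exists_rows (A : Matrix (Fin m) (Fin r) ℂ)
    (h : ∀ γ : Fin r → ℂ, (∀ i, ∑ j, A i j * γ j = 0) → γ = 0) :
    ∃ I : Fin r → Fin m, (Matrix.of fun i j => A (I i) j).det ≠ 0 := by
  classical
  have hker : LinearMap.ker A.mulVecLin = ⊥ := by
    rw [LinearMap.ker_eq_bot']
    intro γ hγ
    refine h γ fun i => ?_
    have h1 := congrFun hγ i
    rw [Matrix.mulVecLin_apply, Matrix.mulVec, dotProduct] at h1
    exact h1
  have hrk : A.rank = r := by
    have h2 := LinearMap.finrank_range_add_finrank_ker A.mulVecLin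
    rw [hker, finrank_bot, add_zero, Module.finrank_fintype_fun_eq_card, Fintype.card_fin] at h2
    exact h2
  obtain ⟨κ, a, ha, hsp, hli⟩ := exists_linearIndependent' ℂ A.row
  have hκ : Finite κ := Finite.of_injective a ha
  have hfκ : Fintype κ := Fintype.ofFinite κ
  have hcard : Fintype.card κ = r := by
    have h3 := finrank_span_eq_card hli
    rw [hsp, ← Matrix.rank_eq_finrank_span_row, hrk] at h3
    exact h3.symm
  have e : Fin r ≃ κ := (Fintype.equivFinOfCardEq hcard).symm
  refine ⟨fun i => a (e i), ?_⟩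
  have h4 : LinearIndependent ℂ (Matrix.of fun i j => A (a (e i)) j).row := by
    have h5 := hli.comp e e.injective
    exact h5
  rw [Matrix.linearIndependent_rows_iff_isUnit, Matrix.isUnit_iff_isUnit_det] at h4
  exact h4.ne_zero

/-- finitely many transversal zeros; `m` polynomials in `r` variables -/
theorem zeros_finite (P : Fin m → MvPolynomial (Fin r) ℂ)
    (h : ∀ c : Fin r → ℂ, (∀ i, aeval c (P i) = 0) →
      ∀ γ : Fin r → ℂ, (∀ i, ∑ j, aeval c (pderiv j (P i)) * γ j = 0) → γ = 0) :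
    {c : Fin r → ℂ | ∀ i, aeval c (P i) = 0}.Finite := by
  have hfin : (Ideal.span (Set.range P)).minimalPrimes.Finite :=
    Ideal.finite_minimalPrimes_of_isNoetherianRing _ _
  refine (hfin.preimage (f := fun c : Fin r → ℂ =>
    RingHom.ker (aeval c : MvPolynomial (Fin r) ℂ →ₐ[ℂ] ℂ)) ?_).subset ?_
  · intro c _ c' _ hcc
    funext j
    have h1 : X j - C (c j) ∈ RingHom.ker (aeval c : MvPolynomial (Fin r) ℂ →ₐ[ℂ] ℂ) := by
      rw [RingHom.mem_ker]
      simp
    have h2 : X j - C (c j) ∈ RingHom.ker (aeval c' : MvPolynomial (Fin r) ℂ →ₐ[ℂ] ℂ) := by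
      have h3 : RingHom.ker (aeval c : MvPolynomial (Fin r) ℂ →ₐ[ℂ] ℂ) =
        RingHom.ker (aeval c' : MvPolynomial (Fin r) ℂ →ₐ[ℂ] ℂ) := hcc
      rw [← h3]
      exact h1
    rw [RingHom.mem_ker] at h2
    simp only [map_sub, aeval_X, aeval_C] at h2
    exact (sub_eq_zero.mp h2).symm
  · intro c hc
    obtain ⟨I, hI⟩ := pen_exists_rows (Matrix.of fun i j => aeval c (pderiv j (P i))) (h c hc)
    have h1 := ZFinAux.minimal (fun i => P (I i)) c (fun i => hc (I i)) hI
    have hle : Ideal.span (Set.range fun i => P (I i)) ≤ Ideal.span (Set.range P) := by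
      refine Ideal.span_mono ?_
      rintro _ ⟨i, rfl⟩
      exact ⟨I i, rfl⟩
    refine ⟨⟨h1.1.1, ?_⟩, ?_⟩
    · rw [Ideal.span_le]
      rintro _ ⟨i, rfl⟩
      exact hc i
    · rintro q ⟨hq, hIq⟩ hqm
      exact h1.2 ⟨hq, hle.trans hIq⟩ hqm

theorem secC_finite {n : ℕ} {F : Fin m → MvPolynomial (Fin n) ℂ} {w : Fin n → ℂ}
    {b : Fin r → Fin n → ℂ} (h : ∀ c ∈ SecC F w b, Tr F (vec w b c) b) :
    (SecC F w b).Finite := by
  classical
  obtain ⟨f, hf⟩ : ∃ f : Fin n → MvPolynomial (Fin r) ℂ, ∀ l, f l =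
      MvPolynomial.C (w l) + ∑ j, X j * MvPolynomial.C (b j l) := ⟨_, fun _ => rfl⟩
  have hfe : ∀ (c : Fin r → ℂ) (l : Fin n), aeval c (f l) = vec w b c l := by
    intro c l
    rw [hf, map_add, map_sum, aeval_C]
    unfold vec
    congr 1
    refine Finset.sum_congr rfl fun j _ => ?_
    rw [map_mul, aeval_X, aeval_C]
    rfl
  have hcomp : ∀ (G : MvPolynomial (Fin n) ℂ) (c : Fin r → ℂ),
      aeval c (aeval f G) = aeval (vec w b c) G := by
    intro G c
    have h1 : aeval c (aeval f G) = aeval (fun l => aeval c (f l)) G := by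
      rw [← MvPolynomial.comp_aeval_apply]
    rw [h1]
    exact congrArg (fun z => aeval z G) (funext fun l => hfe c l)
  have h1 := zeros_finite (fun i => aeval f (F i)) (fun c hc γ hγ => ?_)
  · refine h1.subset fun c hc i => ?_
    rw [hcomp]
    exact hc i
  · have hc' : c ∈ SecC F w b := fun i => by rw [← hcomp]; exact hc i
    refine h c hc' γ fun i => ?_
    rw [← hγ i, dFc]
    have h3 : ∀ j : Fin r, aeval c (pderiv j (aeval f (F i))) =
        ∑ l, aeval (vec w b c) (pderiv l (F i)) * b j l := by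
      intro j
      rw [mu_chain, map_sum]
      refine Finset.sum_congr rfl fun l _ => ?_
      rw [map_mul, hcomp]
      congr 1
      rw [hf, map_add (pderiv j), map_sum, pderiv_C, zero_add, map_sum, Finset.sum_eq_single j]
      · rw [Derivation.leibniz, pderiv_C, smul_zero, zero_add, pderiv_X_self, smul_eq_mul,
          mul_one, aeval_C]
        rfl
      · intro k _ hk
        rw [Derivation.leibniz, pderiv_C, smul_zero, zero_add, pderiv_X_of_ne hk,
          smul_zero, map_zero]
      · intro h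
        exact absurd (Finset.mem_univ j) h
    simp only [h3, Finset.sum_mul]
    rw [Finset.sum_comm]
    exact Finset.sum_congr rfl fun j _ => Finset.sum_congr rfl fun l _ => by ring

theorem vec_sp {n : ℕ} {C : Fl} {V : ValuationSubring ℂ} (hV : IsPl V C) {w w' : Fin n → ℂ}
    (hw : ∀ l, Sp V C (w l) (w' l)) {b : Fin r → Fin n → ℂ} (hb : ∀ j l, b j l ∈ C)
    {c c' : Fin r → ℂ} (hc : ∀ j, Sp V C (c j) (c' j)) (l : Fin n) :
    Sp V C (vec w b c l) (vec w' b c' l) :=
  (hw l).add hV (Sp.sum hV _ fun j _ => (hc j).mul hV (Sp.const hV (hb j l)))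

/-- two members with the same transversal limit are equal -/
theorem lim_inj {n : ℕ} {F : Fin m → MvPolynomial (Fin n) ℂ} {C : Fl} {V : ValuationSubring ℂ}
    (hV : IsPl V C) (hFC : ∀ i, Coef C (F i)) {w w' : Fin n → ℂ} (hw : ∀ l, Sp V C (w l) (w' l))
    {b : Fin r → Fin n → ℂ} (hb : ∀ j l, b j l ∈ C) {c c₁ c' : Fin r → ℂ}
    (hc : ∀ j, Sp V C (c j) (c' j)) (hc₁ : ∀ j, Sp V C (c₁ j) (c' j)) (h : c ∈ SecC F w b)
    (h₁ : c₁ ∈ SecC F w b) (hJ : Tr F (vec w' b c') b) : c = c₁ := by
  classical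
  obtain ⟨I, hI⟩ := pen_exists_rows
    (Matrix.of fun i j => ∑ l, aeval (vec w' b c') (pderiv l (F i)) * b j l) (by
      intro γ hγ
      refine hJ γ fun i => ?_
      have h1 := hγ i
      simp only [Matrix.of_apply, Finset.sum_mul] at h1
      rw [← h1, Finset.sum_comm, dFc]
      simp only [Finset.sum_mul]
      exact Finset.sum_congr rfl fun l _ => Finset.sum_congr rfl fun j _ => by ring)
  simp only [Matrix.of_apply] at hI
  choose g hg hg' using fun i => pen_exists_diff hV (vec_sp hV hw hb hc) (vec_sp hV hw hb hc₁)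
    (hFC (I i))
  set A : Matrix (Fin r) (Fin r) ℂ := Matrix.of fun i j => ∑ l, g i l * b j l with hA
  have hAs : Sp V C A.det (Matrix.of fun (i j : Fin r) =>
      ∑ l, aeval (vec w' b c') (pderiv l (F (I i))) * b j l).det := by
    rw [Matrix.det_apply', Matrix.det_apply']
    refine Sp.sum hV _ fun σ _ => Sp.mul hV (Sp.const hV ?_) (Sp.prod hV _ fun i _ => ?_)
    · exact intCast_mem C _
    · simp only [hA, Matrix.of_apply]
      exact Sp.sum hV _ fun l _ => Sp.mul hV (hg _ l) (Sp.const hV (hb _ _))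
  have hA0 : A.det ≠ 0 := hAs.ne_zero hV hI
  have h2 : A.mulVec (fun j => c j - c₁ j) = 0 := by
    funext i
    have h3 := hg' i
    rw [h (I i), h₁ (I i), sub_self] at h3
    have h4 : ∀ l, vec w b c l - vec w b c₁ l = ∑ j, (c j - c₁ j) * b j l := by
      intro l
      unfold vec
      rw [add_sub_add_left_eq_sub, ← Finset.sum_sub_distrib]
      exact Finset.sum_congr rfl fun j _ => by ring
    rw [Pi.zero_apply, h3, Matrix.mulVec, dotProduct]
    simp only [hA, Matrix.of_apply, h4, Finset.mul_sum, Finset.sum_mul]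
    rw [Finset.sum_comm]
    exact Finset.sum_congr rfl fun l _ => Finset.sum_congr rfl fun j _ => by ring
  have h5 := Matrix.eq_zero_of_mulVec_eq_zero hA0 h2
  funext j
  have h6 := congrFun h5 j
  simp only [Pi.zero_apply] at h6
  exact sub_eq_zero.1 h6

/-- limits exist -/
theorem lim_ex (hX : Sfc F d K) (E : Fl) [Countable E] (hKE : K ≤ E)
    {b : Fin r → Fin (r + 3) → ℂ}
    (hb : AlgebraicIndependent E fun jl : Fin r × Fin (r + 3) => b jl.1 jl.2)
    {C : Fl} [Countable C] (hC : clo C = C) (hEC : E ≤ C) (hbC : ∀ j l, b j l ∈ C)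
    {V : ValuationSubring ℂ} (hV : IsPl V C) {u u₀ : ℂ} (hu : u ∉ C) (hu₀ : Sp V C u u₀)
    {w w' : Fin (r + 3) → ℂ} (hw : ∀ l, Sp V C (w l) (w' l)) {c : Fin r → ℂ}
    (hc : c ∈ SecC F w b) (hcu : ∀ j, c j ∈ clo (adj C {u})) :
    ∃ c' ∈ SecC F w' b, ∀ j, Sp V C (c j) (c' j) := by
  have hFC : ∀ i, Coef C (F i) := fun i => (hX.coef i).mono (hKE.trans hEC)
  have hcV : ∀ j, c j ∈ V := by
    by_contra hcon
    push Not at hcon
    obtain ⟨j₁, hj₁⟩ := hcon
    obtain ⟨m, -, hm⟩ := Finset.exists_max_image (Finset.univ : Finset (Fin r))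
      (fun j => V.valuation (c j)) ⟨j₁, Finset.mem_univ j₁⟩
    have h1 : 1 < V.valuation (c m) := by
      refine lt_of_lt_of_le ?_ (hm j₁ (Finset.mem_univ j₁))
      rw [← not_le, V.valuation_le_one_iff]
      exact hj₁
    have hv0 : V.valuation (c m) ≠ 0 := fun h => by
      rw [h] at h1
      exact absurd h1 (not_lt.2 zero_le)
    have hcm : c m ≠ 0 := (Valuation.ne_zero_iff _).1 hv0
    have hinv : Sp V C (c m)⁻¹ 0 := by
      refine ⟨C.zero_mem, ?_⟩
      rw [sub_zero, map_inv₀]
      exact (inv_lt_one₀ (zero_lt_iff.2 hv0)).2 h1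
    have h2 : ∀ j, ∃ c', Sp V C (c j / c m) c' := by
      intro j
      refine VGS.exists_sp hC hV hu hu₀ ((clo (adj C {u})).div_mem (hcu j) (hcu m)) ?_
      rw [← ValuationSubring.valuation_le_one_iff, map_div₀]
      exact div_le_one_of_le₀ (hm j (Finset.mem_univ j)) zero_le
    choose c' hc' using h2
    have hcm' : c' m = 1 := by
      have h4 := hc' m
      rw [div_self hcm] at h4
      exact Sp.unique hV h4 (Sp.const hV C.one_mem)
    have hc'0 : c' ≠ 0 := by
      intro h0
      rw [h0] at hcm'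
      exact zero_ne_one hcm'
    obtain ⟨i, hi⟩ := sec_empty hX E hKE hb hc'0
    apply hi
    have h5 : ∀ l, Sp V C ((c m)⁻¹ * vec w b c l) (vec 0 b c' l) := by
      intro l
      have h6 : (c m)⁻¹ * vec w b c l = (c m)⁻¹ * w l + ∑ j, c j / c m * b j l := by
        unfold vec
        rw [mul_add, Finset.mul_sum]
        congr 1
        exact Finset.sum_congr rfl fun j _ => by rw [div_eq_mul_inv]; ring
      have h7 : vec 0 b c' l = 0 * w' l + ∑ j, c' j * b j l := by
        unfold vec
        rw [Pi.zero_apply, zero_mul]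
      rw [h6, h7]
      exact (hinv.mul hV (hw l)).add hV (Sp.sum hV _ fun j _ =>
        (hc' j).mul hV (Sp.const hV (hbC j l)))
    have h8 := Sp.aeval hV (hFC i) h5
    have h9 : aeval (fun l => (c m)⁻¹ * vec w b c l) (F i) = 0 := by
      rw [pp_aeval_scale (hX.hom i) (w := vec w b c) (a := (c m)⁻¹) (fun _ => rfl), hc i, mul_zero]
    rw [h9] at h8
    exact Sp.unique hV h8 (Sp.const hV C.zero_mem)
  choose c' hc' using fun j => VGS.exists_sp hC hV hu hu₀ (hcu j) (hcV j)
  refine ⟨c', fun i => ?_, hc'⟩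
  have h8 := Sp.aeval hV (hFC i) (vec_sp hV hw hbC hc')
  rw [hc i] at h8
  exact Sp.unique hV h8 (Sp.const hV C.zero_mem)

end Pool.Agent.VRC
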