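import Pool.Agent.VRC.PenA
import Pool.Agent.VCI.PenB

/-! Pencils of sections of a surface: the family and its limits. -/

set_option autoImplicit false

open scoped LinearAlgebra.Projectivization
open MvPolynomial

namespace Pool.Agent.VRC

open Pool.Agent.VGS (Fl adj clo Coef IsPl Sp le_adj le_clo subset_adj adj_le clo_mono clo_clo
  ai_sum ai_mono aeval_fix fix_mem_clo exists_extend exists_notMem exists_place)
open Pool.Agent.VCI

section

variable {m n r : ℕ} {F : Fin m → MvPolynomial (Fin n) ℂ}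

/-- the vectors of a generic section are not zero -/
theorem vec_ne (hn : r < n) {L : Fl} {w : Fin n → ℂ} (hw : ∀ l, w l ∈ L) (hw0 : w ≠ 0)
    {b : Fin r → Fin n → ℂ} (hb : AlgebraicIndependent L fun jl : Fin r × Fin n => b jl.1 jl.2)
    (c : Fin r → ℂ) : vec w b c ≠ 0 := by
  intro h0
  have h1 := Fintype.linearIndependent_iff.1 (VCI.li_cons hn hw hw0 hb) (Fin.cons 1 c) (by
    rw [Fin.sum_univ_succ]
    simp only [Fin.cons_zero, Fin.cons_succ, one_smul]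
    rw [← h0]
    funext l
    simp [vec, Finset.sum_apply]) 0
  rw [Fin.cons_zero] at h1
  exact one_ne_zero h1

/-- different parameters give different points -/
theorem sec_inj [NeZero n] {w : Fin n → ℂ} {b : Fin r → Fin n → ℂ} (hne : ∀ c, vec w b c ≠ 0)
    (hT : ∀ c ∈ SecC F w b, Tr F (vec w b c) b) {c c₁ : Fin r → ℂ}
    (hc : c ∈ SecC F w b) (h : mkP (vec w b c) = mkP (vec w b c₁)) : c = c₁ := by
  rw [mkP_eq (hne c), mkP_eq (hne c₁), mk_eq_mk_iff_exists] at h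
  obtain ⟨a, -, ha⟩ := h
  by_cases h1 : a = 1
  · subst h1
    have h3 : (fun l => ∑ j, (c j - c₁ j) * b j l) = 0 := by
      funext l
      have h4 := ha l
      rw [one_mul] at h4
      unfold vec at h4
      have h5 := add_left_cancel h4
      simp only [sub_mul, Finset.sum_sub_distrib]
      exact sub_eq_zero.2 h5
    have h5 := hT c hc (fun j => c j - c₁ j) (fun i => by
      rw [h3]
      simp [dFc])
    funext j
    have h6 := congrFun h5 j
    simp only [Pi.zero_apply] at h6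
    exact sub_eq_zero.1 h6
  · exfalso
    have h2 : 1 - a ≠ 0 := sub_ne_zero.2 (Ne.symm h1)
    apply hne (fun j => (c j - a * c₁ j) / (1 - a))
    funext l
    have h3 := ha l
    unfold vec at h3 ⊢
    have h4 : ∑ j, (c j - a * c₁ j) / (1 - a) * b j l =
        (∑ j, c j * b j l - a * ∑ j, c₁ j * b j l) / (1 - a) := by
      rw [Finset.mul_sum, ← Finset.sum_sub_distrib, Finset.sum_div]
      exact Finset.sum_congr rfl fun j _ => by ring
    rw [h4, Pi.zero_apply]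
    field_simp
    linear_combination h3

/-- transversality for the local equations -/
theorem det_of_tr {I : Fin r → Fin m} {z : Fin n → ℂ}
    (hI : ∀ v, (∀ j, dFc (F (I j)) z v = 0) → ∀ i, dFc (F i) z v = 0) {b : Fin r → Fin n → ℂ}
    (h : Tr F z b) : (jacM (fun j => F (I j)) z b).det ≠ 0 := by
  intro h0
  obtain ⟨a, ha, h1⟩ := Matrix.exists_mulVec_eq_zero_iff.2 h0
  refine ha (h a (hI _ fun i => ?_))
  have h2 := congrFun h1 i
  rw [Pi.zero_apply, Matrix.mulVec, dotProduct] at h2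
  simp only [jacM, Matrix.of_apply] at h2
  rw [← h2]
  simp only [dFc, Finset.sum_mul]
  rw [Finset.sum_comm]
  exact Finset.sum_congr rfl fun j _ => Finset.sum_congr rfl fun l _ => by ring

theorem vec_mem {M : Fl} {w : Fin n → ℂ} (hw : ∀ l, w l ∈ M) {b : Fin r → Fin n → ℂ}
    (hb : ∀ j l, b j l ∈ M) {c : Fin r → ℂ} (hc : ∀ j, c j ∈ M) (l : Fin n) :
    vec w b c l ∈ M :=
  M.add_mem (hw l) (M.sum_mem fun j _ => M.mul_mem (hc j) (hb j l))

end

section

variable {m r : ℕ} {F : Fin m → MvPolynomial (Fin (r + 3)) ℂ} {d : Fin m → ℕ} {K : Fl}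

theorem sec_alg (hX : Sfc0 F d K) {M : Fl} [Countable M] (hKM : K ≤ M) {w : Fin (r + 3) → ℂ}
    (hw : ∀ l, w l ∈ M) {b : Fin r → Fin (r + 3) → ℂ} (hb : ∀ j l, b j l ∈ M)
    {c : Fin r → ℂ} (hne : vec w b c ≠ 0) (hT : Tr F (vec w b c) b)
    (hc : c ∈ SecC F w b) : ∀ j, c j ∈ clo M := by
  obtain ⟨I, -, hI, -⟩ := hX.exists_loc (z := vec w b c) ⟨hne, hc⟩
  exact alg_of_jac (F := fun j => F (I j)) (fun j => (hX.coef (I j)).mono hKM) hw hb (fun _ => rfl)
    (fun j => hc (I j)) (det_of_tr hI hT)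

/-- the points of a transversal section over a field form a family -/
theorem sec_isFam (hX : Sfc0 F d K) {E : Fl} [Countable E] {u : ℂ} (hKE : K ≤ E)
    {w : Fin (r + 3) → ℂ} (hw : ∀ l, w l ∈ adj E {u}) {b : Fin r → Fin (r + 3) → ℂ}
    (hb : ∀ j l, b j l ∈ E) (hne : ∀ c, vec w b c ≠ 0)
    (hT : ∀ c ∈ SecC F w b, Tr F (vec w b c) b) :
    IsFam E u ((secC_finite hT).toFinset.val.map fun c => mkP (vec w b c)) := by
  classical
  have hbM : ∀ j l, b j l ∈ adj E {u} := fun j l => le_adj _ _ (hb j l)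
  have hFE : ∀ i, Coef E (F i) := fun i => (hX.coef i).mono hKE
  refine ⟨fun p hp => ?_, fun σ hσ => ?_⟩
  · obtain ⟨c, hc, rfl⟩ := Multiset.mem_map.1 hp
    rw [Finset.mem_val, Set.Finite.mem_toFinset] at hc
    have h1 := sec_alg hX (M := adj E {u}) (hKE.trans (le_adj _ _)) hw hbM (hne c) (hT c hc) hc
    rw [mkP_eq (hne c)]
    exact ⟨_, _, vec_mem (fun l => le_clo _ (hw l)) (fun j l => le_clo _ (hbM j l)) h1, rfl⟩
  · have hact : ∀ c, act σ (mkP (vec w b c)) = mkP (vec w b fun j => σ (c j)) := by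
      intro c
      rw [act_mkP]
      congr 1
      funext l
      unfold vec
      rw [map_add, map_sum, hσ _ (hw l)]
      congr 1
      exact Finset.sum_congr rfl fun j _ => by rw [map_mul, hσ _ (hbM j l)]
    have hmem : ∀ τ ∈ VGS.Fix (adj E {u}), ∀ c ∈ SecC F w b, (fun j => τ (c j)) ∈ SecC F w b := by
      intro τ hτ c hc i
      have h1 : vec w b (fun j => τ (c j)) = fun l => τ (vec w b c l) := by
        funext l
        unfold vec
        rw [map_add, map_sum, hτ _ (hw l)]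
        congr 1
        exact Finset.sum_congr rfl fun j _ => by rw [map_mul, hτ _ (hbM j l)]
      rw [h1, aeval_fix ((hFE i).mono (le_adj _ _)) hτ, hc i, map_zero]
    rw [Multiset.map_map]
    have h1 : (act σ ∘ fun c => mkP (vec w b c)) =
        (fun c => mkP (vec w b c)) ∘ fun (c : Fin r → ℂ) j => σ (c j) := funext fun c => hact c
    rw [h1, ← Multiset.map_map]
    congr 1
    refine (Multiset.Nodup.ext ((Finset.nodup _).map ?_) (Finset.nodup _)).2 fun c => ?_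
    · intro c c₁ h
      funext j
      exact σ.injective (congrFun h j)
    · rw [Multiset.mem_map]
      constructor
      · rintro ⟨c', hc', rfl⟩
        rw [Finset.mem_val, Set.Finite.mem_toFinset] at hc' ⊢
        exact hmem σ hσ c' hc'
      · intro hc
        rw [Finset.mem_val, Set.Finite.mem_toFinset] at hc
        refine ⟨fun j => σ⁻¹ (c j), ?_, ?_⟩
        · rw [Finset.mem_val, Set.Finite.mem_toFinset]
          exact hmem σ⁻¹ ((VGS.Fix _).inv_mem hσ) c hc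
        · funext j
          exact σ.apply_symm_apply _

/-- the limit of the family of the sections in a pencil, as a multiset -/
theorem pen_end_ms (hX : Sfc0 F d K) {E : Fl} [Countable E] (hKE : K ≤ E) {w₀ w₁ : Fin (r + 3) → ℂ}
    (hw₀ : ∀ l, w₀ l ∈ E) (hw₁ : ∀ l, w₁ l ∈ E) {b : Fin r → Fin (r + 3) → ℂ} (hb : ∀ j l, b j l ∈ E)
    {u : ℂ} (hu : u ∉ clo E) {w : Fin (r + 3) → ℂ} (hw : ∀ l, w l = w₀ l + u * (w₁ l - w₀ l))
    (hne₀ : ∀ c, vec w₀ b c ≠ 0) (hne : ∀ c, vec w b c ≠ 0)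
    (hT₀ : ∀ c ∈ SecC F w₀ b, Tr F (vec w₀ b c) b)
    (hT : ∀ c ∈ SecC F w b, Tr F (vec w b c) b)
    {V : ValuationSubring ℂ} (hV : IsPl V (clo E)) (hu0 : Sp V (clo E) u 0)
    (hlim : ∀ c ∈ SecC F w b, ∃ c' ∈ SecC F w₀ b, ∀ j, Sp V (clo E) (c j) (c' j))
    {f : PN (r + 3) → PN (r + 3)} (hf : ∀ p ∈ (secC_finite hT).toFinset.val.map fun c => mkP (vec w b c),
      SpP V (clo E) p (f p)) :
    ((secC_finite hT).toFinset.val.map fun c => mkP (vec w b c)).map f =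
      (secC_finite hT₀).toFinset.val.map fun c => mkP (vec w₀ b c) := by
  classical
  have hC : clo (clo E) = clo E := clo_clo E
  have hFE : ∀ i, Coef E (F i) := fun i => (hX.coef i).mono hKE
  have hFC : ∀ i, Coef (clo E) (F i) := fun i => (hFE i).mono (le_clo E)
  have hbC : ∀ j l, b j l ∈ clo E := fun j l => le_clo _ (hb j l)
  have hwu : ∀ l, w l ∈ adj E {u} := fun l => by
    rw [hw l]
    exact add_mem (le_adj _ _ (hw₀ l)) (mul_mem (subset_adj _ _ rfl)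
      (le_adj _ _ (sub_mem (hw₁ l) (hw₀ l))))
  have hwV : ∀ {V' : ValuationSubring ℂ}, IsPl V' (clo E) → Sp V' (clo E) u 0 →
      ∀ l, Sp V' (clo E) (w l) (w₀ l) := by
    intro V' hV' h0 l
    have h1 := (Sp.const hV' (le_clo E (hw₀ l))).add hV'
      (h0.mul hV' (Sp.const hV' (le_clo E (sub_mem (hw₁ l) (hw₀ l)))))
    rwa [zero_mul, add_zero, ← hw l] at h1
  have hfam := sec_isFam hX hKE hwu hb hne hT
  obtain ⟨S, hS⟩ : ∃ S : Multiset (PN (r + 3)),
      S = (secC_finite hT).toFinset.val.map fun c => mkP (vec w b c) := ⟨_, rfl⟩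
  rw [← hS] at hf hfam ⊢
  have hSmem : ∀ c ∈ SecC F w b, mkP (vec w b c) ∈ S := by
    intro c hc
    rw [hS]
    exact Multiset.mem_map_of_mem _ ((secC_finite hT).mem_toFinset.2 hc)
  have hspp : ∀ {V' : ValuationSubring ℂ}, ∀ c ∈ SecC F w b, ∀ c' ∈ SecC F w₀ b,
      (∀ l, Sp V' (clo E) (vec w b c l) (vec w₀ b c' l)) →
      SpP V' (clo E) (mkP (vec w b c)) (mkP (vec w₀ b c')) := by
    intro V' c _ c' _ h
    rw [mkP_eq (hne c), mkP_eq (hne₀ c')]
    exact ⟨_, _, _, _, rfl, rfl, h⟩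
  choose! e he he' using hlim
  have hfe : ∀ c ∈ SecC F w b, f (mkP (vec w b c)) = mkP (vec w₀ b (e c)) := fun c hc =>
    SpP.unique hV (hf _ (hSmem c hc)) (hspp c hc _ (he c hc)
      (vec_sp hV (hwV hV hu0) hbC (he' c hc)))
  have hSf : S.map f = ((secC_finite hT).toFinset.val.map e).map
      (fun c => mkP (vec w₀ b c)) := by
    rw [hS, Multiset.map_map, Multiset.map_map]
    refine Multiset.map_congr rfl fun c hc => ?_
    rw [Finset.mem_val, Set.Finite.mem_toFinset] at hc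
    exact hfe c hc
  have hsurj : ∀ c' ∈ SecC F w₀ b, mkP (vec w₀ b c') ∈ S.map f := by
    intro c' hc'
    have hc'C := sec_alg hX hKE hw₀ hb (hne₀ c') (hT₀ c' hc') hc'
    have hqC : ∀ l, vec w₀ b c' l ∈ clo E := vec_mem (fun l => le_clo _ (hw₀ l)) hbC hc'C
    obtain ⟨I, -, hI, hI'⟩ := hX.exists_loc (z := vec w₀ b c') ⟨hne₀ c', hc'⟩
    obtain ⟨V₁, u₁, c₁, y, hV₁, hu₁, hu₁C, hy, hyF₀, hyeq, -⟩ := exists_branch hC
      (F := fun j => F (I j)) (fun j => hFC (I j)) hqC (fun l => le_clo _ (hw₁ l)) hbC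
      (fun j => hc' (I j)) (det_of_tr hI (hT₀ c' hc'))
    have hyF := hI' (clo E) V₁ (clo_mono hKE) hV₁ y hy hyF₀
    obtain ⟨τ, hτ, hτu⟩ := exists_extend (clo E) hC 1 (fun x => Iff.rfl) hu₁C hu
    have hτC : ∀ x ∈ clo E, τ x = x := fun x hx => hτ x hx
    have hτE : τ ∈ VGS.Fix E := fun x hx => hτC x (le_clo E hx)
    obtain ⟨V₂, hV₂, hSp, -⟩ := exists_transport (n := r + 3) hV₁ τ (fun x => fix_mem_clo hτE)
    have hu₂ : Sp V₂ (clo E) u 0 := by
      have h1 := (hSp u₁ 0).2 hu₁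
      rwa [hτu, map_zero] at h1
    have hex : ∀ p ∈ S, ∃ p', SpP V₂ (clo E) p p' := fun p hp =>
      exists_spP hC hV₂ hu hu₂ ((hfam.isOver p hp).mono (clo_mono
        (adj_le ((le_clo E).trans (le_adj _ _)) (subset_adj _ _))))
    choose! g hg using hex
    rw [unique_ms hu hfam hV hV₂ hu0 hu₂ hf hg]
    have hyv : (fun l => τ (y l)) = vec w b (fun j => τ ((1 - u₁) * c' j + c₁ j)) := by
      funext l
      have h1 : y l = w₀ l + u₁ * (w₁ l - w₀ l) + ∑ j, ((1 - u₁) * c' j + c₁ j) * b j l := by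
        have h2 : ∑ j, ((1 - u₁) * c' j + c₁ j) * b j l =
            (1 - u₁) * ∑ j, c' j * b j l + ∑ j, c₁ j * b j l := by
          rw [Finset.mul_sum, ← Finset.sum_add_distrib]
          exact Finset.sum_congr rfl fun j _ => by ring
        rw [hyeq l, h2]
        unfold vec
        ring
      unfold vec
      rw [h1, hw l, map_add, map_add, map_mul, map_sum, hτC _ (le_clo _ (hw₀ l)), hτu,
        hτC _ (le_clo _ (sub_mem (hw₁ l) (hw₀ l)))]
      congr 1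
      exact Finset.sum_congr rfl fun j _ => by rw [map_mul, hτC _ (hbC j l)]
    have hmem : (fun j => τ ((1 - u₁) * c' j + c₁ j)) ∈ SecC F w b := by
      intro i
      rw [← hyv, aeval_fix (hFE i) hτE, hyF i, map_zero]
    refine Multiset.mem_map.2 ⟨_, hSmem _ hmem, SpP.unique hV₂ (hg _ (hSmem _ hmem))
      (hspp _ hmem _ hc' fun l => ?_)⟩
    have h3 := (hSp _ _).2 (hy l)
    rw [hτC _ (hqC l)] at h3
    rw [← hyv]
    exact h3
  have hTe : (secC_finite hT).toFinset.val.map e = (secC_finite hT₀).toFinset.val := by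
    refine (Multiset.Nodup.ext (Multiset.Nodup.map_on ?_ (Finset.nodup _))
      (Finset.nodup _)).2 fun c' => ?_
    · intro c hc c₁ hc₁ h
      rw [Finset.mem_val, Set.Finite.mem_toFinset] at hc hc₁
      exact lim_inj hV hFC (hwV hV hu0) hbC (he' c hc) (h ▸ he' c₁ hc₁) hc hc₁
        (hT₀ _ (he c hc))
    · rw [Multiset.mem_map, Finset.mem_val, Set.Finite.mem_toFinset]
      constructor
      · rintro ⟨c, hc, rfl⟩
        rw [Finset.mem_val, Set.Finite.mem_toFinset] at hc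
        exact he c hc
      · intro hc'
        have h1 := hsurj c' hc'
        rw [hSf, Multiset.map_map, Multiset.mem_map] at h1
        obtain ⟨c, hc, h2⟩ := h1
        exact ⟨c, hc, (sec_inj hne₀ hT₀ hc' h2.symm).symm⟩
  rw [hSf, hTe]

/-- the limit of the family of the sections in a pencil -/
theorem pen_end (hX : Sfc0 F d K) {E : Fl} [Countable E] (hKE : K ≤ E) {w₀ w₁ : Fin (r + 3) → ℂ}
    (hw₀ : ∀ l, w₀ l ∈ E) (hw₁ : ∀ l, w₁ l ∈ E) {b : Fin r → Fin (r + 3) → ℂ} (hb : ∀ j l, b j l ∈ E)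
    {u : ℂ} (hu : u ∉ clo E) {w : Fin (r + 3) → ℂ} (hw : ∀ l, w l = w₀ l + u * (w₁ l - w₀ l))
    (hne₀ : ∀ c, vec w₀ b c ≠ 0) (hne : ∀ c, vec w b c ≠ 0)
    (hT₀ : ∀ c ∈ SecC F w₀ b, Tr F (vec w₀ b c) b)
    (hT : ∀ c ∈ SecC F w b, Tr F (vec w b c) b)
    {V : ValuationSubring ℂ} (hV : IsPl V (clo E)) (hu0 : Sp V (clo E) u 0)
    (hlim : ∀ c ∈ SecC F w b, ∃ c' ∈ SecC F w₀ b, ∀ j, Sp V (clo E) (c j) (c' j))
    {f : PN (r + 3) → PN (r + 3)} (hf : ∀ p ∈ (secC_finite hT).toFinset.val.map fun c => mkP (vec w b c),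
      SpP V (clo E) p (f p)) :
    cycQ (((secC_finite hT).toFinset.val.map fun c => mkP (vec w b c)).map f) =
      secCy F w₀ b := by
  rw [pen_end_ms hX hKE hw₀ hw₁ hb hu hw hne₀ hne hT₀ hT hV hu0 hlim hf]
  unfold cycQ secCy
  rw [Multiset.map_map, finsum_mem_eq_finite_toFinset_sum _ (secC_finite hT₀)]
  rfl

/-- the sections of a pencil have the same number of points -/
theorem pen_ncard (hX : Sfc0 F d K) {E : Fl} [Countable E] (hKE : K ≤ E) {w₀ w₁ : Fin (r + 3) → ℂ}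
    (hw₀ : ∀ l, w₀ l ∈ E) (hw₁ : ∀ l, w₁ l ∈ E) {b : Fin r → Fin (r + 3) → ℂ} (hb : ∀ j l, b j l ∈ E)
    {u : ℂ} (hu : u ∉ clo E) {w : Fin (r + 3) → ℂ} (hw : ∀ l, w l = w₀ l + u * (w₁ l - w₀ l))
    (hne₀ : ∀ c, vec w₀ b c ≠ 0) (hne : ∀ c, vec w b c ≠ 0)
    (hT₀ : ∀ c ∈ SecC F w₀ b, Tr F (vec w₀ b c) b)
    (hT : ∀ c ∈ SecC F w b, Tr F (vec w b c) b)
    {V : ValuationSubring ℂ} (hV : IsPl V (clo E)) (hu0 : Sp V (clo E) u 0)
    (hlim : ∀ c ∈ SecC F w b, ∃ c' ∈ SecC F w₀ b, ∀ j, Sp V (clo E) (c j) (c' j)) :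
    (SecC F w b).ncard = (SecC F w₀ b).ncard := by
  have hwu : ∀ l, w l ∈ adj E {u} := fun l => by
    rw [hw l]
    exact add_mem (le_adj _ _ (hw₀ l)) (mul_mem (subset_adj _ _ rfl)
      (le_adj _ _ (sub_mem (hw₁ l) (hw₀ l))))
  have hfam := sec_isFam hX hKE hwu hb hne hT
  have hex : ∀ p ∈ (secC_finite hT).toFinset.val.map fun c => mkP (vec w b c),
      ∃ p', SpP V (clo E) p p' := fun p hp =>
    exists_spP (clo_clo E) hV hu hu0 ((hfam.isOver p hp).mono (clo_mono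
      (adj_le ((le_clo E).trans (le_adj _ _)) (subset_adj _ _))))
  choose! f hf using hex
  have h := congrArg Multiset.card
    (pen_end_ms hX hKE hw₀ hw₁ hb hu hw hne₀ hne hT₀ hT hV hu0 hlim hf)
  rw [Multiset.card_map, Multiset.card_map, Multiset.card_map] at h
  rw [Set.ncard_eq_toFinset_card _ (secC_finite hT), Set.ncard_eq_toFinset_card _
    (secC_finite hT₀)]
  exact h

/-- the vectors of a generic section are not zero -/
theorem vec_ne0 {E : Fl} {b₀ : Fin (r + 3) → ℂ} {b : Fin r → Fin (r + 3) → ℂ}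
    (hb : AlgebraicIndependent E (Sum.elim b₀ fun jl : Fin r × Fin (r + 3) => b jl.1 jl.2))
    (c : Fin r → ℂ) : vec b₀ b c ≠ 0 := by
  have h1 := ai_sum.1 hb
  refine vec_ne (by omega) (L := adj E (Set.range b₀)) (fun l => subset_adj _ _ ⟨l, rfl⟩)
    (fun h => ?_) h1.2 c
  have h2 := h1.1.ne_zero (0 : Fin (r + 3))
  rw [h] at h2
  exact h2 rfl

/-- the pencil from `x` to `b₀`: a family with limits `X ∩ ⟨x, b⟩` and `X ∩ ⟨b₀, b⟩` -/
theorem pen_fam (hX : Sfc F d K) (E : Fl) [Countable E] (hE : clo E = E) (hKE : K ≤ E)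
    {x : Fin (r + 3) → ℂ} (hx : ∀ l, x l ∈ E) (hxF : x ∈ cone F)
    {b₀ : Fin (r + 3) → ℂ} {b : Fin r → Fin (r + 3) → ℂ}
    (hb : AlgebraicIndependent E (Sum.elim b₀ fun jl : Fin r × Fin (r + 3) => b jl.1 jl.2))
    (E' : Fl) (hE' : E' = adj (adj E (Set.range b₀))
      (Set.range fun jl : Fin r × Fin (r + 3) => b jl.1 jl.2)) :
    ∃ (u : ℂ) (S : Multiset (PN (r + 3))) (V₀ V₁ : ValuationSubring ℂ)
      (f g : PN (r + 3) → PN (r + 3)), u ∉ clo E' ∧ IsFam E' u S ∧ (∀ p ∈ S, p ∈ Gen E F) ∧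
      IsPl V₀ (clo E') ∧ IsPl V₁ (clo E') ∧ Sp V₀ (clo E') u 0 ∧ Sp V₁ (clo E') u 1 ∧
      (∀ p ∈ S, SpP V₀ (clo E') p (f p)) ∧ (∀ p ∈ S, SpP V₁ (clo E') p (g p)) ∧
      cycQ (S.map f) = secCy F x b ∧ cycQ (S.map g) = secCy F b₀ b := by
  classical
  have hcE' : Countable E' := by
    rw [hE']
    have h1 : Countable (Set.range b₀) := (Set.countable_range _).to_subtype
    have h2 : Countable (Set.range fun jl : Fin r × Fin (r + 3) => b jl.1 jl.2) :=
      (Set.countable_range _).to_subtype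
    infer_instance
  have hEE' : E ≤ E' := by
    rw [hE']
    exact (le_adj _ _).trans (le_adj _ _)
  have hb₀E : ∀ l, b₀ l ∈ E' := fun l => by
    rw [hE']
    exact le_adj _ _ (subset_adj _ _ ⟨l, rfl⟩)
  have hbE : ∀ j l, b j l ∈ E' := fun j l => by
    rw [hE']
    exact subset_adj _ _ ⟨(j, l), rfl⟩
  have hxE : ∀ l, x l ∈ E' := fun l => hEE' (hx l)
  have hX0 : Sfc0 F d K := hX.toSfc0
  have hKE' : K ≤ E' := hKE.trans hEE'
  obtain ⟨u, hu⟩ := exists_notMem (clo E')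
  obtain ⟨w, hw⟩ : ∃ w : Fin (r + 3) → ℂ, ∀ l, w l = x l + u * (b₀ l - x l) := ⟨_, fun _ => rfl⟩
  have hbb : AlgebraicIndependent E (fun jl : Fin r × Fin (r + 3) => b jl.1 jl.2) :=
    ai_mono (le_adj _ _) (ai_sum.1 hb).2
  have hwb : AlgebraicIndependent E
      (Sum.elim w fun jl : Fin r × Fin (r + 3) => b jl.1 jl.2) := by
    refine pen_ai hx hb (fun h => hu (clo_mono (adj_le hEE' ?_) h)) hw
    rintro _ ⟨(l | jl), rfl⟩
    · exact hb₀E l
    · exact hbE jl.1 jl.2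
  have hT : ∀ c ∈ SecC F w b, Tr F (vec w b c) b := fun c hc => sec_tra0 hX E hE hKE hwb hc
  have hTx : ∀ c ∈ SecC F x b, Tr F (vec x b c) b := fun c hc =>
    sec_tra hX E hE hKE hx hxF hbb hc
  have hTb : ∀ c ∈ SecC F b₀ b, Tr F (vec b₀ b c) b := fun c hc => sec_tra0 hX E hE hKE hb hc
  have hnx : ∀ c, vec x b c ≠ 0 := vec_ne (by omega) hx hxF.1 hbb
  have hnb : ∀ c, vec b₀ b c ≠ 0 := vec_ne0 hb
  have hnw : ∀ c, vec w b c ≠ 0 := vec_ne0 hwb
  have hwu : ∀ l, w l ∈ adj E' {u} := fun l => by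
    rw [hw l]
    exact add_mem (le_adj _ _ (hxE l)) (mul_mem (subset_adj _ _ rfl)
      (le_adj _ _ (sub_mem (hb₀E l) (hxE l))))
  have hfam := sec_isFam hX0 hKE' hwu hbE hnw hT
  obtain ⟨V₀, hV₀, hu₀⟩ := exists_place (clo_clo E') hu (zero_mem (clo E'))
  obtain ⟨V₁, hV₁, hu₁⟩ := exists_place (clo_clo E') hu (one_mem (clo E'))
  have hle : clo (adj E' {u}) ≤ clo (adj (clo E') {u}) :=
    clo_mono (adj_le ((le_clo E').trans (le_adj _ _)) (subset_adj _ _))
  have hex₀ : ∀ p ∈ (secC_finite hT).toFinset.val.map fun c => mkP (vec w b c),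
      ∃ p', SpP V₀ (clo E') p p' := fun p hp =>
    exists_spP (clo_clo E') hV₀ hu hu₀ ((hfam.isOver p hp).mono hle)
  have hex₁ : ∀ p ∈ (secC_finite hT).toFinset.val.map fun c => mkP (vec w b c),
      ∃ p', SpP V₁ (clo E') p p' := fun p hp =>
    exists_spP (clo_clo E') hV₁ hu hu₁ ((hfam.isOver p hp).mono hle)
  choose! f hf using hex₀
  choose! g hg using hex₁
  have hcu : ∀ c ∈ SecC F w b, ∀ j, c j ∈ clo (adj (clo E') {u}) := fun c hc j =>
    hle (sec_alg hX0 (M := adj E' {u}) (hKE'.trans (le_adj _ _)) hwu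
      (fun j l => le_adj _ _ (hbE j l)) (hnw c) (hT c hc) hc j)
  refine ⟨u, _, V₀, V₁, f, g, hu, hfam, ?_, hV₀, hV₁, hu₀, hu₁, hf, hg, ?_, ?_⟩
  · intro p hp
    obtain ⟨c, hc, rfl⟩ := Multiset.mem_map.1 hp
    rw [Finset.mem_val, Set.Finite.mem_toFinset] at hc
    exact sec_gen0 hX E hE hKE hwb hc
  · refine pen_end hX0 hKE' hxE hb₀E hbE hu hw hnx hnw hTx hT hV₀ hu₀ (fun c hc => ?_) hf
    refine lim_ex hX E hKE hbb (clo_clo E') (hEE'.trans (le_clo E'))
      (fun j l => le_clo _ (hbE j l)) hV₀ hu hu₀ (fun l => ?_) hc (hcu c hc)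
    have h1 := (Sp.const hV₀ (le_clo E' (hxE l))).add hV₀
      (hu₀.mul hV₀ (Sp.const hV₀ (le_clo E' (sub_mem (hb₀E l) (hxE l)))))
    rwa [zero_mul, add_zero, ← hw l] at h1
  · have hu' : 1 - u ∉ clo E' := fun h => hu (by
      have h1 := sub_mem (one_mem (clo E')) h
      rwa [sub_sub_cancel] at h1)
    have hw' : ∀ l, w l = b₀ l + (1 - u) * (x l - b₀ l) := fun l => by
      rw [hw l]
      ring
    have hu₁' : Sp V₁ (clo E') (1 - u) 0 := by
      have h1 := (Sp.const hV₁ (one_mem (clo E'))).sub hV₁ hu₁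
      rwa [sub_self] at h1
    refine pen_end hX0 hKE' hb₀E hxE hbE hu' hw' hnb hnw hTb hT hV₁ hu₁' (fun c hc => ?_) hg
    refine lim_ex hX E hKE hbb (clo_clo E') (hEE'.trans (le_clo E'))
      (fun j l => le_clo _ (hbE j l)) hV₁ hu hu₁ (fun l => ?_) hc (hcu c hc)
    have h1 := (Sp.const hV₁ (le_clo E' (hb₀E l))).add hV₁
      (hu₁'.mul hV₁ (Sp.const hV₁ (le_clo E' (sub_mem (hxE l) (hb₀E l)))))
    rwa [zero_mul, add_zero, ← hw' l] at h1

/-- `X ∩ ⟨x, b⟩` and `X ∩ ⟨b₀, b⟩` have the same number of points -/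
theorem pen_card (hX : Sfc F d K) (E : Fl) [Countable E] (hE : clo E = E) (hKE : K ≤ E)
    {x : Fin (r + 3) → ℂ} (hx : ∀ l, x l ∈ E) (hxF : x ∈ cone F)
    {b₀ : Fin (r + 3) → ℂ} {b : Fin r → Fin (r + 3) → ℂ}
    (hb : AlgebraicIndependent E (Sum.elim b₀ fun jl : Fin r × Fin (r + 3) => b jl.1 jl.2)) :
    (SecC F x b).ncard = (SecC F b₀ b).ncard := by
  classical
  obtain ⟨E', hE'⟩ : ∃ E' : Fl, E' = adj (adj E (Set.range b₀))
      (Set.range fun jl : Fin r × Fin (r + 3) => b jl.1 jl.2) := ⟨_, rfl⟩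
  have hcE' : Countable E' := by
    rw [hE']
    have h1 : Countable (Set.range b₀) := (Set.countable_range _).to_subtype
    have h2 : Countable (Set.range fun jl : Fin r × Fin (r + 3) => b jl.1 jl.2) :=
      (Set.countable_range _).to_subtype
    infer_instance
  have hEE' : E ≤ E' := by
    rw [hE']
    exact (le_adj _ _).trans (le_adj _ _)
  have hb₀E : ∀ l, b₀ l ∈ E' := fun l => by
    rw [hE']
    exact le_adj _ _ (subset_adj _ _ ⟨l, rfl⟩)
  have hbE : ∀ j l, b j l ∈ E' := fun j l => by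
    rw [hE']
    exact subset_adj _ _ ⟨(j, l), rfl⟩
  have hxE : ∀ l, x l ∈ E' := fun l => hEE' (hx l)
  have hX0 : Sfc0 F d K := hX.toSfc0
  have hKE' : K ≤ E' := hKE.trans hEE'
  obtain ⟨u, hu⟩ := exists_notMem (clo E')
  obtain ⟨w, hw⟩ : ∃ w : Fin (r + 3) → ℂ, ∀ l, w l = x l + u * (b₀ l - x l) := ⟨_, fun _ => rfl⟩
  have hbb : AlgebraicIndependent E (fun jl : Fin r × Fin (r + 3) => b jl.1 jl.2) :=
    ai_mono (le_adj _ _) (ai_sum.1 hb).2
  have hwb : AlgebraicIndependent E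
      (Sum.elim w fun jl : Fin r × Fin (r + 3) => b jl.1 jl.2) := by
    refine pen_ai hx hb (fun h => hu (clo_mono (adj_le hEE' ?_) h)) hw
    rintro _ ⟨(l | jl), rfl⟩
    · exact hb₀E l
    · exact hbE jl.1 jl.2
  have hT : ∀ c ∈ SecC F w b, Tr F (vec w b c) b := fun c hc => sec_tra0 hX E hE hKE hwb hc
  have hTx : ∀ c ∈ SecC F x b, Tr F (vec x b c) b := fun c hc =>
    sec_tra hX E hE hKE hx hxF hbb hc
  have hTb : ∀ c ∈ SecC F b₀ b, Tr F (vec b₀ b c) b := fun c hc => sec_tra0 hX E hE hKE hb hc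
  have hnx : ∀ c, vec x b c ≠ 0 := vec_ne (by omega) hx hxF.1 hbb
  have hnb : ∀ c, vec b₀ b c ≠ 0 := vec_ne0 hb
  have hnw : ∀ c, vec w b c ≠ 0 := vec_ne0 hwb
  have hwu : ∀ l, w l ∈ adj E' {u} := fun l => by
    rw [hw l]
    exact add_mem (le_adj _ _ (hxE l)) (mul_mem (subset_adj _ _ rfl)
      (le_adj _ _ (sub_mem (hb₀E l) (hxE l))))
  have hle : clo (adj E' {u}) ≤ clo (adj (clo E') {u}) :=
    clo_mono (adj_le ((le_clo E').trans (le_adj _ _)) (subset_adj _ _))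
  have hcu : ∀ c ∈ SecC F w b, ∀ j, c j ∈ clo (adj (clo E') {u}) := fun c hc j =>
    hle (sec_alg hX0 (M := adj E' {u}) (hKE'.trans (le_adj _ _)) hwu
      (fun j l => le_adj _ _ (hbE j l)) (hnw c) (hT c hc) hc j)
  have hend : ∀ (V : ValuationSubring ℂ) (u₀ : ℂ), IsPl V (clo E') → Sp V (clo E') u u₀ →
      ∀ w' : Fin (r + 3) → ℂ, (∀ l, Sp V (clo E') (w l) (w' l)) → ∀ c ∈ SecC F w b,
        ∃ c' ∈ SecC F w' b, ∀ j, Sp V (clo E') (c j) (c' j) := fun V u₀ hV hu₀ w' hw' c hc =>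
    lim_ex hX E hKE hbb (clo_clo E') (hEE'.trans (le_clo E'))
      (fun j l => le_clo _ (hbE j l)) hV hu hu₀ hw' hc (hcu c hc)
  obtain ⟨V₀, hV₀, hu₀⟩ := exists_place (clo_clo E') hu (zero_mem (clo E'))
  obtain ⟨V₁, hV₁, hu₁⟩ := exists_place (clo_clo E') hu (one_mem (clo E'))
  have h1 : (SecC F w b).ncard = (SecC F x b).ncard := by
    refine pen_ncard hX0 hKE' hxE hb₀E hbE hu hw hnx hnw hTx hT hV₀ hu₀
      (hend V₀ 0 hV₀ hu₀ x fun l => ?_)
    have h1 := (Sp.const hV₀ (le_clo E' (hxE l))).add hV₀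
      (hu₀.mul hV₀ (Sp.const hV₀ (le_clo E' (sub_mem (hb₀E l) (hxE l)))))
    rwa [zero_mul, add_zero, ← hw l] at h1
  have h2 : (SecC F w b).ncard = (SecC F b₀ b).ncard := by
    have hu' : 1 - u ∉ clo E' := fun h => hu (by
      have h1 := sub_mem (one_mem (clo E')) h
      rwa [sub_sub_cancel] at h1)
    have hw' : ∀ l, w l = b₀ l + (1 - u) * (x l - b₀ l) := fun l => by
      rw [hw l]
      ring
    have hu₁' : Sp V₁ (clo E') (1 - u) 0 := by
      have h1 := (Sp.const hV₁ (one_mem (clo E'))).sub hV₁ hu₁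
      rwa [sub_self] at h1
    refine pen_ncard hX0 hKE' hb₀E hxE hbE hu' hw' hnb hnw hTb hT hV₁ hu₁'
      (hend V₁ 1 hV₁ hu₁ b₀ fun l => ?_)
    have h1 := (Sp.const hV₁ (le_clo E' (hb₀E l))).add hV₁
      (hu₁'.mul hV₁ (Sp.const hV₁ (le_clo E' (sub_mem (hxE l) (hb₀E l)))))
    rwa [zero_mul, add_zero, ← hw' l] at h1
  rw [← h1, h2]

end

end Pool.Agent.VRC
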