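import Pool.Agent.VRC.RedStep

/-! Surfaces in rationally connected varieties, module Red: the reduction. -/

set_option autoImplicit false

open scoped LinearAlgebra.Projectivization
open MvPolynomial

namespace Pool.Agent.VRC

open Pool.Agent.VGS (Fl adj clo Coef Kills IsPl Sp)
open Pool.Agent.VCI

variable {n s c : ℕ} {Λ : Type} [Fintype Λ] {κ : Fl} {A : Λ → ℂ} {t : Λ → Fin c}
  {S : Λ → MvPolynomial (Fin n) ℂ} {d : Fin (s + c) → ℕ}
  {G : Fin (s + c) → MvPolynomial (Fin n) ℂ}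

/-- Every point of `X` over `clo κ(A)` is, up to rational equivalence, a combination of points with
at most `c` independent coordinates over `κ` and points at which all `S l` of some system
vanish. -/
theorem red (H : Lt κ A t S d G) [NeZero n] {q : Fin n → ℂ} {i₀ : Fin n} (hqi : q i₀ = 1)
    (hqG : q ∈ cone G) (hqE : ∀ j, q j ∈ clo (adj κ (Set.range A))) :
    Orb (adj κ (Set.range A)) (mkP q) ∈ ratQ G ⊔ Submodule.span ℚ
      {x | ∃ (w : Fin n → ℂ) (i : Fin n), w i = 1 ∧ w ∈ cone G ∧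
        (∀ j, w j ∈ clo (adj κ (Set.range A))) ∧ x = Orb (adj κ (Set.range A)) (mkP w) ∧
        (TrLe κ c w ∨ ∃ i, ∀ l, t l = i → aeval w (S l) = 0)} := by
  classical
  obtain ⟨N, hN⟩ : ∃ N, N = (Finset.univ.filter fun l => aeval q (S l) ≠ 0).card := ⟨_, rfl⟩
  induction N using Nat.strong_induction_on generalizing q i₀ with
  | _ N ih =>
    by_cases hS : ∃ i, ∀ l, t l = i → aeval q (S l) = 0
    · exact Submodule.mem_sup_right (Submodule.subset_span ⟨q, i₀, hqi, hqG, hqE, rfl, Or.inr hS⟩)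
    push Not at hS
    obtain ⟨e, y, he, hst, hy, hrat⟩ := red_step H hqi hqG hqE hS
    obtain ⟨Z, hZ⟩ : ∃ Z : Submodule ℚ (Cy n), Z = ratQ G ⊔ Submodule.span ℚ
      {x | ∃ (w : Fin n → ℂ) (i : Fin n), w i = 1 ∧ w ∈ cone G ∧
        (∀ j, w j ∈ clo (adj κ (Set.range A))) ∧ x = Orb (adj κ (Set.range A)) (mkP w) ∧
        (TrLe κ c w ∨ ∃ i, ∀ l, t l = i → aeval w (S l) = 0)} := ⟨_, rfl⟩
    rw [← hZ] at ih ⊢
    have hyZ : y ∈ Z := by
      have h1 := mem_span_orb (adj κ (Set.range A)) y hst (by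
        intro x hx
        obtain ⟨w, i, hwi, hwG, hwE, rfl, -⟩ := hy x hx
        rw [mkP_eq hwG.1, over_mk hwG.1 hwi]
        exact hwE)
      refine Submodule.span_le.2 ?_ h1
      rintro _ ⟨x, hx, rfl⟩
      obtain ⟨w, i, hwi, hwG, hwE, rfl, h2 | ⟨h2, l₀, h3, h4⟩⟩ := hy x hx
      · rw [hZ]
        exact Submodule.mem_sup_right (Submodule.subset_span ⟨w, i, hwi, hwG, hwE, rfl, Or.inl h2⟩)
      · refine ih _ ?_ hwi hwG hwE rfl
        rw [hN]
        refine Finset.card_lt_card ⟨fun l hl => ?_, fun hsub => ?_⟩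
        · rw [Finset.mem_filter] at hl ⊢
          exact ⟨hl.1, h2 l hl.2⟩
        · have h5 := hsub (Finset.mem_filter.2 ⟨Finset.mem_univ l₀, h3⟩)
          exact (Finset.mem_filter.1 h5).2 h4
    have h1 : (e : ℚ) • Orb (adj κ (Set.range A)) (mkP q) ∈ Z := by
      have h2 : (e : ℚ) • Orb (adj κ (Set.range A)) (mkP q) + y ∈ Z := by
        rw [hZ]
        exact Submodule.mem_sup_left hrat
      have h3 := Z.sub_mem h2 hyZ
      rwa [add_sub_cancel_right] at h3
    have h2 := Z.smul_mem ((e : ℚ)⁻¹) h1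
    rwa [smul_smul, inv_mul_cancel₀ (by exact_mod_cast he.ne'), one_smul] at h2

end Pool.Agent.VRC
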