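import Pool.Agent.VRC.SDefs
import Pool.Agent.VCI.Link
import Pool.Agent.VCI.Move
import Pool.Agent.VCI.Trd2

/-! Surfaces in rationally connected varieties: limits of moved points (for RedStep). -/

set_option autoImplicit false

open scoped LinearAlgebra.Projectivization
open MvPolynomial

namespace Pool.Agent.VRC

open Pool.Agent.VGS (Fl adj clo Coef Kills IsPl Sp)
open Pool.Agent.VCI

namespace RedA

variable {n : ℕ} {κ C : Fl} {ι Λ : Type}

theorem aev (P : MvPolynomial ι κ) (z : ι → ℂ) :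
    aeval z (map (algebraMap κ ℂ) P) = (aeval z P : ℂ) := by
  rw [aeval_map_algebraMap]

theorem cmap (P : MvPolynomial ι κ) : Coef κ (map (algebraMap κ ℂ) P) :=
  VGS.coef_iff.2 ⟨P, rfl⟩

theorem inR_ap {q y : ι → ℂ} (h : InR κ q y) (f : MvPolynomial ι κ) (h0 : aeval q f = (0 : ℂ)) :
    aeval y f = (0 : ℂ) := by
  rw [← aev]
  exact h _ (cmap f) (by rw [aev, h0])

theorem inR_of {q y : ι → ℂ}
    (h : ∀ f : MvPolynomial ι κ, aeval q f = (0 : ℂ) → aeval y f = (0 : ℂ)) : InR κ q y := by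
  intro f hf h0
  obtain ⟨f', rfl⟩ := VGS.coef_iff.1 hf
  rw [aev] at h0 ⊢
  exact h f' h0

theorem sp_ap (hκC : κ ≤ C) {V : ValuationSubring ℂ} (hV : IsPl V C) (f : MvPolynomial ι κ)
    {x c : ι → ℂ} (h : ∀ i, Sp V C (x i) (c i)) : Sp V C (aeval x f) (aeval c f) := by
  have h1 := VGS.Sp.aeval hV ((cmap f).mono hκC) h
  rwa [aev, aev] at h1

/-- the moved point is finite if the moved parameters have the old parameters as limits -/
theorem fin_lim (hκC : κ ≤ C) {V : ValuationSubring ℂ} (hV : IsPl V C) {A A'' : Λ → ℂ}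
    (hA : ∀ l, Sp V C (A'' l) (A l)) {q y : ι → ℂ}
    (hq : ∀ i, q i ∈ clo (adj κ (Set.range A))) (h : InR κ (Sum.elim q A) (Sum.elim y A''))
    (i : ι) : y i ∈ V := by
  classical
  by_contra hy
  have hx := hq i
  rw [VGS.mem_clo_adj] at hx
  obtain ⟨R, hR0, hR⟩ := hx
  have hr : ∀ m, ∃ p : MvPolynomial Λ κ, aeval A p = (R.coeff m : ℂ) := by
    intro m
    obtain ⟨b, hb⟩ := R.coeff m
    rw [Algebra.adjoin_range_eq_range_aeval] at hb
    exact hb
  choose p hp using hr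
  obtain ⟨N, hN⟩ : ∃ N, N = R.natDegree := ⟨_, rfl⟩
  obtain ⟨Q, hQ⟩ : ∃ Q : MvPolynomial (ι ⊕ Λ) κ, Q = ∑ m ∈ Finset.range (N + 1),
    rename Sum.inr (p m) * X (Sum.inl i) ^ m := ⟨_, rfl⟩
  have key : ∀ (z : ι → ℂ) (B : Λ → ℂ), (aeval (Sum.elim z B) Q : ℂ) =
      ∑ m ∈ Finset.range (N + 1), aeval B (p m) * z i ^ m := by
    intro z B
    rw [hQ, map_sum]
    refine Finset.sum_congr rfl fun m _ => ?_
    rw [map_mul, map_pow, aeval_X, aeval_rename]
    rfl
  have h1 : (aeval (Sum.elim q A) Q : ℂ) = 0 := by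
    rw [key]
    rw [Polynomial.aeval_eq_sum_range, ← hN] at hR
    rw [← hR]
    refine Finset.sum_congr rfl fun m _ => ?_
    rw [hp]
    rfl
  have h2 := inR_ap h Q h1
  rw [key] at h2
  have hy0 : y i ≠ 0 := by
    intro h3
    apply hy
    rw [h3]
    exact zero_mem V
  have hinv : Sp V C (y i)⁻¹ 0 := by
    refine ⟨zero_mem C, ?_⟩
    rw [sub_zero, pp_lt_one_iff]
    right
    rw [inv_inv]
    exact hy
  have h3 : ∑ m ∈ Finset.range (N + 1), aeval A'' (p m) * (y i)⁻¹ ^ (N - m) = 0 := by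
    have h4 : (∑ m ∈ Finset.range (N + 1), aeval A'' (p m) * y i ^ m) * (y i)⁻¹ ^ N = 0 := by
      rw [h2, zero_mul]
    rw [Finset.sum_mul] at h4
    rw [← h4]
    refine Finset.sum_congr rfl fun m hm => ?_
    have hm' : m ≤ N := by
      rw [Finset.mem_range] at hm
      omega
    obtain ⟨t, rfl⟩ := Nat.exists_eq_add_of_le hm'
    rw [Nat.add_sub_cancel_left, pow_add]
    have h5 : y i ^ m * (y i)⁻¹ ^ m = 1 := by rw [← mul_pow, mul_inv_cancel₀ hy0, one_pow]
    linear_combination -(aeval A'' (p m)) * (y i)⁻¹ ^ t * h5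
  have h4 : Sp V C (∑ m ∈ Finset.range (N + 1), aeval A'' (p m) * (y i)⁻¹ ^ (N - m))
      (∑ m ∈ Finset.range (N + 1), aeval A (p m) * 0 ^ (N - m)) :=
    VGS.Sp.sum hV _ fun m _ => (sp_ap hκC hV _ hA).mul hV (hinv.pow hV _)
  rw [h3] at h4
  have h5 := VGS.Sp.unique hV h4 (VGS.Sp.const hV (zero_mem _))
  rw [Finset.sum_range_succ, Nat.sub_self, pow_zero, mul_one, Finset.sum_eq_zero, zero_add] at h5
  · rw [hp, hN] at h5
    apply hR0
    rw [← Polynomial.leadingCoeff_eq_zero]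
    exact Subtype.ext h5
  · intro m hm
    rw [Finset.mem_range] at hm
    rw [zero_pow (by omega), mul_zero]

/-- the relations of an algebraic point are those of its specialisations -/
theorem inR_symm {A : Λ → ℂ} {q w : ι → ℂ} (hq : ∀ i, q i ∈ clo (adj κ (Set.range A)))
    (h : InR κ (Sum.elim q A) (Sum.elim w A)) : InR κ (Sum.elim w A) (Sum.elim q A) := by
  classical
  refine inR_of fun f hf => ?_
  by_contra hx
  obtain ⟨x, hxd⟩ : ∃ x : ℂ, x = aeval (Sum.elim q A) f := ⟨_, rfl⟩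
  rw [← hxd] at hx
  have hκ : κ ≤ clo (adj κ (Set.range A)) := (VGS.le_adj _ _).trans (VGS.le_clo _)
  have hxC : x ∈ clo (adj κ (Set.range A)) := by
    rw [hxd, ← aev]
    refine VGS.aeval_mem ((cmap f).mono hκ) ?_
    rintro (i | l)
    · exact hq i
    · exact VGS.le_clo _ (VGS.subset_adj _ _ ⟨l, rfl⟩)
  rw [VGS.mem_clo_adj] at hxC
  obtain ⟨R, hR0, hR⟩ := hxC.exists_nonzero_coeff_and_aeval_eq_zero
    (mem_nonZeroDivisors_of_ne_zero hx)
  have hr : ∀ i, ∃ p : MvPolynomial Λ κ, aeval A p = (R.coeff i : ℂ) := by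
    intro i
    obtain ⟨b, hb⟩ := R.coeff i
    rw [Algebra.adjoin_range_eq_range_aeval] at hb
    exact hb
  choose p hp using hr
  obtain ⟨Q, hQ⟩ : ∃ Q : MvPolynomial (ι ⊕ Λ) κ, Q = ∑ m ∈ Finset.range (R.natDegree + 1),
    rename Sum.inr (p m) * f ^ m := ⟨_, rfl⟩
  have key : ∀ z : ι → ℂ, (aeval (Sum.elim z A) Q : ℂ) =
      ∑ m ∈ Finset.range (R.natDegree + 1), (R.coeff m : ℂ) * (aeval (Sum.elim z A) f) ^ m := by
    intro z
    rw [hQ, map_sum]
    refine Finset.sum_congr rfl fun m _ => ?_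
    rw [map_mul, map_pow, aeval_rename, ← hp]
    rfl
  have h1 : (aeval (Sum.elim q A) Q : ℂ) = 0 := by
    rw [key q, ← hxd]
    rw [Polynomial.aeval_eq_sum_range] at hR
    rw [← hR]
    refine Finset.sum_congr rfl fun i _ => ?_
    rfl
  have h2 := inR_ap h Q h1
  rw [key w, Finset.sum_range_succ', hf] at h2
  simp at h2
  exact hR0 h2

/-- algebraic points with the same relations are conjugate -/
theorem conj_of_inR [Countable κ] [Fintype Λ] {A : Λ → ℂ} {q w : Fin n → ℂ}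
    (hq : ∀ i, q i ∈ clo (adj κ (Set.range A)))
    (h : InR κ (Sum.elim q A) (Sum.elim w A)) :
    ∃ σ ∈ VGS.Fix (adj κ (Set.range A)), ∀ i, σ (q i) = w i := by
  have h' := inR_symm hq h
  obtain ⟨e, he⟩ : ∃ e : Fin (n + Fintype.card Λ) ≃ Fin n ⊕ Λ,
    e = finSumFinEquiv.symm.trans (Equiv.sumCongr (Equiv.refl _) (Fintype.equivFin Λ).symm) :=
    ⟨_, rfl⟩
  have key : ∀ {x y : Fin n ⊕ Λ → ℂ}, InR κ x y → ∀ P : MvPolynomial (Fin (n + Fintype.card Λ)) ℂ,
      Coef κ P → aeval (x ∘ e) P = 0 → aeval (y ∘ e) P = 0 := by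
    intro x y hxy P hP h0
    rw [← aeval_rename] at h0 ⊢
    refine hxy _ ?_ h0
    obtain ⟨P', rfl⟩ := VGS.coef_iff.1 hP
    exact VGS.coef_iff.2 ⟨rename e P', by rw [map_rename]⟩
  obtain ⟨σ, hσ, h1⟩ := VGS.exists_fix κ (Sum.elim q A ∘ e) (Sum.elim w A ∘ e)
    fun P hP => ⟨key h P hP, key h' P hP⟩
  have h2 : ∀ x, σ (Sum.elim q A x) = Sum.elim w A x := by
    intro x
    have h3 := h1 (e.symm x)
    simpa using h3
  refine ⟨σ, VGS.mem_Fix_adj.2 ⟨hσ, ?_⟩, fun i => h2 (Sum.inl i)⟩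
  rintro _ ⟨l, rfl⟩
  exact h2 (Sum.inr l)

/-- a value of the parameters at which finitely many polynomials do not vanish -/
theorem exists_gam {M J I : Type} [Fintype I] (P : I → MvPolynomial (M ⊕ J) κ)
    (hP : ∀ i, P i ≠ 0) : ∃ γ : M → κ, ∀ i,
      (aeval (Sum.elim (fun m => MvPolynomial.C (γ m)) X) (P i) : MvPolynomial J κ) ≠ 0 := by
  classical
  have h1 : ∏ i, sumAlgEquiv κ M J (P i) ≠ 0 :=
    Finset.prod_ne_zero_iff.2 fun i _ => by
      rw [Ne, EmbeddingLike.map_eq_zero_iff]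
      exact hP i
  have hinj : Function.Injective (MvPolynomial.C : κ → MvPolynomial J κ) := C_injective J κ
  have hinf : (Set.range (MvPolynomial.C : κ → MvPolynomial J κ)).Infinite := Set.infinite_range_of_injective hinj
  have h2 : ∃ x : M → MvPolynomial J κ, (∀ m, x m ∈ Set.range (MvPolynomial.C : κ → MvPolynomial J κ)) ∧
      eval x (∏ i, sumAlgEquiv κ M J (P i)) ≠ 0 := by
    by_contra hcon
    push Not at hcon
    apply h1
    refine MvPolynomial.funext_set (fun _ => Set.range (MvPolynomial.C : κ → MvPolynomial J κ))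
      (fun _ => hinf) ?_
    intro x hx
    beta_reduce
    rw [hcon x fun m => hx m (Set.mem_univ m), map_zero]
  obtain ⟨x, hx, h3⟩ := h2
  choose γ hγ using hx
  refine ⟨γ, fun i => ?_⟩
  rw [map_prod] at h3
  have h4 := Finset.prod_ne_zero_iff.1 h3 i (Finset.mem_univ i)
  have h5 : (eval x (sumAlgEquiv κ M J (P i)) : MvPolynomial J κ) =
      aeval (Sum.elim (fun m => MvPolynomial.C (γ m)) X) (P i) := by
    generalize P i = f
    induction f using MvPolynomial.induction_on with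
    | C a => simp
    | add p q hp hq => rw [map_add, map_add, map_add, hp, hq]
    | mul_X p i hp =>
      rw [map_mul, map_mul, map_mul, hp]
      congr 1
      rcases i with m | j
      · simp [hγ]
      · simp
  rw [← h5]
  exact h4

/-- homogenisation in the second group of variables -/
theorem exists_hmg {M J : Type} (P : MvPolynomial (M ⊕ J) κ) (g : J → ι) (i : ι) (h : M → Λ) :
    ∃ (N : ℕ) (P' : MvPolynomial (ι ⊕ Λ) κ), ∀ (y : ι → ℂ) (a : Λ → ℂ), y i ≠ 0 →
      (aeval (Sum.elim y a) P' : ℂ) =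
        y i ^ N * aeval (Sum.elim (fun m => a (h m)) (fun b => y (g b) / y i)) P := by
  induction P using MvPolynomial.induction_on with
  | C c =>
    refine ⟨0, C c, fun y a _ => ?_⟩
    rw [aeval_C, aeval_C, pow_zero, one_mul]
  | add p q hp hq =>
    obtain ⟨N₁, p', hp'⟩ := hp
    obtain ⟨N₂, q', hq'⟩ := hq
    refine ⟨N₁ + N₂, X (Sum.inl i) ^ N₂ * p' + X (Sum.inl i) ^ N₁ * q', fun y a hy => ?_⟩
    rw [map_add, map_mul, map_mul, map_pow, map_pow, aeval_X, hp' y a hy, hq' y a hy, map_add]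
    change y i ^ N₂ * _ + y i ^ N₁ * _ = _
    ring
  | mul_X p v hp =>
    obtain ⟨N, p', hp'⟩ := hp
    rcases v with m | b
    · refine ⟨N, p' * X (Sum.inr (h m)), fun y a hy => ?_⟩
      rw [map_mul, map_mul, aeval_X, aeval_X, hp' y a hy, mul_assoc]
      rfl
    · refine ⟨N + 1, p' * X (Sum.inl (g b)), fun y a hy => ?_⟩
      rw [map_mul, map_mul, aeval_X, aeval_X, hp' y a hy]
      change _ * y (g b) = y i ^ (N + 1) * (_ * (y (g b) / y i))
      rw [pow_succ]
      have h1 : y i * (y (g b) / y i) = y (g b) := mul_div_cancel₀ _ hy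
      linear_combination (-(y i ^ N) *
        (aeval (Sum.elim (fun m => a (h m)) fun b => y (g b) / y i) p : ℂ)) * h1

end RedA

end Pool.Agent.VRC
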