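import Pool.Agent.VRC.RedA
import Pool.Agent.VRC.MoveK

/-! Surfaces in rationally connected varieties: the moved point of RedStep and its limits. -/

set_option autoImplicit false

open scoped LinearAlgebra.Projectivization
open MvPolynomial

namespace Pool.Agent.VRC

open Pool.Agent.VGS (Fl adj clo Coef Kills IsPl Sp)
open Pool.Agent.VCI

namespace RedA

variable {n s c : ℕ} {Λ : Type} [Fintype Λ] {κ : Fl} {A : Λ → ℂ} {t : Λ → Fin c}
  {S : Λ → MvPolynomial (Fin n) ℂ} {d : Fin (s + c) → ℕ}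
  {G : Fin (s + c) → MvPolynomial (Fin n) ℂ}

theorem coefG (H : Lt κ A t S d G) (i : Fin (s + c)) : Coef (adj κ (Set.range A)) (G i) := by
  classical
  refine Fin.addCases (fun j => (H.coefh j).mono (VGS.le_adj _ _)) (fun j => ?_) i
  rw [H.eq j]
  intro m
  rw [coeff_sum]
  refine sum_mem fun l _ => ?_
  split_ifs
  · rw [coeff_C_mul]
    exact mul_mem (VGS.subset_adj _ _ ⟨l, rfl⟩) (VGS.le_adj _ _ (H.coefS l m))
  · rw [coeff_zero]
    exact zero_mem _

/-- the value of the equation -/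
theorem aevalG (H : Lt κ A t S d G) (z : Fin n → ℂ) (i : Fin c) :
    aeval z (G (Fin.natAdd s i)) = ∑ l, if t l = i then A l * aeval z (S l) else 0 := by
  rw [H.eq i, map_sum]
  refine Finset.sum_congr rfl fun l _ => ?_
  split_ifs
  · rw [map_mul, aeval_C]
    rfl
  · rw [map_zero]

theorem derG (H : Lt κ A t S d G) {q : Fin n → ℂ} (hqG : q ∈ cone G)
    {D : Derivation ℤ ℂ ℂ} (hD : Kills κ D) (i : Fin c)
    (h : ∑ v, aeval q (pderiv v (G (Fin.natAdd s i))) * D (q v) = 0) :
    ∑ l, (if t l = i then aeval q (S l) * D (A l) else 0) = 0 := by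
  have h1 : D (aeval q (G (Fin.natAdd s i))) = 0 := by rw [hqG.2, map_zero]
  rw [aevalG H, map_sum] at h1
  have h2 : ∑ v, aeval q (pderiv v (G (Fin.natAdd s i))) * D (q v) =
      ∑ l, if t l = i then A l * D (aeval q (S l)) else 0 := by
    have h3 : ∀ v, aeval q (pderiv v (G (Fin.natAdd s i))) * D (q v) =
        ∑ l, if t l = i then A l * (aeval q (pderiv v (S l)) * D (q v)) else 0 := by
      intro v
      rw [H.eq i, map_sum, map_sum, Finset.sum_mul]
      refine Finset.sum_congr rfl fun l _ => ?_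
      split_ifs
      · rw [Derivation.leibniz, pderiv_C, smul_zero, add_zero, smul_eq_mul, map_mul, aeval_C]
        change A l * _ * _ = _
        ring
      · rw [map_zero, map_zero, zero_mul]
    simp_rw [h3]
    rw [Finset.sum_comm]
    refine Finset.sum_congr rfl fun l _ => ?_
    split_ifs
    · rw [der_aeval' (H.coefS l) hD, Finset.mul_sum]
    · exact Finset.sum_const_zero
  have h4 : ∑ l, (if t l = i then aeval q (S l) * D (A l) else 0) +
      ∑ l, (if t l = i then A l * D (aeval q (S l)) else 0) = 0 := by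
    rw [← Finset.sum_add_distrib]
    refine Eq.trans (Finset.sum_congr rfl fun l _ => ?_) h1
    split_ifs
    · rw [Derivation.leibniz, smul_eq_mul, smul_eq_mul, add_comm]
    · rw [map_zero, add_zero]
  rwa [← h2, h, add_zero] at h4

/-- the moved point -/
theorem red_move (H : Lt κ A t S d G) {q : Fin n → ℂ} (hqG : q ∈ cone G)
    (hqE : ∀ j, q j ∈ clo (adj κ (Set.range A)))
    (lam : Fin c → Λ) (hlam : ∀ i, t (lam i) = i) (hlS : ∀ i, aeval q (S (lam i)) ≠ 0)
    (γ : {l // ¬ l = lam (t l)} → κ) :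
    ∃ (V : ValuationSubring ℂ) (y : Fin n → ℂ) (A' : Λ → ℂ) (u : ℂ),
      IsPl V (clo (adj κ (Set.range A))) ∧ Sp V (clo (adj κ (Set.range A))) u 0 ∧
      u ∉ clo (adj κ (Set.range A)) ∧ (∀ j, Sp V (clo (adj κ (Set.range A))) (y j) (q j)) ∧
      (∀ j, y j ∈ clo (adj (clo (adj κ (Set.range A))) {u})) ∧
      (∀ l : {l // ¬ l = lam (t l)}, A' l = (1 - u) * A l + u * γ l) ∧
      (∀ i : Fin c, aeval y (G (Fin.natAdd s i)) = 0) ∧
      InR κ (Sum.elim q A) (Sum.elim y A') := by
  classical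
  have hcκ := H.cκ
  have hcA : Countable (Set.range A) := (Set.finite_range A).countable.to_subtype
  obtain ⟨Φ, hΦ⟩ : ∃ Φ : Λ → MvPolynomial (Option (Fin n ⊕ Λ)) ℂ, Φ = fun l =>
    if h : l = lam (t l) then rename (some ∘ Sum.inl) (G (Fin.natAdd s (t l))) else
      X (some (Sum.inr l)) - ((1 - X none) * C (A l) + X none * C (γ ⟨l, h⟩ : ℂ)) := ⟨_, rfl⟩
  have hΦ1 : ∀ l, l = lam (t l) → Φ l = rename (some ∘ Sum.inl) (G (Fin.natAdd s (t l))) := by
    intro l h
    rw [hΦ]
    exact dif_pos h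
  have hΦ2 : ∀ l, ∀ h : ¬ l = lam (t l), Φ l =
      X (some (Sum.inr l)) - ((1 - X none) * C (A l) + X none * C (γ ⟨l, h⟩ : ℂ)) := by
    intro l h
    rw [hΦ]
    exact dif_neg h
  have hAC : ∀ l, A l ∈ clo (adj κ (Set.range A)) := fun l =>
    VGS.le_clo _ (VGS.subset_adj _ _ ⟨l, rfl⟩)
  have hκC : κ ≤ clo (adj κ (Set.range A)) := (VGS.le_adj _ _).trans (VGS.le_clo _)
  have hcoef : ∀ l, Coef (clo (adj κ (Set.range A))) (Φ l) := by
    intro l
    by_cases h : l = lam (t l)
    · rw [hΦ1 l h]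
      obtain ⟨G', hG'⟩ := VGS.coef_iff.1 ((coefG H (Fin.natAdd s (t l))).mono (VGS.le_clo _))
      refine VGS.coef_iff.2 ⟨rename (some ∘ Sum.inl) G', ?_⟩
      rw [map_rename, hG']
    · rw [hΦ2 l h]
      refine VGS.coef_iff.2 ⟨X (some (Sum.inr l)) - ((1 - X none) * C ⟨A l, hAC l⟩ +
        X none * C ⟨(γ ⟨l, h⟩ : ℂ), hκC (γ ⟨l, h⟩).2⟩), ?_⟩
      simp only [map_sub, map_add, map_mul, map_X, map_C, map_one]
      rfl
  have hcomp : ∀ (u : ℂ) (y : Fin n ⊕ Λ → ℂ), (fun o : Option (Fin n ⊕ Λ) => o.elim u y) ∘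
      (some ∘ Sum.inl) = fun j => y (Sum.inl j) := fun u y => rfl
  have h0 : ∀ l, aeval (fun o : Option (Fin n ⊕ Λ) => o.elim 0 (Sum.elim q A)) (Φ l) = 0 := by
    intro l
    by_cases h : l = lam (t l)
    · rw [hΦ1 l h, aeval_rename, hcomp]
      exact hqG.2 _
    · rw [hΦ2 l h]
      simp
  have hJ : ∀ D : Derivation ℤ ℂ ℂ, Kills κ D →
      (∀ l, ∑ i, aeval (fun o : Option (Fin n ⊕ Λ) => o.elim 0 (Sum.elim q A))
        (pderiv (some i) (Φ l)) * D (Sum.elim q A i) = 0) → ∀ l, D (A l) = 0 := by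
    intro D hD hDl
    have h1 : ∀ l, ¬ l = lam (t l) → D (A l) = 0 := by
      intro l h
      have h2 := hDl l
      rw [hΦ2 l h, Finset.sum_eq_single (Sum.inr l)] at h2
      · simpa [Derivation.leibniz, pderiv_X, Pi.single_apply] using h2
      · intro v _ hv
        have h3 : pderiv (some v) (X (some (Sum.inr l)) - ((1 - X none) * C (A l) +
            X none * C (γ ⟨l, h⟩ : ℂ)) : MvPolynomial (Option (Fin n ⊕ Λ)) ℂ) = 0 := by
          simp [Derivation.leibniz, pderiv_X, Ne.symm hv]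
        rw [h3, map_zero, zero_mul]
      · intro h3
        exact absurd (Finset.mem_univ _) h3
    intro l
    by_cases h : l = lam (t l)
    · have h2 := hDl l
      rw [hΦ1 l h] at h2
      have h3 := sum_pderiv_rename (some ∘ Sum.inl : Fin n → Option (Fin n ⊕ Λ))
        (G (Fin.natAdd s (t l))) (fun o : Option (Fin n ⊕ Λ) => o.elim 0 (Sum.elim q A))
        (fun o : Option (Fin n ⊕ Λ) => o.elim 0 fun v => D (Sum.elim q A v))
      rw [Fintype.sum_option] at h3
      change _ * 0 + ∑ v, _ * D (Sum.elim q A v) = _ at h3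
      rw [h2, mul_zero, zero_add, hcomp] at h3
      have h4 := derG H hqG hD (t l) h3.symm
      rw [Finset.sum_eq_single l] at h4
      · rw [if_pos rfl] at h4
        refine (mul_eq_zero.1 h4).resolve_left ?_
        rw [h]
        exact hlS _
      · intro l' _ hl'
        split_ifs with h5
        · rw [h1 l' fun h6 => hl' (by rw [h6, h5, ← h]), mul_zero]
        · rfl
      · intro h5
        exact absurd (Finset.mem_univ _) h5
    · exact h1 l h
  obtain ⟨V, y, u, hV, hu, -, huC, hy, hyC, hyΦ, hR⟩ := moveK κ (clo (adj κ (Set.range A)))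
    (VGS.clo_clo _) hκC A H.ai hAC (Sum.elim q A) (by
      rintro (j | l)
      · exact hqE j
      · exact hAC l) Φ hcoef h0 hJ
  refine ⟨V, fun j => y (Sum.inl j), fun l => y (Sum.inr l), u, hV, hu, huC,
    fun j => hy (Sum.inl j), fun j => hyC (Sum.inl j), ?_, ?_, ?_⟩
  · rintro ⟨l, h⟩
    have h1 := hyΦ l
    rw [hΦ2 l h] at h1
    simp only [map_sub, map_add, map_mul, aeval_X, aeval_C, map_one] at h1
    change y (Sum.inr l) = (1 - u) * A l + u * (γ ⟨l, h⟩ : ℂ)
    have h2 : y (Sum.inr l) - ((1 - u) * A l + u * (γ ⟨l, h⟩ : ℂ)) = 0 := h1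
    exact sub_eq_zero.1 h2
  · intro i
    have h1 := hyΦ (lam i)
    rw [hΦ1 (lam i) (by rw [hlam]), aeval_rename, hcomp, hlam] at h1
    exact h1
  · have h1 : Sum.elim (fun j => y (Sum.inl j)) (fun l => y (Sum.inr l)) = y := by
      funext v
      rcases v with j | l <;> rfl
    rw [h1]
    exact hR

/-! ### the limits -/

/-- the parameters at infinity -/
theorem red_gam {q : Fin n → ℂ}
    (hqE : ∀ j, q j ∈ clo (adj κ (Set.range A)))
    (lam : Fin c → Λ) (hlam : ∀ i, t (lam i) = i) :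
    ∃ γ : {l // ¬ l = lam (t l)} → κ, ∀ (i : Fin n) (f : Fin (c + 1) → Fin n),
      ∃ P : MvPolynomial ({l // ¬ l = lam (t l)} ⊕ Fin (c + 1)) κ,
        aeval (Sum.elim (fun l : {l // ¬ l = lam (t l)} => A l) fun b => q (f b) / q i) P =
          (0 : ℂ) ∧
        (aeval (Sum.elim (fun l => C (γ l)) X) P : MvPolynomial (Fin (c + 1)) κ) ≠ 0 := by
  classical
  have hcard : Nat.card Λ = Nat.card {l // ¬ l = lam (t l)} + c := by
    have e : {l // l = lam (t l)} ≃ Fin c :=
      { toFun := fun l => t l.1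
        invFun := fun i => ⟨lam i, by rw [hlam]⟩
        left_inv := fun l => Subtype.ext l.2.symm
        right_inv := fun i => hlam i }
    have h1 := Fintype.card_congr (Equiv.sumCompl fun l => l = lam (t l))
    rw [Fintype.card_sum, Fintype.card_congr e, Fintype.card_fin] at h1
    rw [Nat.card_eq_fintype_card, Nat.card_eq_fintype_card]
    omega
  have h1 : ∀ x : Fin n × (Fin (c + 1) → Fin n),
      ∃ P : MvPolynomial ({l // ¬ l = lam (t l)} ⊕ Fin (c + 1)) κ, P ≠ 0 ∧
        aeval (Sum.elim (fun l : {l // ¬ l = lam (t l)} => A l) fun b => q (x.2 b) / q x.1) P =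
          (0 : ℂ) := by
    intro x
    have h2 : ¬ AlgebraicIndependent κ
        (Sum.elim (fun l : {l // ¬ l = lam (t l)} => A l) fun b => q (x.2 b) / q x.1) := by
      intro hai
      have h3 := ai_le_card hai (y := A) (by
        rintro (l | b)
        · exact VGS.le_clo _ (VGS.subset_adj _ _ ⟨l.1, rfl⟩)
        · exact div_mem (hqE _) (hqE _))
      rw [hcard, Nat.card_sum, Nat.card_eq_fintype_card (α := Fin (c + 1)), Fintype.card_fin] at h3
      omega
    rw [algebraicIndependent_iff] at h2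
    push Not at h2
    obtain ⟨P, h3, h4⟩ := h2
    exact ⟨P, h4, h3⟩
  choose P hP0 hP using h1
  obtain ⟨γ, hγ⟩ := exists_gam P hP0
  exact ⟨γ, fun i f => ⟨P (i, f), hP (i, f), hγ (i, f)⟩⟩

omit [Fintype Λ] in
/-- the limits at `u → 1` -/
theorem red_lim1 {q : Fin n → ℂ} (lam : Fin c → Λ)
    {γ : {l // ¬ l = lam (t l)} → κ}
    (hγ : ∀ (i : Fin n) (f : Fin (c + 1) → Fin n),
      ∃ P : MvPolynomial ({l // ¬ l = lam (t l)} ⊕ Fin (c + 1)) κ,
        aeval (Sum.elim (fun l : {l // ¬ l = lam (t l)} => A l) fun b => q (f b) / q i) P =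
          (0 : ℂ) ∧
        (aeval (Sum.elim (fun l => C (γ l)) X) P : MvPolynomial (Fin (c + 1)) κ) ≠ 0)
    {Cc : Fl} (hκC : κ ≤ Cc) {V : ValuationSubring ℂ} (hV : IsPl V Cc) {y : Fin n → ℂ}
    {A' : Λ → ℂ} (hR : InR κ (Sum.elim q A) (Sum.elim y A'))
    (hA' : ∀ l : {l // ¬ l = lam (t l)}, Sp V Cc (A' l) (γ l)) {w : Fin n → ℂ} {i : Fin n}
    (hyi : y i ≠ 0) (hyw : ∀ j, Sp V Cc (y j / y i) (w j)) : TrLe κ c w := by
  intro f hai
  obtain ⟨P, hP, hP0⟩ := hγ i f
  obtain ⟨N, P', hP'⟩ := exists_hmg P f i (Subtype.val : {l // ¬ l = lam (t l)} → Λ)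
  have hqi : q i ≠ 0 := by
    intro h
    apply hyi
    have h1 := inR_ap hR (X (Sum.inl i)) (by rw [aeval_X]; exact h)
    rwa [aeval_X] at h1
  have h1 : (aeval (Sum.elim q A) P' : ℂ) = 0 := by
    rw [hP' q A hqi, hP, mul_zero]
  have h2 := inR_ap hR P' h1
  rw [hP' y A' hyi] at h2
  have h3 := (mul_eq_zero.1 h2).resolve_left (pow_ne_zero _ hyi)
  have h4 : Sp V Cc (aeval (Sum.elim (fun l : {l // ¬ l = lam (t l)} => A' l)
      fun b => y (f b) / y i) P) (aeval (Sum.elim (fun l => (γ l : ℂ)) fun b => w (f b)) P) := by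
    refine sp_ap hκC hV P ?_
    rintro (l | b)
    · exact hA' l
    · exact hyw (f b)
  rw [h3] at h4
  have h5 := VGS.Sp.unique hV h4 (VGS.Sp.const hV (zero_mem _))
  apply hP0
  rw [algebraicIndependent_iff] at hai
  refine hai _ ?_
  rw [← h5]
  have h6 : (aeval (fun b => w (f b)) : MvPolynomial (Fin (c + 1)) κ →ₐ[κ] ℂ).comp
      (aeval (Sum.elim (fun l => C (γ l)) X)) =
      aeval (Sum.elim (fun l => (γ l : ℂ)) fun b => w (f b)) := by
    apply MvPolynomial.algHom_ext
    rintro (l | b)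
    · rw [AlgHom.comp_apply, aeval_X, aeval_X, Sum.elim_inl, Sum.elim_inl, aeval_C]
      rfl
    · rw [AlgHom.comp_apply, aeval_X, aeval_X, Sum.elim_inr, Sum.elim_inr, aeval_X]
  exact DFunLike.congr_fun h6 P

/-- the limits at `u → 0` -/
theorem red_lim0 (H : Lt κ A t S d G) {q : Fin n → ℂ} {i₀ : Fin n} (hqi : q i₀ = 1)
    (hqG : q ∈ cone G) (hqE : ∀ j, q j ∈ clo (adj κ (Set.range A)))
    (lam : Fin c → Λ) (hlS : ∀ i, aeval q (S (lam i)) ≠ 0)
    {Cc : Fl} (hκC : κ ≤ Cc) {V : ValuationSubring ℂ} (hV : IsPl V Cc)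
    {y : Fin n → ℂ}
    {A' : Λ → ℂ} (hR : InR κ (Sum.elim q A) (Sum.elim y A'))
    (hA' : ∀ l : {l // ¬ l = lam (t l)}, Sp V Cc (A' l) (A l)) {w : Fin n → ℂ} {i : Fin n}
    (hwG : w ∈ cone G) (hyi : y i ≠ 0) (hyw : ∀ j, Sp V Cc (y j / y i) (w j)) :
    (∃ σ ∈ VGS.Fix (adj κ (Set.range A)), ∃ a : ℂ, a ≠ 0 ∧ ∀ j, σ (q j) = a * w j) ∨
      ((∀ l, aeval w (S l) ≠ 0 → aeval q (S l) ≠ 0) ∧
        ∃ l, aeval q (S l) ≠ 0 ∧ aeval w (S l) = 0) := by
  classical
  have hcκ := H.cκ
  have hRy : ∀ P : MvPolynomial (Fin n) ℂ, Coef κ P → aeval q P = 0 → aeval y P = 0 := by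
    intro P hP h0
    have h1 := hR (rename Sum.inl P) (by
      obtain ⟨P', rfl⟩ := VGS.coef_iff.1 hP
      exact VGS.coef_iff.2 ⟨rename Sum.inl P', by rw [map_rename]⟩) (by
        rw [aeval_rename]; exact h0)
    rw [aeval_rename] at h1
    exact h1
  have hyi₀ : y i₀ = 1 := by
    have h1 := hRy (X i₀ - 1) (VGS.coef_iff.2 ⟨X i₀ - 1, by simp⟩) (by
      rw [map_sub, aeval_X, map_one, hqi, sub_self])
    rw [map_sub, aeval_X, map_one] at h1
    exact sub_eq_zero.1 h1
  -- the scaled point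
  have hscale : ∀ l, aeval (fun j => y j / y i) (S l) =
      (y i)⁻¹ ^ (d (Fin.natAdd s (t l))) * aeval y (S l) := by
    intro l
    exact pp_aeval_scale (H.homS l) fun j => by rw [div_eq_mul_inv, mul_comm]
  have hSlim : ∀ l, Sp V Cc (aeval (fun j => y j / y i) (S l)) (aeval w (S l)) := fun l =>
    VGS.Sp.aeval hV ((H.coefS l).mono hκC) hyw
  by_cases hS : ∀ i', aeval w (S (lam i')) ≠ 0
  · left
    have hAall : ∀ l, Sp V Cc (A' l) (A l) := by
      intro l
      by_cases h : l = lam (t l)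
      swap
      · exact hA' ⟨l, h⟩
      obtain ⟨i', hi'⟩ : ∃ i', i' = t l := ⟨_, rfl⟩
      rw [← hi'] at h
      have htl : t l = i' := hi'.symm
      -- the relation
      have hrel : ∑ l', (if t l' = i' then A' l' * aeval (fun j => y j / y i) (S l') else 0) =
          0 := by
        choose S' hS' using fun l => VGS.coef_iff.1 (H.coefS l)
        obtain ⟨P, hP⟩ : ∃ P : MvPolynomial (Fin n ⊕ Λ) κ, P = ∑ l', if t l' = i' then
          X (Sum.inr l') * rename Sum.inl (S' l') else 0 := ⟨_, rfl⟩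
        have key : ∀ (z : Fin n → ℂ) (B : Λ → ℂ), (aeval (Sum.elim z B) P : ℂ) =
            ∑ l', if t l' = i' then B l' * aeval z (S l') else 0 := by
          intro z B
          rw [hP, map_sum]
          refine Finset.sum_congr rfl fun l' _ => ?_
          split_ifs
          · rw [map_mul, aeval_X, aeval_rename, ← hS' l', aev]
            rfl
          · rw [map_zero]
        have h1 : (aeval (Sum.elim q A) P : ℂ) = 0 := by
          rw [key, ← aevalG H, hqG.2]
        have h2 := inR_ap hR P h1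
        rw [key] at h2
        have h3 := congrArg (fun x => (y i)⁻¹ ^ (d (Fin.natAdd s i')) * x) h2
        simp only [mul_zero, Finset.mul_sum] at h3
        refine Eq.trans (Finset.sum_congr rfl fun l' _ => ?_) h3
        split_ifs with h4
        · rw [hscale l', h4]
          ring
        · rw [mul_zero]
      have hG := aevalG H w i'
      rw [hwG.2] at hG
      rw [← Finset.add_sum_erase _ _ (Finset.mem_univ l), if_pos htl] at hrel
      rw [← Finset.add_sum_erase _ _ (Finset.mem_univ l), if_pos htl] at hG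
      have h1 : Sp V Cc (∑ l' ∈ Finset.univ.erase l, if t l' = i' then
          A' l' * aeval (fun j => y j / y i) (S l') else 0)
          (∑ l' ∈ Finset.univ.erase l, if t l' = i' then A l' * aeval w (S l') else 0) := by
        refine VGS.Sp.sum hV _ fun l' hl' => ?_
        split_ifs with h4
        · have h5 : ¬ l' = lam (t l') := by
            intro h6
            apply (Finset.mem_erase.1 hl').1
            rw [h6, h4, ← h]
          exact (hA' ⟨l', h5⟩).mul hV (hSlim l')
        · exact VGS.Sp.const hV (zero_mem _)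
      have h2 : Sp V Cc (A' l * aeval (fun j => y j / y i) (S l)) (A l * aeval w (S l)) := by
        have h3 := h1.neg hV
        rw [← eq_neg_of_add_eq_zero_left hrel, ← eq_neg_of_add_eq_zero_left hG.symm] at h3
        exact h3
      have hSl : aeval w (S l) ≠ 0 := by
        rw [h]
        exact hS i'
      have h3 := h2.div hV (hSlim l) hSl
      rwa [mul_div_cancel_right₀ _ hSl,
        mul_div_cancel_right₀ _ (VGS.Sp.ne_zero hV (hSlim l) hSl)] at h3
    have hfin := fin_lim hκC hV hAall hqE hR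
    have hwi₀ : w i₀ ≠ 0 := by
      intro h0
      have h1 := hyw i₀
      rw [hyi₀, h0, one_div] at h1
      have h2 := h1.2
      rw [sub_zero, pp_lt_one_iff, inv_inv] at h2
      rcases h2 with h2 | h2
      · exact inv_ne_zero hyi h2
      · exact h2 (hfin i)
    have hlim : ∀ j, Sp V Cc (y j) (w j / w i₀) := by
      intro j
      have h1 := (hyw j).div hV (hyw i₀) hwi₀
      rw [hyi₀] at h1
      have h2 : y j / y i / (1 / y i) = y j := by
        field_simp
      rwa [h2] at h1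
    have hInR : InR κ (Sum.elim q A) (Sum.elim (fun j => w j / w i₀) A) := by
      refine inR_of fun f hf => ?_
      have h1 := inR_ap hR f hf
      have h2 : Sp V Cc (aeval (Sum.elim y A') f) (aeval (Sum.elim (fun j => w j / w i₀) A) f) := by
        refine sp_ap hκC hV f ?_
        rintro (j | l)
        · exact hlim j
        · exact hAall l
      rw [h1] at h2
      exact VGS.Sp.unique hV h2 (VGS.Sp.const hV (zero_mem _))
    obtain ⟨σ, hσ, hσq⟩ := conj_of_inR hqE hInR
    refine ⟨σ, hσ, (w i₀)⁻¹, inv_ne_zero hwi₀, fun j => ?_⟩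
    rw [hσq j, div_eq_mul_inv, mul_comm]
  · right
    push Not at hS
    obtain ⟨i', hi'⟩ := hS
    refine ⟨fun l hl h0 => hl ?_, lam i', hlS i', hi'⟩
    have h1 := hRy (S l) (H.coefS l) h0
    have h2 := hSlim l
    rw [hscale l, h1, mul_zero] at h2
    exact VGS.Sp.unique hV h2 (VGS.Sp.const hV (zero_mem _))

end RedA

end Pool.Agent.VRC
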