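import Pool.Agent.VRC.RedB
import Pool.Agent.VCI.AutP

/-! Surfaces in rationally connected varieties, module RedStep: one step of the reduction. -/

set_option autoImplicit false

open scoped LinearAlgebra.Projectivization
open MvPolynomial

namespace Pool.Agent.VRC

open Pool.Agent.VGS (Fl adj clo Coef Kills IsPl Sp)
open Pool.Agent.VCI

variable {n s c : ℕ} {Λ : Type} [Fintype Λ] {κ : Fl} {A : Λ → ℂ} {t : Λ → Fin c}
  {S : Λ → MvPolynomial (Fin n) ℂ} {d : Fin (s + c) → ℕ}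
  {G : Fin (s + c) → MvPolynomial (Fin n) ℂ}

theorem red_step (H : Lt κ A t S d G) [NeZero n] {q : Fin n → ℂ} {i₀ : Fin n} (hqi : q i₀ = 1)
    (hqG : q ∈ cone G) (hqE : ∀ j, q j ∈ clo (adj κ (Set.range A)))
    (hS : ∀ i, ∃ l, t l = i ∧ aeval q (S l) ≠ 0) :
    ∃ (e : ℕ) (y : Cy n), 0 < e ∧ (∀ σ ∈ VGS.Fix (adj κ (Set.range A)), actC σ y = y) ∧
      (∀ x ∈ y.support, ∃ (w : Fin n → ℂ) (i : Fin n), w i = 1 ∧ w ∈ cone G ∧
        (∀ j, w j ∈ clo (adj κ (Set.range A))) ∧ x = mkP w ∧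
        (TrLe κ c w ∨ ((∀ l, aeval w (S l) ≠ 0 → aeval q (S l) ≠ 0) ∧
          ∃ l, aeval q (S l) ≠ 0 ∧ aeval w (S l) = 0))) ∧
      (e : ℚ) • Orb (adj κ (Set.range A)) (mkP q) + y ∈ ratQ G := by
  classical
  have hcκ := H.cκ
  choose lam hlam hlS using hS
  obtain ⟨γ, hγ⟩ := RedA.red_gam (A := A) hqE lam hlam
  obtain ⟨V₀, s, A', u, hV₀, hu₀, hu, hs₀, hsC, hA', hsG, hR⟩ :=
    RedA.red_move H hqG hqE lam hlam hlS γ
  have hcA : Countable (Set.range A) := (Set.finite_range A).countable.to_subtype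
  have hcE : Countable (adj κ (Set.range A)) := inferInstance
  have hκE : κ ≤ adj κ (Set.range A) := VGS.le_adj _ _
  have hAE : ∀ l, A l ∈ adj κ (Set.range A) := fun l => VGS.subset_adj _ _ ⟨l, rfl⟩
  have hGE : ∀ i, Coef (adj κ (Set.range A)) (G i) := RedA.coefG H
  have hlim0 := fun (V : ValuationSubring ℂ) (hV : IsPl V (clo (adj κ (Set.range A)))) (y B w i) =>
    RedA.red_lim0 H hqi hqG hqE lam hlS (hκE.trans (VGS.le_clo _)) hV (y := y) (A' := B) (w := w)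
      (i := i)
  have hlim1 := fun (V : ValuationSubring ℂ) (hV : IsPl V (clo (adj κ (Set.range A)))) (y B w i) =>
    RedA.red_lim1 lam hγ (hκE.trans (VGS.le_clo _)) hV (y := y) (A' := B) (w := w) (i := i)
  generalize hE : adj κ (Set.range A) = E at *
  have hκC : κ ≤ clo E := hκE.trans (VGS.le_clo _)
  have hq : q ≠ 0 := hqG.1
  have hsi₀ : s i₀ = 1 := by
    have h1 := RedA.inR_ap hR (X (Sum.inl i₀) - 1) (by
      rw [map_sub, aeval_X, map_one]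
      change q i₀ - 1 = 0
      rw [hqi, sub_self])
    rw [map_sub, aeval_X, map_one] at h1
    exact sub_eq_zero.1 h1
  have hs : s ≠ 0 := by
    rintro rfl
    exact zero_ne_one hsi₀
  have hsGG : ∀ i, aeval s (G i) = 0 := by
    intro i
    refine Fin.addCases (fun j => ?_) (fun j => hsG j) i
    have h1 := hR (rename Sum.inl (G (Fin.castAdd c j))) (by
      obtain ⟨P', hP'⟩ := VGS.coef_iff.1 (H.coefh j)
      exact VGS.coef_iff.2 ⟨rename Sum.inl P', by rw [map_rename, hP']⟩) (by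
        rw [aeval_rename]; exact hqG.2 _)
    rw [aeval_rename] at h1
    exact h1
  have hzE : Over (clo E) (mkP q) := by
    rw [mkP_eq hq, over_mk hq hqi]
    exact hqE
  -- the family
  have hCu : clo (adj (clo E) {u}) ≤ clo (adj E {u}) := by
    rw [← VGS.clo_clo (adj E {u})]
    refine VGS.clo_mono (VGS.adj_le (VGS.clo_mono (VGS.le_adj _ _)) ?_)
    exact fun x hx => VGS.le_clo _ (VGS.subset_adj _ _ hx)
  have hsOver : Over (clo (adj E {u})) (mkP s) := by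
    rw [mkP_eq hs, over_mk hs hsi₀]
    exact fun j => hCu (hsC j)
  have hfin := finite_orbit_pt (adj E {u}) hsOver
  obtain ⟨T, hTnd, hTmem⟩ : ∃ T : Multiset (PN n), T.Nodup ∧
      ∀ q, q ∈ T ↔ ∃ σ ∈ VGS.Fix (adj E {u}), act σ (mkP s) = q := by
    refine ⟨hfin.toFinset.val, hfin.toFinset.nodup, fun q => ?_⟩
    rw [Finset.mem_val, Set.Finite.mem_toFinset]
    rfl
  have hT : IsFam E u T := by
    refine ⟨fun q hq => ?_, fun σ hσ => ?_⟩
    · obtain ⟨σ, hσ, rfl⟩ := (hTmem q).1 hq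
      exact (over_clo_act hσ).2 hsOver
    · refine (Multiset.Nodup.ext (hTnd.map (act_injective σ)) hTnd).2 fun q => ?_
      rw [Multiset.mem_map]
      constructor
      · rintro ⟨q', hq', rfl⟩
        obtain ⟨τ, hτ, rfl⟩ := (hTmem q').1 hq'
        exact (hTmem _).2 ⟨σ * τ, (VGS.Fix _).mul_mem hσ hτ, by rw [act_mul]⟩
      · intro hq
        obtain ⟨τ, hτ, rfl⟩ := (hTmem q).1 hq
        refine ⟨act (σ⁻¹ * τ) (mkP s), (hTmem _).2
          ⟨_, (VGS.Fix _).mul_mem ((VGS.Fix _).inv_mem hσ) hτ, rfl⟩, ?_⟩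
        rw [← act_mul, mul_inv_cancel_left]
  have hsT : mkP s ∈ T := (hTmem _).2 ⟨1, (VGS.Fix _).one_mem, act_one _⟩
  have hsF : mkP s ∈ ciS G := by
    rw [mkP_eq hs]
    exact (mem_surf_mk H.hom hs).2 hsGG
  have hspP : SpP V₀ (clo E) (mkP s) (mkP q) := by
    rw [mkP_eq hs, mkP_eq hq]
    exact (spP_mk hV₀ hs hq hsi₀ hqi).2 hs₀
  have hFixE : ∀ σ ∈ VGS.Fix (adj E {u}), σ ∈ VGS.Fix E := fun σ hσ =>
    VGS.Fix_mono (VGS.le_adj _ _) hσ
  have hTF : ∀ q ∈ T, q ∈ ciS G := by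
    intro q hq
    obtain ⟨σ, hσ, rfl⟩ := (hTmem q).1 hq
    exact (act_mem_surf H.hom hGE (hFixE σ hσ)).2 hsF
  -- limits
  have hEu : adj E {u} ≤ adj (clo E) {u} :=
    VGS.adj_le ((VGS.le_clo E).trans (VGS.le_adj _ _)) (VGS.subset_adj _ _)
  have hTOver : ∀ q ∈ T, Over (clo (adj (clo E) {u})) q := fun q hq =>
    (hT.isOver q hq).mono (VGS.clo_mono hEu)
  obtain ⟨V₁, hV₁, hu₁⟩ := VGS.exists_place (VGS.clo_clo E) hu (one_mem (clo E))
  have hex₀ : ∀ q ∈ T, ∃ q', SpP V₀ (clo E) q q' := fun q hq =>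
    exists_spP (VGS.clo_clo E) hV₀ hu hu₀ (hTOver q hq)
  have hex₁ : ∀ q ∈ T, ∃ q', SpP V₁ (clo E) q q' := fun q hq =>
    exists_spP (VGS.clo_clo E) hV₁ hu hu₁ (hTOver q hq)
  choose! f hf using hex₀
  choose! g hg using hex₁
  -- the members
  have hσR : ∀ σ ∈ VGS.Fix (adj E {u}),
      InR κ (Sum.elim q A) (Sum.elim (fun j => σ (s j)) fun l => σ (A' l)) := by
    intro σ hσ
    refine RedA.inR_of fun P hP => ?_
    have h1 := RedA.inR_ap hR P hP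
    have h2 : (Sum.elim (fun j => σ (s j)) fun l => σ (A' l)) =
        fun v => σ ((Sum.elim s A' : Fin n ⊕ Λ → ℂ) v) := by
      funext v
      rcases v with j | l <;> rfl
    rw [h2, ← RedA.aev, VGS.aeval_fix ((RedA.cmap P).mono hκE) (hFixE σ hσ), RedA.aev, h1,
      map_zero]
  have hσA : ∀ σ ∈ VGS.Fix (adj E {u}), ∀ l : {l // ¬ l = lam (t l)},
      σ (A' l) = (1 - u) * A l + u * γ l := by
    intro σ hσ l
    have h1 : σ u = u := hσ u (VGS.subset_adj _ _ rfl)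
    rw [hA' l, map_add, map_mul, map_mul, map_sub, map_one, h1, hFixE σ hσ _ (hAE l),
      hFixE σ hσ _ (hκE (γ l).2)]
  have hpt : ∀ {V : ValuationSubring ℂ}, IsPl V (clo E) → ∀ σ ∈ VGS.Fix (adj E {u}),
      ∀ x : PN n, SpP V (clo E) (act σ (mkP s)) x → ∃ (w : Fin n → ℂ) (i : Fin n), w i = 1 ∧
        w ∈ cone G ∧ (∀ j, w j ∈ clo E) ∧ x = mkP w ∧ σ (s i) ≠ 0 ∧
        ∀ j, Sp V (clo E) (σ (s j) / σ (s i)) (w j) := by
    intro V hV σ hσ x hx
    have hxG : x ∈ ciS G := SpP.mem_surf hV H.hom (fun i => (hGE i).mono (VGS.le_clo E)) hx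
      (hTF _ ((hTmem _).2 ⟨σ, hσ, rfl⟩))
    have hxE := hx.over
    obtain ⟨w, hw, i, hwi, rfl⟩ := exists_nrm x
    refine ⟨w, i, hwi, ⟨hw, (mem_surf_mk H.hom hw).1 hxG⟩, (over_mk hw hwi).1 hxE,
      (mkP_eq hw).symm, ?_⟩
    have hσs : (fun j => σ (s j)) ≠ 0 := map_ne_zero' σ hs
    rw [mkP_eq hs, act_mk σ s hs hσs] at hx
    obtain ⟨z', w', hz', hw', hp, hq', h1⟩ := hx
    obtain ⟨a, ha0, ha⟩ := pp_cross_of_eq hp.symm
    obtain ⟨b, hb0, hb⟩ := pp_cross_of_eq hq'.symm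
    have h2 : w' i = b := by rw [hb i, hwi, mul_one]
    have h3 : z' i ≠ 0 := VGS.Sp.ne_zero hV (h1 i) (by rw [h2]; exact hb0)
    have h4 : σ (s i) ≠ 0 := by
      intro h5
      apply h3
      rw [ha i, h5, mul_zero]
    refine ⟨h4, fun j => ?_⟩
    have h5 := (h1 j).div hV (h1 i) (by rw [h2]; exact hb0)
    have h6 : z' j / z' i = σ (s j) / σ (s i) := by
      rw [ha i, ha j, mul_div_mul_left _ _ ha0]
    have h7 : w' j / w' i = w j := by
      rw [h2, hb j, mul_div_cancel_left₀ _ hb0]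
    rwa [h6, h7] at h5
  have hL0 : ∀ x ∈ T, ∃ (w : Fin n → ℂ) (i : Fin n), w i = 1 ∧ w ∈ cone G ∧
      (∀ j, w j ∈ clo E) ∧ f x = mkP w ∧ ((f x ∈ {q' | ∃ σ ∈ VGS.Fix E, act σ (mkP q) = q'}) ∨
        ((∀ l, aeval w (S l) ≠ 0 → aeval q (S l) ≠ 0) ∧
          ∃ l, aeval q (S l) ≠ 0 ∧ aeval w (S l) = 0)) := by
    intro x hx
    have h1 := hf x hx
    obtain ⟨σ, hσ, rfl⟩ := (hTmem x).1 hx
    obtain ⟨w, i, hwi, hwG, hwE, hxw, hsi, hlim⟩ := hpt hV₀ σ hσ _ h1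
    refine ⟨w, i, hwi, hwG, hwE, hxw, ?_⟩
    have hone : Sp V₀ (clo E) 1 1 := VGS.Sp.const hV₀ (one_mem _)
    rcases hlim0 V₀ hV₀ (fun j => σ (s j)) (fun l => σ (A' l)) w i
      (hσR σ hσ) (fun l => by
        rw [hσA σ hσ l]
        have h3 := ((hone.sub hV₀ hu₀).mul hV₀ (VGS.Sp.const hV₀ (VGS.le_clo _ (hAE l.1)))).add hV₀
          (hu₀.mul hV₀ (VGS.Sp.const hV₀ (hκC (γ l).2)))
        rwa [sub_zero, one_mul, zero_mul, add_zero] at h3) hwG hsi hlim with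
      ⟨τ, hτ, a, ha, hτq⟩ | h2
    · left
      refine ⟨τ, hτ, ?_⟩
      have hw : w ≠ 0 := hwG.1
      rw [hxw, mkP_eq hq, act_mk τ q hq (map_ne_zero' τ hq), mkP_eq hw]
      refine pp_eq_of_cross _ _ fun i j => ?_
      rw [hτq i, hτq j]
      ring
    · exact Or.inr h2
  have hL1 : ∀ x ∈ T, ∃ (w : Fin n → ℂ) (i : Fin n), w i = 1 ∧ w ∈ cone G ∧
      (∀ j, w j ∈ clo E) ∧ g x = mkP w ∧ TrLe κ c w := by
    intro x hx
    have h1 := hg x hx
    obtain ⟨σ, hσ, rfl⟩ := (hTmem x).1 hx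
    obtain ⟨w, i, hwi, hwG, hwE, hxw, hsi, hlim⟩ := hpt hV₁ σ hσ _ h1
    refine ⟨w, i, hwi, hwG, hwE, hxw, ?_⟩
    have hone : Sp V₁ (clo E) 1 1 := VGS.Sp.const hV₁ (one_mem _)
    refine hlim1 V₁ hV₁ (fun j => σ (s j)) (fun l => σ (A' l)) w i (hσR σ hσ) (fun l => ?_) hsi hlim
    rw [hσA σ hσ l]
    have h3 := ((hone.sub hV₁ hu₁).mul hV₁ (VGS.Sp.const hV₁ (VGS.le_clo _ (hAE l.1)))).add hV₁
      (hu₁.mul hV₁ (VGS.Sp.const hV₁ (hκC (γ l).2)))
    rwa [sub_self, zero_mul, one_mul, zero_add] at h3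
  -- the cycles
  have hst₀ : ∀ σ ∈ VGS.Fix E, actC σ (cycQ (T.map f)) = cycQ (T.map f) := fun σ hσ => by
    rw [actC_cycQ, stable_ms hu hT (zero_mem E) hV₀ hu₀ hf hσ]
  have hst₁ : ∀ σ ∈ VGS.Fix E, actC σ (cycQ (T.map g)) = cycQ (T.map g) := fun σ hσ => by
    rw [actC_cycQ, stable_ms hu hT (one_mem E) hV₁ hu₁ hg hσ]
  refine ⟨(T.map f).count (mkP q), cycQ (T.map f) - cycQ (T.map g) -
    ((T.map f).count (mkP q) : ℚ) • Orb E (mkP q), ?_, ?_, ?_, ?_⟩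
  · rw [Multiset.count_pos, Multiset.mem_map]
    exact ⟨_, hsT, SpP.unique hV₀ (hf _ hsT) hspP⟩
  · intro σ hσ
    rw [map_sub, map_sub, map_smul, hst₀ σ hσ, hst₁ σ hσ, actC_Orb hzE hσ]
  · intro x hx
    have hq' := Finsupp.mem_support_iff.1 hx
    rw [Finsupp.sub_apply, Finsupp.sub_apply, Finsupp.smul_apply, smul_eq_mul] at hq'
    have key : x ∈ T.map g ∨ (x ∈ T.map f ∧
        x ∉ {q' | ∃ σ ∈ VGS.Fix E, act σ (mkP q) = q'}) := by
      by_cases hO : x ∈ {q' | ∃ σ ∈ VGS.Fix E, act σ (mkP q) = q'}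
      · left
        by_contra hcon
        apply hq'
        have h1 : Orb E (mkP q) x = 1 := by
          unfold Orb
          rw [sumSet_apply (finite_orbit_pt E hzE), if_pos hO]
        have h2 : cycQ (T.map f) x = ((T.map f).count (mkP q) : ℚ) := by
          obtain ⟨σ, hσ, rfl⟩ := hO
          rw [← hst₀ σ hσ, actC_apply, act_inv_act, cycQ_apply]
        rw [h1, h2, cycQ_apply, Multiset.count_eq_zero_of_notMem hcon]
        simp
      · by_cases hg' : x ∈ T.map g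
        · exact Or.inl hg'
        · refine Or.inr ⟨?_, hO⟩
          by_contra hcon
          apply hq'
          have h1 : Orb E (mkP q) x = 0 := by
            unfold Orb
            rw [sumSet_apply (finite_orbit_pt E hzE), if_neg hO]
          rw [h1, cycQ_apply, cycQ_apply, Multiset.count_eq_zero_of_notMem hcon,
            Multiset.count_eq_zero_of_notMem hg']
          simp
    rcases key with h1 | ⟨h1, h2⟩
    · obtain ⟨p', hp', rfl⟩ := Multiset.mem_map.1 h1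
      obtain ⟨w, i, hwi, hwG, hwE, hxw, h3⟩ := hL1 p' hp'
      exact ⟨w, i, hwi, hwG, hwE, hxw, Or.inl h3⟩
    · obtain ⟨p', hp', rfl⟩ := Multiset.mem_map.1 h1
      obtain ⟨w, i, hwi, hwG, hwE, hxw, h3⟩ := hL0 p' hp'
      exact ⟨w, i, hwi, hwG, hwE, hxw, Or.inr (h3.resolve_left h2)⟩
  · have h5 : (((T.map f).count (mkP q) : ℕ) : ℚ) • Orb E (mkP q) +
        (cycQ (T.map f) - cycQ (T.map g) -
          (((T.map f).count (mkP q) : ℕ) : ℚ) • Orb E (mkP q)) =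
        cycQ (T.map f) - cycQ (T.map g) := by abel
    rw [h5]
    exact link_ms hu hT H.hom hGE hTF hV₀ hV₁ hu₀ hu₁ hf hg

end Pool.Agent.VRC
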