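import Pool.Agent.VRC.Core
import Pool.Agent.VRC.Mum
import Pool.Agent.VRC.TauNe
import Pool.Agent.VCI.S1b

/-! Surfaces in rationally connected varieties, module S1: the scalar of an invariant
correspondence. -/

set_option autoImplicit false

open scoped LinearAlgebra.Projectivization
open MvPolynomial

namespace Pool.Agent.VRC

open Pool.Agent.VGS (Fl adj clo Coef Kills)
open Pool.Agent.VCI

variable {m n r : ℕ}

/-- a point over `L` is not generic over `L` -/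
theorem over_not_gen {F : Fin m → MvPolynomial (Fin n) ℂ} {L : Fl} {q : PN n} (hq : Over L q) :
    q ∉ Gen L F := by
  rintro ⟨-, i, j, l, hi, hjl⟩
  obtain ⟨z, hz, hzL, rfl⟩ := hq
  rw [rep_mk_div, rep_mk_div] at hjl
  have h1 : Transcendental L (z j / z i) := by
    have h2 := hjl.transcendental 0
    simpa using h2
  exact h1 (isAlgebraic_algebraMap (⟨z j / z i, L.div_mem (hzL j) (hzL i)⟩ : L))

section S1

variable {s c : ℕ} {M : Fin c → ℕ} {k K : Fl} {h : Fin s → MvPolynomial (Fin (r + 3)) ℂ}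
  {g : (i : Fin c) → Fin (M i) → MvPolynomial (Fin (r + 3)) ℂ} {a : (i : Fin c) → Fin (M i) → ℂ}
  {d : Fin (s + c) → ℕ}

private theorem s1_aux (H : LinRC k h g a K d) {K₀ : Fl} (hK₀ : K₀ ≤ K)
    (hX₀ : Sfc0 (eqs h g a) d K₀) (ω : HForm (eqs h g a) (clo K₀))
    (hne : ∃ p ∈ Gen K₀ (eqs h g a), ∃ D₁ D₂ : Derivation ℤ ℂ ℂ, Kills K₀ D₁ ∧ Kills K₀ D₂ ∧
      tau ω D₁ D₂ p ≠ 0)
    {α : PN (r + 3) → Cy (r + 3)} {σ₀ : ℂ}
    (hα : ∀ p ∈ Gen K (eqs h g a), ∀ q ∈ (α p).support, q ∈ ciS (eqs h g a))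
    (hσ : ∀ σ ∈ VGS.Fix K, ∀ p ∈ Gen K (eqs h g a), α (act σ p) = actC σ (α p))
    (hτ : ∀ y ∈ Gen K (eqs h g a), ∀ D₁ D₂ : Derivation ℤ ℂ ℂ, Kills K D₁ → Kills K D₂ →
      tauC ω D₁ D₂ (α y) = σ₀ * tau ω D₁ D₂ y) {p q : PN (r + 3)}
    (hp : p ∈ Gen K (eqs h g a)) (hq : q ∈ Gen (clo (adjP K p)) (eqs h g a)) :
    ∃ μ : ℚ, σ₀ = μ ∧
      α p - α q - μ • (Finsupp.single p 1 - Finsupp.single q 1) ∈ ratQ (eqs h g a) := by
  obtain ⟨μ, h1⟩ := core H hα hσ hp hq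
  refine ⟨μ, ?_, h1⟩
  have hKc : Countable K := H.cK
  have hK₀c : Countable K₀ := hX₀.cK
  obtain ⟨sw, hsw, hswp, hswq⟩ := exists_swap H.hom hKc H.coefK H.conj hp hq
  have hqP : q ∈ Gen (adjP K p) (eqs h g a) := s1_gen_anti (VGS.le_clo _) hq
  have hqK : q ∈ Gen K (eqs h g a) := s1_gen_anti (le_adjP _ _) hqP
  have hpq : p ∈ Gen (adjP K q) (eqs h g a) := by
    have h2 := s1_transport H.hom H.coefK hsw hqP
    rwa [hswp, hswq] at h2
  obtain ⟨L, hL⟩ : ∃ L : Fl, L = clo (adjP K q) := ⟨_, rfl⟩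
  have hLc : Countable L := by rw [hL]; infer_instance
  have hKL : K ≤ L := by rw [hL]; exact (le_adjP _ _).trans (VGS.le_clo _)
  have hK₀L : clo K₀ ≤ L := by
    rw [hL]
    exact VGS.clo_mono (hK₀.trans (le_adjP _ _))
  have hpL : p ∈ Gen L (eqs h g a) := by
    rw [hL]
    exact s1_gen_clo hpq
  have hqL : Over L q := by rw [hL]; exact (over_adjP _ _).mono (VGS.le_clo _)
  obtain ⟨D₁, D₂, h₁, h₂, hne'⟩ := exists_tau_ne hX₀ ω hne L (hK₀.trans hKL) hpL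
  have hk₁ : Kills K D₁ := fun x hx => h₁ x (hKL hx)
  have hk₂ : Kills K D₂ := fun x hx => h₂ x (hKL hx)
  have h3 := mumford H.hom (κ := clo K₀) (fun i => (hX₀.coef i).mono (VGS.le_clo _)) ω
    (fun x hx => h₁ x (hK₀L hx)) (fun x hx => h₂ x (hK₀L hx)) h1
  have h4 : tau ω D₁ D₂ q = 0 :=
    tau_not_gen H.hom (hK₀L.trans (VGS.le_clo L)) ω h₁ h₂ hqK.1 (over_not_gen hqL)
  rw [map_sub, map_sub, map_smul, map_sub, hτ p hp D₁ D₂ hk₁ hk₂, hτ q hqK D₁ D₂ hk₁ hk₂,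
    tauC_single, tauC_single, one_smul, one_smul, h4, mul_zero, sub_zero, sub_zero,
    Rat.smul_def, ← sub_mul] at h3
  exact sub_eq_zero.1 ((mul_eq_zero.1 h3).resolve_right hne')

/-- **Theorem S** with the scalar: an invariant correspondence which acts on the two-form `ω` by the
scalar `σ₀` acts on differences of generic points by `σ₀`, a rational number. -/
theorem s1_scalar (H : LinRC k h g a K d) (hX : Sfc0 (eqs h g a) d K) {K₀ : Fl} (hK₀ : K₀ ≤ K)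
    (hX₀ : Sfc0 (eqs h g a) d K₀) (ω : HForm (eqs h g a) (clo K₀))
    (hne : ∃ p ∈ Gen K₀ (eqs h g a), ∃ D₁ D₂ : Derivation ℤ ℂ ℂ, Kills K₀ D₁ ∧ Kills K₀ D₂ ∧
      tau ω D₁ D₂ p ≠ 0)
    {α : PN (r + 3) → Cy (r + 3)} {σ₀ : ℂ}
    (hα : ∀ p ∈ Gen K (eqs h g a), ∀ q ∈ (α p).support, q ∈ ciS (eqs h g a))
    (hσ : ∀ σ ∈ VGS.Fix K, ∀ p ∈ Gen K (eqs h g a), α (act σ p) = actC σ (α p))
    (hτ : ∀ y ∈ Gen K (eqs h g a), ∀ D₁ D₂ : Derivation ℤ ℂ ℂ, Kills K D₁ → Kills K D₂ →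
      tauC ω D₁ D₂ (α y) = σ₀ * tau ω D₁ D₂ y) :
    ∃ μ : ℚ, σ₀ = μ ∧ ∀ p ∈ Gen K (eqs h g a), ∀ q ∈ Gen K (eqs h g a),
      α p - α q - μ • (Finsupp.single p 1 - Finsupp.single q 1) ∈ ratQ (eqs h g a) := by
  have hKc : Countable K := H.cK
  have key : ∀ p ∈ Gen K (eqs h g a), ∀ q ∈ Gen K (eqs h g a), ∃ μ : ℚ, σ₀ = μ ∧
      α p - α q - μ • (Finsupp.single p 1 - Finsupp.single q 1) ∈ ratQ (eqs h g a) := by
    intro p hp q hq
    obtain ⟨x, hx⟩ := hX.gen (clo (adjP (adjP K p) q)) inferInstance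
    have hxp : x ∈ Gen (clo (adjP K p)) (eqs h g a) := s1_gen_anti (VGS.clo_mono (le_adjP _ _)) hx
    have hxq : x ∈ Gen (clo (adjP K q)) (eqs h g a) := by
      refine s1_gen_anti (VGS.clo_mono ?_) hx
      exact VGS.adj_le ((le_adjP _ _).trans (le_adjP _ _)) (VGS.subset_adj _ _)
    obtain ⟨μ, hμ, h1⟩ := s1_aux H hK₀ hX₀ ω hne hα hσ hτ hp hxp
    obtain ⟨μ', hμ', h2⟩ := s1_aux H hK₀ hX₀ ω hne hα hσ hτ hq hxq
    have hmm : μ' = μ := by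
      have : (μ' : ℂ) = μ := by rw [← hμ, ← hμ']
      exact_mod_cast this
    subst hmm
    refine ⟨μ', hμ', ?_⟩
    have h3 := (ratQ (eqs h g a)).sub_mem h1 h2
    have h4 : α p - α x - μ' • (Finsupp.single p 1 - Finsupp.single x 1) -
        (α q - α x - μ' • (Finsupp.single q 1 - Finsupp.single x 1)) =
        α p - α q - μ' • (Finsupp.single p 1 - Finsupp.single q 1) := by
      rw [smul_sub, smul_sub, smul_sub]
      abel
    rwa [h4] at h3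
  obtain ⟨p₀, hp₀⟩ := hX.gen K hKc
  obtain ⟨μ, hμ, -⟩ := key p₀ hp₀ p₀ hp₀
  refine ⟨μ, hμ, fun p hp q hq => ?_⟩
  obtain ⟨μ', hμ', h1⟩ := key p hp q hq
  have hmm : μ' = μ := by
    have : (μ' : ℂ) = μ := by rw [← hμ, ← hμ']
    exact_mod_cast this
  subst hmm
  exact h1

end S1

end Pool.Agent.VRC
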