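import Pool.Agent.VRC.Base
import Pool.Agent.VCI.TrA

/-! Sections of surfaces are generic and transversal (doc S/31564d_U). -/

set_option autoImplicit false

open scoped LinearAlgebra.Projectivization
open MvPolynomial

namespace Pool.Agent.VRC

open Pool.Agent.VGS (Fl adj clo Coef Kills IsPl Sp ai_sum ai_pair exists_kills clo_mono le_clo
  le_adj adj_le subset_adj clo_adj_le)
open Pool.Agent.VCI

variable {m r : ℕ} {F : Fin m → MvPolynomial (Fin (r + 3)) ℂ} {d : Fin m → ℕ} {K : Fl}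

/-- the points of `X` depend on two parameters -/
theorem tr_two (hX : Sfc0 F d K) {w : Fin (r + 3) → ℂ} {i₀ : Fin (r + 3)} (hw : w i₀ = 1)
    (hwF : w ∈ cone F) : ∃ t : Fin 2 → ℂ, ∀ l, w l ∈ clo (adj K (Set.range t)) := by
  by_cases h : ∃ j l, AlgebraicIndependent K ![w j, w l]
  · obtain ⟨j, l, h⟩ := h
    refine ⟨![w j, w l], fun m => ?_⟩
    have hr : Set.range ![w j, w l] = {w j, w l} := by
      ext a
      simp [or_comm]
    rw [hr]
    exact hX.alg_pair le_rfl hwF hw (le_clo _ (subset_adj _ _ ⟨j, rfl⟩))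
      (le_clo _ (subset_adj _ _ ⟨l, rfl⟩)) h (le_clo _ (subset_adj _ _ ⟨m, rfl⟩))
  · push Not at h
    obtain ⟨t, ht⟩ := exists_par' h
    refine ⟨fun _ => t, fun m => clo_mono (adj_le (le_adj _ _) ?_) (ht m)⟩
    rintro _ rfl
    exact subset_adj _ _ ⟨0, rfl⟩

/-- a vector in the kernel of the differentials depends on one more parameter -/
theorem tr_ker (hX : Sfc0 F d K) {M : Fl} (hFM : ∀ i, Coef M (F i))
    {w : Fin (r + 3) → ℂ} (hwM : ∀ l, w l ∈ M) {i₀ : Fin (r + 3)} (hw : w i₀ = 1)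
    (hwF : w ∈ cone F) {v : Fin (r + 3) → ℂ}
    (hv : ∀ i, ∑ l, aeval w (pderiv l (F i)) * v l = 0) (hne : ∃ l, v l ≠ v i₀ * w l) :
    ∃ (ρ β : ℂ) (v' : Fin (r + 3) → ℂ), (∀ l, v' l ∈ clo (adj M {ρ})) ∧
      ∀ l, v l = v i₀ * w l + β * v' l := by
  obtain ⟨l₀, hl₀⟩ := hne
  have hβ : v l₀ - v i₀ * w l₀ ≠ 0 := sub_ne_zero.2 hl₀
  obtain ⟨β, hβd⟩ : ∃ β, β = v l₀ - v i₀ * w l₀ := ⟨_, rfl⟩
  rw [← hβd] at hβ
  obtain ⟨v', hv'⟩ : ∃ v' : Fin (r + 3) → ℂ, ∀ l, v' l = (v l - v i₀ * w l) / β :=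
    ⟨_, fun _ => rfl⟩
  have hv'i : v' i₀ = 0 := by rw [hv', hw, mul_one, sub_self, zero_div]
  have hv'l : v' l₀ = 1 := by rw [hv', ← hβd, div_self hβ]
  have hA : ∀ i l, aeval w (pderiv l (F i)) ∈ M := fun i l =>
    mu_aeval_mem (mu_coef_pderiv (hFM i) l) hwM
  have hwk : ∀ i, ∑ l, aeval w (pderiv l (F i)) * w l = 0 := by
    intro i
    rw [← hX.dFc_self hwF i, dFc]
    exact Finset.sum_congr rfl fun l _ => mul_comm _ _
  have hvk : ∀ i, ∑ l, aeval w (pderiv l (F i)) * v' l = 0 := by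
    intro i
    have h1 : ∀ l, aeval w (pderiv l (F i)) * v' l = (aeval w (pderiv l (F i)) * v l -
        v i₀ * (aeval w (pderiv l (F i)) * w l)) / β := by
      intro l
      rw [hv']
      ring
    rw [Finset.sum_congr rfl fun l _ => h1 l, ← Finset.sum_div, Finset.sum_sub_distrib,
      ← Finset.mul_sum, hv i, hwk i]
    simp
  have hDk : ∀ D : Derivation ℤ ℂ ℂ, Kills M D → ∀ i,
      ∑ l, aeval w (pderiv l (F i)) * D (v' l) = 0 := by
    intro D hD i
    have h1 := congrArg D (hvk i)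
    rw [map_zero, map_sum] at h1
    rw [← h1]
    refine Finset.sum_congr rfl fun l _ => ?_
    rw [Derivation.leibniz, hD _ (hA i l), smul_zero, add_zero, smul_eq_mul]
  have key : ∀ p q, ¬ AlgebraicIndependent M ![v' p, v' q] := by
    intro p q hpq
    obtain ⟨D₁, hD₁, h1p, h1q⟩ := exists_kills M hpq 1 0
    obtain ⟨D₂, hD₂, h2p, h2q⟩ := exists_kills M hpq 0 1
    have hmem : ∀ x : Fin (r + 3) → ℂ, (∀ i, ∑ l, aeval w (pderiv l (F i)) * x l = 0) →
        ∀ i, dFc (F i) w x = 0 := by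
      intro x hx i
      rw [← hx i, dFc]
      exact Finset.sum_congr rfl fun l _ => mul_comm _ _
    refine hX.tan_dep hwF (v := ![w, v', fun l => D₁ (v' l), fun l => D₂ (v' l)]) ?_ ?_
    · intro a
      fin_cases a
      · exact hmem _ hwk
      · exact hmem _ hvk
      · exact hmem _ (hDk D₁ hD₁)
      · exact hmem _ (hDk D₂ hD₂)
    · rw [Fintype.linearIndependent_iff]
      intro g hg
      have h1 : ∀ l, g 0 * w l + g 1 * v' l + g 2 * D₁ (v' l) + g 3 * D₂ (v' l) = 0 := by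
        intro l
        have h2 := congrFun hg l
        rw [Fin.sum_univ_four] at h2
        exact h2
      have e0 : g 0 = 0 := by
        have h2 := h1 i₀
        rw [hw, hv'i, map_zero, map_zero] at h2
        simpa using h2
      have e1 : g 1 = 0 := by
        have h2 := h1 l₀
        rw [hv'l, Derivation.map_one_eq_zero, Derivation.map_one_eq_zero, e0] at h2
        simpa using h2
      have e2 : g 2 = 0 := by
        have h2 := h1 p
        rw [h1p, h2p, e0, e1] at h2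
        simpa using h2
      have e3 : g 3 = 0 := by
        have h2 := h1 q
        rw [h1q, h2q, e0, e1] at h2
        simpa using h2
      intro i
      fin_cases i
      · exact e0
      · exact e1
      · exact e2
      · exact e3
  obtain ⟨ρ, hρ⟩ := exists_par' key
  refine ⟨ρ, β, v', hρ, fun l => ?_⟩
  rw [hv']
  field_simp
  ring

/-- no degenerate section -/
theorem tr_core (hX : Sfc0 F d K) {E : Fl} (hKE : K ≤ E) {ι : Type} [Fintype ι] [DecidableEq ι]
    (hι : Fintype.card ι = r + 1) {u : ι → Fin (r + 3) → ℂ} {j j' : ι} (hjj : j ≠ j') {L : Fl}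
    (hEL : E ≤ L) (hu : ∀ i, i ≠ j → i ≠ j' → ∀ l, u i l ∈ L)
    (hind2 : AlgebraicIndependent L (Sum.elim (u j) (u j'))) {c a : ι → ℂ}
    (hΔ : c j * a j' - c j' * a j ≠ 0) {w v : Fin (r + 3) → ℂ}
    (hw : ∀ l, w l = ∑ i, c i * u i l) (hv : ∀ l, v l = ∑ i, a i * u i l)
    (hwF : ∀ i, aeval w (F i) = 0)
    (hker : ∀ i, ∑ l, aeval w (pderiv l (F i)) * v l = 0) : False := by
  have hn : Fintype.card ι < r + 3 := by omega
  have hw0 : ∃ i₀, w i₀ ≠ 0 := by
    by_contra hcon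
    push Not at hcon
    refine tr_rel hu hind2 (e := c) ?_ (fun l => ?_) hn
    · by_contra h
      push Not at h
      apply hΔ
      rw [h.1, h.2]
      ring
    · rw [← hw l, hcon l]
  obtain ⟨i₀, hi₀⟩ := hw0
  obtain ⟨w', hw'⟩ : ∃ w' : Fin (r + 3) → ℂ, ∀ l, w' l = w l / w i₀ := ⟨_, fun _ => rfl⟩
  have hww : ∀ l, w l = w i₀ * w' l := by
    intro l
    rw [hw', mul_div_cancel₀ _ hi₀]
  have hw'i : w' i₀ = 1 := by rw [hw', div_self hi₀]
  have hw'0 : w' ≠ 0 := by
    intro h1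
    rw [h1] at hw'i
    exact zero_ne_one hw'i
  have hw'F : w' ∈ cone F := by
    refine ⟨hw'0, fun i => ?_⟩
    have h1 := aeval_scale (hX.hom i) hww
    rw [hwF i] at h1
    exact (mul_eq_zero.1 h1.symm).resolve_left (pow_ne_zero _ hi₀)
  have hker' : ∀ i, ∑ l, aeval w' (pderiv l (F i)) * v l = 0 := by
    intro i
    have h1 := hker i
    have h2 : ∀ l, aeval w (pderiv l (F i)) * v l =
        w i₀ ^ (d i - 1) * (aeval w' (pderiv l (F i)) * v l) := by
      intro l
      rw [aeval_scale (hX.hom i).pderiv hww]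
      ring
    rw [Finset.sum_congr rfl fun l _ => h2 l, ← Finset.mul_sum] at h1
    exact (mul_eq_zero.1 h1).resolve_left (pow_ne_zero _ hi₀)
  obtain ⟨t, ht⟩ := tr_two hX hw'i hw'F
  obtain ⟨M, hM⟩ : ∃ M : Fl, M = clo (adj E (Set.range t)) := ⟨_, rfl⟩
  have hEM : E ≤ M := by
    rw [hM]
    exact (le_adj _ _).trans (le_clo _)
  have hw'M : ∀ l, w' l ∈ M := by
    intro l
    rw [hM]
    exact clo_mono (adj_le (hKE.trans (le_adj _ _)) fun x hx => subset_adj _ _ hx) (ht l)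
  have hne : ∃ l, v l ≠ v i₀ * w' l := by
    by_contra hcon
    push Not at hcon
    refine tr_rel hu hind2 (e := fun i => a i - v i₀ / w i₀ * c i) ?_ (fun l => ?_) hn
    · by_contra h
      push Not at h
      apply hΔ
      linear_combination c j * h.2 - c j' * h.1
    · have h1 : ∀ i, (a i - v i₀ / w i₀ * c i) * u i l =
          a i * u i l - v i₀ / w i₀ * (c i * u i l) := fun i => by ring
      rw [Finset.sum_congr rfl fun i _ => h1 i, Finset.sum_sub_distrib, ← Finset.mul_sum,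
        ← hw l, ← hv l, hcon l, hww l]
      field_simp
      ring
  obtain ⟨ρ, β, v', hv'M, hv'⟩ := tr_ker hX (fun i => (hX.coef i).mono (hKE.trans hEM))
    hw'M hw'i hw'F hker' hne
  obtain ⟨P, hP⟩ := tr_exch hjj hΔ (w' := w') (v' := v') (ξ := w i₀) (η := 0) hw hv
    (fun l => by rw [hww l]; ring) hv'
  obtain ⟨Q, hQ⟩ := tr_exch hjj.symm (j := j') (j' := j) (c := c) (a := a) (u := u)
    (fun h => hΔ (by linear_combination -h)) (w' := v') (v' := w') (ξ := 0) (η := w i₀)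
    (α := β) (β := v i₀) hw hv (fun l => by rw [hww l]; ring) (fun l => by rw [hv' l]; ring)
  have hQ' : ∀ l, u j' l = ∑ i, Q i * (if i = j then w' else if i = j' then v' else u i) l := by
    intro l
    rw [hQ l]
    refine Finset.sum_congr rfl fun i _ => ?_
    by_cases h1 : i = j
    · subst h1
      rw [if_neg hjj, if_pos rfl, if_pos rfl]
    · by_cases h2 : i = j'
      · subst h2
        rw [if_pos rfl, if_neg h1, if_pos rfl]
      · rw [if_neg h2, if_neg h1, if_neg h1, if_neg h2]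
  refine tr_cnt2 hind2 (t := Sum.elim t (fun _ : Unit => ρ)) (fun i l => ?_) hP hQ' ?_
  · have hLt : L ≤ clo (adj L (Set.range (Sum.elim t (fun _ : Unit => ρ)))) :=
      (le_adj _ _).trans (le_clo _)
    have htt : Set.range t ⊆ clo (adj L (Set.range (Sum.elim t (fun _ : Unit => ρ)))) := by
      rintro _ ⟨o, rfl⟩
      exact le_clo _ (subset_adj _ _ ⟨Sum.inl o, rfl⟩)
    by_cases h1 : i = j
    · rw [if_pos h1]
      exact clo_adj_le ((hKE.trans hEL).trans hLt) htt (ht l)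
    · rw [if_neg h1]
      by_cases h2 : i = j'
      · rw [if_pos h2]
        refine clo_adj_le ?_ ?_ (hv'M l)
        · rw [hM]
          exact clo_adj_le (hEL.trans hLt) htt
        · rintro _ rfl
          exact le_clo _ (subset_adj _ _ ⟨Sum.inr (), rfl⟩)
      · rw [if_neg h2]
        exact hLt (hu i h1 h2 l)
  · rw [Nat.card_sum, Nat.card_eq_fintype_card (α := Fin 2), Fintype.card_fin, hι]
    simp only [Nat.card_unique]
    omega

theorem tr_not_gen (hF : ∀ i, (F i).IsHomogeneous (d i)) {E : Fl} {w : Fin (r + 3) → ℂ}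
    (hw : w ≠ 0) (hwF : ∀ i, aeval w (F i) = 0) (h : mkP w ∉ Gen E F) :
    ∃ (ξ : ℂ) (w' : Fin (r + 3) → ℂ) (t : ℂ), (∀ l, w l = ξ * w' l) ∧
      ∀ l, w' l ∈ clo (adj E {t}) := by
  obtain ⟨i₀, hi₀⟩ := Function.ne_iff.1 hw
  rw [Pi.zero_apply] at hi₀
  obtain ⟨w', hw'⟩ : ∃ w' : Fin (r + 3) → ℂ, ∀ l, w' l = w l / w i₀ := ⟨_, fun _ => rfl⟩
  have hww : ∀ l, w l = w i₀ * w' l := by
    intro l
    rw [hw', mul_div_cancel₀ _ hi₀]
  have hw'i : w' i₀ = 1 := by rw [hw', div_self hi₀]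
  have hw'0 : w' ≠ 0 := by
    intro h1
    rw [h1] at hw'i
    exact zero_ne_one hw'i
  have hw'F : ∀ i, aeval w' (F i) = 0 := by
    intro i
    have h1 := aeval_scale (hF i) hww
    rw [hwF i] at h1
    exact (mul_eq_zero.1 h1.symm).resolve_left (pow_ne_zero _ hi₀)
  have h1 : ∀ j l, ¬ AlgebraicIndependent E ![w' j, w' l] := by
    intro j l h2
    apply h
    rw [mkP_eq hw, mk_eq_mk_of_mul hw hw'0 hww]
    exact gen_mk hF hw'0 hw'i hw'F h2
  obtain ⟨t, ht⟩ := exists_par' h1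
  exact ⟨w i₀, w', t, hww, ht⟩

/-- `X` does not meet the span of `b_1, …, b_r` -/
theorem sec_empty (hX : Sfc F d K) (E : Fl) [Countable E] (hKE : K ≤ E)
    {b : Fin r → Fin (r + 3) → ℂ}
    (hb : AlgebraicIndependent E fun jl : Fin r × Fin (r + 3) => b jl.1 jl.2)
    {c : Fin r → ℂ} (hc : c ≠ 0) : ∃ i, aeval (vec 0 b c) (F i) ≠ 0 := by
  classical
  by_contra hcon
  push Not at hcon
  obtain ⟨j₀, hj₀⟩ := Function.ne_iff.1 hc
  rw [Pi.zero_apply] at hj₀
  have hspl := tr_split1 hb j₀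
  have hu : ∀ i, i ≠ j₀ → ∀ l, b i l ∈
      adj E (Set.range fun p : {i : Fin r // i ≠ j₀} × Fin (r + 3) => b p.1 p.2) :=
    fun i hi l => subset_adj _ _ ⟨(⟨i, hi⟩, l), rfl⟩
  have hw : ∀ l, vec 0 b c l = ∑ i, c i * b i l := fun l => zero_add _
  by_cases hw0 : vec 0 b c = 0
  · refine tr_cnt1 hu hspl hj₀ (w := vec 0 b c) (w' := 0) (ξ := 0) hw (fun l => ?_)
      (t := fun i : Empty => i.elim) (fun l => zero_mem _) ?_
    · rw [hw0]
      simp
    · simp
  · obtain ⟨i₀, hi₀⟩ := Function.ne_iff.1 hw0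
    rw [Pi.zero_apply] at hi₀
    obtain ⟨w', hw'⟩ : ∃ w' : Fin (r + 3) → ℂ, ∀ l, w' l = vec 0 b c l / vec 0 b c i₀ :=
      ⟨_, fun _ => rfl⟩
    have hww : ∀ l, vec 0 b c l = vec 0 b c i₀ * w' l := by
      intro l
      rw [hw', mul_div_cancel₀ _ hi₀]
    have hw'i : w' i₀ = 1 := by rw [hw', div_self hi₀]
    have hw'0 : w' ≠ 0 := by
      intro h1
      rw [h1] at hw'i
      exact zero_ne_one hw'i
    have hw'F : w' ∈ cone F := by
      refine ⟨hw'0, fun i => ?_⟩
      have h1 := aeval_scale (hX.hom i) hww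
      rw [hcon i] at h1
      exact (mul_eq_zero.1 h1.symm).resolve_left (pow_ne_zero _ hi₀)
    obtain ⟨t, ht⟩ := tr_two hX.toSfc0 hw'i hw'F
    refine tr_cnt1 hu hspl hj₀ hw hww (t := t) (fun l => ?_) ?_
    · exact clo_mono (adj_le ((hKE.trans (le_adj _ _)).trans (le_adj _ _))
        fun x hx => subset_adj _ _ hx) (ht l)
    · rw [Nat.card_eq_fintype_card, Fintype.card_fin, Fintype.card_fin]
      omega

/-- the points other than `x` are generic over `E` -/
theorem sec_gen (hX : Sfc F d K) (E : Fl) [Countable E] (hE : clo E = E) (hKE : K ≤ E)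
    {x : Fin (r + 3) → ℂ} (hx : ∀ l, x l ∈ E) {b : Fin r → Fin (r + 3) → ℂ}
    (hb : AlgebraicIndependent E fun jl : Fin r × Fin (r + 3) => b jl.1 jl.2)
    {c : Fin r → ℂ} (hc : c ∈ SecC F x b) (hc0 : c ≠ 0) : mkP (vec x b c) ∈ Gen E F := by
  classical
  by_contra hcon
  obtain ⟨j₀, hj₀⟩ := Function.ne_iff.1 hc0
  rw [Pi.zero_apply] at hj₀
  have hspl := tr_split1 hb j₀
  have hu : ∀ i : Option (Fin r), i ≠ some j₀ → ∀ l, (i.elim x b : Fin (r + 3) → ℂ) l ∈
      adj E (Set.range fun p : {i : Fin r // i ≠ j₀} × Fin (r + 3) => b p.1 p.2) := by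
    intro i hi l
    cases i with
    | none => exact le_adj _ _ (hx l)
    | some i => exact subset_adj _ _ ⟨(⟨i, fun h => hi (by rw [h])⟩, l), rfl⟩
  have hw : ∀ l, vec x b c l =
      ∑ i : Option (Fin r), (i.elim 1 c : ℂ) * (i.elim x b : Fin (r + 3) → ℂ) l := by
    intro l
    rw [Fintype.sum_option]
    change x l + ∑ j, c j * b j l = 1 * x l + ∑ j, c j * b j l
    rw [one_mul]
  have hw0 : vec x b c ≠ 0 := by
    intro hw0
    refine tr_cnt1 (u := fun i : Option (Fin r) => i.elim x b) (j := some j₀) hu hspl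
      (c := fun i => i.elim 1 c) hj₀ (w := vec x b c) (w' := 0) (ξ := 0) hw (fun l => ?_)
      (t := fun i : Empty => i.elim) (fun l => zero_mem _) ?_
    · rw [hw0]
      simp
    · simp
  obtain ⟨ξ, w', t, h1, h2⟩ := tr_not_gen hX.hom hw0 hc hcon
  refine tr_cnt1 (u := fun i : Option (Fin r) => i.elim x b) (j := some j₀) hu hspl
    (c := fun i => i.elim 1 c) hj₀ hw h1 (t := fun _ : Unit => t) (fun l => ?_) ?_
  · refine clo_mono (adj_le ((le_adj _ _).trans (le_adj _ _)) ?_) (h2 l)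
    rintro _ rfl
    exact subset_adj _ _ ⟨(), rfl⟩
  · simp only [Nat.card_unique, Fintype.card_option, Fintype.card_fin]
    omega

/-- the same for the span of `b₀, b_1, …, b_r` -/
theorem sec_gen0 (hX : Sfc F d K) (E : Fl) [Countable E] (hE : clo E = E) (hKE : K ≤ E)
    {b₀ : Fin (r + 3) → ℂ} {b : Fin r → Fin (r + 3) → ℂ}
    (hb : AlgebraicIndependent E (Sum.elim b₀ fun jl : Fin r × Fin (r + 3) => b jl.1 jl.2))
    {c : Fin r → ℂ} (hc : c ∈ SecC F b₀ b) : mkP (vec b₀ b c) ∈ Gen E F := by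
  classical
  by_contra hcon
  have hspl := tr_split1 (u := fun i : Option (Fin r) => i.elim b₀ b) (tr_opt hb) none
  have hu : ∀ i : Option (Fin r), i ≠ none → ∀ l, (i.elim b₀ b : Fin (r + 3) → ℂ) l ∈
      adj E (Set.range fun p : {i : Option (Fin r) // i ≠ none} × Fin (r + 3) =>
        (p.1.1.elim b₀ b : Fin (r + 3) → ℂ) p.2) :=
    fun i hi l => subset_adj _ _ ⟨(⟨i, hi⟩, l), rfl⟩
  have hw0 : vec b₀ b c ≠ 0 := by
    intro hw0
    refine tr_cnt1 (u := fun i : Option (Fin r) => i.elim b₀ b) (j := none) hu hspl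
      (c := fun i => i.elim 1 c) one_ne_zero (w := vec b₀ b c) (w' := 0) (ξ := 0)
      (tr_vec b₀ b c) (fun l => ?_) (t := fun i : Empty => i.elim) (fun l => zero_mem _) ?_
    · rw [hw0]
      simp
    · simp
  obtain ⟨ξ, w', t, h1, h2⟩ := tr_not_gen hX.hom hw0 hc hcon
  refine tr_cnt1 (u := fun i : Option (Fin r) => i.elim b₀ b) (j := none) hu hspl
    (c := fun i => i.elim 1 c) one_ne_zero (tr_vec b₀ b c) h1 (t := fun _ : Unit => t)
    (fun l => ?_) ?_
  · refine clo_mono (adj_le ((le_adj _ _).trans (le_adj _ _)) ?_) (h2 l)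
    rintro _ rfl
    exact subset_adj _ _ ⟨(), rfl⟩
  · simp only [Nat.card_unique, Fintype.card_option, Fintype.card_fin]
    omega

/-- a tangent vector in the span of the `b_j` -/
theorem tr_jac {w : Fin (r + 3) → ℂ} {b : Fin r → Fin (r + 3) → ℂ}
    (h : ¬ Tr F w b) : ∃ a : Fin r → ℂ, a ≠ 0 ∧
      ∀ i, ∑ l, aeval w (pderiv l (F i)) * (∑ j, a j * b j l) = 0 := by
  unfold Tr at h
  push Not at h
  obtain ⟨a, h1, ha⟩ := h
  refine ⟨a, ha, fun i => ?_⟩
  rw [← h1 i, dFc]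
  exact Finset.sum_congr rfl fun l _ => mul_comm _ _

/-- generic directions are transversal -/
theorem tr_of_gen (hX : Sfc0 F d K) {L : Fl} (hKL : K ≤ L) {x : Fin (r + 3) → ℂ}
    (hx : ∀ l, x l ∈ L) (hxF : x ∈ cone F) {b : Fin r → Fin (r + 3) → ℂ}
    (hb : AlgebraicIndependent L fun jl : Fin r × Fin (r + 3) => b jl.1 jl.2) : Tr F x b := by
  obtain ⟨I, hI, -, -⟩ := hX.exists_loc hxF
  have h1 := jac_ne (F := fun j => F (I j)) (fun j => (hX.coef (I j)).mono hKL) hx hI hb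
  intro γ hγ
  by_contra hne
  apply h1
  refine Matrix.exists_mulVec_eq_zero_iff.1 ⟨γ, hne, ?_⟩
  funext i
  rw [Pi.zero_apply, Matrix.mulVec, dotProduct]
  simp only [jacM, Matrix.of_apply]
  rw [← hγ (I i), dFc]
  simp only [Finset.sum_mul]
  rw [Finset.sum_comm]
  exact Finset.sum_congr rfl fun j _ => Finset.sum_congr rfl fun l _ => by ring

/-- `X` and the span of `x, b_1, …, b_r` are transversal -/
theorem sec_tra (hX : Sfc F d K) (E : Fl) [Countable E] (hE : clo E = E) (hKE : K ≤ E)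
    {x : Fin (r + 3) → ℂ} (hx : ∀ l, x l ∈ E) (hxF : x ∈ cone F)
    {b : Fin r → Fin (r + 3) → ℂ}
    (hb : AlgebraicIndependent E fun jl : Fin r × Fin (r + 3) => b jl.1 jl.2)
    {c : Fin r → ℂ} (hc : c ∈ SecC F x b) : Tr F (vec x b c) b := by
  classical
  by_cases hc0 : c = 0
  · have h1 : vec x b c = x := by
      funext l
      rw [vec, hc0]
      simp
    rw [h1]
    exact tr_of_gen hX.toSfc0 hKE hx hxF hb
  by_contra hdet
  obtain ⟨a, ha, hker⟩ := tr_jac hdet
  have hgen := sec_gen hX E hE hKE hx hb hc hc0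
  obtain ⟨w, hwd⟩ : ∃ w, w = vec x b c := ⟨_, rfl⟩
  obtain ⟨v, hvd⟩ : ∃ v : Fin (r + 3) → ℂ, ∀ l, v l = ∑ j, a j * b j l := ⟨_, fun _ => rfl⟩
  have hwF : ∀ i, aeval w (F i) = 0 := by
    intro i
    rw [hwd]
    exact hc i
  rw [← hwd] at hker hgen
  have hker : ∀ i, ∑ l, aeval w (pderiv l (F i)) * v l = 0 := by
    intro i
    rw [← hker i]
    exact Finset.sum_congr rfl fun l _ => by rw [hvd]
  have hmin : ∃ j j', c j * a j' - c j' * a j ≠ 0 := by
    by_contra hcon
    push Not at hcon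
    obtain ⟨j₁, hj₁⟩ := Function.ne_iff.1 ha
    rw [Pi.zero_apply] at hj₁
    have h1 : ∀ l, w l = x l + c j₁ / a j₁ * v l := by
      intro l
      rw [hwd, vec, hvd, Finset.mul_sum]
      congr 1
      refine Finset.sum_congr rfl fun j _ => ?_
      have h2 : c j = c j₁ / a j₁ * a j := by
        field_simp
        linear_combination hcon j j₁
      rw [h2]
      ring
    have hw0 : w ≠ 0 := by
      intro h2
      rw [h2] at hgen
      obtain ⟨-, i, j, l, -, h3⟩ := hgen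
      have h4 : (mkP (0 : Fin (r + 3) → ℂ)) =
          Projectivization.mk ℂ (fun _ : Fin (r + 3) => (1 : ℂ)) (by
            intro h
            have := congrFun h 0
            simp at this) := by
        unfold mkP
        congr 1
        simp
      rw [h4, rep_mk_div, rep_mk_div] at h3
      exact (ai_pair.1 h3).1 (by simp)
    obtain ⟨i₀, hi₀⟩ := Function.ne_iff.1 hw0
    rw [Pi.zero_apply] at hi₀
    obtain ⟨w', hw'⟩ : ∃ w' : Fin (r + 3) → ℂ, ∀ l, w' l = w l / w i₀ := ⟨_, fun _ => rfl⟩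
    have hww : ∀ l, w l = w i₀ * w' l := by
      intro l
      rw [hw', mul_div_cancel₀ _ hi₀]
    have hw'i : w' i₀ = 1 := by rw [hw', div_self hi₀]
    have hw'0 : w' ≠ 0 := by
      intro h1
      rw [h1] at hw'i
      exact zero_ne_one hw'i
    have hw'F : w' ∈ cone F := by
      refine ⟨hw'0, fun i => ?_⟩
      have h1 := aeval_scale (hX.hom i) hww
      rw [hwF i] at h1
      exact (mul_eq_zero.1 h1.symm).resolve_left (pow_ne_zero _ hi₀)
    rw [mkP_eq hw0, mk_eq_mk_of_mul hw0 hw'0 hww] at hgen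
    obtain ⟨j, l, hjl⟩ := gen_coord hX.hom hw'0 hw'i hgen
    obtain ⟨s, hs⟩ := hX.ncone E inferInstance hE hKE x hxF hx w' hw'F i₀ j l hw'i hjl
    apply hs
    have h2 : ∀ l, x l * aeval w' (pderiv l (F s)) = w i₀ * (w' l * aeval w' (pderiv l (F s))) -
        c j₁ / a j₁ * (aeval w' (pderiv l (F s)) * v l) := by
      intro l
      have h3 := h1 l
      rw [hww l] at h3
      linear_combination (-aeval w' (pderiv l (F s))) * h3
    have h4 : ∑ l, aeval w' (pderiv l (F s)) * v l = 0 := by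
      have h5 := hker s
      have h6 : ∀ l, aeval w (pderiv l (F s)) * v l =
          w i₀ ^ (d s - 1) * (aeval w' (pderiv l (F s)) * v l) := by
        intro l
        rw [aeval_scale (hX.hom s).pderiv hww]
        ring
      rw [Finset.sum_congr rfl fun l _ => h6 l, ← Finset.mul_sum] at h5
      exact (mul_eq_zero.1 h5).resolve_left (pow_ne_zero _ hi₀)
    have h7 := hX.dFc_self hw'F s
    rw [dFc] at h7
    rw [dFc, Finset.sum_congr rfl fun l _ => h2 l, Finset.sum_sub_distrib, ← Finset.mul_sum,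
      ← Finset.mul_sum, h7, h4]
    ring
  obtain ⟨j, j', hΔ⟩ := hmin
  have hjj : j ≠ j' := by
    rintro rfl
    apply hΔ
    ring
  refine tr_core hX.toSfc0 hKE (ι := Option (Fin r)) (by simp)
    (u := fun i => i.elim x b) (j := some j) (j' := some j') (by simpa using hjj)
    (L := adj E (Set.range fun p : {i : Fin r // i ≠ j ∧ i ≠ j'} × Fin (r + 3) => b p.1 p.2))
    (le_adj _ _) ?_ (tr_split2 hb hjj) (c := fun i => i.elim 1 c) (a := fun i => i.elim 0 a) hΔ
    (w := w) (v := v) (fun l => by rw [hwd]; exact tr_vec x b c l) (fun l => ?_) hwF hker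
  · intro i h1 h2 l
    cases i with
    | none => exact le_adj _ _ (hx l)
    | some i => exact subset_adj _ _ ⟨(⟨i, fun h => h1 (by rw [h]), fun h => h2 (by rw [h])⟩, l),
        rfl⟩
  · rw [Fintype.sum_option, hvd]
    change _ = 0 * x l + ∑ j, a j * b j l
    rw [zero_mul, zero_add]

theorem sec_tra0 (hX : Sfc F d K) (E : Fl) [Countable E] (hE : clo E = E) (hKE : K ≤ E)
    {b₀ : Fin (r + 3) → ℂ} {b : Fin r → Fin (r + 3) → ℂ}
    (hb : AlgebraicIndependent E (Sum.elim b₀ fun jl : Fin r × Fin (r + 3) => b jl.1 jl.2))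
    {c : Fin r → ℂ} (hc : c ∈ SecC F b₀ b) : Tr F (vec b₀ b c) b := by
  classical
  by_contra hdet
  obtain ⟨a, ha, hker⟩ := tr_jac hdet
  obtain ⟨j, hj⟩ := Function.ne_iff.1 ha
  rw [Pi.zero_apply] at hj
  refine tr_core hX.toSfc0 hKE (ι := Option (Fin r)) (by simp)
    (u := fun i => i.elim b₀ b) (j := none) (j' := some j) (by simp)
    (L := adj E (Set.range fun p : {i : Option (Fin r) // i ≠ none ∧ i ≠ some j} ×
      Fin (r + 3) => (p.1.1.elim b₀ b : Fin (r + 3) → ℂ) p.2))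
    (le_adj _ _) ?_ (tr_split2 (u := fun i : Option (Fin r) => i.elim b₀ b) (tr_opt hb)
      (by simp)) (c := fun i => i.elim 1 c) (a := fun i => i.elim 0 a) ?_
    (w := vec b₀ b c) (v := fun l => ∑ j, a j * b j l) (tr_vec b₀ b c) (fun l => ?_) hc hker
  · intro i h1 h2 l
    exact subset_adj _ _ ⟨(⟨i, h1, h2⟩, l), rfl⟩
  · change 1 * a j - c j * 0 ≠ 0
    rw [one_mul, mul_zero, sub_zero]
    exact hj
  · rw [Fintype.sum_option]
    change _ = 0 * b₀ l + ∑ j, a j * b j l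
    rw [zero_mul, zero_add]

end Pool.Agent.VRC
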